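import Mathlib

section

/-!
Algebraic tensor calculus with finitely many slots over a commutative ring with derivations.
-/

set_option linter.all false

open scoped BigOperators

namespace Run7.h96

section Slots

variable {I : Type} [Fintype I] [DecidableEq I] {R : Type} [CommRing R]

/-- Action of a matrix `M l i` on all the slots of a covariant tensor. -/
def act {κ : Type} [Fintype κ] [DecidableEq κ] (M : I → I → R) (T : (κ → I) → R) (K : κ → I) : R :=
  ∑ s, ∑ l, M l (K s) * T (Function.update K s l)

/-- tensor product -/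
def tens {κ μ : Type} (S : (κ → I) → R) (T : (μ → I) → R) (K : κ ⊕ μ → I) : R :=
  S (fun s => K (Sum.inl s)) * T (fun s => K (Sum.inr s))

/-- relabelling of the slots -/
def relab {κ μ : Type} (e : κ ≃ μ) (T : (κ → I) → R) (K : μ → I) : R := T (fun s => K (e s))

/-- adding one index in front -/
def ocons {κ : Type} (i : I) (K : κ → I) : Option κ → I := fun s => s.elim i K

@[simp] theorem ocons_none {κ : Type} (i : I) (K : κ → I) : ocons i K none = i := rfl
@[simp] theorem ocons_some {κ : Type} (i : I) (K : κ → I) (s : κ) : ocons i K (some s) = K s := rfl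

/-- contraction of the two outer slots with `Gi` -/
def contr2 {κ : Type} (Gi : I → I → R) (T : (Option (Option κ) → I) → R) (K : κ → I) : R :=
  ∑ i, ∑ j, Gi i j * T (ocons i (ocons j K))

/-- full contraction of two tensors -/
def pair {κ : Type} [Fintype κ] [DecidableEq κ] (Gi : I → I → R) (S T : (κ → I) → R) : R :=
  ∑ K, ∑ L, S K * (∏ s, Gi (K s) (L s)) * T L

theorem update_ocons_none {κ : Type} [DecidableEq κ] (i l : I) (K : κ → I) :
    Function.update (ocons i K) none l = ocons l K := by
  funext s; cases s <;> simp [Function.update]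

theorem update_ocons_some {κ : Type} [DecidableEq κ] (i l : I) (K : κ → I) (s : κ) :
    Function.update (ocons i K) (some s) l = ocons i (Function.update K s l) := by
  funext t
  cases t with
  | none => simp [Function.update]
  | some t =>
    by_cases h : t = s
    · subst h; simp
    · simp [Function.update, h]

theorem ocons_eta {κ : Type} (K : Option κ → I) : ocons (K none) (fun s => K (some s)) = K := by
  funext s; cases s <;> rfl

/-- sums over `Option κ → I` -/
theorem sum_option {κ : Type} [Fintype κ] [DecidableEq κ] {M : Type} [AddCommMonoid M]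
    (f : (Option κ → I) → M) : ∑ K, f K = ∑ i, ∑ K, f (ocons i K) := by
  rw [← Fintype.sum_prod_type' (f := fun i K => f (ocons i K))]
  exact Fintype.sum_equiv (Equiv.piOptionEquivProd (β := fun _ => I)) _ _
    (fun K => by simp [Equiv.piOptionEquivProd, ocons_eta])

theorem sum_sum {κ μ : Type} [Fintype κ] [DecidableEq κ] [Fintype μ] [DecidableEq μ] {M : Type}
    [AddCommMonoid M] (f : (κ ⊕ μ → I) → M) : ∑ K, f K = ∑ K, ∑ L, f (Sum.elim K L) := by
  rw [← Fintype.sum_prod_type' (f := fun K L => f (Sum.elim K L))]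
  exact Fintype.sum_equiv (Equiv.sumArrowEquivProdArrow κ μ I) _ _
    (fun K => by
      congr 1
      funext s; cases s <;> rfl)

/-- swapping the summed index with the value in slot `s` -/
theorem sum_update_swap {κ : Type} [Fintype κ] [DecidableEq κ] {M : Type} [AddCommMonoid M]
    (s : κ) (f : (κ → I) → I → M) :
    ∑ K, ∑ l, f K l = ∑ K : κ → I, ∑ l, f (Function.update K s l) (K s) := by
  rw [← Fintype.sum_prod_type' (f := fun K l => f K l),
    ← Fintype.sum_prod_type' (f := fun K l => f (Function.update K s l) (K s))]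
  refine Finset.sum_bij' (fun p _ => (Function.update p.1 s p.2, p.1 s))
    (fun p _ => (Function.update p.1 s p.2, p.1 s)) ?_ ?_ ?_ ?_ ?_
  · simp
  · simp
  · rintro ⟨K, l⟩ _; simp
  · rintro ⟨K, l⟩ _; simp
  · rintro ⟨K, l⟩ _; simp

theorem act_tens {κ μ : Type} [Fintype κ] [DecidableEq κ] [Fintype μ] [DecidableEq μ]
    (M : I → I → R) (S : (κ → I) → R) (T : (μ → I) → R) (K : κ ⊕ μ → I) :
    act M (tens S T) K = tens (act M S) T K + tens S (act M T) K := by
  unfold act tens
  rw [Fintype.sum_sum_type]
  congr 1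
  · rw [Finset.sum_mul]
    refine Finset.sum_congr rfl fun s _ => ?_
    rw [Finset.sum_mul]
    refine Finset.sum_congr rfl fun l _ => ?_
    have h1 : (fun t => Function.update K (Sum.inl s) l (Sum.inl t))
        = Function.update (fun t => K (Sum.inl t)) s l := by
      funext t; by_cases h : t = s
      · subst h; simp
      · simp [Function.update, h]
    have h2 : (fun t => Function.update K (Sum.inl s) l (Sum.inr t)) = fun t => K (Sum.inr t) := by
      funext t; simp [Function.update]
    rw [h1, h2]; ring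
  · rw [Finset.mul_sum]
    refine Finset.sum_congr rfl fun s _ => ?_
    rw [Finset.mul_sum]
    refine Finset.sum_congr rfl fun l _ => ?_
    have h1 : (fun t => Function.update K (Sum.inr s) l (Sum.inr t))
        = Function.update (fun t => K (Sum.inr t)) s l := by
      funext t; by_cases h : t = s
      · subst h; simp
      · simp [Function.update, h]
    have h2 : (fun t => Function.update K (Sum.inr s) l (Sum.inl t)) = fun t => K (Sum.inl t) := by
      funext t; simp [Function.update]
    rw [h1, h2]; ring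

theorem act_relab {κ μ : Type} [Fintype κ] [DecidableEq κ] [Fintype μ] [DecidableEq μ]
    (M : I → I → R) (e : κ ≃ μ) (T : (κ → I) → R) (K : μ → I) :
    act M (relab e T) K = relab e (act M T) K := by
  unfold act relab
  symm
  refine Fintype.sum_equiv e _ _ fun s => ?_
  refine Finset.sum_congr rfl fun l _ => ?_
  congr 2
  funext t
  by_cases h : t = s
  · subst h; simp
  · have : e t ≠ e s := fun h' => h (e.injective h')
    simp [Function.update, h, this]

theorem act_option {κ : Type} [Fintype κ] [DecidableEq κ] (M : I → I → R)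
    (T : (Option κ → I) → R) (i : I) (K : κ → I) :
    act M T (ocons i K) = (∑ l, M l i * T (ocons l K)) + act M (fun L => T (ocons i L)) K := by
  unfold act
  rw [Fintype.sum_option]
  simp only [ocons_none, ocons_some, update_ocons_none, update_ocons_some]

theorem act_add {κ : Type} [Fintype κ] [DecidableEq κ] (M : I → I → R)
    (S T : (κ → I) → R) (K : κ → I) : act M (fun L => S L + T L) K = act M S K + act M T K := by
  unfold act
  simp only [mul_add, Finset.sum_add_distrib]

theorem act_sum {κ α : Type} [Fintype κ] [DecidableEq κ] (M : I → I → R) (s : Finset α)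
    (T : α → (κ → I) → R) (K : κ → I) :
    act M (fun L => ∑ a ∈ s, T a L) K = ∑ a ∈ s, act M (T a) K := by
  unfold act
  simp only [Finset.mul_sum]
  rw [Finset.sum_comm' (s := s) (t := fun _ => Finset.univ) (s' := fun _ => s)
    (t' := Finset.univ) (by simp)]
  refine Finset.sum_congr rfl fun t _ => ?_
  rw [Finset.sum_comm]

theorem act_mul_const {κ : Type} [Fintype κ] [DecidableEq κ] (M : I → I → R) (c : R)
    (T : (κ → I) → R) (K : κ → I) : act M (fun L => c * T L) K = c * act M T K := by
  unfold act
  rw [Finset.mul_sum]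
  refine Finset.sum_congr rfl fun s _ => ?_
  rw [Finset.mul_sum]
  refine Finset.sum_congr rfl fun l _ => by ring

end Slots

end Run7.h96

end

section

/-!
Covariant derivative of tensors with finitely many slots, over a commutative ring with
derivations; Leibniz rules.
-/

set_option linter.all false

open scoped BigOperators

namespace Run7.h96

section Cov

variable {I : Type} [Fintype I] [DecidableEq I] {R : Type} [CommRing R] [Algebra ℝ R]
variable (δ : I → Derivation ℝ R R) (A : I → I → I → R)

/-- covariant derivative in direction `i`; `A i l m` is the `l`-component of `∇_i e_m` -/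
def cov {κ : Type} [Fintype κ] [DecidableEq κ] (i : I) (T : (κ → I) → R) (K : κ → I) : R :=
  δ i (T K) - act (A i) T K

/-- covariant derivative with the new slot in front -/
def DD {κ : Type} [Fintype κ] [DecidableEq κ] (T : (κ → I) → R) (K : Option κ → I) : R :=
  cov δ A (K none) T (fun s => K (some s))

theorem DD_ocons {κ : Type} [Fintype κ] [DecidableEq κ] (T : (κ → I) → R) (i : I) (K : κ → I) :
    DD δ A T (ocons i K) = cov δ A i T K := rfl

theorem cov_add {κ : Type} [Fintype κ] [DecidableEq κ] (i : I) (S T : (κ → I) → R) (K : κ → I) :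
    cov δ A i (fun L => S L + T L) K = cov δ A i S K + cov δ A i T K := by
  unfold cov; rw [act_add, map_add]; ring

theorem cov_sum {κ α : Type} [Fintype κ] [DecidableEq κ] (i : I) (s : Finset α)
    (T : α → (κ → I) → R) (K : κ → I) :
    cov δ A i (fun L => ∑ a ∈ s, T a L) K = ∑ a ∈ s, cov δ A i (T a) K := by
  unfold cov; rw [act_sum, map_sum, Finset.sum_sub_distrib]

theorem act_smul {κ : Type} [Fintype κ] [DecidableEq κ] (M : I → I → R) (c : ℝ)
    (T : (κ → I) → R) (K : κ → I) : act M (fun L => c • T L) K = c • act M T K := by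
  unfold act
  rw [Finset.smul_sum]
  refine Finset.sum_congr rfl fun s _ => ?_
  rw [Finset.smul_sum]
  refine Finset.sum_congr rfl fun l _ => by rw [mul_smul_comm]

theorem cov_smul {κ : Type} [Fintype κ] [DecidableEq κ] (i : I) (c : ℝ) (T : (κ → I) → R)
    (K : κ → I) : cov δ A i (fun L => c • T L) K = c • cov δ A i T K := by
  unfold cov; rw [act_smul, Derivation.map_smul, smul_sub]

theorem cov_tens {κ μ : Type} [Fintype κ] [DecidableEq κ] [Fintype μ] [DecidableEq μ] (i : I)
    (S : (κ → I) → R) (T : (μ → I) → R) (K : κ ⊕ μ → I) :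
    cov δ A i (tens S T) K = tens (cov δ A i S) T K + tens S (cov δ A i T) K := by
  unfold cov
  rw [act_tens]
  have h : δ i (tens S T K) = tens (fun L => δ i (S L)) T K + tens S (fun L => δ i (T L)) K := by
    simp only [tens, Derivation.leibniz, smul_eq_mul]; ring
  rw [h]
  simp only [tens]; ring

theorem cov_relab {κ μ : Type} [Fintype κ] [DecidableEq κ] [Fintype μ] [DecidableEq μ] (i : I)
    (e : κ ≃ μ) (T : (κ → I) → R) (K : μ → I) :
    cov δ A i (relab e T) K = relab e (cov δ A i T) K := by
  unfold cov
  rw [act_relab]; rfl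

/-- metric compatibility, in terms of the inverse metric -/
def Compat (Gi : I → I → R) : Prop :=
  ∀ i l m, δ i (Gi l m) = -(∑ p, A i l p * Gi p m) - ∑ p, A i m p * Gi l p

theorem cov_contr2 {κ : Type} [Fintype κ] [DecidableEq κ] {Gi : I → I → R}
    (hGi : Compat δ A Gi) (i : I) (T : (Option (Option κ) → I) → R) (K : κ → I) :
    cov δ A i (contr2 Gi T) K = contr2 Gi (cov δ A i T) K := by
  have h1 : act (A i) (contr2 Gi T) K
      = ∑ l, ∑ m, Gi l m * act (A i) (fun L => T (ocons l (ocons m L))) K := by
    have : contr2 Gi T = fun L => ∑ l, ∑ m, Gi l m * T (ocons l (ocons m L)) := rfl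
    rw [this, act_sum]
    refine Finset.sum_congr rfl fun l _ => ?_
    rw [act_sum]
    refine Finset.sum_congr rfl fun m _ => ?_
    rw [act_mul_const]
  have h2 : ∀ l m, cov δ A i T (ocons l (ocons m K))
      = δ i (T (ocons l (ocons m K))) - (∑ p, A i p l * T (ocons p (ocons m K)))
        - (∑ p, A i p m * T (ocons l (ocons p K)))
        - act (A i) (fun L => T (ocons l (ocons m L))) K := by
    intro l m
    unfold cov
    rw [act_option, act_option]; ring
  have h3 : δ i (contr2 Gi T K) = ∑ l, ∑ m, (Gi l m * δ i (T (ocons l (ocons m K)))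
      + T (ocons l (ocons m K)) * (-(∑ p, A i l p * Gi p m) - ∑ p, A i m p * Gi l p)) := by
    unfold contr2
    rw [map_sum]
    refine Finset.sum_congr rfl fun l _ => ?_
    rw [map_sum]
    refine Finset.sum_congr rfl fun m _ => ?_
    rw [Derivation.leibniz, hGi i l m]; simp only [smul_eq_mul]
  have h4 : ∑ l, ∑ m, Gi l m * ∑ p, A i p l * T (ocons p (ocons m K))
      = ∑ l, ∑ m, T (ocons l (ocons m K)) * ∑ p, A i l p * Gi p m := by
    simp only [Finset.mul_sum]
    have e1 : ∀ l, ∑ m, ∑ p, Gi l m * (A i p l * T (ocons p (ocons m K)))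
        = ∑ p, ∑ m, Gi l m * (A i p l * T (ocons p (ocons m K))) := fun l => Finset.sum_comm
    rw [Finset.sum_congr rfl fun l _ => e1 l, Finset.sum_comm]
    refine Finset.sum_congr rfl fun p _ => ?_
    rw [Finset.sum_comm]
    refine Finset.sum_congr rfl fun m _ => ?_
    refine Finset.sum_congr rfl fun l _ => by ring
  have h5 : ∑ l, ∑ m, Gi l m * ∑ p, A i p m * T (ocons l (ocons p K))
      = ∑ l, ∑ m, T (ocons l (ocons m K)) * ∑ p, A i m p * Gi l p := by
    refine Finset.sum_congr rfl fun l _ => ?_
    simp only [Finset.mul_sum]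
    rw [Finset.sum_comm]
    refine Finset.sum_congr rfl fun p _ => ?_
    refine Finset.sum_congr rfl fun m _ => by ring
  have h6 : contr2 Gi (cov δ A i T) K
      = (∑ l, ∑ m, Gi l m * δ i (T (ocons l (ocons m K))))
        - (∑ l, ∑ m, Gi l m * ∑ p, A i p l * T (ocons p (ocons m K)))
        - (∑ l, ∑ m, Gi l m * ∑ p, A i p m * T (ocons l (ocons p K)))
        - ∑ l, ∑ m, Gi l m * act (A i) (fun L => T (ocons l (ocons m L))) K := by
    unfold contr2
    simp only [h2, mul_sub, Finset.sum_sub_distrib]
  rw [h6, h4, h5]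
  conv_lhs => rw [cov, h1, h3]
  simp only [mul_sub, mul_neg, Finset.sum_add_distrib, Finset.sum_sub_distrib,
    Finset.sum_neg_distrib]
  ring

end Cov

end Run7.h96

end

section

/-!
Full contraction of tensors and its compatibility with covariant derivatives.
-/

set_option linter.all false

open scoped BigOperators

namespace Run7.h96

section Pairing

variable {I : Type} [Fintype I] [DecidableEq I] {R : Type} [CommRing R] [Algebra ℝ R]

theorem der_prod {κ : Type} [DecidableEq κ] (d : Derivation ℝ R R) (s : Finset κ) (f : κ → R) :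
    d (∏ a ∈ s, f a) = ∑ a ∈ s, d (f a) * ∏ b ∈ s.erase a, f b := by
  induction s using Finset.induction_on with
  | empty => simp
  | @insert a s ha ih =>
    rw [Finset.prod_insert ha, Derivation.leibniz, ih, Finset.sum_insert ha,
      Finset.erase_insert ha]
    simp only [smul_eq_mul]
    rw [add_comm, Finset.mul_sum, mul_comm]
    congr 1
    refine Finset.sum_congr rfl fun b hb => ?_
    have hab : a ≠ b := fun h => ha (h ▸ hb)
    rw [Finset.erase_insert_of_ne hab, Finset.prod_insert (by simp [ha])]
    ring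

theorem swap_slot {κ : Type} [Fintype κ] [DecidableEq κ] (s : κ) (S : (κ → I) → R)
    (M : I → I → R) (X : κ → I → R) :
    ∑ K : κ → I, S K * ∑ p, M (K s) p * (X s p * ∏ t ∈ Finset.univ.erase s, X t (K t))
      = ∑ K : κ → I, (∑ p, M p (K s) * S (Function.update K s p)) * ∏ t, X t (K t) := by
  have h1 : ∀ (K : κ → I) (p : I), X s p * ∏ t ∈ Finset.univ.erase s, X t (K t)
      = ∏ t, X t (Function.update K s p t) := by
    intro K p
    rw [← Finset.mul_prod_erase Finset.univ _ (Finset.mem_univ s)]
    congr 1
    · simp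
    · refine Finset.prod_congr rfl fun t ht => ?_
      rw [Function.update_of_ne (Finset.ne_of_mem_erase ht)]
  simp only [h1, Finset.mul_sum, Finset.sum_mul]
  rw [sum_update_swap s]
  refine Finset.sum_congr rfl fun K _ => ?_
  refine Finset.sum_congr rfl fun p _ => ?_
  simp only [Function.update_idem, Function.update_self, Function.update_eq_self]
  ring

variable (δ : I → Derivation ℝ R R) (A : I → I → I → R)

theorem pair_comm_sum {κ : Type} [Fintype κ] [DecidableEq κ] (Gi : I → I → R)
    (S T : (κ → I) → R) :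
    pair Gi S T = ∑ L, (∑ K, S K * ∏ s, Gi (K s) (L s)) * T L := by
  unfold pair
  rw [Finset.sum_comm]
  simp only [Finset.sum_mul]

theorem cov_pair {κ : Type} [Fintype κ] [DecidableEq κ] {Gi : I → I → R}
    (hGi : Compat δ A Gi) (i : I) (S T : (κ → I) → R) :
    δ i (pair Gi S T) = pair Gi (cov δ A i S) T + pair Gi S (cov δ A i T) := by
  -- the terms coming from the derivative of the product
  have hP : ∀ K L : κ → I, δ i (∏ s, Gi (K s) (L s))
      = -(∑ s, ∑ p, A i (K s) p * (Gi p (L s) * ∏ t ∈ Finset.univ.erase s, Gi (K t) (L t)))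
        - ∑ s, ∑ p, A i (L s) p * (Gi (K s) p * ∏ t ∈ Finset.univ.erase s, Gi (K t) (L t)) := by
    intro K L
    rw [der_prod, ← Finset.sum_neg_distrib, ← Finset.sum_sub_distrib]
    refine Finset.sum_congr rfl fun s _ => ?_
    rw [hGi, sub_mul, neg_mul, Finset.sum_mul, Finset.sum_mul]
    congr 1
    · congr 1
      exact Finset.sum_congr rfl fun p _ => by ring
    · exact Finset.sum_congr rfl fun p _ => by ring
  have hK : ∑ K : κ → I, ∑ L : κ → I, S K
        * (∑ s, ∑ p, A i (K s) p * (Gi p (L s) * ∏ t ∈ Finset.univ.erase s, Gi (K t) (L t))) * T L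
      = pair Gi (act (A i) S) T := by
    unfold pair act
    rw [Finset.sum_comm]
    conv_rhs => rw [Finset.sum_comm]
    refine Finset.sum_congr rfl fun L _ => ?_
    rw [← Finset.sum_mul, ← Finset.sum_mul]
    congr 1
    simp only [Finset.mul_sum (s := Finset.univ) (f := fun s => ∑ p, A i _ p * _)]
    rw [Finset.sum_comm]
    simp only [Finset.sum_mul (s := Finset.univ) (f := fun s => ∑ l, A i l _ * _)]
    conv_rhs => rw [Finset.sum_comm]
    refine Finset.sum_congr rfl fun s _ => ?_
    exact swap_slot s S (A i) (fun t l => Gi l (L t))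
  have hL : ∑ K : κ → I, ∑ L : κ → I, S K
        * (∑ s, ∑ p, A i (L s) p * (Gi (K s) p * ∏ t ∈ Finset.univ.erase s, Gi (K t) (L t))) * T L
      = pair Gi S (act (A i) T) := by
    unfold pair act
    refine Finset.sum_congr rfl fun K _ => ?_
    have e1 : ∀ L : κ → I, S K * (∑ s, ∑ p, A i (L s) p
        * (Gi (K s) p * ∏ t ∈ Finset.univ.erase s, Gi (K t) (L t))) * T L
        = S K * ∑ s, T L * ∑ p, A i (L s) p
        * (Gi (K s) p * ∏ t ∈ Finset.univ.erase s, Gi (K t) (L t)) := by
      intro L
      rw [← Finset.mul_sum]; ring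
    have e2 : ∀ L : κ → I, S K * (∏ s, Gi (K s) (L s)) * ∑ s, ∑ l, A i l (L s)
        * T (Function.update L s l)
        = S K * ∑ s, (∑ l, A i l (L s) * T (Function.update L s l)) * ∏ s, Gi (K s) (L s) := by
      intro L
      rw [← Finset.sum_mul]; ring
    simp only [e1, e2]
    rw [← Finset.mul_sum, ← Finset.mul_sum]
    congr 1
    rw [Finset.sum_comm]
    conv_rhs => rw [Finset.sum_comm]
    refine Finset.sum_congr rfl fun s _ => ?_
    exact swap_slot s T (A i) (fun t l => Gi (K t) l)
  have hδ : δ i (pair Gi S T) = ∑ K, ∑ L, (δ i (S K) * (∏ s, Gi (K s) (L s)) * T L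
      + S K * δ i (∏ s, Gi (K s) (L s)) * T L + S K * (∏ s, Gi (K s) (L s)) * δ i (T L)) := by
    unfold pair
    rw [map_sum]
    refine Finset.sum_congr rfl fun K _ => ?_
    rw [map_sum]
    refine Finset.sum_congr rfl fun L _ => ?_
    simp only [Derivation.leibniz, smul_eq_mul]; ring
  rw [hδ]
  simp only [hP, mul_sub, mul_neg, sub_mul, neg_mul, Finset.sum_add_distrib,
    Finset.sum_sub_distrib, Finset.sum_neg_distrib]
  rw [hK, hL]
  have e3 : pair Gi (cov δ A i S) T = (∑ K, ∑ L, δ i (S K) * (∏ s, Gi (K s) (L s)) * T L)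
      - pair Gi (act (A i) S) T := by
    unfold pair cov
    simp only [sub_mul, Finset.sum_sub_distrib]
  have e4 : pair Gi S (cov δ A i T) = (∑ K, ∑ L, S K * (∏ s, Gi (K s) (L s)) * δ i (T L))
      - pair Gi S (act (A i) T) := by
    unfold pair cov
    simp only [mul_sub, Finset.sum_sub_distrib]
  rw [e3, e4]
  ring

end Pairing

end Run7.h96

end

section

/-!
Identities for the full contraction.
-/

set_option linter.all false

open scoped BigOperators

namespace Run7.h96

section Pairing2

variable {I : Type} [Fintype I] [DecidableEq I] {R : Type} [CommRing R] [Algebra ℝ R]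

theorem pair_add_left {κ : Type} [Fintype κ] [DecidableEq κ] (Gi : I → I → R)
    (S S' T : (κ → I) → R) : pair Gi (fun K => S K + S' K) T = pair Gi S T + pair Gi S' T := by
  unfold pair
  simp only [add_mul, Finset.sum_add_distrib]

theorem pair_add_right {κ : Type} [Fintype κ] [DecidableEq κ] (Gi : I → I → R)
    (S T T' : (κ → I) → R) : pair Gi S (fun K => T K + T' K) = pair Gi S T + pair Gi S T' := by
  unfold pair
  simp only [mul_add, Finset.sum_add_distrib]

theorem pair_sub_left {κ : Type} [Fintype κ] [DecidableEq κ] (Gi : I → I → R)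
    (S S' T : (κ → I) → R) : pair Gi (fun K => S K - S' K) T = pair Gi S T - pair Gi S' T := by
  unfold pair
  simp only [sub_mul, Finset.sum_sub_distrib]

theorem pair_smul_left {κ : Type} [Fintype κ] [DecidableEq κ] (Gi : I → I → R) (c : ℝ)
    (S T : (κ → I) → R) : pair Gi (fun K => c • S K) T = c • pair Gi S T := by
  unfold pair
  simp only [Finset.smul_sum, smul_mul_assoc]

theorem pair_smul_right {κ : Type} [Fintype κ] [DecidableEq κ] (Gi : I → I → R) (c : ℝ)
    (S T : (κ → I) → R) : pair Gi S (fun K => c • T K) = c • pair Gi S T := by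
  unfold pair
  simp only [Finset.smul_sum, mul_smul_comm]

theorem pair_mul_left {κ : Type} [Fintype κ] [DecidableEq κ] (Gi : I → I → R) (c : R)
    (S T : (κ → I) → R) : pair Gi (fun K => c * S K) T = c * pair Gi S T := by
  unfold pair
  simp only [Finset.mul_sum, mul_assoc]

theorem pair_mul_right {κ : Type} [Fintype κ] [DecidableEq κ] (Gi : I → I → R) (c : R)
    (S T : (κ → I) → R) : pair Gi S (fun K => c * T K) = c * pair Gi S T := by
  unfold pair
  simp only [Finset.mul_sum]
  refine Finset.sum_congr rfl fun K _ => Finset.sum_congr rfl fun L _ => by ring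

theorem pair_sum_left {κ α : Type} [Fintype κ] [DecidableEq κ] (Gi : I → I → R) (s : Finset α)
    (S : α → (κ → I) → R) (T : (κ → I) → R) :
    pair Gi (fun K => ∑ a ∈ s, S a K) T = ∑ a ∈ s, pair Gi (S a) T := by
  unfold pair
  simp only [Finset.sum_mul]
  have : ∀ K : κ → I, ∑ L : κ → I, ∑ a ∈ s, S a K * (∏ t, Gi (K t) (L t)) * T L
      = ∑ a ∈ s, ∑ L : κ → I, S a K * (∏ t, Gi (K t) (L t)) * T L := fun K => Finset.sum_comm
  rw [Finset.sum_congr rfl fun K _ => this K]
  rw [Finset.sum_comm]

theorem pair_sum_right {κ α : Type} [Fintype κ] [DecidableEq κ] (Gi : I → I → R) (s : Finset α)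
    (S : (κ → I) → R) (T : α → (κ → I) → R) :
    pair Gi S (fun K => ∑ a ∈ s, T a K) = ∑ a ∈ s, pair Gi S (T a) := by
  unfold pair
  simp only [Finset.mul_sum]
  have : ∀ K : κ → I, ∑ L : κ → I, ∑ a ∈ s, S K * (∏ t, Gi (K t) (L t)) * T a L
      = ∑ a ∈ s, ∑ L : κ → I, S K * (∏ t, Gi (K t) (L t)) * T a L := fun K => Finset.sum_comm
  rw [Finset.sum_congr rfl fun K _ => this K]
  rw [Finset.sum_comm]

theorem pair_comm {κ : Type} [Fintype κ] [DecidableEq κ] {Gi : I → I → R}
    (hs : ∀ i j, Gi i j = Gi j i) (S T : (κ → I) → R) : pair Gi S T = pair Gi T S := by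
  unfold pair
  rw [Finset.sum_comm]
  refine Finset.sum_congr rfl fun K _ => Finset.sum_congr rfl fun L _ => ?_
  rw [Finset.prod_congr rfl fun s _ => hs (L s) (K s)]; ring

/-- (I1) -/
theorem pair_option {κ : Type} [Fintype κ] [DecidableEq κ] (Gi : I → I → R)
    (S T : (Option κ → I) → R) :
    pair Gi S T = ∑ i, ∑ j, Gi i j * pair Gi (fun K => S (ocons i K)) (fun K => T (ocons j K)) := by
  unfold pair
  rw [sum_option]
  refine Finset.sum_congr rfl fun i _ => ?_
  have : ∀ K : κ → I, ∑ L : Option κ → I, S (ocons i K) * (∏ s, Gi (ocons i K s) (L s)) * T L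
      = ∑ j, ∑ L : κ → I, Gi i j * (S (ocons i K) * (∏ s, Gi (K s) (L s)) * T (ocons j L)) := by
    intro K
    rw [sum_option]
    refine Finset.sum_congr rfl fun j _ => Finset.sum_congr rfl fun L _ => ?_
    rw [Fintype.prod_option]
    simp only [ocons_none, ocons_some]; ring
  rw [Finset.sum_congr rfl fun K _ => this K, Finset.sum_comm]
  refine Finset.sum_congr rfl fun j _ => ?_
  simp only [Finset.mul_sum]

/-- (I2) -/
theorem pair_tens {κ μ : Type} [Fintype κ] [DecidableEq κ] [Fintype μ] [DecidableEq μ]
    (Gi : I → I → R) (S : (κ ⊕ μ → I) → R) (Q : (κ → I) → R) (T : (μ → I) → R) :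
    pair Gi S (tens Q T)
      = pair Gi (fun J => pair Gi (fun K => S (Sum.elim K J)) Q) T := by
  unfold pair tens
  rw [sum_sum, Finset.sum_comm]
  refine Finset.sum_congr rfl fun J _ => ?_
  have h : ∀ K : κ → I, ∑ L : κ ⊕ μ → I, S (Sum.elim K J) * (∏ s, Gi (Sum.elim K J s) (L s))
        * (Q (fun s => L (Sum.inl s)) * T (fun s => L (Sum.inr s)))
      = ∑ L' : μ → I, ∑ L : κ → I, S (Sum.elim K J) * (∏ s, Gi (K s) (L s)) * Q L
          * (∏ s, Gi (J s) (L' s)) * T L' := by
    intro K
    rw [sum_sum, Finset.sum_comm]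
    refine Finset.sum_congr rfl fun L' _ => Finset.sum_congr rfl fun L _ => ?_
    rw [Fintype.prod_sum_type]
    simp only [Sum.elim_inl, Sum.elim_inr]; ring
  rw [Finset.sum_congr rfl fun K _ => h K, Finset.sum_comm]
  refine Finset.sum_congr rfl fun L' _ => ?_
  simp only [Finset.sum_mul]

/-- (I4) -/
theorem pair_relab {κ μ : Type} [Fintype κ] [DecidableEq κ] [Fintype μ] [DecidableEq μ]
    (Gi : I → I → R) (e : κ ≃ μ) (S : (μ → I) → R) (T : (κ → I) → R) :
    pair Gi S (relab e T) = pair Gi (relab e.symm S) T := by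
  unfold pair relab
  refine Fintype.sum_equiv (Equiv.arrowCongr e.symm (Equiv.refl I)) _ _ fun K => ?_
  refine Fintype.sum_equiv (Equiv.arrowCongr e.symm (Equiv.refl I)) _ _ fun L => ?_
  have h1 : (fun s => (Equiv.arrowCongr e.symm (Equiv.refl I)) K (e.symm s)) = K := by
    funext s; simp [Equiv.arrowCongr]
  have h2 : (fun s => L (e s)) = (Equiv.arrowCongr e.symm (Equiv.refl I)) L := by
    funext s; simp [Equiv.arrowCongr]
  rw [h1, ← h2]
  congr 2
  refine Fintype.prod_equiv e.symm _ _ fun s => ?_
  simp [Equiv.arrowCongr]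

/-- tensor with the metric, the two new slots in front -/
def gcons {κ : Type} (G : I → I → R) (S : (κ → I) → R) (K : Option (Option κ) → I) : R :=
  G (K none) (K (some none)) * S (fun s => K (some (some s)))

/-- (I3) -/
theorem pair_contr2 {κ : Type} [Fintype κ] [DecidableEq κ] {G Gi : I → I → R}
    (hs : ∀ i j, Gi i j = Gi j i) (hinv : ∀ i j, ∑ p, G i p * Gi p j = if i = j then 1 else 0)
    (S : (κ → I) → R) (T : (Option (Option κ) → I) → R) :
    pair Gi S (contr2 Gi T) = pair Gi (gcons G S) T := by
  rw [pair_option]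
  have h1 : ∀ i j, pair Gi (fun K => gcons G S (ocons i K)) (fun K => T (ocons j K))
      = ∑ i', ∑ j', Gi i' j' * (G i i' * pair Gi S (fun K => T (ocons j (ocons j' K)))) := by
    intro i j
    rw [pair_option]
    refine Finset.sum_congr rfl fun i' _ => Finset.sum_congr rfl fun j' _ => ?_
    congr 1
    simp only [gcons, ocons_none, ocons_some]
    exact pair_mul_left Gi (G i i') S _
  have h2 : ∀ i j, Gi i j * ∑ i', ∑ j', Gi i' j' * (G i i' * pair Gi S (fun K => T (ocons j (ocons j' K))))
      = ∑ j', (Gi i j * ∑ i', G i i' * Gi i' j') * pair Gi S (fun K => T (ocons j (ocons j' K))) := by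
    intro i j
    rw [Finset.sum_comm, Finset.mul_sum]
    refine Finset.sum_congr rfl fun j' _ => ?_
    rw [Finset.mul_sum, Finset.mul_sum, Finset.sum_mul]
    refine Finset.sum_congr rfl fun i' _ => by ring
  simp only [h1, h2, hinv]
  have h3 : ∀ i j, ∑ j', (Gi i j * if i = j' then 1 else 0)
      * pair Gi S (fun K => T (ocons j (ocons j' K)))
      = Gi i j * pair Gi S (fun K => T (ocons j (ocons i K))) := by
    intro i j
    simp
  simp only [h3]
  have h4 : pair Gi S (contr2 Gi T)
      = ∑ i, ∑ j, Gi i j * pair Gi S (fun K => T (ocons i (ocons j K))) := by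
    have : contr2 Gi T = fun K => ∑ i, ∑ j, Gi i j * T (ocons i (ocons j K)) := rfl
    rw [this, pair_sum_right]
    refine Finset.sum_congr rfl fun i _ => ?_
    rw [pair_sum_right]
    refine Finset.sum_congr rfl fun j _ => ?_
    rw [pair_mul_right]
  rw [h4, Finset.sum_comm]
  refine Finset.sum_congr rfl fun i _ => Finset.sum_congr rfl fun j _ => ?_
  rw [hs]

variable (δ : I → Derivation ℝ R R) (A : I → I → I → R)

/-- divergence of a covector -/
def dvg (Gi : I → I → R) (X : I → R) : R :=
  ∑ i, ∑ j, Gi i j * (δ i (X j) - ∑ l, A i l j * X l)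

/-- (I5): integration by parts -/
theorem pair_DD {κ : Type} [Fintype κ] [DecidableEq κ] {Gi : I → I → R}
    (hs : ∀ i j, Gi i j = Gi j i) (hGi : Compat δ A Gi) (S : (Option κ → I) → R) (T : (κ → I) → R) :
    pair Gi S (DD δ A T)
      = dvg δ A Gi (fun j => pair Gi (fun K => S (ocons j K)) T)
        - pair Gi (contr2 Gi (DD δ A S)) T := by
  rw [pair_option]
  have h1 : ∀ i j, δ i (pair Gi (fun K => S (ocons j K)) T)
        - ∑ l, A i l j * pair Gi (fun K => S (ocons l K)) T
      = pair Gi (fun K => DD δ A S (ocons i (ocons j K))) T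
        + pair Gi (fun K => S (ocons j K)) (cov δ A i T) := by
    intro i j
    rw [cov_pair δ A hGi]
    have : (fun K => DD δ A S (ocons i (ocons j K)))
        = fun K => cov δ A i (fun K => S (ocons j K)) K
          - ∑ l, A i l j * S (ocons l K) := by
      funext K
      show cov δ A i S (ocons j K) = _
      unfold cov
      rw [act_option]; ring
    rw [this, pair_sub_left, pair_sum_left]
    simp only [pair_mul_left]
    ring
  have h2 : pair Gi (contr2 Gi (DD δ A S)) T
      = ∑ i, ∑ j, Gi i j * pair Gi (fun K => DD δ A S (ocons i (ocons j K))) T := by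
    have : contr2 Gi (DD δ A S)
        = fun K => ∑ i, ∑ j, Gi i j * DD δ A S (ocons i (ocons j K)) := rfl
    rw [this, pair_sum_left]
    refine Finset.sum_congr rfl fun i _ => ?_
    rw [pair_sum_left]
    refine Finset.sum_congr rfl fun j _ => ?_
    rw [pair_mul_left]
  unfold dvg
  rw [h2]
  simp only [h1, mul_add, Finset.sum_add_distrib]
  rw [add_sub_cancel_left, Finset.sum_comm]
  refine Finset.sum_congr rfl fun i _ => Finset.sum_congr rfl fun j _ => ?_
  rw [hs j i]
  rfl

end Pairing2

end Run7.h96

end
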