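import Pool.Agent.Helper771.CInv.P_cc_ric
import Pool.Agent.Helper771.CInv.P_cc_covD
import Pool.Agent.Helper771.CInv.P_ric_symm
import Pool.Agent.Run7.h96.K01

section

/-!
Differential rings, dual numbers, power series and polynomials over them, and Riemannian data
(metric and tensor fields) with values in a differential ring.
-/

set_option linter.all false

open scoped BigOperators

namespace Run7.h96.Hy

/-- a commutative `ℝ`-algebra with `n` commuting derivations -/
structure DR (n : ℕ) where
  R : Type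
  [cr : CommRing R]
  [al : Algebra ℝ R]
  d : Fin n → Derivation ℝ R R
  comm : ∀ i j f, d i (d j f) = d j (d i f)

attribute [instance] DR.cr DR.al

variable {n : ℕ}

/-- the derivations as plain functions -/
def DR.D (X : DR n) (i : Fin n) (f : X.R) : X.R := X.d i f

theorem DR.isDer (X : DR n) : CInv.IsDer X.D where
  add i a b := map_add (X.d i) a b
  mul i a b := by
    show X.d i (a * b) = X.d i a * b + a * X.d i b
    rw [Derivation.leibniz]; simp only [smul_eq_mul]; ring
  smul i r a := (X.d i).map_smul r a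
  comm i j a := X.comm i j a

/-- morphisms of differential rings -/
structure DH (X Y : DR n) where
  f : X.R →ₐ[ℝ] Y.R
  hd : ∀ i a, f (X.d i a) = Y.d i (f a)

/-- composition -/
def DH.comp {X Y Z : DR n} (ψ : DH Y Z) (θ : DH X Y) : DH X Z where
  f := ψ.f.comp θ.f
  hd i a := by
    show ψ.f (θ.f _) = Z.d i (ψ.f (θ.f a))
    rw [θ.hd, ψ.hd]

/-- Riemannian data: metric, inverse metric and tensor fields -/
structure BD (X : DR n) (J : Type) (ρ : J → ℕ) where
  G : Fin n → Fin n → X.R
  Gi : Fin n → Fin n → X.R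
  Φ : (j : J) → (Fin (ρ j) → Fin n) → X.R
  met : CInv.IsMetric G Gi

section BDbasic

variable {X : DR n} {J : Type} {ρ : J → ℕ}

theorem BD.symm (b : BD X J ρ) (i j : Fin n) : b.G i j = b.G j i := b.met.symm i j

theorem BD.inv (b : BD X J ρ) (i j : Fin n) : ∑ p, b.G i p * b.Gi p j = if i = j then 1 else 0 :=
  b.met.inv i j

theorem BD.isymm (b : BD X J ρ) (i j : Fin n) : b.Gi i j = b.Gi j i :=
  (CInv.gi_symm b.met).1 i j

theorem BD.inv' (b : BD X J ρ) (i j : Fin n) :
    ∑ p, b.Gi i p * b.G p j = if i = j then 1 else 0 := (CInv.gi_symm b.met).2 i j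

/-- Christoffel symbols: `b.A i l m` is the `l`-component of `∇_i e_m` -/
noncomputable def BD.A (b : BD X J ρ) (i l m : Fin n) : X.R := CInv.chr X.D b.G b.Gi l i m

theorem BD.compatGi (b : BD X J ρ) : Compat X.d b.A b.Gi := by
  intro i l m
  exact (CInv.metric_compat X.isDer b.met).2.2 i l m

/-- curvature of the Levi-Civita connection -/
noncomputable def BD.F (b : BD X J ρ) (i j l m : Fin n) : X.R :=
  X.d i (b.A j l m) - X.d j (b.A i l m) + ∑ p, (b.A i l p * b.A j p m - b.A j l p * b.A i p m)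

/-- curvature tensor with lowered index -/
noncomputable def BD.curv (b : BD X J ρ) (K : Fin 4 → Fin n) : X.R :=
  ∑ p, b.G (K 2) p * b.F (K 0) (K 1) p (K 3)

end BDbasic

/-! ### dual numbers -/

/-- derivation on the dual numbers -/
noncomputable def dualD {R : Type} [CommRing R] [Algebra ℝ R] (δ : Derivation ℝ R R) :
    Derivation ℝ (DualNumber R) (DualNumber R) where
  toFun x := TrivSqZeroExt.inl (δ x.fst) + TrivSqZeroExt.inr (δ x.snd)
  map_add' x y := by
    ext <;> simp
  map_smul' c x := by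
    ext <;> simp
  map_one_eq_zero' := by
    ext <;> simp
  leibniz' x y := by
    ext
    · simp
    · simp [DualNumber.snd_mul]; ring

@[simp] theorem dualD_fst {R : Type} [CommRing R] [Algebra ℝ R] (δ : Derivation ℝ R R)
    (x : DualNumber R) : (dualD δ x).fst = δ x.fst := by
  show (TrivSqZeroExt.inl (δ x.fst) + TrivSqZeroExt.inr (δ x.snd)).fst = _
  simp

@[simp] theorem dualD_snd {R : Type} [CommRing R] [Algebra ℝ R] (δ : Derivation ℝ R R)
    (x : DualNumber R) : (dualD δ x).snd = δ x.snd := by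
  show (TrivSqZeroExt.inl (δ x.fst) + TrivSqZeroExt.inr (δ x.snd)).snd = _
  simp

/-- the dual numbers over a differential ring -/
noncomputable def DR.dual (X : DR n) : DR n where
  R := DualNumber X.R
  d i := dualD (X.d i)
  comm i j f := by
    apply TrivSqZeroExt.ext
    · simp only [dualD_fst]; exact X.comm i j _
    · simp only [dualD_snd]; exact X.comm i j _

/-! ### power series -/

/-- derivation acting on the coefficients -/
noncomputable def psD {R : Type} [CommRing R] [Algebra ℝ R] (δ : Derivation ℝ R R) :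
    Derivation ℝ (PowerSeries R) (PowerSeries R) where
  toFun F := PowerSeries.mk fun m => δ (PowerSeries.coeff m F)
  map_add' x y := by ext m; simp
  map_smul' c x := by ext m; simp
  map_one_eq_zero' := by
    ext m
    simp only [LinearMap.coe_mk, AddHom.coe_mk, PowerSeries.coeff_mk, PowerSeries.coeff_one, map_zero]
    split_ifs
    · exact δ.map_one_eq_zero
    · exact map_zero _
  leibniz' x y := by
    ext m
    simp only [LinearMap.coe_mk, AddHom.coe_mk, PowerSeries.coeff_mk, smul_eq_mul, map_add,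
      PowerSeries.coeff_mul, map_sum, Derivation.leibniz]
    rw [Finset.sum_add_distrib]
    congr 1
    rw [← Finset.Nat.sum_antidiagonal_swap]
    rfl

@[simp] theorem psD_coeff {R : Type} [CommRing R] [Algebra ℝ R] (δ : Derivation ℝ R R)
    (F : PowerSeries R) (m : ℕ) :
    PowerSeries.coeff m (psD δ F) = δ (PowerSeries.coeff m F) := by
  show PowerSeries.coeff m (PowerSeries.mk fun m => δ (PowerSeries.coeff m F)) = _
  simp

/-- derivative of a power series -/
noncomputable def dr (R : Type) [CommRing R] [Algebra ℝ R] :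
    Derivation ℝ (PowerSeries R) (PowerSeries R) where
  toFun F := PowerSeries.derivative R F
  map_add' x y := map_add _ x y
  map_smul' c x := by
    ext m
    simp [PowerSeries.coeff_derivative]
  map_one_eq_zero' := by
    show PowerSeries.derivative R 1 = 0
    exact Derivation.map_one_eq_zero _
  leibniz' x y := by
    show PowerSeries.derivative R (x * y) = _
    rw [Derivation.leibniz]
    rfl

@[simp] theorem dr_coeff {R : Type} [CommRing R] [Algebra ℝ R]
    (F : PowerSeries R) (m : ℕ) :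
    PowerSeries.coeff m (dr R F) = PowerSeries.coeff (m + 1) F * (m + 1) := by
  show PowerSeries.coeff m (PowerSeries.derivative R F) = _
  rw [PowerSeries.coeff_derivative]

/-- power series in `r`; the derivation `d 0` is `∂_r`, the others act on the coefficients -/
noncomputable def DR.ps {k : ℕ} (X : DR (k + 1)) : DR (k + 1) where
  R := PowerSeries X.R
  d := Fin.cases (dr X.R) (fun a => psD (X.d a.succ))
  comm i j f := by
    have h : ∀ (a : Fin k) (f : PowerSeries X.R),
        dr X.R (psD (X.d a.succ) f) = psD (X.d a.succ) (dr X.R f) := by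
      intro a f
      ext m
      simp only [dr_coeff, psD_coeff, Derivation.leibniz, smul_eq_mul]
      have h0 : X.d a.succ ((m : X.R) + 1) = 0 := by
        rw [map_add, Derivation.map_one_eq_zero, Derivation.map_natCast]; simp
      rw [h0]; ring
    refine Fin.cases ?_ (fun a => ?_) i <;> refine Fin.cases ?_ (fun a' => ?_) j
    · rfl
    · simp only [Fin.cases_zero, Fin.cases_succ]; exact h a' f
    · simp only [Fin.cases_zero, Fin.cases_succ]; exact (h a f).symm
    · simp only [Fin.cases_succ]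
      ext m
      simp only [psD_coeff]
      exact X.comm _ _ _

theorem DR.ps_d_zero {k : ℕ} (X : DR (k + 1)) (F : PowerSeries X.R) :
    X.ps.d 0 F = dr X.R F := rfl

theorem DR.ps_d_succ {k : ℕ} (X : DR (k + 1)) (a : Fin k) (F : PowerSeries X.R) :
    X.ps.d a.succ F = psD (X.d a.succ) F := rfl

/-! ### polynomials -/

/-- derivation acting on the coefficients -/
noncomputable def polyD {R : Type} [CommRing R] [Algebra ℝ R] (δ : Derivation ℝ R R) :
    Derivation ℝ (Polynomial R) (Polynomial R) where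
  toFun p := ∑ m ∈ Finset.range (p.natDegree + 1), Polynomial.monomial m (δ (p.coeff m))
  map_add' x y := by
    ext m
    have key : ∀ p : Polynomial R, (∑ m ∈ Finset.range (p.natDegree + 1),
        Polynomial.monomial m (δ (p.coeff m))).coeff m = δ (p.coeff m) := by
      intro p
      rw [Polynomial.finset_sum_coeff]
      simp only [Polynomial.coeff_monomial]
      rw [Finset.sum_ite_eq' (Finset.range (p.natDegree + 1)) m (fun m => δ (p.coeff m))]
      split_ifs with h
      · rfl
      · rw [Finset.mem_range, not_lt] at h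
        rw [Polynomial.coeff_eq_zero_of_natDegree_lt (by omega), map_zero]
    rw [Polynomial.coeff_add, key, key, key, Polynomial.coeff_add, map_add]
  map_smul' c x := by
    ext m
    have key : ∀ p : Polynomial R, (∑ m ∈ Finset.range (p.natDegree + 1),
        Polynomial.monomial m (δ (p.coeff m))).coeff m = δ (p.coeff m) := by
      intro p
      rw [Polynomial.finset_sum_coeff]
      simp only [Polynomial.coeff_monomial]
      rw [Finset.sum_ite_eq' (Finset.range (p.natDegree + 1)) m (fun m => δ (p.coeff m))]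
      split_ifs with h
      · rfl
      · rw [Finset.mem_range, not_lt] at h
        rw [Polynomial.coeff_eq_zero_of_natDegree_lt (by omega), map_zero]
    rw [RingHom.id_apply, Polynomial.coeff_smul, key, key, Polynomial.coeff_smul,
      Derivation.map_smul]
  map_one_eq_zero' := by
    simp only [LinearMap.coe_mk, AddHom.coe_mk, Polynomial.natDegree_one, zero_add,
      Finset.range_one, Finset.sum_singleton, Polynomial.coeff_one_zero]
    rw [Derivation.map_one_eq_zero, map_zero]
  leibniz' x y := by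
    ext m
    have key : ∀ (p : Polynomial R) (m : ℕ), (∑ m ∈ Finset.range (p.natDegree + 1),
        Polynomial.monomial m (δ (p.coeff m))).coeff m = δ (p.coeff m) := by
      intro p m
      rw [Polynomial.finset_sum_coeff]
      simp only [Polynomial.coeff_monomial]
      rw [Finset.sum_ite_eq' (Finset.range (p.natDegree + 1)) m (fun m => δ (p.coeff m))]
      split_ifs with h
      · rfl
      · rw [Finset.mem_range, not_lt] at h
        rw [Polynomial.coeff_eq_zero_of_natDegree_lt (by omega), map_zero]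
    simp only [LinearMap.coe_mk, AddHom.coe_mk]
    rw [key, Polynomial.coeff_add, smul_eq_mul, smul_eq_mul, Polynomial.coeff_mul,
      Polynomial.coeff_mul, Polynomial.coeff_mul]
    simp only [key, map_sum, Derivation.leibniz, smul_eq_mul]
    rw [Finset.sum_add_distrib]
    congr 1
    rw [← Finset.Nat.sum_antidiagonal_swap]
    rfl

@[simp] theorem polyD_coeff {R : Type} [CommRing R] [Algebra ℝ R] (δ : Derivation ℝ R R)
    (p : Polynomial R) (m : ℕ) : (polyD δ p).coeff m = δ (p.coeff m) := by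
  show (∑ m ∈ Finset.range (p.natDegree + 1),
        Polynomial.monomial m (δ (p.coeff m))).coeff m = δ (p.coeff m)
  rw [Polynomial.finset_sum_coeff]
  simp only [Polynomial.coeff_monomial]
  rw [Finset.sum_ite_eq' (Finset.range (p.natDegree + 1)) m (fun m => δ (p.coeff m))]
  split_ifs with h
  · rfl
  · rw [Finset.mem_range, not_lt] at h
    rw [Polynomial.coeff_eq_zero_of_natDegree_lt (by omega), map_zero]

/-- polynomials over a differential ring -/
noncomputable def DR.poly (X : DR n) : DR n where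
  R := Polynomial X.R
  d i := polyD (X.d i)
  comm i j f := by
    ext m
    simp only [polyD_coeff]
    exact X.comm _ _ _

end Run7.h96.Hy

end

section

/-!
Natural tensors over differential rings, graded by the number of occurrences of each field and by
the number of derivatives, together with their linearisations.
-/

set_option linter.all false

open scoped BigOperators

namespace Run7.h96.Hy

variable {n : ℕ} {J : Type} {ρ : J → ℕ}

/-- degrees: number of occurrences of each field, and number of derivatives -/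
abbrev Dg (J : Type) : Type := (J →₀ ℕ) × ℕ

/-- families of tensors with `r` slots -/
abbrev Tn (n : ℕ) (J : Type) (ρ : J → ℕ) (r : ℕ) : Type 1 :=
  ∀ X : DR n, BD X J ρ → (Fin r → Fin n) → X.R

/-- variations of the fields -/
abbrev Fl (X : DR n) (J : Type) (ρ : J → ℕ) : Type := (j : J) → (Fin (ρ j) → Fin n) → X.R

/-- families of tensors depending on a variation -/
abbrev Ln (n : ℕ) (J : Type) (ρ : J → ℕ) (r : ℕ) : Type 1 :=
  ∀ X : DR n, BD X J ρ → Fl X J ρ → (Fin r → Fin n) → X.R

/-- `HN S g r T L`: the natural tensor `T` is homogeneous of degree `g`, and `L` is its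
linearisation with respect to the fields in `S`. -/
inductive HN (S : Set J) : Dg J → (r : ℕ) → Tn n J ρ r → Ln n J ρ r → Prop
  | one : HN S 0 0 (fun _ _ _ => 1) (fun _ _ _ _ => 0)
  | met : HN S 0 2 (fun _ b K => b.G (K 0) (K 1)) (fun _ _ _ _ => 0)
  | curv : HN S (0, 2) 4 (fun _ b => b.curv) (fun _ _ _ _ => 0)
  | fieldV (j : J) (hj : j ∈ S) :
      HN S (Finsupp.single j 1, 0) (ρ j) (fun _ b => b.Φ j) (fun _ _ Ψ => Ψ j)
  | fieldC (j : J) (hj : j ∉ S) : HN S 0 (ρ j) (fun _ b => b.Φ j) (fun _ _ _ _ => 0)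
  | zero (g : Dg J) (r : ℕ) : HN S g r (fun _ _ _ => 0) (fun _ _ _ _ => 0)
  | add {g : Dg J} {r : ℕ} {T T' : Tn n J ρ r} {L L' : Ln n J ρ r} :
      HN S g r T L → HN S g r T' L' →
        HN S g r (fun X b K => T X b K + T' X b K) (fun X b Ψ K => L X b Ψ K + L' X b Ψ K)
  | smul {g : Dg J} {r : ℕ} {T : Tn n J ρ r} {L : Ln n J ρ r} (t : ℝ) :
      HN S g r T L → HN S g r (fun X b K => t • T X b K) (fun X b Ψ K => t • L X b Ψ K)
  | mul {g g' : Dg J} {r r' t : ℕ} {T : Tn n J ρ r} {T' : Tn n J ρ r'} {L : Ln n J ρ r}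
      {L' : Ln n J ρ r'} (e : Fin r ⊕ Fin r' ≃ Fin t) :
      HN S g r T L → HN S g' r' T' L' →
        HN S (g + g') t (fun X b => relab e (tens (T X b) (T' X b)))
          (fun X b Ψ K => relab e (tens (T X b) (L' X b Ψ)) K
            + relab e (tens (L X b Ψ) (T' X b)) K)
  | perm {g : Dg J} {r r' : ℕ} {T : Tn n J ρ r} {L : Ln n J ρ r} (e : Fin r ≃ Fin r') :
      HN S g r T L → HN S g r' (fun X b => relab e (T X b)) (fun X b Ψ => relab e (L X b Ψ))
  | contr {g : Dg J} {r t : ℕ} {T : Tn n J ρ t} {L : Ln n J ρ t}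
      (e : Fin t ≃ Option (Option (Fin r))) :
      HN S g t T L → HN S g r (fun X b => contr2 b.Gi (relab e (T X b)))
        (fun X b Ψ => contr2 b.Gi (relab e (L X b Ψ)))
  | deriv {g : Dg J} {r t : ℕ} {T : Tn n J ρ r} {L : Ln n J ρ r} (e : Option (Fin r) ≃ Fin t) :
      HN S g r T L → HN S (g + (0, 1)) t (fun X b => relab e (DD X.d b.A (T X b)))
        (fun X b Ψ => relab e (DD X.d b.A (L X b Ψ)))

/-! ### change of the ring -/

/-- data transported by a ring morphism -/
def BD.map {X Y : DR n} (θ : X.R →ₐ[ℝ] Y.R) (b : BD X J ρ) : BD Y J ρ where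
  G i j := θ (b.G i j)
  Gi i j := θ (b.Gi i j)
  Φ j K := θ (b.Φ j K)
  met := {
    symm := fun i j => by rw [b.symm]
    inv := fun i j => by
      have := congrArg θ (b.inv i j)
      rw [map_sum] at this
      simp only [map_mul] at this
      rw [this]
      split_ifs
      · exact map_one _
      · exact map_zero _ }

theorem BD.map_A {X Y : DR n} (θ : DH X Y) (b : BD X J ρ) (i l m : Fin n) :
    (b.map θ.f).A i l m = θ.f (b.A i l m) := by
  unfold BD.A CInv.chr
  rw [map_smul, map_sum]
  congr 1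
  refine Finset.sum_congr rfl fun p _ => ?_
  rw [map_mul]
  congr 1
  have h : ∀ i a, Y.D i (θ.f a) = θ.f (X.D i a) := fun i a => (θ.hd i a).symm
  show Y.D i (θ.f _) + Y.D m (θ.f _) - Y.D p (θ.f _) = _
  rw [h, h, h, map_sub, map_add]

theorem BD.map_F {X Y : DR n} (θ : DH X Y) (b : BD X J ρ) (i j l m : Fin n) :
    (b.map θ.f).F i j l m = θ.f (b.F i j l m) := by
  unfold BD.F
  simp only [BD.map_A, ← θ.hd, map_add, map_sub, map_sum, map_mul]

theorem map_contr2 {κ : Type} {A B : Type} [CommRing A] [CommRing B] [Algebra ℝ A] [Algebra ℝ B]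
    (θ : A →ₐ[ℝ] B) {Gi : Fin n → Fin n → A} {T : (Option (Option κ) → Fin n) → A}
    {T' : (Option (Option κ) → Fin n) → B} (h : ∀ K, T' K = θ (T K)) (K : κ → Fin n) :
    contr2 (fun i j => θ (Gi i j)) T' K = θ (contr2 Gi T K) := by
  unfold contr2
  simp only [map_sum, map_mul, h]

theorem map_DD {κ : Type} [Fintype κ] [DecidableEq κ] {X Y : DR n} (θ : DH X Y)
    (b : BD X J ρ) {T : (κ → Fin n) → X.R} {T' : (κ → Fin n) → Y.R} (h : ∀ K, T' K = θ.f (T K))
    (K : Option κ → Fin n) : DD Y.d (b.map θ.f).A T' K = θ.f (DD X.d b.A T K) := by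
  unfold DD cov act
  simp only [map_sub, map_sum, map_mul, h, BD.map_A, θ.hd]

theorem HN.map {S : Set J} {g : Dg J} {r : ℕ} {T : Tn n J ρ r} {L : Ln n J ρ r}
    (h : HN S g r T L) {X Y : DR n} (θ : DH X Y) (b : BD X J ρ) (K : Fin r → Fin n) :
    T Y (b.map θ.f) K = θ.f (T X b K) := by
  induction h with
  | one => exact (map_one _).symm
  | met => rfl
  | curv =>
    show (∑ p, θ.f (b.G (K 2) p) * (b.map θ.f).F (K 0) (K 1) p (K 3)) = θ.f (b.curv K)
    unfold BD.curv
    simp only [BD.map_F, map_sum, map_mul]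
  | fieldV j hj => rfl
  | fieldC j hj => rfl
  | zero g r => exact (map_zero _).symm
  | add _ _ h1 h2 => simp only [h1, h2, map_add]
  | smul t _ h1 => simp only [h1, map_smul]
  | mul e _ _ h1 h2 => simp only [relab, tens, h1, h2, map_mul]
  | perm e _ h1 => simp only [relab, h1]
  | contr e _ h1 => exact map_contr2 θ.f (fun K => h1 _) K
  | deriv e _ h1 => exact map_DD θ b (fun K => h1 _) _

/-- without derivatives every ring morphism is allowed -/
theorem HN.mapA {S : Set J} {g : Dg J} {r : ℕ} {T : Tn n J ρ r} {L : Ln n J ρ r}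
    (h : HN S g r T L) (hg : g.2 = 0) {X Y : DR n} (θ : X.R →ₐ[ℝ] Y.R) (b : BD X J ρ)
    (K : Fin r → Fin n) : T Y (b.map θ) K = θ (T X b K) := by
  induction h with
  | one => exact (map_one _).symm
  | met => rfl
  | curv => simp at hg
  | fieldV j hj => rfl
  | fieldC j hj => rfl
  | zero g r => exact (map_zero _).symm
  | add _ _ h1 h2 => simp only [h1 hg, h2 hg, map_add]
  | smul t _ h1 => simp only [h1 hg, map_smul]
  | mul e _ _ h1 h2 =>
    have h3 := Nat.add_eq_zero_iff.mp hg
    simp only [relab, tens, h1 h3.1, h2 h3.2, map_mul]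
  | perm e _ h1 => simp only [relab, h1 hg]
  | contr e _ h1 => exact map_contr2 θ (fun K => h1 hg _) K
  | deriv e _ h1 =>
    have h3 := Nat.add_eq_zero_iff.mp hg
    simp at h3

/-! ### linearisation -/

open Classical in
/-- first order variation of the fields in `S` -/
noncomputable def BD.vary {X : DR n} (S : Set J) (b : BD X J ρ) (Ψ : Fl X J ρ) :
    BD X.dual J ρ where
  G i j := TrivSqZeroExt.inl (b.G i j)
  Gi i j := TrivSqZeroExt.inl (b.Gi i j)
  Φ j K := TrivSqZeroExt.inl (b.Φ j K) + if j ∈ S then TrivSqZeroExt.inr (Ψ j K) else 0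
  met := {
    symm := fun i j => by rw [b.symm]
    inv := fun i j => by
      have h0 := b.inv i j
      have h1 : ∀ s : Finset (Fin n), ∑ p ∈ s, (TrivSqZeroExt.inl (b.G i p) : DualNumber X.R)
          * TrivSqZeroExt.inl (b.Gi p j) = TrivSqZeroExt.inl (∑ p ∈ s, b.G i p * b.Gi p j) := by
        intro s
        rw [TrivSqZeroExt.inl_sum]
        refine Finset.sum_congr rfl fun p _ => ?_
        rw [TrivSqZeroExt.inl_mul]
      refine (h1 Finset.univ).trans ?_
      rw [h0]
      split_ifs
      · rfl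
      · rfl }

/-- the embedding in the dual numbers -/
noncomputable def inlH (X : DR n) : DH X X.dual where
  f := TrivSqZeroExt.inlAlgHom ℝ X.R X.R
  hd i a := by
    apply TrivSqZeroExt.ext
    · show X.d i a = (dualD (X.d i) (TrivSqZeroExt.inl a)).fst
      rw [dualD_fst]; rfl
    · show (0 : X.R) = (dualD (X.d i) (TrivSqZeroExt.inl a)).snd
      rw [dualD_snd]
      show (0 : X.R) = X.d i 0
      rw [map_zero]

/-- the projection of the dual numbers -/
noncomputable def fstH (X : DR n) : DH X.dual X where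
  f := TrivSqZeroExt.fstHom ℝ X.R X.R
  hd i a := by
    show (dualD (X.d i) a).fst = X.d i a.fst
    rw [dualD_fst]

theorem inlH_apply (X : DR n) (a : X.R) : (inlH X).f a = TrivSqZeroExt.inl a := rfl

theorem fstH_apply (X : DR n) (a : X.dual.R) :
    (fstH X).f a = TrivSqZeroExt.fst (show DualNumber X.R from a) := rfl

/-- first component -/
def fs {X : DR n} (a : X.dual.R) : X.R := TrivSqZeroExt.fst (show DualNumber X.R from a)

/-- second component -/
def sn {X : DR n} (a : X.dual.R) : X.R := TrivSqZeroExt.snd (show DualNumber X.R from a)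

theorem dual_ext {X : DR n} {a a' : X.dual.R} (h1 : fs a = fs a') (h2 : sn a = sn a') : a = a' :=
  TrivSqZeroExt.ext h1 h2

@[simp] theorem fs_add {X : DR n} (a a' : X.dual.R) : fs (a + a') = fs a + fs a' := rfl
@[simp] theorem sn_add {X : DR n} (a a' : X.dual.R) : sn (a + a') = sn a + sn a' := rfl
@[simp] theorem fs_sub {X : DR n} (a a' : X.dual.R) : fs (a - a') = fs a - fs a' := rfl
@[simp] theorem sn_sub {X : DR n} (a a' : X.dual.R) : sn (a - a') = sn a - sn a' := rfl
@[simp] theorem fs_neg {X : DR n} (a : X.dual.R) : fs (-a) = - fs a := rfl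
@[simp] theorem sn_neg {X : DR n} (a : X.dual.R) : sn (-a) = - sn a := rfl
@[simp] theorem fs_zero {X : DR n} : fs (0 : X.dual.R) = 0 := rfl
@[simp] theorem sn_zero {X : DR n} : sn (0 : X.dual.R) = 0 := rfl
@[simp] theorem fs_one {X : DR n} : fs (1 : X.dual.R) = 1 := rfl
@[simp] theorem sn_one {X : DR n} : sn (1 : X.dual.R) = 0 := rfl
@[simp] theorem fs_mul {X : DR n} (a a' : X.dual.R) : fs (a * a') = fs a * fs a' := rfl
@[simp] theorem sn_mul {X : DR n} (a a' : X.dual.R) :
    sn (a * a') = fs a * sn a' + sn a * fs a' :=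
  DualNumber.snd_mul (show DualNumber X.R from a) (show DualNumber X.R from a')
@[simp] theorem fs_smul {X : DR n} (t : ℝ) (a : X.dual.R) : fs (t • a) = t • fs a := rfl
@[simp] theorem sn_smul {X : DR n} (t : ℝ) (a : X.dual.R) : sn (t • a) = t • sn a := rfl
@[simp] theorem fs_d {X : DR n} (i : Fin n) (a : X.dual.R) : fs (X.dual.d i a) = X.d i (fs a) :=
  dualD_fst _ _
@[simp] theorem sn_d {X : DR n} (i : Fin n) (a : X.dual.R) : sn (X.dual.d i a) = X.d i (sn a) :=
  dualD_snd _ _

theorem fs_sum {X : DR n} {α : Type} (s : Finset α) (f : α → X.dual.R) :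
    fs (∑ a ∈ s, f a) = ∑ a ∈ s, fs (f a) := map_sum (fstH X).f f s

/-- `sn` as an additive map -/
def snA (X : DR n) : X.dual.R →+ X.R where
  toFun := sn
  map_zero' := rfl
  map_add' _ _ := rfl

theorem sn_sum {X : DR n} {α : Type} (s : Finset α) (f : α → X.dual.R) :
    sn (∑ a ∈ s, f a) = ∑ a ∈ s, sn (f a) := map_sum (snA X) f s

theorem fs_inl {X : DR n} (a : X.R) : fs ((inlH X).f a) = a := rfl
theorem sn_inl {X : DR n} (a : X.R) : sn ((inlH X).f a) = 0 := rfl

/-- the infinitesimal unit times an element -/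
def eps {X : DR n} (a : X.R) : X.dual.R := (TrivSqZeroExt.inr a : DualNumber X.R)

@[simp] theorem fs_eps {X : DR n} (a : X.R) : fs (eps a) = 0 := rfl
@[simp] theorem sn_eps {X : DR n} (a : X.R) : sn (eps a) = a := rfl

theorem BD.vary_A {X : DR n} (S : Set J) (b : BD X J ρ) (Ψ : Fl X J ρ) (i l m : Fin n) :
    (b.vary S Ψ).A i l m = (inlH X).f (b.A i l m) := BD.map_A (inlH X) b i l m

theorem BD.vary_F {X : DR n} (S : Set J) (b : BD X J ρ) (Ψ : Fl X J ρ) (i j l m : Fin n) :
    (b.vary S Ψ).F i j l m = (inlH X).f (b.F i j l m) := BD.map_F (inlH X) b i j l m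

open Classical in
theorem HN.dual {S : Set J} {g : Dg J} {r : ℕ} {T : Tn n J ρ r} {L : Ln n J ρ r}
    (h : HN S g r T L) {X : DR n} (b : BD X J ρ) (Ψ : Fl X J ρ) (K : Fin r → Fin n) :
    fs (T X.dual (b.vary S Ψ) K) = T X b K ∧ sn (T X.dual (b.vary S Ψ) K) = L X b Ψ K := by
  induction h with
  | one => exact ⟨rfl, rfl⟩
  | met => exact ⟨rfl, rfl⟩
  | curv =>
    have h1 : (b.vary S Ψ).curv K = (inlH X).f (b.curv K) := by
      show (∑ p, (inlH X).f (b.G (K 2) p) * (b.vary S Ψ).F (K 0) (K 1) p (K 3))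
        = (inlH X).f (b.curv K)
      unfold BD.curv
      simp only [BD.vary_F, map_sum, map_mul]
    beta_reduce
    rw [h1]
    exact ⟨rfl, rfl⟩
  | fieldV j hj =>
    have h1 : (b.vary S Ψ).Φ j K = (inlH X).f (b.Φ j K) + eps (Ψ j K) := by
      show (TrivSqZeroExt.inl (b.Φ j K) : DualNumber X.R)
        + (if j ∈ S then TrivSqZeroExt.inr (Ψ j K) else 0) = _
      rw [if_pos hj]
      rfl
    beta_reduce
    rw [h1]
    simp [fs_inl, sn_inl]
  | fieldC j hj =>
    have h1 : (b.vary S Ψ).Φ j K = (inlH X).f (b.Φ j K) := by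
      show (TrivSqZeroExt.inl (b.Φ j K) : DualNumber X.R)
        + (if j ∈ S then TrivSqZeroExt.inr (Ψ j K) else 0) = _
      rw [if_neg hj]
      exact add_zero (TrivSqZeroExt.inl (b.Φ j K) : DualNumber X.R)
    beta_reduce
    rw [h1]
    exact ⟨rfl, rfl⟩
  | zero g r => exact ⟨rfl, rfl⟩
  | add _ _ h1 h2 => simp only [fs_add, sn_add, (h1 K).1, (h1 K).2, (h2 K).1, (h2 K).2, and_self]
  | smul t _ h1 => simp only [fs_smul, sn_smul, (h1 K).1, (h1 K).2, and_self]
  | mul e _ _ h1 h2 =>
    simp only [relab, tens, fs_mul, sn_mul, (h1 _).1, (h1 _).2, (h2 _).1, (h2 _).2, and_self]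
  | perm e _ h1 => simp only [relab, (h1 _).1, (h1 _).2, and_self]
  | @contr g r t T L e _ h1 =>
    simp only [contr2, relab, fs_sum, sn_sum, fs_mul, sn_mul, (h1 _).1, (h1 _).2]
    have h2 : ∀ i j, fs ((b.vary S Ψ).Gi i j) = b.Gi i j := fun i j => rfl
    have h3 : ∀ i j, sn ((b.vary S Ψ).Gi i j) = 0 := fun i j => rfl
    simp only [h2, h3, zero_mul, add_zero, and_self]
  | @deriv g r t T L e _ h1 =>
    simp only [DD, cov, act, relab, fs_sum, sn_sum, fs_mul, sn_mul, (h1 _).1, (h1 _).2, fs_sub,
      sn_sub, fs_d, sn_d, BD.vary_A, fs_inl, sn_inl, zero_mul, add_zero, and_self]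

/-- linearisation of a family of tensors -/
noncomputable def lin {κ : Type} (S : Set J) (T : ∀ X : DR n, BD X J ρ → (κ → Fin n) → X.R)
    (X : DR n) (b : BD X J ρ) (Ψ : Fl X J ρ) (K : κ → Fin n) : X.R :=
  sn (T X.dual (b.vary S Ψ) K)

/-! ### Euler identities -/

theorem contr2_smul' {I R κ : Type} [Fintype I] [CommRing R] [Algebra ℝ R] (Gi : I → I → R)
    (t : ℝ) (T : (Option (Option κ) → I) → R) (K : κ → I) :
    contr2 Gi (fun L => t • T L) K = t • contr2 Gi T K := by
  simp only [contr2, Finset.smul_sum, mul_smul_comm]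

theorem contr2_add {I R κ : Type} [Fintype I] [CommRing R] (Gi : I → I → R)
    (T T' : (Option (Option κ) → I) → R) (K : κ → I) :
    contr2 Gi (fun L => T L + T' L) K = contr2 Gi T K + contr2 Gi T' K := by
  simp only [contr2, mul_add, Finset.sum_add_distrib]

/-- the linearisation is additive -/
theorem HN.ladd {S : Set J} {g : Dg J} {r : ℕ} {T : Tn n J ρ r} {L : Ln n J ρ r}
    (h : HN S g r T L) {X : DR n} (b : BD X J ρ) (Ψ Ψ' : Fl X J ρ) (K : Fin r → Fin n) :
    L X b (fun j K => Ψ j K + Ψ' j K) K = L X b Ψ K + L X b Ψ' K := by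
  induction h with
  | one => simp
  | met => simp
  | curv => simp
  | fieldV j hj => rfl
  | fieldC j hj => simp
  | zero g r => simp
  | add _ _ h1 h2 => beta_reduce; rw [h1, h2]; ring
  | smul t _ h1 => beta_reduce; rw [h1, smul_add]
  | mul e _ _ h1 h2 => simp only [relab, tens, h1, h2]; ring
  | perm e _ h1 => simp only [relab, h1]
  | contr e _ h1 =>
    beta_reduce
    rw [← contr2_add]
    unfold contr2 relab
    simp only [h1]
  | @deriv g r t T L e _ h1 =>
    have h2 : L X b (fun j K => Ψ j K + Ψ' j K) = fun K => L X b Ψ K + L X b Ψ' K := by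
      funext K; exact h1 K
    simp only [relab, DD]
    rw [h2, cov_add]

/-- the linearisation commutes with scalars -/
theorem HN.lsmul {S : Set J} {g : Dg J} {r : ℕ} {T : Tn n J ρ r} {L : Ln n J ρ r}
    (h : HN S g r T L) {X : DR n} (b : BD X J ρ) (c : ℝ) (Ψ : Fl X J ρ) (K : Fin r → Fin n) :
    L X b (fun j K => c • Ψ j K) K = c • L X b Ψ K := by
  induction h with
  | one => simp
  | met => simp
  | curv => simp
  | fieldV j hj => rfl
  | fieldC j hj => simp
  | zero g r => simp
  | add _ _ h1 h2 => beta_reduce; rw [h1, h2, smul_add]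
  | smul t _ h1 => beta_reduce; rw [h1, smul_comm]
  | mul e _ _ h1 h2 => simp only [relab, tens, h1, h2, smul_add, mul_smul_comm, smul_mul_assoc]
  | perm e _ h1 => simp only [relab, h1]
  | contr e _ h1 =>
    beta_reduce
    rw [← contr2_smul']
    unfold contr2 relab
    simp only [h1]
  | @deriv g r t T L e _ h1 =>
    have h2 : L X b (fun j K => c • Ψ j K) = fun K => c • L X b Ψ K := by
      funext K; exact h1 K
    simp only [relab, DD]
    rw [h2, cov_smul]

/-- Euler identity for the variation `Ψ j = λ j Φ j` -/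
theorem HN.euler {S : Set J} {g : Dg J} {r : ℕ} {T : Tn n J ρ r} {L : Ln n J ρ r}
    (h : HN S g r T L) {X : DR n} (b : BD X J ρ) (w : J → ℝ) (K : Fin r → Fin n) :
    L X b (fun j K => w j • b.Φ j K) K = (g.1.sum fun j m => (m : ℝ) * w j) • T X b K := by
  induction h with
  | one => simp
  | met => simp
  | curv => simp
  | fieldV j hj => simp
  | fieldC j hj => simp
  | zero g r => simp
  | add _ _ h1 h2 => beta_reduce; rw [h1, h2, smul_add]
  | smul t _ h1 => beta_reduce; rw [h1, smul_comm]
  | @mul g g' r r' t T T' L L' e _ _ h1 h2 =>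
    have h3 : ((g + g').1.sum fun j m => (m : ℝ) * w j)
        = (g.1.sum fun j m => (m : ℝ) * w j) + g'.1.sum fun j m => (m : ℝ) * w j := by
      rw [Prod.fst_add]
      rw [Finsupp.sum_add_index']
      · intro j; simp
      · intro j m m'; push_cast; ring
    simp only [relab, tens, h1, h2, h3, add_smul, smul_mul_assoc, mul_smul_comm]
    ring
  | perm e _ h1 => simp only [relab, h1]
  | contr e _ h1 =>
    beta_reduce
    rw [← contr2_smul']
    unfold contr2 relab
    simp only [h1]
  | @deriv g r t T L e _ h1 =>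
    have h2 : L X b (fun j K => w j • b.Φ j K)
        = fun K => (g.1.sum fun j m => (m : ℝ) * w j) • T X b K := by
      funext K; exact h1 K
    have h3 : (g + (0, 1)).1 = g.1 := by simp
    simp only [relab, DD]
    rw [h2, cov_smul, h3]

end Run7.h96.Hy

end

section

/-!
Rings of smooth functions on a normed space invariant under some translations, as differential
rings.
-/

set_option linter.all false
set_option maxHeartbeats 400000

open scoped BigOperators

namespace Run7.h96.Hy

section CsDef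

variable {E : Type} [NormedAddCommGroup E] [NormedSpace ℝ E]

/-- smooth functions on `E` which are invariant under the translations by the elements of `Λ` -/
def Cs (E : Type) [NormedAddCommGroup E] [NormedSpace ℝ E] (Λ : Set E) : Subalgebra ℝ (E → ℝ) where
  carrier := {f | ContDiff ℝ (⊤ : ℕ∞) f ∧ ∀ l ∈ Λ, ∀ x, f (x + l) = f x}
  mul_mem' := fun {a b} ha hb => ⟨ContDiff.mul (f := a) (g := b) ha.1 hb.1, fun l hl x => by
    show a (x + l) * b (x + l) = a x * b x
    rw [ha.2 l hl, hb.2 l hl]⟩
  add_mem' := fun {a b} ha hb => ⟨ContDiff.add (f := a) (g := b) ha.1 hb.1, fun l hl x => by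
    show a (x + l) + b (x + l) = a x + b x
    rw [ha.2 l hl, hb.2 l hl]⟩
  algebraMap_mem' := fun r => ⟨show ContDiff ℝ (⊤ : ℕ∞) (fun _ : E => r) from contDiff_const,
    fun _ _ _ => rfl⟩

variable {Λ : Set E}

theorem Cs.smooth (f : Cs E Λ) : ContDiff ℝ (⊤ : ℕ∞) (f : E → ℝ) := f.2.1

theorem Cs.per (f : Cs E Λ) {l : E} (hl : l ∈ Λ) (x : E) : (f : E → ℝ) (x + l) = (f : E → ℝ) x :=
  f.2.2 l hl x

theorem Cs.diff (f : Cs E Λ) (x : E) : DifferentiableAt ℝ (f : E → ℝ) x :=
  ((Cs.smooth f).differentiable (by simp)).differentiableAt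

/-- directional derivative of a smooth function -/
noncomputable def dCf (v : E) (f : Cs E Λ) : Cs E Λ :=
  ⟨fun x => fderiv ℝ (f : E → ℝ) x v,
    ((Cs.smooth f).fderiv_right (m := (⊤ : ℕ∞)) (by simp)).clm_apply contDiff_const,
    fun l hl x => by
      have h : (fun y => (f : E → ℝ) (y + l)) = (f : E → ℝ) := by
        funext y; exact Cs.per f hl y
      have h2 : fderiv ℝ (fun y => (f : E → ℝ) (y + l)) x = fderiv ℝ (f : E → ℝ) (x + l) :=
        fderiv_comp_add_right l
      show fderiv ℝ (f : E → ℝ) (x + l) v = fderiv ℝ (f : E → ℝ) x v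
      rw [← h2, h]⟩

/-- the derivation along a vector -/
noncomputable def dC (v : E) : Derivation ℝ (Cs E Λ) (Cs E Λ) where
  toFun f := dCf v f
  map_add' f g := by
    ext x
    show fderiv ℝ ((f : E → ℝ) + (g : E → ℝ)) x v = fderiv ℝ (f : E → ℝ) x v + fderiv ℝ (g : E → ℝ) x v
    rw [fderiv_add (Cs.diff f x) (Cs.diff g x)]; rfl
  map_smul' c f := by
    ext x
    show fderiv ℝ (c • (f : E → ℝ)) x v = c * fderiv ℝ (f : E → ℝ) x v
    rw [fderiv_const_smul (Cs.diff f x)]; rfl
  map_one_eq_zero' := by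
    ext x
    show fderiv ℝ (fun _ => (1 : ℝ)) x v = 0
    simp
  leibniz' f g := by
    ext x
    show fderiv ℝ (fun y => (f : E → ℝ) y * (g : E → ℝ) y) x v
      = (f : E → ℝ) x * fderiv ℝ (g : E → ℝ) x v + (g : E → ℝ) x * fderiv ℝ (f : E → ℝ) x v
    rw [fderiv_fun_mul (Cs.diff f x) (Cs.diff g x)]
    simp

theorem dC_apply (v : E) (f : Cs E Λ) (x : E) :
    (dC v f : E → ℝ) x = fderiv ℝ (f : E → ℝ) x v := rfl

theorem dC_comm (v w : E) (f : Cs E Λ) : dC v (dC w f) = dC w (dC v f) := by
  have key : ∀ (v w : E) (x : E), fderiv ℝ (fun y => fderiv ℝ (f : E → ℝ) y w) x v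
      = fderiv ℝ (fderiv ℝ (f : E → ℝ)) x v w := by
    intro v w x
    have h1 : DifferentiableAt ℝ (fderiv ℝ (f : E → ℝ)) x :=
      (((Cs.smooth f).fderiv_right (m := (⊤ : ℕ∞)) (by simp)).differentiable (by simp)).differentiableAt
    have h2 := fderiv_clm_apply h1 (differentiableAt_const (𝕜 := ℝ) (c := w) (x := x))
    rw [h2]
    simp
  ext x
  show fderiv ℝ (fun y => fderiv ℝ (f : E → ℝ) y w) x v
    = fderiv ℝ (fun y => fderiv ℝ (f : E → ℝ) y v) x w
  rw [key, key]
  have h3 : IsSymmSndFDerivAt ℝ (f : E → ℝ) x :=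
    ((Cs.smooth f).contDiffAt.of_le (m := 2)
      (by exact WithTop.coe_le_coe.mpr le_top)).isSymmSndFDerivAt (by simp)
  exact h3 v w

/-- the differential ring of smooth functions, with the derivations along the vectors `v i` -/
noncomputable def CsR (E : Type) [NormedAddCommGroup E] [NormedSpace ℝ E] (Λ : Set E) {n : ℕ}
    (v : Fin n → E) : DR n where
  R := Cs E Λ
  d i := dC (v i)
  comm i j f := dC_comm _ _ f

end CsDef

/-! ### the rings for the hypersurface `{x₀ = 0}` of `ℝ × T^k` -/

/-- periods -/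
def PX (k : ℕ) : Set (Fin (k + 1) → ℝ) := {l | ∃ a : Fin k, l = Pi.single a.succ 1}
/-- periods -/
def PA (k : ℕ) : Set (Fin k → ℝ) := {l | ∃ a : Fin k, l = Pi.single a 1}

/-- smooth functions on `ℝ × T^k` -/
noncomputable def XX (k : ℕ) : DR (k + 1) :=
  CsR (Fin (k + 1) → ℝ) (PX k) (fun i => Pi.single i 1)

/-- smooth functions on `T^k`; the derivation with index `0` is zero, the others are `∂_1, …, ∂_k` -/
noncomputable def AA (k : ℕ) : DR (k + 1) :=
  CsR (Fin k → ℝ) (PA k) (Fin.cons 0 (fun a => Pi.single a 1))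

end Run7.h96.Hy

end

section

/-!
Hypersurfaces: the tensors along the hypersurface `Y = {x₀ = 0}` built from an ambient metric,
in the frame `(ν, ∂_1, …, ∂_k)`, and universal formulas in these tensors.
-/

set_option linter.all false

open scoped BigOperators

namespace Run7.h96.Hy

open CInv

/-! ### universal formulas -/

/-- universal polynomial formulas for covariant tensors with `r` slots, built from the metric, its
Levi-Civita curvature and the basic tensors `j : J` (with `ρ j` slots) by linear combinations,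
tensor products, permutations of the slots, contractions and covariant derivatives -/
inductive Fml (J : Type) (ρ : J → ℕ) : ℕ → Type
  | one : Fml J ρ 0
  | met : Fml J ρ 2
  | curv : Fml J ρ 4
  | fld (j : J) : Fml J ρ (ρ j)
  | zero (r : ℕ) : Fml J ρ r
  | add {r : ℕ} : Fml J ρ r → Fml J ρ r → Fml J ρ r
  | smul {r : ℕ} (t : ℝ) : Fml J ρ r → Fml J ρ r
  | mul {r r' t : ℕ} (e : Fin r ⊕ Fin r' ≃ Fin t) : Fml J ρ r → Fml J ρ r' → Fml J ρ t
  | perm {r t : ℕ} (e : Fin r ≃ Fin t) : Fml J ρ r → Fml J ρ t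
  | contr {r t : ℕ} (e : Fin t ≃ Option (Option (Fin r))) : Fml J ρ t → Fml J ρ r
  | deriv {r t : ℕ} (e : Option (Fin r) ≃ Fin t) : Fml J ρ r → Fml J ρ t

/-- the value of a formula on a metric and basic tensors with values in a differential ring -/
noncomputable def Fml.eval {J : Type} {ρ : J → ℕ} {n : ℕ} (X : DR n) (b : BD X J ρ) :
    {r : ℕ} → Fml J ρ r → (Fin r → Fin n) → X.R
  | _, .one => fun _ => 1
  | _, .met => fun K => b.G (K 0) (K 1)
  | _, .curv => b.curv
  | _, .fld j => b.Φ j
  | _, .zero _ => fun _ => 0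
  | _, .add S T => fun K => S.eval X b K + T.eval X b K
  | _, .smul t T => fun K => t • T.eval X b K
  | _, .mul e S T => relab e (tens (S.eval X b) (T.eval X b))
  | _, .perm e T => relab e (T.eval X b)
  | _, .contr e T => contr2 b.Gi (relab e (T.eval X b))
  | _, .deriv e T => relab e (DD X.d b.A (T.eval X b))

/-! ### ambient curvature -/

variable {n : ℕ}

/-- a metric without further fields -/
def mbd {X : DR n} {g gi : Fin n → Fin n → X.R} (h : IsMetric g gi) :
    BD X Empty (fun _ => 0) where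
  G := g
  Gi := gi
  Φ := fun e => e.elim
  met := h

/-- the `l`-th covariant derivative `∇^l Rm` of the curvature tensor -/
noncomputable def rm {X : DR n} {g gi : Fin n → Fin n → X.R} (h : IsMetric g gi) :
    (l : ℕ) → (Fin (4 + l) → Fin n) → X.R
  | 0 => (mbd h).curv
  | l + 1 => relab (finSuccEquiv (4 + l)).symm (DD X.d (mbd h).A (rm h l))

/-! ### hypersurfaces -/

variable {k : ℕ}

/-- a hypersurface: functions on the ambient space `X`, functions on the hypersurface `A`,
the restriction `res`; the derivations `∂_1, …, ∂_k` are tangential, and `∂_0` is zero on `A` -/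
structure Hs (X A : DR (k + 1)) where
  res : X.R →ₐ[ℝ] A.R
  hd : ∀ (a : Fin k) f, res (X.d a.succ f) = A.d a.succ (res f)
  d0 : ∀ f, A.d 0 f = 0

/-- an ambient metric `g`, its inverse `gi` and, along the hypersurface, `N = ± (g^{00})^{-1/2}`;
the choice of `N` is the choice of a unit normal `ν^j = N g^{0j}` -/
structure Mt {X A : DR (k + 1)} (H : Hs X A) where
  g : Fin (k + 1) → Fin (k + 1) → X.R
  gi : Fin (k + 1) → Fin (k + 1) → X.R
  met : IsMetric g gi
  N : A.R
  hN : N * N * H.res (gi 0 0) = 1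

/-- the basic tensors: unit normal, second fundamental form, derivatives of the ambient curvature -/
inductive Fa : Type
  | nu : Fa
  | II : Fa
  | R (l : ℕ) : Fa

/-- number of slots of the basic tensors -/
@[reducible] def ρa : Fa → ℕ
  | Fa.nu => 1
  | Fa.II => 2
  | Fa.R l => 4 + l

/-- extension of a tangential 2-tensor by the value `c` in the normal direction -/
def ext {R : Type} [Zero R] (c : R) (M : Fin k → Fin k → R) (i j : Fin (k + 1)) : R :=
  Fin.cases (Fin.cases c (fun _ => 0) j) (fun a => Fin.cases 0 (fun b => M a b) j) i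

section Frame

variable {X A : DR (k + 1)} {H : Hs X A}

/-- the adapted frame: `e_0 = ν`, `e_a = ∂_a` -/
def Mt.fr (m : Mt H) (i j : Fin (k + 1)) : A.R :=
  Fin.cases (m.N * H.res (m.gi 0 j)) (fun a => if a.succ = j then 1 else 0) i

/-- components of an ambient tensor along the hypersurface in the adapted frame -/
def Mt.along (m : Mt H) {r : ℕ} (T : (Fin r → Fin (k + 1)) → X.R) (K : Fin r → Fin (k + 1)) :
    A.R := ∑ L : Fin r → Fin (k + 1), (∏ s, m.fr (K s) (L s)) * H.res (T L)

/-- second fundamental form `II(∂_a, ∂_b) = g(∇_a ∂_b, ν)` -/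
noncomputable def Mt.II (m : Mt H) (a b : Fin k) : A.R :=
  m.N * H.res (chr X.D m.g m.gi 0 a.succ b.succ)

/-- inverse of the induced metric -/
def Mt.hi (m : Mt H) (a b : Fin k) : A.R :=
  H.res (m.gi a.succ b.succ) - m.N * m.N * (H.res (m.gi 0 a.succ) * H.res (m.gi 0 b.succ))

theorem ext_symm {R : Type} [Zero R] (c : R) {M : Fin k → Fin k → R} (h : ∀ a b, M a b = M b a)
    (i j : Fin (k + 1)) : ext c M i j = ext c M j i := by
  refine Fin.cases ?_ (fun a => ?_) i <;> refine Fin.cases ?_ (fun b => ?_) j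
  · rfl
  · rfl
  · rfl
  · exact h a b

theorem Mt.hinv (m : Mt H) (a b : Fin k) :
    ∑ c, H.res (m.g a.succ c.succ) * m.hi c b = if a = b then 1 else 0 := by
  have h1 := congrArg H.res (m.met.inv a.succ b.succ)
  have h2 := congrArg H.res (m.met.inv a.succ 0)
  rw [Fin.sum_univ_succ, map_add, map_sum, map_mul] at h1 h2
  rw [if_neg (Fin.succ_ne_zero a), map_zero] at h2
  simp only [map_mul] at h1 h2
  have h4 : ∀ i j, m.gi i j = m.gi j i := (gi_symm m.met).1
  have e1 : ∑ c, H.res (m.g a.succ c.succ) * m.hi c b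
      = (∑ c : Fin k, H.res (m.g a.succ c.succ) * H.res (m.gi c.succ b.succ))
        - (m.N * m.N * H.res (m.gi 0 b.succ))
          * ∑ c : Fin k, H.res (m.g a.succ c.succ) * H.res (m.gi c.succ 0) := by
    rw [Finset.mul_sum, ← Finset.sum_sub_distrib]
    refine Finset.sum_congr rfl fun c _ => ?_
    unfold Mt.hi
    rw [h4 c.succ 0]
    ring
  have e2 : (∑ c : Fin k, H.res (m.g a.succ c.succ) * H.res (m.gi c.succ 0))
      = -(H.res (m.g a.succ 0) * H.res (m.gi 0 0)) := by
    linear_combination h2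
  have e3 : H.res (if a.succ = b.succ then (1 : X.R) else 0) = if a = b then 1 else 0 := by
    by_cases h : a = b
    · rw [if_pos h, if_pos (by rw [h]), map_one]
    · rw [if_neg h, if_neg (fun h' => h (Fin.succ_injective _ h')), map_zero]
  rw [e3] at h1
  rw [e1, e2, ← h1]
  linear_combination (H.res (m.g a.succ 0) * H.res (m.gi 0 b.succ)) * m.hN

/-- the tensors along the hypersurface: in the adapted frame the metric is `1 ⊕ ḡ` -/
noncomputable def Mt.hyp (m : Mt H) : BD A Fa ρa where
  G := ext 1 fun a b => H.res (m.g a.succ b.succ)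
  Gi := ext 1 m.hi
  Φ j := match j with
    | Fa.nu => fun K => if K 0 = 0 then 1 else 0
    | Fa.II => fun K => ext 0 m.II (K 0) (K 1)
    | Fa.R l => fun K => m.along (rm m.met l) K
  met := {
    symm := ext_symm 1 fun a b => by rw [m.met.symm]
    inv := fun i j => by
      rw [Fin.sum_univ_succ]
      refine Fin.cases ?_ (fun a => ?_) i <;> refine Fin.cases ?_ (fun b => ?_) j
      · rw [if_pos rfl]
        have h1 : ∀ c : Fin k, ext (1 : A.R) (fun a b => H.res (m.g a.succ b.succ)) 0 c.succ
            * ext 1 m.hi c.succ 0 = 0 := fun c => zero_mul _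
        rw [Finset.sum_congr rfl fun c _ => h1 c, Finset.sum_const_zero, add_zero]
        exact one_mul _
      · rw [if_neg (Fin.succ_ne_zero b).symm]
        have h1 : ∀ c : Fin k, ext (1 : A.R) (fun a b => H.res (m.g a.succ b.succ)) 0 c.succ
            * ext 1 m.hi c.succ b.succ = 0 := fun c => zero_mul _
        rw [Finset.sum_congr rfl fun c _ => h1 c, Finset.sum_const_zero, add_zero]
        exact mul_zero _
      · rw [if_neg (Fin.succ_ne_zero a)]
        have h1 : ∀ c : Fin k, ext (1 : A.R) (fun a b => H.res (m.g a.succ b.succ)) a.succ c.succ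
            * ext 1 m.hi c.succ 0 = 0 := fun c => mul_zero _
        rw [Finset.sum_congr rfl fun c _ => h1 c, Finset.sum_const_zero, add_zero]
        exact zero_mul _
      · have h1 := m.hinv a b
        have h2 : ext (1 : A.R) (fun a b => H.res (m.g a.succ b.succ)) a.succ 0
            * ext 1 m.hi 0 b.succ = 0 := zero_mul _
        rw [h2, zero_add]
        refine Eq.trans h1 ?_
        by_cases h : a = b
        · rw [if_pos h, if_pos (by rw [h])]
        · rw [if_neg h, if_neg (fun h' => h (Fin.succ_injective _ h'))] }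

end Frame

end Run7.h96.Hy

end

section

/-!
The tensor `σ² Ric + (n-2) σ ∇²σ + (σ Δσ - (n-1)(|dσ|² - 1)) g`, its behaviour under coordinate
changes and under infinitesimal conformal changes.
-/

set_option linter.all false

open scoped BigOperators

namespace Run7.h96.Hy

open CInv

section Defs

variable {n : ℕ} {A : Type} [CommRing A] [Algebra ℝ A]

/-- Hessian -/
noncomputable def hess (D : Fin n → A → A) (g gi : Fin n → Fin n → A) (σ : A) (i j : Fin n) : A :=
  D i (D j σ) - ∑ l, chr D g gi l i j * D l σ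

/-- Laplacian -/
noncomputable def lap (D : Fin n → A → A) (g gi : Fin n → Fin n → A) (σ : A) : A :=
  ∑ i, ∑ j, gi i j * hess D g gi σ i j

/-- inner product of covectors -/
def ip (gi : Fin n → Fin n → A) (u v : Fin n → A) : A := ∑ i, ∑ j, gi i j * (u i * v j)

/-- trace of a 2-tensor -/
def tr2 (gi : Fin n → Fin n → A) (T : Fin n → Fin n → A) : A := ∑ i, ∑ j, gi i j * T i j

/-- `σ² (Ric(σ⁻² g) + (n-1) σ⁻² g)` -/
noncomputable def tt (D : Fin n → A → A) (g gi : Fin n → Fin n → A) (σ : A) (i j : Fin n) : A :=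
  σ * σ * ric D g gi i j + ((n : ℝ) - 2) • (σ * hess D g gi σ i j)
    + (σ * lap D g gi σ - ((n : ℝ) - 1) • (ip gi (fun i => D i σ) (fun i => D i σ) - 1)) * g i j

/-- `Δ` of the metric `σ⁻² g` -/
noncomputable def lop (D : Fin n → A → A) (g gi : Fin n → Fin n → A) (σ u : A) : A :=
  σ * σ * lap D g gi u - ((n : ℝ) - 2) • (σ * ip gi (fun i => D i σ) (fun i => D i u))

/-- Lie derivative of a covariant 2-tensor -/
def lie (D : Fin n → A → A) (Z : Fin n → A) (T : Fin n → Fin n → A) (i j : Fin n) : A :=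
  (∑ a, Z a * D a (T i j)) + (∑ a, D i (Z a) * T a j) + ∑ a, D j (Z a) * T i a

/-- derivative of a function along a vector field -/
def along (D : Fin n → A → A) (Z : Fin n → A) (f : A) : A := ∑ a, Z a * D a f

end Defs

section CC

variable {n : ℕ} {A B : Type} [CommRing A] [Algebra ℝ A] [CommRing B] [Algebra ℝ B]
    {D : Fin n → A → A} {D' : Fin n → B → B} {φ : A →+* B} {J K : Fin n → Fin n → B}
    {g gi : Fin n → Fin n → A}

theorem cc_contr (hc : CoordChange D D' φ J K) (T : Fin n → Fin n → A) :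
    ∑ i, ∑ j, pullInv φ K gi i j * (∑ a, ∑ b, J i a * J j b * φ (T a b))
      = φ (∑ a, ∑ b, gi a b * T a b) := by
  have h1 : ∀ i j, pullInv φ K gi i j * (∑ a, ∑ b, J i a * J j b * φ (T a b))
      = ∑ c, ∑ d, ∑ a, ∑ b, φ (gi c d) * φ (T a b) * ((K c i * J i a) * (K d j * J j b)) := by
    intro i j
    unfold pullInv
    rw [Finset.sum_mul]
    refine Finset.sum_congr rfl fun c _ => ?_
    rw [Finset.sum_mul]
    refine Finset.sum_congr rfl fun d _ => ?_
    rw [Finset.mul_sum]
    refine Finset.sum_congr rfl fun a _ => ?_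
    rw [Finset.mul_sum]
    refine Finset.sum_congr rfl fun b _ => ?_
    ring
  simp only [h1]
  have h2 : ∀ c d a b : Fin n,
      ∑ i, ∑ j, φ (gi c d) * φ (T a b) * ((K c i * J i a) * (K d j * J j b))
        = φ (gi c d) * φ (T a b) * ((if c = a then 1 else 0) * (if d = b then 1 else 0)) := by
    intro c d a b
    rw [← hc.kj c a, ← hc.kj d b, Finset.sum_mul_sum]
    simp only [Finset.mul_sum]
  calc ∑ i, ∑ j, ∑ c, ∑ d, ∑ a, ∑ b,
        φ (gi c d) * φ (T a b) * ((K c i * J i a) * (K d j * J j b))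
      = ∑ c, ∑ d, ∑ a, ∑ b, ∑ i, ∑ j,
        φ (gi c d) * φ (T a b) * ((K c i * J i a) * (K d j * J j b)) := by
        have e1 : ∀ i, ∑ j, ∑ c, ∑ d, ∑ a, ∑ b,
            φ (gi c d) * φ (T a b) * ((K c i * J i a) * (K d j * J j b))
            = ∑ c, ∑ d, ∑ a, ∑ b, ∑ j,
            φ (gi c d) * φ (T a b) * ((K c i * J i a) * (K d j * J j b)) := by
          intro i
          rw [Finset.sum_comm]
          refine Finset.sum_congr rfl fun c _ => ?_
          rw [Finset.sum_comm]
          refine Finset.sum_congr rfl fun d _ => ?_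
          rw [Finset.sum_comm]
          refine Finset.sum_congr rfl fun a _ => ?_
          rw [Finset.sum_comm]
        simp only [e1]
        rw [Finset.sum_comm]
        refine Finset.sum_congr rfl fun c _ => ?_
        rw [Finset.sum_comm]
        refine Finset.sum_congr rfl fun d _ => ?_
        rw [Finset.sum_comm]
        refine Finset.sum_congr rfl fun a _ => ?_
        rw [Finset.sum_comm]
    _ = ∑ c, ∑ d, ∑ a, ∑ b, φ (gi c d) * φ (T a b)
          * ((if c = a then 1 else 0) * (if d = b then 1 else 0)) := by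
        simp only [h2]
    _ = φ (∑ a, ∑ b, gi a b * T a b) := by
        simp only [map_sum, map_mul]
        refine Finset.sum_congr rfl fun c _ => Finset.sum_congr rfl fun d _ => ?_
        rw [Finset.sum_eq_single c]
        · rw [Finset.sum_eq_single d]
          · simp
          · intro b _ hb
            simp [Ne.symm hb]
          · simp
        · intro a _ ha
          simp [Ne.symm ha]
        · simp

theorem cc_d (hc : CoordChange D D' φ J K) (σ : A) (i : Fin n) :
    D' i (φ σ) = ∑ a, J i a * φ (D a σ) := hc.der i σ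

theorem cc_hess (hD : IsDer D) (hD' : IsDer D') (hc : CoordChange D D' φ J K)
    (h : IsMetric g gi) (σ : A) (i j : Fin n) :
    hess D' (pull φ J g) (pullInv φ K gi) (φ σ) i j
      = ∑ a, ∑ b, J i a * J j b * φ (hess D g gi σ a b) := by
  have hs' : ∀ (m : Fin n) (f : Fin n → B), D' m (∑ a, f a) = ∑ a, D' m (f a) := fun m f =>
    map_sum (AddMonoidHom.mk' (D' m) (hD'.add m)) f Finset.univ
  unfold hess
  rw [cc_d hc, hs']
  have h1 : ∀ b, D' i (J j b * φ (D b σ)) = D' i (J j b) * φ (D b σ)
      + ∑ a, J i a * J j b * φ (D a (D b σ)) := by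
    intro b
    rw [hD'.mul, hc.der, Finset.mul_sum]
    congr 1
    refine Finset.sum_congr rfl fun a _ => by ring
  simp only [h1, Finset.sum_add_distrib]
  have h2 : ∑ l, chr D' (pull φ J g) (pullInv φ K gi) l i j * D' l (φ σ)
      = ∑ c, ((∑ a, ∑ b, J i a * J j b * φ (chr D g gi c a b)) + D' i (J j c)) * φ (D c σ) := by
    have : ∀ l, chr D' (pull φ J g) (pullInv φ K gi) l i j * D' l (φ σ)
        = ∑ c, chr D' (pull φ J g) (pullInv φ K gi) l i j * J l c * φ (D c σ) := by
      intro l
      rw [cc_d hc, Finset.mul_sum]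
      refine Finset.sum_congr rfl fun c _ => by ring
    simp only [this]
    rw [Finset.sum_comm]
    refine Finset.sum_congr rfl fun c _ => ?_
    rw [← cc_chr hD hD' hc h i j c, Finset.sum_mul]
  rw [h2]
  simp only [map_sub, map_sum, map_mul, mul_sub, Finset.sum_sub_distrib, add_mul,
    Finset.sum_add_distrib]
  have h3 : ∑ a, ∑ b, J i b * J j a * φ (D b (D a σ)) = ∑ a, ∑ b, J i a * J j b * φ (D a (D b σ)) :=
    Finset.sum_comm
  rw [h3]
  have h4 : ∑ c, (∑ a, ∑ b, J i a * J j b * φ (chr D g gi c a b)) * φ (D c σ)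
      = ∑ a, ∑ b, J i a * J j b * ∑ c, φ (chr D g gi c a b) * φ (D c σ) := by
    simp only [Finset.sum_mul, Finset.mul_sum]
    rw [Finset.sum_comm]
    refine Finset.sum_congr rfl fun a _ => ?_
    rw [Finset.sum_comm]
    refine Finset.sum_congr rfl fun b _ => ?_
    refine Finset.sum_congr rfl fun c _ => by ring
  rw [h4]
  ring

theorem cc_lap (hD : IsDer D) (hD' : IsDer D') (hc : CoordChange D D' φ J K)
    (h : IsMetric g gi) (σ : A) :
    lap D' (pull φ J g) (pullInv φ K gi) (φ σ) = φ (lap D g gi σ) := by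
  unfold lap
  simp only [cc_hess hD hD' hc h]
  exact cc_contr hc _

theorem cc_ip (hc : CoordChange D D' φ J K) (σ τ : A) :
    ip (pullInv φ K gi) (fun i => D' i (φ σ)) (fun i => D' i (φ τ))
      = φ (ip gi (fun i => D i σ) (fun i => D i τ)) := by
  unfold ip
  have h1 : ∀ i j, D' i (φ σ) * D' j (φ τ) = ∑ a, ∑ b, J i a * J j b * φ (D a σ * D b τ) := by
    intro i j
    rw [cc_d hc, cc_d hc, Finset.sum_mul_sum]
    refine Finset.sum_congr rfl fun a _ => Finset.sum_congr rfl fun b _ => ?_
    rw [map_mul]; ring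
  simp only [h1]
  exact cc_contr hc (fun a b => D a σ * D b τ)

theorem cc_tt (hD : IsDer D) (hD' : IsDer D') (hc : CoordChange D D' φ J K)
    (h : IsMetric g gi) (σ : A) (i j : Fin n) :
    tt D' (pull φ J g) (pullInv φ K gi) (φ σ) i j
      = ∑ a, ∑ b, J i a * J j b * φ (tt D g gi σ a b) := by
  unfold tt
  rw [cc_ric hD hD' hc h, cc_hess hD hD' hc h, cc_lap hD hD' hc h, cc_ip hc]
  have h1 : pull φ J g i j = ∑ a, ∑ b, J i a * J j b * φ (g a b) := rfl
  rw [h1]
  simp only [map_add, map_mul, map_sub, hc.smul, map_one]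
  simp only [Finset.mul_sum, Finset.smul_sum, ← Finset.sum_add_distrib]
  refine Finset.sum_congr rfl fun a _ => Finset.sum_congr rfl fun b _ => ?_
  rw [mul_add, mul_add, mul_smul_comm]
  congr 1
  · congr 1
    · ring
    · rw [mul_left_comm]
  · ring

theorem cc_lop (hD : IsDer D) (hD' : IsDer D') (hc : CoordChange D D' φ J K)
    (h : IsMetric g gi) (σ u : A) :
    lop D' (pull φ J g) (pullInv φ K gi) (φ σ) (φ u) = φ (lop D g gi σ u) := by
  unfold lop
  rw [cc_lap hD hD' hc h, cc_ip hc]
  simp only [map_sub, map_mul, hc.smul]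

end CC

/-! ### infinitesimal coordinate changes -/

section Inf

variable {n : ℕ} {A : Type} [CommRing A] [Algebra ℝ A] {D : Fin n → A → A}

theorem der_zero (hD : IsDer D) (i : Fin n) : D i 0 = 0 := by
  have := hD.smul i 0 0
  simpa using this

theorem der_one (hD : IsDer D) (i : Fin n) : D i 1 = 0 := by
  have := hD.mul i 1 1
  simp only [mul_one, one_mul] at this
  simpa using this

theorem der_sum (hD : IsDer D) (m : Fin n) {ι : Type} (s : Finset ι) (f : ι → A) :
    D m (∑ a ∈ s, f a) = ∑ a ∈ s, D m (f a) :=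
  map_sum (AddMonoidHom.mk' (D m) (hD.add m)) f s

theorem der_neg (hD : IsDer D) (m : Fin n) (x : A) : D m (-x) = - D m x :=
  map_neg (AddMonoidHom.mk' (D m) (hD.add m)) x

theorem der_sub (hD : IsDer D) (m : Fin n) (x y : A) : D m (x - y) = D m x - D m y :=
  map_sub (AddMonoidHom.mk' (D m) (hD.add m)) x y

theorem along_add (hD : IsDer D) (Z : Fin n → A) (f f' : A) :
    along D Z (f + f') = along D Z f + along D Z f' := by
  unfold along
  simp only [hD.add, mul_add, Finset.sum_add_distrib]

theorem along_mul (hD : IsDer D) (Z : Fin n → A) (f f' : A) :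
    along D Z (f * f') = along D Z f * f' + f * along D Z f' := by
  unfold along
  simp only [hD.mul, mul_add, Finset.sum_add_distrib, Finset.sum_mul, Finset.mul_sum]
  congr 1
  · exact Finset.sum_congr rfl fun a _ => by ring
  · exact Finset.sum_congr rfl fun a _ => by ring

/-- the ring morphism `f ↦ f + ε Z f` -/
def shiftH (hD : IsDer D) (Z : Fin n → A) (ε : A) (hε : ε * ε = 0) : A →+* A where
  toFun f := f + ε * along D Z f
  map_one' := by
    unfold along
    simp [der_one hD]
  map_mul' f f' := by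
    rw [along_mul hD]
    linear_combination (-(along D Z f * along D Z f')) * hε
  map_zero' := by
    unfold along
    simp [der_zero hD]
  map_add' f f' := by
    rw [along_add hD]; ring

theorem shift_cc (hD : IsDer D) (Z : Fin n → A) (ε : A) (hε : ε * ε = 0)
    (hDε : ∀ i, D i ε = 0) :
    CoordChange D D (shiftH hD Z ε hε) (fun i j => (if i = j then 1 else 0) + ε * D i (Z j))
      (fun i j => (if i = j then 1 else 0) - ε * D i (Z j)) where
  smul r a := by
    show r • a + ε * along D Z (r • a) = r • (a + ε * along D Z a)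
    unfold along
    simp only [hD.smul, mul_smul_comm, ← Finset.smul_sum, smul_add]
  jk i j := by
    have h1 : ∀ k, ((if i = k then (1 : A) else 0) + ε * D i (Z k))
        * ((if k = j then 1 else 0) - ε * D k (Z j))
        = (if i = k then (if k = j then 1 else 0) else 0)
          - (if i = k then ε * D k (Z j) else 0) + (if k = j then ε * D i (Z k) else 0)
          - (ε * ε) * (D i (Z k) * D k (Z j)) := by
      intro k
      split_ifs <;> ring
    simp only [h1, hε, zero_mul, sub_zero, Finset.sum_add_distrib, Finset.sum_sub_distrib,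
      Finset.sum_ite_eq, Finset.sum_ite_eq', Finset.mem_univ, if_true]
    ring
  kj i j := by
    have h1 : ∀ k, ((if i = k then (1 : A) else 0) - ε * D i (Z k))
        * ((if k = j then 1 else 0) + ε * D k (Z j))
        = (if i = k then (if k = j then 1 else 0) else 0)
          + (if i = k then ε * D k (Z j) else 0) - (if k = j then ε * D i (Z k) else 0)
          - (ε * ε) * (D i (Z k) * D k (Z j)) := by
      intro k
      split_ifs <;> ring
    simp only [h1, hε, zero_mul, sub_zero, Finset.sum_add_distrib, Finset.sum_sub_distrib,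
      Finset.sum_ite_eq, Finset.sum_ite_eq', Finset.mem_univ, if_true]
    ring
  der i a := by
    show D i (a + ε * along D Z a)
      = ∑ j, ((if i = j then 1 else 0) + ε * D i (Z j)) * (D j a + ε * along D Z (D j a))
    have h1 : ∀ j, ((if i = j then (1 : A) else 0) + ε * D i (Z j))
        * (D j a + ε * along D Z (D j a))
        = (if i = j then D j a + ε * along D Z (D j a) else 0) + ε * (D i (Z j) * D j a)
          + (ε * ε) * (D i (Z j) * along D Z (D j a)) := by
      intro j
      split_ifs <;> ring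
    simp only [h1, hε, zero_mul, add_zero, Finset.sum_add_distrib, Finset.sum_ite_eq,
      Finset.mem_univ, if_true, ← Finset.mul_sum]
    rw [hD.add, hD.mul, hDε, zero_mul, zero_add, add_assoc, ← mul_add]
    congr 2
    unfold along
    rw [der_sum hD, ← Finset.sum_add_distrib]
    refine Finset.sum_congr rfl fun b _ => ?_
    rw [hD.mul, hD.comm i b a]; ring
  closed i j k := by
    rw [hD.add, hD.add, hD.mul, hD.mul, hDε, hDε, hD.comm i j]
    have : ∀ (m : Fin n) (P : Prop) [Decidable P], D m (if P then (1 : A) else 0) = 0 := by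
      intro m P _
      split_ifs
      · exact der_one hD m
      · exact der_zero hD m
    rw [this, this]
    ring

theorem shift_pull (hD : IsDer D) (Z : Fin n → A) (ε : A) (hε : ε * ε = 0)
    (T : Fin n → Fin n → A) (i j : Fin n) :
    ∑ a, ∑ b, ((if i = a then 1 else 0) + ε * D i (Z a)) * ((if j = b then 1 else 0)
      + ε * D j (Z b)) * (shiftH hD Z ε hε (T a b)) = T i j + ε * lie D Z T i j := by
  have h0 : ∀ a b, shiftH hD Z ε hε (T a b) = T a b + ε * along D Z (T a b) := fun _ _ => rfl
  have h1 : ∀ a b, ((if i = a then (1 : A) else 0) + ε * D i (Z a)) * ((if j = b then 1 else 0)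
      + ε * D j (Z b)) * (shiftH hD Z ε hε (T a b))
      = (if i = a then (if j = b then T a b + ε * along D Z (T a b) else 0) else 0)
        + (if j = b then ε * (D i (Z a) * T a b) else 0)
        + (if i = a then ε * (D j (Z b) * T a b) else 0)
        + (ε * ε) * ((if j = b then D i (Z a) * along D Z (T a b) else 0)
          + (if i = a then D j (Z b) * along D Z (T a b) else 0)
          + D i (Z a) * D j (Z b) * (T a b + ε * along D Z (T a b))) := by
    intro a b
    rw [h0]
    split_ifs <;> ring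
  simp only [h1, hε, zero_mul, add_zero, Finset.sum_add_distrib]
  have e1 : ∑ a, ∑ b, (if i = a then (if j = b then T a b + ε * along D Z (T a b) else 0) else 0)
      = T i j + ε * along D Z (T i j) := by
    rw [Finset.sum_eq_single i]
    · simp
    · intro a _ ha; simp [Ne.symm ha]
    · simp
  have e2 : ∑ a, ∑ b, (if j = b then ε * (D i (Z a) * T a b) else 0)
      = ε * ∑ a, D i (Z a) * T a j := by
    rw [Finset.mul_sum]
    refine Finset.sum_congr rfl fun a _ => ?_
    simp
  have e3 : ∑ a, ∑ b, (if i = a then ε * (D j (Z b) * T a b) else 0)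
      = ε * ∑ b, D j (Z b) * T i b := by
    rw [Finset.sum_eq_single i]
    · simp [Finset.mul_sum]
    · intro a _ ha; simp [Ne.symm ha]
    · simp
  rw [e1, e2, e3]
  unfold lie along
  ring

end Inf

end Run7.h96.Hy

end

section

/-!
Infinitesimal conformal changes.
-/

set_option linter.all false

open scoped BigOperators

namespace Run7.h96.Hy

open CInv

variable {n : ℕ} {A : Type} [CommRing A] [Algebra ℝ A] {D : Fin n → A → A}
    {g gi : Fin n → Fin n → A}

theorem metric_unique {gi' : Fin n → Fin n → A} (h : IsMetric g gi) (h' : IsMetric g gi') :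
    gi = gi' := by
  have h1 : (Matrix.of g) * (Matrix.of gi) = 1 := by
    ext i j
    rw [Matrix.mul_apply, Matrix.one_apply]
    exact h.inv i j
  have h2 : (Matrix.of g) * (Matrix.of gi') = 1 := by
    ext i j
    rw [Matrix.mul_apply, Matrix.one_apply]
    exact h'.inv i j
  have h3 : Matrix.of gi = Matrix.of gi' := by
    calc Matrix.of gi = (Matrix.of gi' * Matrix.of g) * Matrix.of gi := by
          rw [mul_eq_one_comm.mp h2, one_mul]
      _ = Matrix.of gi' := by rw [mul_assoc, h1, mul_one]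
  exact h3

/-- infinitesimal diffeomorphisms -/
theorem tt_shift (hD : IsDer D) (h : IsMetric g gi) (Z : Fin n → A) (ε : A) (hε : ε * ε = 0)
    (hDε : ∀ i, D i ε = 0) {g' gi' : Fin n → Fin n → A} (h' : IsMetric g' gi')
    (hg : ∀ i j, g' i j = g i j + ε * lie D Z g i j) (σ : A) (i j : Fin n) :
    tt D g' gi' (σ + ε * along D Z σ) i j = tt D g gi σ i j + ε * lie D Z (tt D g gi σ) i j := by
  have hc := shift_cc hD Z ε hε hDε
  have h1 := cc_metric hc h
  have h2 : g' = pull (shiftH hD Z ε hε) (fun i j => (if i = j then 1 else 0) + ε * D i (Z j)) g := by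
    funext i j
    rw [hg]
    exact (shift_pull hD Z ε hε g i j).symm
  subst h2
  have h3 := metric_unique h' h1
  subst h3
  exact (cc_tt hD hD hc h σ i j).trans (shift_pull hD Z ε hε _ i j)

theorem lop_shift (hD : IsDer D) (h : IsMetric g gi) (Z : Fin n → A) (ε : A) (hε : ε * ε = 0)
    (hDε : ∀ i, D i ε = 0) {g' gi' : Fin n → Fin n → A} (h' : IsMetric g' gi')
    (hg : ∀ i j, g' i j = g i j + ε * lie D Z g i j) (σ u : A) :
    lop D g' gi' (σ + ε * along D Z σ) (u + ε * along D Z u)
      = lop D g gi σ u + ε * along D Z (lop D g gi σ u) := by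
  have hc := shift_cc hD Z ε hε hDε
  have h1 := cc_metric hc h
  have h2 : g' = pull (shiftH hD Z ε hε) (fun i j => (if i = j then 1 else 0) + ε * D i (Z j)) g := by
    funext i j
    rw [hg]
    exact (shift_pull hD Z ε hε g i j).symm
  subst h2
  have h3 := metric_unique h' h1
  subst h3
  exact cc_lop hD hD hc h σ u

/-- variation of the Ricci tensor in terms of the variation of the connection -/
theorem ric_var (hD : IsDer D) (ε : A) (hε : ε * ε = 0) (hDε : ∀ i, D i ε = 0)
    {g' gi' : Fin n → Fin n → A} (C : Fin n → Fin n → Fin n → A)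
    (hC : ∀ k i j, chr D g' gi' k i j = chr D g gi k i j + ε * C k i j) (i j : Fin n) :
    ric D g' gi' i j = ric D g gi i j + ε * ((∑ k, (D k (C k i j) - D j (C k i k)))
      + ∑ k, ∑ l, (C k k l * chr D g gi l i j + chr D g gi k k l * C l i j
        - C k j l * chr D g gi l i k - chr D g gi k j l * C l i k)) := by
  unfold ric
  simp only [hC, hD.add, hD.mul, hDε, zero_mul, zero_add]
  have h1 : ∀ k l, (chr D g gi k k l + ε * C k k l) * (chr D g gi l i j + ε * C l i j)
      - (chr D g gi k j l + ε * C k j l) * (chr D g gi l i k + ε * C l i k)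
      = (chr D g gi k k l * chr D g gi l i j - chr D g gi k j l * chr D g gi l i k)
        + ε * (C k k l * chr D g gi l i j + chr D g gi k k l * C l i j
        - C k j l * chr D g gi l i k - chr D g gi k j l * C l i k)
        + (ε * ε) * (C k k l * C l i j - C k j l * C l i k) := by
    intro k l; ring
  have e : ∑ k, ∑ l, ((chr D g gi k k l + ε * C k k l) * (chr D g gi l i j + ε * C l i j)
      - (chr D g gi k j l + ε * C k j l) * (chr D g gi l i k + ε * C l i k))
      = (∑ k, ∑ l, (chr D g gi k k l * chr D g gi l i j - chr D g gi k j l * chr D g gi l i k))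
        + ε * ∑ k, ∑ l, (C k k l * chr D g gi l i j + chr D g gi k k l * C l i j
        - C k j l * chr D g gi l i k - chr D g gi k j l * C l i k) := by
    simp only [h1, hε, zero_mul, add_zero, Finset.sum_add_distrib, Finset.mul_sum]
  have h2 : ∑ k, (D k (chr D g gi k i j) + ε * D k (C k i j)
      - (D j (chr D g gi k i k) + ε * D j (C k i k)))
      = ∑ k, (D k (chr D g gi k i j) - D j (chr D g gi k i k))
        + ε * ∑ k, (D k (C k i j) - D j (C k i k)) := by
    rw [Finset.mul_sum, ← Finset.sum_add_distrib]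
    exact Finset.sum_congr rfl fun k _ => by ring
  rw [h2, e]
  ring

/-- the gradient -/
def grad (D : Fin n → A → A) (gi : Fin n → Fin n → A) (ω : A) (k : Fin n) : A :=
  ∑ m, gi k m * D m ω

theorem lap_div (hD : IsDer D) (h : IsMetric g gi) (ω : A) :
    (∑ k, D k (grad D gi ω k)) + ∑ k, ∑ l, chr D g gi k k l * grad D gi ω l = lap D g gi ω := by
  have hm := (metric_compat hD h).2.2
  have h1 : ∀ k, D k (grad D gi ω k) = ∑ m, (gi k m * D k (D m ω)
      + (- (∑ p, chr D g gi k k p * gi p m) - ∑ p, chr D g gi m k p * gi k p) * D m ω) := by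
    intro k
    unfold grad
    rw [der_sum hD]
    refine Finset.sum_congr rfl fun m _ => ?_
    rw [hD.mul, hm]; ring
  simp only [h1]
  simp only [lap, hess, grad]
  simp only [Finset.sum_add_distrib, Finset.mul_sum, mul_sub, sub_mul, neg_mul, Finset.sum_mul,
    Finset.sum_sub_distrib, Finset.sum_neg_distrib]
  have e1 : ∑ k, ∑ m, ∑ p, chr D g gi k k p * gi p m * D m ω
      = ∑ k, ∑ l, ∑ m, chr D g gi k k l * (gi l m * D m ω) := by
    refine Finset.sum_congr rfl fun k _ => ?_
    rw [Finset.sum_comm]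
    exact Finset.sum_congr rfl fun l _ => Finset.sum_congr rfl fun m _ => by ring
  have e2 : ∑ k, ∑ m, ∑ p, chr D g gi m k p * gi k p * D m ω
      = ∑ i, ∑ j, ∑ l, gi i j * (chr D g gi l i j * D l ω) := by
    refine Finset.sum_congr rfl fun k _ => ?_
    rw [Finset.sum_comm]
    exact Finset.sum_congr rfl fun l _ => Finset.sum_congr rfl fun m _ => by ring
  rw [e1, e2]
  ring

/-- variation of the Christoffel symbols under an infinitesimal conformal change -/
def confC (D : Fin n → A → A) (g gi : Fin n → Fin n → A) (ω : A) (k i j : Fin n) : A :=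
  (if k = i then D j ω else 0) + (if k = j then D i ω else 0) - g i j * grad D gi ω k

theorem chr_conf (hD : IsDer D) (h : IsMetric g gi) (ω ε : A) (hε : ε * ε = 0)
    (hDε : ∀ i, D i ε = 0) (k i j : Fin n) :
    chr D (fun i j => (1 + 2 * (ε * ω)) * g i j) (fun i j => (1 - 2 * (ε * ω)) * gi i j) k i j
      = chr D g gi k i j + ε * confC D g gi ω k i j := by
  have hs := gi_symm h
  have h2 : ∀ i, D i (1 + 2 * (ε * ω)) = 2 * (ε * D i ω) := by
    intro i
    have : (1 : A) + 2 * (ε * ω) = 1 + (2 : ℝ) • (ε * ω) := by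
      rw [two_smul, two_mul]
    rw [this, hD.add, der_one hD, hD.smul, hD.mul, hDε, two_smul, two_mul]; ring
  unfold chr confC grad
  have h3 : ∀ l, (1 - 2 * (ε * ω)) * gi k l * (D i ((1 + 2 * (ε * ω)) * g j l)
      + D j ((1 + 2 * (ε * ω)) * g i l) - D l ((1 + 2 * (ε * ω)) * g i j))
      = gi k l * (D i (g j l) + D j (g i l) - D l (g i j))
        + 2 * ε * (D i ω * (gi k l * g l j) + D j ω * (gi k l * g l i) - g i j * (gi k l * D l ω))
        + (ε * ε) * (- 4 * ω * ω * (gi k l * (D i (g j l) + D j (g i l) - D l (g i j)))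
          - 4 * ω * (D i ω * (gi k l * g l j) + D j ω * (gi k l * g l i)
            - g i j * (gi k l * D l ω))) := by
    intro l
    simp only [hD.mul, h2]
    rw [h.symm l j, h.symm l i]
    ring
  simp only [h3, hε, zero_mul, add_zero, Finset.sum_add_distrib, smul_add]
  congr 1
  rw [← Finset.mul_sum, Finset.sum_sub_distrib, Finset.sum_add_distrib, ← Finset.mul_sum,
    ← Finset.mul_sum, ← Finset.mul_sum, hs.2, hs.2]
  have h4 : ∀ x : A, (1 / 2 : ℝ) • (2 * x) = x := by
    intro x
    rw [two_mul, ← two_smul ℝ x, smul_smul]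
    norm_num
  rw [show ∀ x : A, 2 * ε * x = 2 * (ε * x) from fun x => by ring, h4]
  split_ifs <;> ring

theorem conf_metric (h : IsMetric g gi) (ω ε : A) (hε : ε * ε = 0) :
    IsMetric (fun i j => (1 + 2 * (ε * ω)) * g i j) (fun i j => (1 - 2 * (ε * ω)) * gi i j) where
  symm i j := by beta_reduce; rw [h.symm]
  inv i j := by
    have h1 : ∀ k, (1 + 2 * (ε * ω)) * g i k * ((1 - 2 * (ε * ω)) * gi k j)
        = g i k * gi k j - (ε * ε) * (4 * ω * ω * (g i k * gi k j)) := by
      intro k; ring
    simp only [h1, hε, zero_mul, sub_zero]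
    exact h.inv i j

theorem ric_conf (hD : IsDer D) (h : IsMetric g gi) (ω ε : A) (hε : ε * ε = 0)
    (hDε : ∀ i, D i ε = 0) (i j : Fin n) :
    ric D (fun i j => (1 + 2 * (ε * ω)) * g i j) (fun i j => (1 - 2 * (ε * ω)) * gi i j) i j
      = ric D g gi i j + ε * (- (((n : ℝ) - 2) • hess D g gi ω i j) - lap D g gi ω * g i j) := by
  rw [ric_var hD ε hε hDε (confC D g gi ω) (fun k i j => chr_conf hD h ω ε hε hDε k i j)]
  congr 2
  have hs := (metric_compat hD h).1
  have hg := (metric_compat hD h).2.1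
  have hsi := gi_symm h
  have hcc : ∀ l, ∑ k, confC D g gi ω k k l = (n : ℝ) • D l ω := by
    intro l
    unfold confC
    simp only [Finset.sum_add_distrib, Finset.sum_sub_distrib, if_true, Finset.sum_const,
      Finset.card_univ, Fintype.card_fin, Finset.sum_ite_eq', Finset.mem_univ]
    have : ∑ k, g k l * grad D gi ω k = D l ω := by
      unfold grad
      simp only [Finset.mul_sum]
      rw [Finset.sum_comm]
      have : ∀ m, ∑ k, g k l * (gi k m * D m ω) = (if l = m then 1 else 0) * D m ω := by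
        intro m
        rw [← h.inv l m, Finset.sum_mul]
        exact Finset.sum_congr rfl fun k _ => by rw [h.symm k l]; ring
      simp [this]
    rw [this, Nat.cast_smul_eq_nsmul]
    ring
  have hcc' : ∀ l, ∑ k, confC D g gi ω k l k = (n : ℝ) • D l ω := by
    intro l
    rw [← hcc l]
    refine Finset.sum_congr rfl fun k _ => ?_
    unfold confC
    rw [h.symm l k]; ring
  have t1 : ∑ k, (D k (confC D g gi ω k i j) - D j (confC D g gi ω k i k))
      = D i (D j ω) + D j (D i ω) - (∑ k, D k (g i j) * grad D gi ω k)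
        - g i j * (∑ k, D k (grad D gi ω k)) - (n : ℝ) • D j (D i ω) := by
    rw [Finset.sum_sub_distrib, ← der_sum hD, hcc' i, hD.smul]
    congr 1
    have : ∀ k, D k (confC D g gi ω k i j) = (if k = i then D k (D j ω) else 0)
        + (if k = j then D k (D i ω) else 0) - (D k (g i j) * grad D gi ω k
          + g i j * D k (grad D gi ω k)) := by
      intro k
      unfold confC
      rw [der_sub hD, hD.add, hD.mul]
      congr 1
      congr 1
      · split_ifs
        · rfl
        · exact der_zero hD k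
      · split_ifs
        · rfl
        · exact der_zero hD k
    simp only [this, Finset.sum_sub_distrib, Finset.sum_add_distrib, Finset.sum_ite_eq',
      Finset.mem_univ, if_true, ← Finset.mul_sum]
    ring
  have t2 : ∑ k, ∑ l, confC D g gi ω k k l * chr D g gi l i j
      = (n : ℝ) • ∑ l, D l ω * chr D g gi l i j := by
    rw [Finset.sum_comm, Finset.smul_sum]
    refine Finset.sum_congr rfl fun l _ => ?_
    rw [← Finset.sum_mul, hcc, smul_mul_assoc]
  have t3 : ∑ k, ∑ l, chr D g gi k k l * confC D g gi ω l i j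
      = (∑ k, chr D g gi k k i) * D j ω + (∑ k, chr D g gi k k j) * D i ω
        - g i j * ∑ k, ∑ l, chr D g gi k k l * grad D gi ω l := by
    have : ∀ k l, chr D g gi k k l * confC D g gi ω l i j
        = (if l = i then chr D g gi k k l * D j ω else 0)
          + (if l = j then chr D g gi k k l * D i ω else 0)
          - g i j * (chr D g gi k k l * grad D gi ω l) := by
      intro k l
      unfold confC
      split_ifs <;> ring
    simp only [this, Finset.sum_sub_distrib, Finset.sum_add_distrib, Finset.sum_ite_eq',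
      Finset.mem_univ, if_true, Finset.sum_mul, Finset.mul_sum]
  have t4 : ∑ k, ∑ l, confC D g gi ω k j l * chr D g gi l i k
      = (∑ l, D l ω * chr D g gi l i j) + D j ω * (∑ k, chr D g gi k i k)
        - ∑ k, ∑ l, g j l * grad D gi ω k * chr D g gi l i k := by
    have : ∀ k l, confC D g gi ω k j l * chr D g gi l i k
        = (if k = j then D l ω * chr D g gi l i k else 0)
          + (if k = l then D j ω * chr D g gi l i k else 0)
          - g j l * grad D gi ω k * chr D g gi l i k := by
      intro k l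
      unfold confC
      split_ifs <;> ring
    simp only [this, Finset.sum_sub_distrib, Finset.sum_add_distrib]
    congr 1
    congr 1
    · rw [Finset.sum_comm]
      exact Finset.sum_congr rfl fun l _ => by simp
    · rw [Finset.mul_sum]
      exact Finset.sum_congr rfl fun l _ => by simp
  have t5 : ∑ k, ∑ l, chr D g gi k j l * confC D g gi ω l i k
      = (∑ k, chr D g gi k j i * D k ω) + (∑ k, chr D g gi k j k) * D i ω
        - ∑ k, ∑ l, g i k * chr D g gi k j l * grad D gi ω l := by
    have : ∀ k l, chr D g gi k j l * confC D g gi ω l i k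
        = (if l = i then chr D g gi k j l * D k ω else 0)
          + (if l = k then chr D g gi k j l * D i ω else 0)
          - g i k * chr D g gi k j l * grad D gi ω l := by
      intro k l
      unfold confC
      split_ifs <;> ring
    simp only [this, Finset.sum_sub_distrib, Finset.sum_add_distrib, Finset.sum_ite_eq',
      Finset.mem_univ, if_true, Finset.sum_mul]
  have t6 : ∑ k, D k (g i j) * grad D gi ω k
      = (∑ k, ∑ l, g j l * grad D gi ω k * chr D g gi l i k)
        + ∑ k, ∑ l, g i k * chr D g gi k j l * grad D gi ω l := by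
    rw [Finset.sum_comm (f := fun k l => g i k * chr D g gi k j l * grad D gi ω l),
      ← Finset.sum_add_distrib]
    refine Finset.sum_congr rfl fun k _ => ?_
    rw [hg k i j, add_mul, Finset.sum_mul, Finset.sum_mul]
    congr 1
    · refine Finset.sum_congr rfl fun l _ => ?_
      rw [hs l k i, h.symm l j]; ring
    · refine Finset.sum_congr rfl fun l _ => ?_
      rw [hs l k j]; ring
  have t7 : (∑ k, chr D g gi k i k) = ∑ k, chr D g gi k k i :=
    Finset.sum_congr rfl fun k _ => hs k i k
  have t8 : (∑ k, chr D g gi k j k) = ∑ k, chr D g gi k k j :=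
    Finset.sum_congr rfl fun k _ => hs k j k
  have t9 : (∑ k, chr D g gi k j i * D k ω) = ∑ l, D l ω * chr D g gi l i j :=
    Finset.sum_congr rfl fun k _ => by rw [hs k j i]; ring
  have t10 := lap_div hD h ω
  have t11 : hess D g gi ω i j = D j (D i ω) - ∑ l, D l ω * chr D g gi l i j := by
    unfold hess
    rw [hD.comm i j]
    congr 1
    exact Finset.sum_congr rfl fun l _ => by ring
  simp only [Finset.sum_add_distrib, Finset.sum_sub_distrib] at t1 ⊢
  rw [t1, t2, t3, t4, t5, t6, t7, t8, t9, t11, ← t10]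
  simp only [sub_smul, smul_sub, hD.comm i j ω, two_smul]
  ring

end Run7.h96.Hy

end

section

/-!
Infinitesimal conformal covariance of `tt` and `lop`.
-/

set_option linter.all false

open scoped BigOperators

namespace Run7.h96.Hy

open CInv

variable {n : ℕ} {A : Type} [CommRing A] [Algebra ℝ A] {D : Fin n → A → A}
    {g gi : Fin n → Fin n → A}

theorem ip_add_left (gi : Fin n → Fin n → A) (u u' v : Fin n → A) :
    ip gi (fun i => u i + u' i) v = ip gi u v + ip gi u' v := by
  unfold ip
  simp only [add_mul, mul_add, Finset.sum_add_distrib]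

theorem ip_add_right (gi : Fin n → Fin n → A) (u v v' : Fin n → A) :
    ip gi u (fun i => v i + v' i) = ip gi u v + ip gi u v' := by
  unfold ip
  simp only [add_mul, mul_add, Finset.sum_add_distrib]

theorem ip_mul_left (gi : Fin n → Fin n → A) (c : A) (u v : Fin n → A) :
    ip gi (fun i => c * u i) v = c * ip gi u v := by
  unfold ip
  simp only [Finset.mul_sum]
  exact Finset.sum_congr rfl fun i _ => Finset.sum_congr rfl fun j _ => by ring

theorem ip_mul_right (gi : Fin n → Fin n → A) (c : A) (u v : Fin n → A) :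
    ip gi u (fun i => c * v i) = c * ip gi u v := by
  unfold ip
  simp only [Finset.mul_sum]
  exact Finset.sum_congr rfl fun i _ => Finset.sum_congr rfl fun j _ => by ring

theorem ip_mul_gi (gi : Fin n → Fin n → A) (c : A) (u v : Fin n → A) :
    ip (fun i j => c * gi i j) u v = c * ip gi u v := by
  unfold ip
  simp only [Finset.mul_sum]
  exact Finset.sum_congr rfl fun i _ => Finset.sum_congr rfl fun j _ => by ring

theorem ip_comm (h : IsMetric g gi) (u v : Fin n → A) : ip gi u v = ip gi v u := by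
  unfold ip
  rw [Finset.sum_comm]
  exact Finset.sum_congr rfl fun i _ => Finset.sum_congr rfl fun j _ => by
    rw [(gi_symm h).1 j i]; ring

theorem hess_add (hD : IsDer D) (σ τ : A) (i j : Fin n) :
    hess D g gi (σ + τ) i j = hess D g gi σ i j + hess D g gi τ i j := by
  unfold hess
  simp only [hD.add, mul_add, Finset.sum_add_distrib]
  ring

theorem hess_mul (hD : IsDer D) (ω σ : A) (i j : Fin n) :
    hess D g gi (ω * σ) i j = ω * hess D g gi σ i j + σ * hess D g gi ω i j
      + D i ω * D j σ + D j ω * D i σ := by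
  unfold hess
  simp only [hD.mul, hD.add]
  have : ∑ l, chr D g gi l i j * (D l ω * σ + ω * D l σ)
      = σ * (∑ l, chr D g gi l i j * D l ω) + ω * ∑ l, chr D g gi l i j * D l σ := by
    simp only [Finset.mul_sum, ← Finset.sum_add_distrib]
    exact Finset.sum_congr rfl fun l _ => by ring
  rw [this]
  ring

theorem hess_symm (hD : IsDer D) (h : IsMetric g gi) (σ : A) (i j : Fin n) :
    hess D g gi σ i j = hess D g gi σ j i := by
  unfold hess
  rw [hD.comm i j]
  congr 1
  exact Finset.sum_congr rfl fun l _ => by rw [(metric_compat hD h).1 l i j]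

theorem hess_eps (hD : IsDer D) (ε : A) (hDε : ∀ i, D i ε = 0) (τ : A) (i j : Fin n) :
    hess D g gi (ε * τ) i j = ε * hess D g gi τ i j := by
  rw [hess_mul hD]
  have : hess D g gi ε i j = 0 := by
    unfold hess
    rw [hDε, der_zero hD]
    simp [hDε]
  rw [this, hDε, hDε]; ring

theorem confC_sum (h : IsMetric g gi) (ω τ : A) (i j : Fin n) :
    ∑ l, confC D g gi ω l i j * D l τ
      = D j ω * D i τ + D i ω * D j τ - g i j * ip gi (fun i => D i ω) (fun i => D i τ) := by
  have h1 : ∀ l, confC D g gi ω l i j * D l τ = (if l = i then D j ω * D l τ else 0)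
      + (if l = j then D i ω * D l τ else 0) - g i j * (grad D gi ω l * D l τ) := by
    intro l
    unfold confC
    split_ifs <;> ring
  simp only [h1, Finset.sum_sub_distrib, Finset.sum_add_distrib, Finset.sum_ite_eq',
    Finset.mem_univ, if_true, ← Finset.mul_sum]
  congr 2
  unfold grad ip
  simp only [Finset.sum_mul]
  rw [Finset.sum_comm]
  exact Finset.sum_congr rfl fun i _ => Finset.sum_congr rfl fun j _ => by
    rw [(gi_symm h).1 j i]; ring

theorem hess_conf (hD : IsDer D) (h : IsMetric g gi) (ω ε : A) (hε : ε * ε = 0)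
    (hDε : ∀ i, D i ε = 0) (τ : A) (i j : Fin n) :
    hess D (fun i j => (1 + 2 * (ε * ω)) * g i j) (fun i j => (1 - 2 * (ε * ω)) * gi i j) τ i j
      = hess D g gi τ i j - ε * (D j ω * D i τ + D i ω * D j τ
        - g i j * ip gi (fun i => D i ω) (fun i => D i τ)) := by
  rw [← confC_sum (D := D) h]
  unfold hess
  have h1 : ∀ l, chr D (fun i j => (1 + 2 * (ε * ω)) * g i j)
      (fun i j => (1 - 2 * (ε * ω)) * gi i j) l i j * D l τ
      = chr D g gi l i j * D l τ + ε * (confC D g gi ω l i j * D l τ) := by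
    intro l
    rw [chr_conf hD h ω ε hε hDε]; ring
  simp only [h1, Finset.sum_add_distrib, ← Finset.mul_sum]
  ring

theorem tr_g (h : IsMetric g gi) : ∑ i, ∑ j, gi i j * g i j = (n : ℝ) • (1 : A) := by
  have : ∀ i, ∑ j, gi i j * g i j = 1 := by
    intro i
    have := (gi_symm h).2 i i
    rw [if_pos rfl] at this
    rw [← this]
    exact Finset.sum_congr rfl fun j _ => by rw [h.symm i j]
  simp only [this, Finset.sum_const, Finset.card_univ, Fintype.card_fin,
    Nat.cast_smul_eq_nsmul]

theorem lap_conf (hD : IsDer D) (h : IsMetric g gi) (ω ε : A) (hε : ε * ε = 0)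
    (hDε : ∀ i, D i ε = 0) (τ : A) :
    lap D (fun i j => (1 + 2 * (ε * ω)) * g i j) (fun i j => (1 - 2 * (ε * ω)) * gi i j) τ
      = lap D g gi τ + ε * (-(2 * ω * lap D g gi τ)
        + ((n : ℝ) - 2) • ip gi (fun i => D i ω) (fun i => D i τ)) := by
  unfold lap
  have h1 : ∀ i j, (1 - 2 * (ε * ω)) * gi i j * hess D (fun i j => (1 + 2 * (ε * ω)) * g i j)
      (fun i j => (1 - 2 * (ε * ω)) * gi i j) τ i j
      = gi i j * hess D g gi τ i j + ε * (-(2 * ω) * (gi i j * hess D g gi τ i j)
        - (gi i j * (D i τ * D j ω)) - (gi i j * (D i ω * D j τ))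
        + ip gi (fun i => D i ω) (fun i => D i τ) * (gi i j * g i j))
        + (ε * ε) * (2 * ω * gi i j * (D j ω * D i τ + D i ω * D j τ
        - g i j * ip gi (fun i => D i ω) (fun i => D i τ))) := by
    intro i j
    rw [hess_conf hD h ω ε hε hDε]
    ring
  simp only [h1, hε, zero_mul, add_zero, Finset.sum_add_distrib, Finset.sum_sub_distrib,
    ← Finset.mul_sum]
  rw [tr_g h]
  have e1 : ∑ i, ∑ j, gi i j * (D i τ * D j ω) = ip gi (fun i => D i ω) (fun i => D i τ) := by
    rw [ip_comm h]; rfl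
  have e2 : ∑ i, ∑ j, gi i j * (D i ω * D j τ) = ip gi (fun i => D i ω) (fun i => D i τ) := rfl
  rw [e1, e2, mul_smul_comm, mul_one, sub_smul, two_smul]
  ring

theorem tt_conf (hD : IsDer D) (h : IsMetric g gi) (ω ε : A) (hε : ε * ε = 0)
    (hDε : ∀ i, D i ε = 0) (σ : A) (i j : Fin n) :
    tt D (fun i j => (1 + 2 * (ε * ω)) * g i j) (fun i j => (1 - 2 * (ε * ω)) * gi i j)
      (σ + ε * (ω * σ)) i j
      = tt D g gi σ i j + ε * (2 * ω * tt D g gi σ i j) := by
  have hd : ∀ i, D i (σ + ε * (ω * σ)) = D i σ + ε * (D i ω * σ + ω * D i σ) := by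
    intro i
    rw [hD.add, hD.mul, hDε, hD.mul]; ring
  set q := ip gi (fun i => D i ω) (fun i => D i σ) with hq
  set p := ip gi (fun i => D i σ) (fun i => D i σ) with hp
  have hip : ip (fun i j => (1 - 2 * (ε * ω)) * gi i j) (fun i => D i (σ + ε * (ω * σ)))
      (fun i => D i (σ + ε * (ω * σ))) = p + ε * (2 * σ * q) := by
    simp only [hd]
    rw [ip_mul_gi, ip_add_left, ip_mul_left, ip_add_right, ip_add_right, ip_mul_right,
      ip_mul_right]
    have e1 : ip gi (fun i => D i σ) (fun i => D i ω * σ + ω * D i σ) = σ * q + ω * p := by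
      have : (fun i => D i ω * σ + ω * D i σ) = fun i => σ * D i ω + ω * D i σ := by
        funext i; ring
      rw [this, ip_add_right, ip_mul_right, ip_mul_right, ip_comm h]
    have e2 : ip gi (fun i => D i ω * σ + ω * D i σ) (fun i => D i σ) = σ * q + ω * p := by
      rw [ip_comm h, e1]
    rw [e1, e2]
    linear_combination (-4 * ω * (σ * q + ω * p) + (1 - 2 * (ε * ω)) *
      ip gi (fun i => D i ω * σ + ω * D i σ) (fun i => D i ω * σ + ω * D i σ)) * hε
  have hh : ∀ i j, hess D (fun i j => (1 + 2 * (ε * ω)) * g i j)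
      (fun i j => (1 - 2 * (ε * ω)) * gi i j) (σ + ε * (ω * σ)) i j
      = hess D g gi σ i j + ε * (ω * hess D g gi σ i j + σ * hess D g gi ω i j + q * g i j) := by
    intro i j
    rw [hess_conf hD h ω ε hε hDε, hess_add hD, hess_eps hD ε hDε, hess_mul hD]
    simp only [hd]
    rw [ip_add_right, ip_mul_right]
    linear_combination (-(D j ω * (D i ω * σ + ω * D i σ) + D i ω * (D j ω * σ + ω * D j σ)
      - g i j * ip gi (fun i => D i ω) (fun i => D i ω * σ + ω * D i σ))) * hε
  have hl : lap D (fun i j => (1 + 2 * (ε * ω)) * g i j)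
      (fun i j => (1 - 2 * (ε * ω)) * gi i j) (σ + ε * (ω * σ))
      = lap D g gi σ + ε * (-(ω * lap D g gi σ) + σ * lap D g gi ω + (n : ℝ) • q) := by
    unfold lap
    have h1 : ∀ i j, (1 - 2 * (ε * ω)) * gi i j * hess D (fun i j => (1 + 2 * (ε * ω)) * g i j)
        (fun i j => (1 - 2 * (ε * ω)) * gi i j) (σ + ε * (ω * σ)) i j
        = gi i j * hess D g gi σ i j + ε * (-(ω * (gi i j * hess D g gi σ i j))
          + σ * (gi i j * hess D g gi ω i j) + q * (gi i j * g i j))
          + (ε * ε) * (-2 * ω * gi i j * (ω * hess D g gi σ i j + σ * hess D g gi ω i j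
            + q * g i j)) := by
      intro i j
      rw [hh]; ring
    simp only [h1, hε, zero_mul, add_zero, Finset.sum_add_distrib, Finset.sum_neg_distrib,
      ← Finset.mul_sum]
    rw [tr_g h, mul_smul_comm, mul_one]
  unfold tt
  rw [hip, hh, hl, ric_conf hD h ω ε hε hDε]
  simp only [sub_smul, one_smul, two_smul, smul_add, smul_sub, smul_neg, mul_add, mul_sub,
    mul_neg, add_mul, sub_mul]
  -- turn real scalars into ring elements
  simp only [Algebra.smul_def, map_natCast]
  set N : A := (n : A) with hN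
  linear_combination (σ * ω * ω * σ * ric D g gi i j
    + 2 * σ * ω * σ * (-(N * hess D g gi ω i j) + 2 * hess D g gi ω i j - lap D g gi ω * g i j)
    + ε * σ * ω * ω * σ * (-(N * hess D g gi ω i j) + 2 * hess D g gi ω i j - lap D g gi ω * g i j)
    + (2 * σ * ω * g i j * q + σ * ω ^ 2 * N * hess D g gi σ i j
    - σ * ω ^ 2 * g i j * lap D g gi σ - 2 * σ * ω ^ 2 * hess D g gi σ i j
    + 2 * σ * ε * ω ^ 2 * N * g i j * q - 2 * σ * ε * ω ^ 3 * g i j * lap D g gi σ
    + σ ^ 2 * ω * N * hess D g gi ω i j - 2 * σ ^ 2 * ω * hess D g gi ω i j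
    + 3 * σ ^ 2 * ω * lap D g gi ω * g i j + 2 * σ ^ 2 * ε * ω ^ 2 * lap D g gi ω * g i j)) * hε

theorem lop_conf (hD : IsDer D) (h : IsMetric g gi) (ω ε : A) (hε : ε * ε = 0)
    (hDε : ∀ i, D i ε = 0) (σ u : A) :
    lop D (fun i j => (1 + 2 * (ε * ω)) * g i j) (fun i j => (1 - 2 * (ε * ω)) * gi i j)
      (σ + ε * (ω * σ)) u = lop D g gi σ u := by
  have hd : ∀ i, D i (σ + ε * (ω * σ)) = D i σ + ε * (D i ω * σ + ω * D i σ) := by
    intro i
    rw [hD.add, hD.mul, hDε, hD.mul]; ring
  set q := ip gi (fun i => D i ω) (fun i => D i u) with hq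
  set p := ip gi (fun i => D i σ) (fun i => D i u) with hp
  have hip : ip (fun i j => (1 - 2 * (ε * ω)) * gi i j) (fun i => D i (σ + ε * (ω * σ)))
      (fun i => D i u) = p + ε * (σ * q - ω * p) := by
    simp only [hd]
    rw [ip_mul_gi, ip_add_left, ip_mul_left]
    have e2 : ip gi (fun i => D i ω * σ + ω * D i σ) (fun i => D i u) = σ * q + ω * p := by
      have : (fun i => D i ω * σ + ω * D i σ) = fun i => σ * D i ω + ω * D i σ := by
        funext i; ring
      rw [this, ip_add_left, ip_mul_left, ip_mul_left]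
    rw [e2]
    linear_combination (-2 * ω * (σ * q + ω * p)) * hε
  unfold lop
  rw [hip, lap_conf hD h ω ε hε hDε]
  simp only [Algebra.smul_def]
  set N : A := algebraMap ℝ A ((n : ℝ) - 2) with hN
  linear_combination (σ * ω * ω * σ * lap D g gi u
    + 2 * σ * ω * σ * (-(2 * ω * lap D g gi u) + N * q)
    + ε * σ * ω * ω * σ * (-(2 * ω * lap D g gi u) + N * q)
    - N * (ω * σ * (σ * q - ω * p))) * hε

end Run7.h96.Hy

end

section

/-!
Combined infinitesimal covariance, and the trace of `tt`.
-/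

set_option linter.all false

open scoped BigOperators

namespace Run7.h96.Hy

open CInv

variable {n : ℕ} {A : Type} [CommRing A] [Algebra ℝ A] {D : Fin n → A → A}
    {g gi : Fin n → Fin n → A}

theorem inf_exists (hD : IsDer D) (h : IsMetric g gi) (ω ε : A) (hε : ε * ε = 0)
    (hDε : ∀ i, D i ε = 0) (Z : Fin n → A) {g' gi' : Fin n → Fin n → A} (h' : IsMetric g' gi')
    (hg : ∀ i j, g' i j = g i j + ε * (2 * ω * g i j + lie D Z g i j)) :
    ∃ g1 gi1 : Fin n → Fin n → A, IsMetric g1 gi1 ∧
      (∀ i j, g1 i j = g i j + ε * lie D Z g i j) ∧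
      g' = (fun i j => (1 + 2 * (ε * ω)) * g1 i j) ∧
      gi' = (fun i j => (1 - 2 * (ε * ω)) * gi1 i j) := by
  have hc := shift_cc hD Z ε hε hDε
  have h1 := cc_metric hc h
  refine ⟨_, _, h1, fun i j => shift_pull hD Z ε hε g i j, ?_, ?_⟩
  · funext i j
    rw [hg]
    have := shift_pull hD Z ε hε g i j
    have h2 : pull (shiftH hD Z ε hε) (fun i j => (if i = j then 1 else 0) + ε * D i (Z j)) g i j
        = g i j + ε * lie D Z g i j := this
    rw [h2]
    linear_combination (-(2 * ω * lie D Z g i j)) * hε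
  · have h3 := conf_metric h1 ω ε hε
    have h4 : g' = (fun i j => (1 + 2 * (ε * ω)) * pull (shiftH hD Z ε hε)
        (fun i j => (if i = j then 1 else 0) + ε * D i (Z j)) g i j) := by
      funext i j
      rw [hg]
      have := shift_pull hD Z ε hε g i j
      have h2 : pull (shiftH hD Z ε hε) (fun i j => (if i = j then 1 else 0) + ε * D i (Z j)) g i j
          = g i j + ε * lie D Z g i j := this
      rw [h2]
      linear_combination (-(2 * ω * lie D Z g i j)) * hε
    rw [h4] at h'
    exact metric_unique h' h3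

theorem tt_inf (hD : IsDer D) (h : IsMetric g gi) (ω ε : A) (hε : ε * ε = 0)
    (hDε : ∀ i, D i ε = 0) (Z : Fin n → A) {g' gi' : Fin n → Fin n → A} (h' : IsMetric g' gi')
    (hg : ∀ i j, g' i j = g i j + ε * (2 * ω * g i j + lie D Z g i j)) (σ : A) (i j : Fin n) :
    tt D g' gi' (σ + ε * (ω * σ + along D Z σ)) i j
      = tt D g gi σ i j + ε * (2 * ω * tt D g gi σ i j + lie D Z (tt D g gi σ) i j) := by
  obtain ⟨g1, gi1, h1, hg1, rfl, rfl⟩ := inf_exists hD h ω ε hε hDε Z h' hg
  have h2 := tt_shift hD h Z ε hε hDε h1 hg1 σ i j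
  have h3 := tt_conf hD h1 ω ε hε hDε (σ + ε * along D Z σ) i j
  have h4 : σ + ε * (ω * σ + along D Z σ)
      = (σ + ε * along D Z σ) + ε * (ω * (σ + ε * along D Z σ)) := by
    linear_combination (-(ω * along D Z σ)) * hε
  rw [h4, h3, h2]
  linear_combination (2 * ω * lie D Z (tt D g gi σ) i j) * hε

theorem lop_inf (hD : IsDer D) (h : IsMetric g gi) (ω ε : A) (hε : ε * ε = 0)
    (hDε : ∀ i, D i ε = 0) (Z : Fin n → A) {g' gi' : Fin n → Fin n → A} (h' : IsMetric g' gi')
    (hg : ∀ i j, g' i j = g i j + ε * (2 * ω * g i j + lie D Z g i j)) (σ u : A) :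
    lop D g' gi' (σ + ε * (ω * σ + along D Z σ)) (u + ε * along D Z u)
      = lop D g gi σ u + ε * along D Z (lop D g gi σ u) := by
  obtain ⟨g1, gi1, h1, hg1, rfl, rfl⟩ := inf_exists hD h ω ε hε hDε Z h' hg
  have h2 := lop_shift hD h Z ε hε hDε h1 hg1 σ u
  have h3 := lop_conf hD h1 ω ε hε hDε (σ + ε * along D Z σ) (u + ε * along D Z u)
  have h4 : σ + ε * (ω * σ + along D Z σ)
      = (σ + ε * along D Z σ) + ε * (ω * (σ + ε * along D Z σ)) := by
    linear_combination (-(ω * along D Z σ)) * hε
  rw [h4, h3, h2]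

theorem tr2_tt (h : IsMetric g gi) (σ : A) :
    tr2 gi (tt D g gi σ) = σ * σ * tr2 gi (ric D g gi) + (2 * ((n : ℝ) - 1)) • (σ * lap D g gi σ)
      - ((n : ℝ) * ((n : ℝ) - 1)) • (ip gi (fun i => D i σ) (fun i => D i σ) - 1) := by
  unfold tr2 tt
  have h1 : ∀ i j, gi i j * (σ * σ * ric D g gi i j + ((n : ℝ) - 2) • (σ * hess D g gi σ i j)
      + (σ * lap D g gi σ - ((n : ℝ) - 1) • (ip gi (fun i => D i σ) (fun i => D i σ) - 1)) * g i j)
      = σ * σ * (gi i j * ric D g gi i j)
        + (algebraMap ℝ A ((n : ℝ) - 2) * σ) * (gi i j * hess D g gi σ i j)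
        + (σ * lap D g gi σ - ((n : ℝ) - 1) • (ip gi (fun i => D i σ) (fun i => D i σ) - 1))
          * (gi i j * g i j) := by
    intro i j
    rw [Algebra.smul_def ((n : ℝ) - 2)]
    ring
  simp only [h1, Finset.sum_add_distrib, ← Finset.mul_sum]
  rw [tr_g h]
  have h2 : ∑ i, ∑ j, gi i j * hess D g gi σ i j = lap D g gi σ := rfl
  rw [h2]
  simp only [Algebra.smul_def, map_sub, map_mul, map_natCast, map_one, map_ofNat]
  ring

/-- behaviour of the trace under the infinitesimal changes -/
theorem tr2_inf (hD : IsDer D) (h : IsMetric g gi) (ω ε : A) (hε : ε * ε = 0)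
    (hDε : ∀ i, D i ε = 0) (Z : Fin n → A) {g' gi' : Fin n → Fin n → A} (h' : IsMetric g' gi')
    (hg : ∀ i j, g' i j = g i j + ε * (2 * ω * g i j + lie D Z g i j)) (σ : A) :
    tr2 gi' (tt D g' gi' (σ + ε * (ω * σ + along D Z σ)))
      = tr2 gi (tt D g gi σ) + ε * along D Z (tr2 gi (tt D g gi σ)) := by
  obtain ⟨g1, gi1, h1, hg1, rfl, rfl⟩ := inf_exists hD h ω ε hε hDε Z h' hg
  have hc := shift_cc hD Z ε hε hDε
  have e1 : g1 = pull (shiftH hD Z ε hε) (fun i j => (if i = j then 1 else 0) + ε * D i (Z j)) g := by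
    funext i j
    rw [hg1]
    exact (shift_pull hD Z ε hε g i j).symm
  have e2 : gi1 = pullInv (shiftH hD Z ε hε)
      (fun i j => (if i = j then 1 else 0) - ε * D i (Z j)) gi := by
    subst e1
    exact metric_unique h1 (cc_metric hc h)
  have h4 : σ + ε * (ω * σ + along D Z σ)
      = (σ + ε * along D Z σ) + ε * (ω * (σ + ε * along D Z σ)) := by
    linear_combination (-(ω * along D Z σ)) * hε
  rw [h4]
  unfold tr2
  have h5 : ∀ i j, (1 - 2 * (ε * ω)) * gi1 i j * tt D (fun i j => (1 + 2 * (ε * ω)) * g1 i j)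
      (fun i j => (1 - 2 * (ε * ω)) * gi1 i j)
        ((σ + ε * along D Z σ) + ε * (ω * (σ + ε * along D Z σ))) i j
      = gi1 i j * tt D g1 gi1 (σ + ε * along D Z σ) i j := by
    intro i j
    rw [tt_conf hD h1 ω ε hε hDε]
    linear_combination (-(4 * ω * ω * gi1 i j * tt D g1 gi1 (σ + ε * along D Z σ) i j)) * hε
  simp only [h5]
  subst e1 e2
  have h6 : ∀ i j, tt D (pull (shiftH hD Z ε hε)
      (fun i j => (if i = j then 1 else 0) + ε * D i (Z j)) g) (pullInv (shiftH hD Z ε hε)
      (fun i j => (if i = j then 1 else 0) - ε * D i (Z j)) gi) (σ + ε * along D Z σ) i j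
      = ∑ a, ∑ b, ((if i = a then 1 else 0) + ε * D i (Z a)) * ((if j = b then 1 else 0)
      + ε * D j (Z b)) * (shiftH hD Z ε hε (tt D g gi σ a b)) := fun i j =>
    cc_tt hD hD hc h σ i j
  simp only [h6]
  exact cc_contr hc (tt D g gi σ)

end Run7.h96.Hy

end

section

/-!
Finite sums of homogeneous natural tensors.
-/

set_option linter.all false

open scoped BigOperators

namespace Run7.h96.Hy

variable {n : ℕ} {J : Type} {ρ : J → ℕ}

/-- families of tensors with slots in `κ` -/
abbrev Tk (n : ℕ) (J : Type) (ρ : J → ℕ) (κ : Type) : Type 1 :=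
  ∀ X : DR n, BD X J ρ → (κ → Fin n) → X.R

/-- `T` is a finite sum of homogeneous natural tensors with degrees in `E`. -/
def FS (S : Set J) (E : Set (Dg J)) (κ : Type) (T : Tk n J ρ κ) : Prop :=
  ∃ (r : ℕ) (e : κ ≃ Fin r) (ι : Type) (_ : Fintype ι) (g : ι → Dg J) (T' : ι → Tn n J ρ r)
    (L' : ι → Ln n J ρ r), (∀ i, g i ∈ E) ∧ (∀ i, HN S (g i) r (T' i) (L' i)) ∧
    ∀ X b K, T X b K = ∑ i, T' i X b (fun s => K (e.symm s))

variable {S : Set J} {E E' E'' : Set (Dg J)} {κ μ : Type}

theorem FS.out {T : Tk n J ρ κ} (h : FS S E κ T) {r : ℕ} (e : κ ≃ Fin r) :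
    ∃ (ι : Type) (_ : Fintype ι) (g : ι → Dg J) (T' : ι → Tn n J ρ r)
    (L' : ι → Ln n J ρ r), (∀ i, g i ∈ E) ∧ (∀ i, HN S (g i) r (T' i) (L' i)) ∧
    ∀ X b K, T X b K = ∑ i, T' i X b (fun s => K (e.symm s)) := by
  obtain ⟨r', e', ι, hι, g, T', L', hg, hT, hI⟩ := h
  refine ⟨ι, hι, g, _, _, hg, fun i => (hT i).perm (e'.symm.trans e), fun X b K => ?_⟩
  rw [hI]
  refine Finset.sum_congr rfl fun i _ => ?_
  unfold relab
  congr 1
  funext s
  simp

theorem FS.of {g : Dg J} {r : ℕ} {T : Tn n J ρ r} {L : Ln n J ρ r} (h : HN S g r T L)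
    (hg : g ∈ E) : FS S E (Fin r) T :=
  ⟨r, Equiv.refl _, Unit, inferInstance, fun _ => g, fun _ => T, fun _ => L, fun _ => hg,
    fun _ => h, fun X b K => by simp⟩

theorem FS.congr {T T' : Tk n J ρ κ} (h : FS S E κ T)
    (hTT : ∀ X b K, T X b K = T' X b K) : FS S E κ T' := by
  have : T = T' := by funext X b K; exact hTT X b K
  exact this ▸ h

theorem FS.mono {T : Tk n J ρ κ} (h : FS S E κ T) (hE : E ⊆ E') : FS S E' κ T := by
  obtain ⟨r', e', ι, hι, g, T', L', hg, hT, hI⟩ := h
  exact ⟨r', e', ι, hι, g, T', L', fun i => hE (hg i), hT, hI⟩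

theorem FS.relab {T : Tk n J ρ κ} (h : FS S E κ T) (e : κ ≃ μ) :
    FS S E μ (fun X b => relab e (T X b)) := by
  obtain ⟨r', e', ι, hι, g, T', L', hg, hT, hI⟩ := h
  exact ⟨r', e.symm.trans e', ι, hι, g, T', L', hg, hT, fun X b K => hI X b _⟩

theorem FS.add {T T' : Tk n J ρ κ} (h : FS S E κ T) (h' : FS S E κ T') :
    FS S E κ (fun X b K => T X b K + T' X b K) := by
  obtain ⟨r, e, ι, hι, g, F, L, hg, hT, hI⟩ := h
  obtain ⟨ι', hι', g', F', L', hg', hT', hI'⟩ := h'.out e
  refine ⟨r, e, ι ⊕ ι', inferInstance, Sum.elim g g', Sum.elim F F', Sum.elim L L', ?_, ?_, ?_⟩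
  · rintro (i | i)
    · exact hg i
    · exact hg' i
  · rintro (i | i)
    · exact hT i
    · exact hT' i
  · intro X b K
    beta_reduce
    rw [Fintype.sum_sum_type, hI, hI']
    rfl

theorem FS.smul {T : Tk n J ρ κ} (h : FS S E κ T) (t : ℝ) :
    FS S E κ (fun X b K => t • T X b K) := by
  obtain ⟨r, e, ι, hι, g, F, L, hg, hT, hI⟩ := h
  refine ⟨r, e, ι, hι, g, _, _, hg, fun i => (hT i).smul t, fun X b K => ?_⟩
  beta_reduce
  rw [hI, Finset.smul_sum]

theorem FS.neg {T : Tk n J ρ κ} (h : FS S E κ T) : FS S E κ (fun X b K => - T X b K) :=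
  (h.smul (-1)).congr fun X b K => by simp

theorem FS.sub {T T' : Tk n J ρ κ} (h : FS S E κ T) (h' : FS S E κ T') :
    FS S E κ (fun X b K => T X b K - T' X b K) :=
  (h.add h'.neg).congr fun X b K => by ring

theorem FS.zero [Finite κ] : FS (n := n) (ρ := ρ) S E κ (fun _ _ _ => 0) := by
  obtain ⟨r, ⟨e⟩⟩ := Finite.exists_equiv_fin κ
  exact ⟨r, e, Empty, inferInstance, fun i => i.elim, fun i => i.elim, fun i => i.elim,
    fun i => i.elim, fun i => i.elim, fun X b K => by simp⟩

theorem FS.mul {T : Tk n J ρ κ} {T' : Tk n J ρ μ} (h : FS S E κ T) (h' : FS S E' μ T')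
    (hE : ∀ g ∈ E, ∀ g' ∈ E', g + g' ∈ E'') :
    FS S E'' (κ ⊕ μ) (fun X b => tens (T X b) (T' X b)) := by
  obtain ⟨r, e, ι, hι, g, F, L, hg, hT, hI⟩ := h
  obtain ⟨r', e', ι', hι', g', F', L', hg', hT', hI'⟩ := h'
  refine ⟨r + r', (Equiv.sumCongr e e').trans finSumFinEquiv, ι × ι', inferInstance,
    fun i => g i.1 + g' i.2, fun i X b => Run7.h96.relab finSumFinEquiv (tens (F i.1 X b) (F' i.2 X b)),
    _, fun i => hE _ (hg i.1) _ (hg' i.2), fun i => HN.mul finSumFinEquiv (hT i.1) (hT' i.2),
    fun X b K => ?_⟩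
  rw [Fintype.sum_prod_type]
  unfold tens
  beta_reduce
  rw [hI, hI', Finset.sum_mul_sum]
  refine Finset.sum_congr rfl fun i _ => Finset.sum_congr rfl fun i' _ => ?_
  unfold Run7.h96.relab
  congr 1
  · congr 1
    funext s
    simp
  · congr 1
    funext s
    simp

theorem FS.contr2 [Finite κ] {T : Tk n J ρ (Option (Option κ))} (h : FS S E (Option (Option κ)) T) :
    FS S E κ (fun X b => contr2 b.Gi (T X b)) := by
  obtain ⟨r, ⟨e0⟩⟩ := Finite.exists_equiv_fin κ
  obtain ⟨t, e, ι, hι, g, F, L, hg, hT, hI⟩ := h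
  refine ⟨r, e0, ι, hι, g, _, _, hg,
    fun i => (hT i).contr (e.symm.trans (Equiv.optionCongr (Equiv.optionCongr e0))),
    fun X b K => ?_⟩
  beta_reduce
  unfold Run7.h96.contr2
  simp only [hI, Finset.mul_sum]
  have h1 : ∀ i j, (∑ a, b.Gi i j * F a X b (fun s => ocons i (ocons j K) (e.symm s)))
      = ∑ a, b.Gi i j * Run7.h96.relab (e.symm.trans (Equiv.optionCongr (Equiv.optionCongr e0)))
        (F a X b) (ocons i (ocons j fun s => K (e0.symm s))) := by
    intro i j
    refine Finset.sum_congr rfl fun a _ => ?_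
    unfold Run7.h96.relab
    congr 2
    funext s
    simp only [Equiv.trans_apply]
    rcases e.symm s with _ | _ | u
    · rfl
    · rfl
    · simp
  simp only [h1]
  rw [Finset.sum_congr rfl fun i _ => Finset.sum_comm]
  rw [Finset.sum_comm]

theorem FS.DD [Fintype κ] [DecidableEq κ] {T : Tk n J ρ κ} (h : FS S E κ T)
    (hE : ∀ g ∈ E, g + (0, 1) ∈ E') :
    FS S E' (Option κ) (fun X b => DD X.d b.A (T X b)) := by
  obtain ⟨r, e, ι, hι, g, F, L, hg, hT, hI⟩ := h
  refine ⟨r + 1, (Equiv.optionCongr e).trans (finSuccEquiv r).symm, ι, hι,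
    fun i => g i + (0, 1), _, _, fun i => hE _ (hg i),
    fun i => (hT i).deriv (finSuccEquiv r).symm, fun X b K => ?_⟩
  beta_reduce
  have h1 : T X b = fun K => ∑ i, Run7.h96.relab e.symm (F i X b) K := by
    funext K
    rw [hI]; rfl
  unfold Run7.h96.DD
  rw [h1, cov_sum]
  refine Finset.sum_congr rfl fun i _ => ?_
  rw [cov_relab]
  unfold Run7.h96.relab
  have h2 : ∀ o : Option (Fin r),
      ((Equiv.optionCongr e).trans (finSuccEquiv r).symm).symm ((finSuccEquiv r).symm o)
        = (Equiv.optionCongr e).symm o := by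
    intro o
    rw [Equiv.symm_trans_apply, Equiv.symm_symm, Equiv.apply_symm_apply]
  beta_reduce
  simp only [h2]
  rfl

theorem FS.sum [Finite κ] {α : Type} (s : Finset α) {T : α → Tk n J ρ κ}
    (h : ∀ a ∈ s, FS S E κ (T a)) : FS S E κ (fun X b K => ∑ a ∈ s, T a X b K) := by
  classical
  induction s using Finset.induction_on with
  | empty => simpa using FS.zero
  | @insert a s ha ih =>
    have h1 := h a (Finset.mem_insert_self a s)
    have h2 := ih fun b hb => h b (Finset.mem_insert_of_mem hb)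
    refine (h1.add h2).congr fun X b K => ?_
    rw [Finset.sum_insert ha]

theorem FS.one (hE : (0 : Dg J) ∈ E) : FS (n := n) (ρ := ρ) S E (Fin 0) (fun _ _ _ => 1) :=
  FS.of HN.one hE

theorem FS.metr (hE : (0 : Dg J) ∈ E) :
    FS (n := n) (ρ := ρ) S E (Fin 2) (fun _ b K => b.G (K 0) (K 1)) := FS.of HN.met hE

theorem FS.curv (hE : ((0, 2) : Dg J) ∈ E) :
    FS (n := n) (ρ := ρ) S E (Fin 4) (fun _ b => b.curv) := FS.of HN.curv hE

theorem FS.field (j : J) (h1 : j ∈ S → ((Finsupp.single j 1, 0) : Dg J) ∈ E)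
    (h2 : j ∉ S → (0 : Dg J) ∈ E) :
    FS (n := n) (ρ := ρ) S E (Fin (ρ j)) (fun _ b => b.Φ j) := by
  by_cases hj : j ∈ S
  · exact FS.of (HN.fieldV j hj) (h1 hj)
  · exact FS.of (HN.fieldC j hj) (h2 hj)

/-- slot rearrangement -/
def slotEquiv (κ μ : Type) :
    (Option κ ⊕ Option κ) ⊕ μ ≃ (κ ⊕ κ) ⊕ Option (Option μ) where
  toFun
    | Sum.inl (Sum.inl none) => Sum.inr none
    | Sum.inl (Sum.inl (some s)) => Sum.inl (Sum.inl s)
    | Sum.inl (Sum.inr none) => Sum.inr (some none)
    | Sum.inl (Sum.inr (some s)) => Sum.inl (Sum.inr s)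
    | Sum.inr t => Sum.inr (some (some t))
  invFun
    | Sum.inl (Sum.inl s) => Sum.inl (Sum.inl (some s))
    | Sum.inl (Sum.inr s) => Sum.inl (Sum.inr (some s))
    | Sum.inr none => Sum.inl (Sum.inl none)
    | Sum.inr (some none) => Sum.inl (Sum.inr none)
    | Sum.inr (some (some t)) => Sum.inr t
  left_inv s := by rcases s with (s | s) | s <;> (try cases s) <;> rfl
  right_inv s := by rcases s with (s | s) | (_ | _ | s) <;> rfl

/-- contraction of a block of pairs of slots -/
def bcontr {I R κ μ : Type} [Fintype I] [CommRing R] [Fintype κ] [DecidableEq κ]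
    (Gi : I → I → R) (T : ((κ ⊕ κ) ⊕ μ → I) → R) (M : μ → I) : R :=
  ∑ K : κ → I, ∑ L : κ → I, (∏ s, Gi (K s) (L s)) * T (Sum.elim (Sum.elim K L) M)

theorem univ_irr {α : Type} (i1 i2 : Fintype α) : @Finset.univ α i1 = @Finset.univ α i2 :=
  Finset.ext fun x => ⟨fun _ => @Finset.mem_univ α i2 x, fun _ => @Finset.mem_univ α i1 x⟩

theorem FS.bcontr_all (κ : Type) [Finite κ] : ∀ [Fintype κ] [DecidableEq κ] (μ : Type) [Finite μ]
    {T : Tk n J ρ ((κ ⊕ κ) ⊕ μ)},
    FS S E ((κ ⊕ κ) ⊕ μ) T → FS S E μ (fun X b => bcontr b.Gi (T X b)) := by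
  refine Finite.induction_empty_option (P := fun κ => ∀ [Fintype κ] [DecidableEq κ] (μ : Type)
    [Finite μ] {T : Tk n J ρ ((κ ⊕ κ) ⊕ μ)},
    FS S E ((κ ⊕ κ) ⊕ μ) T → FS S E μ (fun X b => bcontr b.Gi (T X b))) ?_ ?_ ?_ κ
  · intro α β e hα _ _ μ _ T hT
    letI : Fintype α := Fintype.ofEquiv β e.symm
    letI : DecidableEq α := fun x y => decidable_of_iff (e x = e y) e.injective.eq_iff
    have h1 := hα μ (hT.relab (Equiv.sumCongr (Equiv.sumCongr e.symm e.symm) (Equiv.refl μ)))
    refine h1.congr fun X b M => ?_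
    unfold bcontr
    refine Fintype.sum_equiv (Equiv.arrowCongr e (Equiv.refl _)) _ _ fun K => ?_
    refine Fintype.sum_equiv (Equiv.arrowCongr e (Equiv.refl _)) _ _ fun L => ?_
    congr 1
    · refine Fintype.prod_equiv e _ _ fun s => ?_
      simp [Equiv.arrowCongr]
    · unfold Run7.h96.relab
      congr 1
      funext s
      rcases s with (s | s) | s <;> simp [Equiv.arrowCongr]
  · intro _ _ μ _ T hT
    refine (hT.relab ((Equiv.sumCongr (Equiv.emptySum PEmpty PEmpty) (Equiv.refl μ)).trans
      (Equiv.emptySum PEmpty μ))).congr fun X b M => ?_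
    unfold bcontr Run7.h96.relab
    rw [Fintype.sum_eq_single (fun s : PEmpty => s.elim) (fun K hK => absurd
      (funext fun s : PEmpty => s.elim) hK),
      Fintype.sum_eq_single (fun s : PEmpty => s.elim) (fun K hK => absurd
      (funext fun s : PEmpty => s.elim) hK)]
    simp only [Finset.univ_eq_empty, Finset.prod_empty, one_mul]
    congr 1
    funext s
    rcases s with (s | s) | s
    · exact s.elim
    · exact s.elim
    · rfl
  · intro α _ hα _ _ μ _ T hT
    letI : DecidableEq α := fun x y => decidable_of_iff (some x = some y) (by simp)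
    have h1 := hα (Option (Option μ)) (hT.relab (slotEquiv α μ))
    have h2 := FS.contr2 h1
    refine h2.congr fun X b M => ?_
    unfold bcontr Run7.h96.contr2
    have e1 : ∀ f : (Option α → Fin n) → X.R, ∑ K, f K = ∑ i, ∑ K : α → Fin n, f (ocons i K) := by
      intro f
      have := sum_option (κ := α) f
      refine (Finset.sum_congr (univ_irr _ _) fun _ _ => rfl).trans (this.trans ?_)
      exact Finset.sum_congr rfl fun i _ => Finset.sum_congr (univ_irr _ _) fun _ _ => rfl
    rw [e1]
    have e2 : ∀ (i : Fin n) (K : α → Fin n), ∑ L : Option α → Fin n,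
        (∏ s, b.Gi (ocons i K s) (L s)) * T X b (Sum.elim (Sum.elim (ocons i K) L) M)
        = ∑ j, ∑ L : α → Fin n, b.Gi i j * ((∏ s, b.Gi (K s) (L s))
          * T X b (Sum.elim (Sum.elim (ocons i K) (ocons j L)) M)) := by
      intro i K
      rw [e1]
      refine Finset.sum_congr rfl fun j _ => Finset.sum_congr rfl fun L _ => ?_
      have e3 : (∏ s, b.Gi (ocons i K s) (ocons j L s)) = b.Gi i j * ∏ s, b.Gi (K s) (L s) := by
        have := Fintype.prod_option (fun s : Option α => b.Gi (ocons i K s) (ocons j L s))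
        simp only [ocons_none, ocons_some] at this
        exact (Finset.prod_congr (univ_irr _ _) fun _ _ => rfl).trans this
      rw [e3, mul_assoc]
    rw [Finset.sum_congr rfl fun i _ => Finset.sum_congr rfl fun K _ => e2 i K]
    refine Finset.sum_congr rfl fun i _ => ?_
    rw [Finset.sum_comm]
    refine Finset.sum_congr rfl fun j _ => ?_
    rw [Finset.mul_sum]
    refine Finset.sum_congr rfl fun K _ => ?_
    rw [Finset.mul_sum]
    refine Finset.sum_congr rfl fun L _ => ?_
    congr 2
    unfold Run7.h96.relab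
    congr 1
    funext s
    rcases s with ((_ | s) | (_ | s)) | s <;> rfl

/-- partial contraction of two natural tensors -/
theorem FS.pairL [Fintype κ] [DecidableEq κ] [Finite μ]
    {P : Tk n J ρ (κ ⊕ μ)} {Q : Tk n J ρ κ} (hP : FS S E (κ ⊕ μ) P) (hQ : FS S E' κ Q)
    (hE : ∀ g ∈ E, ∀ g' ∈ E', g + g' ∈ E'') :
    FS S E'' μ (fun X b M => pair b.Gi (fun K => P X b (Sum.elim K M)) (Q X b)) := by
  have h1 := hP.mul hQ hE
  let e : (κ ⊕ μ) ⊕ κ ≃ (κ ⊕ κ) ⊕ μ :=
    { toFun := fun s => match s with
        | Sum.inl (Sum.inl s) => Sum.inl (Sum.inl s)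
        | Sum.inl (Sum.inr s) => Sum.inr s
        | Sum.inr s => Sum.inl (Sum.inr s)
      invFun := fun s => match s with
        | Sum.inl (Sum.inl s) => Sum.inl (Sum.inl s)
        | Sum.inr s => Sum.inl (Sum.inr s)
        | Sum.inl (Sum.inr s) => Sum.inr s
      left_inv := by rintro ((s | s) | s) <;> rfl
      right_inv := by rintro ((s | s) | s) <;> rfl }
  refine (FS.bcontr_all κ μ (h1.relab e)).congr fun X b M => ?_
  unfold bcontr pair Run7.h96.relab tens
  refine Finset.sum_congr rfl fun K _ => Finset.sum_congr rfl fun L _ => ?_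
  have a1 : (fun s => Sum.elim (Sum.elim K L) M (e (Sum.inl s))) = Sum.elim K M := by
    funext s; rcases s with s | s <;> rfl
  have a2 : (fun s => Sum.elim (Sum.elim K L) M (e (Sum.inr s))) = L := by
    funext s; rfl
  rw [a1, a2]; ring

/-- functoriality -/
theorem FS.map {T : Tk n J ρ κ} (h : FS S E κ T) {X Y : DR n} (θ : DH X Y) (b : BD X J ρ)
    (K : κ → Fin n) : T Y (b.map θ.f) K = θ.f (T X b K) := by
  obtain ⟨r, e, ι, hι, g, F, L, hg, hT, hI⟩ := h
  rw [hI, hI, map_sum]
  exact Finset.sum_congr rfl fun i _ => (hT i).map θ b _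

/-- degrees obtained by substituting fields with degrees in `Ej j` in a linearisation -/
def Dsub (S : Set J) (Ej : J → Set (Dg J)) (g : Dg J) : Set (Dg J) :=
  {g' | ∃ j ∈ S, ∃ ν ∈ Ej j, g' + (Finsupp.single j 1, 0) = g + ν}

/-- substituting natural tensors in the linearisation -/
theorem HN.lsub {g : Dg J} {r : ℕ} {T : Tn n J ρ r} {L : Ln n J ρ r} (h : HN S g r T L)
    (Ψ : ∀ X : DR n, BD X J ρ → Fl X J ρ) (Ej : J → Set (Dg J))
    (hΨ : ∀ j ∈ S, FS S (Ej j) (Fin (ρ j)) (fun X b => Ψ X b j)) :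
    FS S (Dsub S Ej g) (Fin r) (fun X b => L X b (Ψ X b)) := by
  induction h with
  | one => exact FS.zero
  | met => exact FS.zero
  | curv => exact FS.zero
  | fieldV j hj =>
    refine (hΨ j hj).mono fun ν hν => ⟨j, hj, ν, hν, ?_⟩
    rw [add_comm]
  | fieldC j hj => exact FS.zero
  | zero g r => exact FS.zero
  | add _ _ h1 h2 => exact h1.add h2
  | smul t _ h1 => exact h1.smul t
  | @mul g g' r r' t T T' L L' e hT hT' h1 h2 =>
    have a1 : FS S (Dsub S Ej (g + g')) (Fin r ⊕ Fin r')
        (fun X b => tens (T X b) (L' X b (Ψ X b))) := by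
      refine (FS.of hT (Set.mem_singleton g)).mul h2 ?_
      rintro _ rfl g2 ⟨j, hj, ν, hν, h⟩
      exact ⟨j, hj, ν, hν, by rw [add_assoc, h, add_assoc]⟩
    have a2 : FS S (Dsub S Ej (g + g')) (Fin r ⊕ Fin r')
        (fun X b => tens (L X b (Ψ X b)) (T' X b)) := by
      refine h1.mul (FS.of hT' (Set.mem_singleton g')) ?_
      rintro g2 ⟨j, hj, ν, hν, h⟩ _ rfl
      refine ⟨j, hj, ν, hν, ?_⟩
      rw [add_right_comm, h, add_right_comm]
    exact (a1.relab e).add (a2.relab e)
  | perm e _ h1 => exact h1.relab e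
  | contr e _ h1 => exact FS.contr2 (h1.relab e)
  | deriv e _ h1 =>
    refine (h1.DD ?_).relab e
    rintro g2 ⟨j, hj, ν, hν, h⟩
    refine ⟨j, hj, ν, hν, ?_⟩
    rw [add_right_comm, h, add_right_comm]

/-- new fields, same metric -/
def BD.setF {X : DR n} {J' : Type} {ρ' : J' → ℕ} (b : BD X J ρ) (Ψ : Fl X J' ρ') :
    BD X J' ρ' where
  G := b.G
  Gi := b.Gi
  Φ := Ψ
  met := b.met

/-- substituting natural tensors for the fields -/
theorem HN.subst {J' : Type} {ρ' : J' → ℕ} {S' : Set J'} {g : Dg J'} {r : ℕ} {T : Tn n J' ρ' r}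
    {L : Ln n J' ρ' r} (h : HN S' g r T L) (Ψ : ∀ X : DR n, BD X J ρ → Fl X J' ρ')
    (hΨ : ∀ j, FS S Set.univ (Fin (ρ' j)) (fun X b => Ψ X b j)) :
    FS S Set.univ (Fin r) (fun X b => T X (b.setF (Ψ X b))) := by
  induction h with
  | one => exact FS.one (Set.mem_univ _)
  | met => exact FS.metr (Set.mem_univ _)
  | curv => exact FS.curv (Set.mem_univ _)
  | fieldV j hj => exact hΨ j
  | fieldC j hj => exact hΨ j
  | zero g r => exact FS.zero
  | add _ _ h1 h2 => exact h1.add h2
  | smul t _ h1 => exact h1.smul t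
  | mul e _ _ h1 h2 => exact (h1.mul h2 fun _ _ _ _ => Set.mem_univ _).relab e
  | perm e _ h1 => exact h1.relab e
  | contr e _ h1 => exact FS.contr2 (h1.relab e)
  | deriv e _ h1 => exact (h1.DD fun _ _ => Set.mem_univ _).relab e

theorem FS.subst {J' : Type} {ρ' : J' → ℕ} {S' : Set J'} {E : Set (Dg J')} {T : Tk n J' ρ' κ}
    (h : FS S' E κ T) (Ψ : ∀ X : DR n, BD X J ρ → Fl X J' ρ')
    (hΨ : ∀ j, FS S Set.univ (Fin (ρ' j)) (fun X b => Ψ X b j)) :
    FS S Set.univ κ (fun X b => T X (b.setF (Ψ X b))) := by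
  obtain ⟨r, e, ι, hι, g, F, L, hg, hT, hI⟩ := h
  have h1 : FS S Set.univ (Fin r) (fun X b K => ∑ i, F i X (b.setF (Ψ X b)) K) := by
    refine FS.sum Finset.univ fun i _ => ?_
    exact HN.subst (hT i) Ψ hΨ
  exact (h1.relab e.symm).congr fun X b K => (hI X _ K).symm

end Run7.h96.Hy

end

section

/-!
Tensors depending linearly on a variation, and integration by parts.
-/

set_option linter.all false

open scoped BigOperators

namespace Run7.h96.Hy

variable {n : ℕ} {J : Type} {ρ : J → ℕ} {J' : Type} {ρ' : J' → ℕ}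

/-- families depending on data and on a variation -/
abbrev Lk (n : ℕ) (J : Type) (ρ : J → ℕ) (J' : Type) (ρ' : J' → ℕ) (r : ℕ) : Type 1 :=
  ∀ X : DR n, BD X J ρ → Fl X J' ρ' → (Fin r → Fin n) → X.R

/-- linear dependence on the variation (of the fields in `S'`) -/
inductive Lin (S : Set J) (S' : Set J') : (r : ℕ) → Lk n J ρ J' ρ' r → Prop
  | zero (r : ℕ) : Lin S S' r (fun _ _ _ _ => 0)
  | field (j : J') (hj : j ∈ S') : Lin S S' (ρ' j) (fun _ _ Ψ => Ψ j)
  | add {r : ℕ} {T T' : Lk n J ρ J' ρ' r} :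
      Lin S S' r T → Lin S S' r T' → Lin S S' r (fun X b Ψ K => T X b Ψ K + T' X b Ψ K)
  | smul {r : ℕ} {T : Lk n J ρ J' ρ' r} (t : ℝ) :
      Lin S S' r T → Lin S S' r (fun X b Ψ K => t • T X b Ψ K)
  | mulN {r r' t : ℕ} {Q : Tn n J ρ r} (hQ : FS S Set.univ (Fin r) Q)
      {T : Lk n J ρ J' ρ' r'} (e : Fin r ⊕ Fin r' ≃ Fin t) :
      Lin S S' r' T → Lin S S' t (fun X b Ψ => relab e (tens (Q X b) (T X b Ψ)))
  | perm {r r' : ℕ} {T : Lk n J ρ J' ρ' r} (e : Fin r ≃ Fin r') :
      Lin S S' r T → Lin S S' r' (fun X b Ψ => relab e (T X b Ψ))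
  | contr {r t : ℕ} {T : Lk n J ρ J' ρ' t} (e : Fin t ≃ Option (Option (Fin r))) :
      Lin S S' t T → Lin S S' r (fun X b Ψ => contr2 b.Gi (relab e (T X b Ψ)))
  | deriv {r t : ℕ} {T : Lk n J ρ J' ρ' r} (e : Option (Fin r) ≃ Fin t) :
      Lin S S' r T → Lin S S' t (fun X b Ψ => relab e (DD X.d b.A (T X b Ψ)))

variable {S : Set J} {S' : Set J'}

/-- linearisations of natural tensors are linear -/
theorem HN.toLin {g : Dg J} {r : ℕ} {T : Tn n J ρ r} {L : Ln n J ρ r} (h : HN S g r T L) :
    Lin S S r L := by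
  induction h with
  | one => exact Lin.zero _
  | met => exact Lin.zero _
  | curv => exact Lin.zero _
  | fieldV j hj => exact Lin.field j hj
  | fieldC j hj => exact Lin.zero _
  | zero g r => exact Lin.zero _
  | add _ _ h1 h2 => exact h1.add h2
  | smul t _ h1 => exact h1.smul t
  | @mul g g' r r' t T T' L L' e h h' h1 h2 =>
    refine Lin.add (Lin.mulN (FS.of h (Set.mem_univ _)) e h2) ?_
    have h3 := Lin.mulN (FS.of h' (Set.mem_univ _)) ((Equiv.sumComm (Fin r') (Fin r)).trans e) h1
    convert h3 using 1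
    funext X b Ψ K
    simp only [relab, tens, Equiv.trans_apply, Equiv.sumComm_apply, Sum.swap_inl, Sum.swap_inr]
    ring
  | perm e _ h1 => exact h1.perm e
  | contr e _ h1 => exact h1.contr e
  | deriv e _ h1 => exact h1.deriv e

theorem Lin.subst {r : ℕ} {T : Lk n J ρ J' ρ' r} (h : Lin S S' r T)
    (ψ : ∀ X : DR n, BD X J ρ → Fl X J' ρ')
    (hψ : ∀ j ∈ S', FS S Set.univ (Fin (ρ' j)) (fun X b => ψ X b j)) :
    FS S Set.univ (Fin r) (fun X b => T X b (ψ X b)) := by
  induction h with
  | zero r => exact FS.zero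
  | field j hj => exact hψ j hj
  | add _ _ h1 h2 => exact h1.add h2
  | smul t _ h1 => exact h1.smul t
  | mulN hQ e _ h1 => exact (hQ.mul h1 fun _ _ _ _ => Set.mem_univ _).relab e
  | perm e _ h1 => exact h1.relab e
  | contr e _ h1 => exact FS.contr2 (h1.relab e)
  | deriv e _ h1 => exact (h1.DD fun _ _ => Set.mem_univ _).relab e

theorem Lin.comp {J'' : Type} {ρ'' : J'' → ℕ} {S'' : Set J''} {r : ℕ} {T : Lk n J ρ J' ρ' r}
    (h : Lin S S' r T) (M : ∀ X : DR n, BD X J ρ → Fl X J'' ρ'' → Fl X J' ρ')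
    (hM : ∀ j ∈ S', Lin S S'' (ρ' j) (fun X b χ => M X b χ j)) :
    Lin S S'' r (fun X b χ => T X b (M X b χ)) := by
  induction h with
  | zero r => exact Lin.zero _
  | field j hj => exact hM j hj
  | add _ _ h1 h2 => exact h1.add h2
  | smul t _ h1 => exact h1.smul t
  | mulN hQ e _ h1 => exact Lin.mulN hQ e h1
  | perm e _ h1 => exact h1.perm e
  | contr e _ h1 => exact h1.contr e
  | deriv e _ h1 => exact h1.deriv e

/-- change of the base data -/
theorem Lin.base {J1 : Type} {ρ1 : J1 → ℕ} {S1 : Set J1} {r : ℕ} {T : Lk n J1 ρ1 J' ρ' r}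
    (h : Lin S1 S' r T) (Ψ : ∀ X : DR n, BD X J ρ → Fl X J1 ρ1)
    (hΨ : ∀ j, FS S Set.univ (Fin (ρ1 j)) (fun X b => Ψ X b j)) :
    Lin S S' r (fun X b χ => T X (b.setF (Ψ X b)) χ) := by
  induction h with
  | zero r => exact Lin.zero _
  | field j hj => exact Lin.field j hj
  | add _ _ h1 h2 => exact h1.add h2
  | smul t _ h1 => exact h1.smul t
  | mulN hQ e _ h1 => exact Lin.mulN (hQ.subst Ψ hΨ) e h1
  | perm e _ h1 => exact h1.perm e
  | contr e _ h1 => exact h1.contr e
  | deriv e _ h1 => exact h1.deriv e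

theorem pair_zero_left {κ : Type} [Fintype κ] [DecidableEq κ] {X : DR n}
    (Gi : Fin n → Fin n → X.R) (T : (κ → Fin n) → X.R) : pair Gi (fun _ => 0) T = 0 := by
  simp [pair]

theorem pair_zero_right {κ : Type} [Fintype κ] [DecidableEq κ] {X : DR n}
    (Gi : Fin n → Fin n → X.R) (T : (κ → Fin n) → X.R) : pair Gi T (fun _ => 0) = 0 := by
  simp [pair]

theorem dvg_zero {X : DR n} (b : BD X J ρ) : dvg X.d b.A b.Gi (fun _ => 0) = 0 := by
  simp [dvg]

theorem dvg_add {X : DR n} (b : BD X J ρ) (V W : Fin n → X.R) :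
    dvg X.d b.A b.Gi (fun i => V i + W i) = dvg X.d b.A b.Gi V + dvg X.d b.A b.Gi W := by
  unfold dvg
  simp only [map_add, mul_add, Finset.sum_add_distrib, ← Finset.sum_add_distrib]
  refine Finset.sum_congr rfl fun i _ => Finset.sum_congr rfl fun j _ => ?_
  simp only [Finset.sum_add_distrib]; ring

theorem dvg_smul {X : DR n} (b : BD X J ρ) (t : ℝ) (V : Fin n → X.R) :
    dvg X.d b.A b.Gi (fun i => t • V i) = t • dvg X.d b.A b.Gi V := by
  unfold dvg
  simp only [Derivation.map_smul, Finset.smul_sum]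
  refine Finset.sum_congr rfl fun i _ => Finset.sum_congr rfl fun j _ => ?_
  simp only [mul_smul_comm, ← Finset.smul_sum, ← smul_sub]

/-- integration by parts -/
theorem Lin.parts {r : ℕ} {T : Lk n J ρ J' ρ' r} (h : Lin S S' r T) :
    ∀ Q : Tn n J ρ r, FS S Set.univ (Fin r) Q →
    ∃ (s : Finset J') (E : (j : J') → Tn n J ρ (ρ' j))
      (V : ∀ X : DR n, BD X J ρ → Fl X J' ρ' → Fin n → X.R),
      (∀ j ∉ s, ∀ X b K, E j X b K = 0) ∧
      (∀ j, FS S Set.univ (Fin (ρ' j)) (E j)) ∧
      (∀ ψ : ∀ X : DR n, BD X J ρ → Fl X J' ρ',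
        (∀ j ∈ S', FS S Set.univ (Fin (ρ' j)) (fun X b => ψ X b j)) →
        FS S Set.univ (Fin 1) (fun X b K => V X b (ψ X b) (K 0))) ∧
      ∀ X b Ψ, pair b.Gi (Q X b) (T X b Ψ)
        = (∑ j ∈ s, pair b.Gi (E j X b) (Ψ j)) + dvg X.d b.A b.Gi (V X b Ψ) := by
  classical
  have hex : ∀ (s s' : Finset J') (E : (j : J') → Tn n J ρ (ρ' j)),
      (∀ j ∉ s, ∀ X b K, E j X b K = 0) → ∀ X (b : BD X J ρ) (Ψ : Fl X J' ρ'),
      (∑ j ∈ s, pair b.Gi (E j X b) (Ψ j)) = ∑ j ∈ s ∪ s', pair b.Gi (E j X b) (Ψ j) := by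
    intro s s' E hE X b Ψ
    refine Finset.sum_subset Finset.subset_union_left fun j _ hj => ?_
    have : E j X b = fun _ => 0 := by funext K; exact hE j hj X b K
    rw [this, pair_zero_left]
  induction h with
  | zero r =>
    intro Q hQ
    refine ⟨∅, fun _ _ _ _ => 0, fun _ _ _ _ => 0, fun _ _ _ _ _ => rfl, fun j => FS.zero,
      fun ψ _ => FS.zero, fun X b Ψ => ?_⟩
    rw [dvg_zero, pair_zero_right]
    simp
  | field j0 hj0 =>
    intro Q hQ
    refine ⟨{j0}, fun j X b K => if h : j0 = j then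
        Q X b (fun s => K (Fin.cast (congrArg ρ' h) s)) else 0,
      fun _ _ _ _ => 0, fun j hj X b K => ?_, fun j => ?_, fun ψ _ => FS.zero,
      fun X b Ψ => ?_⟩
    · exact dif_neg (fun h => hj (by rw [Finset.mem_singleton, h]))
    · by_cases h : j0 = j
      · subst h
        exact hQ.congr fun X b K => by simp
      · exact (FS.zero (κ := Fin (ρ' j))).congr fun X b K => by simp [h]
    · rw [dvg_zero, add_zero, Finset.sum_singleton]
      simp
  | add _ _ h1 h2 =>
    intro Q hQ
    obtain ⟨s, E, V, hs, hE, hV, hI⟩ := h1 Q hQ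
    obtain ⟨s', E', V', hs', hE', hV', hI'⟩ := h2 Q hQ
    refine ⟨s ∪ s', fun j X b K => E j X b K + E' j X b K, fun X b Ψ i => V X b Ψ i + V' X b Ψ i,
      fun j hj X b K => ?_, fun j => (hE j).add (hE' j), fun ψ hψ => (hV ψ hψ).add (hV' ψ hψ),
      fun X b Ψ => ?_⟩
    · rw [Finset.mem_union, not_or] at hj
      beta_reduce
      rw [hs j hj.1, hs' j hj.2, add_zero]
    · rw [dvg_add, pair_add_right, hI, hI', hex s s' E hs, hex s' s E' hs',
        Finset.union_comm s' s]
      simp only [pair_add_left, Finset.sum_add_distrib]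
      ring
  | smul t _ h1 =>
    intro Q hQ
    obtain ⟨s, E, V, hs, hE, hV, hI⟩ := h1 Q hQ
    refine ⟨s, fun j X b K => t • E j X b K, fun X b Ψ i => t • V X b Ψ i,
      fun j hj X b K => ?_, fun j => (hE j).smul t, fun ψ hψ => (hV ψ hψ).smul t,
      fun X b Ψ => ?_⟩
    · beta_reduce
      rw [hs j hj, smul_zero]
    · rw [dvg_smul, pair_smul_right, hI]
      simp only [pair_smul_left, ← Finset.smul_sum, smul_add]
  | @mulN r r' t R hR T e _ h1 =>
    intro Q hQ
    obtain ⟨s, E, V, hs, hE, hV, hI⟩ := h1 _ (FS.pairL (hQ.relab e.symm) hR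
      fun _ _ _ _ => Set.mem_univ _)
    refine ⟨s, E, V, hs, hE, hV, fun X b Ψ => ?_⟩
    rw [pair_relab, pair_tens, ← hI]
  | @perm r r' T e _ h1 =>
    intro Q hQ
    obtain ⟨s, E, V, hs, hE, hV, hI⟩ := h1 _ (hQ.relab e.symm)
    refine ⟨s, E, V, hs, hE, hV, fun X b Ψ => ?_⟩
    rw [pair_relab, ← hI]
  | @contr r t T e _ h1 =>
    intro Q hQ
    have hG : FS S Set.univ (Option (Option (Fin r)))
        (fun X (b : BD X J ρ) => gcons b.G (Q X b)) := by
      have h2 := (FS.metr (n := n) (ρ := ρ) (S := S) (E := Set.univ) (Set.mem_univ _)).mul hQ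
        (E'' := Set.univ) fun _ _ _ _ => Set.mem_univ _
      let e' : Fin 2 ⊕ Fin r ≃ Option (Option (Fin r)) :=
        { toFun := fun s => match s with
            | Sum.inl 0 => none
            | Sum.inl 1 => some none
            | Sum.inr s => some (some s)
          invFun := fun s => match s with
            | none => Sum.inl 0
            | some none => Sum.inl 1
            | some (some s) => Sum.inr s
          left_inv := by
            rintro (s | s)
            · fin_cases s <;> rfl
            · rfl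
          right_inv := by rintro (_ | _ | s) <;> rfl }
      exact (h2.relab e').congr fun X b K => rfl
    obtain ⟨s, E, V, hs, hE, hV, hI⟩ := h1 _ (hG.relab e.symm)
    refine ⟨s, E, V, hs, hE, hV, fun X b Ψ => ?_⟩
    rw [pair_contr2 b.isymm b.inv, pair_relab, ← hI]
  | @deriv r t T e hT h1 =>
    intro Q hQ
    have hQ' := hQ.relab e.symm
    obtain ⟨s, E, V, hs, hE, hV, hI⟩ := h1 _ (FS.contr2 (hQ'.DD (E' := Set.univ)
      fun _ _ => Set.mem_univ _)).neg
    refine ⟨s, E, fun X b Ψ i => V X b Ψ i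
      + pair b.Gi (fun K => relab e.symm (Q X b) (ocons i K)) (T X b Ψ), hs, hE,
      fun ψ hψ => ?_, fun X b Ψ => ?_⟩
    · refine (hV ψ hψ).add ?_
      have h3 := hT.subst ψ hψ
      let e' : Option (Fin r) ≃ Fin r ⊕ Fin 1 :=
        { toFun := fun s => match s with
            | none => Sum.inr 0
            | some s => Sum.inl s
          invFun := fun s => match s with
            | Sum.inr _ => none
            | Sum.inl s => some s
          left_inv := by rintro (_ | s) <;> rfl
          right_inv := by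
            rintro (s | s)
            · rfl
            · have : s = 0 := Subsingleton.elim _ _
              subst this; rfl }
      refine (FS.pairL (hQ'.relab e') h3 (E'' := Set.univ)
        fun _ _ _ _ => Set.mem_univ _).congr fun X b M => ?_
      congr 1
      funext K
      show relab e.symm (Q X b) (fun s => Sum.elim K M (e' s)) = relab e.symm (Q X b) _
      congr 1
      funext s
      cases s <;> rfl
    · rw [dvg_add, pair_relab, pair_DD X.d b.A b.isymm b.compatGi]
      have h4 := hI X b Ψ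
      have h5 : pair b.Gi (fun K => -contr2 b.Gi (DD X.d b.A (relab e.symm (Q X b))) K) (T X b Ψ)
          = - pair b.Gi (contr2 b.Gi (DD X.d b.A (relab e.symm (Q X b)))) (T X b Ψ) := by
        have h51 : (fun K => -contr2 b.Gi (DD X.d b.A (relab e.symm (Q X b))) K)
            = fun K => (-1 : ℝ) • contr2 b.Gi (DD X.d b.A (relab e.symm (Q X b))) K := by
          funext K; simp
        rw [h51, pair_smul_left]; simp
      rw [h5] at h4
      have h6 : pair b.Gi (contr2 b.Gi (DD X.d b.A (relab e.symm (Q X b)))) (T X b Ψ)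
          = - ((∑ j ∈ s, pair b.Gi (E j X b) (Ψ j)) + dvg X.d b.A b.Gi (V X b Ψ)) := by
        rw [← h4]; ring
      rw [h6]; ring

end Run7.h96.Hy

end
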