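import Pool.Agent.Run7.h96.K02

section

/-!
Orders of vanishing of power series, and metrics `dr² + h_r` in Fermi form.
-/

set_option linter.all false

open scoped BigOperators

namespace Run7.h96.Hy

open CInv

section Order

variable {R : Type} [CommRing R] [Algebra ℝ R]

/-- `F = O(r^N)` -/
def Od (N : ℕ) (F : PowerSeries R) : Prop := ∀ m < N, PowerSeries.coeff m F = 0

theorem Od.iff {N : ℕ} {F : PowerSeries R} : Od N F ↔ (PowerSeries.X : PowerSeries R) ^ N ∣ F :=
  PowerSeries.X_pow_dvd_iff.symm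

theorem Od.zero' (F : PowerSeries R) : Od 0 F := fun m hm => absurd hm (Nat.not_lt_zero m)

theorem Od.mono {M N : ℕ} {F : PowerSeries R} (h : Od N F) (hMN : M ≤ N) : Od M F :=
  fun m hm => h m (lt_of_lt_of_le hm hMN)

theorem Od.z {N : ℕ} : Od N (0 : PowerSeries R) := fun m _ => by simp

theorem Od.add {N : ℕ} {F G : PowerSeries R} (hF : Od N F) (hG : Od N G) : Od N (F + G) :=
  fun m hm => by rw [map_add, hF m hm, hG m hm, add_zero]

theorem Od.neg {N : ℕ} {F : PowerSeries R} (hF : Od N F) : Od N (-F) :=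
  fun m hm => by rw [map_neg, hF m hm, neg_zero]

theorem Od.sub {N : ℕ} {F G : PowerSeries R} (hF : Od N F) (hG : Od N G) : Od N (F - G) :=
  fun m hm => by rw [map_sub, hF m hm, hG m hm, sub_zero]

theorem Od.smul {N : ℕ} {F : PowerSeries R} (t : ℝ) (hF : Od N F) : Od N (t • F) :=
  fun m hm => by
    have : PowerSeries.coeff m (t • F) = t • PowerSeries.coeff m F := by
      simp
    rw [this, hF m hm, smul_zero]

theorem Od.sum {N : ℕ} {α : Type} (s : Finset α) {F : α → PowerSeries R}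
    (hF : ∀ a ∈ s, Od N (F a)) : Od N (∑ a ∈ s, F a) :=
  fun m hm => by
    rw [map_sum]
    exact Finset.sum_eq_zero fun a ha => hF a ha m hm

theorem Od.mul {M N : ℕ} {F G : PowerSeries R} (hF : Od M F) (hG : Od N G) :
    Od (M + N) (F * G) := by
  rw [Od.iff] at *
  rw [pow_add]
  exact mul_dvd_mul hF hG

theorem Od.mul_left {N : ℕ} {F : PowerSeries R} (G : PowerSeries R) (hF : Od N F) :
    Od N (G * F) := by
  have := (Od.zero' G).mul hF
  rwa [zero_add] at this

theorem Od.mul_right {N : ℕ} {F : PowerSeries R} (G : PowerSeries R) (hF : Od N F) :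
    Od N (F * G) := by
  rw [mul_comm]; exact hF.mul_left G

theorem Od.coeff_mul {M N : ℕ} {F G : PowerSeries R} (hF : Od M F) (hG : Od N G) :
    PowerSeries.coeff (M + N) (F * G) = PowerSeries.coeff M F * PowerSeries.coeff N G := by
  rw [PowerSeries.coeff_mul, Finset.sum_eq_single (M, N)]
  · rintro ⟨a, b⟩ hab hne
    rw [Finset.HasAntidiagonal.mem_antidiagonal] at hab
    simp only at hab ⊢
    rcases lt_or_ge a M with h | h
    · rw [hF a h, zero_mul]
    · have : b < N := by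
        rcases lt_or_ge b N with h' | h'
        · exact h'
        · exfalso
          apply hne
          have h1 : a = M := by omega
          have h2 : b = N := by omega
          rw [h1, h2]
      rw [hG b this, mul_zero]
  · intro h
    exact absurd (by rw [Finset.HasAntidiagonal.mem_antidiagonal]) h

theorem Od.dr {N : ℕ} {F : PowerSeries R} (hF : Od (N + 1) F) : Od N (dr R F) :=
  fun m hm => by rw [dr_coeff, hF (m + 1) (by omega), zero_mul]

theorem Od.psD {N : ℕ} {F : PowerSeries R} (δ : Derivation ℝ R R) (hF : Od N F) :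
    Od N (psD δ F) :=
  fun m hm => by rw [psD_coeff, hF m hm, map_zero]

/-- `∫_0^r` -/
noncomputable def itg (F : PowerSeries R) : PowerSeries R :=
  PowerSeries.mk fun m => Nat.casesOn m 0 (fun m => ((1 : ℝ) / (m + 1)) • PowerSeries.coeff m F)

theorem itg_coeff_zero (F : PowerSeries R) : PowerSeries.coeff 0 (itg F) = 0 := by
  unfold itg; rw [PowerSeries.coeff_mk]; rfl

theorem itg_coeff_succ (F : PowerSeries R) (m : ℕ) :
    PowerSeries.coeff (m + 1) (itg F) = ((1 : ℝ) / (m + 1)) • PowerSeries.coeff m F := by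
  unfold itg; rw [PowerSeries.coeff_mk]

theorem real_cast_mul (m : ℕ) (x : R) : x * ((m : R) + 1) = ((m : ℝ) + 1) • x := by
  rw [Algebra.smul_def, map_add, map_natCast, map_one, mul_comm]

theorem dr_coeff' (F : PowerSeries R) (m : ℕ) :
    PowerSeries.coeff m (dr R F) = ((m : ℝ) + 1) • PowerSeries.coeff (m + 1) F := by
  rw [dr_coeff, real_cast_mul]

theorem dr_itg (F : PowerSeries R) : dr R (itg F) = F := by
  ext m
  rw [dr_coeff', itg_coeff_succ, smul_smul]
  have : ((m : ℝ) + 1) * (1 / (m + 1)) = 1 := by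
    have : (m : ℝ) + 1 ≠ 0 := by positivity
    field_simp
  rw [this, one_smul]

theorem Od.itg {N : ℕ} {F : PowerSeries R} (hF : Od N F) : Od (N + 1) (itg F) := by
  intro m hm
  cases m with
  | zero => exact itg_coeff_zero F
  | succ m => rw [itg_coeff_succ, hF m (by omega), smul_zero]

/-- a series without constant term is determined by its derivative -/
theorem eq_of_dr {N : ℕ} {F : PowerSeries R} (h0 : PowerSeries.coeff 0 F = 0) (h : Od N (Hy.dr R F)) :
    Od (N + 1) F := by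
  intro m hm
  cases m with
  | zero => exact h0
  | succ m =>
    have h1 := h m (by omega)
    rw [dr_coeff'] at h1
    have h2 : (m : ℝ) + 1 ≠ 0 := by positivity
    calc PowerSeries.coeff (m + 1) F
        = ((m : ℝ) + 1)⁻¹ • (((m : ℝ) + 1) • PowerSeries.coeff (m + 1) F) := by
          rw [smul_smul, inv_mul_cancel₀ h2, one_smul]
      _ = 0 := by rw [h1, smul_zero]

end Order

theorem ps_ext {k : ℕ} {X : DR (k + 1)} {F G : X.ps.R}
    (h : ∀ m, PowerSeries.coeff m (F : PowerSeries X.R) = PowerSeries.coeff m (G : PowerSeries X.R)) :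
    F = G := PowerSeries.ext h

/-! ### hypersurface data -/

/-- names of the fields: unit normal, test functions, Taylor coefficients of the metric -/
inductive Fd : Type
  | nu : Fd
  | chi : Fd
  | om (j : ℕ) : Fd
  | h (j : ℕ) : Fd

/-- number of slots -/
@[reducible] def ρF : Fd → ℕ
  | Fd.nu => 1
  | Fd.chi => 0
  | Fd.om _ => 0
  | Fd.h _ => 2

variable {k : ℕ}

/-- hypersurface data over a differential ring; index `0` is the normal direction -/
abbrev HD (X : DR (k + 1)) : Type := BD X Fd ρF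

/-- Taylor coefficients of the metric -/
def hj {X : DR (k + 1)} (b : HD X) : ℕ → Fin (k + 1) → Fin (k + 1) → X.R
  | 0 => b.G
  | m + 1 => fun i j => b.Φ (Fd.h m) ![i, j]

/-- the metric `dr² + h_r` as a power series in `r` -/
def gX {X : DR (k + 1)} (b : HD X) (i j : Fin (k + 1)) : X.ps.R :=
  (PowerSeries.mk fun m => hj b m i j : PowerSeries X.R)

theorem gX_coeff {X : DR (k + 1)} (b : HD X) (i j : Fin (k + 1)) (m : ℕ) :
    PowerSeries.coeff m (gX b i j : PowerSeries X.R) = hj b m i j := by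
  unfold gX; exact PowerSeries.coeff_mk _ _

/-- the inverse matrix -/
noncomputable def gXi {X : DR (k + 1)} (b : HD X) (i j : Fin (k + 1)) : X.ps.R :=
  ((Matrix.of (gX b))⁻¹ : Matrix (Fin (k + 1)) (Fin (k + 1)) X.ps.R) i j

theorem gX_unit {X : DR (k + 1)} (b : HD X) :
    IsUnit (Matrix.of (gX b) : Matrix (Fin (k + 1)) (Fin (k + 1)) X.ps.R).det := by
  have h1 : IsUnit (Matrix.of b.G : Matrix (Fin (k + 1)) (Fin (k + 1)) X.R).det := by
    have h : (Matrix.of b.G) * (Matrix.of b.Gi) = 1 := by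
      ext i j
      rw [Matrix.mul_apply, Matrix.one_apply]
      exact b.inv i j
    have := congrArg Matrix.det h
    rw [Matrix.det_mul, Matrix.det_one] at this
    exact IsUnit.of_mul_eq_one _ this
  have h2 : PowerSeries.constantCoeff (R := X.R)
      ((Matrix.of (gX b) : Matrix (Fin (k + 1)) (Fin (k + 1)) (PowerSeries X.R)).det)
      = (Matrix.of b.G : Matrix (Fin (k + 1)) (Fin (k + 1)) X.R).det := by
    rw [RingHom.map_det]
    congr 1
  have h3 : IsUnit ((Matrix.of (gX b) : Matrix (Fin (k + 1)) (Fin (k + 1)) (PowerSeries X.R)).det) := by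
    rw [PowerSeries.isUnit_iff_constantCoeff, h2]
    exact h1
  exact h3

/-- Fermi data: `G = 1 ⊕ ḡ`, the fields `h j` are symmetric and tangential, `ν = dr` -/
structure Fer {X : DR (k + 1)} (b : HD X) : Prop where
  d0 : ∀ f, X.d 0 f = 0
  g00 : b.G 0 0 = 1
  g0 : ∀ a : Fin k, b.G 0 a.succ = 0
  nu : ∀ K, b.Φ Fd.nu K = if K 0 = 0 then 1 else 0
  h0 : ∀ j i, b.Φ (Fd.h j) ![0, i] = 0
  hs : ∀ j i i', b.Φ (Fd.h j) ![i, i'] = b.Φ (Fd.h j) ![i', i]

section FerBasic

variable {X : DR (k + 1)} {b : HD X}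

theorem Fer.hj_symm (hb : Fer b) (m : ℕ) (i j : Fin (k + 1)) : hj b m i j = hj b m j i := by
  cases m with
  | zero => exact b.symm i j
  | succ m => exact hb.hs m i j

theorem Fer.hj_zero (hb : Fer b) (m : ℕ) (j : Fin (k + 1)) : hj b (m + 1) 0 j = 0 := hb.h0 m j

theorem Fer.metric (hb : Fer b) : IsMetric (gX b) (gXi b) where
  symm i j := by
    apply ps_ext
    intro m
    rw [gX_coeff, gX_coeff, hb.hj_symm]
  inv i j := by
    have h := Matrix.mul_nonsing_inv (Matrix.of (gX b)) (gX_unit b)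
    have := congrFun (congrFun h i) j
    rw [Matrix.mul_apply, Matrix.one_apply] at this
    exact this

theorem Fer.gX00 (hb : Fer b) : gX b 0 0 = 1 := by
  apply ps_ext
  intro m
  rw [gX_coeff]
  cases m with
  | zero =>
    show _ = PowerSeries.coeff 0 (1 : PowerSeries X.R)
    rw [PowerSeries.coeff_zero_one]; exact hb.g00
  | succ m =>
    show _ = PowerSeries.coeff (m + 1) (1 : PowerSeries X.R)
    rw [hb.hj_zero, PowerSeries.coeff_one, if_neg (Nat.succ_ne_zero m)]

theorem Fer.gX0 (hb : Fer b) (a : Fin k) : gX b 0 a.succ = 0 := by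
  apply ps_ext
  intro m
  rw [gX_coeff]
  cases m with
  | zero => exact hb.g0 a
  | succ m => exact hb.hj_zero m _

theorem Fer.gX0' (hb : Fer b) (a : Fin k) : gX b a.succ 0 = 0 := by
  rw [hb.metric.symm]; exact hb.gX0 a

theorem Fer.gX0i (hb : Fer b) (i : Fin (k + 1)) : gX b 0 i = if i = 0 then 1 else 0 := by
  refine Fin.cases ?_ (fun a => ?_) i
  · rw [if_pos rfl]; exact hb.gX00
  · rw [if_neg (Fin.succ_ne_zero a)]; exact hb.gX0 a

theorem Fer.gXi00 (hb : Fer b) : gXi b 0 0 = 1 := by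
  have h := hb.metric.inv 0 0
  rw [if_pos rfl, Fin.sum_univ_succ, hb.gX00, one_mul] at h
  simp only [hb.gX0, zero_mul, Finset.sum_const_zero, add_zero] at h
  exact h

theorem Fer.gXi0 (hb : Fer b) (a : Fin k) : gXi b 0 a.succ = 0 := by
  have h := hb.metric.inv 0 a.succ
  rw [if_neg (Fin.succ_ne_zero a).symm, Fin.sum_univ_succ, hb.gX00, one_mul] at h
  simp only [hb.gX0, zero_mul, Finset.sum_const_zero, add_zero] at h
  exact h

theorem Fer.gXi0' (hb : Fer b) (a : Fin k) : gXi b a.succ 0 = 0 := by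
  rw [(gi_symm hb.metric).1]; exact hb.gXi0 a

/-- geodesic curves -/
theorem Fer.chr00 (hb : Fer b) (l : Fin (k + 1)) :
    chr X.ps.D (gX b) (gXi b) l 0 0 = 0 := by
  unfold chr
  have h1 : ∀ p, X.ps.D 0 (gX b 0 p) = 0 := by
    intro p
    rw [hb.gX0i]
    split_ifs
    · exact der_one X.ps.isDer _
    · exact der_zero X.ps.isDer _
  have h2 : ∀ p, X.ps.D p (gX b 0 0) = 0 := by
    intro p
    rw [hb.gX00]
    exact der_one X.ps.isDer _
  simp only [h1, h2, add_zero, sub_zero, mul_zero, Finset.sum_const_zero, smul_zero]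

end FerBasic

end Run7.h96.Hy

end

section

/-!
The singular Yamabe equation and the harmonic extension: leading coefficients and uniqueness.
-/

set_option linter.all false

open scoped BigOperators

namespace Run7.h96.Hy

open CInv

variable {k : ℕ} {X : DR (k + 1)}

/-! ### coefficients of elements of `X.ps` -/

/-- coefficient -/
noncomputable def cf (m : ℕ) (F : X.ps.R) : X.R := PowerSeries.coeff m (F : PowerSeries X.R)

theorem cf_add (m : ℕ) (F G : X.ps.R) : cf m (F + G) = cf m F + cf m G :=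
  map_add (PowerSeries.coeff (R := X.R) m) F G
theorem cf_sub (m : ℕ) (F G : X.ps.R) : cf m (F - G) = cf m F - cf m G :=
  map_sub (PowerSeries.coeff (R := X.R) m) F G
theorem cf_neg (m : ℕ) (F : X.ps.R) : cf m (-F) = - cf m F :=
  map_neg (PowerSeries.coeff (R := X.R) m) F
theorem ps_coeff_smul {R : Type} [CommRing R] [Algebra ℝ R] (m : ℕ) (t : ℝ) (F : PowerSeries R) :
    PowerSeries.coeff m (t • F) = t • PowerSeries.coeff m F := by
  simp
theorem cf_smul (m : ℕ) (t : ℝ) (F : X.ps.R) : cf m (t • F) = t • cf m F :=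
  ps_coeff_smul (R := X.R) m t F
theorem cf_zero (m : ℕ) : cf m (0 : X.ps.R) = 0 := map_zero (PowerSeries.coeff (R := X.R) m)
theorem cf_one (m : ℕ) : cf m (1 : X.ps.R) = if m = 0 then 1 else 0 :=
  PowerSeries.coeff_one (R := X.R) m
theorem cf_sum (m : ℕ) {α : Type} (s : Finset α) (F : α → X.ps.R) :
    cf m (∑ a ∈ s, F a) = ∑ a ∈ s, cf m (F a) :=
  map_sum (PowerSeries.coeff (R := X.R) m) F s
theorem cf_mul (m : ℕ) (F G : X.ps.R) :
    cf m (F * G) = ∑ p ∈ Finset.HasAntidiagonal.antidiagonal m, cf p.1 F * cf p.2 G :=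
  PowerSeries.coeff_mul m (F : PowerSeries X.R) G
theorem cf_d0 (m : ℕ) (F : X.ps.R) : cf m (X.ps.D 0 F) = ((m : ℝ) + 1) • cf (m + 1) F :=
  dr_coeff' (F : PowerSeries X.R) m
theorem cf_ds (m : ℕ) (a : Fin k) (F : X.ps.R) : cf m (X.ps.D a.succ F) = X.d a.succ (cf m F) :=
  psD_coeff _ (F : PowerSeries X.R) m

theorem cf_ext {F G : X.ps.R} (h : ∀ m, cf m F = cf m G) : F = G := PowerSeries.ext h

/-- order of vanishing in `r` -/
def O (N : ℕ) (F : X.ps.R) : Prop := ∀ m < N, cf m F = 0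

theorem O.zero' (F : X.ps.R) : O 0 F := fun m hm => absurd hm (Nat.not_lt_zero m)
theorem O.mono {M N : ℕ} {F : X.ps.R} (h : O N F) (hMN : M ≤ N) : O M F :=
  fun m hm => h m (lt_of_lt_of_le hm hMN)
theorem O.z {N : ℕ} : O N (0 : X.ps.R) := fun m _ => cf_zero m
theorem O.add {N : ℕ} {F G : X.ps.R} (hF : O N F) (hG : O N G) : O N (F + G) :=
  fun m hm => by rw [cf_add, hF m hm, hG m hm, add_zero]
theorem O.neg {N : ℕ} {F : X.ps.R} (hF : O N F) : O N (-F) :=
  fun m hm => by rw [cf_neg, hF m hm, neg_zero]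
theorem O.sub {N : ℕ} {F G : X.ps.R} (hF : O N F) (hG : O N G) : O N (F - G) :=
  fun m hm => by rw [cf_sub, hF m hm, hG m hm, sub_zero]
theorem O.smul {N : ℕ} {F : X.ps.R} (t : ℝ) (hF : O N F) : O N (t • F) :=
  fun m hm => by rw [cf_smul, hF m hm, smul_zero]
theorem O.sum {N : ℕ} {α : Type} (s : Finset α) {F : α → X.ps.R}
    (hF : ∀ a ∈ s, O N (F a)) : O N (∑ a ∈ s, F a) :=
  fun m hm => by
    rw [cf_sum]
    exact Finset.sum_eq_zero fun a ha => hF a ha m hm
theorem O.mul {M N : ℕ} {F G : X.ps.R} (hF : O M F) (hG : O N G) : O (M + N) (F * G) :=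
  Od.mul (R := X.R) hF hG
theorem O.mul_left {N : ℕ} {F : X.ps.R} (G : X.ps.R) (hF : O N F) : O N (G * F) :=
  Od.mul_left (R := X.R) G hF
theorem O.mul_right {N : ℕ} {F : X.ps.R} (G : X.ps.R) (hF : O N F) : O N (F * G) :=
  Od.mul_right (R := X.R) G hF
theorem O.cf_mul {M N : ℕ} {F G : X.ps.R} (hF : O M F) (hG : O N G) :
    cf (M + N) (F * G) = cf M F * cf N G := Od.coeff_mul (R := X.R) hF hG
theorem O.d0 {N : ℕ} {F : X.ps.R} (hF : O (N + 1) F) : O N (X.ps.D 0 F) :=
  Od.dr (R := X.R) hF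
theorem O.ds {N : ℕ} {F : X.ps.R} (a : Fin k) (hF : O N F) : O N (X.ps.D a.succ F) :=
  Od.psD (R := X.R) _ hF
theorem O.di {N : ℕ} {F : X.ps.R} (i : Fin (k + 1)) (hF : O (N + 1) F) : O N (X.ps.D i F) := by
  refine Fin.cases ?_ (fun a => ?_) i
  · exact hF.d0
  · exact (hF.mono (Nat.le_succ N)).ds a

theorem cf_O1 {m : ℕ} {F : X.ps.R} (hF : O m F) (h : cf m F = 0) : O (m + 1) F := by
  intro j hj
  rcases Nat.lt_succ_iff_lt_or_eq.mp hj with h1 | h1
  · exact hF j h1
  · rw [h1]; exact h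

/-! ### expressions in Fermi form -/

section

variable {b : HD X}

/-- the metric, its inverse and the derivations -/
theorem lap_fer (hb : Fer b) (τ : X.ps.R) :
    lap X.ps.D (gX b) (gXi b) τ = X.ps.D 0 (X.ps.D 0 τ)
      + ∑ a : Fin k, ∑ c : Fin k, gXi b a.succ c.succ
        * hess X.ps.D (gX b) (gXi b) τ a.succ c.succ := by
  unfold lap
  simp only [Fin.sum_univ_succ, hb.gXi00, hb.gXi0, hb.gXi0', zero_mul, one_mul,
    Finset.sum_const_zero, add_zero, zero_add]
  congr 1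
  unfold hess
  simp only [hb.chr00, zero_mul, Finset.sum_const_zero, sub_zero]

theorem ip_fer (hb : Fer b) (u v : Fin (k + 1) → X.ps.R) :
    ip (gXi b) u v = u 0 * v 0
      + ∑ a : Fin k, ∑ c : Fin k, gXi b a.succ c.succ * (u a.succ * v c.succ) := by
  unfold ip
  simp only [Fin.sum_univ_succ, hb.gXi00, hb.gXi0, hb.gXi0', zero_mul, one_mul,
    Finset.sum_const_zero, add_zero, zero_add]

theorem hess_O {τ : X.ps.R} {N : ℕ} (hτ : O (N + 2) τ) (i j : Fin (k + 1)) :
    O N (hess X.ps.D (gX b) (gXi b) τ i j) := by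
  unfold hess
  refine O.sub ?_ (O.sum _ fun l _ => O.mul_left _ ?_)
  · exact (hτ.di j).di i
  · exact (hτ.di l).mono (Nat.le_succ N)

theorem hess_Os {τ : X.ps.R} {N : ℕ} (hτ : O (N + 1) τ) (a c : Fin k) :
    O N (hess X.ps.D (gX b) (gXi b) τ a.succ c.succ) := by
  unfold hess
  refine O.sub ?_ (O.sum _ fun l _ => O.mul_left _ ?_)
  · exact ((hτ.ds c).ds a).mono (Nat.le_succ N)
  · exact hτ.di l

theorem lap_O {τ : X.ps.R} {N : ℕ} (hτ : O (N + 2) τ) :
    O N (lap X.ps.D (gX b) (gXi b) τ) := by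
  unfold lap
  exact O.sum _ fun i _ => O.sum _ fun j _ => O.mul_left _ (hess_O hτ i j)

theorem lap_cf (hb : Fer b) {τ : X.ps.R} {m : ℕ} (hτ : O (m + 2) τ) :
    cf m (lap X.ps.D (gX b) (gXi b) τ) = (((m : ℝ) + 1) * (m + 2)) • cf (m + 2) τ := by
  rw [lap_fer hb, cf_add, cf_d0, cf_d0]
  have h1 : O (m + 1) (∑ a : Fin k, ∑ c : Fin k, gXi b a.succ c.succ
        * hess X.ps.D (gX b) (gXi b) τ a.succ c.succ) :=
    O.sum _ fun a _ => O.sum _ fun c _ => O.mul_left _ (hess_Os hτ a c)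
  rw [h1 m (Nat.lt_succ_self m), add_zero, smul_smul]
  congr 1
  push_cast
  ring

theorem ip_O {σ τ : X.ps.R} {M N : ℕ} (hσ : O (M + 1) σ) (hτ : O (N + 1) τ) :
    O (M + N) (ip (gXi b) (fun i => X.ps.D i σ) (fun i => X.ps.D i τ)) := by
  unfold ip
  exact O.sum _ fun i _ => O.sum _ fun j _ => O.mul_left _ ((hσ.di i).mul (hτ.di j))

theorem ip_cf (hb : Fer b) {σ τ : X.ps.R} {m : ℕ} (h0 : cf 0 σ = 0) (h1 : cf 1 σ = 1)
    (hτ : O (m + 1) τ) :
    cf m (ip (gXi b) (fun i => X.ps.D i σ) (fun i => X.ps.D i τ))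
      = ((m : ℝ) + 1) • cf (m + 1) τ := by
  have hσ : O 1 σ := by
    intro j hj
    have : j = 0 := by omega
    rw [this]; exact h0
  rw [ip_fer hb, cf_add]
  have h2 : O (1 + (m + 1)) (∑ a : Fin k, ∑ c : Fin k, gXi b a.succ c.succ
        * (X.ps.D a.succ σ * X.ps.D c.succ τ)) :=
    O.sum _ fun a _ => O.sum _ fun c _ => O.mul_left _ ((hσ.ds a).mul (hτ.ds c))
  rw [h2 m (by omega), add_zero]
  have h3 := O.cf_mul (O.zero' (X.ps.D 0 σ)) hτ.d0
  rw [zero_add] at h3
  rw [h3, cf_d0, cf_d0, zero_add, h1]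
  simp

/-- the singular Yamabe operator -/
noncomputable def Yam (b : HD X) (σ : X.ps.R) : X.ps.R :=
  tr2 (gXi b) (tt X.ps.D (gX b) (gXi b) σ)

/-- the Laplacian of `σ⁻² g` -/
noncomputable def Lop (b : HD X) (σ u : X.ps.R) : X.ps.R := lop X.ps.D (gX b) (gXi b) σ u

theorem lap_add' (b : HD X) (u v : X.ps.R) :
    lap X.ps.D (gX b) (gXi b) (u + v)
      = lap X.ps.D (gX b) (gXi b) u + lap X.ps.D (gX b) (gXi b) v := by
  unfold lap
  simp only [hess_add X.ps.isDer, mul_add, Finset.sum_add_distrib]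

theorem Yam_diff (hb : Fer b) {σ τ : X.ps.R} {m : ℕ} (hm : 1 ≤ m) (h0 : cf 0 σ = 0)
    (h1 : cf 1 σ = 1) (hτ : O (m + 1) τ) :
    O m (Yam b (σ + τ) - Yam b σ) ∧ cf m (Yam b (σ + τ) - Yam b σ)
      = (2 * (k : ℝ) * (m + 1) * (m - (k + 1))) • cf (m + 1) τ := by
  have hσ : O 1 σ := by
    intro j hj
    have : j = 0 := by omega
    rw [this]; exact h0
  obtain ⟨m', rfl⟩ : ∃ m', m = m' + 1 := ⟨m - 1, by omega⟩
  set S := tr2 (gXi b) (ric X.ps.D (gX b) (gXi b)) with hS
  set lσ := lap X.ps.D (gX b) (gXi b) σ with hlσ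
  set lτ := lap X.ps.D (gX b) (gXi b) τ with hlτ
  set pσσ := ip (gXi b) (fun i => X.ps.D i σ) (fun i => X.ps.D i σ) with hpσσ
  set pστ := ip (gXi b) (fun i => X.ps.D i σ) (fun i => X.ps.D i τ) with hpστ
  set pττ := ip (gXi b) (fun i => X.ps.D i τ) (fun i => X.ps.D i τ) with hpττ
  have e1 : ip (gXi b) (fun i => X.ps.D i (σ + τ)) (fun i => X.ps.D i (σ + τ))
      = pσσ + 2 * pστ + pττ := by
    have : (fun i => X.ps.D i (σ + τ)) = fun i => X.ps.D i σ + X.ps.D i τ := by
      funext i; exact X.ps.isDer.add i σ τ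
    rw [this, ip_add_left, ip_add_right, ip_add_right, ip_comm hb.metric (fun i => X.ps.D i τ)]
    ring
  have key : Yam b (σ + τ) - Yam b σ
      = ((2 * (((k + 1 : ℕ) : ℝ) - 1)) • (σ * lτ)
        - (2 * (((k + 1 : ℕ) : ℝ) * (((k + 1 : ℕ) : ℝ) - 1))) • pστ)
        + (((2 * σ * τ + τ * τ) * S) + (2 * (((k + 1 : ℕ) : ℝ) - 1)) • (τ * lσ + τ * lτ)
        - (((k + 1 : ℕ) : ℝ) * (((k + 1 : ℕ) : ℝ) - 1)) • pττ) := by
    unfold Yam
    rw [tr2_tt hb.metric, tr2_tt hb.metric, e1, lap_add']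
    simp only [Algebra.smul_def, map_mul, map_sub, map_natCast, map_one, map_ofNat]
    ring
  have o1 : O (m' + 2) (((2 * σ * τ + τ * τ) * S)
      + (2 * (((k + 1 : ℕ) : ℝ) - 1)) • (τ * lσ + τ * lτ)
        - (((k + 1 : ℕ) : ℝ) * (((k + 1 : ℕ) : ℝ) - 1)) • pττ) := by
    refine O.sub (O.add (O.mul_right _ (O.add (O.mul_left _ hτ) (O.mul_left _ hτ)))
      (O.smul _ (O.add (O.mul_right _ hτ) (O.mul_right _ hτ)))) (O.smul _ ?_)
    exact (ip_O (b := b) hτ hτ).mono (by omega)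
  have hlτO : O m' lτ := lap_O hτ
  have o2 : O (m' + 1) (σ * lτ) := by
    have := hσ.mul hlτO
    rwa [add_comm] at this
  have o3 : O (m' + 1) pστ := by
    have := ip_O (b := b) hσ hτ
    rwa [zero_add] at this
  rw [key]
  constructor
  · exact O.add (O.sub (O.smul _ o2) (O.smul _ o3)) (o1.mono (by omega))
  · rw [cf_add, o1 (m' + 1) (by omega), add_zero, cf_sub, cf_smul, cf_smul]
    have c1 : cf (m' + 1) (σ * lτ) = (((m' : ℝ) + 1) * (m' + 2)) • cf (m' + 2) τ := by
      have := O.cf_mul hσ hlτO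
      rw [add_comm 1 m'] at this
      rw [this, h1, one_mul]
      exact lap_cf hb hτ
    have c2 : cf (m' + 1) pστ = (((m' + 1 : ℕ) : ℝ) + 1) • cf (m' + 1 + 1) τ :=
      ip_cf hb h0 h1 hτ
    rw [c1, c2, smul_smul, smul_smul, ← sub_smul]
    congr 1
    push_cast
    ring

theorem Yam_unique (hb : Fer b) {σ σ' : X.ps.R} (h0 : cf 0 σ = 0) (h1 : cf 1 σ = 1)
    (h0' : cf 0 σ' = 0) (h1' : cf 1 σ' = 1) (hY : O (k + 1) (Yam b σ)) (hY' : O (k + 1) (Yam b σ')) :
    O (k + 2) (σ' - σ) := by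
  by_cases hk : k = 0
  · subst hk
    intro j hj
    rcases j with _ | _ | j
    · rw [cf_sub, h0, h0', sub_zero]
    · rw [cf_sub, h1, h1', sub_self]
    · omega
  have key : ∀ m, m ≤ k → O (m + 2) (σ' - σ) := by
    intro m
    induction m with
    | zero =>
      intro _ j hj
      rcases j with _ | _ | j
      · rw [cf_sub, h0, h0', sub_zero]
      · rw [cf_sub, h1, h1', sub_self]
      · omega
    | succ m ih =>
      intro hm
      have h2 := ih (by omega)
      have h3 := Yam_diff hb (m := m + 1) (by omega) h0 h1 h2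
      have h4 : σ + (σ' - σ) = σ' := by ring
      rw [h4] at h3
      have h5 : cf (m + 1) (Yam b σ' - Yam b σ) = 0 := by
        rw [cf_sub, hY _ (by omega), hY' _ (by omega), sub_zero]
      rw [h5] at h3
      refine cf_O1 h2 ?_
      have h6 : (2 * (k : ℝ) * (((m + 1 : ℕ) : ℝ) + 1) * (((m + 1 : ℕ) : ℝ) - (k + 1))) ≠ 0 := by
        have a1 : (k : ℝ) ≠ 0 := Nat.cast_ne_zero.mpr hk
        have a2 : ((m + 1 : ℕ) : ℝ) + 1 ≠ 0 := by positivity
        have a3 : ((m + 1 : ℕ) : ℝ) - (k + 1) ≠ 0 := by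
          have : ((m + 1 : ℕ) : ℝ) ≤ k := by exact_mod_cast hm
          have : ((m + 1 : ℕ) : ℝ) - (k + 1) < 0 := by linarith
          exact this.ne
        positivity
      have h7 := h3.2
      calc cf (m + 2) (σ' - σ) = (2 * (k : ℝ) * (((m + 1 : ℕ) : ℝ) + 1)
            * (((m + 1 : ℕ) : ℝ) - (k + 1)))⁻¹ • ((2 * (k : ℝ) * (((m + 1 : ℕ) : ℝ) + 1)
            * (((m + 1 : ℕ) : ℝ) - (k + 1))) • cf (m + 1 + 1) (σ' - σ)) := by
            rw [smul_smul, inv_mul_cancel₀ h6, one_smul]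
        _ = 0 := by rw [← h7, smul_zero]
  exact key k le_rfl

theorem Lop_add (σ u v : X.ps.R) : Lop b σ (u + v) = Lop b σ u + Lop b σ v := by
  unfold Lop lop
  have : (fun i => X.ps.D i (u + v)) = fun i => X.ps.D i u + X.ps.D i v := by
    funext i; exact X.ps.isDer.add i u v
  rw [this, ip_add_right, lap_add', mul_add, mul_add, smul_add]
  ring

theorem Lop_cf (hb : Fer b) {σ v : X.ps.R} {m : ℕ} (h0 : cf 0 σ = 0)
    (h1 : cf 1 σ = 1) (hv : O m v) :
    O m (Lop b σ v) ∧ cf m (Lop b σ v) = ((m : ℝ) * (m - k)) • cf m v := by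
  have hσ : O 1 σ := by
    intro j hj
    have : j = 0 := by omega
    rw [this]; exact h0
  have hσ2 : O 2 (σ * σ) := hσ.mul hσ
  have c2 : cf 2 (σ * σ) = 1 := by
    have := O.cf_mul hσ hσ
    rw [h1, one_mul] at this
    exact this
  -- first term
  have t1 : O m (σ * σ * lap X.ps.D (gX b) (gXi b) v) ∧
      cf m (σ * σ * lap X.ps.D (gX b) (gXi b) v) = ((m : ℝ) * (m - 1)) • cf m v := by
    rcases m with _ | _ | m
    · refine ⟨O.zero' _, ?_⟩
      rw [(O.mul_right (lap X.ps.D (gX b) (gXi b) v) hσ2) 0 (by omega)]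
      simp
    · refine ⟨(O.mul_right _ hσ2).mono (by omega), ?_⟩
      rw [(O.mul_right (lap X.ps.D (gX b) (gXi b) v) hσ2) 1 (by omega)]
      simp
    · have h2 := hσ2.mul (lap_O (b := b) hv)
      rw [add_comm 2 m] at h2
      refine ⟨h2, ?_⟩
      have h3 := O.cf_mul hσ2 (lap_O (b := b) hv)
      rw [add_comm 2 m] at h3
      rw [h3, c2, one_mul, lap_cf hb hv]
      congr 1
      push_cast
      ring
  have t2 : O m (σ * ip (gXi b) (fun i => X.ps.D i σ) (fun i => X.ps.D i v)) ∧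
      cf m (σ * ip (gXi b) (fun i => X.ps.D i σ) (fun i => X.ps.D i v)) = (m : ℝ) • cf m v := by
    rcases m with _ | m
    · refine ⟨O.zero' _, ?_⟩
      rw [(O.mul_right _ hσ) 0 (by omega)]
      simp
    · have h2 : O m (ip (gXi b) (fun i => X.ps.D i σ) (fun i => X.ps.D i v)) := by
        have := ip_O (b := b) hσ hv
        rwa [zero_add] at this
      have h3 := hσ.mul h2
      rw [add_comm 1 m] at h3
      refine ⟨h3, ?_⟩
      have h4 := O.cf_mul hσ h2
      rw [add_comm 1 m] at h4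
      rw [h4, h1, one_mul, ip_cf hb h0 h1 hv]
      push_cast
      rfl
  unfold Lop lop
  refine ⟨t1.1.sub (O.smul _ t2.1), ?_⟩
  rw [cf_sub, cf_smul, t1.2, t2.2, smul_smul, ← sub_smul]
  congr 1
  push_cast
  ring

theorem Lop_unique (hb : Fer b) {σ u u' : X.ps.R} (h0 : cf 0 σ = 0) (h1 : cf 1 σ = 1)
    (hu : cf 0 u = cf 0 u') (hL : O k (Lop b σ u)) (hL' : O k (Lop b σ u')) :
    O k (u' - u) := by
  have key : ∀ m, m ≤ k → O m (u' - u) := by
    intro m
    induction m with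
    | zero => intro _; exact O.zero' _
    | succ m ih =>
      intro hm
      have h2 := ih (by omega)
      refine cf_O1 h2 ?_
      rcases m with _ | m
      · rw [cf_sub, hu, sub_self]
      have h3 := (Lop_cf hb h0 h1 h2).2
      have h4 : Lop b σ (u' - u) = Lop b σ u' - Lop b σ u := by
        have : Lop b σ u' = Lop b σ (u + (u' - u)) := by congr 1; ring
        rw [this, Lop_add]; ring
      rw [h4, cf_sub, hL _ (by omega), hL' _ (by omega), sub_zero] at h3
      have h6 : ((m + 1 : ℕ) : ℝ) * (((m + 1 : ℕ) : ℝ) - k) ≠ 0 := by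
        have a2 : ((m + 1 : ℕ) : ℝ) ≠ 0 := by positivity
        have a3 : ((m + 1 : ℕ) : ℝ) - k ≠ 0 := by
          have : ((m + 1 : ℕ) : ℝ) < k := by exact_mod_cast (by omega : m + 1 < k)
          have : ((m + 1 : ℕ) : ℝ) - k < 0 := by linarith
          exact this.ne
        positivity
      calc cf (m + 1) (u' - u) = (((m + 1 : ℕ) : ℝ) * (((m + 1 : ℕ) : ℝ) - k))⁻¹ •
            ((((m + 1 : ℕ) : ℝ) * (((m + 1 : ℕ) : ℝ) - k)) • cf (m + 1) (u' - u)) := by
            rw [smul_smul, inv_mul_cancel₀ h6, one_smul]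
        _ = 0 := by rw [← h3, smul_zero]
  exact key k le_rfl

end

end Run7.h96.Hy

end

section

/-!
Natural tensors on Fermi data, and power series with natural coefficients.
-/

set_option linter.all false
set_option maxHeartbeats 400000

open scoped BigOperators

namespace Run7.h96.Hy

open CInv

variable {k : ℕ}

/-- the fields counted by the degree -/
def Sh : Set Fd := {f | ∃ j, f = Fd.h j}

/-- weights of the fields -/
def wf : Fd → ℕ
  | Fd.nu => 0
  | Fd.chi => 0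
  | Fd.om _ => 0
  | Fd.h j => j + 1

/-- weight -/
noncomputable def wt (g : Dg Fd) : ℕ := g.2 + g.1.sum (fun f m => m * wf f)

theorem wt_zero : wt 0 = 0 := by simp [wt]

theorem wt_add (g g' : Dg Fd) : wt (g + g') = wt g + wt g' := by
  unfold wt
  rw [Prod.fst_add, Prod.snd_add, Finsupp.sum_add_index']
  · ring
  · intro f; simp
  · intro f m m'; ring

theorem wt_single (j : ℕ) : wt (Finsupp.single (Fd.h j) 1, 0) = j + 1 := by
  simp [wt, wf]

theorem wt_N (N : ℕ) : wt ((0, N) : Dg Fd) = N := by simp [wt]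

/-- degrees of given weight; `⊤` means no condition -/
def EW (z : WithTop ℤ) : Set (Dg Fd) := {g | z = ⊤ ∨ ((wt g : ℤ) : WithTop ℤ) = z}

theorem EW_add {z z' z'' : WithTop ℤ} (h : z + z' = z'') :
    ∀ g ∈ EW z, ∀ g' ∈ EW z', g + g' ∈ EW z'' := by
  intro g hg g' hg'
  subst h
  rcases hg with hg | hg
  · left; rw [hg]; exact top_add _
  · rcases hg' with hg' | hg'
    · left; rw [hg']; exact add_top _
    · right
      rw [← hg, ← hg', wt_add]; push_cast; rfl

theorem EW_top : EW ⊤ = Set.univ := by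
  ext g; simp [EW]

theorem EW_zero : (0 : Dg Fd) ∈ EW 0 := Or.inr (by rw [wt_zero]; rfl)

theorem EW_one : ((0, 1) : Dg Fd) ∈ EW 1 := Or.inr (by rw [wt_N]; rfl)

/-! ### natural tensors on Fermi data -/

/-- natural on Fermi data -/
def NF (E : Set (Dg Fd)) (κ : Type) (T : Tk (k + 1) Fd ρF κ) : Prop :=
  ∃ T' : Tk (k + 1) Fd ρF κ, FS Sh E κ T' ∧
    ∀ (X : DR (k + 1)) (b : HD X), Fer b → ∀ K, T X b K = T' X b K

section NFl

variable {E E' E'' : Set (Dg Fd)} {κ μ : Type}

theorem NF.of {T : Tk (k + 1) Fd ρF κ} (h : FS Sh E κ T) : NF E κ T :=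
  ⟨T, h, fun _ _ _ _ => rfl⟩

theorem NF.congr {T T' : Tk (k + 1) Fd ρF κ} (h : NF E κ T)
    (hTT : ∀ (X : DR (k + 1)) (b : HD X), Fer b → ∀ K, T X b K = T' X b K) : NF E κ T' := by
  obtain ⟨S, hS, hST⟩ := h
  exact ⟨S, hS, fun X b hb K => by rw [← hTT X b hb, hST X b hb]⟩

theorem NF.mono {T : Tk (k + 1) Fd ρF κ} (h : NF E κ T) (hE : E ⊆ E') : NF E' κ T := by
  obtain ⟨S, hS, hST⟩ := h
  exact ⟨S, hS.mono hE, hST⟩

theorem NF.ew {z z' : WithTop ℤ} {T : Tk (k + 1) Fd ρF κ} (h : NF (EW z) κ T) (hz : z = z') :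
    NF (EW z') κ T := hz ▸ h

theorem NF.add {T T' : Tk (k + 1) Fd ρF κ} (h : NF E κ T) (h' : NF E κ T') :
    NF E κ (fun X b K => T X b K + T' X b K) := by
  obtain ⟨S, hS, hST⟩ := h
  obtain ⟨S', hS', hST'⟩ := h'
  exact ⟨_, hS.add hS', fun X b hb K => by beta_reduce; rw [hST X b hb, hST' X b hb]⟩

theorem NF.smul {T : Tk (k + 1) Fd ρF κ} (h : NF E κ T) (t : ℝ) :
    NF E κ (fun X b K => t • T X b K) := by
  obtain ⟨S, hS, hST⟩ := h
  exact ⟨_, hS.smul t, fun X b hb K => by beta_reduce; rw [hST X b hb]⟩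

theorem NF.neg {T : Tk (k + 1) Fd ρF κ} (h : NF E κ T) : NF E κ (fun X b K => - T X b K) :=
  (h.smul (-1)).congr fun X b _ K => by simp

theorem NF.sub {T T' : Tk (k + 1) Fd ρF κ} (h : NF E κ T) (h' : NF E κ T') :
    NF E κ (fun X b K => T X b K - T' X b K) :=
  (h.add h'.neg).congr fun X b _ K => by ring

theorem NF.zero [Finite κ] : NF (k := k) E κ (fun _ _ _ => 0) := NF.of FS.zero

theorem NF.sum [Finite κ] {α : Type} (s : Finset α) {T : α → Tk (k + 1) Fd ρF κ}
    (h : ∀ a ∈ s, NF E κ (T a)) : NF E κ (fun X b K => ∑ a ∈ s, T a X b K) := by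
  classical
  induction s using Finset.induction_on with
  | empty => simpa using NF.zero
  | @insert a s ha ih =>
    have h1 := h a (Finset.mem_insert_self a s)
    have h2 := ih fun b hb => h b (Finset.mem_insert_of_mem hb)
    refine (h1.add h2).congr fun X b _ K => ?_
    rw [Finset.sum_insert ha]

/-- relabelling by a bijection -/
theorem NF.comp {T : Tk (k + 1) Fd ρF κ} (h : NF E κ T) (e : κ → μ) (he : Function.Bijective e) :
    NF E μ (fun X b K => T X b (fun s => K (e s))) := by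
  obtain ⟨S, hS, hST⟩ := h
  exact ⟨_, hS.relab (Equiv.ofBijective e he), fun X b hb K => hST X b hb _⟩

theorem NF.mulP {ι : Type} {T : Tk (k + 1) Fd ρF κ} {T' : Tk (k + 1) Fd ρF μ} (h : NF E κ T)
    (h' : NF E' μ T') (hE : ∀ g ∈ E, ∀ g' ∈ E', g + g' ∈ E'') (e : κ → ι) (e' : μ → ι)
    (he : Function.Bijective (Sum.elim e e')) :
    NF E'' ι (fun X b K => T X b (fun s => K (e s)) * T' X b (fun s => K (e' s))) := by
  obtain ⟨S, hS, hST⟩ := h
  obtain ⟨S', hS', hST'⟩ := h'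
  refine ⟨_, (hS.mul hS' hE).relab (Equiv.ofBijective _ he), fun X b hb K => ?_⟩
  beta_reduce
  rw [hST X b hb, hST' X b hb]
  rfl

theorem NF.contr [Finite κ] {T : Tk (k + 1) Fd ρF (Option (Option κ))}
    (h : NF E (Option (Option κ)) T) :
    NF E κ (fun X b K => ∑ i, ∑ j, b.Gi i j * T X b (ocons i (ocons j K))) := by
  obtain ⟨S, hS, hST⟩ := h
  refine ⟨_, hS.contr2, fun X b hb K => ?_⟩
  unfold Run7.h96.contr2
  simp only [hST X b hb]

theorem NF.dd [Fintype κ] [DecidableEq κ] {T : Tk (k + 1) Fd ρF κ} (h : NF E κ T)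
    (hE : ∀ g ∈ E, g + (0, 1) ∈ E') :
    NF E' (Option κ) (fun X b => DD X.d b.A (T X b)) := by
  obtain ⟨S, hS, hST⟩ := h
  refine ⟨_, hS.DD hE, fun X b hb K => ?_⟩
  beta_reduce
  rw [show T X b = S X b from funext fun K => hST X b hb K]

/-- data transported by morphisms are Fermi -/
theorem Fer.map {X Y : DR (k + 1)} {b : HD X} (hb : Fer b) (θ : DH X Y) (hY : ∀ f, Y.d 0 f = 0) :
    Fer (b.map θ.f) where
  d0 := hY
  g00 := by
    show θ.f (b.G 0 0) = 1
    rw [hb.g00, map_one]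
  g0 a := by
    show θ.f (b.G 0 a.succ) = 0
    rw [hb.g0, map_zero]
  nu K := by
    show θ.f (b.Φ Fd.nu K) = _
    rw [hb.nu]
    split_ifs
    · exact map_one _
    · exact map_zero _
  h0 j i := by
    show θ.f (b.Φ (Fd.h j) ![0, i]) = 0
    rw [hb.h0, map_zero]
  hs j i i' := by
    show θ.f (b.Φ (Fd.h j) ![i, i']) = θ.f (b.Φ (Fd.h j) ![i', i])
    rw [hb.hs]

theorem NF.map {T : Tk (k + 1) Fd ρF κ} (h : NF E κ T) {X Y : DR (k + 1)} (θ : DH X Y) {b : HD X}
    (hb : Fer b) (hY : ∀ f, Y.d 0 f = 0) (K : κ → Fin (k + 1)) :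
    T Y (b.map θ.f) K = θ.f (T X b K) := by
  obtain ⟨S, hS, hST⟩ := h
  rw [hST X b hb, hST Y _ (hb.map θ hY), hS.map θ b K]

end NFl

/-! ### series -/

/-- constant series -/
noncomputable def cst {X : DR (k + 1)} (a : X.R) : X.ps.R := (PowerSeries.C a : PowerSeries X.R)

theorem cf_cst {X : DR (k + 1)} (m : ℕ) (a : X.R) : cf m (cst a) = if m = 0 then a else 0 :=
  PowerSeries.coeff_C (R := X.R) m a

theorem cf_cst_mul {X : DR (k + 1)} (m : ℕ) (a : X.R) (F : X.ps.R) :
    cf m (cst a * F) = a * cf m F := PowerSeries.coeff_C_mul (R := X.R) m (F : PowerSeries X.R) a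

theorem cst_add {X : DR (k + 1)} (a a' : X.R) : cst (a + a') = cst a + cst a' :=
  map_add (PowerSeries.C (R := X.R)) a a'
theorem cst_mul {X : DR (k + 1)} (a a' : X.R) : cst (a * a') = cst a * cst a' :=
  map_mul (PowerSeries.C (R := X.R)) a a'
theorem cst_zero {X : DR (k + 1)} : cst (0 : X.R) = 0 := map_zero (PowerSeries.C (R := X.R))
theorem cst_one {X : DR (k + 1)} : cst (1 : X.R) = 1 := map_one (PowerSeries.C (R := X.R))
theorem cst_sub {X : DR (k + 1)} (a a' : X.R) : cst (a - a') = cst a - cst a' :=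
  map_sub (PowerSeries.C (R := X.R)) a a'
theorem cst_neg {X : DR (k + 1)} (a : X.R) : cst (-a) = -cst a :=
  map_neg (PowerSeries.C (R := X.R)) a
theorem cst_sum {X : DR (k + 1)} {α : Type} (s : Finset α) (f : α → X.R) :
    cst (∑ a ∈ s, f a) = ∑ a ∈ s, cst (f a) :=
  map_sum (PowerSeries.C (R := X.R)) f s

theorem D_cst_zero {X : DR (k + 1)} (a : X.R) : X.ps.D 0 (cst a) = 0 := by
  apply cf_ext
  intro m
  rw [cf_d0, cf_cst, if_neg (Nat.succ_ne_zero m), smul_zero, cf_zero]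

theorem D_cst_succ {X : DR (k + 1)} (i : Fin k) (a : X.R) :
    X.ps.D i.succ (cst a) = cst (X.d i.succ a) := by
  apply cf_ext
  intro m
  rw [cf_ds, cf_cst, cf_cst]
  split_ifs
  · rfl
  · exact map_zero _

theorem D_cst {X : DR (k + 1)} (h0 : ∀ f, X.d 0 f = 0) (i : Fin (k + 1)) (a : X.R) :
    X.ps.D i (cst a) = cst (X.d i a) := by
  refine Fin.cases ?_ (fun i => ?_) i
  · rw [D_cst_zero, h0, cst_zero]
  · exact D_cst_succ i a

/-- families of series-valued tensors -/
abbrev Tp (k : ℕ) (κ : Type) : Type 1 :=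
  ∀ X : DR (k + 1), HD X → (κ → Fin (k + 1)) → X.ps.R

/-- series with natural coefficients; the coefficient of `r^m` has weight `m + w` -/
def SN (w : WithTop ℤ) (κ : Type) (F : Tp k κ) : Prop :=
  ∀ m : ℕ, NF (EW (m + w)) κ (fun X b K => cf m (F X b K))

section SNl

variable {w w' w'' : WithTop ℤ} {κ μ : Type}

theorem SN.congr {F F' : Tp k κ} (h : SN w κ F)
    (hFF : ∀ (X : DR (k + 1)) (b : HD X), Fer b → ∀ K, F X b K = F' X b K) : SN w κ F' :=
  fun m => (h m).congr fun X b hb K => by rw [hFF X b hb]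

theorem SN.wc {F : Tp k κ} (h : SN w κ F) (hw : w = w') : SN w' κ F := hw ▸ h

theorem SN.add {F F' : Tp k κ} (h : SN w κ F) (h' : SN w κ F') :
    SN w κ (fun X b K => F X b K + F' X b K) :=
  fun m => ((h m).add (h' m)).congr fun X b _ K => (cf_add m _ _).symm

theorem SN.smul {F : Tp k κ} (h : SN w κ F) (t : ℝ) : SN w κ (fun X b K => t • F X b K) :=
  fun m => ((h m).smul t).congr fun X b _ K => (cf_smul m _ _).symm

theorem SN.neg {F : Tp k κ} (h : SN w κ F) : SN w κ (fun X b K => - F X b K) :=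
  fun m => (h m).neg.congr fun X b _ K => (cf_neg m _).symm

theorem SN.sub {F F' : Tp k κ} (h : SN w κ F) (h' : SN w κ F') :
    SN w κ (fun X b K => F X b K - F' X b K) :=
  fun m => ((h m).sub (h' m)).congr fun X b _ K => (cf_sub m _ _).symm

theorem SN.zero [Finite κ] : SN (k := k) w κ (fun _ _ _ => 0) :=
  fun m => (NF.zero (k := k)).congr fun X b _ K => (cf_zero m).symm

theorem SN.comp {F : Tp k κ} (h : SN w κ F) (e : κ → μ) (he : Function.Bijective e) :
    SN w μ (fun X b K => F X b (fun s => K (e s))) :=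
  fun m => (h m).comp e he

theorem SN.mulP {ι : Type} [Finite ι] {F : Tp k κ} {F' : Tp k μ} (h : SN w κ F)
    (h' : SN w' μ F') (hw : w + w' = w'') (e : κ → ι) (e' : μ → ι)
    (he : Function.Bijective (Sum.elim e e')) :
    SN w'' ι (fun X b K => F X b (fun s => K (e s)) * F' X b (fun s => K (e' s))) := by
  intro m
  refine (NF.sum (Finset.HasAntidiagonal.antidiagonal m) (T := fun p X b K =>
    cf p.1 (F X b (fun s => K (e s))) * cf p.2 (F' X b (fun s => K (e' s)))) ?_).congr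
    fun X b _ K => (cf_mul m _ _).symm
  intro p hp
  rw [Finset.HasAntidiagonal.mem_antidiagonal] at hp
  refine NF.mulP (h p.1) (h' p.2) (EW_add ?_) e e' he
  rw [← hp, ← hw]; push_cast; abel

theorem SN.contr [Finite κ] {F : Tp k (Option (Option κ))}
    (h : SN w (Option (Option κ)) F) :
    SN w κ (fun X b K => ∑ i, ∑ j, cst (b.Gi i j) * F X b (ocons i (ocons j K))) := by
  intro m
  refine (h m).contr.congr fun X b _ K => ?_
  rw [cf_sum]
  refine Finset.sum_congr rfl fun i _ => ?_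
  rw [cf_sum]
  refine Finset.sum_congr rfl fun j _ => ?_
  rw [cf_cst_mul]

/-- product and contraction -/
theorem SN.ct [Finite κ] {ι ι' : Type} {F : Tp k ι} {F' : Tp k ι'} (h : SN w ι F)
    (h' : SN w' ι' F') (hw : w + w' = w'') (e : ι → Option (Option κ))
    (e' : ι' → Option (Option κ)) (he : Function.Bijective (Sum.elim e e')) :
    SN w'' κ (fun X b K => ∑ i, ∑ j, cst (b.Gi i j)
      * (F X b (fun s => ocons i (ocons j K) (e s)) * F' X b (fun s => ocons i (ocons j K) (e' s)))) := by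
  have h1 := SN.mulP h h' hw e e' he
  exact h1.contr

theorem SN.ofNF [Finite κ] {z : WithTop ℤ} {T : Tk (k + 1) Fd ρF κ} (h : NF (EW z) κ T) :
    SN z κ (fun X b K => cst (T X b K)) := by
  intro m
  rcases Nat.eq_zero_or_pos m with hm | hm
  · subst hm
    refine (h.ew (by simp)).congr fun X b _ K => ?_
    rw [cf_cst, if_pos rfl]
  · refine (NF.zero (k := k)).congr fun X b _ K => ?_
    rw [cf_cst, if_neg (by omega)]

theorem SN.intg [Finite κ] {F : Tp k κ} (h : SN w κ F) (hw : w' + 1 = w) :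
    SN w' κ (fun X b K => (itg (F X b K : PowerSeries X.R) : PowerSeries X.R)) := by
  intro m
  cases m with
  | zero =>
    refine (NF.zero (k := k)).congr fun X b _ K => ?_
    exact (itg_coeff_zero (F X b K : PowerSeries X.R)).symm
  | succ m =>
    refine (((h m).smul ((1 : ℝ) / (m + 1))).ew (by rw [← hw]; push_cast; abel)).congr
      fun X b _ K => ?_
    exact (itg_coeff_succ (F X b K : PowerSeries X.R) m).symm

/-- the series `r` -/
noncomputable def rr (X : DR (k + 1)) : X.ps.R := (PowerSeries.X : PowerSeries X.R)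

theorem cf_rr {X : DR (k + 1)} (m : ℕ) : cf m (rr X) = if m = 1 then 1 else 0 :=
  PowerSeries.coeff_X (R := X.R) m

theorem cf_rr_pow {X : DR (k + 1)} (m j : ℕ) : cf m (rr X ^ j) = if m = j then 1 else 0 :=
  PowerSeries.coeff_X_pow (R := X.R) m j

theorem SN.rr_pow (j : ℕ) (hw : (j : WithTop ℤ) + w = 0) :
    SN (k := k) w (Fin 0) (fun X _ _ => rr X ^ j) := by
  intro m
  by_cases hm : m = j
  · subst hm
    refine (NF.of (FS.one (E := EW (m + w)) ?_)).congr fun X b _ K => ?_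
    · rw [hw]; exact EW_zero
    · rw [cf_rr_pow, if_pos rfl]
  · refine (NF.zero (k := k)).congr fun X b _ K => ?_
    rw [cf_rr_pow, if_neg hm]

/-- constant Christoffel symbols -/
noncomputable def cA {X : DR (k + 1)} (b : HD X) (i l m : Fin (k + 1)) : X.ps.R := Hy.cst (b.A i l m)

theorem Fer.A0 {X : DR (k + 1)} {b : HD X} (hb : Fer b) (l m : Fin (k + 1)) : b.A 0 l m = 0 := by
  unfold BD.A chr
  have h0 : ∀ f, X.D 0 f = 0 := hb.d0
  have h1 : ∀ i m, X.D i (b.G 0 m) = 0 := by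
    intro i m
    refine Fin.cases ?_ (fun a => ?_) m
    · rw [hb.g00]; exact der_one X.isDer i
    · rw [hb.g0]; exact der_zero X.isDer i
  simp only [h0, h1, add_zero, sub_zero, mul_zero, Finset.sum_const_zero, smul_zero, zero_sub,
    neg_zero]

theorem SN.dd [Fintype κ] [DecidableEq κ] {F : Tp k κ} (h : SN w κ F) (hw : w + 1 = w') :
    SN w' (Option κ) (fun X b => DD X.ps.d (cA b) (F X b)) := by
  intro m
  have h1 : NF (k := k) (EW (m + w')) (Option κ) (fun X b => DD X.d b.A (fun K => cf m (F X b K))) := by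
    refine (h m).dd ?_
    intro g hg
    exact EW_add (by rw [← hw]; abel) g hg _ EW_one
  have h2 : NF (k := k) (EW 0) (Fin 1) (fun X b K => b.Φ Fd.nu K) := by
    refine NF.of (FS.field Fd.nu ?_ ?_)
    · rintro ⟨j, hj⟩; cases hj
    · intro _
      exact EW_zero
  have h3 := NF.mulP (E'' := EW (m + w')) h2 ((h (m + 1)).smul ((m : ℝ) + 1))
    (EW_add (by rw [← hw]; push_cast; abel)) (fun _ : Fin 1 => (none : Option κ)) some (by
      constructor
      · rintro (a | a) (a' | a') h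
        · rw [Subsingleton.elim a a']
        · cases h
        · cases h
        · simp only [Sum.elim_inr, Option.some.injEq] at h
          rw [h]
      · rintro (_ | s)
        · exact ⟨Sum.inl 0, rfl⟩
        · exact ⟨Sum.inr s, rfl⟩)
  refine (h3.add h1).congr fun X b hb K => ?_
  have e1 : ∀ (i : Fin (k + 1)) (f : X.ps.R), cf m (X.ps.d i f)
      = (if i = 0 then 1 else 0) * (((m : ℝ) + 1) • cf (m + 1) f) + X.d i (cf m f) := by
    intro i f
    refine Fin.cases ?_ (fun a => ?_) i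
    · rw [if_pos rfl, one_mul, hb.d0, add_zero]; exact cf_d0 m f
    · rw [if_neg (Fin.succ_ne_zero a), zero_mul, zero_add]; exact cf_ds m a f
  unfold Run7.h96.DD cov act
  rw [cf_sub, e1, cf_sum, hb.nu]
  have e2 : ∀ s : κ, cf m (∑ l, cA b (K none) l (K (some s))
        * F X b (Function.update (fun s => K (some s)) s l))
      = ∑ l, b.A (K none) l (K (some s)) * cf m (F X b (Function.update (fun s => K (some s)) s l)) := by
    intro s
    rw [cf_sum]
    refine Finset.sum_congr rfl fun l _ => ?_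
    exact cf_cst_mul m _ _
  simp only [e2]
  ring

theorem SN.gx : SN (k := k) 0 (Fin 2) (fun X b K => gX b (K 0) (K 1)) := by
  intro m
  cases m with
  | zero =>
    refine (NF.of (FS.metr (E := EW ((0 : ℕ) + 0)) ?_)).congr fun X b _ K => ?_
    · have : ((0 : ℕ) : WithTop ℤ) + 0 = 0 := by simp
      rw [this]; exact EW_zero
    · exact (gX_coeff b (K 0) (K 1) 0).symm
  | succ m =>
    refine (NF.of (FS.field (E := EW ((m + 1 : ℕ) + 0)) (Fd.h m) ?_ ?_)).congr fun X b _ K => ?_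
    · intro _
      right
      rw [wt_single]; simp
    · intro h; exact absurd ⟨m, rfl⟩ h
    · refine Eq.trans ?_ (gX_coeff b (K 0) (K 1) (m + 1)).symm
      show b.Φ (Fd.h m) K = b.Φ (Fd.h m) ![K 0, K 1]
      congr 1
      funext s
      fin_cases s <;> rfl

end SNl

end Run7.h96.Hy

end

section

/-!
Christoffel symbols, Ricci tensor, Hessian and Lie derivative in terms of a torsion free
background connection.
-/

set_option linter.all false
set_option maxHeartbeats 400000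

open scoped BigOperators

namespace Run7.h96.Hy

open CInv

section Bg

variable {n : ℕ} {A : Type} [CommRing A] [Algebra ℝ A] {D : Fin n → A → A}
    {g gi : Fin n → Fin n → A}

/-- covariant derivative of a 2-tensor -/
def nb2 (D : Fin n → A → A) (Γ : Fin n → Fin n → Fin n → A) (T : Fin n → Fin n → A)
    (i j l : Fin n) : A :=
  D i (T j l) - (∑ p, Γ i p j * T p l + ∑ p, Γ i p l * T j p)

/-- difference of the Levi-Civita connection and the background connection -/
noncomputable def bC (D : Fin n → A → A) (Γ : Fin n → Fin n → Fin n → A)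
    (g gi : Fin n → Fin n → A) (l i j : Fin n) : A :=
  (1 / 2 : ℝ) • ∑ m, gi l m * (nb2 D Γ g i j m + nb2 D Γ g j i m - nb2 D Γ g m i j)

theorem chr_bg (h : IsMetric g gi) (Γ : Fin n → Fin n → Fin n → A)
    (hΓ : ∀ i l m, Γ i l m = Γ m l i) (l i j : Fin n) :
    chr D g gi l i j = Γ i l j + bC D Γ g gi l i j := by
  have h1 : ∀ m, D i (g j m) + D j (g i m) - D m (g i j)
      = (nb2 D Γ g i j m + nb2 D Γ g j i m - nb2 D Γ g m i j)
        + (2 : ℝ) • ∑ p, Γ i p j * g p m := by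
    intro m
    unfold nb2
    have e1 : ∑ p, Γ m p i * g p j = ∑ p, Γ i p m * g j p :=
      Finset.sum_congr rfl fun p _ => by rw [hΓ m p i, h.symm p j]
    have e2 : ∑ p, Γ m p j * g i p = ∑ p, Γ j p m * g i p :=
      Finset.sum_congr rfl fun p _ => by rw [hΓ m p j]
    have e3 : ∑ p, Γ j p i * g p m = ∑ p, Γ i p j * g p m :=
      Finset.sum_congr rfl fun p _ => by rw [hΓ j p i]
    rw [e1, e2, e3, two_smul]
    ring
  unfold chr bC
  simp only [h1, mul_add, Finset.sum_add_distrib, smul_add]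
  rw [add_comm]
  congr 1
  have e4 : ∑ m, gi l m * ((2 : ℝ) • ∑ p, Γ i p j * g p m)
      = (2 : ℝ) • ∑ p, Γ i p j * ∑ m, g p m * gi m l := by
    rw [Finset.smul_sum]
    simp only [mul_smul_comm, Finset.mul_sum, ← Finset.smul_sum]
    congr 1
    rw [Finset.sum_comm]
    refine Finset.sum_congr rfl fun p _ => Finset.sum_congr rfl fun m _ => ?_
    rw [(gi_symm h).1 l m]; ring
  rw [e4]
  simp only [h.inv]
  rw [smul_smul]
  norm_num

theorem bC_symm (h : IsMetric g gi) (Γ : Fin n → Fin n → Fin n → A)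
    (hΓ : ∀ i l m, Γ i l m = Γ m l i) (l i j : Fin n) :
    bC D Γ g gi l i j = bC D Γ g gi l j i := by
  unfold bC
  congr 1
  refine Finset.sum_congr rfl fun m _ => ?_
  congr 1
  have : nb2 D Γ g m i j = nb2 D Γ g m j i := by
    unfold nb2
    rw [h.symm i j]
    have e1 : ∑ p, Γ m p i * g p j = ∑ p, Γ m p i * g j p :=
      Finset.sum_congr rfl fun p _ => by rw [h.symm p j]
    have e2 : ∑ p, Γ m p j * g i p = ∑ p, Γ m p j * g p i :=
      Finset.sum_congr rfl fun p _ => by rw [h.symm i p]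
    rw [e1, e2]; ring
  rw [this]; ring

/-- covariant derivative of a tensor with one upper index -/
def nbC (D : Fin n → A → A) (Γ : Fin n → Fin n → Fin n → A) (C : Fin n → Fin n → Fin n → A)
    (m k i j : Fin n) : A :=
  D m (C k i j) + (∑ l, Γ m k l * C l i j) - (∑ l, Γ m l i * C k l j) - ∑ l, Γ m l j * C k i l

/-- Ricci tensor of the background connection -/
def bRic (D : Fin n → A → A) (Γ : Fin n → Fin n → Fin n → A) (i j : Fin n) : A :=
  (∑ k, (D k (Γ i k j) - D j (Γ i k k)))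
    + ∑ k, ∑ l, (Γ k k l * Γ i l j - Γ j k l * Γ i l k)

theorem ric_bg (hD : IsDer D) (h : IsMetric g gi) (Γ : Fin n → Fin n → Fin n → A)
    (hΓ : ∀ i l m, Γ i l m = Γ m l i) (i j : Fin n) :
    ric D g gi i j = bRic D Γ i j
      + ((∑ k, nbC D Γ (bC D Γ g gi) k k i j) - ∑ k, nbC D Γ (bC D Γ g gi) j k i k)
      + ((∑ k, ∑ l, bC D Γ g gi k k l * bC D Γ g gi l i j)
        - ∑ k, ∑ l, bC D Γ g gi k j l * bC D Γ g gi l i k) := by
  have hs := bC_symm (D := D) h Γ hΓ
  set C := bC D Γ g gi with hC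
  have e1 : (∑ k, nbC D Γ C k k i j) - ∑ k, nbC D Γ C j k i k
      = (∑ k, (D k (C k i j) - D j (C k i k)))
        + ∑ k, ∑ l, (Γ k k l * C l i j - Γ i l k * C k j l - Γ j k l * C l i k
          + Γ i l j * C k k l) := by
    rw [← Finset.sum_sub_distrib, ← Finset.sum_add_distrib]
    refine Finset.sum_congr rfl fun k _ => ?_
    unfold nbC
    simp only [Finset.sum_add_distrib, Finset.sum_sub_distrib]
    have a1 : ∑ l, Γ k l i * C k l j = ∑ l, Γ i l k * C k j l :=
      Finset.sum_congr rfl fun l _ => by rw [hΓ k l i, hs k l j]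
    have a2 : ∑ l, Γ k l j * C k i l = ∑ l, Γ j l k * C k i l :=
      Finset.sum_congr rfl fun l _ => by rw [hΓ k l j]
    have a3 : ∑ l, Γ j l i * C k l k = ∑ l, Γ i l j * C k k l :=
      Finset.sum_congr rfl fun l _ => by rw [hΓ j l i, hs k l k]
    rw [a1, a2, a3]
    ring
  rw [e1]
  unfold ric bRic
  simp only [chr_bg h Γ hΓ, ← hC, hD.add]
  have e2 : ∀ k l, (Γ k k l + C k k l) * (Γ i l j + C l i j)
      - (Γ j k l + C k j l) * (Γ i l k + C l i k)
      = (Γ k k l * Γ i l j - Γ j k l * Γ i l k)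
        + (Γ k k l * C l i j - Γ i l k * C k j l - Γ j k l * C l i k + Γ i l j * C k k l)
        + (C k k l * C l i j - C k j l * C l i k) := by
    intro k l; ring
  have e3 : ∀ k, D k (Γ i k j) + D k (C k i j) - (D j (Γ i k k) + D j (C k i k))
      = (D k (Γ i k j) - D j (Γ i k k)) + (D k (C k i j) - D j (C k i k)) := by
    intro k; ring
  simp only [e2, e3, Finset.sum_add_distrib, Finset.sum_sub_distrib]
  ring

theorem hess_bg (h : IsMetric g gi) (Γ : Fin n → Fin n → Fin n → A)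
    (hΓ : ∀ i l m, Γ i l m = Γ m l i) (f : A) (i j : Fin n) :
    hess D g gi f i j = (D i (D j f) - ∑ l, Γ i l j * D l f) - ∑ l, bC D Γ g gi l i j * D l f := by
  unfold hess
  simp only [chr_bg h Γ hΓ, add_mul, Finset.sum_add_distrib]
  ring

/-- covariant derivative of a vector field -/
def nbV (D : Fin n → A → A) (Γ : Fin n → Fin n → Fin n → A) (V : Fin n → A) (i a : Fin n) : A :=
  D i (V a) + ∑ l, Γ i a l * V l

theorem lie_bg (h : IsMetric g gi) (Γ : Fin n → Fin n → Fin n → A)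
    (hΓ : ∀ i l m, Γ i l m = Γ m l i) (V : Fin n → A) (i j : Fin n) :
    lie D V g i j = (∑ a, V a * nb2 D Γ g a i j) + (∑ a, nbV D Γ V i a * g a j)
      + ∑ a, nbV D Γ V j a * g i a := by
  unfold lie nb2 nbV
  simp only [mul_sub, mul_add, add_mul, Finset.sum_add_distrib, Finset.sum_sub_distrib,
    Finset.mul_sum, Finset.sum_mul]
  have e1 : ∑ a, ∑ p, V a * (Γ a p i * g p j) = ∑ a, ∑ l, Γ i a l * V l * g a j := by
    rw [Finset.sum_comm]
    refine Finset.sum_congr rfl fun p _ => Finset.sum_congr rfl fun a _ => ?_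
    rw [hΓ a p i]; ring
  have e2 : ∑ a, ∑ p, V a * (Γ a p j * g i p) = ∑ a, ∑ l, Γ j a l * V l * g i a := by
    rw [Finset.sum_comm]
    refine Finset.sum_congr rfl fun p _ => Finset.sum_congr rfl fun a _ => ?_
    rw [hΓ a p j]; ring
  rw [e1, e2]
  ring

/-- an array with an upper index obtained from a lower one -/
def upC (Gi : Fin n → Fin n → A) (T : Fin n → Fin n → Fin n → A) (l i j : Fin n) : A :=
  ∑ m, Gi l m * T m i j

/-- covariant derivative of a 3-tensor -/
def nb3 (D : Fin n → A → A) (Γ : Fin n → Fin n → Fin n → A) (T : Fin n → Fin n → Fin n → A)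
    (m l i j : Fin n) : A :=
  D m (T l i j) - (∑ p, Γ m p l * T p i j + ∑ p, Γ m p i * T l p j + ∑ p, Γ m p j * T l i p)

theorem nbC_up (hD : IsDer D) {Gi : Fin n → Fin n → A} {Γ : Fin n → Fin n → Fin n → A}
    (hGi : ∀ i l m, D i (Gi l m) = -(∑ p, Γ i l p * Gi p m) - ∑ p, Γ i m p * Gi l p)
    (T : Fin n → Fin n → Fin n → A) (m k i j : Fin n) :
    nbC D Γ (upC Gi T) m k i j = ∑ q, Gi k q * nb3 D Γ T m q i j := by
  unfold nbC nb3 upC
  have e0 : D m (∑ q, Gi k q * T q i j) = ∑ q, (Gi k q * D m (T q i j)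
      - (∑ p, Γ m k p * Gi p q) * T q i j - (∑ p, Γ m q p * Gi k p) * T q i j) := by
    rw [der_sum hD]
    refine Finset.sum_congr rfl fun q _ => ?_
    rw [hD.mul, hGi]; ring
  rw [e0]
  simp only [mul_sub, mul_add, Finset.sum_add_distrib, Finset.sum_sub_distrib,
    Finset.mul_sum, Finset.sum_mul]
  have e1 : ∑ q, ∑ p, Γ m k p * Gi p q * T q i j = ∑ l, ∑ q, Γ m k l * (Gi l q * T q i j) := by
    rw [Finset.sum_comm]
    refine Finset.sum_congr rfl fun p _ => Finset.sum_congr rfl fun q _ => by ring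
  have e2 : ∑ q, ∑ p, Γ m q p * Gi k p * T q i j = ∑ q, ∑ p, Gi k q * (Γ m p q * T p i j) := by
    rw [Finset.sum_comm]
    refine Finset.sum_congr rfl fun p _ => Finset.sum_congr rfl fun q _ => by ring
  have e3 : ∑ l, ∑ q, Γ m l i * (Gi k q * T q l j) = ∑ q, ∑ p, Gi k q * (Γ m p i * T q p j) := by
    rw [Finset.sum_comm]
    refine Finset.sum_congr rfl fun p _ => Finset.sum_congr rfl fun q _ => by ring
  have e4 : ∑ l, ∑ q, Γ m l j * (Gi k q * T q i l) = ∑ q, ∑ p, Gi k q * (Γ m p j * T q i p) := by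
    rw [Finset.sum_comm]
    refine Finset.sum_congr rfl fun p _ => Finset.sum_congr rfl fun q _ => by ring
  rw [e1, e2, e3, e4]
  ring

theorem nbV_up (hD : IsDer D) {Gi : Fin n → Fin n → A} {Γ : Fin n → Fin n → Fin n → A}
    (hGi : ∀ i l m, D i (Gi l m) = -(∑ p, Γ i l p * Gi p m) - ∑ p, Γ i m p * Gi l p)
    (v : Fin n → A) (i a : Fin n) :
    nbV D Γ (fun a => ∑ m, Gi a m * v m) i a = ∑ m, Gi a m * (D i (v m) - ∑ l, Γ i l m * v l) := by
  unfold nbV
  have e0 : D i (∑ q, Gi a q * v q) = ∑ q, (Gi a q * D i (v q)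
      - (∑ p, Γ i a p * Gi p q) * v q - (∑ p, Γ i q p * Gi a p) * v q) := by
    rw [der_sum hD]
    refine Finset.sum_congr rfl fun q _ => ?_
    rw [hD.mul, hGi]; ring
  rw [e0]
  simp only [mul_sub, Finset.sum_sub_distrib, Finset.mul_sum, Finset.sum_mul]
  have e1 : ∑ q, ∑ p, Γ i a p * Gi p q * v q = ∑ l, ∑ q, Γ i a l * (Gi l q * v q) := by
    rw [Finset.sum_comm]
    refine Finset.sum_congr rfl fun p _ => Finset.sum_congr rfl fun q _ => by ring
  have e2 : ∑ q, ∑ p, Γ i q p * Gi a p * v q = ∑ q, ∑ p, Gi a q * (Γ i p q * v p) := by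
    rw [Finset.sum_comm]
    refine Finset.sum_congr rfl fun p _ => Finset.sum_congr rfl fun q _ => by ring
  rw [e1, e2]
  ring

end Bg

end Run7.h96.Hy

end

section

/-!
Naturality of the geometry of the metric `dr² + h_r`.
-/

set_option linter.all false
set_option maxHeartbeats 400000

open scoped BigOperators

namespace Run7.h96.Hy

open CInv

variable {k : ℕ}

/-- natural series with 0, 1, 2, 3, 4 slots -/
def S0 (w : WithTop ℤ) (f : ∀ X : DR (k + 1), HD X → X.ps.R) : Prop :=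
  SN w (Fin 0) (fun X b _ => f X b)
def S1 (w : WithTop ℤ) (f : ∀ X : DR (k + 1), HD X → Fin (k + 1) → X.ps.R) : Prop :=
  SN w (Fin 1) (fun X b K => f X b (K 0))
def S2 (w : WithTop ℤ) (f : ∀ X : DR (k + 1), HD X → Fin (k + 1) → Fin (k + 1) → X.ps.R) : Prop :=
  SN w (Fin 2) (fun X b K => f X b (K 0) (K 1))
def S3 (w : WithTop ℤ) (f : ∀ X : DR (k + 1), HD X → Fin (k + 1) → Fin (k + 1) → Fin (k + 1)
    → X.ps.R) : Prop :=
  SN w (Fin 3) (fun X b K => f X b (K 0) (K 1) (K 2))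
def S4 (w : WithTop ℤ) (f : ∀ X : DR (k + 1), HD X → Fin (k + 1) → Fin (k + 1) → Fin (k + 1)
    → Fin (k + 1) → X.ps.R) : Prop :=
  SN w (Fin 4) (fun X b K => f X b (K 0) (K 1) (K 2) (K 3))

section Sl

variable {w w' w'' : WithTop ℤ}

theorem S0.congr {f f' : ∀ X : DR (k + 1), HD X → X.ps.R} (h : S0 w f)
    (hf : ∀ (X : DR (k + 1)) (b : HD X), Fer b → f X b = f' X b) : S0 w f' :=
  SN.congr h fun X b hb K => hf X b hb
theorem S1.congr {f f' : ∀ X : DR (k + 1), HD X → Fin (k + 1) → X.ps.R} (h : S1 w f)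
    (hf : ∀ (X : DR (k + 1)) (b : HD X), Fer b → ∀ i, f X b i = f' X b i) : S1 w f' :=
  SN.congr h fun X b hb K => hf X b hb _
theorem S2.congr {f f' : ∀ X : DR (k + 1), HD X → Fin (k + 1) → Fin (k + 1) → X.ps.R} (h : S2 w f)
    (hf : ∀ (X : DR (k + 1)) (b : HD X), Fer b → ∀ i j, f X b i j = f' X b i j) : S2 w f' :=
  SN.congr h fun X b hb K => hf X b hb _ _
theorem S3.congr {f f' : ∀ X : DR (k + 1), HD X → Fin (k + 1) → Fin (k + 1) → Fin (k + 1)
    → X.ps.R} (h : S3 w f)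
    (hf : ∀ (X : DR (k + 1)) (b : HD X), Fer b → ∀ i j l, f X b i j l = f' X b i j l) : S3 w f' :=
  SN.congr h fun X b hb K => hf X b hb _ _ _
theorem S4.congr {f f' : ∀ X : DR (k + 1), HD X → Fin (k + 1) → Fin (k + 1) → Fin (k + 1)
    → Fin (k + 1) → X.ps.R} (h : S4 w f)
    (hf : ∀ (X : DR (k + 1)) (b : HD X), Fer b → ∀ i j l m, f X b i j l m = f' X b i j l m) :
    S4 w f' :=
  SN.congr h fun X b hb K => hf X b hb _ _ _ _

theorem S0.d {f : ∀ X : DR (k + 1), HD X → X.ps.R} (h : S0 w f) (hw : w + 1 = w') :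
    S1 w' (fun X b i => X.ps.D i (f X b)) := by
  have h1 := (SN.dd h hw).comp (fun _ => (0 : Fin 1)) (by decide)
  refine SN.congr h1 fun X b hb K => ?_
  unfold Run7.h96.DD cov act
  simp
  rfl

theorem S1.d {f : ∀ X : DR (k + 1), HD X → Fin (k + 1) → X.ps.R} (h : S1 w f) (hw : w + 1 = w') :
    S2 w' (fun X b i j => X.ps.D i (f X b j) - ∑ l, cA b i l j * f X b l) := by
  have h1 := (SN.dd h hw).comp (fun o : Option (Fin 1) => (o.elim 0 Fin.succ : Fin 2)) (by decide)
  refine SN.congr h1 fun X b hb K => ?_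
  unfold Run7.h96.DD cov act
  simp
  rfl

theorem S2.d {f : ∀ X : DR (k + 1), HD X → Fin (k + 1) → Fin (k + 1) → X.ps.R} (h : S2 w f)
    (hw : w + 1 = w') : S3 w' (fun X b i j l => nb2 X.ps.D (cA b) (f X b) i j l) := by
  have h1 := (SN.dd h hw).comp (fun o : Option (Fin 2) => (o.elim 0 Fin.succ : Fin 3)) (by decide)
  refine SN.congr h1 fun X b hb K => ?_
  unfold Run7.h96.DD cov act nb2
  rw [Fin.sum_univ_two]
  simp
  rfl

theorem S3.d {f : ∀ X : DR (k + 1), HD X → Fin (k + 1) → Fin (k + 1) → Fin (k + 1) → X.ps.R}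
    (h : S3 w f) (hw : w + 1 = w') :
    S4 w' (fun X b i j l m => nb3 X.ps.D (cA b) (f X b) i j l m) := by
  have h1 := (SN.dd h hw).comp (fun o : Option (Fin 3) => (o.elim 0 Fin.succ : Fin 4)) (by decide)
  refine SN.congr h1 fun X b hb K => ?_
  unfold Run7.h96.DD cov act nb3
  rw [Fin.sum_univ_three]
  simp
  rfl

theorem S0.mul {f f' : ∀ X : DR (k + 1), HD X → X.ps.R} (h : S0 w f) (h' : S0 w' f')
    (hw : w + w' = w'') : S0 w'' (fun X b => f X b * f' X b) :=
  SN.mulP h h' hw (fun s => s) (fun s => s) (by decide)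

theorem S0.mul2 {f : ∀ X : DR (k + 1), HD X → X.ps.R}
    {T : ∀ X : DR (k + 1), HD X → Fin (k + 1) → Fin (k + 1) → X.ps.R} (h : S0 w f) (h' : S2 w' T)
    (hw : w + w' = w'') : S2 w'' (fun X b i j => f X b * T X b i j) :=
  SN.mulP h h' hw (fun s : Fin 0 => (s.elim0 : Fin 2)) (fun s : Fin 2 => s) (by decide)

/-- `∑ Gi l m T m i j v l` -/
theorem S3.v {T : ∀ X : DR (k + 1), HD X → Fin (k + 1) → Fin (k + 1) → Fin (k + 1) → X.ps.R}
    {v : ∀ X : DR (k + 1), HD X → Fin (k + 1) → X.ps.R} (h : S3 w T) (h' : S1 w' v)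
    (hw : w + w' = w'') :
    S2 w'' (fun X b i j => ∑ l, ∑ m, cst (b.Gi l m) * (T X b m i j * v X b l)) := by
  refine SN.congr (SN.ct (κ := Fin 2) h h' hw ![some none, some (some 0), some (some 1)] ![none]
    (by decide)) fun X b hb K => ?_
  rfl

/-- `∑ Gi l m M i l N m j` -/
theorem S2.mm {T T' : ∀ X : DR (k + 1), HD X → Fin (k + 1) → Fin (k + 1) → X.ps.R} (h : S2 w T)
    (h' : S2 w' T') (hw : w + w' = w'') :
    S2 w'' (fun X b i j => ∑ l, ∑ m, cst (b.Gi l m) * (T X b i l * T' X b m j)) := by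
  refine SN.congr (SN.ct (κ := Fin 2) h h' hw ![some (some 0), none] ![some none, some (some 1)]
    (by decide)) fun X b hb K => ?_
  rfl

/-- `∑ Gi l m M i l v m` -/
theorem S2.v {T : ∀ X : DR (k + 1), HD X → Fin (k + 1) → Fin (k + 1) → X.ps.R}
    {v : ∀ X : DR (k + 1), HD X → Fin (k + 1) → X.ps.R} (h : S2 w T)
    (h' : S1 w' v) (hw : w + w' = w'') :
    S1 w'' (fun X b i => ∑ l, ∑ m, cst (b.Gi l m) * (T X b i l * v X b m)) := by
  refine SN.congr (SN.ct (κ := Fin 1) h h' hw ![some (some 0), none] ![some none]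
    (by decide)) fun X b hb K => ?_
  rfl

/-- `∑ Gi l m v l v' m` -/
theorem S1.v {v v' : ∀ X : DR (k + 1), HD X → Fin (k + 1) → X.ps.R} (h : S1 w v)
    (h' : S1 w' v') (hw : w + w' = w'') :
    S0 w'' (fun X b => ∑ l, ∑ m, cst (b.Gi l m) * (v X b l * v' X b m)) := by
  refine SN.congr (SN.ct (κ := Fin 0) h h' hw ![none] ![some none]
    (by decide)) fun X b hb K => ?_
  rfl

/-- trace -/
theorem S2.tr {T : ∀ X : DR (k + 1), HD X → Fin (k + 1) → Fin (k + 1) → X.ps.R} (h : S2 w T) :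
    S0 w (fun X b => ∑ l, ∑ m, cst (b.Gi l m) * T X b l m) := by
  have h1 := SN.comp h (![none, some none] : Fin 2 → Option (Option (Fin 0))) (by decide)
  refine SN.congr h1.contr fun X b hb K => ?_
  rfl

/-- `∑ Gi l m M i l N m j j'` -/
theorem S2.m3 {T : ∀ X : DR (k + 1), HD X → Fin (k + 1) → Fin (k + 1) → X.ps.R}
    {T' : ∀ X : DR (k + 1), HD X → Fin (k + 1) → Fin (k + 1) → Fin (k + 1) → X.ps.R} (h : S2 w T)
    (h' : S3 w' T') (hw : w + w' = w'') :
    S3 w'' (fun X b i j j' => ∑ l, ∑ m, cst (b.Gi l m) * (T X b i l * T' X b m j j')) := by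
  refine SN.congr (SN.ct (κ := Fin 3) h h' hw ![some (some 0), none]
    ![some none, some (some 1), some (some 2)] (by decide)) fun X b hb K => ?_
  rfl

/-- `∑ Gi l m T m k l` -/
theorem S3.tr {T : ∀ X : DR (k + 1), HD X → Fin (k + 1) → Fin (k + 1) → Fin (k + 1) → X.ps.R}
    (h : S3 w T) : S1 w (fun X b i => ∑ l, ∑ m, cst (b.Gi l m) * T X b m l i) := by
  have h1 := SN.comp h (![some none, none, some (some 0)] : Fin 3 → Option (Option (Fin 1)))
    (by decide)
  refine SN.congr h1.contr fun X b hb K => ?_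
  rfl

/-- `∑ Gi l p (T q j l * T p i k)` -/
theorem S3.tt {T T' : ∀ X : DR (k + 1), HD X → Fin (k + 1) → Fin (k + 1) → Fin (k + 1) → X.ps.R}
    (h : S3 w T) (h' : S3 w' T') (hw : w + w' = w'') :
    S4 w'' (fun X b i j q m => ∑ l, ∑ p, cst (b.Gi l p) * (T X b q j l * T' X b p i m)) := by
  refine SN.congr (SN.ct (κ := Fin 4) h h' hw ![some (some 2), some (some 1), none]
    ![some none, some (some 0), some (some 3)] (by decide)) fun X b hb K => ?_
  rfl

/-- traces of 4-tensors -/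
theorem S4.tr1 {T : ∀ X : DR (k + 1), HD X → Fin (k + 1) → Fin (k + 1) → Fin (k + 1)
    → Fin (k + 1) → X.ps.R} (h : S4 w T) :
    S2 w (fun X b i j => ∑ l, ∑ q, cst (b.Gi l q) * T X b l q i j) := by
  have h1 := SN.comp h (![none, some none, some (some 0), some (some 1)]
    : Fin 4 → Option (Option (Fin 2))) (by decide)
  refine SN.congr h1.contr fun X b hb K => ?_
  rfl

theorem S4.tr2 {T : ∀ X : DR (k + 1), HD X → Fin (k + 1) → Fin (k + 1) → Fin (k + 1)
    → Fin (k + 1) → X.ps.R} (h : S4 w T) :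
    S2 w (fun X b i j => ∑ l, ∑ q, cst (b.Gi l q) * T X b j q i l) := by
  have h1 := SN.comp h (![some (some 1), some none, some (some 0), none]
    : Fin 4 → Option (Option (Fin 2))) (by decide)
  refine SN.congr h1.contr fun X b hb K => ?_
  rfl

theorem S4.tr3 {T : ∀ X : DR (k + 1), HD X → Fin (k + 1) → Fin (k + 1) → Fin (k + 1)
    → Fin (k + 1) → X.ps.R} (h : S4 w T) :
    S2 w (fun X b i j => ∑ l, ∑ q, cst (b.Gi l q) * T X b i j q l) := by
  have h1 := SN.comp h (![some (some 0), some (some 1), some none, none]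
    : Fin 4 → Option (Option (Fin 2))) (by decide)
  refine SN.congr h1.contr fun X b hb K => ?_
  rfl

end Sl

/-! ### the inverse metric -/

section Geo

variable {X : DR (k + 1)} {b : HD X}

theorem cG_inv (b : HD X) (i j : Fin (k + 1)) :
    ∑ p, cst (b.G i p) * cst (b.Gi p j) = if i = j then 1 else 0 := by
  have h1 : ∀ p, cst (b.G i p) * cst (b.Gi p j) = cst (b.G i p * b.Gi p j) := fun p =>
    (cst_mul _ _).symm
  simp only [h1]
  rw [← cst_sum, b.inv]
  split_ifs
  · exact cst_one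
  · exact cst_zero

theorem cG_inv' (b : HD X) (i j : Fin (k + 1)) :
    ∑ p, cst (b.Gi i p) * cst (b.G p j) = if i = j then 1 else 0 := by
  have h1 : ∀ p, cst (b.Gi i p) * cst (b.G p j) = cst (b.Gi i p * b.G p j) := fun p =>
    (cst_mul _ _).symm
  simp only [h1]
  rw [← cst_sum, b.inv']
  split_ifs
  · exact cst_one
  · exact cst_zero

theorem cf_gX (b : HD X) (m : ℕ) (i j : Fin (k + 1)) : cf m (gX b i j) = hj b m i j :=
  gX_coeff b i j m

/-- the inverse metric with lowered indices -/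
noncomputable def nM (b : HD X) (p q : Fin (k + 1)) : X.ps.R :=
  ∑ i, ∑ j, cst (b.G p i) * (gXi b i j * cst (b.G j q))

theorem Gi_nM (b : HD X) (i q : Fin (k + 1)) :
    ∑ p, cst (b.Gi i p) * nM b p q = ∑ j, gXi b i j * cst (b.G j q) := by
  unfold nM
  have h1 : ∀ p, cst (b.Gi i p) * ∑ i', ∑ j, cst (b.G p i') * (gXi b i' j * cst (b.G j q))
      = ∑ i', (cst (b.Gi i p) * cst (b.G p i')) * ∑ j, gXi b i' j * cst (b.G j q) := by
    intro p
    simp only [Finset.mul_sum]
    refine Finset.sum_congr rfl fun i' _ => Finset.sum_congr rfl fun j _ => by ring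
  simp only [h1]
  rw [Finset.sum_comm]
  simp only [← Finset.sum_mul, cG_inv', ite_mul, one_mul, zero_mul, Finset.sum_ite_eq,
    Finset.mem_univ, if_true]

theorem gXi_nM (b : HD X) (i j : Fin (k + 1)) :
    gXi b i j = ∑ p, ∑ q, cst (b.Gi i p) * (nM b p q * cst (b.Gi q j)) := by
  have h1 : ∑ p, ∑ q, cst (b.Gi i p) * (nM b p q * cst (b.Gi q j))
      = ∑ q, (∑ p, cst (b.Gi i p) * nM b p q) * cst (b.Gi q j) := by
    rw [Finset.sum_comm]
    simp only [Finset.sum_mul]
    refine Finset.sum_congr rfl fun i' _ => Finset.sum_congr rfl fun j _ => by ring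
  rw [h1]
  simp only [Gi_nM]
  have h2 : ∀ q, (∑ l, gXi b i l * cst (b.G l q)) * cst (b.Gi q j)
      = ∑ l, gXi b i l * (cst (b.G l q) * cst (b.Gi q j)) := by
    intro q
    simp only [Finset.sum_mul]
    refine Finset.sum_congr rfl fun i' _ => by ring
  simp only [h2]
  rw [Finset.sum_comm]
  simp only [← Finset.mul_sum, cG_inv]
  simp

theorem gX_nM (hb : Fer b) (p q : Fin (k + 1)) :
    ∑ i, ∑ j, cst (b.Gi i j) * (gX b p i * nM b j q) = cst (b.G p q) := by
  have h1 : ∀ i, ∑ j, cst (b.Gi i j) * (gX b p i * nM b j q)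
      = ∑ l, (gX b p i * gXi b i l) * cst (b.G l q) := by
    intro i
    have : ∀ j, cst (b.Gi i j) * (gX b p i * nM b j q) = gX b p i * (cst (b.Gi i j) * nM b j q) := by
      intro j; ring
    simp only [this]
    rw [← Finset.mul_sum, Gi_nM, Finset.mul_sum]
    refine Finset.sum_congr rfl fun l _ => by ring
  simp only [h1]
  rw [Finset.sum_comm]
  simp only [← Finset.sum_mul, hb.metric.inv]
  simp

theorem nM_rec (hb : Fer b) (m : ℕ) (p q : Fin (k + 1)) :
    cf (m + 1) (nM b p q) = - ∑ a ∈ Finset.HasAntidiagonal.antidiagonal m,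
      ∑ i, ∑ j, b.Gi i j * (b.Φ (Fd.h a.1) ![p, i] * cf a.2 (nM b j q)) := by
  have h1 := congrArg (cf (m + 1)) (gX_nM hb p q)
  rw [cf_cst, if_neg (Nat.succ_ne_zero m), cf_sum] at h1
  have h2 : ∀ i, cf (m + 1) (∑ j, cst (b.Gi i j) * (gX b p i * nM b j q))
      = (∑ j, b.Gi i j * (b.G p i * cf (m + 1) (nM b j q)))
        + ∑ j, b.Gi i j * ∑ a ∈ Finset.HasAntidiagonal.antidiagonal m,
          (b.Φ (Fd.h a.1) ![p, i] * cf a.2 (nM b j q)) := by
    intro i
    rw [cf_sum, ← Finset.sum_add_distrib]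
    refine Finset.sum_congr rfl fun j _ => ?_
    rw [cf_cst_mul, cf_mul, ← mul_add]
    congr 1
    have := Finset.Nat.sum_antidiagonal_succ (n := m)
      (f := fun a => cf a.1 (gX b p i) * cf a.2 (nM b j q))
    rw [this]
    simp only [cf_gX]
    rfl
  simp only [h2, Finset.sum_add_distrib] at h1
  have h3 : ∑ i, ∑ j, b.Gi i j * (b.G p i * cf (m + 1) (nM b j q)) = cf (m + 1) (nM b p q) := by
    rw [Finset.sum_comm]
    have : ∀ j, ∑ i, b.Gi i j * (b.G p i * cf (m + 1) (nM b j q))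
        = (∑ i, b.G p i * b.Gi i j) * cf (m + 1) (nM b j q) := by
      intro j
      rw [Finset.sum_mul]
      refine Finset.sum_congr rfl fun i _ => by ring
    simp only [this, b.inv]
    simp
  have h4 : ∑ i, ∑ j, b.Gi i j * ∑ a ∈ Finset.HasAntidiagonal.antidiagonal m,
          (b.Φ (Fd.h a.1) ![p, i] * cf a.2 (nM b j q))
      = ∑ a ∈ Finset.HasAntidiagonal.antidiagonal m,
      ∑ i, ∑ j, b.Gi i j * (b.Φ (Fd.h a.1) ![p, i] * cf a.2 (nM b j q)) := by
    simp only [Finset.mul_sum]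
    rw [Finset.sum_congr rfl fun i _ => Finset.sum_comm]
    rw [Finset.sum_comm]
  rw [h3, h4] at h1
  exact eq_neg_of_add_eq_zero_left h1

end Geo

theorem NF.ct {E E' E'' : Set (Dg Fd)} {κ : Type} [Finite κ] {ι ι' : Type}
    {F : Tk (k + 1) Fd ρF ι} {F' : Tk (k + 1) Fd ρF ι'} (h : NF E ι F)
    (h' : NF E' ι' F') (hE : ∀ g ∈ E, ∀ g' ∈ E', g + g' ∈ E'') (e : ι → Option (Option κ))
    (e' : ι' → Option (Option κ)) (he : Function.Bijective (Sum.elim e e')) :
    NF E'' κ (fun X b K => ∑ i, ∑ j, b.Gi i j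
      * (F X b (fun s => ocons i (ocons j K) (e s)) * F' X b (fun s => ocons i (ocons j K) (e' s)))) := by
  have h1 := NF.mulP h h' hE e e' he
  exact h1.contr

theorem NF.hfield (a : ℕ) : NF (k := k) (EW ((a : ℕ) + 1)) (Fin 2)
    (fun X b K => b.Φ (Fd.h a) ![K 0, K 1]) := by
  refine (NF.of (FS.field (E := EW ((a : ℕ) + 1)) (Fd.h a) ?_ ?_)).congr fun X b _ K => ?_
  · intro _
    right
    rw [wt_single]; simp
  · intro h; exact absurd ⟨a, rfl⟩ h
  · show b.Φ (Fd.h a) K = b.Φ (Fd.h a) ![K 0, K 1]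
    congr 1
    funext s
    fin_cases s <;> rfl

theorem S2.nM : S2 (k := k) 0 (fun X b i j => nM b i j) := by
  have key : ∀ m : ℕ, ∀ m' ≤ m, NF (k := k) (EW ((m' : ℕ) + 0)) (Fin 2)
      (fun X b K => cf m' (Hy.nM b (K 0) (K 1))) := by
    intro m
    induction m with
    | zero =>
      intro m' hm'
      have : m' = 0 := by omega
      subst this
      refine (NF.of (FS.metr (E := EW ((0 : ℕ) + 0)) ?_)).congr fun X b hb K => ?_
      · have : ((0 : ℕ) : WithTop ℤ) + 0 = 0 := by simp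
        rw [this]; exact EW_zero
      · have h1 := congrArg (cf 0) (gX_nM hb (K 0) (K 1))
        rw [cf_cst, if_pos rfl, cf_sum] at h1
        show b.G (K 0) (K 1) = _
        rw [← h1]
        have h2 : ∀ i, cf 0 (∑ j, cst (b.Gi i j) * (gX b (K 0) i * Hy.nM b j (K 1)))
            = ∑ j, b.Gi i j * (b.G (K 0) i * cf 0 (Hy.nM b j (K 1))) := by
          intro i
          rw [cf_sum]
          refine Finset.sum_congr rfl fun j _ => ?_
          rw [cf_cst_mul, cf_mul]
          simp [cf_gX]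
          rfl
        simp only [h2]
        rw [Finset.sum_comm]
        have : ∀ j, ∑ i, b.Gi i j * (b.G (K 0) i * cf 0 (Hy.nM b j (K 1)))
            = (∑ i, b.G (K 0) i * b.Gi i j) * cf 0 (Hy.nM b j (K 1)) := by
          intro j
          rw [Finset.sum_mul]
          refine Finset.sum_congr rfl fun i _ => by ring
        simp only [this, b.inv]
        simp
    | succ m ih =>
      intro m' hm'
      rcases Nat.lt_or_ge m' (m + 1) with h | h
      · exact ih m' (by omega)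
      have : m' = m + 1 := by omega
      subst this
      refine NF.congr (NF.neg (NF.sum (Finset.HasAntidiagonal.antidiagonal m) (T := fun a X b K =>
        ∑ i, ∑ j, b.Gi i j * (b.Φ (Fd.h a.1) ![K 0, i] * cf a.2 (Hy.nM b j (K 1)))) ?_))
        fun X b hb K => (nM_rec hb m (K 0) (K 1)).symm
      intro a ha
      rw [Finset.HasAntidiagonal.mem_antidiagonal] at ha
      have h1 := ih a.2 (by omega)
      refine (NF.ct (κ := Fin 2) (NF.hfield a.1) h1 (E'' := EW (((m + 1 : ℕ) : WithTop ℤ) + 0))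
        (EW_add ?_) ![some (some 0), none] ![some none, some (some 1)] (by decide)).congr
        fun X b hb K => ?_
      · rw [← ha]; push_cast; abel
      · rfl
  exact fun m => key m m le_rfl

end Run7.h96.Hy

end

section

/-!
Naturality of the Hessian, the Ricci tensor, traces, integrals and Lie derivatives.
-/

set_option linter.all false
set_option maxHeartbeats 400000

open scoped BigOperators

namespace Run7.h96.Hy

open CInv

variable {k : ℕ}

section Perm

variable {w w' w'' : WithTop ℤ}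

theorem S0.add {T T' : ∀ X : DR (k + 1), HD X → X.ps.R} (h : S0 w T)
    (h' : S0 w T') : S0 w (fun X b => T X b + T' X b) := SN.add h h'
theorem S0.sub {T T' : ∀ X : DR (k + 1), HD X → X.ps.R} (h : S0 w T)
    (h' : S0 w T') : S0 w (fun X b => T X b - T' X b) := SN.sub h h'
theorem S0.smul {T : ∀ X : DR (k + 1), HD X → X.ps.R} (h : S0 w T)
    (t : ℝ) : S0 w (fun X b => t • T X b) := SN.smul h t
theorem S0.neg {T : ∀ X : DR (k + 1), HD X → X.ps.R} (h : S0 w T) :
    S0 w (fun X b => - T X b) := SN.neg h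
theorem S1.add {T T' : ∀ X : DR (k + 1), HD X → Fin (k + 1) → X.ps.R} (h : S1 w T)
    (h' : S1 w T') : S1 w (fun X b i => T X b i + T' X b i) := SN.add h h'
theorem S1.sub {T T' : ∀ X : DR (k + 1), HD X → Fin (k + 1) → X.ps.R} (h : S1 w T)
    (h' : S1 w T') : S1 w (fun X b i => T X b i - T' X b i) := SN.sub h h'
theorem S1.smul {T : ∀ X : DR (k + 1), HD X → Fin (k + 1) → X.ps.R} (h : S1 w T)
    (t : ℝ) : S1 w (fun X b i => t • T X b i) := SN.smul h t
theorem S1.neg {T : ∀ X : DR (k + 1), HD X → Fin (k + 1) → X.ps.R} (h : S1 w T) :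
    S1 w (fun X b i => - T X b i) := SN.neg h
theorem S2.add {T T' : ∀ X : DR (k + 1), HD X → Fin (k + 1) → Fin (k + 1) → X.ps.R} (h : S2 w T)
    (h' : S2 w T') : S2 w (fun X b i j => T X b i j + T' X b i j) := SN.add h h'
theorem S2.sub {T T' : ∀ X : DR (k + 1), HD X → Fin (k + 1) → Fin (k + 1) → X.ps.R} (h : S2 w T)
    (h' : S2 w T') : S2 w (fun X b i j => T X b i j - T' X b i j) := SN.sub h h'
theorem S2.smul {T : ∀ X : DR (k + 1), HD X → Fin (k + 1) → Fin (k + 1) → X.ps.R} (h : S2 w T)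
    (t : ℝ) : S2 w (fun X b i j => t • T X b i j) := SN.smul h t
theorem S2.neg {T : ∀ X : DR (k + 1), HD X → Fin (k + 1) → Fin (k + 1) → X.ps.R} (h : S2 w T) :
    S2 w (fun X b i j => - T X b i j) := SN.neg h
theorem S3.add {T T' : ∀ X : DR (k + 1), HD X → Fin (k + 1) → Fin (k + 1) → Fin (k + 1) → X.ps.R} (h : S3 w T)
    (h' : S3 w T') : S3 w (fun X b i j l => T X b i j l + T' X b i j l) := SN.add h h'
theorem S3.sub {T T' : ∀ X : DR (k + 1), HD X → Fin (k + 1) → Fin (k + 1) → Fin (k + 1) → X.ps.R} (h : S3 w T)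
    (h' : S3 w T') : S3 w (fun X b i j l => T X b i j l - T' X b i j l) := SN.sub h h'
theorem S3.smul {T : ∀ X : DR (k + 1), HD X → Fin (k + 1) → Fin (k + 1) → Fin (k + 1) → X.ps.R} (h : S3 w T)
    (t : ℝ) : S3 w (fun X b i j l => t • T X b i j l) := SN.smul h t
theorem S3.neg {T : ∀ X : DR (k + 1), HD X → Fin (k + 1) → Fin (k + 1) → Fin (k + 1) → X.ps.R} (h : S3 w T) :
    S3 w (fun X b i j l => - T X b i j l) := SN.neg h

theorem S2.sw {T : ∀ X : DR (k + 1), HD X → Fin (k + 1) → Fin (k + 1) → X.ps.R} (h : S2 w T) :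
    S2 w (fun X b i j => T X b j i) := by
  refine SN.congr (SN.comp h (![1, 0] : Fin 2 → Fin 2) (by decide)) fun X b hb K => ?_
  rfl

theorem S3.p1 {T : ∀ X : DR (k + 1), HD X → Fin (k + 1) → Fin (k + 1) → Fin (k + 1) → X.ps.R}
    (h : S3 w T) : S3 w (fun X b m i j => T X b i j m) := by
  refine SN.congr (SN.comp h (![1, 2, 0] : Fin 3 → Fin 3) (by decide)) fun X b hb K => ?_
  rfl

theorem S3.p2 {T : ∀ X : DR (k + 1), HD X → Fin (k + 1) → Fin (k + 1) → Fin (k + 1) → X.ps.R}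
    (h : S3 w T) : S3 w (fun X b m i j => T X b j i m) := by
  refine SN.congr (SN.comp h (![2, 1, 0] : Fin 3 → Fin 3) (by decide)) fun X b hb K => ?_
  rfl

theorem S1.out {v v' : ∀ X : DR (k + 1), HD X → Fin (k + 1) → X.ps.R} (h : S1 w v)
    (h' : S1 w' v') (hw : w + w' = w'') : S2 w'' (fun X b i j => v X b i * v' X b j) := by
  refine SN.congr (SN.mulP h h' hw ![(0 : Fin 2)] ![(1 : Fin 2)] (by decide))
    fun X b hb K => ?_
  rfl

/-- `∑ Gi l m T l i j v m` -/
theorem S3.v' {T : ∀ X : DR (k + 1), HD X → Fin (k + 1) → Fin (k + 1) → Fin (k + 1) → X.ps.R}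
    {v : ∀ X : DR (k + 1), HD X → Fin (k + 1) → X.ps.R} (h : S3 w T) (h' : S1 w' v)
    (hw : w + w' = w'') :
    S2 w'' (fun X b i j => ∑ l, ∑ m, cst (b.Gi l m) * (T X b l i j * v X b m)) := by
  refine SN.congr (SN.ct (κ := Fin 2) h h' hw ![none, some (some 0), some (some 1)] ![some none]
    (by decide)) fun X b hb K => ?_
  rfl

theorem S2.mm1 {T T' : ∀ X : DR (k + 1), HD X → Fin (k + 1) → Fin (k + 1) → X.ps.R} (h : S2 w T)
    (h' : S2 w' T') (hw : w + w' = w'') :
    S2 w'' (fun X b i j => ∑ l, ∑ m, cst (b.Gi l m) * (T X b i m * T' X b l j)) := by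
  refine SN.congr (SN.ct (κ := Fin 2) h h' hw ![some (some 0), some none] ![none, some (some 1)]
    (by decide)) fun X b hb K => ?_
  rfl

theorem S2.mm2 {T T' : ∀ X : DR (k + 1), HD X → Fin (k + 1) → Fin (k + 1) → X.ps.R} (h : S2 w T)
    (h' : S2 w' T') (hw : w + w' = w'') :
    S2 w'' (fun X b i j => ∑ l, ∑ m, cst (b.Gi l m) * (T X b j m * T' X b i l)) := by
  refine SN.congr (SN.ct (κ := Fin 2) h h' hw ![some (some 1), some none] ![some (some 0), none]
    (by decide)) fun X b hb K => ?_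
  rfl

end Perm

/-! ### the difference tensor -/

section Geo

variable {X : DR (k + 1)} {b : HD X}

theorem cA_symm (b : HD X) (i l m : Fin (k + 1)) : cA b i l m = cA b m l i := by
  unfold cA BD.A
  rw [(metric_compat X.isDer b.met).1 l i m]

theorem cGi_compat (hb : Fer b) (i l m : Fin (k + 1)) : X.ps.D i (cst (b.Gi l m))
    = -(∑ p, cA b i l p * cst (b.Gi p m)) - ∑ p, cA b i m p * cst (b.Gi l p) := by
  rw [D_cst hb.d0, b.compatGi i l m, cst_sub, cst_neg, cst_sum, cst_sum]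
  simp only [cst_mul]
  rfl

/-- numerator of the difference tensor -/
noncomputable def nN (b : HD X) (m i j : Fin (k + 1)) : X.ps.R :=
  nb2 X.ps.D (cA b) (gX b) i j m + nb2 X.ps.D (cA b) (gX b) j i m - nb2 X.ps.D (cA b) (gX b) m i j

/-- lowered difference tensor -/
noncomputable def nC (b : HD X) (m i j : Fin (k + 1)) : X.ps.R :=
  (1 / 2 : ℝ) • ∑ q, ∑ q', cst (b.Gi q q') * (nM b m q * nN b q' i j)

theorem nC_up (b : HD X) (l i j : Fin (k + 1)) :
    bC X.ps.D (cA b) (gX b) (gXi b) l i j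
      = upC (fun i j => cst (b.Gi i j)) (nC b) l i j := by
  unfold bC upC nC
  simp only [mul_smul_comm, ← Finset.smul_sum]
  congr 1
  have h1 : ∀ m, gXi b l m * (nb2 X.ps.D (cA b) (gX b) i j m + nb2 X.ps.D (cA b) (gX b) j i m
      - nb2 X.ps.D (cA b) (gX b) m i j)
      = ∑ p, ∑ q, cst (b.Gi l p) * (cst (b.Gi q m) * (nM b p q * nN b m i j)) := by
    intro m
    rw [gXi_nM, Finset.sum_mul]
    refine Finset.sum_congr rfl fun p _ => ?_
    rw [Finset.sum_mul]
    refine Finset.sum_congr rfl fun q _ => ?_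
    unfold nN; ring
  simp only [h1]
  rw [Finset.sum_comm]
  refine Finset.sum_congr rfl fun p _ => ?_
  rw [Finset.sum_comm, Finset.mul_sum]
  refine Finset.sum_congr rfl fun q _ => ?_
  rw [Finset.mul_sum]

theorem bRic_cst (hb : Fer b) (i j : Fin (k + 1)) :
    bRic X.ps.D (cA b) i j = cst (∑ p, ∑ q, b.Gi p q * b.curv ![p, j, q, i]) := by
  have hA : ∀ i l m, b.A i l m = b.A m l i := fun i l m => by
    unfold BD.A
    rw [(metric_compat X.isDer b.met).1 l i m]
  have h1 : ∀ p, ∑ q, b.Gi p q * b.curv ![p, j, q, i] = b.F p j p i := by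
    intro p
    unfold BD.curv
    have : ∀ q, b.Gi p q * ∑ r, b.G (![p, j, q, i] 2) r
        * b.F (![p, j, q, i] 0) (![p, j, q, i] 1) r (![p, j, q, i] 3)
        = ∑ r, (b.Gi p q * b.G q r) * b.F p j r i := by
      intro q
      rw [Finset.mul_sum]
      refine Finset.sum_congr rfl fun r _ => ?_
      show b.Gi p q * (b.G q r * b.F p j r i) = _
      ring
    simp only [this]
    rw [Finset.sum_comm]
    simp only [← Finset.sum_mul, b.inv']
    simp
  simp only [h1]
  unfold BD.F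
  rw [Finset.sum_add_distrib, cst_add, cst_sum, cst_sum]
  unfold bRic
  congr 1
  · refine Finset.sum_congr rfl fun p _ => ?_
    rw [cst_sub]
    unfold cA
    rw [D_cst hb.d0, D_cst hb.d0, hA j p i, hA p p i]
  · refine Finset.sum_congr rfl fun p _ => ?_
    rw [cst_sum]
    refine Finset.sum_congr rfl fun l _ => ?_
    unfold cA
    rw [cst_sub, cst_mul, cst_mul, hA j l i, hA p l i]

end Geo

theorem S3.nN : S3 (k := k) 1 (fun X b m i j => Hy.nN b m i j) := by
  have h1 : S3 (k := k) 1 (fun X b i j l => nb2 X.ps.D (cA b) (gX b) i j l) :=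
    S2.d (w := 0) SN.gx (by simp)
  exact S3.sub (S3.add (S3.p1 h1) (S3.p2 h1)) h1

theorem S3.nC : S3 (k := k) 1 (fun X b m i j => Hy.nC b m i j) :=
  S3.smul (S2.m3 S2.nM S3.nN (by simp)) _

theorem S0.hess {w w' : WithTop ℤ} {f : ∀ X : DR (k + 1), HD X → X.ps.R} (h : S0 w f)
    (hw : w + 2 = w') : S2 w' (fun X b i j => hess X.ps.D (gX b) (gXi b) (f X b) i j) := by
  have h1 : S1 (w + 1) (fun X b i => X.ps.D i (f X b)) := h.d rfl
  have h2 : w + 1 + 1 = w' := by rw [← hw, add_assoc]; norm_num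
  refine S2.congr (S2.sub (h1.d h2) (S3.v S3.nC h1 (by rw [← h2]; abel))) fun X b hb i j => ?_
  show (X.ps.D i (X.ps.D j (f X b)) - ∑ l, cA b i l j * X.ps.D l (f X b))
    - (∑ l, ∑ m, cst (b.Gi l m) * (Hy.nC b m i j * X.ps.D l (f X b))) = _
  rw [hess_bg hb.metric (cA b) (cA_symm b)]
  congr 1
  refine Finset.sum_congr rfl fun l _ => ?_
  rw [nC_up, upC, Finset.sum_mul]
  refine Finset.sum_congr rfl fun m _ => by ring

theorem S2.bRic : S2 (k := k) 2 (fun X b i j => Hy.bRic X.ps.D (cA b) i j) := by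
  have h1 : NF (k := k) (EW 2) (Fin 4) (fun X b => b.curv) :=
    NF.of (FS.curv (Or.inr (by rw [wt_N]; rfl)))
  have h2 := (h1.comp (![none, some (some 1), some none, some (some 0)]
    : Fin 4 → Option (Option (Fin 2))) (by decide)).contr
  refine SN.congr (SN.ofNF h2) fun X b hb K => ?_
  show _ = Hy.bRic X.ps.D (cA b) (K 0) (K 1)
  rw [bRic_cst hb]
  refine congrArg Hy.cst ?_
  refine Finset.sum_congr rfl fun p _ => Finset.sum_congr rfl fun q _ => ?_
  congr 2
  funext s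
  fin_cases s <;> rfl

theorem S2.ric : S2 (k := k) 2 (fun X b i j => ric X.ps.D (gX b) (gXi b) i j) := by
  have h4 : S4 (k := k) 2 (fun X b i j l m => nb3 X.ps.D (cA b) (Hy.nC b) i j l m) :=
    S3.d (w := 1) S3.nC (by norm_num)
  have ht : S1 (k := k) 1 (fun X b i => ∑ l, ∑ m, Hy.cst (b.Gi l m) * Hy.nC b m l i) := S3.tr S3.nC
  have h12 : (1 : WithTop ℤ) + 1 = 2 := by norm_num
  have h5 := S3.v S3.nC ht h12
  have h6 := S4.tr3 (k := k) (S3.tt S3.nC S3.nC h12)
  have hC : ∀ (X : DR (k + 1)) (b : HD X) (l i j : Fin (k + 1)),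
      bC X.ps.D (cA b) (gX b) (gXi b) l i j = ∑ m, Hy.cst (b.Gi l m) * Hy.nC b m i j :=
    fun X b l i j => nC_up b l i j
  refine S2.congr (S2.add (S2.add S2.bRic (S2.sub (S4.tr1 h4) (S4.tr2 h4))) (S2.sub h5 h6))
    fun X b hb i j => ?_
  rw [ric_bg X.ps.isDer hb.metric (cA b) (cA_symm b)]
  show Hy.bRic X.ps.D (cA b) i j + ((∑ l, ∑ q, Hy.cst (b.Gi l q) * nb3 X.ps.D (cA b) (Hy.nC b) l q i j)
      - ∑ l, ∑ q, Hy.cst (b.Gi l q) * nb3 X.ps.D (cA b) (Hy.nC b) j q i l)
    + ((∑ l, ∑ m, Hy.cst (b.Gi l m) * (Hy.nC b m i j * ∑ l', ∑ m', Hy.cst (b.Gi l' m') * Hy.nC b m' l' l))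
      - ∑ l, ∑ q, Hy.cst (b.Gi l q) * ∑ l', ∑ p, Hy.cst (b.Gi l' p) * (Hy.nC b q j l' * Hy.nC b p i l)) = _
  have hb1 : bC X.ps.D (cA b) (gX b) (gXi b) = upC (fun i j => Hy.cst (b.Gi i j)) (Hy.nC b) := by
    funext l i j; exact nC_up b l i j
  have e1 : ∀ m' k' i' j', nbC X.ps.D (cA b) (bC X.ps.D (cA b) (gX b) (gXi b)) m' k' i' j'
      = ∑ q, Hy.cst (b.Gi k' q) * nb3 X.ps.D (cA b) (Hy.nC b) m' q i' j' := by
    intro m' k' i' j'
    rw [hb1]
    exact nbC_up X.ps.isDer (cGi_compat hb) (Hy.nC b) m' k' i' j'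
  simp only [e1]
  congr 1
  congr 1
  · conv_rhs => rw [Finset.sum_comm]
    refine Finset.sum_congr rfl fun l _ => ?_
    rw [← Finset.sum_mul]
    simp only [hC]
    rw [Finset.mul_sum]
    refine Finset.sum_congr rfl fun m _ => by ring
  · refine Finset.sum_congr rfl fun l _ => ?_
    simp only [hC]
    have : ∀ l', (∑ m, Hy.cst (b.Gi l m) * Hy.nC b m j l') * (∑ m, Hy.cst (b.Gi l' m) * Hy.nC b m i l)
        = ∑ q, ∑ p, Hy.cst (b.Gi l q) * (Hy.cst (b.Gi l' p) * (Hy.nC b q j l' * Hy.nC b p i l)) := by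
      intro l'
      rw [Finset.sum_mul_sum]
      refine Finset.sum_congr rfl fun q _ => Finset.sum_congr rfl fun p _ => by ring
    simp only [this, Finset.mul_sum]
    rw [Finset.sum_comm]

end Run7.h96.Hy

end

section

/-!
Traces with the full inverse metric, gauge fixing.
-/

set_option linter.all false
set_option maxHeartbeats 400000

open scoped BigOperators

namespace Run7.h96.Hy

open CInv

variable {k : ℕ}

section Tr

variable {w w' w'' : WithTop ℤ}

theorem S2.trg {T : ∀ X : DR (k + 1), HD X → Fin (k + 1) → Fin (k + 1) → X.ps.R} (h : S2 w T) :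
    S0 w (fun X b => ∑ i, ∑ j, gXi b i j * T X b i j) := by
  have h1 := S2.tr (S2.sw (S2.mm S2.nM (S2.sw h) (w'' := w) (by simp)))
  refine S0.congr h1 fun X b hb => ?_
  refine Finset.sum_congr rfl fun i _ => ?_
  show ∑ p, cst (b.Gi i p) * ∑ l, ∑ m, cst (b.Gi l m) * (Hy.nM b p l * T X b i m)
    = ∑ j, gXi b i j * T X b i j
  have h2 : ∀ j, gXi b i j * T X b i j
      = ∑ p, ∑ q, cst (b.Gi i p) * (cst (b.Gi q j) * (Hy.nM b p q * T X b i j)) := by
    intro j
    rw [gXi_nM, Finset.sum_mul]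
    refine Finset.sum_congr rfl fun p _ => ?_
    rw [Finset.sum_mul]
    refine Finset.sum_congr rfl fun q _ => by ring
  simp only [h2, Finset.mul_sum]
  rw [Finset.sum_comm]
  conv_rhs => rw [Finset.sum_comm]
  rw [Finset.sum_comm]
  refine Finset.sum_congr rfl fun p _ => ?_
  rw [Finset.sum_comm]

theorem S0.lap {f : ∀ X : DR (k + 1), HD X → X.ps.R} (h : S0 w f)
    (hw : w + 2 = w') : S0 w' (fun X b => lap X.ps.D (gX b) (gXi b) (f X b)) :=
  S2.trg (S0.hess h hw)

theorem S0.ip {f f' : ∀ X : DR (k + 1), HD X → X.ps.R} (h : S0 w f) (h' : S0 w' f')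
    (hw : w + 1 + (w' + 1) = w'') :
    S0 w'' (fun X b => ip (gXi b) (fun i => X.ps.D i (f X b)) (fun i => X.ps.D i (f' X b))) :=
  S2.trg (S1.out (h.d rfl) (h'.d rfl) hw)

end Tr

section Fr

variable {X : DR (k + 1)} {b : HD X}

theorem Fer.G0i (hb : Fer b) (i : Fin (k + 1)) : b.G 0 i = if i = 0 then 1 else 0 := by
  refine Fin.cases ?_ (fun a => ?_) i
  · rw [if_pos rfl]; exact hb.g00
  · rw [if_neg (Fin.succ_ne_zero a)]; exact hb.g0 a

theorem Fer.Gi0i (hb : Fer b) (i : Fin (k + 1)) : b.Gi 0 i = if i = 0 then 1 else 0 := by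
  have h := b.inv 0 i
  simp only [hb.G0i, ite_mul, one_mul, zero_mul, Finset.sum_ite_eq', Finset.mem_univ,
    if_true] at h
  rw [h]
  by_cases hi : i = 0
  · subst hi; rfl
  · rw [if_neg hi, if_neg (Ne.symm hi)]

theorem Fer.Gii0 (hb : Fer b) (i : Fin (k + 1)) : b.Gi i 0 = if i = 0 then 1 else 0 := by
  rw [b.isymm, hb.Gi0i]

end Fr

section Row

variable {w w' w'' : WithTop ℤ}

theorem S1.nu : S1 (k := k) 0 (fun X b i => cst (b.Φ Fd.nu ![i])) := by
  have h2 : NF (k := k) (EW 0) (Fin 1) (fun X b K => b.Φ Fd.nu ![K 0]) := by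
    refine (NF.of (FS.field (E := EW 0) Fd.nu ?_ ?_)).congr fun X b _ K => ?_
    · rintro ⟨j, hj⟩; cases hj
    · intro _
      exact EW_zero
    · show b.Φ Fd.nu K = b.Φ Fd.nu ![K 0]
      congr 1
      funext s
      fin_cases s; rfl
  exact SN.ofNF h2

theorem S2.row0 {T : ∀ X : DR (k + 1), HD X → Fin (k + 1) → Fin (k + 1) → X.ps.R} (h : S2 w T) :
    S1 w (fun X b i => T X b 0 i) := by
  refine S1.congr (S2.v (S2.sw h) S1.nu (w'' := w) (by simp)) fun X b hb i => ?_
  have h1 : ∀ m, cst (b.Φ Fd.nu ![m]) = if m = 0 then (1 : X.ps.R) else 0 := by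
    intro m
    rw [hb.nu]
    show cst (if m = 0 then 1 else 0) = _
    split_ifs
    · exact cst_one
    · exact cst_zero
  simp only [h1, mul_ite, mul_one, mul_zero, Finset.sum_ite_eq', Finset.mem_univ, if_true, hb.Gii0]
  have h2 : ∀ l : Fin (k + 1), cst (if l = 0 then (1 : X.R) else 0) * T X b l i
      = if l = 0 then T X b l i else 0 := by
    intro l
    split_ifs
    · rw [cst_one, one_mul]
    · rw [cst_zero, zero_mul]
  simp only [h2, Finset.sum_ite_eq', Finset.mem_univ, if_true]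

theorem S1.row0 {v : ∀ X : DR (k + 1), HD X → Fin (k + 1) → X.ps.R} (h : S1 w v) :
    S0 w (fun X b => v X b 0) := by
  refine S0.congr (S1.v h S1.nu (w'' := w) (by simp)) fun X b hb => ?_
  have h1 : ∀ m, cst (b.Φ Fd.nu ![m]) = if m = 0 then (1 : X.ps.R) else 0 := by
    intro m
    rw [hb.nu]
    show cst (if m = 0 then 1 else 0) = _
    split_ifs
    · exact cst_one
    · exact cst_zero
  simp only [h1, mul_ite, mul_one, mul_zero, Finset.sum_ite_eq', Finset.mem_univ, if_true, hb.Gii0]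
  have h2 : ∀ l : Fin (k + 1), cst (if l = 0 then (1 : X.R) else 0) * v X b l
      = if l = 0 then v X b l else 0 := by
    intro l
    split_ifs
    · rw [cst_one, one_mul]
    · rw [cst_zero, zero_mul]
  simp only [h2, Finset.sum_ite_eq', Finset.mem_univ, if_true]

end Row

/-! ### integration in `r` -/

/-- `∫_0^r` -/
noncomputable def itgX {X : DR (k + 1)} (F : X.ps.R) : X.ps.R :=
  (itg (F : PowerSeries X.R) : PowerSeries X.R)

section Itg

variable {X : DR (k + 1)}

theorem cf_itg0 (F : X.ps.R) : cf 0 (itgX F) = 0 := itg_coeff_zero (F : PowerSeries X.R)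
theorem cf_itgs (F : X.ps.R) (m : ℕ) : cf (m + 1) (itgX F) = ((1 : ℝ) / (m + 1)) • cf m F :=
  itg_coeff_succ (F : PowerSeries X.R) m
theorem D_itg (F : X.ps.R) : X.ps.D 0 (itgX F) = F := dr_itg (F : PowerSeries X.R)
theorem O.itg {N : ℕ} {F : X.ps.R} (hF : O N F) : O (N + 1) (itgX F) := Od.itg (R := X.R) hF

theorem itg_unique {N : ℕ} {F : X.ps.R} (h0 : cf 0 F = 0) (h : O N (X.ps.D 0 F)) :
    O (N + 1) F := eq_of_dr (R := X.R) h0 h

theorem itg_add (F G : X.ps.R) : itgX (F + G) = itgX F + itgX G := by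
  apply cf_ext
  intro m
  cases m with
  | zero => rw [cf_add, cf_itg0, cf_itg0, cf_itg0, add_zero]
  | succ m => rw [cf_add, cf_itgs, cf_itgs, cf_itgs, cf_add, smul_add]

theorem itg_smul (t : ℝ) (F : X.ps.R) : itgX (t • F) = t • itgX F := by
  apply cf_ext
  intro m
  cases m with
  | zero => rw [cf_smul, cf_itg0, cf_itg0, smul_zero]
  | succ m => rw [cf_smul, cf_itgs, cf_itgs, cf_smul, smul_comm]

theorem itg_zero : itgX (0 : X.ps.R) = 0 := by
  have := itg_smul (0 : ℝ) (0 : X.ps.R)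
  simpa using this

theorem itg_cst (a : X.R) (F : X.ps.R) : itgX (cst a * F) = cst a * itgX F := by
  apply cf_ext
  intro m
  cases m with
  | zero => rw [cf_cst_mul, cf_itg0, cf_itg0, mul_zero]
  | succ m => rw [cf_cst_mul, cf_itgs, cf_itgs, cf_cst_mul, mul_smul_comm]

theorem itg_sum {α : Type} (s : Finset α) (f : α → X.ps.R) :
    itgX (∑ a ∈ s, f a) = ∑ a ∈ s, itgX (f a) := by
  classical
  induction s using Finset.induction_on with
  | empty => simpa using itg_zero
  | @insert a s ha ih => rw [Finset.sum_insert ha, Finset.sum_insert ha, itg_add, ih]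

end Itg

/-! ### gauge fixing -/

/-- the vector field restoring the Fermi gauge -/
noncomputable def gfV {X : DR (k + 1)} (b : HD X) (T : Fin (k + 1) → Fin (k + 1) → X.ps.R)
    (c : Fin (k + 1)) : X.ps.R :=
  - itgX (∑ d, gXi b c d * (T 0 d + X.ps.D d (-((1 / 2 : ℝ) • itgX (T 0 0)))))

/-- gauge fixing -/
noncomputable def GF {X : DR (k + 1)} (b : HD X) (T : Fin (k + 1) → Fin (k + 1) → X.ps.R)
    (i j : Fin (k + 1)) : X.ps.R := T i j + lie X.ps.D (gfV b T) (gX b) i j

section GFl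

variable {X : DR (k + 1)} {b : HD X} {T : Fin (k + 1) → Fin (k + 1) → X.ps.R}

theorem gfV_O (c : Fin (k + 1)) : cf 0 (gfV b T c) = 0 := by
  unfold gfV
  rw [cf_neg, cf_itg0, neg_zero]

theorem Fer.gXi0i (hb : Fer b) (i : Fin (k + 1)) : gXi b 0 i = if i = 0 then 1 else 0 := by
  refine Fin.cases ?_ (fun a => ?_) i
  · rw [if_pos rfl]; exact hb.gXi00
  · rw [if_neg (Fin.succ_ne_zero a)]; exact hb.gXi0 a

theorem gfV_zero (hb : Fer b) : gfV b T 0 = -((1 / 2 : ℝ) • itgX (T 0 0)) := by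
  unfold gfV
  simp only [hb.gXi0i, ite_mul, one_mul, zero_mul, Finset.sum_ite_eq', Finset.mem_univ, if_true]
  have h1 : X.ps.D 0 (-((1 / 2 : ℝ) • itgX (T 0 0))) = -((1 / 2 : ℝ) • T 0 0) := by
    rw [der_neg X.ps.isDer, X.ps.isDer.smul, D_itg]
  have h2 : T 0 0 + X.ps.D 0 (-((1 / 2 : ℝ) • itgX (T 0 0))) = (1 / 2 : ℝ) • T 0 0 := by
    rw [h1]
    have : T 0 0 = (1 / 2 : ℝ) • T 0 0 + (1 / 2 : ℝ) • T 0 0 := by
      rw [← add_smul]; norm_num
    nth_rewrite 1 [this]
    ring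
  rw [h2, itg_smul]

/-- the `0 i` components of a Lie derivative -/
theorem lie0 (hb : Fer b) (V : Fin (k + 1) → X.ps.R) (i : Fin (k + 1)) :
    lie X.ps.D V (gX b) 0 i = (∑ a, X.ps.D 0 (V a) * gX b a i) + X.ps.D i (V 0) := by
  unfold lie
  have h1 : ∀ a, X.ps.D a (gX b 0 i) = 0 := by
    intro a
    rw [hb.gX0i]
    split_ifs
    · exact der_one X.ps.isDer _
    · exact der_zero X.ps.isDer _
  simp only [h1, mul_zero, Finset.sum_const_zero, zero_add]
  simp only [hb.gX0i, mul_ite, mul_one, mul_zero, Finset.sum_ite_eq', Finset.mem_univ, if_true]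

theorem GF_zero (hb : Fer b) (i : Fin (k + 1)) : GF b T 0 i = 0 := by
  unfold GF
  rw [lie0 hb]
  have h1 : ∀ a, X.ps.D 0 (gfV b T a)
      = - ∑ d, gXi b a d * (T 0 d + X.ps.D d (-((1 / 2 : ℝ) • itgX (T 0 0)))) := by
    intro a
    unfold gfV
    rw [der_neg X.ps.isDer, D_itg]
  simp only [h1, gfV_zero hb]
  have h2 : ∑ a, (- ∑ d, gXi b a d * (T 0 d + X.ps.D d (-((1 / 2 : ℝ) • itgX (T 0 0))))) * gX b a i
      = - (T 0 i + X.ps.D i (-((1 / 2 : ℝ) • itgX (T 0 0)))) := by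
    have h3 : ∀ a, (- ∑ d, gXi b a d * (T 0 d + X.ps.D d (-((1 / 2 : ℝ) • itgX (T 0 0))))) * gX b a i
        = - ∑ d, (gX b i a * gXi b a d) * (T 0 d + X.ps.D d (-((1 / 2 : ℝ) • itgX (T 0 0)))) := by
      intro a
      rw [neg_mul, Finset.sum_mul, hb.metric.symm a i]
      congr 1
      exact Finset.sum_congr rfl fun d _ => by ring
    simp only [h3, Finset.sum_neg_distrib]
    congr 1
    rw [Finset.sum_comm]
    simp only [← Finset.sum_mul, hb.metric.inv, ite_mul, one_mul, zero_mul, Finset.sum_ite_eq,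
      Finset.mem_univ, if_true]
  rw [h2]
  ring

theorem lie_symm (hb : Fer b) (V : Fin (k + 1) → X.ps.R) (i j : Fin (k + 1)) :
    lie X.ps.D V (gX b) i j = lie X.ps.D V (gX b) j i := by
  unfold lie
  have e1 : ∑ a, X.ps.D i (V a) * gX b a j = ∑ a, X.ps.D i (V a) * gX b j a :=
    Finset.sum_congr rfl fun a _ => by rw [hb.metric.symm a j]
  have e2 : ∑ a, X.ps.D j (V a) * gX b i a = ∑ a, X.ps.D j (V a) * gX b a i :=
    Finset.sum_congr rfl fun a _ => by rw [hb.metric.symm i a]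
  rw [hb.metric.symm i j, e1, e2]
  ring

theorem GF_symm (hb : Fer b) (hT : ∀ i j, T i j = T j i) (i j : Fin (k + 1)) :
    GF b T i j = GF b T j i := by
  unfold GF
  rw [hT, lie_symm hb]

theorem lie_O {V : Fin (k + 1) → X.ps.R} {N : ℕ} (hV : ∀ a, O (N + 1) (V a))
    (S : Fin (k + 1) → Fin (k + 1) → X.ps.R) (i j : Fin (k + 1)) : O N (lie X.ps.D V S i j) := by
  unfold lie
  refine O.add (O.add (O.sum _ fun a _ => ?_) (O.sum _ fun a _ => ?_)) (O.sum _ fun a _ => ?_)
  · exact ((hV a).mono (Nat.le_succ N)).mul_right _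
  · exact ((hV a).di i).mul_right _
  · exact ((hV a).di j).mul_right _

/-- uniqueness of the gauge fixing vector field -/
theorem gfV_unique (hb : Fer b) {Y : Fin (k + 1) → X.ps.R} {N : ℕ} (h0 : ∀ c, cf 0 (Y c) = 0)
    (h : ∀ i, O N (T 0 i + lie X.ps.D Y (gX b) 0 i)) (c : Fin (k + 1)) :
    O (N + 1) (Y c - gfV b T c) := by
  -- zero component
  have hG : ∀ i, T 0 i + ((∑ a, X.ps.D 0 (gfV b T a) * gX b a i) + X.ps.D i (gfV b T 0)) = 0 := by
    intro i
    have := GF_zero (T := T) hb i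
    unfold GF at this
    rwa [lie0 hb] at this
  have h1 : ∀ i, O N ((∑ a, X.ps.D 0 (Y a - gfV b T a) * gX b a i)
      + X.ps.D i (Y 0 - gfV b T 0)) := by
    intro i
    have h2 := h i
    rw [lie0 hb] at h2
    have h3 : (∑ a, X.ps.D 0 (Y a - gfV b T a) * gX b a i) + X.ps.D i (Y 0 - gfV b T 0)
        = (T 0 i + ((∑ a, X.ps.D 0 (Y a) * gX b a i) + X.ps.D i (Y 0)))
          - (T 0 i + ((∑ a, X.ps.D 0 (gfV b T a) * gX b a i) + X.ps.D i (gfV b T 0))) := by
      simp only [der_sub X.ps.isDer, sub_mul, Finset.sum_sub_distrib]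
      ring
    rw [h3, hG i, sub_zero]
    exact h2
  have hz : ∀ c, cf 0 (Y c - gfV b T c) = 0 := by
    intro c
    rw [cf_sub, h0, gfV_O, sub_zero]
  have h00 : O (N + 1) (Y 0 - gfV b T 0) := by
    refine itg_unique (hz 0) ?_
    have h2 := h1 0
    have h3 : ∀ a, X.ps.D 0 (Y a - gfV b T a) * gX b a 0
        = if a = 0 then X.ps.D 0 (Y a - gfV b T a) else 0 := by
      intro a
      rw [hb.metric.symm a 0, hb.gX0i]
      split_ifs
      · rw [mul_one]
      · rw [mul_zero]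
    simp only [h3, Finset.sum_ite_eq', Finset.mem_univ, if_true] at h2
    have h4 : X.ps.D 0 (Y 0 - gfV b T 0) = (1 / 2 : ℝ) • (X.ps.D 0 (Y 0 - gfV b T 0)
        + X.ps.D 0 (Y 0 - gfV b T 0)) := by
      rw [← two_smul ℝ, smul_smul]; norm_num
    rw [h4]
    exact h2.smul _
  have h5 : ∀ i, O N (∑ a, X.ps.D 0 (Y a - gfV b T a) * gX b a i) := by
    intro i
    have h2 := (h1 i).sub (h00.di i)
    have : (∑ a, X.ps.D 0 (Y a - gfV b T a) * gX b a i) + X.ps.D i (Y 0 - gfV b T 0)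
        - X.ps.D i (Y 0 - gfV b T 0) = ∑ a, X.ps.D 0 (Y a - gfV b T a) * gX b a i := by ring
    rwa [this] at h2
  refine itg_unique (hz c) ?_
  have h6 : X.ps.D 0 (Y c - gfV b T c)
      = ∑ i, gXi b i c * ∑ a, X.ps.D 0 (Y a - gfV b T a) * gX b a i := by
    have e1 : ∀ i, gXi b i c * ∑ a, X.ps.D 0 (Y a - gfV b T a) * gX b a i
        = ∑ a, X.ps.D 0 (Y a - gfV b T a) * (gX b a i * gXi b i c) := by
      intro i
      rw [Finset.mul_sum]
      exact Finset.sum_congr rfl fun a _ => by ring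
    simp only [e1]
    rw [Finset.sum_comm]
    simp only [← Finset.mul_sum, hb.metric.inv]
    simp
  rw [h6]
  exact O.sum _ fun i _ => (h5 i).mul_left _

/-- uniqueness of gauge fixing -/
theorem GF_unique (hb : Fer b) {Y : Fin (k + 1) → X.ps.R} {N : ℕ} (h0 : ∀ c, cf 0 (Y c) = 0)
    (h : ∀ i, O N (T 0 i + lie X.ps.D Y (gX b) 0 i)) (i j : Fin (k + 1)) :
    O N (T i j + lie X.ps.D Y (gX b) i j - GF b T i j) := by
  have h1 : T i j + lie X.ps.D Y (gX b) i j - GF b T i j
      = lie X.ps.D (fun c => Y c - gfV b T c) (gX b) i j := by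
    unfold GF lie
    simp only [der_sub X.ps.isDer, sub_mul, Finset.sum_sub_distrib]
    ring
  rw [h1]
  exact lie_O (fun c => gfV_unique hb h0 h c) _ i j

end GFl

/-! ### naturality of gauge fixing -/

section Nat

variable {w w' w'' : WithTop ℤ}

/-- lowered vector field -/
noncomputable def nV {X : DR (k + 1)} (b : HD X) (T : Fin (k + 1) → Fin (k + 1) → X.ps.R)
    (m : Fin (k + 1)) : X.ps.R := ∑ c, cst (b.G m c) * gfV b T c

theorem nV_up {X : DR (k + 1)} (b : HD X) (T : Fin (k + 1) → Fin (k + 1) → X.ps.R)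
    (c : Fin (k + 1)) : gfV b T c = ∑ m, cst (b.Gi c m) * nV b T m := by
  unfold nV
  have e1 : ∀ m, cst (b.Gi c m) * ∑ c', cst (b.G m c') * gfV b T c'
      = ∑ c', (cst (b.Gi c m) * cst (b.G m c')) * gfV b T c' := by
    intro m
    rw [Finset.mul_sum]
    exact Finset.sum_congr rfl fun a _ => by ring
  simp only [e1]
  rw [Finset.sum_comm]
  simp only [← Finset.sum_mul, cG_inv', ite_mul, one_mul, zero_mul, Finset.sum_ite_eq,
    Finset.mem_univ, if_true]

theorem nM_Gi {X : DR (k + 1)} (b : HD X) (m d : Fin (k + 1)) :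
    ∑ q, nM b m q * cst (b.Gi q d) = ∑ c, cst (b.G m c) * gXi b c d := by
  unfold nM
  have h1 : ∀ q, (∑ i, ∑ j, cst (b.G m i) * (gXi b i j * cst (b.G j q))) * cst (b.Gi q d)
      = ∑ i, ∑ j, cst (b.G m i) * gXi b i j * (cst (b.G j q) * cst (b.Gi q d)) := by
    intro q
    rw [Finset.sum_mul]
    refine Finset.sum_congr rfl fun i _ => ?_
    rw [Finset.sum_mul]
    refine Finset.sum_congr rfl fun j _ => by ring
  simp only [h1]
  rw [Finset.sum_comm]
  refine Finset.sum_congr rfl fun i _ => ?_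
  rw [Finset.sum_comm]
  simp only [← Finset.mul_sum, cG_inv]
  simp

theorem S2.nV {T : ∀ X : DR (k + 1), HD X → Fin (k + 1) → Fin (k + 1) → X.ps.R} (h : S2 w T)
    (hw : w' + 1 = w) : S1 w' (fun X b m => Hy.nV b (T X b) m) := by
  have h1 : S1 w (fun X b d => T X b 0 d) := S2.row0 h
  have h2 : S0 w' (fun X b => -((1 / 2 : ℝ) • itgX (T X b 0 0))) := by
    have : S0 w' (fun X b => itgX (T X b 0 0)) := SN.intg (S1.row0 h1) hw
    exact (this.smul (1 / 2)).neg
  have h3 : S1 w (fun X b d => T X b 0 d + X.ps.D d (-((1 / 2 : ℝ) • itgX (T X b 0 0)))) :=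
    h1.add (h2.d hw)
  have h4 := S2.v S2.nM h3 (w'' := w) (by simp)
  have h5 : S1 w' (fun X b i => - itgX (∑ l, ∑ m, cst (b.Gi l m) * (Hy.nM b i l *
      (T X b 0 m + X.ps.D m (-((1 / 2 : ℝ) • itgX (T X b 0 0))))))) :=
    S1.neg (SN.intg h4 hw)
  refine S1.congr h5 fun X b hb m => ?_
  unfold Hy.nV gfV
  simp only [mul_neg, Finset.sum_neg_distrib, ← itg_cst]
  rw [← itg_sum]
  congr 2
  have e1 : ∀ c, cst (b.G m c) * ∑ d, gXi b c d * (T X b 0 d
      + X.ps.D d (-((1 / 2 : ℝ) • itgX (T X b 0 0))))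
      = ∑ d, (cst (b.G m c) * gXi b c d) * (T X b 0 d
      + X.ps.D d (-((1 / 2 : ℝ) • itgX (T X b 0 0)))) := by
    intro c
    rw [Finset.mul_sum]
    exact Finset.sum_congr rfl fun a _ => by ring
  simp only [e1]
  conv_rhs => rw [Finset.sum_comm]
  simp only [← Finset.sum_mul, ← nM_Gi]
  rw [Finset.sum_comm]
  refine Finset.sum_congr rfl fun d _ => ?_
  rw [Finset.sum_mul]
  exact Finset.sum_congr rfl fun a _ => by ring

/-- Lie derivative of the metric along a natural vector field given by a lowered one -/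
theorem S1.lie {v : ∀ X : DR (k + 1), HD X → Fin (k + 1) → X.ps.R} (h : S1 w' v)
    (hw : w' + 1 = w) :
    S2 w (fun X b i j => lie X.ps.D (fun a => ∑ m, cst (b.Gi a m) * v X b m) (gX b) i j) := by
  have hQ : S3 (k := k) 1 (fun X b i j l => nb2 X.ps.D (cA b) (gX b) i j l) :=
    S2.d (w := 0) SN.gx (by simp)
  have hg : S2 (k := k) 0 (fun X b i j => gX b i j) := SN.gx
  have h1 := S3.v' hQ h (w'' := w) (by rw [← hw]; abel)
  have hd := h.d hw
  have h2 := S2.mm1 hd hg (w'' := w) (by simp)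
  have h3 := S2.mm2 hd hg (w'' := w) (by simp)
  refine S2.congr ((h1.add h2).add h3) fun X b hb i j => ?_
  rw [lie_bg hb.metric (cA b) (cA_symm b)]
  have e1 : ∀ i a, nbV X.ps.D (cA b) (fun a => ∑ m, cst (b.Gi a m) * v X b m) i a
      = ∑ m, cst (b.Gi a m) * (X.ps.D i (v X b m) - ∑ l, cA b i l m * v X b l) := by
    intro i a
    exact nbV_up X.ps.isDer (Gi := fun i j => cst (b.Gi i j)) (cGi_compat hb) (v X b) i a
  simp only [e1]
  congr 1
  · congr 1
    · refine Finset.sum_congr rfl fun a _ => ?_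
      rw [Finset.sum_mul]
      exact Finset.sum_congr rfl fun m _ => by ring
    · refine Finset.sum_congr rfl fun a _ => ?_
      rw [Finset.sum_mul]
      exact Finset.sum_congr rfl fun m _ => by ring
  · refine Finset.sum_congr rfl fun a _ => ?_
    rw [Finset.sum_mul]
    exact Finset.sum_congr rfl fun m _ => by ring

theorem S2.GF {T : ∀ X : DR (k + 1), HD X → Fin (k + 1) → Fin (k + 1) → X.ps.R} (h : S2 w T)
    (hw : w' + 1 = w) : S2 w (fun X b i j => Hy.GF b (T X b) i j) := by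
  refine S2.congr (h.add ((h.nV hw).lie hw)) fun X b hb i j => ?_
  unfold Hy.GF
  congr 1
  congr 1
  funext a
  exact (nV_up b (T X b) a).symm

end Nat

end Run7.h96.Hy

end

section

/-!
The singular Yamabe defining function, the harmonic extension and the flow.
-/

set_option linter.all false
set_option maxHeartbeats 400000

open scoped BigOperators

namespace Run7.h96.Hy

open CInv

variable {k : ℕ}

/-- approximate solutions of the singular Yamabe equation -/
noncomputable def sgm {X : DR (k + 1)} (b : HD X) : ℕ → X.ps.R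
  | 0 => rr X
  | m + 1 => sgm b m + rr X ^ (m + 2)
      * cst (-((2 * (k : ℝ) * (((m + 1 : ℕ) : ℝ) + 1) * (((m + 1 : ℕ) : ℝ) - (k + 1)))⁻¹
        • cf (m + 1) (Yam b (sgm b m))))

/-- the defining function -/
noncomputable def sg {X : DR (k + 1)} (b : HD X) : X.ps.R := sgm b k

section Sg

variable {X : DR (k + 1)} {b : HD X}

theorem O_rr_pow (X : DR (k + 1)) (j : ℕ) (F : X.ps.R) : O j (rr X ^ j * F) := by
  have : O j (rr X ^ j) := by
    intro m hm
    rw [cf_rr_pow, if_neg (by omega)]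
  exact this.mul_right F

theorem cf_rr_pow_cst (X : DR (k + 1)) (j : ℕ) (a : X.R) : cf j (rr X ^ j * cst a) = a := by
  rw [mul_comm, cf_cst_mul, cf_rr_pow, if_pos rfl, mul_one]

theorem D_rr (i : Fin (k + 1)) : X.ps.D i (rr X) = if i = 0 then 1 else 0 := by
  apply cf_ext
  intro m
  refine Fin.cases ?_ (fun a => ?_) i
  · rw [cf_d0, if_pos rfl, cf_rr, cf_one]
    by_cases hm : m = 0
    · subst hm; simp
    · rw [if_neg (by omega), if_neg hm, smul_zero]
  · rw [cf_ds, if_neg (Fin.succ_ne_zero a), cf_zero, cf_rr]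
    split_ifs
    · exact (X.d a.succ).map_one_eq_zero
    · exact map_zero _

theorem sgm_cf0 (m : ℕ) : cf 0 (sgm b m) = 0 := by
  induction m with
  | zero => show cf 0 (rr X) = 0; rw [cf_rr]; simp
  | succ m ih =>
    show cf 0 (sgm b m + _) = 0
    rw [cf_add, ih, zero_add]
    exact O_rr_pow X (m + 2) _ 0 (by omega)

theorem sgm_cf1 (m : ℕ) : cf 1 (sgm b m) = 1 := by
  induction m with
  | zero => show cf 1 (rr X) = 1; rw [cf_rr]; simp
  | succ m ih =>
    show cf 1 (sgm b m + _) = 1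
    rw [cf_add, ih]
    rw [O_rr_pow X (m + 2) _ 1 (by omega), add_zero]

theorem sgm_Yam (hb : Fer b) (m : ℕ) (hm : m ≤ k) : O (m + 1) (Yam b (sgm b m)) := by
  induction m with
  | zero =>
    intro j hj
    have : j = 0 := by omega
    subst this
    show cf 0 (Yam b (rr X)) = 0
    unfold Yam
    rw [tr2_tt hb.metric]
    have h1 : ip (gXi b) (fun i => X.ps.D i (rr X)) (fun i => X.ps.D i (rr X)) = 1 := by
      unfold ip
      simp only [D_rr, mul_ite, mul_one, mul_zero, Finset.sum_ite_eq', Finset.mem_univ, if_true]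
      exact hb.gXi00
    rw [h1, sub_self, smul_zero, sub_zero]
    have h2 : O 1 (rr X) := by
      intro j hj
      have : j = 0 := by omega
      subst this
      rw [cf_rr]; simp
    exact (((h2.mul_left (rr X)).mul_right _).add ((h2.mul_right _).smul _)) 0 (by omega)
  | succ m ih =>
    have h1 := ih (by omega)
    have h2 := Yam_diff hb (m := m + 1) (by omega) (sgm_cf0 (b := b) m) (sgm_cf1 (b := b) m)
      (O_rr_pow X (m + 2) (cst (-((2 * (k : ℝ) * (((m + 1 : ℕ) : ℝ) + 1)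
        * (((m + 1 : ℕ) : ℝ) - (k + 1)))⁻¹ • cf (m + 1) (Yam b (sgm b m))))))
    have h3 : Yam b (sgm b (m + 1)) = Yam b (sgm b m) + (Yam b (sgm b (m + 1)) - Yam b (sgm b m)) := by
      ring
    refine cf_O1 ?_ ?_
    · rw [h3]
      exact h1.add h2.1
    · rw [h3, cf_add]
      have h4 := h2.2
      have h5 : cf (m + 1 + 1) (rr X ^ (m + 2) * cst (-((2 * (k : ℝ) * (((m + 1 : ℕ) : ℝ) + 1)
        * (((m + 1 : ℕ) : ℝ) - (k + 1)))⁻¹ • cf (m + 1) (Yam b (sgm b m)))))
        = -((2 * (k : ℝ) * (((m + 1 : ℕ) : ℝ) + 1)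
        * (((m + 1 : ℕ) : ℝ) - (k + 1)))⁻¹ • cf (m + 1) (Yam b (sgm b m))) :=
        cf_rr_pow_cst X (m + 2) _
      rw [h5] at h4
      have h6 : (2 * (k : ℝ) * (((m + 1 : ℕ) : ℝ) + 1) * (((m + 1 : ℕ) : ℝ) - (k + 1))) ≠ 0 := by
        have hk : k ≠ 0 := by omega
        have a1 : (k : ℝ) ≠ 0 := Nat.cast_ne_zero.mpr hk
        have a2 : ((m + 1 : ℕ) : ℝ) + 1 ≠ 0 := by positivity
        have a3 : ((m + 1 : ℕ) : ℝ) - (k + 1) ≠ 0 := by
          have : ((m + 1 : ℕ) : ℝ) ≤ k := by exact_mod_cast hm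
          have : ((m + 1 : ℕ) : ℝ) - (k + 1) < 0 := by linarith
          exact this.ne
        positivity
      show cf (m + 1) (Yam b (sgm b m)) + cf (m + 1) (Yam b (sgm b m + _) - Yam b (sgm b m)) = 0
      rw [h4, smul_neg, smul_smul, mul_inv_cancel₀ h6, one_smul, add_neg_cancel]

theorem sg_cf0 : cf 0 (sg b) = 0 := sgm_cf0 k
theorem sg_cf1 : cf 1 (sg b) = 1 := sgm_cf1 k
theorem sg_O : O 1 (sg b) := by
  intro j hj
  have : j = 0 := by omega
  subst this
  exact sg_cf0
theorem sg_Yam (hb : Fer b) : O (k + 1) (Yam b (sg b)) := sgm_Yam hb k le_rfl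

end Sg

/-- approximate harmonic extensions -/
noncomputable def ugm {X : DR (k + 1)} (b : HD X) : ℕ → X.ps.R
  | 0 => cst (b.Φ Fd.chi ![])
  | m + 1 => ugm b m + rr X ^ (m + 1)
      * cst (-(((((m + 1 : ℕ) : ℝ) * (((m + 1 : ℕ) : ℝ) - k)))⁻¹
        • cf (m + 1) (Lop b (sg b) (ugm b m))))

/-- harmonic extension of the test function -/
noncomputable def ug {X : DR (k + 1)} (b : HD X) : X.ps.R := ugm b (k - 1)

section Ug

variable {X : DR (k + 1)} {b : HD X}

theorem ugm_cf0 (m : ℕ) : cf 0 (ugm b m) = b.Φ Fd.chi ![] := by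
  induction m with
  | zero => show cf 0 (cst _) = _; rw [cf_cst, if_pos rfl]
  | succ m ih =>
    show cf 0 (ugm b m + _) = _
    rw [cf_add, ih, O_rr_pow X (m + 1) _ 0 (by omega), add_zero]

theorem ugm_Lop (hb : Fer b) (m : ℕ) (hm : m + 1 ≤ k) : O (m + 1) (Lop b (sg b) (ugm b m)) := by
  induction m with
  | zero =>
    intro j hj
    have : j = 0 := by omega
    subst this
    have h1 := (Lop_cf hb (sg_cf0 (b := b)) (sg_cf1 (b := b)) (O.zero' (ugm b 0))).2
    rw [h1]; simp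
  | succ m ih =>
    have h1 := ih (by omega)
    have h2 := Lop_cf hb (m := m + 1) (sg_cf0 (b := b)) (sg_cf1 (b := b))
      (O_rr_pow X (m + 1) (cst (-(((((m + 1 : ℕ) : ℝ) * (((m + 1 : ℕ) : ℝ) - k)))⁻¹
        • cf (m + 1) (Lop b (sg b) (ugm b m))))))
    refine cf_O1 ?_ ?_
    · show O (m + 1) (Lop b (sg b) (ugm b m + _))
      rw [Lop_add]
      exact h1.add h2.1
    · show cf (m + 1) (Lop b (sg b) (ugm b m + _)) = 0
      rw [Lop_add, cf_add, h2.2, cf_rr_pow_cst]
      have h6 : (((m + 1 : ℕ) : ℝ) * (((m + 1 : ℕ) : ℝ) - k)) ≠ 0 := by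
        have a2 : ((m + 1 : ℕ) : ℝ) ≠ 0 := by positivity
        have a3 : ((m + 1 : ℕ) : ℝ) - k ≠ 0 := by
          have : ((m + 1 : ℕ) : ℝ) < k := by exact_mod_cast (by omega : m + 1 < k)
          have : ((m + 1 : ℕ) : ℝ) - k < 0 := by linarith
          exact this.ne
        positivity
      rw [smul_neg, smul_smul, mul_inv_cancel₀ h6, one_smul, add_neg_cancel]

theorem ug_Lop (hb : Fer b) : O k (Lop b (sg b) (ug b)) := by
  rcases Nat.eq_zero_or_pos k with hk | hk
  · intro j hj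
    omega
  · have := ugm_Lop hb (k - 1) (by omega)
    exact this.mono (by omega)

theorem ug_cf0 : cf 0 (ug b) = b.Φ Fd.chi ![] := ugm_cf0 _

end Ug

/-- the tensor `tt` of the singular Yamabe function -/
noncomputable def tg {X : DR (k + 1)} (b : HD X) (i j : Fin (k + 1)) : X.ps.R :=
  tt X.ps.D (gX b) (gXi b) (sg b) i j

/-- the gauge function -/
noncomputable def os {X : DR (k + 1)} (b : HD X) : X.ps.R :=
  (-(1 / 2) : ℝ) • (sg b * lap X.ps.D (gX b) (gXi b) (sg b) - (((k + 1 : ℕ) : ℝ) - 1)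
    • (ip (gXi b) (fun i => X.ps.D i (sg b)) (fun i => X.ps.D i (sg b)) - 1))

/-- the tensor `σ² Ric + (n-2) σ ∇²σ` -/
noncomputable def Bf {X : DR (k + 1)} (b : HD X) (i j : Fin (k + 1)) : X.ps.R :=
  tg b i j + 2 * os b * gX b i j

/-- the flow -/
noncomputable def flow {X : DR (k + 1)} (b : HD X) (i j : Fin (k + 1)) : X.ps.R := GF b (Bf b) i j

/-- the flow with a test function -/
noncomputable def flowX {X : DR (k + 1)} (b : HD X) (i j : Fin (k + 1)) : X.ps.R :=
  GF b (fun i j => ug b * tg b i j) i j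

/-- infinitesimal conformal change in Fermi gauge -/
noncomputable def dl {X : DR (k + 1)} (b : HD X) (ω : X.ps.R) (i j : Fin (k + 1)) : X.ps.R :=
  GF b (fun i j => 2 * ω * gX b i j) i j

/-! ### naturality -/

section Nat

variable {w w' w'' : WithTop ℤ}

theorem S0.one : S0 (k := k) 0 (fun X b => (1 : X.ps.R)) := by
  have := SN.ofNF (k := k) (z := 0) (NF.of (FS.one (E := EW 0) EW_zero))
  exact S0.congr this fun X b hb => cst_one

theorem S2.g : S2 (k := k) 0 (fun X b i j => gX b i j) := SN.gx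

theorem S2.tt {f : ∀ X : DR (k + 1), HD X → X.ps.R} (h : S0 ((-1 : ℤ) : WithTop ℤ) f) :
    S2 0 (fun X b i j => Hy.tt X.ps.D (gX b) (gXi b) (f X b) i j) := by
  have e1 : ((-1 : ℤ) : WithTop ℤ) + 2 = 1 := by rfl
  have e2 : ((-1 : ℤ) : WithTop ℤ) + ((-1 : ℤ) : WithTop ℤ) = ((-2 : ℤ) : WithTop ℤ) := by rfl
  have h1 : S2 0 (fun X b i j => f X b * f X b * CInv.ric X.ps.D (gX b) (gXi b) i j) :=
    (h.mul h e2).mul2 S2.ric (by rfl)
  have h2 : S2 0 (fun X b i j => f X b * Hy.hess X.ps.D (gX b) (gXi b) (f X b) i j) :=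
    h.mul2 (h.hess e1) (by rfl)
  have h3 : S0 0 (fun X b => f X b * Hy.lap X.ps.D (gX b) (gXi b) (f X b)) :=
    h.mul (h.lap e1) (by rfl)
  have h4 : S0 0 (fun X b => Hy.ip (gXi b) (fun i => X.ps.D i (f X b)) (fun i => X.ps.D i (f X b))) :=
    h.ip h (by rfl)
  have h5 := (h3.sub ((h4.sub S0.one).smul (((k + 1 : ℕ) : ℝ) - 1))).mul2 S2.g (w'' := 0) (by simp)
  exact (h1.add (h2.smul (((k + 1 : ℕ) : ℝ) - 2))).add h5

theorem S0.Yam {f : ∀ X : DR (k + 1), HD X → X.ps.R} (h : S0 ((-1 : ℤ) : WithTop ℤ) f) :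
    S0 0 (fun X b => Hy.Yam b (f X b)) := (S2.tt h).trg

theorem S0.rp {w : WithTop ℤ} (j : ℕ) (hw : (j : WithTop ℤ) + w = 0) :
    S0 (k := k) w (fun X b => rr X ^ j) := SN.rr_pow j hw

theorem S0.cf {f : ∀ X : DR (k + 1), HD X → X.ps.R} (h : S0 w f) (m : ℕ) (hw : (m : WithTop ℤ) + w = w') :
    S0 w' (fun X b => cst (cf m (f X b))) := SN.ofNF ((h m).ew hw)

theorem cst_smul {X : DR (k + 1)} (t : ℝ) (a : X.R) : cst (t • a) = t • cst a := by
  apply cf_ext
  intro m
  rw [cf_smul, cf_cst, cf_cst]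
  split_ifs
  · rfl
  · rw [smul_zero]

theorem S0.sgm (m : ℕ) : S0 (k := k) ((-1 : ℤ) : WithTop ℤ) (fun X b => Hy.sgm b m) := by
  induction m with
  | zero =>
    refine S0.congr (S0.rp 1 (w := ((-1 : ℤ) : WithTop ℤ)) (by rfl)) fun X b hb => ?_
    rw [pow_one]; rfl
  | succ m ih =>
    have h1 := (S0.Yam ih).cf (m + 1) (w' := ((m + 1 : ℕ) : WithTop ℤ)) (by simp)
    have h2 := S0.rp (k := k) (m + 2) (w := ((-(m + 2 : ℕ) : ℤ) : WithTop ℤ)) (by
      rw [← WithTop.coe_natCast, ← WithTop.coe_add]; simp)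
    have h3 := h2.mul (h1.smul (-(2 * (k : ℝ) * (((m + 1 : ℕ) : ℝ) + 1)
      * (((m + 1 : ℕ) : ℝ) - (k + 1)))⁻¹)) (w'' := ((-1 : ℤ) : WithTop ℤ)) (by
      rw [← WithTop.coe_natCast, ← WithTop.coe_add]; congr 1; push_cast; ring)
    refine S0.congr (ih.add h3) fun X b hb => ?_
    show Hy.sgm b m + rr X ^ (m + 2) * (_ • cst _) = Hy.sgm b m + rr X ^ (m + 2) * cst (-(_ • _))
    rw [← cst_smul, neg_smul]

theorem S0.sg : S0 (k := k) ((-1 : ℤ) : WithTop ℤ) (fun X b => Hy.sg b) := S0.sgm k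

theorem S0.Lop {f : ∀ X : DR (k + 1), HD X → X.ps.R} (h : S0 0 f) :
    S0 0 (fun X b => Hy.Lop b (Hy.sg b) (f X b)) := by
  have e2 : ((-1 : ℤ) : WithTop ℤ) + ((-1 : ℤ) : WithTop ℤ) = ((-2 : ℤ) : WithTop ℤ) := by rfl
  have h1 : S0 (k := k) 0 (fun X b => Hy.sg b * Hy.sg b * Hy.lap X.ps.D (gX b) (gXi b) (f X b)) :=
    (S0.sg.mul S0.sg e2).mul (h.lap (w' := 2) (by simp)) (by rfl)
  have h2 : S0 (k := k) 0 (fun X b => Hy.sg b * Hy.ip (gXi b) (fun i => X.ps.D i (Hy.sg b))
      (fun i => X.ps.D i (f X b))) := S0.sg.mul (S0.sg.ip h (w'' := 1) (by rfl)) (by rfl)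
  exact h1.sub (h2.smul (((k + 1 : ℕ) : ℝ) - 2))

theorem S0.chi : S0 (k := k) 0 (fun X b => cst (b.Φ Fd.chi ![])) := by
  have h2 : NF (k := k) (EW 0) (Fin 0) (fun X b K => b.Φ Fd.chi ![]) := by
    refine (NF.of (FS.field (E := EW 0) Fd.chi ?_ ?_)).congr fun X b _ K => ?_
    · rintro ⟨j, hj⟩; cases hj
    · intro _
      exact EW_zero
    · show b.Φ Fd.chi K = b.Φ Fd.chi ![]
      congr 1
      funext s
      exact s.elim0
  exact SN.ofNF h2

theorem S0.ugm (m : ℕ) : S0 (k := k) 0 (fun X b => Hy.ugm b m) := by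
  induction m with
  | zero => exact S0.chi
  | succ m ih =>
    have h1 := (S0.Lop ih).cf (m + 1) (w' := ((m + 1 : ℕ) : WithTop ℤ)) (by simp)
    have h2 := S0.rp (k := k) (m + 1) (w := ((-(m + 1 : ℕ) : ℤ) : WithTop ℤ)) (by
      rw [← WithTop.coe_natCast, ← WithTop.coe_add]; simp)
    have h3 := h2.mul (h1.smul (-(((((m + 1 : ℕ) : ℝ) * (((m + 1 : ℕ) : ℝ) - k)))⁻¹)))
      (w'' := 0) (by
      rw [← WithTop.coe_natCast, ← WithTop.coe_add]; simp)
    refine S0.congr (ih.add h3) fun X b hb => ?_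
    show Hy.ugm b m + rr X ^ (m + 1) * (_ • cst _) = Hy.ugm b m + rr X ^ (m + 1) * cst (-(_ • _))
    rw [← cst_smul, neg_smul]

theorem S0.ug : S0 (k := k) 0 (fun X b => Hy.ug b) := S0.ugm _

theorem S2.tg : S2 (k := k) 0 (fun X b i j => Hy.tg b i j) := S2.tt S0.sg

theorem S0.os : S0 (k := k) 0 (fun X b => Hy.os b) := by
  have e1 : ((-1 : ℤ) : WithTop ℤ) + 2 = 1 := by rfl
  have h3 : S0 (k := k) 0 (fun X b => Hy.sg b * Hy.lap X.ps.D (gX b) (gXi b) (Hy.sg b)) :=
    S0.sg.mul (S0.sg.lap e1) (by rfl)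
  have h4 : S0 (k := k) 0 (fun X b => Hy.ip (gXi b) (fun i => X.ps.D i (Hy.sg b))
      (fun i => X.ps.D i (Hy.sg b))) := S0.sg.ip S0.sg (by rfl)
  exact (h3.sub ((h4.sub S0.one).smul (((k + 1 : ℕ) : ℝ) - 1))).smul _

theorem S2.Bf : S2 (k := k) 0 (fun X b i j => Hy.Bf b i j) := by
  have h1 : S2 (k := k) 0 (fun X b i j => Hy.os b * gX b i j) := S0.os.mul2 S2.g (by simp)
  refine S2.congr (S2.tg.add (h1.smul 2)) fun X b hb i j => ?_
  unfold Hy.Bf
  rw [ofNat_smul_eq_nsmul, two_nsmul]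
  ring

theorem S2.flow : S2 (k := k) 0 (fun X b i j => Hy.flow b i j) :=
  S2.Bf.GF (w' := ((-1 : ℤ) : WithTop ℤ)) (by rfl)

theorem S2.flowX : S2 (k := k) 0 (fun X b i j => Hy.flowX b i j) :=
  (S0.ug.mul2 S2.tg (by simp)).GF (w' := ((-1 : ℤ) : WithTop ℤ)) (by rfl)

theorem S2.dl {f : ∀ X : DR (k + 1), HD X → X.ps.R} (h : S0 w f) (hw : w' + 1 = w) :
    S2 w (fun X b i j => Hy.dl b (f X b) i j) := by
  have h1 : S2 w (fun X b i j => 2 * f X b * gX b i j) := by
    have h2 : S2 w (fun X b i j => f X b * gX b i j) := h.mul2 S2.g (by simp)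
    refine S2.congr (h2.smul 2) fun X b hb i j => ?_
    rw [ofNat_smul_eq_nsmul, two_nsmul]
    ring
  exact h1.GF hw

end Nat

end Run7.h96.Hy

end

section

/-!
Functoriality of the constructions and first order variations.
-/

set_option linter.all false
set_option maxHeartbeats 400000

open scoped BigOperators

namespace Run7.h96.Hy

open CInv

variable {k : ℕ}

/-- induced morphism of power series rings -/
noncomputable def DH.ps {X Y : DR (k + 1)} (θ : DH X Y) : DH X.ps Y.ps where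
  f := PowerSeries.mapAlgHom θ.f
  hd i a := by
    refine Fin.cases ?_ (fun i => ?_) i
    · apply ps_ext
      intro m
      show PowerSeries.coeff m (PowerSeries.mapAlgHom θ.f (dr X.R a))
        = PowerSeries.coeff m (dr Y.R (PowerSeries.mapAlgHom θ.f a))
      rw [dr_coeff', PowerSeries.mapAlgHom_apply, PowerSeries.mapAlgHom_apply,
        PowerSeries.coeff_map, PowerSeries.coeff_map, dr_coeff']
      exact map_smul θ.f _ _
    · apply ps_ext
      intro m
      show PowerSeries.coeff m (PowerSeries.mapAlgHom θ.f (psD (X.d i.succ) a))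
        = PowerSeries.coeff m (psD (Y.d i.succ) (PowerSeries.mapAlgHom θ.f a))
      rw [psD_coeff, PowerSeries.mapAlgHom_apply, PowerSeries.mapAlgHom_apply,
        PowerSeries.coeff_map, PowerSeries.coeff_map, psD_coeff]
      exact θ.hd _ _

/-- induced map on power series -/
noncomputable def psm {X Y : DR (k + 1)} (θ : DH X Y) (F : X.ps.R) : Y.ps.R := θ.ps.f F

section Psm

variable {X Y : DR (k + 1)} (θ : DH X Y)

theorem cf_psm (m : ℕ) (F : X.ps.R) : cf m (psm θ F) = θ.f (cf m F) := by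
  show PowerSeries.coeff m (PowerSeries.mapAlgHom θ.f F) = _
  rw [PowerSeries.mapAlgHom_apply, PowerSeries.coeff_map]
  rfl

theorem psm_add (F G : X.ps.R) : psm θ (F + G) = psm θ F + psm θ G := map_add θ.ps.f F G
theorem psm_sub (F G : X.ps.R) : psm θ (F - G) = psm θ F - psm θ G := map_sub θ.ps.f F G
theorem psm_mul (F G : X.ps.R) : psm θ (F * G) = psm θ F * psm θ G := map_mul θ.ps.f F G
theorem psm_neg (F : X.ps.R) : psm θ (-F) = -psm θ F := map_neg θ.ps.f F
theorem psm_zero : psm θ 0 = 0 := map_zero θ.ps.f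
theorem psm_one : psm θ 1 = 1 := map_one θ.ps.f
theorem psm_smul (t : ℝ) (F : X.ps.R) : psm θ (t • F) = t • psm θ F := map_smul θ.ps.f t F
theorem psm_sum {α : Type} (s : Finset α) (f : α → X.ps.R) :
    psm θ (∑ a ∈ s, f a) = ∑ a ∈ s, psm θ (f a) := map_sum θ.ps.f f s
theorem psm_D (i : Fin (k + 1)) (F : X.ps.R) : psm θ (X.ps.D i F) = Y.ps.D i (psm θ F) :=
  θ.ps.hd i F
theorem psm_cst (a : X.R) : psm θ (cst a) = cst (θ.f a) := by
  apply cf_ext
  intro m
  rw [cf_psm, cf_cst, cf_cst]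
  split_ifs
  · rfl
  · exact map_zero _
theorem psm_itg (F : X.ps.R) : psm θ (itgX F) = itgX (psm θ F) := by
  apply cf_ext
  intro m
  cases m with
  | zero => rw [cf_psm, cf_itg0, cf_itg0, map_zero]
  | succ m => rw [cf_psm, cf_itgs, cf_itgs, cf_psm, map_smul]
theorem psm_O {N : ℕ} {F : X.ps.R} (hF : O N F) : O N (psm θ F) := by
  intro m hm
  rw [cf_psm, hF m hm, map_zero]

theorem psm_gX (b : HD X) (i j : Fin (k + 1)) : gX (b.map θ.f) i j = psm θ (gX b i j) := by
  apply cf_ext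
  intro m
  rw [cf_psm, cf_gX, cf_gX]
  cases m with
  | zero => rfl
  | succ m => rfl

theorem psm_lie (V : Fin (k + 1) → X.ps.R) (T : Fin (k + 1) → Fin (k + 1) → X.ps.R)
    (i j : Fin (k + 1)) :
    psm θ (lie X.ps.D V T i j) = lie Y.ps.D (fun a => psm θ (V a)) (fun i j => psm θ (T i j)) i j := by
  unfold lie
  simp only [psm_add, psm_sum, psm_mul, psm_D]

theorem psm_along (V : Fin (k + 1) → X.ps.R) (F : X.ps.R) :
    psm θ (along X.ps.D V F) = along Y.ps.D (fun a => psm θ (V a)) (psm θ F) := by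
  unfold along
  simp only [psm_sum, psm_mul, psm_D]

theorem psm_metric {b : HD X} (hb : Fer b) :
    IsMetric (fun i j => psm θ (gX b i j)) (fun i j => psm θ (gXi b i j)) where
  symm i j := by rw [hb.metric.symm]
  inv i j := by
    have h1 := congrArg (psm θ) (hb.metric.inv i j)
    rw [psm_sum] at h1
    simp only [psm_mul] at h1
    rw [h1]
    split_ifs
    · exact psm_one θ
    · exact psm_zero θ

theorem psm_gXi {b : HD X} (hb : Fer b) (hY : ∀ f, Y.d 0 f = 0) (i j : Fin (k + 1)) :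
    gXi (b.map θ.f) i j = psm θ (gXi b i j) := by
  have h1 := (hb.map θ hY).metric
  have h2 := psm_metric θ hb
  have h3 : gX (b.map θ.f) = fun i j => psm θ (gX b i j) := by
    funext i j; exact psm_gX θ b i j
  rw [h3] at h1
  exact congrFun (congrFun (metric_unique h1 h2) i) j

theorem psm_gfV {b : HD X} (hb : Fer b) (hY : ∀ f, Y.d 0 f = 0)
    (T : Fin (k + 1) → Fin (k + 1) → X.ps.R) (c : Fin (k + 1)) :
    gfV (b.map θ.f) (fun i j => psm θ (T i j)) c = psm θ (gfV b T c) := by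
  unfold gfV
  simp only [psm_gXi θ hb hY, psm_neg, psm_itg, psm_sum, psm_mul, psm_add, psm_D, psm_smul]

theorem psm_GF {b : HD X} (hb : Fer b) (hY : ∀ f, Y.d 0 f = 0)
    (T : Fin (k + 1) → Fin (k + 1) → X.ps.R) (i j : Fin (k + 1)) :
    GF (b.map θ.f) (fun i j => psm θ (T i j)) i j = psm θ (GF b T i j) := by
  have h3 : gX (b.map θ.f) = fun i j => psm θ (gX b i j) := by
    funext i j; exact psm_gX θ b i j
  have h4 : gfV (b.map θ.f) (fun i j => psm θ (T i j)) = fun a => psm θ (gfV b T a) := by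
    funext a; exact psm_gfV θ hb hY T a
  unfold GF
  rw [psm_add, psm_lie, h3, h4]

theorem psm_two : psm θ 2 = 2 := map_ofNat θ.ps.f 2

theorem psm_dl {b : HD X} (hb : Fer b) (hY : ∀ f, Y.d 0 f = 0) (ω : X.ps.R) (i j : Fin (k + 1)) :
    dl (b.map θ.f) (psm θ ω) i j = psm θ (dl b ω i j) := by
  unfold dl
  rw [← psm_GF θ hb hY]
  congr 1
  funext i j
  rw [psm_mul, psm_mul, psm_two, psm_gX]

end Psm

theorem SN.map {w : WithTop ℤ} {κ : Type} {F : Tp k κ} (h : SN w κ F) {X Y : DR (k + 1)}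
    (θ : DH X Y) {b : HD X} (hb : Fer b) (hY : ∀ f, Y.d 0 f = 0) (K : κ → Fin (k + 1)) :
    F Y (b.map θ.f) K = psm θ (F X b K) := by
  apply cf_ext
  intro m
  rw [cf_psm]
  exact (h m).map θ hb hY K

theorem S0.map {w : WithTop ℤ} {F : ∀ X : DR (k + 1), HD X → X.ps.R} (h : S0 w F)
    {X Y : DR (k + 1)} (θ : DH X Y) {b : HD X} (hb : Fer b) (hY : ∀ f, Y.d 0 f = 0) :
    F Y (b.map θ.f) = psm θ (F X b) :=
  SN.map h θ hb hY ![]

theorem S2.map {w : WithTop ℤ} {F : ∀ X : DR (k + 1), HD X → Fin (k + 1) → Fin (k + 1) → X.ps.R}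
    (h : S2 w F) {X Y : DR (k + 1)} (θ : DH X Y) {b : HD X} (hb : Fer b) (hY : ∀ f, Y.d 0 f = 0)
    (i j : Fin (k + 1)) : F Y (b.map θ.f) i j = psm θ (F X b i j) :=
  SN.map h θ hb hY ![i, j]

/-! ### dual numbers -/

section Dual

variable {X : DR (k + 1)}

/-- the lift -/
noncomputable def lf (F : X.ps.R) : X.dual.ps.R := psm (inlH X) F

/-- infinitesimal parameter -/
noncomputable def ee (X : DR (k + 1)) : X.dual.ps.R := cst (eps 1)

/-- first component -/
noncomputable def fX (F : X.dual.ps.R) : X.ps.R := psm (fstH X) F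

/-- second component -/
noncomputable def sX (F : X.dual.ps.R) : X.ps.R :=
  (PowerSeries.mk fun m => sn (cf m F) : PowerSeries X.R)

theorem cf_lf (m : ℕ) (F : X.ps.R) : cf m (lf F) = (inlH X).f (cf m F) := cf_psm _ m F
theorem fs_cf_lf (m : ℕ) (F : X.ps.R) : fs (cf m (lf F)) = cf m F := by rw [cf_lf]; rfl
theorem sn_cf_lf (m : ℕ) (F : X.ps.R) : sn (cf m (lf F)) = 0 := by rw [cf_lf]; rfl
theorem cf_fX (m : ℕ) (F : X.dual.ps.R) : cf m (fX F) = fs (cf m F) := cf_psm _ m F
theorem cf_sX (m : ℕ) (F : X.dual.ps.R) : cf m (sX F) = sn (cf m F) := by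
  unfold sX cf
  exact PowerSeries.coeff_mk _ _

theorem cf_ee_mul (m : ℕ) (F : X.dual.ps.R) : cf m (ee X * F) = eps 1 * cf m F := cf_cst_mul m _ F

theorem fs_ee (m : ℕ) (F : X.dual.ps.R) : fs (cf m (ee X * F)) = 0 := by
  rw [cf_ee_mul]; simp
theorem sn_ee (m : ℕ) (F : X.dual.ps.R) : sn (cf m (ee X * F)) = fs (cf m F) := by
  rw [cf_ee_mul]; simp

theorem dps_ext {F G : X.dual.ps.R} (h1 : fX F = fX G) (h2 : sX F = sX G) : F = G := by
  apply cf_ext
  intro m
  apply dual_ext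
  · rw [← cf_fX, ← cf_fX, h1]
  · rw [← cf_sX, ← cf_sX, h2]

theorem ee_sq : ee X * ee X = 0 := by
  unfold ee
  rw [← cst_mul]
  have : (eps 1 * eps 1 : X.dual.R) = 0 := by
    apply dual_ext <;> simp
  rw [this, cst_zero]

theorem D_ee (h0 : ∀ f, X.d 0 f = 0) (i : Fin (k + 1)) : X.dual.ps.D i (ee X) = 0 := by
  unfold ee
  rw [D_cst]
  · have : X.dual.d i (eps (1 : X.R)) = 0 := by
      apply dual_ext
      · rw [fs_d]; simp
      · rw [sn_d, sn_eps]; exact (X.d i).map_one_eq_zero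
    rw [this, cst_zero]
  · intro f
    apply dual_ext
    · rw [fs_d]; exact h0 _
    · rw [sn_d]; exact h0 _

theorem dual_d0 (h0 : ∀ f, X.d 0 f = 0) (f : X.dual.R) : X.dual.d 0 f = 0 := by
  apply dual_ext
  · rw [fs_d]; exact h0 _
  · rw [sn_d]; exact h0 _

theorem decomp (F : X.dual.ps.R) : F = lf (fX F) + ee X * lf (sX F) := by
  apply cf_ext
  intro m
  rw [cf_add]
  apply dual_ext
  · rw [fs_add, fs_cf_lf, fs_ee, cf_fX, add_zero]
  · rw [sn_add, sn_cf_lf, sn_ee, fs_cf_lf, cf_sX, zero_add]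

theorem fX_lf (F : X.ps.R) : fX (lf F) = F := cf_ext fun m => by rw [cf_fX, fs_cf_lf]
theorem sX_lf (F : X.ps.R) : sX (lf F) = 0 := cf_ext fun m => by rw [cf_sX, sn_cf_lf, cf_zero]
theorem fX_ee (F : X.dual.ps.R) : fX (ee X * F) = 0 := cf_ext fun m => by rw [cf_fX, fs_ee, cf_zero]
theorem sX_ee (F : X.dual.ps.R) : sX (ee X * F) = fX F := cf_ext fun m => by
  rw [cf_sX, sn_ee, cf_fX]
theorem fX_add (F G : X.dual.ps.R) : fX (F + G) = fX F + fX G := psm_add _ F G
theorem sX_add (F G : X.dual.ps.R) : sX (F + G) = sX F + sX G := cf_ext fun m => by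
  rw [cf_add, cf_sX, cf_sX, cf_sX, cf_add, sn_add]
theorem fX_sub (F G : X.dual.ps.R) : fX (F - G) = fX F - fX G := psm_sub _ F G
theorem sX_sub (F G : X.dual.ps.R) : sX (F - G) = sX F - sX G := cf_ext fun m => by
  rw [cf_sub, cf_sX, cf_sX, cf_sX, cf_sub, sn_sub]

theorem O_fX {N : ℕ} {F : X.dual.ps.R} (h : O N F) : O N (fX F) := psm_O _ h
theorem O_sX {N : ℕ} {F : X.dual.ps.R} (h : O N F) : O N (sX F) := by
  intro m hm
  rw [cf_sX, h m hm]; rfl

theorem O_lf {N : ℕ} {F : X.ps.R} (h : O N F) : O N (lf F) := psm_O _ h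

theorem lf_add (F G : X.ps.R) : lf (F + G) = lf F + lf G := psm_add _ F G
theorem lf_sub (F G : X.ps.R) : lf (F - G) = lf F - lf G := psm_sub _ F G
theorem lf_mul (F G : X.ps.R) : lf (F * G) = lf F * lf G := psm_mul _ F G

end Dual

/-! ### variations -/

/-- the variation of the fields given by a series -/
noncomputable def toFl {X : DR (k + 1)} (β : Fin (k + 1) → Fin (k + 1) → X.ps.R) : Fl X Fd ρF :=
  fun j => match j with
  | Fd.h j => fun K => cf (j + 1) (β (K 0) (K 1))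
  | Fd.nu => fun _ => 0
  | Fd.chi => fun _ => 0
  | Fd.om _ => fun _ => 0

section Vary

variable {X : DR (k + 1)} {b : HD X}

open Classical in
theorem vary_h (b : HD X) (Ψ : Fl X Fd ρF) (j : ℕ) (K : Fin 2 → Fin (k + 1)) :
    (b.vary Sh Ψ).Φ (Fd.h j) K = (inlH X).f (b.Φ (Fd.h j) K) + eps (Ψ (Fd.h j) K) := by
  show (TrivSqZeroExt.inl (b.Φ (Fd.h j) K) : DualNumber X.R)
    + (if Fd.h j ∈ Sh then TrivSqZeroExt.inr (Ψ (Fd.h j) K) else 0) = _
  rw [if_pos ⟨j, rfl⟩]
  rfl

open Classical in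
theorem vary_nh (b : HD X) (Ψ : Fl X Fd ρF) (j : Fd) (hj : j ∉ Sh) (K : Fin (ρF j) → Fin (k + 1)) :
    (b.vary Sh Ψ).Φ j K = (inlH X).f (b.Φ j K) := by
  show (TrivSqZeroExt.inl (b.Φ j K) : DualNumber X.R)
    + (if j ∈ Sh then TrivSqZeroExt.inr (Ψ j K) else 0) = _
  rw [if_neg hj]
  exact add_zero (TrivSqZeroExt.inl (b.Φ j K) : DualNumber X.R)

theorem gX_vary {β : Fin (k + 1) → Fin (k + 1) → X.ps.R} (h0 : ∀ i j, cf 0 (β i j) = 0)
    (i j : Fin (k + 1)) :
    gX (b.vary Sh (toFl β)) i j = lf (gX b i j) + ee X * lf (β i j) := by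
  apply cf_ext
  intro m
  rw [cf_add, cf_gX, cf_lf, cf_gX, cf_ee_mul, cf_lf]
  cases m with
  | zero =>
    rw [h0, map_zero, mul_zero, add_zero]
    rfl
  | succ m =>
    show (b.vary Sh (toFl β)).Φ (Fd.h m) ![i, j] = _
    rw [vary_h]
    congr 1
    apply dual_ext
    · simp
    · simp only [sn_eps, sn_mul, fs_eps, zero_mul, fs_inl, one_mul, zero_add]
      rfl

theorem Fer.vary (hb : Fer b) {β : Fin (k + 1) → Fin (k + 1) → X.ps.R} (h0 : ∀ i, β 0 i = 0)
    (hs : ∀ i j, β i j = β j i) : Fer (b.vary Sh (toFl β)) where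
  d0 := dual_d0 hb.d0
  g00 := by
    show (inlH X).f (b.G 0 0) = 1
    rw [hb.g00, map_one]
  g0 a := by
    show (inlH X).f (b.G 0 a.succ) = 0
    rw [hb.g0, map_zero]
  nu K := by
    rw [vary_nh b _ Fd.nu (by rintro ⟨j, hj⟩; cases hj), hb.nu]
    split_ifs
    · exact map_one _
    · exact map_zero _
  h0 j i := by
    rw [vary_h, hb.h0, map_zero, zero_add]
    show eps (cf (j + 1) (β 0 i)) = 0
    rw [h0, cf_zero]
    rfl
  hs j i i' := by
    rw [vary_h, vary_h, hb.hs]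
    congr 1
    show eps (cf (j + 1) (β i i')) = eps (cf (j + 1) (β i' i))
    rw [hs]

/-- first order change of the metric in Fermi gauge -/
noncomputable def bump (b : HD X) (δ : Fin (k + 1) → Fin (k + 1) → X.ps.R) : HD X.dual where
  G i j := (inlH X).f (b.G i j) + eps ((1 / 2 : ℝ) • (cf 0 (δ i j) + cf 0 (δ j i)))
  Gi i j := (inlH X).f (b.Gi i j) - eps (∑ p, ∑ q, b.Gi i p
    * ((1 / 2 : ℝ) • (cf 0 (δ p q) + cf 0 (δ q p))) * b.Gi q j)
  Φ j K := (inlH X).f (b.Φ j K) + eps (toFl δ j K)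
  met := {
    symm := fun i j => by rw [b.symm, add_comm (cf 0 (δ i j))]
    inv := fun i j => by
      apply dual_ext
      · rw [fs_sum]
        have h1 : ∀ p, fs (((inlH X).f (b.G i p) + eps ((1 / 2 : ℝ) • (cf 0 (δ i p) + cf 0 (δ p i))))
          * ((inlH X).f (b.Gi p j) - eps (∑ p', ∑ q, b.Gi p p'
            * ((1 / 2 : ℝ) • (cf 0 (δ p' q) + cf 0 (δ q p'))) * b.Gi q j)))
          = b.G i p * b.Gi p j := by
          intro p
          simp [fs_inl]
        simp only [h1]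
        rw [b.inv]
        split_ifs <;> rfl
      · rw [sn_sum]
        set e : Fin (k + 1) → Fin (k + 1) → X.R := fun p q =>
          (1 / 2 : ℝ) • (cf 0 (δ p q) + cf 0 (δ q p)) with he
        have h1 : ∀ p, sn (((inlH X).f (b.G i p) + eps (e i p))
          * ((inlH X).f (b.Gi p j) - eps (∑ p', ∑ q, b.Gi p p' * e p' q * b.Gi q j)))
          = e i p * b.Gi p j - b.G i p * ∑ p', ∑ q, b.Gi p p' * e p' q * b.Gi q j := by
          intro p
          simp only [sn_mul, fs_add, fs_sub, sn_add, sn_sub, fs_inl, sn_inl, fs_eps, sn_eps]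
          ring
        have h3 : ∑ p, b.G i p * ∑ p', ∑ q, b.Gi p p' * e p' q * b.Gi q j
            = ∑ q, e i q * b.Gi q j := by
          have : ∀ p, b.G i p * ∑ p', ∑ q, b.Gi p p' * e p' q * b.Gi q j
              = ∑ p', (b.G i p * b.Gi p p') * ∑ q, e p' q * b.Gi q j := by
            intro p
            rw [Finset.mul_sum]
            refine Finset.sum_congr rfl fun p' _ => ?_
            rw [Finset.mul_sum, Finset.mul_sum]
            exact Finset.sum_congr rfl fun q _ => by ring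
          simp only [this]
          rw [Finset.sum_comm]
          simp only [← Finset.sum_mul, b.inv, ite_mul, one_mul, zero_mul, Finset.sum_ite_eq,
            Finset.mem_univ, if_true]
        have h4 : ∑ p, sn (((inlH X).f (b.G i p) + eps (e i p))
          * ((inlH X).f (b.Gi p j) - eps (∑ p', ∑ q, b.Gi p p' * e p' q * b.Gi q j))) = 0 := by
          simp only [h1, Finset.sum_sub_distrib, h3, sub_self]
        refine Eq.trans h4 ?_
        split_ifs <;> rfl }

theorem gX_bump {δ : Fin (k + 1) → Fin (k + 1) → X.ps.R} (hs : ∀ i j, δ i j = δ j i)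
    (i j : Fin (k + 1)) :
    gX (bump b δ) i j = lf (gX b i j) + ee X * lf (δ i j) := by
  apply cf_ext
  intro m
  rw [cf_add, cf_gX, cf_lf, cf_gX, cf_ee_mul, cf_lf]
  cases m with
  | zero =>
    show (inlH X).f (b.G i j) + eps ((1 / 2 : ℝ) • (cf 0 (δ i j) + cf 0 (δ j i))) = _
    congr 1
    have h1 : (1 / 2 : ℝ) • (cf 0 (δ i j) + cf 0 (δ j i)) = cf 0 (δ i j) := by
      rw [hs j i, ← two_smul ℝ, smul_smul]; norm_num
    rw [h1]
    apply dual_ext
    · simp
    · simp only [sn_eps, sn_mul, fs_eps, zero_mul, fs_inl, one_mul, zero_add]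
  | succ m =>
    show (inlH X).f (b.Φ (Fd.h m) ![i, j]) + eps (toFl δ (Fd.h m) ![i, j]) = _
    congr 1
    apply dual_ext
    · simp
    · simp only [sn_eps, sn_mul, fs_eps, zero_mul, fs_inl, one_mul, zero_add]
      rfl

theorem Fer.bump (hb : Fer b) {δ : Fin (k + 1) → Fin (k + 1) → X.ps.R} (h0 : ∀ i, δ 0 i = 0)
    (hs : ∀ i j, δ i j = δ j i) : Fer (Hy.bump b δ) where
  d0 := dual_d0 hb.d0
  g00 := by
    show (inlH X).f (b.G 0 0) + eps ((1 / 2 : ℝ) • (cf 0 (δ 0 0) + cf 0 (δ 0 0))) = 1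
    rw [hb.g00, h0, cf_zero, map_one]
    apply dual_ext <;> simp
  g0 a := by
    show (inlH X).f (b.G 0 a.succ) + eps ((1 / 2 : ℝ) • (cf 0 (δ 0 a.succ) + cf 0 (δ a.succ 0))) = 0
    rw [hb.g0, hs a.succ 0, h0, cf_zero, map_zero]
    apply dual_ext <;> simp
  nu K := by
    show (inlH X).f (b.Φ Fd.nu K) + eps 0 = _
    rw [hb.nu]
    split_ifs
    · rw [map_one]; apply dual_ext <;> simp
    · rw [map_zero]; apply dual_ext <;> simp
  h0 j i := by
    show (inlH X).f (b.Φ (Fd.h j) ![0, i]) + eps (cf (j + 1) (δ 0 i)) = 0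
    rw [hb.h0, h0, cf_zero, map_zero]
    apply dual_ext <;> simp
  hs j i i' := by
    show (inlH X).f (b.Φ (Fd.h j) ![i, i']) + eps (cf (j + 1) (δ i i'))
      = (inlH X).f (b.Φ (Fd.h j) ![i', i]) + eps (cf (j + 1) (δ i' i))
    rw [hb.hs, hs]

end Vary

end Run7.h96.Hy

end

section

/-!
Lie derivatives of 2-tensors: Leibniz rules and commutators.
-/

set_option linter.all false
set_option maxHeartbeats 400000

open scoped BigOperators

namespace Run7.h96.Hy

open CInv

section LieL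

variable {n : ℕ} {A : Type} [CommRing A] [Algebra ℝ A] {D : Fin n → A → A}

theorem along_sum (hD : IsDer D) (V : Fin n → A) {ι : Type} (s : Finset ι) (f : ι → A) :
    along D V (∑ a ∈ s, f a) = ∑ a ∈ s, along D V (f a) := by
  unfold along
  simp only [der_sum hD, Finset.mul_sum]
  rw [Finset.sum_comm]

theorem along_smulε (hD : IsDer D) (V : Fin n → A) (ε f : A) :
    along D (fun a => ε * V a) f = ε * along D V f := by
  unfold along
  rw [Finset.mul_sum]
  exact Finset.sum_congr rfl fun a _ => by ring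

theorem along_ε (hD : IsDer D) (V : Fin n → A) {ε : A} (hε : ∀ i, D i ε = 0) (f : A) :
    along D V (ε * f) = ε * along D V f := by
  rw [along_mul hD]
  have : along D V ε = 0 := by
    unfold along
    simp [hε]
  rw [this]; ring

theorem along_addV (V V' : Fin n → A) (f : A) :
    along D (fun a => V a + V' a) f = along D V f + along D V' f := by
  unfold along
  simp only [add_mul, Finset.sum_add_distrib]

theorem lie_addT (hD : IsDer D) (V : Fin n → A) (T T' : Fin n → Fin n → A) (i j : Fin n) :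
    lie D V (fun i j => T i j + T' i j) i j = lie D V T i j + lie D V T' i j := by
  unfold lie
  simp only [hD.add, mul_add, Finset.sum_add_distrib]
  ring

theorem lie_addV (hD : IsDer D) (V V' : Fin n → A) (T : Fin n → Fin n → A) (i j : Fin n) :
    lie D (fun a => V a + V' a) T i j = lie D V T i j + lie D V' T i j := by
  unfold lie
  simp only [hD.add, add_mul, Finset.sum_add_distrib]
  ring

theorem lie_subV (hD : IsDer D) (V V' : Fin n → A) (T : Fin n → Fin n → A) (i j : Fin n) :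
    lie D (fun a => V a - V' a) T i j = lie D V T i j - lie D V' T i j := by
  unfold lie
  simp only [der_sub hD, sub_mul, Finset.sum_sub_distrib]
  ring

theorem lie_mulT (hD : IsDer D) (V : Fin n → A) (f : A) (T : Fin n → Fin n → A) (i j : Fin n) :
    lie D V (fun i j => f * T i j) i j = along D V f * T i j + f * lie D V T i j := by
  unfold lie along
  simp only [hD.mul, mul_add, Finset.sum_add_distrib, Finset.sum_mul, Finset.mul_sum]
  have e1 : ∑ a, V a * (D a f * T i j) = ∑ a, V a * D a f * T i j :=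
    Finset.sum_congr rfl fun a _ => by ring
  have e2 : ∑ a, V a * (f * D a (T i j)) = ∑ a, f * (V a * D a (T i j)) :=
    Finset.sum_congr rfl fun a _ => by ring
  have e3 : ∑ a, D i (V a) * (f * T a j) = ∑ a, f * (D i (V a) * T a j) :=
    Finset.sum_congr rfl fun a _ => by ring
  have e4 : ∑ a, D j (V a) * (f * T i a) = ∑ a, f * (D j (V a) * T i a) :=
    Finset.sum_congr rfl fun a _ => by ring
  rw [e1, e2, e3, e4]
  ring

theorem lie_εT (hD : IsDer D) (V : Fin n → A) {ε : A} (hε : ∀ i, D i ε = 0)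
    (T : Fin n → Fin n → A) (i j : Fin n) :
    lie D V (fun i j => ε * T i j) i j = ε * lie D V T i j := by
  rw [lie_mulT hD]
  have : along D V ε = 0 := by
    unfold along
    simp [hε]
  rw [this]; ring

theorem lie_εV (hD : IsDer D) (V : Fin n → A) {ε : A} (hε : ∀ i, D i ε = 0)
    (T : Fin n → Fin n → A) (i j : Fin n) :
    lie D (fun a => ε * V a) T i j = ε * lie D V T i j := by
  unfold lie
  simp only [hD.mul, hε, zero_mul, zero_add, mul_add, Finset.mul_sum]
  have e2 : ∑ a, ε * V a * D a (T i j) = ∑ a, ε * (V a * D a (T i j)) :=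
    Finset.sum_congr rfl fun a _ => by ring
  have e3 : ∑ a, ε * D i (V a) * T a j = ∑ a, ε * (D i (V a) * T a j) :=
    Finset.sum_congr rfl fun a _ => by ring
  have e4 : ∑ a, ε * D j (V a) * T i a = ∑ a, ε * (D j (V a) * T i a) :=
    Finset.sum_congr rfl fun a _ => by ring
  rw [e2, e3, e4]

/-- bracket of vector fields -/
def br (D : Fin n → A → A) (V Z : Fin n → A) (a : Fin n) : A := along D V (Z a) - along D Z (V a)

theorem D_along (hD : IsDer D) (V : Fin n → A) (f : A) (i : Fin n) :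
    D i (along D V f) = (∑ b, D i (V b) * D b f) + along D V (D i f) := by
  unfold along
  rw [der_sum hD, ← Finset.sum_add_distrib]
  refine Finset.sum_congr rfl fun b _ => ?_
  rw [hD.mul, hD.comm i b]

theorem along_comm (hD : IsDer D) (V Z : Fin n → A) (f : A) :
    along D V (along D Z f) = along D Z (along D V f) + along D (br D V Z) f := by
  have h1 : ∀ V Z : Fin n → A, along D V (along D Z f)
      = (∑ a, along D V (Z a) * D a f) + ∑ a, ∑ b, Z a * V b * D b (D a f) := by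
    intro V Z
    have : along D Z f = ∑ a, Z a * D a f := rfl
    rw [this, along_sum hD, ← Finset.sum_add_distrib]
    refine Finset.sum_congr rfl fun a _ => ?_
    rw [along_mul hD]
    congr 1
    unfold along
    rw [Finset.mul_sum]
    exact Finset.sum_congr rfl fun b _ => by ring
  rw [h1 V Z, h1 Z V]
  have h2 : ∑ a, ∑ b, Z a * V b * D b (D a f) = ∑ a, ∑ b, V a * Z b * D b (D a f) := by
    rw [Finset.sum_comm]
    refine Finset.sum_congr rfl fun a _ => Finset.sum_congr rfl fun b _ => ?_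
    rw [hD.comm a b]; ring
  have h3 : along D (br D V Z) f = (∑ a, along D V (Z a) * D a f) - ∑ a, along D Z (V a) * D a f := by
    unfold br
    conv_lhs => unfold along
    rw [← Finset.sum_sub_distrib]
    refine Finset.sum_congr rfl fun a _ => ?_
    unfold along; ring
  rw [h2, h3]; ring

theorem lie_lie (hD : IsDer D) (V Z : Fin n → A) (T : Fin n → Fin n → A) (i j : Fin n) :
    lie D V (lie D Z T) i j = along D V (along D Z (T i j))
      + (∑ a, along D V (D i (Z a)) * T a j) + (∑ a, D i (Z a) * along D V (T a j))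
      + (∑ a, along D V (D j (Z a)) * T i a) + (∑ a, D j (Z a) * along D V (T i a))
      + (∑ b, D i (V b) * along D Z (T b j)) + (∑ b, ∑ a, D i (V b) * D b (Z a) * T a j)
      + (∑ b, ∑ a, D i (V b) * D j (Z a) * T b a)
      + (∑ b, D j (V b) * along D Z (T i b)) + (∑ b, ∑ a, D j (V b) * D i (Z a) * T a b)
      + (∑ b, ∑ a, D j (V b) * D b (Z a) * T i a) := by
  have h0 : ∀ i j, lie D Z T i j = along D Z (T i j) + (∑ a, D i (Z a) * T a j)
      + ∑ a, D j (Z a) * T i a := fun i j => rfl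
  have h1 : lie D V (lie D Z T) i j = along D V (lie D Z T i j)
      + (∑ b, D i (V b) * lie D Z T b j) + ∑ b, D j (V b) * lie D Z T i b := rfl
  rw [h1]
  simp only [h0, along_add hD, along_sum hD, along_mul hD, mul_add, Finset.sum_add_distrib,
    Finset.mul_sum]
  have e1 : ∑ b, ∑ a, D i (V b) * (D b (Z a) * T a j) = ∑ b, ∑ a, D i (V b) * D b (Z a) * T a j :=
    Finset.sum_congr rfl fun b _ => Finset.sum_congr rfl fun a _ => by ring
  have e2 : ∑ b, ∑ a, D i (V b) * (D j (Z a) * T b a) = ∑ b, ∑ a, D i (V b) * D j (Z a) * T b a :=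
    Finset.sum_congr rfl fun b _ => Finset.sum_congr rfl fun a _ => by ring
  have e3 : ∑ b, ∑ a, D j (V b) * (D i (Z a) * T a b) = ∑ b, ∑ a, D j (V b) * D i (Z a) * T a b :=
    Finset.sum_congr rfl fun b _ => Finset.sum_congr rfl fun a _ => by ring
  have e4 : ∑ b, ∑ a, D j (V b) * (D b (Z a) * T i a) = ∑ b, ∑ a, D j (V b) * D b (Z a) * T i a :=
    Finset.sum_congr rfl fun b _ => Finset.sum_congr rfl fun a _ => by ring
  rw [e1, e2, e3, e4]
  ring

theorem lie_br (hD : IsDer D) (V Z : Fin n → A) (T : Fin n → Fin n → A) (i j : Fin n) :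
    lie D (br D V Z) T i j = along D (br D V Z) (T i j)
      + (∑ a, along D V (D i (Z a)) * T a j) + (∑ b, ∑ a, D i (V b) * D b (Z a) * T a j)
      - (∑ a, along D Z (D i (V a)) * T a j) - (∑ b, ∑ a, D i (Z b) * D b (V a) * T a j)
      + (∑ a, along D V (D j (Z a)) * T i a) + (∑ b, ∑ a, D j (V b) * D b (Z a) * T i a)
      - (∑ a, along D Z (D j (V a)) * T i a) - (∑ b, ∑ a, D j (Z b) * D b (V a) * T i a) := by
  have h1 : lie D (br D V Z) T i j = along D (br D V Z) (T i j)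
      + (∑ a, D i (br D V Z a) * T a j) + ∑ a, D j (br D V Z a) * T i a := rfl
  have h2 : ∀ i a, D i (br D V Z a) = (∑ b, D i (V b) * D b (Z a)) + along D V (D i (Z a))
      - (∑ b, D i (Z b) * D b (V a)) - along D Z (D i (V a)) := by
    intro i a
    unfold br
    rw [der_sub hD, D_along hD, D_along hD]; ring
  rw [h1]
  simp only [h2, sub_mul, add_mul, Finset.sum_add_distrib, Finset.sum_sub_distrib, Finset.sum_mul]
  have e1 : ∑ a, ∑ b, D i (V b) * D b (Z a) * T a j = ∑ b, ∑ a, D i (V b) * D b (Z a) * T a j :=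
    Finset.sum_comm
  have e2 : ∑ a, ∑ b, D i (Z b) * D b (V a) * T a j = ∑ b, ∑ a, D i (Z b) * D b (V a) * T a j :=
    Finset.sum_comm
  have e3 : ∑ a, ∑ b, D j (V b) * D b (Z a) * T i a = ∑ b, ∑ a, D j (V b) * D b (Z a) * T i a :=
    Finset.sum_comm
  have e4 : ∑ a, ∑ b, D j (Z b) * D b (V a) * T i a = ∑ b, ∑ a, D j (Z b) * D b (V a) * T i a :=
    Finset.sum_comm
  rw [e1, e2, e3, e4]
  ring

theorem lie_comm (hD : IsDer D) (V Z : Fin n → A) (T : Fin n → Fin n → A) (i j : Fin n) :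
    lie D V (lie D Z T) i j = lie D Z (lie D V T) i j + lie D (br D V Z) T i j := by
  rw [lie_lie hD, lie_lie hD, lie_br hD, along_comm hD V Z]
  have e1 : ∑ b, ∑ a, D i (V b) * D j (Z a) * T b a = ∑ b, ∑ a, D j (Z b) * D i (V a) * T a b := by
    rw [Finset.sum_comm]
    exact Finset.sum_congr rfl fun b _ => Finset.sum_congr rfl fun a _ => by ring
  have e2 : ∑ b, ∑ a, D i (Z b) * D j (V a) * T b a = ∑ b, ∑ a, D j (V b) * D i (Z a) * T a b := by
    rw [Finset.sum_comm]
    exact Finset.sum_congr rfl fun b _ => Finset.sum_congr rfl fun a _ => by ring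
  rw [e1, e2]
  ring

end LieL

end Run7.h96.Hy

end

section

/-!
Commutator of a flow with the infinitesimal conformal changes.
-/

set_option linter.all false
set_option maxHeartbeats 400000

open scoped BigOperators

namespace Run7.h96.Hy

open CInv

variable {k : ℕ}

theorem BD.ext' {n : ℕ} {X : DR n} {J : Type} {ρ : J → ℕ} {b b' : BD X J ρ} (h1 : b.G = b'.G)
    (h2 : b.Gi = b'.Gi) (h3 : b.Φ = b'.Φ) : b = b' := by
  cases b; cases b'
  simp only at h1 h2 h3
  subst h1 h2 h3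
  rfl

section Comm

variable {X : DR (k + 1)} {b : HD X}

theorem sX_mul (F G : X.dual.ps.R) : sX (F * G) = fX F * sX G + sX F * fX G := by
  apply cf_ext
  intro m
  rw [cf_sX, cf_mul, sn_sum, cf_add, cf_mul, cf_mul, ← Finset.sum_add_distrib]
  refine Finset.sum_congr rfl fun p _ => ?_
  rw [sn_mul, cf_fX, cf_sX, cf_sX, cf_fX]

theorem fX_mul (F G : X.dual.ps.R) : fX (F * G) = fX F * fX G := psm_mul _ F G

theorem fX_sum {α : Type} (s : Finset α) (f : α → X.dual.ps.R) :
    fX (∑ a ∈ s, f a) = ∑ a ∈ s, fX (f a) := psm_sum _ s f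

theorem sX_sum {α : Type} (s : Finset α) (f : α → X.dual.ps.R) :
    sX (∑ a ∈ s, f a) = ∑ a ∈ s, sX (f a) := by
  apply cf_ext
  intro m
  rw [cf_sX, cf_sum, sn_sum, cf_sum]
  refine Finset.sum_congr rfl fun p _ => ?_
  rw [cf_sX]

theorem fX_D (i : Fin (k + 1)) (F : X.dual.ps.R) : fX (X.dual.ps.D i F) = X.ps.D i (fX F) :=
  psm_D _ i F

theorem sX_D (i : Fin (k + 1)) (F : X.dual.ps.R) : sX (X.dual.ps.D i F) = X.ps.D i (sX F) := by
  apply cf_ext
  intro m
  rw [cf_sX]
  refine Fin.cases ?_ (fun i => ?_) i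
  · rw [cf_d0, cf_d0, cf_sX, sn_smul]
  · rw [cf_ds, cf_ds, cf_sX, sn_d]

theorem fX_smul (t : ℝ) (F : X.dual.ps.R) : fX (t • F) = t • fX F := psm_smul _ t F
theorem sX_smul (t : ℝ) (F : X.dual.ps.R) : sX (t • F) = t • sX F := by
  apply cf_ext
  intro m
  rw [cf_sX, cf_smul, cf_smul, cf_sX, sn_smul]

theorem sX_lie (V : Fin (k + 1) → X.dual.ps.R) (T : Fin (k + 1) → Fin (k + 1) → X.dual.ps.R)
    (i j : Fin (k + 1)) :
    sX (lie X.dual.ps.D V T i j) = lie X.ps.D (fun a => sX (V a)) (fun i j => fX (T i j)) i j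
      + lie X.ps.D (fun a => fX (V a)) (fun i j => sX (T i j)) i j := by
  unfold lie
  simp only [sX_add, sX_sum, sX_mul, sX_D, fX_D, Finset.sum_add_distrib]
  ring

theorem fst_vary (b : HD X) (Ψ : Fl X Fd ρF) : (b.vary Sh Ψ).map (fstH X).f = b := by
  classical
  refine BD.ext' ?_ ?_ ?_
  · funext i j; rfl
  · funext i j; rfl
  · funext j K
    by_cases hj : j ∈ Sh
    · obtain ⟨j', rfl⟩ := hj
      show fs ((b.vary Sh Ψ).Φ (Fd.h j') K) = _
      rw [vary_h]
      simp [fs_inl]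
    · show fs ((b.vary Sh Ψ).Φ j K) = _
      rw [vary_nh _ _ _ hj]
      rfl

theorem fst_bump (b : HD X) (δ : Fin (k + 1) → Fin (k + 1) → X.ps.R) :
    (bump b δ).map (fstH X).f = b := by
  refine BD.ext' ?_ ?_ ?_
  · funext i j
    show fs ((inlH X).f (b.G i j) + eps _) = _
    simp [fs_inl]
  · funext i j
    show fs ((inlH X).f (b.Gi i j) - eps _) = _
    simp [fs_inl]
  · funext j K
    show fs ((inlH X).f (b.Φ j K) + eps _) = _
    simp [fs_inl]

theorem gfV_O' {T : Fin (k + 1) → Fin (k + 1) → X.ps.R} {N : ℕ} (hT : ∀ i j, O N (T i j))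
    (c : Fin (k + 1)) : O (N + 1) (gfV b T c) := by
  unfold gfV
  refine O.neg (O.itg (O.sum _ fun d _ => O.mul_left _ ((hT 0 d).add ?_)))
  exact (O.neg (O.smul _ (hT 0 0).itg)).di d

theorem GF_O {T : Fin (k + 1) → Fin (k + 1) → X.ps.R} {N : ℕ} (hT : ∀ i j, O N (T i j))
    (i j : Fin (k + 1)) : O N (GF b T i j) := by
  unfold GF
  exact (hT i j).add (lie_O (fun a => gfV_O' hT a) _ i j)

theorem along_O {V : Fin (k + 1) → X.ps.R} {N : ℕ} (hV : ∀ a, O (N + 1) (V a)) (F : X.ps.R) :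
    O (N + 1) (along X.ps.D V F) := by
  unfold along
  exact O.sum _ fun a _ => (hV a).mul_right _

theorem along_O' {V : Fin (k + 1) → X.ps.R} {N : ℕ} (hV : ∀ a, O 1 (V a)) {F : X.ps.R}
    (hF : O (N + 1) F) : O (N + 1) (along X.ps.D V F) := by
  unfold along
  refine O.sum _ fun a _ => ?_
  have := (hV a).mul (hF.di a)
  exact this.mono (by omega)

theorem O1_of {F : X.ps.R} (h : cf 0 F = 0) : O 1 F := by
  intro m hm
  have : m = 0 := by omega
  subst this
  exact h

theorem comm_gen (hb : Fer b) (ω : X.ps.R) {T : Fin (k + 1) → Fin (k + 1) → X.ps.R}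
    (hTs : ∀ i j, T i j = T j i) (hT1 : ∀ i j, O 1 (T i j))
    {T' : Fin (k + 1) → Fin (k + 1) → X.dual.ps.R}
    (ψ : X.ps.R) (hψ : cf 0 ψ = 0)
    (hf : ∀ i j, O (k + 1) (fX (T' i j) - T i j))
    (hs : ∀ i j, O (k + 1) (sX (T' i j) - (2 * ω * T i j
      + lie X.ps.D (gfV b (fun i j => 2 * ω * gX b i j)) T i j + 2 * ψ * gX b i j))) :
    ∃ ω' : X.ps.R, cf 0 ω' = 0 ∧ ∀ i j, O (k + 1) (sX (GF (bump b (dl b ω)) T' i j)
      - sX (dl (b.vary Sh (toFl (GF b T))) (lf ω) i j) - dl b ω' i j) := by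
  have hD := X.ps.isDer
  set g := gX b with hg
  set Z := gfV b (fun i j => 2 * ω * gX b i j) with hZ
  set δ := dl b ω with hδ
  set β := GF b T with hβ
  set V := gfV b T with hV
  have hδs : ∀ i j, δ i j = δ j i := fun i j =>
    GF_symm hb (fun i j => by rw [hb.metric.symm i j]) i j
  have hδ0 : ∀ i, δ 0 i = 0 := fun i => GF_zero hb i
  have hβs : ∀ i j, β i j = β j i := fun i j => GF_symm hb hTs i j
  have hβ0 : ∀ i, β 0 i = 0 := fun i => GF_zero hb i
  have hβ1 : ∀ i j, cf 0 (β i j) = 0 := fun i j => GF_O hT1 i j 0 (by omega)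
  have hb2 : Fer (bump b δ) := hb.bump hδ0 hδs
  have hb1 : Fer (b.vary Sh (toFl β)) := hb.vary hβ0 hβs
  have hd0 : ∀ f, X.d 0 f = 0 := hb.d0
  -- components of the metrics
  have g2f : ∀ i j, fX (gX (bump b δ) i j) = g i j := by
    intro i j
    rw [gX_bump hδs, fX_add, fX_lf, fX_ee, add_zero]
  have g2s : ∀ i j, sX (gX (bump b δ) i j) = δ i j := by
    intro i j
    rw [gX_bump hδs, sX_add, sX_lf, sX_ee, fX_lf, zero_add]
  have g1f : ∀ i j, fX (gX (b.vary Sh (toFl β)) i j) = g i j := by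
    intro i j
    rw [gX_vary hβ1, fX_add, fX_lf, fX_ee, add_zero]
  have g1s : ∀ i j, sX (gX (b.vary Sh (toFl β)) i j) = β i j := by
    intro i j
    rw [gX_vary hβ1, sX_add, sX_lf, sX_ee, fX_lf, zero_add]
  -- the vector fields
  set V' := gfV (bump b δ) T' with hV'
  set U : Fin (k + 1) → X.ps.R := fun a => sX (V' a) with hU
  have hVf : ∀ a, fX (V' a) = gfV b (fun i j => fX (T' i j)) a := by
    intro a
    have h1 := psm_gfV (fstH X) hb2 hd0 T' a
    rw [fst_bump] at h1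
    exact h1.symm
  have hVd : ∀ a, O (k + 2) (fX (V' a) - V a) := by
    intro a
    rw [hVf]
    refine gfV_unique hb (fun c => gfV_O c) (fun i => ?_) a
    have h1 := GF_zero (T := fun i j => fX (T' i j)) hb i
    unfold GF at h1
    have h2 : T 0 i + lie X.ps.D (gfV b (fun i j => fX (T' i j))) (gX b) 0 i
        = - (fX (T' 0 i) - T 0 i) := by
      linear_combination h1
    rw [h2]
    exact (hf 0 i).neg
  set Z1 := gfV (b.vary Sh (toFl β)) (fun i j => 2 * lf ω * gX (b.vary Sh (toFl β)) i j) with hZ1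
  set Z' : Fin (k + 1) → X.ps.R := fun a => sX (Z1 a) with hZ'
  have hZ1f : ∀ a, fX (Z1 a) = Z a := by
    intro a
    have h1 := psm_gfV (fstH X) hb1 hd0 (fun i j => 2 * lf ω * gX (b.vary Sh (toFl β)) i j) a
    rw [fst_vary] at h1
    rw [hZ1, hZ]
    refine h1.symm.trans ?_
    congr 1
    funext i j
    show fX (2 * lf ω * gX (b.vary Sh (toFl β)) i j) = _
    rw [fX_mul, fX_mul, g1f, fX_lf]
    have : fX (2 : X.dual.ps.R) = 2 := psm_two _
    rw [this]
  -- sX of the constant 2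
  have hs2 : sX (2 : X.dual.ps.R) = 0 := by
    apply cf_ext
    intro m
    have h2 : (2 : X.dual.ps.R) = 1 + 1 := by norm_num
    rw [h2, sX_add, cf_add, cf_sX, cf_one, cf_zero]
    split_ifs <;> simp
  have hf2 : fX (2 : X.dual.ps.R) = 2 := psm_two _
  refine ⟨ψ + along X.ps.D V ω, ?_, ?_⟩
  · rw [cf_add, hψ, zero_add]
    exact along_O (N := 0) (fun a => O1_of (gfV_O a)) ω 0 (by omega)
  set ω' := ψ + along X.ps.D V ω with hω'
  set Y : Fin (k + 1) → X.ps.R := fun a => U a + br X.ps.D V Z a - Z' a with hY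
  -- first quantity
  have q1 : ∀ i j, sX (GF (bump b δ) T' i j)
      = sX (T' i j) + lie X.ps.D U g i j + lie X.ps.D (fun a => fX (V' a)) δ i j := by
    intro i j
    unfold GF
    rw [sX_add, sX_lie]
    simp only [g2f, g2s]
    rw [← add_assoc]
  have q2 : ∀ i j, sX (dl (b.vary Sh (toFl β)) (lf ω) i j)
      = 2 * ω * β i j + lie X.ps.D Z' g i j + lie X.ps.D Z β i j := by
    intro i j
    unfold dl GF
    rw [sX_add, sX_lie, sX_mul, sX_mul, hs2, sX_lf, fX_mul, fX_lf, hf2]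
    simp only [g1f, g1s]
    have hz : (fun a => fX (Z1 a)) = Z := by funext a; exact hZ1f a
    rw [← hZ1, hz]
    ring
  have q3 : ∀ i j, lie X.ps.D V δ i j = 2 * along X.ps.D V ω * g i j + 2 * ω * lie X.ps.D V g i j
      + lie X.ps.D Z (lie X.ps.D V g) i j + lie X.ps.D (br X.ps.D V Z) g i j := by
    intro i j
    have h1 : δ = fun i j => 2 * ω * g i j + lie X.ps.D Z g i j := by
      funext i j; rfl
    rw [h1, lie_addT hD, lie_mulT hD]
    have h2 := lie_comm hD V Z g i j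
    have h3 : along X.ps.D V (2 * ω) = 2 * along X.ps.D V ω := by
      have : (2 : X.ps.R) * ω = ω + ω := by ring
      rw [this, along_add hD]; ring
    have h4 : lie X.ps.D V (fun i j => lie X.ps.D Z g i j) i j
        = lie X.ps.D V (lie X.ps.D Z g) i j := rfl
    rw [h4, h2, h3]
    ring
  have q4 : ∀ i j, lie X.ps.D Z β i j = lie X.ps.D Z T i j + lie X.ps.D Z (lie X.ps.D V g) i j := by
    intro i j
    have h1 : β = fun i j => T i j + lie X.ps.D V g i j := by
      funext i j; rfl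
    rw [h1, lie_addT hD]
  have key : ∀ i j, O (k + 1) (sX (GF (bump b δ) T' i j)
      - sX (dl (b.vary Sh (toFl β)) (lf ω) i j) - (2 * ω' * g i j + lie X.ps.D Y g i j)) := by
    intro i j
    have hYe : lie X.ps.D Y g i j = lie X.ps.D U g i j + lie X.ps.D (br X.ps.D V Z) g i j
        - lie X.ps.D Z' g i j := by
      rw [hY]
      rw [lie_subV hD (fun a => U a + br X.ps.D V Z a) Z', lie_addV hD U (br X.ps.D V Z)]
    have e1 : sX (GF (bump b δ) T' i j) - sX (dl (b.vary Sh (toFl β)) (lf ω) i j)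
        - (2 * ω' * g i j + lie X.ps.D Y g i j)
        = (sX (T' i j) - (2 * ω * T i j + lie X.ps.D Z T i j + 2 * ψ * g i j))
          + lie X.ps.D (fun a => fX (V' a) - V a) δ i j := by
      rw [q1, q2, q4, hYe, lie_subV hD (fun a => fX (V' a)) V, q3, hω']
      have : β i j = T i j + lie X.ps.D V g i j := rfl
      rw [this]
      ring
    rw [e1]
    exact (hs i j).add (lie_O hVd _ i j)
  have hY0 : ∀ c, cf 0 (Y c) = 0 := by
    intro c
    rw [hY]
    have h1 : cf 0 (U c) = 0 := by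
      rw [hU]; beta_reduce; rw [cf_sX, hV', gfV_O]; rfl
    have h2 : cf 0 (br X.ps.D V Z c) = 0 := by
      unfold br
      rw [cf_sub]
      rw [along_O (N := 0) (fun a => O1_of (gfV_O a)) (Z c) 0 (by omega)]
      rw [along_O (N := 0) (fun a => O1_of (gfV_O a)) (V c) 0 (by omega), sub_zero]
    have h3 : cf 0 (Z' c) = 0 := by
      rw [hZ']; beta_reduce; rw [cf_sX, hZ1, gfV_O]; rfl
    beta_reduce
    rw [cf_sub, cf_add, h1, h2, h3]
    ring
  intro i j
  have h5 : ∀ i, O (k + 1) (2 * ω' * g 0 i + lie X.ps.D Y g 0 i) := by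
    intro i
    have h6 := key 0 i
    rw [GF_zero hb2] at h6
    have h7 : dl (b.vary Sh (toFl β)) (lf ω) 0 i = 0 := GF_zero hb1 i
    rw [h7] at h6
    have h8 : sX (0 : X.dual.ps.R) = 0 := cf_ext fun m => by rw [cf_sX, cf_zero, cf_zero]; rfl
    rw [h8] at h6
    have h9 := h6.neg
    have : -((0 : X.ps.R) - 0 - (2 * ω' * g 0 i + lie X.ps.D Y g 0 i))
        = 2 * ω' * g 0 i + lie X.ps.D Y g 0 i := by ring
    rwa [this] at h9
  have h10 := GF_unique (T := fun i j => 2 * ω' * g i j) hb hY0 h5 i j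
  have h11 := (key i j).add h10
  have : sX (GF (bump b δ) T' i j) - sX (dl (b.vary Sh (toFl β)) (lf ω) i j)
        - (2 * ω' * g i j + lie X.ps.D Y g i j)
        + (2 * ω' * g i j + lie X.ps.D Y (gX b) i j - GF b (fun i j => 2 * ω' * g i j) i j)
      = sX (GF (bump b δ) T' i j) - sX (dl (b.vary Sh (toFl β)) (lf ω) i j) - dl b ω' i j := by
    unfold dl
    ring
  rwa [this] at h11

end Comm

end Run7.h96.Hy

end

section

/-!
Infinitesimal conformal covariance of the singular Yamabe function, of the harmonic extension and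
of the two flows.
-/

set_option linter.all false
set_option maxHeartbeats 400000

open scoped BigOperators

namespace Run7.h96.Hy

open CInv

variable {k : ℕ}

section Mod

variable {X : DR (k + 1)} {b : HD X}

theorem hess_add' (b : HD X) (u v : X.ps.R) (i j : Fin (k + 1)) :
    hess X.ps.D (gX b) (gXi b) (u + v) i j
      = hess X.ps.D (gX b) (gXi b) u i j + hess X.ps.D (gX b) (gXi b) v i j :=
  hess_add X.ps.isDer u v i j

theorem ip_dadd (hb : Fer b) (σ τ : X.ps.R) :
    ip (gXi b) (fun i => X.ps.D i (σ + τ)) (fun i => X.ps.D i (σ + τ))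
      = ip (gXi b) (fun i => X.ps.D i σ) (fun i => X.ps.D i σ)
        + 2 * ip (gXi b) (fun i => X.ps.D i σ) (fun i => X.ps.D i τ)
        + ip (gXi b) (fun i => X.ps.D i τ) (fun i => X.ps.D i τ) := by
  have : (fun i => X.ps.D i (σ + τ)) = fun i => X.ps.D i σ + X.ps.D i τ := by
    funext i; exact X.ps.isDer.add i σ τ
  rw [this, ip_add_left, ip_add_right, ip_add_right, ip_comm hb.metric (fun i => X.ps.D i τ)]
  ring

theorem tt_mod (hb : Fer b) {σ τ : X.ps.R} (hσ : O 1 σ) {M : ℕ} (hτ : O (M + 2) τ)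
    (i j : Fin (k + 1)) :
    O (M + 1) (tt X.ps.D (gX b) (gXi b) (σ + τ) i j - tt X.ps.D (gX b) (gXi b) σ i j) := by
  have hτ1 : O (M + 1) τ := hτ.mono (by omega)
  have e : tt X.ps.D (gX b) (gXi b) (σ + τ) i j - tt X.ps.D (gX b) (gXi b) σ i j
      = (2 * σ * τ + τ * τ) * ric X.ps.D (gX b) (gXi b) i j
        + (((k + 1 : ℕ) : ℝ) - 2) • (σ * hess X.ps.D (gX b) (gXi b) τ i j
          + τ * hess X.ps.D (gX b) (gXi b) σ i j + τ * hess X.ps.D (gX b) (gXi b) τ i j)
        + (σ * lap X.ps.D (gX b) (gXi b) τ + τ * lap X.ps.D (gX b) (gXi b) σ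
          + τ * lap X.ps.D (gX b) (gXi b) τ
          - (((k + 1 : ℕ) : ℝ) - 1) • (2 * ip (gXi b) (fun i => X.ps.D i σ) (fun i => X.ps.D i τ)
            + ip (gXi b) (fun i => X.ps.D i τ) (fun i => X.ps.D i τ))) * gX b i j := by
    unfold tt
    rw [hess_add' b, lap_add' b, ip_dadd hb]
    simp only [Algebra.smul_def]
    ring
  rw [e]
  have hh : O (M + 1) (σ * hess X.ps.D (gX b) (gXi b) τ i j) := by
    have := hσ.mul (hess_O (b := b) hτ i j)
    exact this.mono (by omega)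
  have hl : O (M + 1) (σ * lap X.ps.D (gX b) (gXi b) τ) := by
    have := hσ.mul (lap_O (b := b) hτ)
    exact this.mono (by omega)
  have hi : O (M + 1) (ip (gXi b) (fun i => X.ps.D i σ) (fun i => X.ps.D i τ)) := by
    have := ip_O (b := b) (M := 0) (N := M + 1) hσ hτ
    exact this.mono (by omega)
  have hi2 : O (M + 1) (ip (gXi b) (fun i => X.ps.D i τ) (fun i => X.ps.D i τ)) := by
    have := ip_O (b := b) (M := M + 1) (N := M + 1) hτ hτ
    exact this.mono (by omega)
  refine O.add (O.add (O.mul_right _ (O.add (O.mul_left _ hτ1) (O.mul_left _ hτ1)))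
    (O.smul _ ?_)) (O.mul_right _ ?_)
  · exact (hh.add (hτ1.mul_right _)).add (hτ1.mul_right _)
  · exact ((hl.add (hτ1.mul_right _)).add (hτ1.mul_right _)).sub
      (((hi.mul_left _).add hi2).smul _)

theorem tt_O1 (hb : Fer b) {σ : X.ps.R} (h0 : cf 0 σ = 0) (h1 : cf 1 σ = 1)
    (i j : Fin (k + 1)) : O 1 (tt X.ps.D (gX b) (gXi b) σ i j) := by
  have hσ : O 1 σ := O1_of h0
  unfold tt
  have hip : cf 0 (ip (gXi b) (fun i => X.ps.D i σ) (fun i => X.ps.D i σ)) = 1 := by
    have := ip_cf hb h0 h1 (m := 0) hσ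
    rw [this, h1]; simp
  have h2 : O 1 (ip (gXi b) (fun i => X.ps.D i σ) (fun i => X.ps.D i σ) - 1) := by
    refine O1_of ?_
    rw [cf_sub, hip, cf_one, if_pos rfl, sub_self]
  exact ((O.mul_right _ (O.mul_left _ hσ)).add (O.smul _ (O.mul_right _ hσ))).add
    (O.mul_right _ (O.sub (O.mul_right _ hσ) (O.smul _ h2)))

theorem tg_O1 (hb : Fer b) (i j : Fin (k + 1)) : O 1 (tg b i j) := tt_O1 hb sg_cf0 sg_cf1 i j

theorem os_O1 (hb : Fer b) : O 1 (os b) := by
  unfold os
  have hσ : O 1 (sg b) := sg_O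
  have hip : cf 0 (ip (gXi b) (fun i => X.ps.D i (sg b)) (fun i => X.ps.D i (sg b))) = 1 := by
    have := ip_cf hb (sg_cf0 (b := b)) (sg_cf1 (b := b)) (m := 0) hσ
    rw [this, sg_cf1]; simp
  have h2 : O 1 (ip (gXi b) (fun i => X.ps.D i (sg b)) (fun i => X.ps.D i (sg b)) - 1) := by
    refine O1_of ?_
    rw [cf_sub, hip, cf_one, if_pos rfl, sub_self]
  exact O.smul _ (O.sub (O.mul_right _ hσ) (O.smul _ h2))

theorem Bf_O1 (hb : Fer b) (i j : Fin (k + 1)) : O 1 (Bf b i j) :=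
  (tg_O1 hb i j).add (O.mul_right _ (O.mul_left _ (os_O1 hb)))

theorem tg_symm (hb : Fer b) (i j : Fin (k + 1)) : tg b i j = tg b j i := by
  unfold tg tt
  rw [ric_symm X.ps.isDer hb.metric i j, hess_symm X.ps.isDer hb.metric, hb.metric.symm i j]

theorem Bf_symm (hb : Fer b) (i j : Fin (k + 1)) : Bf b i j = Bf b j i := by
  unfold Bf
  rw [tg_symm hb, hb.metric.symm i j]

end Mod

section Cov

variable {X : DR (k + 1)} {b : HD X}

/-- the vector field of an infinitesimal conformal change -/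
noncomputable def zv (b : HD X) (ω : X.ps.R) : Fin (k + 1) → X.ps.R :=
  gfV b (fun i j => 2 * ω * gX b i j)

theorem zv_O1 (ω : X.ps.R) (a : Fin (k + 1)) : O 1 (zv b ω a) := O1_of (gfV_O a)

theorem zv_cf (hb : Fer b) (ω : X.ps.R) : cf 1 (zv b ω 0) = - cf 0 ω := by
  unfold zv
  rw [gfV_zero hb]
  rw [cf_neg, cf_smul, cf_itgs, hb.gX00, mul_one, smul_smul]
  have : (2 : X.ps.R) * ω = ω + ω := by ring
  rw [this, cf_add, ← two_smul ℝ, smul_smul]
  norm_num

/-- the lifted data -/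
noncomputable def tb (b : HD X) : HD X.dual := b.map (inlH X).f

theorem Fer.tb (hb : Fer b) : Fer (Hy.tb b) := hb.map (inlH X) (dual_d0 hb.d0)

/-- the varied data -/
noncomputable def cb (b : HD X) (ω : X.ps.R) : HD X.dual := bump b (dl b ω)

theorem dl_symm (hb : Fer b) (ω : X.ps.R) (i j : Fin (k + 1)) : dl b ω i j = dl b ω j i :=
  GF_symm hb (fun i j => by rw [hb.metric.symm i j]) i j

theorem dl_zero (hb : Fer b) (ω : X.ps.R) (i : Fin (k + 1)) : dl b ω 0 i = 0 := GF_zero hb i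

theorem Fer.cb (hb : Fer b) (ω : X.ps.R) : Fer (Hy.cb b ω) :=
  hb.bump (dl_zero hb ω) (dl_symm hb ω)

/-- the lifted vector field -/
noncomputable def zl (b : HD X) (ω : X.ps.R) (a : Fin (k + 1)) : X.dual.ps.R := lf (zv b ω a)

theorem cb_metric (hb : Fer b) (ω : X.ps.R) (i j : Fin (k + 1)) :
    gX (cb b ω) i j = gX (tb b) i j
      + ee X * (2 * lf ω * gX (tb b) i j + lie X.dual.ps.D (zl b ω) (gX (tb b)) i j) := by
  have h1 : gX (tb b) = fun i j => lf (gX b i j) := by
    funext i j; exact psm_gX (inlH X) b i j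
  unfold cb
  rw [gX_bump (dl_symm hb ω), h1]
  congr 2
  unfold dl GF
  rw [lf_add, lf_mul, lf_mul]
  congr 1
  · congr 2
    exact psm_two _
  · exact psm_lie (inlH X) _ _ i j

theorem lf_sg (hb : Fer b) : sg (tb b) = lf (sg b) :=
  S0.map S0.sg (inlH X) hb (dual_d0 hb.d0)

theorem sg_inf (hb : Fer b) (ω : X.ps.R) :
    O (k + 2) (sg (cb b ω) - (sg (tb b)
      + ee X * (lf ω * sg (tb b) + along X.dual.ps.D (zl b ω) (sg (tb b))))) := by
  have hD := X.dual.ps.isDer
  have h1 := tr2_inf hD hb.tb.metric (lf ω) (ee X) ee_sq (D_ee hb.d0) (zl b ω)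
    (hb.cb ω).metric (cb_metric hb ω) (sg (tb b))
  have hY : O (k + 1) (Yam (cb b ω) (sg (tb b)
      + ee X * (lf ω * sg (tb b) + along X.dual.ps.D (zl b ω) (sg (tb b))))) := by
    show O (k + 1) (tr2 _ _)
    rw [h1]
    have h2 : O (k + 1) (tr2 (gXi (tb b)) (tt X.dual.ps.D (gX (tb b)) (gXi (tb b)) (sg (tb b)))) :=
      sg_Yam hb.tb
    refine h2.add (O.mul_left _ ?_)
    exact along_O' (fun a => O_lf (zv_O1 ω a)) h2
  have h0 : cf 0 (sg (tb b) + ee X * (lf ω * sg (tb b)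
      + along X.dual.ps.D (zl b ω) (sg (tb b)))) = 0 := by
    have h3 : O 1 (sg (tb b)) := sg_O
    have h4 : O 1 (along X.dual.ps.D (zl b ω) (sg (tb b))) :=
      along_O (N := 0) (fun a => O_lf (zv_O1 ω a)) _
    exact (h3.add (((h3.mul_left _).add h4).mul_left _)) 0 (by omega)
  have h1' : cf 1 (sg (tb b) + ee X * (lf ω * sg (tb b)
      + along X.dual.ps.D (zl b ω) (sg (tb b)))) = 1 := by
    rw [cf_add, sg_cf1, cf_ee_mul, cf_add]
    have h3 : cf 1 (lf ω * sg (tb b)) = (inlH X).f (cf 0 ω) := by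
      have := O.cf_mul (O.zero' (lf ω)) (sg_O (b := tb b))
      rw [zero_add] at this
      rw [this, sg_cf1, mul_one, cf_lf]
    have h4 : cf 1 (along X.dual.ps.D (zl b ω) (sg (tb b))) = - (inlH X).f (cf 0 ω) := by
      unfold along
      rw [cf_sum, Fin.sum_univ_succ]
      have h5 : ∀ a, cf 1 (zl b ω a * X.dual.ps.D a (sg (tb b)))
          = cf 1 (zl b ω a) * cf 0 (X.dual.ps.D a (sg (tb b))) := by
        intro a
        have := O.cf_mul (M := 1) (N := 0) (O_lf (zv_O1 (b := b) ω a))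
          (O.zero' (X.dual.ps.D a (sg (tb b))))
        exact this
      simp only [h5]
      rw [cf_d0, sg_cf1]
      have h6 : ∀ a : Fin k, cf 0 (X.dual.ps.D a.succ (sg (tb b))) = 0 := by
        intro a
        rw [cf_ds, sg_cf0, map_zero]
      simp only [h6, mul_zero, Finset.sum_const_zero, add_zero]
      show cf 1 (lf (zv b ω 0)) * _ = _
      rw [cf_lf, zv_cf hb, map_neg]
      simp
    rw [h3, h4, add_neg_cancel, mul_zero, add_zero]
  exact Yam_unique (hb.cb ω) h0 h1' sg_cf0 sg_cf1 hY (sg_Yam (hb.cb ω))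

theorem tg_inf (hb : Fer b) (ω : X.ps.R) (i j : Fin (k + 1)) :
    O (k + 1) (tg (cb b ω) i j - (tg (tb b) i j
      + ee X * (2 * lf ω * tg (tb b) i j + lie X.dual.ps.D (zl b ω) (tg (tb b)) i j))) := by
  have hD := X.dual.ps.isDer
  have h1 := tt_inf hD hb.tb.metric (lf ω) (ee X) ee_sq (D_ee hb.d0) (zl b ω)
    (hb.cb ω).metric (cb_metric hb ω) (sg (tb b)) i j
  set σ' := sg (tb b) + ee X * (lf ω * sg (tb b) + along X.dual.ps.D (zl b ω) (sg (tb b))) with hσ'
  have h0 : O 1 σ' := by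
    have h3 : O 1 (sg (tb b)) := sg_O
    have h4 : O 1 (along X.dual.ps.D (zl b ω) (sg (tb b))) :=
      along_O (N := 0) (fun a => O_lf (zv_O1 ω a)) _
    exact h3.add (((h3.mul_left _).add h4).mul_left _)
  have h2 := tt_mod (hb.cb ω) h0 (sg_inf hb ω) i j
  have h3 : σ' + (sg (cb b ω) - (sg (tb b)
      + ee X * (lf ω * sg (tb b) + along X.dual.ps.D (zl b ω) (sg (tb b))))) = sg (cb b ω) := by
    rw [hσ']; ring
  rw [h3] at h2
  have h4 : tt X.dual.ps.D (gX (cb b ω)) (gXi (cb b ω)) σ' i j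
      = tg (tb b) i j + ee X * (2 * lf ω * tg (tb b) i j
        + lie X.dual.ps.D (zl b ω) (tg (tb b)) i j) := h1
  rw [h4] at h2
  exact h2

theorem lf_tg (hb : Fer b) (i j : Fin (k + 1)) : tg (tb b) i j = lf (tg b i j) :=
  S2.map S2.tg (inlH X) hb (dual_d0 hb.d0) i j

theorem fX_tg (hb : Fer b) (ω : X.ps.R) (i j : Fin (k + 1)) : fX (tg (cb b ω) i j) = tg b i j := by
  have h1 := S2.map S2.tg (fstH X) (hb.cb ω) hb.d0 i j
  rw [cb, fst_bump] at h1
  exact h1.symm

theorem fX_gX (hb : Fer b) (ω : X.ps.R) (i j : Fin (k + 1)) : fX (gX (cb b ω) i j) = gX b i j := by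
  have h1 := psm_gX (fstH X) (cb b ω) i j
  rw [cb, fst_bump] at h1
  exact h1.symm

theorem sX_gX (hb : Fer b) (ω : X.ps.R) (i j : Fin (k + 1)) : sX (gX (cb b ω) i j) = dl b ω i j := by
  unfold cb
  rw [gX_bump (dl_symm hb ω), sX_add, sX_lf, sX_ee, fX_lf, zero_add]

theorem sX_tg (hb : Fer b) (ω : X.ps.R) (i j : Fin (k + 1)) :
    O (k + 1) (sX (tg (cb b ω) i j) - (2 * ω * tg b i j + lie X.ps.D (zv b ω) (tg b) i j)) := by
  have h1 := O_sX (tg_inf hb ω i j)
  have h2 : sX (tg (cb b ω) i j - (tg (tb b) i j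
      + ee X * (2 * lf ω * tg (tb b) i j + lie X.dual.ps.D (zl b ω) (tg (tb b)) i j)))
      = sX (tg (cb b ω) i j) - (2 * ω * tg b i j + lie X.ps.D (zv b ω) (tg b) i j) := by
    rw [sX_sub, sX_add, sX_ee, lf_tg hb, sX_lf, zero_add, fX_add, fX_mul, fX_mul, fX_lf, fX_lf]
    have e1 : fX (2 : X.dual.ps.R) = 2 := psm_two _
    have e2 : fX (lie X.dual.ps.D (zl b ω) (tg (tb b)) i j) = lie X.ps.D (zv b ω) (tg b) i j := by
      have e3 : tg (tb b) = fun i j => lf (tg b i j) := by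
        funext i j; exact lf_tg hb i j
      have e4 : lie X.dual.ps.D (zl b ω) (tg (tb b)) i j = lf (lie X.ps.D (zv b ω) (tg b) i j) := by
        rw [e3]
        exact (psm_lie (inlH X) (zv b ω) (tg b) i j).symm
      rw [e4, fX_lf]
    rw [e1, e2]
  rw [h2] at h1
  exact h1

theorem fX_os (hb : Fer b) (ω : X.ps.R) : fX (os (cb b ω)) = os b := by
  have h1 := S0.map S0.os (fstH X) (hb.cb ω) hb.d0
  rw [cb, fst_bump] at h1
  exact h1.symm

theorem flow_comm (hb : Fer b) (ω : X.ps.R) :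
    ∃ ω' : X.ps.R, cf 0 ω' = 0 ∧ ∀ i j, O (k + 1) (sX (flow (cb b ω) i j)
      - sX (dl (b.vary Sh (toFl (flow b))) (lf ω) i j) - dl b ω' i j) := by
  have hD := X.ps.isDer
  refine comm_gen hb ω (T := Bf b) (T' := Bf (cb b ω)) (Bf_symm hb) (Bf_O1 hb)
    (sX (os (cb b ω)) - along X.ps.D (zv b ω) (os b)) ?_ ?_ ?_
  · rw [cf_sub]
    rw [O_sX (os_O1 (hb.cb ω)) 0 (by omega)]
    rw [along_O (N := 0) (fun a => zv_O1 ω a) (os b) 0 (by omega), sub_zero]
  · intro i j
    have h1 : fX (Bf (cb b ω) i j) = Bf b i j := by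
      have h1 := S2.map S2.Bf (fstH X) (hb.cb ω) hb.d0 i j
      rw [cb, fst_bump] at h1
      exact h1.symm
    rw [h1, sub_self]
    exact O.z
  · intro i j
    have h1 := sX_tg hb ω i j
    have hf2 : fX (2 : X.dual.ps.R) = 2 := psm_two _
    have hs2 : sX (2 : X.dual.ps.R) = 0 := by
      apply cf_ext
      intro m
      have h2 : (2 : X.dual.ps.R) = 1 + 1 := by norm_num
      rw [h2, sX_add, cf_add, cf_sX, cf_one, cf_zero]
      split_ifs <;> simp
    have e1 : sX (Bf (cb b ω) i j) = sX (tg (cb b ω) i j)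
        + 2 * os b * dl b ω i j + 2 * sX (os (cb b ω)) * gX b i j := by
      unfold Bf
      rw [sX_add, sX_mul, sX_mul, hs2, fX_mul, hf2, fX_os hb, fX_gX hb, sX_gX hb]
      ring
    have e2 : lie X.ps.D (zv b ω) (Bf b) i j = lie X.ps.D (zv b ω) (tg b) i j
        + 2 * along X.ps.D (zv b ω) (os b) * gX b i j + 2 * os b * lie X.ps.D (zv b ω) (gX b) i j := by
      have h3 : Bf b = fun i j => tg b i j + 2 * os b * gX b i j := rfl
      rw [h3, lie_addT hD, lie_mulT hD]
      have h4 : along X.ps.D (zv b ω) (2 * os b) = 2 * along X.ps.D (zv b ω) (os b) := by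
        have : (2 : X.ps.R) * os b = os b + os b := by ring
        rw [this, along_add hD]; ring
      rw [h4]
      ring
    have e3 : dl b ω i j = 2 * ω * gX b i j + lie X.ps.D (zv b ω) (gX b) i j := rfl
    have e4 : sX (Bf (cb b ω) i j) - (2 * ω * Bf b i j
        + lie X.ps.D (gfV b (fun i j => 2 * ω * gX b i j)) (Bf b) i j
        + 2 * (sX (os (cb b ω)) - along X.ps.D (zv b ω) (os b)) * gX b i j)
        = sX (tg (cb b ω) i j) - (2 * ω * tg b i j + lie X.ps.D (zv b ω) (tg b) i j) := by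
      have e5 : lie X.ps.D (gfV b (fun i j => 2 * ω * gX b i j)) (Bf b) i j
          = lie X.ps.D (zv b ω) (Bf b) i j := rfl
      rw [e1, e5, e2, e3]
      unfold Bf
      ring
    rw [e4]
    exact h1

/-! ### the harmonic extension -/

theorem Lop_mod (hb : Fer b) {σ τ u : X.ps.R} (hσ : O 1 σ) {M : ℕ} (hτ : O (M + 2) τ) :
    O (M + 1) (Lop b (σ + τ) u - Lop b σ u) := by
  have hτ1 : O (M + 1) τ := hτ.mono (by omega)
  have e : Lop b (σ + τ) u - Lop b σ u
      = (2 * σ * τ + τ * τ) * lap X.ps.D (gX b) (gXi b) u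
        - (((k + 1 : ℕ) : ℝ) - 2) • (σ * ip (gXi b) (fun i => X.ps.D i τ) (fun i => X.ps.D i u)
          + τ * ip (gXi b) (fun i => X.ps.D i σ) (fun i => X.ps.D i u)
          + τ * ip (gXi b) (fun i => X.ps.D i τ) (fun i => X.ps.D i u)) := by
    unfold Lop lop
    have : (fun i => X.ps.D i (σ + τ)) = fun i => X.ps.D i σ + X.ps.D i τ := by
      funext i; exact X.ps.isDer.add i σ τ
    rw [this, ip_add_left]
    simp only [Algebra.smul_def]
    ring
  rw [e]
  have hi : O (M + 1) (σ * ip (gXi b) (fun i => X.ps.D i τ) (fun i => X.ps.D i u)) := by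
    refine O.mul_left _ ?_
    unfold ip
    exact O.sum _ fun i _ => O.sum _ fun j _ => O.mul_left _ (O.mul_right _ (hτ.di i))
  exact O.sub (O.mul_right _ (O.add (O.mul_left _ hτ1) (O.mul_left _ hτ1)))
    (O.smul _ ((hi.add (hτ1.mul_right _)).add (hτ1.mul_right _)))

theorem lf_ug (hb : Fer b) : ug (tb b) = lf (ug b) :=
  S0.map S0.ug (inlH X) hb (dual_d0 hb.d0)

theorem ug_inf (hb : Fer b) (ω : X.ps.R) :
    O k (ug (cb b ω) - (ug (tb b) + ee X * along X.dual.ps.D (zl b ω) (ug (tb b)))) := by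
  have hD := X.dual.ps.isDer
  have h1 := lop_inf hD hb.tb.metric (lf ω) (ee X) ee_sq (D_ee hb.d0) (zl b ω)
    (hb.cb ω).metric (cb_metric hb ω) (sg (tb b)) (ug (tb b))
  set σ' := sg (tb b) + ee X * (lf ω * sg (tb b) + along X.dual.ps.D (zl b ω) (sg (tb b))) with hσ'
  set u' := ug (tb b) + ee X * along X.dual.ps.D (zl b ω) (ug (tb b)) with hu'
  have h0 : O 1 σ' := by
    have h3 : O 1 (sg (tb b)) := sg_O
    have h4 : O 1 (along X.dual.ps.D (zl b ω) (sg (tb b))) :=
      along_O (N := 0) (fun a => O_lf (zv_O1 ω a)) _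
    exact h3.add (((h3.mul_left _).add h4).mul_left _)
  have h2 := Lop_mod (hb.cb ω) (u := u') h0 (sg_inf hb ω)
  have h3 : σ' + (sg (cb b ω) - (sg (tb b)
      + ee X * (lf ω * sg (tb b) + along X.dual.ps.D (zl b ω) (sg (tb b))))) = sg (cb b ω) := by
    rw [hσ']; ring
  rw [h3] at h2
  have h4 : O k (Lop (cb b ω) σ' u') := by
    show O k (lop X.dual.ps.D (gX (cb b ω)) (gXi (cb b ω)) σ' u')
    rw [h1]
    have h5 : O k (lop X.dual.ps.D (gX (tb b)) (gXi (tb b)) (sg (tb b)) (ug (tb b))) := ug_Lop hb.tb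
    refine h5.add (O.mul_left _ ?_)
    rcases k with _ | k'
    · exact O.zero' _
    · exact along_O' (fun a => O_lf (zv_O1 ω a)) h5
  have h6 : O k (Lop (cb b ω) (sg (cb b ω)) u') := by
    have : Lop (cb b ω) (sg (cb b ω)) u'
        = (Lop (cb b ω) (sg (cb b ω)) u' - Lop (cb b ω) σ' u') + Lop (cb b ω) σ' u' := by ring
    rw [this]
    exact (h2.mono (by omega)).add h4
  have hu0 : cf 0 u' = cf 0 (ug (cb b ω)) := by
    have hz : cf 0 (along X.dual.ps.D (zl b ω) (ug (tb b))) = 0 :=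
      along_O (N := 0) (fun a => O_lf (zv_O1 ω a)) _ 0 (by omega)
    rw [hu', cf_add, cf_ee_mul, hz, mul_zero, add_zero, ug_cf0, ug_cf0]
    show (inlH X).f (b.Φ Fd.chi ![]) = (inlH X).f (b.Φ Fd.chi ![]) + eps 0
    apply dual_ext <;> simp
  exact Lop_unique (hb.cb ω) sg_cf0 sg_cf1 hu0 h6 (ug_Lop (hb.cb ω))

theorem sX_ug (hb : Fer b) (ω : X.ps.R) :
    O k (sX (ug (cb b ω)) - along X.ps.D (zv b ω) (ug b)) := by
  have h1 := O_sX (ug_inf hb ω)
  have h2 : sX (ug (cb b ω) - (ug (tb b) + ee X * along X.dual.ps.D (zl b ω) (ug (tb b))))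
      = sX (ug (cb b ω)) - along X.ps.D (zv b ω) (ug b) := by
    rw [sX_sub, sX_add, sX_ee, lf_ug hb, sX_lf, zero_add]
    have e4 : along X.dual.ps.D (zl b ω) (lf (ug b)) = lf (along X.ps.D (zv b ω) (ug b)) :=
      (psm_along (inlH X) (zv b ω) (ug b)).symm
    rw [e4, fX_lf]
  rw [h2] at h1
  exact h1

theorem flowX_comm (hb : Fer b) (ω : X.ps.R) :
    ∃ ω' : X.ps.R, cf 0 ω' = 0 ∧ ∀ i j, O (k + 1) (sX (flowX (cb b ω) i j)
      - sX (dl (b.vary Sh (toFl (flowX b))) (lf ω) i j) - dl b ω' i j) := by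
  have hD := X.ps.isDer
  refine comm_gen hb ω (T := fun i j => ug b * tg b i j)
    (T' := fun i j => ug (cb b ω) * tg (cb b ω) i j) (fun i j => by rw [tg_symm hb])
    (fun i j => O.mul_left _ (tg_O1 hb i j)) 0 (cf_zero 0) ?_ ?_
  · intro i j
    have h2 : fX (ug (cb b ω)) = ug b := by
      have h1 := S0.map S0.ug (fstH X) (hb.cb ω) hb.d0
      rw [cb, fst_bump] at h1
      exact h1.symm
    rw [fX_mul, fX_tg hb, h2, sub_self]
    exact O.z
  · intro i j
    have h1 := sX_tg hb ω i j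
    have h3 : fX (ug (cb b ω)) = ug b := by
      have h1 := S0.map S0.ug (fstH X) (hb.cb ω) hb.d0
      rw [cb, fst_bump] at h1
      exact h1.symm
    have h2 := sX_ug hb ω
    have e1 : sX (ug (cb b ω) * tg (cb b ω) i j) - (2 * ω * (ug b * tg b i j)
        + lie X.ps.D (gfV b (fun i j => 2 * ω * gX b i j)) (fun i j => ug b * tg b i j) i j
        + 2 * 0 * gX b i j)
        = ug b * (sX (tg (cb b ω) i j) - (2 * ω * tg b i j + lie X.ps.D (zv b ω) (tg b) i j))
          + (sX (ug (cb b ω)) - along X.ps.D (zv b ω) (ug b)) * tg b i j := by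
      rw [sX_mul, h3, fX_tg hb]
      have e5 : lie X.ps.D (gfV b (fun i j => 2 * ω * gX b i j)) (fun i j => ug b * tg b i j) i j
          = along X.ps.D (zv b ω) (ug b) * tg b i j + ug b * lie X.ps.D (zv b ω) (tg b) i j :=
        lie_mulT hD _ _ _ i j
      rw [e5]
      ring
    rw [e1]
    refine (h1.mul_left _).add ?_
    have := h2.mul (tg_O1 hb i j)
    exact this

end Cov

end Run7.h96.Hy

end
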