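import Pool.Agent.Run7.h96.K03
import Pool.Agent.Helper771.CInv.P_cc_metric

section

/-!
The principal part of the flow.
-/

set_option linter.all false
set_option maxHeartbeats 400000

open scoped BigOperators

namespace Run7.h96.Hy

open CInv

variable {k : ℕ}

/-! ### scaling the fields by a constant -/

section Scl

variable {n : ℕ} {J : Type} {ρ : J → ℕ}

open Classical in
/-- the fields in `S` are multiplied by `c` -/
noncomputable def BD.scl {X : DR n} (S : Set J) (c : X.R) (b : BD X J ρ) : BD X J ρ where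
  G := b.G
  Gi := b.Gi
  Φ j K := if j ∈ S then c * b.Φ j K else b.Φ j K
  met := b.met

/-- total number of fields -/
noncomputable def nf (g : Dg J) : ℕ := g.1.sum fun _ m => m

theorem nf_add (g g' : Dg J) : nf (g + g') = nf g + nf g' := by
  unfold nf
  rw [Prod.fst_add, Finsupp.sum_add_index']
  · intro _; rfl
  · intro _ _ _; rfl

theorem nf_zero : nf (0 : Dg J) = 0 := by simp [nf]
theorem nf_single (j : J) : nf ((Finsupp.single j 1, 0) : Dg J) = 1 := by simp [nf]
theorem nf_N (N : ℕ) : nf ((0, N) : Dg J) = 0 := by simp [nf]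

theorem BD.scl_A {X : DR n} (S : Set J) (c : X.R) (b : BD X J ρ) : (b.scl S c).A = b.A := rfl
theorem BD.scl_F {X : DR n} (S : Set J) (c : X.R) (b : BD X J ρ) : (b.scl S c).curv = b.curv := rfl

theorem d_pow {X : DR n} {c : X.R} (hc : ∀ i, X.d i c = 0) (N : ℕ) (i : Fin n) :
    X.d i (c ^ N) = 0 := by
  induction N with
  | zero => rw [pow_zero]; exact (X.d i).map_one_eq_zero
  | succ N ih =>
    rw [pow_succ, Derivation.leibniz, ih, hc]
    simp

open Classical in
theorem HN.scl {S : Set J} {g : Dg J} {r : ℕ} {T : Tn n J ρ r} {L : Ln n J ρ r}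
    (h : HN S g r T L) {X : DR n} (b : BD X J ρ) {c : X.R} (hc : ∀ i, X.d i c = 0)
    (K : Fin r → Fin n) : T X (b.scl S c) K = c ^ (nf g) * T X b K := by
  induction h with
  | one => rw [nf_zero]; simp
  | met => rw [nf_zero]; simp; rfl
  | curv => rw [nf_N]; simp; rfl
  | fieldV j hj =>
    rw [nf_single, pow_one]
    show (if j ∈ S then c * b.Φ j K else b.Φ j K) = _
    rw [if_pos hj]
  | fieldC j hj =>
    rw [nf_zero, pow_zero, one_mul]
    show (if j ∈ S then c * b.Φ j K else b.Φ j K) = _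
    rw [if_neg hj]
  | zero g r => simp
  | add _ _ h1 h2 => beta_reduce; rw [h1, h2, mul_add]
  | smul t _ h1 => beta_reduce; rw [h1, mul_smul_comm]
  | mul e _ _ h1 h2 =>
    simp only [relab, tens, h1, h2, nf_add, pow_add]
    ring
  | perm e _ h1 => simp only [relab, h1]
  | contr e _ h1 =>
    simp only [contr2, relab, h1, Finset.mul_sum]
    refine Finset.sum_congr rfl fun i _ => Finset.sum_congr rfl fun j _ => ?_
    show b.Gi i j * _ = _
    ring
  | @deriv g r t T L e _ h1 =>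
    have h2 : T X (b.scl S c) = fun K => c ^ (nf g) * T X b K := by
      funext K; exact h1 K
    have h3 : nf (g + (0, 1)) = nf g := by rw [nf_add, nf_N, add_zero]
    simp only [relab, DD, cov]
    rw [h2, h3, act_mul_const, BD.scl_A]
    have h4 : ∀ (i : Fin n) (f : X.R), X.d i (c ^ (nf g) * f) = c ^ (nf g) * X.d i f := by
      intro i f
      rw [Derivation.leibniz, d_pow hc]
      simp
    rw [h4]
    ring

theorem BD.A_zero {X : DR n} (hX : ∀ i f, X.d i f = 0) (b : BD X J ρ) (i l m : Fin n) :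
    b.A i l m = 0 := by
  unfold BD.A chr
  have h0 : ∀ i f, X.D i f = 0 := hX
  simp only [h0, add_zero, sub_zero, mul_zero, Finset.sum_const_zero, smul_zero]

theorem HN.zeroD {S : Set J} {g : Dg J} {r : ℕ} {T : Tn n J ρ r} {L : Ln n J ρ r}
    (h : HN S g r T L) (hg : g.2 ≠ 0) {X : DR n} (hX : ∀ i f, X.d i f = 0) (b : BD X J ρ)
    (K : Fin r → Fin n) : T X b K = 0 := by
  induction h with
  | one => exact absurd rfl hg
  | met => exact absurd rfl hg
  | curv =>
    show ∑ p, b.G (K 2) p * b.F (K 0) (K 1) p (K 3) = 0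
    have : ∀ i j l m, b.F i j l m = 0 := by
      intro i j l m
      unfold BD.F
      simp [BD.A_zero hX]
    simp [this]
  | fieldV j hj => exact absurd rfl hg
  | fieldC j hj => exact absurd rfl hg
  | zero g r => rfl
  | add _ _ h1 h2 => beta_reduce; rw [h1 hg, h2 hg, add_zero]
  | smul t _ h1 => beta_reduce; rw [h1 hg, smul_zero]
  | @mul g g' r r' t T T' L L' e _ _ h1 h2 =>
    have h3 : g.2 ≠ 0 ∨ g'.2 ≠ 0 := by
      by_contra hcon
      push Not at hcon
      exact hg (by rw [Prod.snd_add, hcon.1, hcon.2])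
    simp only [relab, tens]
    rcases h3 with h3 | h3
    · rw [h1 h3, zero_mul]
    · rw [h2 h3, mul_zero]
  | perm e _ h1 => simp only [relab, h1 hg]
  | contr e _ h1 => simp only [contr2, relab, h1 hg, mul_zero, Finset.sum_const_zero]
  | @deriv g r t T L e _ h1 =>
    simp only [relab, DD, cov, act, hX, BD.A_zero hX, zero_mul, Finset.sum_const_zero, sub_zero]

theorem HN.supp {S : Set J} {g : Dg J} {r : ℕ} {T : Tn n J ρ r} {L : Ln n J ρ r}
    (h : HN S g r T L) : (∀ X b K, T X b K = 0) ∨ (∀ j, g.1 j ≠ 0 → j ∈ S) := by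
  induction h with
  | one => right; intro j hj; exact absurd rfl hj
  | met => right; intro j hj; exact absurd rfl hj
  | curv => right; intro j hj; exact absurd rfl hj
  | fieldV j hj =>
    right
    intro j' hj'
    classical
    rw [Finsupp.single_apply] at hj'
    split_ifs at hj' with h
    · exact h ▸ hj
    · exact absurd rfl hj'
  | fieldC j hj => right; intro j hj; exact absurd rfl hj
  | zero g r => left; intro X b K; rfl
  | add _ _ h1 h2 =>
    rcases h1 with h1 | h1
    · rcases h2 with h2 | h2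
      · left; intro X b K; beta_reduce; rw [h1, h2, add_zero]
      · right; exact h2
    · right; exact h1
  | smul t _ h1 =>
    rcases h1 with h1 | h1
    · left; intro X b K; beta_reduce; rw [h1, smul_zero]
    · right; exact h1
  | @mul g g' r r' t T T' L L' e _ _ h1 h2 =>
    rcases h1 with h1 | h1
    · left; intro X b K; simp only [relab, tens, h1, zero_mul]
    · rcases h2 with h2 | h2
      · left; intro X b K; simp only [relab, tens, h2, mul_zero]
      · right
        intro j hj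
        rw [Prod.fst_add, Finsupp.add_apply] at hj
        by_cases h3 : g.1 j = 0
        · exact h2 j (fun h4 => hj (by rw [h3, h4]))
        · exact h1 j h3
  | perm e _ h1 =>
    rcases h1 with h1 | h1
    · left; intro X b K; simp only [relab, h1]
    · right; exact h1
  | contr e _ h1 =>
    rcases h1 with h1 | h1
    · left; intro X b K; simp only [contr2, relab, h1, mul_zero, Finset.sum_const_zero]
    · right; exact h1
  | deriv e _ h1 =>
    rcases h1 with h1 | h1
    · left; intro X b K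
      simp only [relab, DD, cov, act, h1, map_zero, mul_zero, Finset.sum_const_zero, sub_zero]
    · right
      intro j hj
      refine h1 j ?_
      rw [Prod.fst_add] at hj
      simpa using hj

end Scl

/-- the same ring without derivations -/
noncomputable def DR.fl {n : ℕ} (X : DR n) : DR n where
  R := X.R
  d _ := 0
  comm _ _ _ := rfl

/-- the rank -/
noncomputable def rk (k : ℕ) (g : Dg Fd) : ℕ := g.2 * (k + 1) + nf g

theorem rk_add (g g' : Dg Fd) : rk k (g + g') = rk k g + rk k g' := by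
  unfold rk
  rw [nf_add, Prod.snd_add]; ring

/-- degrees of weight `m` and rank at least 2 -/
def El (k m : ℕ) : Set (Dg Fd) := {g | wt g = m ∧ 2 ≤ rk k g}

/-! ### the flow of scaled flat data -/

section Flat

variable {X : DR (k + 1)}

/-- flat data: constant metric, no derivations in the tangential directions -/
theorem flat_sg {b : HD X} (hb : Fer b) (hX : ∀ i f, X.d i f = 0)
    (hh : ∀ j K, b.Φ (Fd.h j) K = 0) : O (k + 2) (sg b - rr X) := by
  have hg : ∀ i j, gX b i j = cst (b.G i j) := by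
    intro i j
    apply cf_ext
    intro m
    rw [cf_gX, cf_cst]
    cases m with
    | zero => rfl
    | succ m => rw [if_neg (Nat.succ_ne_zero m)]; exact hh m _
  have hDg : ∀ l i j, X.ps.D l (gX b i j) = 0 := by
    intro l i j
    rw [hg, D_cst hb.d0, hX, cst_zero]
  have hchr : ∀ l i j, chr X.ps.D (gX b) (gXi b) l i j = 0 := by
    intro l i j
    unfold chr
    simp only [hDg, add_zero, sub_zero, mul_zero, Finset.sum_const_zero, smul_zero]
  have hric : ∀ i j, ric X.ps.D (gX b) (gXi b) i j = 0 := by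
    intro i j
    unfold ric
    simp only [hchr, der_zero X.ps.isDer, mul_zero, sub_zero, Finset.sum_const_zero, add_zero]
  have hDD : ∀ i j, X.ps.D i (X.ps.D j (rr X)) = 0 := by
    intro i j
    rw [D_rr]
    split_ifs
    · exact der_one X.ps.isDer i
    · exact der_zero X.ps.isDer i
  have hhess : ∀ i j, hess X.ps.D (gX b) (gXi b) (rr X) i j = 0 := by
    intro i j
    unfold hess
    simp only [hchr, hDD, zero_mul, Finset.sum_const_zero, sub_zero]
  have hY : Yam b (rr X) = 0 := by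
    unfold Yam
    rw [tr2_tt hb.metric]
    have h1 : ip (gXi b) (fun i => X.ps.D i (rr X)) (fun i => X.ps.D i (rr X)) = 1 := by
      unfold ip
      simp only [D_rr, mul_ite, mul_one, mul_zero, Finset.sum_ite_eq', Finset.mem_univ, if_true]
      exact hb.gXi00
    have h2 : lap X.ps.D (gX b) (gXi b) (rr X) = 0 := by
      unfold lap
      simp only [hhess, mul_zero, Finset.sum_const_zero]
    have h3 : tr2 (gXi b) (ric X.ps.D (gX b) (gXi b)) = 0 := by
      unfold tr2
      simp only [hric, mul_zero, Finset.sum_const_zero]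
    rw [h1, h2, h3]
    simp
  exact Yam_unique hb (by rw [cf_rr]; simp) (by rw [cf_rr]; simp) sg_cf0 sg_cf1
    (by rw [hY]; exact O.z) (sg_Yam hb)

theorem Bf_eq (b : HD X) (i j : Fin (k + 1)) :
    Bf b i j = sg b * sg b * ric X.ps.D (gX b) (gXi b) i j
      + (((k + 1 : ℕ) : ℝ) - 2) • (sg b * hess X.ps.D (gX b) (gXi b) (sg b) i j) := by
  unfold Bf tg tt os
  set P := sg b * lap X.ps.D (gX b) (gXi b) (sg b) - (((k + 1 : ℕ) : ℝ) - 1)
    • (ip (gXi b) (fun i => X.ps.D i (sg b)) (fun i => X.ps.D i (sg b)) - 1) with hP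
  have h1 : 2 * ((-(1 / 2) : ℝ) • P) = - P := by
    have : (2 : X.ps.R) * ((-(1 / 2) : ℝ) • P) = (2 : ℝ) • ((-(1 / 2) : ℝ) • P) := by
      rw [ofNat_smul_eq_nsmul, two_nsmul]; ring
    rw [this, smul_smul]
    norm_num
  rw [h1]
  ring

theorem flat_Bf {b : HD X} (hb : Fer b) (hX : ∀ i f, X.d i f = 0)
    (hh : ∀ j K, b.Φ (Fd.h j) K = 0) (i j : Fin (k + 1)) : O (k + 1) (Bf b i j) := by
  have hg : ∀ i j, gX b i j = cst (b.G i j) := by
    intro i j
    apply cf_ext
    intro m
    rw [cf_gX, cf_cst]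
    cases m with
    | zero => rfl
    | succ m => rw [if_neg (Nat.succ_ne_zero m)]; exact hh m _
  have hDg : ∀ l i j, X.ps.D l (gX b i j) = 0 := by
    intro l i j
    rw [hg, D_cst hb.d0, hX, cst_zero]
  have hchr : ∀ l i j, chr X.ps.D (gX b) (gXi b) l i j = 0 := by
    intro l i j
    unfold chr
    simp only [hDg, add_zero, sub_zero, mul_zero, Finset.sum_const_zero, smul_zero]
  have hric : ∀ i j, ric X.ps.D (gX b) (gXi b) i j = 0 := by
    intro i j
    unfold ric
    simp only [hchr, der_zero X.ps.isDer, mul_zero, sub_zero, Finset.sum_const_zero, add_zero]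
  rw [Bf_eq, hric, mul_zero, zero_add]
  refine O.smul _ ?_
  have h1 : hess X.ps.D (gX b) (gXi b) (sg b) i j = hess X.ps.D (gX b) (gXi b) (sg b - rr X) i j := by
    unfold hess
    have hDD : ∀ i j, X.ps.D i (X.ps.D j (rr X)) = 0 := by
      intro i j
      rw [D_rr]
      split_ifs
      · exact der_one X.ps.isDer i
      · exact der_zero X.ps.isDer i
    simp only [hchr, zero_mul, Finset.sum_const_zero, sub_zero, der_sub X.ps.isDer, hDD]
  rw [h1]
  have := (sg_O (b := b)).mul (hess_O (b := b) (flat_sg hb hX hh) i j)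
  exact this.mono (by omega)

theorem flat_flow {b : HD X.dual} (hb : Fer b) (hX : ∀ i f, X.d i f = 0)
    (hh : ∀ j K, fs (b.Φ (Fd.h j) K) = 0) (a c : Fin k) :
    O (k + 1) (sX (flow b a.succ c.succ) - ((-(1 / 2) : ℝ) • (rr X * rr X
        * X.ps.D 0 (X.ps.D 0 (sX (gX b a.succ c.succ))))
      + ((1 / 2 : ℝ) * ((k : ℝ) - 1)) • (rr X * X.ps.D 0 (sX (gX b a.succ c.succ))))) := by
  have hXd : ∀ i f, X.dual.d i f = 0 := by
    intro i f
    apply dual_ext
    · rw [fs_d]; exact hX _ _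
    · rw [sn_d]; exact hX _ _
  have hD' := X.dual.ps.isDer
  have hb0 : Fer (b.map (fstH X).f) := hb.map (fstH X) (fun f => hX 0 f)
  have hh0 : ∀ j K, (b.map (fstH X).f).Φ (Fd.h j) K = 0 := fun j K => hh j K
  have hDa : ∀ (a : Fin k) (F : X.dual.ps.R), X.dual.ps.D a.succ F = 0 := by
    intro a F
    apply cf_ext
    intro m
    rw [cf_ds, hXd, cf_zero]
  have hgf : ∀ i j, fX (gX b i j) = cst ((b.map (fstH X).f).G i j) := by
    intro i j
    have h1 := psm_gX (fstH X) b i j
    refine h1.symm.trans ?_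
    apply cf_ext
    intro m
    rw [cf_gX, cf_cst]
    cases m with
    | zero => rfl
    | succ m => rw [if_neg (Nat.succ_ne_zero m)]; exact hh m _
  -- derivatives of the metric have vanishing first component
  have hgd : ∀ l i j, fX (X.dual.ps.D l (gX b i j)) = 0 := by
    intro l i j
    rw [fX_D, hgf, D_cst (fun f => hX 0 f), hX, cst_zero]
  have hchrf : ∀ l i j, fX (chr X.dual.ps.D (gX b) (gXi b) l i j) = 0 := by
    intro l i j
    unfold chr
    rw [fX_smul, fX_sum]
    have : ∀ m, fX (gXi b l m * (X.dual.ps.D i (gX b j m) + X.dual.ps.D j (gX b i m)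
        - X.dual.ps.D m (gX b i j))) = 0 := by
      intro m
      rw [fX_mul, fX_sub, fX_add, hgd, hgd, hgd]
      ring
    simp only [this, Finset.sum_const_zero, smul_zero]
  have hch0 : chr X.dual.ps.D (gX b) (gXi b) 0 a.succ c.succ
      = (-(1 / 2) : ℝ) • X.dual.ps.D 0 (gX b a.succ c.succ) := by
    unfold chr
    simp only [hb.gXi0i, ite_mul, one_mul, zero_mul, Finset.sum_ite_eq', Finset.mem_univ, if_true]
    rw [hDa, hDa, zero_add, zero_sub, smul_neg, neg_smul]
  have hricf : sX (ric X.dual.ps.D (gX b) (gXi b) a.succ c.succ)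
      = (-(1 / 2) : ℝ) • X.ps.D 0 (X.ps.D 0 (sX (gX b a.succ c.succ))) := by
    unfold ric
    rw [sX_add, sX_sum, sX_sum]
    have e1 : ∀ l, sX (∑ m, (chr X.dual.ps.D (gX b) (gXi b) l l m
        * chr X.dual.ps.D (gX b) (gXi b) m a.succ c.succ
        - chr X.dual.ps.D (gX b) (gXi b) l c.succ m
        * chr X.dual.ps.D (gX b) (gXi b) m a.succ l)) = 0 := by
      intro l
      rw [sX_sum]
      refine Finset.sum_eq_zero fun m _ => ?_
      rw [sX_sub, sX_mul, sX_mul, hchrf, hchrf, hchrf, hchrf]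
      ring
    simp only [e1, Finset.sum_const_zero, add_zero]
    rw [Fin.sum_univ_succ]
    have e2 : ∀ l : Fin k, sX (X.dual.ps.D l.succ (chr X.dual.ps.D (gX b) (gXi b) l.succ a.succ c.succ)
        - X.dual.ps.D c.succ (chr X.dual.ps.D (gX b) (gXi b) l.succ a.succ l.succ)) = 0 := by
      intro l
      rw [hDa, hDa, sub_zero]
      exact cf_ext fun m => by rw [cf_sX, cf_zero, cf_zero]; rfl
    simp only [e2, Finset.sum_const_zero, add_zero]
    rw [hDa, sub_zero, hch0, hD'.smul, sX_smul, sX_D, sX_D]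
  have hsf : fX (sg b) = sg (b.map (fstH X).f) :=
    (S0.map S0.sg (fstH X) hb (fun f => hX 0 f)).symm
  have hs0 : O (k + 2) (fX (sg b) - rr X) := by
    rw [hsf]
    exact flat_sg hb0 hX hh0
  have hhess : hess X.dual.ps.D (gX b) (gXi b) (sg b) a.succ c.succ
      = (1 / 2 : ℝ) • (X.dual.ps.D 0 (gX b a.succ c.succ) * X.dual.ps.D 0 (sg b)) := by
    unfold hess
    rw [Fin.sum_univ_succ]
    have e3 : ∀ l : Fin k, chr X.dual.ps.D (gX b) (gXi b) l.succ a.succ c.succ
        * X.dual.ps.D l.succ (sg b) = 0 := by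
      intro l
      rw [hDa, mul_zero]
    simp only [e3, Finset.sum_const_zero, add_zero]
    rw [hDa, hch0, zero_sub, smul_mul_assoc, ← neg_smul]
    norm_num
  set f := fX (sg b) with hfdef
  set γ := sX (gX b a.succ c.succ) with hγ
  have hB : sX (Bf b a.succ c.succ) = (-(1 / 2) : ℝ) • (f * f * X.ps.D 0 (X.ps.D 0 γ))
      + ((1 / 2 : ℝ) * ((k : ℝ) - 1)) • (f * X.ps.D 0 f * X.ps.D 0 γ) := by
    have hm : sg b * ((1 / 2 : ℝ) • (X.dual.ps.D 0 (gX b a.succ c.succ) * X.dual.ps.D 0 (sg b)))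
        = (1 / 2 : ℝ) • (sg b * (X.dual.ps.D 0 (gX b a.succ c.succ) * X.dual.ps.D 0 (sg b))) :=
      mul_smul_comm _ _ _
    have hm2 : sX (sg b * (X.dual.ps.D 0 (gX b a.succ c.succ) * X.dual.ps.D 0 (sg b)))
        = f * (X.ps.D 0 γ * X.ps.D 0 f) := by
      rw [sX_mul, sX_mul, fX_mul, hgd, fX_D, sX_D, sX_D, ← hfdef, ← hγ]
      ring
    rw [Bf_eq, sX_add, sX_smul, sX_mul, hricf, fX_mul, hhess, hm, sX_smul, hm2]
    have hrf : fX (ric X.dual.ps.D (gX b) (gXi b) a.succ c.succ) = 0 := by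
      unfold ric
      rw [fX_add, fX_sum, fX_sum]
      have e1 : ∀ l, fX (∑ m, (chr X.dual.ps.D (gX b) (gXi b) l l m
          * chr X.dual.ps.D (gX b) (gXi b) m a.succ c.succ
          - chr X.dual.ps.D (gX b) (gXi b) l c.succ m
          * chr X.dual.ps.D (gX b) (gXi b) m a.succ l)) = 0 := by
        intro l
        rw [fX_sum]
        refine Finset.sum_eq_zero fun m _ => ?_
        rw [fX_sub, fX_mul, fX_mul, hchrf, hchrf, hchrf, hchrf]
        ring
      have e2 : ∀ l, fX (X.dual.ps.D l (chr X.dual.ps.D (gX b) (gXi b) l a.succ c.succ)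
          - X.dual.ps.D c.succ (chr X.dual.ps.D (gX b) (gXi b) l a.succ l)) = 0 := by
        intro l
        rw [fX_sub, fX_D, fX_D, hchrf, hchrf, der_zero X.ps.isDer, der_zero X.ps.isDer, sub_zero]
      simp only [e1, e2, Finset.sum_const_zero, add_zero]
    rw [hrf]
    push_cast
    simp only [Algebra.smul_def, map_mul, map_sub, map_add, map_natCast, map_one, map_ofNat, map_neg,
      map_div₀]
    ring
  -- the Lie derivative term
  have hL : O (k + 1) (sX (lie X.dual.ps.D (gfV b (Bf b)) (gX b) a.succ c.succ)) := by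
    have e4 : lie X.dual.ps.D (gfV b (Bf b)) (gX b) a.succ c.succ
        = gfV b (Bf b) 0 * X.dual.ps.D 0 (gX b a.succ c.succ) := by
      unfold lie
      rw [Fin.sum_univ_succ]
      simp only [hDa, mul_zero, zero_mul, Finset.sum_const_zero, add_zero]
    rw [e4, sX_mul, hgd, mul_zero, add_zero]
    refine O.mul_right _ ?_
    have h1 := psm_gfV (fstH X) hb (fun f => hX 0 f) (Bf b) 0
    have h2 : fX (gfV b (Bf b) 0) = gfV (b.map (fstH X).f) (Bf (b.map (fstH X).f)) 0 := by
      refine h1.symm.trans ?_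
      congr 1
      funext i j
      exact (S2.map S2.Bf (fstH X) hb (fun f => hX 0 f) i j).symm
    rw [h2]
    exact (gfV_O' (fun i j => flat_Bf hb0 hX hh0 i j) 0).mono (by omega)
  have hfl : sX (flow b a.succ c.succ) = sX (Bf b a.succ c.succ)
      + sX (lie X.dual.ps.D (gfV b (Bf b)) (gX b) a.succ c.succ) := by
    unfold flow GF
    rw [sX_add]
  rw [hfl, hB]
  have hf1 : X.ps.D 0 f = 1 + X.ps.D 0 (f - rr X) := by
    rw [der_sub X.ps.isDer, D_rr, if_pos rfl]; ring
  have e5 : (-(1 / 2) : ℝ) • (f * f * X.ps.D 0 (X.ps.D 0 γ))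
      + ((1 / 2 : ℝ) * ((k : ℝ) - 1)) • (f * X.ps.D 0 f * X.ps.D 0 γ)
      + sX (lie X.dual.ps.D (gfV b (Bf b)) (gX b) a.succ c.succ)
      - ((-(1 / 2) : ℝ) • (rr X * rr X * X.ps.D 0 (X.ps.D 0 γ))
      + ((1 / 2 : ℝ) * ((k : ℝ) - 1)) • (rr X * X.ps.D 0 γ))
      = (-(1 / 2) : ℝ) • ((f - rr X) * (f + rr X) * X.ps.D 0 (X.ps.D 0 γ))
      + ((1 / 2 : ℝ) * ((k : ℝ) - 1)) • ((f - rr X) * X.ps.D 0 γ
        + f * X.ps.D 0 (f - rr X) * X.ps.D 0 γ)
      + sX (lie X.dual.ps.D (gfV b (Bf b)) (gX b) a.succ c.succ) := by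
    rw [hf1]
    simp only [Algebra.smul_def]
    ring
  rw [e5]
  have hs1 : O (k + 1) (f - rr X) := hs0.mono (by omega)
  refine O.add (O.add (O.smul _ (O.mul_right _ (O.mul_right _ hs1))) (O.smul _ (O.add
    (O.mul_right _ hs1) (O.mul_right _ (O.mul_left _ hs0.d0))))) hL

theorem cf_rrD (m : ℕ) (F : X.ps.R) : cf m (rr X * X.ps.D 0 F) = (m : ℝ) • cf m F := by
  cases m with
  | zero =>
    have : O 1 (rr X) := O1_of (by rw [cf_rr]; simp)
    rw [(this.mul_right (X.ps.D 0 F)) 0 (by omega)]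
    simp
  | succ m =>
    have h1 : cf (m + 1) (rr X * X.ps.D 0 F) = cf m (X.ps.D 0 F) :=
      PowerSeries.coeff_succ_X_mul (R := X.R) m (X.ps.D 0 F)
    rw [h1, cf_d0]
    push_cast
    rfl

theorem cf_rrDD (m : ℕ) (F : X.ps.R) :
    cf m (rr X * rr X * X.ps.D 0 (X.ps.D 0 F)) = ((m : ℝ) * (m - 1)) • cf m F := by
  have h1 : rr X * rr X * X.ps.D 0 (X.ps.D 0 F)
      = rr X * X.ps.D 0 (rr X * X.ps.D 0 F) - rr X * X.ps.D 0 F := by
    rw [X.ps.isDer.mul, D_rr, if_pos rfl]; ring
  rw [h1, cf_sub, cf_rrD, cf_rrD, smul_smul, ← sub_smul]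
  congr 1
  ring

end Flat

end Run7.h96.Hy

end

section

/-!
The principal part of the flow, as a natural formula.
-/

set_option linter.all false
set_option maxHeartbeats 400000

open scoped BigOperators

namespace Run7.h96.Hy

open CInv

variable {k : ℕ}

theorem mem_EW_nat {g : Dg Fd} {m : ℕ} : g ∈ EW (m : WithTop ℤ) ↔ wt g = m := by
  constructor
  · rintro (h | h)
    · exact absurd h (WithTop.natCast_ne_top m)
    · rw [← WithTop.coe_natCast, WithTop.coe_inj] at h
      exact_mod_cast h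
  · intro h
    right
    rw [h]; rfl

theorem nf_eq_zero {J : Type} {g : Dg J} (h : nf g = 0) : g.1 = 0 := by
  ext j
  unfold nf Finsupp.sum at h
  rw [Finset.sum_eq_zero_iff] at h
  by_contra hj
  exact hj (h j (Finsupp.mem_support_iff.mpr hj))

theorem eps_pow {X : DR (k + 1)} (N : ℕ) : (eps (1 : X.R)) ^ (N + 2) = 0 := by
  have h : eps (1 : X.R) * eps (1 : X.R) = 0 := by
    apply dual_ext <;> simp
  rw [pow_add, pow_two, h, mul_zero]

/-- the flow eigenvalue -/
noncomputable def ev (k j : ℕ) : ℝ := (1 / 2) * ((j : ℝ) + 1) * ((k : ℝ) - (j + 1))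

/-- same data, without derivations -/
noncomputable def flb {X : DR (k + 1)} (b : HD X) : HD X.fl :=
  BD.map (Y := X.fl) (AlgHom.id ℝ X.R : X.R →ₐ[ℝ] X.fl.R) b

theorem flb_fer {X : DR (k + 1)} {b : HD X} (hb : Fer b) : Fer (flb b) where
  d0 _ := rfl
  g00 := hb.g00
  g0 := hb.g0
  nu := hb.nu
  h0 := hb.h0
  hs := hb.hs

/-- scaled data -/
noncomputable def fsb {X : DR (k + 1)} (b : HD X) : HD X.fl.dual :=
  BD.scl Sh (eps (1 : X.fl.R)) ((flb b).map (inlH X.fl).f)

open Classical in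
theorem fsb_h {X : DR (k + 1)} (b : HD X) (j : ℕ) (K : Fin 2 → Fin (k + 1)) :
    (fsb b).Φ (Fd.h j) K = eps (1 : X.fl.R) * (inlH X.fl).f ((flb b).Φ (Fd.h j) K) := by
  show (if Fd.h j ∈ Sh then _ else _) = _
  rw [if_pos ⟨j, rfl⟩]
  rfl

open Classical in
theorem fsb_nh {X : DR (k + 1)} (b : HD X) (j : Fd) (hj : j ∉ Sh) (K : Fin (ρF j) → Fin (k + 1)) :
    (fsb b).Φ j K = (inlH X.fl).f ((flb b).Φ j K) := by
  show (if j ∈ Sh then _ else _) = _
  rw [if_neg hj]
  rfl

theorem fsb_fer {X : DR (k + 1)} {b : HD X} (hb : Fer b) : Fer (fsb b) where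
  d0 := dual_d0 (fun _ => rfl)
  g00 := by
    show (inlH X.fl).f (b.G 0 0) = 1
    rw [hb.g00]; exact map_one _
  g0 a := by
    show (inlH X.fl).f (b.G 0 a.succ) = 0
    rw [hb.g0]; exact map_zero _
  nu K := by
    rw [fsb_nh b Fd.nu (by rintro ⟨j, hj⟩; cases hj)]
    show (inlH X.fl).f (b.Φ Fd.nu K) = _
    rw [hb.nu]
    split_ifs
    · exact map_one _
    · exact map_zero _
  h0 j i := by
    rw [fsb_h]
    show eps (1 : X.fl.R) * (inlH X.fl).f (b.Φ (Fd.h j) ![0, i]) = 0
    rw [hb.h0]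
    have : (inlH X.fl).f (0 : X.fl.R) = 0 := map_zero _
    exact (congrArg _ this).trans (mul_zero _)
  hs j i i' := by
    rw [fsb_h, fsb_h]
    show eps (1 : X.fl.R) * (inlH X.fl).f (b.Φ (Fd.h j) ![i, i'])
      = eps (1 : X.fl.R) * (inlH X.fl).f (b.Φ (Fd.h j) ![i', i])
    rw [hb.hs]

theorem fer_h_zero {X : DR (k + 1)} {b : HD X} (hb : Fer b) (j : ℕ) {K : Fin 2 → Fin (k + 1)}
    (hK : K 0 = 0 ∨ K 1 = 0) : b.Φ (Fd.h j) K = 0 := by
  have h1 : K = ![K 0, K 1] := by
    funext s; fin_cases s <;> rfl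
  rcases hK with h | h
  · have : b.Φ (Fd.h j) K = b.Φ (Fd.h j) ![0, K 1] := by
      rw [h1, h]; rfl
    rw [this, hb.h0]
  · have : b.Φ (Fd.h j) K = b.Φ (Fd.h j) ![K 0, 0] := by
      rw [h1, h]; rfl
    rw [this, hb.hs, hb.h0]

theorem flow_flat {X : DR (k + 1)} {b : HD X} (hb : Fer b) (j : ℕ) (hj : j + 1 ≤ k)
    (K : Fin 2 → Fin (k + 1)) :
    sn (cf (j + 1) (flow (fsb b) (K 0) (K 1))) = ev k j • (show X.fl.R from b.Φ (Fd.h j) K) := by
  have hb' := fsb_fer hb
  have h0 : sn (cf (j + 1) (0 : X.fl.dual.ps.R)) = 0 := by rw [cf_zero]; rfl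
  have hsym : ∀ i i', flow (fsb b) i i' = flow (fsb b) i' i :=
    GF_symm hb' (Bf_symm hb')
  rcases Fin.eq_zero_or_eq_succ (K 0) with hK | ⟨a, ha⟩
  · rw [hK]
    have h1 : flow (fsb b) 0 (K 1) = 0 := GF_zero hb' _
    rw [h1, h0]
    have h2 : b.Φ (Fd.h j) K = 0 := fer_h_zero hb j (Or.inl hK)
    show (0 : X.fl.R) = ev k j • (b.Φ (Fd.h j) K : X.fl.R)
    rw [h2]; exact (smul_zero _).symm
  rcases Fin.eq_zero_or_eq_succ (K 1) with hK | ⟨c, hc⟩
  · rw [hK, hsym]
    have h1 : flow (fsb b) 0 (K 0) = 0 := GF_zero hb' _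
    rw [h1, h0]
    have h2 : b.Φ (Fd.h j) K = 0 := fer_h_zero hb j (Or.inr hK)
    show (0 : X.fl.R) = ev k j • (b.Φ (Fd.h j) K : X.fl.R)
    rw [h2]; exact (smul_zero _).symm
  rw [ha, hc]
  have h1 := flat_flow (X := X.fl) hb' (fun _ _ => rfl) (fun j K => by
    rw [fsb_h]; simp) a c (j + 1) (by omega)
  rw [cf_sub, cf_add, cf_smul, cf_smul, cf_rrDD, cf_rrD] at h1
  have h2 : cf (j + 1) (sX (gX (fsb b) a.succ c.succ)) = (b.Φ (Fd.h j) K : X.fl.R) := by
    rw [cf_sX, cf_gX]
    show sn ((fsb b).Φ (Fd.h j) ![a.succ, c.succ]) = _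
    rw [fsb_h, sn_mul]
    simp only [fs_eps, zero_mul, sn_eps, fs_inl, one_mul, zero_add]
    show b.Φ (Fd.h j) ![a.succ, c.succ] = b.Φ (Fd.h j) K
    congr 1
    funext s
    fin_cases s
    · exact ha.symm
    · exact hc.symm
  rw [h2, cf_sX] at h1
  have h3 := sub_eq_zero.mp h1
  rw [h3, smul_smul, smul_smul, ← add_smul]
  show (_ : ℝ) • (b.Φ (Fd.h j) K : X.fl.R) = ev k j • (b.Φ (Fd.h j) K : X.fl.R)
  congr 1
  unfold ev
  push_cast
  ring

/-- the principal part -/
theorem flow_prin (hk : 1 ≤ k) (j : ℕ) (hj : j + 1 ≤ k) :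
    ∃ low : Tk (k + 1) Fd ρF (Fin 2), FS Sh (El k (j + 1)) (Fin 2) low ∧
      ∀ (X : DR (k + 1)) (b : HD X), Fer b → ∀ K : Fin 2 → Fin (k + 1),
        cf (j + 1) (flow b (K 0) (K 1)) = ev k j • b.Φ (Fd.h j) K + low X b K := by
  classical
  obtain ⟨T', hT', hI⟩ := S2.flow (k := k) (j + 1)
  obtain ⟨ι, hι, g, T, L, hg, hT, hS⟩ := hT'.out (Equiv.refl (Fin 2))
  have hw : ∀ i, wt (g i) = j + 1 := by
    intro i
    have := hg i
    rw [add_zero] at this
    exact mem_EW_nat.mp this
  refine ⟨fun X b K => ∑ i ∈ Finset.univ.filter (fun i => 2 ≤ rk k (g i)), T i X b K, ?_, ?_⟩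
  · refine FS.sum _ fun i hi => ?_
    rw [Finset.mem_filter] at hi
    exact FS.of (hT i) ⟨hw i, hi.2⟩
  · intro X b hb K
    have h1 := flow_flat hb j hj K
    have h2 : cf (j + 1) (flow (fsb b) (K 0) (K 1)) = ∑ i, T i X.fl.dual (fsb b) K := by
      have := hI X.fl.dual (fsb b) (fsb_fer hb) K
      rw [hS] at this
      exact this
    let t : ι → X.fl.R := fun i => T i X b K
    have h3 : ∀ i, sn (T i X.fl.dual (fsb b) K)
        = if 2 ≤ rk k (g i) then 0 else t i := by
      intro i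
      have e1 : T i X.fl.dual (fsb b) K
          = (eps (1 : X.fl.R)) ^ (nf (g i)) * (inlH X.fl).f (T i X.fl (flb b) K) := by
        have hc : ∀ i, X.fl.dual.d i (eps (1 : X.fl.R)) = 0 := by
          intro i
          apply dual_ext
          · rw [fs_d]; rfl
          · rw [sn_d]; rfl
        have := (hT i).scl ((flb b).map (inlH X.fl).f) hc K
        rw [(hT i).map (inlH X.fl) (flb b) K] at this
        exact this
      by_cases hr : 2 ≤ rk k (g i)
      · rw [if_pos hr, e1]
        by_cases h2 : (g i).2 = 0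
        · have h4 : 2 ≤ nf (g i) := by
            unfold rk at hr
            rw [h2] at hr
            omega
          obtain ⟨N, hN⟩ : ∃ N, nf (g i) = N + 2 := ⟨nf (g i) - 2, by omega⟩
          rw [hN, eps_pow, zero_mul]; rfl
        · rw [(hT i).zeroD h2 (fun _ _ => rfl)]
          rw [map_zero, mul_zero]; rfl
      · rw [if_neg hr, e1]
        have h2 : (g i).2 = 0 := by
          by_contra hne
          apply hr
          unfold rk
          have : 1 ≤ (g i).2 := by omega
          nlinarith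
        have h4 : nf (g i) = 1 := by
          have h5 : nf (g i) < 2 := by
            unfold rk at hr
            rw [h2] at hr
            omega
          have h6 : nf (g i) ≠ 0 := by
            intro h7
            have h8 := nf_eq_zero h7
            have h9 := hw i
            unfold wt at h9
            rw [h8, h2] at h9
            simp at h9
          omega
        rw [h4, pow_one, sn_mul]
        simp only [fs_eps, zero_mul, sn_eps, fs_inl, one_mul, zero_add]
        exact (hT i).mapA h2 (Y := X.fl) (AlgHom.id ℝ X.R : X.R →ₐ[ℝ] X.fl.R) b K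
    rw [h2, sn_sum] at h1
    simp only [h3] at h1
    have h4 : cf (j + 1) (flow b (K 0) (K 1)) = ∑ i, T i X b K := by
      have := hI X b hb K
      rw [hS] at this
      exact this
    rw [h4, ← Finset.sum_filter_add_sum_filter_not Finset.univ (fun i => 2 ≤ rk k (g i))]
    refine Eq.trans (add_comm _ _) ?_
    congr 1
    have h5 : (∑ i, if 2 ≤ rk k (g i) then (0 : X.fl.R) else t i)
        = ∑ i ∈ Finset.univ.filter (fun i => ¬ 2 ≤ rk k (g i)), t i := by
      rw [Finset.sum_filter]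
      refine Finset.sum_congr rfl fun i _ => ?_
      by_cases h : 2 ≤ rk k (g i)
      · rw [if_pos h, if_neg (not_not.mpr h)]
      · rw [if_neg h, if_pos h]
    exact h5.symm.trans h1

end Run7.h96.Hy

end

section

/-!
The polynomial trick for the flow operator.
-/

set_option linter.all false
set_option maxHeartbeats 400000

open scoped BigOperators

namespace Run7.h96.Hy

open CInv

variable {k : ℕ}

/-! ### dependence of the linearisation on the variation -/

section Lc

variable {n : ℕ} {J : Type} {ρ : J → ℕ}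

theorem HN.Lcongr {S : Set J} {g : Dg J} {r : ℕ} {T : Tn n J ρ r} {L : Ln n J ρ r}
    (h : HN S g r T L) {X : DR n} (b : BD X J ρ) {Ψ Ψ' : Fl X J ρ}
    (hΨ : ∀ j, g.1 j ≠ 0 → Ψ j = Ψ' j) (K : Fin r → Fin n) : L X b Ψ K = L X b Ψ' K := by
  induction h with
  | one => rfl
  | met => rfl
  | curv => rfl
  | fieldV j hj =>
    have : Ψ j = Ψ' j := hΨ j (by simp)
    beta_reduce
    rw [this]
  | fieldC j hj => rfl
  | zero g r => rfl
  | add _ _ h1 h2 => beta_reduce; rw [h1 hΨ, h2 hΨ]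
  | smul t _ h1 => beta_reduce; rw [h1 hΨ]
  | @mul g g' r r' t T T' L L' e _ _ h1 h2 =>
    have a1 : ∀ j, g.1 j ≠ 0 → Ψ j = Ψ' j := fun j hj => hΨ j (by
      rw [Prod.fst_add, Finsupp.add_apply]; omega)
    have a2 : ∀ j, g'.1 j ≠ 0 → Ψ j = Ψ' j := fun j hj => hΨ j (by
      rw [Prod.fst_add, Finsupp.add_apply]; omega)
    simp only [relab, tens, h1 a1, h2 a2]
  | perm e _ h1 => simp only [relab, h1 hΨ]
  | contr e _ h1 => simp only [contr2, relab, h1 hΨ]
  | @deriv g r t T L e _ h1 =>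
    have a1 : ∀ j, g.1 j ≠ 0 → Ψ j = Ψ' j := fun j hj => hΨ j (by
      rw [Prod.fst_add, Finsupp.add_apply]
      simpa using hj)
    have h2 : L X b Ψ = L X b Ψ' := by
      funext K; exact h1 a1 K
    simp only [relab, DD, h2]

theorem HN.L0 {S : Set J} {g : Dg J} {r : ℕ} {T : Tn n J ρ r} {L : Ln n J ρ r}
    (h : HN S g r T L) (hg : g.1 = 0) {X : DR n} (b : BD X J ρ) (Ψ : Fl X J ρ)
    (K : Fin r → Fin n) : L X b Ψ K = 0 := by
  have h1 := h.Lcongr b (Ψ := Ψ) (Ψ' := fun j K => (0 : ℝ) • b.Φ j K) (fun j hj => by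
    rw [hg] at hj; exact absurd rfl hj) K
  rw [h1]
  have h2 := h.euler b (fun _ => 0) K
  rw [h2, hg]
  simp

end Lc

/-! ### scalars -/

/-- families of scalars -/
abbrev Sc (k : ℕ) : Type 1 := ∀ X : DR (k + 1), HD X → X.R

/-- derivative along a flow -/
noncomputable def DV (β : ∀ X : DR (k + 1), HD X → Fin (k + 1) → Fin (k + 1) → X.ps.R) :
    Sc k →ₗ[ℝ] Sc k where
  toFun T := fun X b => sn (T X.dual (b.vary Sh (toFl (β X b))))
  map_add' T T' := by funext X b; rfl
  map_smul' t T := by funext X b; rfl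

/-- equality on Fermi data -/
def eqF (T T' : Sc k) : Prop := ∀ (X : DR (k + 1)) (b : HD X), Fer b → T X b = T' X b

/-- admissible flows -/
structure Adm (β : ∀ X : DR (k + 1), HD X → Fin (k + 1) → Fin (k + 1) → X.ps.R) : Prop where
  zero : ∀ (X : DR (k + 1)) (b : HD X), Fer b → ∀ i, β X b 0 i = 0
  symm : ∀ (X : DR (k + 1)) (b : HD X), Fer b → ∀ i j, β X b i j = β X b j i
  cf0 : ∀ (X : DR (k + 1)) (b : HD X), Fer b → ∀ i j, cf 0 (β X b i j) = 0

theorem Adm.fer {β : ∀ X : DR (k + 1), HD X → Fin (k + 1) → Fin (k + 1) → X.ps.R} (h : Adm β)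
    {X : DR (k + 1)} {b : HD X} (hb : Fer b) : Fer (b.vary Sh (toFl (β X b))) :=
  hb.vary (h.zero X b hb) (h.symm X b hb)

theorem flow_adm : Adm (k := k) (fun X b => flow b) where
  zero X b hb i := GF_zero hb i
  symm X b hb i j := GF_symm hb (Bf_symm hb) i j
  cf0 X b hb i j := GF_O (Bf_O1 hb) i j 0 (by omega)

theorem flowX_adm : Adm (k := k) (fun X b => flowX b) where
  zero X b hb i := GF_zero hb i
  symm X b hb i j := GF_symm hb (fun i j => by rw [tg_symm hb]) i j
  cf0 X b hb i j := GF_O (fun i j => O.mul_left _ (tg_O1 hb i j)) i j 0 (by omega)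

theorem DV_congr {β : ∀ X : DR (k + 1), HD X → Fin (k + 1) → Fin (k + 1) → X.ps.R} (h : Adm β)
    {T T' : Sc k} (hT : eqF T T') : eqF (DV β T) (DV β T') := by
  intro X b hb
  show sn (T X.dual _) = sn (T' X.dual _)
  rw [hT X.dual _ (h.fer hb)]

/-- natural scalars -/
def NS (E : Set (Dg Fd)) (T : Sc k) : Prop := NF E (Fin 0) (fun X b _ => T X b)

theorem NS.congr {E : Set (Dg Fd)} {T T' : Sc k} (h : NS E T) (hT : eqF T T') : NS E T' :=
  NF.congr h fun X b hb _ => hT X b hb

/-- degrees without fields -/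
def E0 (k : ℕ) : Set (Dg Fd) := {g | g.1 = 0 ∧ wt g = k}

/-- scalars depending only on the metric -/
def KK (k : ℕ) : Submodule ℝ (Sc k) where
  carrier := {T | NS (E0 k) T}
  zero_mem' := NF.zero
  add_mem' h h' := NF.add h h'
  smul_mem' t _ h := NF.smul h t

/-- scalars vanishing on Fermi data -/
def ZZ (k : ℕ) : Submodule ℝ (Sc k) where
  carrier := {T | eqF T 0}
  zero_mem' _ _ _ := rfl
  add_mem' h h' X b hb := by
    show _ + _ = (0 : X.R)
    rw [h X b hb, h' X b hb]; exact add_zero _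
  smul_mem' t _ h X b hb := by
    show t • _ = (0 : X.R)
    rw [h X b hb]; exact smul_zero _

theorem DV_KK {β : ∀ X : DR (k + 1), HD X → Fin (k + 1) → Fin (k + 1) → X.ps.R} (h : Adm β)
    {T : Sc k} (hT : NS (E0 k) T) : eqF (DV β T) 0 := by
  obtain ⟨T', hT', hI⟩ := hT
  obtain ⟨ι, hι, g, T1, L, hg, hT1, hS⟩ := hT'.out (Equiv.refl (Fin 0))
  intro X b hb
  show sn (T X.dual (b.vary Sh (toFl (β X b)))) = 0
  have h1 := hI X.dual _ (h.fer hb) ![]
  beta_reduce at h1
  rw [h1, hS, sn_sum]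
  refine Finset.sum_eq_zero fun i _ => ?_
  rw [((hT1 i).dual b (toFl (β X b)) _).2]
  exact (hT1 i).L0 (hg i).1 b _ _

theorem inv_aeval {D : Sc k →ₗ[ℝ] Sc k} {M : Submodule ℝ (Sc k)} (hM : ∀ T ∈ M, D T ∈ M)
    (p : Polynomial ℝ) : ∀ T ∈ M, Polynomial.aeval D p T ∈ M := by
  have hpow : ∀ n : ℕ, ∀ T ∈ M, (D ^ n) T ∈ M := by
    intro n
    induction n with
    | zero => intro T hT; exact hT
    | succ n ih =>
      intro T hT
      rw [pow_succ]
      exact ih _ (hM T hT)
  intro T hT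
  induction p using Polynomial.induction_on' with
  | add p q hp hq =>
    rw [map_add, LinearMap.add_apply]
    exact M.add_mem hp hq
  | monomial n a =>
    rw [Polynomial.aeval_monomial]
    have : (algebraMap ℝ (Module.End ℝ (Sc k)) a * D ^ n) T = a • (D ^ n) T := rfl
    rw [this]
    exact M.smul_mem a (hpow n T hT)

theorem ZZ_inv {β : ∀ X : DR (k + 1), HD X → Fin (k + 1) → Fin (k + 1) → X.ps.R} (h : Adm β) :
    ∀ T ∈ ZZ k, DV β T ∈ ZZ k := by
  intro T hT
  have := DV_congr h (T := T) (T' := 0) hT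
  rwa [map_zero] at this

theorem KK_inv {β : ∀ X : DR (k + 1), HD X → Fin (k + 1) → Fin (k + 1) → X.ps.R} (h : Adm β) :
    ∀ T ∈ KK k, DV β T ∈ KK k := by
  intro T hT
  have h1 := DV_KK h hT
  exact NS.congr (KK k).zero_mem fun X b hb => (h1 X b hb).symm

/-- the flow operator -/
noncomputable abbrev D' (k : ℕ) : Sc k →ₗ[ℝ] Sc k := DV (fun X b => flow b)

/-- scalars killed up to metric invariants by a polynomial in the flow operator -/
def Good (T : Sc k) : Prop :=
  ∃ p : Polynomial ℝ, p.eval 0 ≠ 0 ∧ Polynomial.aeval (D' k) p T ∈ KK k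

theorem Good.congr {T T' : Sc k} (h : Good T) (hT : eqF T T') : Good T' := by
  obtain ⟨p, hp, hK⟩ := h
  refine ⟨p, hp, ?_⟩
  have h1 : T' - T ∈ ZZ k := by
    intro X b hb
    show T' X b - T X b = 0
    rw [hT X b hb, sub_self]
  have h2 := inv_aeval (ZZ_inv flow_adm) p _ h1
  have h3 : Polynomial.aeval (D' k) p T' = Polynomial.aeval (D' k) p T
      + Polynomial.aeval (D' k) p (T' - T) := by
    rw [map_sub]; abel
  rw [h3]
  refine (KK k).add_mem hK ?_
  exact NS.congr (KK k).zero_mem fun X b hb => (h2 X b hb).symm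

theorem Good.add {T T' : Sc k} (h : Good T) (h' : Good T') : Good (T + T') := by
  obtain ⟨p, hp, hK⟩ := h
  obtain ⟨q, hq, hK'⟩ := h'
  refine ⟨p * q, ?_, ?_⟩
  · rw [Polynomial.eval_mul]; exact mul_ne_zero hp hq
  · rw [map_add]
    refine (KK k).add_mem ?_ ?_
    · rw [mul_comm, map_mul]
      exact inv_aeval (KK_inv flow_adm) q _ hK
    · rw [map_mul]
      exact inv_aeval (KK_inv flow_adm) p _ hK'

theorem Good.of_KK {T : Sc k} (h : T ∈ KK k) : Good T :=
  ⟨1, by simp, by rw [map_one]; exact h⟩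

theorem Good.zero : Good (0 : Sc k) := Good.of_KK (KK k).zero_mem

theorem Good.sum {α : Type} (s : Finset α) {T : α → Sc k} (h : ∀ a ∈ s, Good (T a)) :
    Good (∑ a ∈ s, T a) := by
  classical
  induction s using Finset.induction_on with
  | empty => simpa using Good.zero
  | @insert a s ha ih =>
    rw [Finset.sum_insert ha]
    exact (h a (Finset.mem_insert_self a s)).add (ih fun b hb => h b (Finset.mem_insert_of_mem hb))

theorem Good.step {T T1 : Sc k} {c : ℝ} (hc : c ≠ 0) (h : eqF (D' k T) (c • T + T1))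
    (h1 : Good T1) : Good T := by
  obtain ⟨p, hp, hK⟩ := h1.congr (T' := D' k T - c • T) (fun X b hb => by
    show T1 X b = D' k T X b - c • T X b
    rw [h X b hb]
    show _ = c • T X b + T1 X b - _
    ring)
  refine ⟨p * (Polynomial.X - Polynomial.C c), ?_, ?_⟩
  · rw [Polynomial.eval_mul]
    simp only [Polynomial.eval_sub, Polynomial.eval_X, Polynomial.eval_C, zero_sub]
    exact mul_ne_zero hp (neg_ne_zero.mpr hc)
  · rw [map_mul]
    have : Polynomial.aeval (D' k) (Polynomial.X - Polynomial.C c) T = D' k T - c • T := by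
      rw [map_sub, Polynomial.aeval_X, Polynomial.aeval_C]
      rfl
    show (Polynomial.aeval (D' k) p) ((Polynomial.aeval (D' k) (Polynomial.X - Polynomial.C c)) T) ∈ _
    rw [this]
    exact hK

/-! ### weights and ranks -/

theorem wf_pos {f : Fd} (hf : f ∈ Sh) : 1 ≤ wf f := by
  obtain ⟨j, rfl⟩ := hf
  show 1 ≤ j + 1
  omega

theorem le_wt {g : Dg Fd} {f : Fd} (hf : g.1 f ≠ 0) : g.1 f * wf f ≤ wt g := by
  unfold wt Finsupp.sum
  have := Finset.single_le_sum (f := fun f => g.1 f * wf f) (fun _ _ => Nat.zero_le _)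
    (Finsupp.mem_support_iff.mpr hf)
  beta_reduce at this ⊢
  omega

theorem nf_le_wt {g : Dg Fd} (hg : ∀ f, g.1 f ≠ 0 → f ∈ Sh) : nf g + g.2 ≤ wt g := by
  unfold wt nf Finsupp.sum
  rw [add_comm]
  refine Nat.add_le_add_left ?_ _
  refine Finset.sum_le_sum fun f hf => ?_
  have h1 := wf_pos (hg f (Finsupp.mem_support_iff.mp hf))
  exact Nat.le_mul_of_pos_right _ h1

theorem single_of {g : Dg Fd} (hg : ∀ f, g.1 f ≠ 0 → f ∈ Sh) {f : Fd} (hf : g.1 f ≠ 0)
    (hw : wt g ≤ wf f) : g = (Finsupp.single f 1, 0) := by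
  classical
  have hpos := wf_pos (hg f hf)
  have h1 : g.1 f * wf f + (g.2 + ∑ f' ∈ g.1.support.erase f, g.1 f' * wf f') = wt g := by
    unfold wt Finsupp.sum
    rw [← Finset.add_sum_erase _ (fun f => g.1 f * wf f) (Finsupp.mem_support_iff.mpr hf)]
    ring
  have h2 : 1 ≤ g.1 f := Nat.one_le_iff_ne_zero.mpr hf
  have h3 : wf f ≤ g.1 f * wf f := Nat.le_mul_of_pos_left _ h2
  have h4 : g.2 + ∑ f' ∈ g.1.support.erase f, g.1 f' * wf f' = 0 := by omega
  have h5 : g.1 f = 1 := by
    have : g.1 f * wf f ≤ wf f := by omega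
    have h6 : g.1 f * wf f ≤ 1 * wf f := by omega
    have := Nat.le_of_mul_le_mul_right h6 hpos
    omega
  have h6 : g.2 = 0 := by omega
  have h7 : ∑ f' ∈ g.1.support.erase f, g.1 f' * wf f' = 0 := by omega
  rw [Finset.sum_eq_zero_iff] at h7
  refine Prod.ext ?_ h6
  show g.1 = Finsupp.single f 1
  ext f'
  rw [Finsupp.single_apply]
  split_ifs with h
  · rw [← h, h5]
  · by_contra hne
    have h8 := h7 f' (Finset.mem_erase.mpr ⟨Ne.symm h, Finsupp.mem_support_iff.mpr hne⟩)
    have h9 := wf_pos (hg f' hne)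
    have : g.1 f' = 0 := by
      rcases Nat.mul_eq_zero.mp h8 with h | h
      · exact h
      · omega
    exact hne this

theorem ev_nonneg {j : ℕ} (hj : j + 1 ≤ k) : 0 ≤ ev k j := by
  unfold ev
  have : ((j : ℝ) + 1) ≤ k := by exact_mod_cast hj
  have h1 : (0 : ℝ) ≤ (j : ℝ) + 1 := by positivity
  have h2 : (0 : ℝ) ≤ (k : ℝ) - (j + 1) := by linarith
  positivity

theorem ev_pos {j : ℕ} (hj : j + 1 < k) : 0 < ev k j := by
  unfold ev
  have : ((j : ℝ) + 1) < k := by exact_mod_cast hj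
  have h1 : (0 : ℝ) < (j : ℝ) + 1 := by positivity
  have h2 : (0 : ℝ) < (k : ℝ) - (j + 1) := by linarith
  positivity

/-- eigenvalues of the flow -/
noncomputable def lam (k : ℕ) : Fd → ℝ
  | Fd.h j => if j + 1 ≤ k then ev k j else 0
  | _ => 0

theorem lam_nonneg (f : Fd) : 0 ≤ lam k f := by
  unfold lam
  split
  · split_ifs with h
    · exact ev_nonneg h
    · exact le_rfl
  · exact le_rfl

theorem Lam_ne {g : Dg Fd} (hg : ∀ f, g.1 f ≠ 0 → f ∈ Sh) (hw : wt g = k) (h0 : g.1 ≠ 0)
    (hne : g ≠ (Finsupp.single (Fd.h (k - 1)) 1, 0)) :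
    (g.1.sum fun f m => (m : ℝ) * lam k f) ≠ 0 := by
  intro hsum
  unfold Finsupp.sum at hsum
  rw [Finset.sum_eq_zero_iff_of_nonneg (fun f _ => mul_nonneg (Nat.cast_nonneg _) (lam_nonneg f))]
    at hsum
  obtain ⟨f, hf⟩ : ∃ f, g.1 f ≠ 0 := by
    by_contra hcon
    push Not at hcon
    exact h0 (Finsupp.ext hcon)
  have h1 := hsum f (Finsupp.mem_support_iff.mpr hf)
  obtain ⟨j, rfl⟩ := hg f hf
  have h2 : lam k (Fd.h j) = 0 := by
    rcases mul_eq_zero.mp h1 with h | h
    · exact absurd (by exact_mod_cast h) hf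
    · exact h
  have h3 := le_wt hf
  have h4 : j + 1 ≤ k := by
    have : 1 ≤ g.1 (Fd.h j) := Nat.one_le_iff_ne_zero.mpr hf
    have h5 : j + 1 ≤ g.1 (Fd.h j) * wf (Fd.h j) := Nat.le_mul_of_pos_left _ this
    omega
  have h5 : ¬ (j + 1 < k) := by
    intro hlt
    have := ev_pos hlt
    have h7 : lam k (Fd.h j) = if j + 1 ≤ k then ev k j else 0 := rfl
    rw [h7, if_pos h4] at h2
    exact this.ne' h2
  have h6 : j = k - 1 := by omega
  subst h6
  refine hne (single_of hg hf ?_)
  rw [hw]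
  show k ≤ k - 1 + 1
  omega

/-- a scalar family as an element of `Sc` -/
def ofT (T : Tn (k + 1) Fd ρF 0) : Sc k := fun X b => T X b ![]

theorem good_HN (hk : 1 ≤ k) : ∀ (N : ℕ) (g : Dg Fd) (T : Tn (k + 1) Fd ρF 0)
    (L : Ln (k + 1) Fd ρF 0), HN Sh g 0 T L → wt g = k →
    g ≠ (Finsupp.single (Fd.h (k - 1)) 1, 0) → k * (k + 1) + k ≤ rk k g + N → Good (ofT T) := by
  classical
  have hlow : ∀ j, ∃ low : Tk (k + 1) Fd ρF (Fin 2), FS Sh (El k (j + 1)) (Fin 2) low ∧
      (j + 1 ≤ k → ∀ (X : DR (k + 1)) (b : HD X), Fer b → ∀ K : Fin 2 → Fin (k + 1),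
        cf (j + 1) (flow b (K 0) (K 1)) = ev k j • b.Φ (Fd.h j) K + low X b K) := by
    intro j
    by_cases hj : j + 1 ≤ k
    · obtain ⟨low, h1, h2⟩ := flow_prin hk j hj
      exact ⟨low, h1, fun _ => h2⟩
    · exact ⟨fun _ _ _ => 0, FS.zero, fun h => absurd h hj⟩
  choose low hlow1 hlow2 using hlow
  intro N
  induction N with
  | zero =>
    intro g T L hT hw hne hN
    -- the rank is maximal: the degree contains no field or the scalar vanishes
    rcases hT.supp with h0 | hsupp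
    · refine Good.zero.congr fun X b hb => ?_
      exact (h0 X b ![]).symm
    · by_cases hg0 : g.1 = 0
      · exact Good.of_KK (NF.congr (NF.of (FS.of (E := E0 k) hT ⟨hg0, hw⟩)) fun X b hb K => by
          show T X b K = T X b ![]
          congr 1
          exact Subsingleton.elim _ _)
      · exfalso
        have h1 := nf_le_wt hsupp
        have h2 : 1 ≤ nf g := by
          by_contra hcon
          exact hg0 (nf_eq_zero (by omega))
        unfold rk at hN
        have h3 : g.2 + 1 ≤ k := by omega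
        have h4 : nf g ≤ k - g.2 := by omega
        have h5 : g.2 * (k + 1) + (k + 1) ≤ k * (k + 1) := by
          have := Nat.mul_le_mul_right (k + 1) h3
          linarith
        omega
  | succ N ih =>
    intro g T L hT hw hne hN
    rcases hT.supp with h0 | hsupp
    · refine Good.zero.congr fun X b hb => ?_
      exact (h0 X b ![]).symm
    by_cases hg0 : g.1 = 0
    · exact Good.of_KK (NF.congr (NF.of (FS.of (E := E0 k) hT ⟨hg0, hw⟩)) fun X b hb K => by
        show T X b K = T X b ![]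
        congr 1
        exact Subsingleton.elim _ _)
    -- the lower order part
    let lw : ∀ X : DR (k + 1), HD X → Fl X Fd ρF := fun X b f => match f with
      | Fd.h j => low j X b
      | Fd.nu => fun _ => 0
      | Fd.chi => fun _ => 0
      | Fd.om _ => fun _ => 0
    let Ej : Fd → Set (Dg Fd) := fun f => {ν | ∃ j, f = Fd.h j ∧ ν ∈ El k (j + 1)}
    have hL : FS Sh (Dsub Sh Ej g) (Fin 0) (fun X b => L X b (lw X b)) := by
      refine hT.lsub lw Ej ?_
      rintro f ⟨j, rfl⟩
      exact (hlow1 j).mono fun ν hν => ⟨j, rfl, hν⟩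
    obtain ⟨ι, hι, g', T', L', hg', hT', hS'⟩ := hL.out (Equiv.refl (Fin 0))
    have hgood : Good (∑ i, ofT (T' i)) := by
      refine Good.sum _ fun i _ => ?_
      obtain ⟨f, ⟨j, rfl⟩, ν, ⟨j', hj', hν⟩, hsum⟩ := hg' i
      have hjj : j = j' := by
        injection hj'
      subst hjj
      have hw' : wt (g' i) = k := by
        have h1 := congrArg wt hsum
        rw [wt_add, wt_add, wt_single, hν.1] at h1
        omega
      have hr' : rk k g + 1 ≤ rk k (g' i) := by
        have h1 := congrArg (rk k) hsum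
        rw [rk_add, rk_add] at h1
        have h2 : rk k ((Finsupp.single (Fd.h j) 1, 0) : Dg Fd) = 1 := by
          unfold rk
          rw [nf_single]; simp
        have h3 := hν.2
        omega
      refine ih (g' i) (T' i) (L' i) (hT' i) hw' ?_ (by omega)
      intro heq
      rw [heq] at hr'
      have h2 : rk k ((Finsupp.single (Fd.h (k - 1)) 1, 0) : Dg Fd) = 1 := by
        unfold rk
        rw [nf_single]; simp
      have h3 : 1 ≤ nf g := by
        by_contra hcon
        exact hg0 (nf_eq_zero (by omega))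
      have h4 : nf g ≤ rk k g := by unfold rk; omega
      omega
    refine Good.step (Lam_ne hsupp hw hg0 hne) ?_ hgood
    intro X b hb
    have h1 : D' k (ofT T) X b = L X b (toFl (flow b)) ![] := (hT.dual b (toFl (flow b)) ![]).2
    have h2 : L X b (toFl (flow b)) ![]
        = L X b (fun f K => lam k f • b.Φ f K + lw X b f K) ![] := by
      refine hT.Lcongr b (fun f hf => ?_) _
      obtain ⟨j, rfl⟩ := hsupp f hf
      have h3 := le_wt hf
      have h4 : j + 1 ≤ k := by
        have : 1 ≤ g.1 (Fd.h j) := Nat.one_le_iff_ne_zero.mpr hf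
        have h5 : j + 1 ≤ g.1 (Fd.h j) * wf (Fd.h j) := Nat.le_mul_of_pos_left _ this
        omega
      funext K
      show cf (j + 1) (flow b (K 0) (K 1)) = (if j + 1 ≤ k then ev k j else 0) • b.Φ (Fd.h j) K
        + low j X b K
      rw [if_pos h4]
      exact hlow2 j h4 X b hb K
    have h3 : L X b (fun f K => lam k f • b.Φ f K + lw X b f K) ![]
        = (g.1.sum fun f m => (m : ℝ) * lam k f) • T X b ![] + L X b (lw X b) ![] := by
      rw [hT.ladd b (fun f K => lam k f • b.Φ f K) (lw X b) ![], hT.euler]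
    rw [h1, h2, h3]
    show _ = (g.1.sum fun f m => (m : ℝ) * lam k f) • T X b ![] + (∑ i, ofT (T' i)) X b
    congr 1
    rw [hS', Finset.sum_apply, Finset.sum_apply]
    refine Finset.sum_congr rfl fun i _ => ?_
    show T' i X b _ = T' i X b ![]
    exact congrArg _ (Subsingleton.elim _ _)

end Run7.h96.Hy

end

section

/-!
Morphisms out of dual numbers and polynomials; perturbation lemmas.
-/

set_option linter.all false
set_option maxHeartbeats 400000

open scoped BigOperators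

namespace Run7.h96.Hy

open CInv

section Homs

variable {n : ℕ} {X Y : DR n}

/-- composition with a nilpotent element -/
noncomputable def evE (θ : DH X Y) (e : Y.R) (he : e * e = 0) (hde : ∀ i, Y.d i e = 0) :
    DH X.dual Y where
  f := {
    toFun := fun x => θ.f (fs x) + e * θ.f (sn x)
    map_one' := by rw [fs_one, sn_one, map_one, map_zero, mul_zero, add_zero]
    map_mul' := fun x y => by
      rw [fs_mul, sn_mul, map_mul, map_add, map_mul, map_mul]
      linear_combination (-(θ.f (sn x) * θ.f (sn y))) * he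
    map_zero' := by rw [fs_zero, sn_zero, map_zero, mul_zero, add_zero]
    map_add' := fun x y => by
      rw [fs_add, sn_add, map_add, map_add]; ring
    commutes' := fun r => by
      have h1 : fs (algebraMap ℝ X.dual.R r) = algebraMap ℝ X.R r := rfl
      have h2 : sn (algebraMap ℝ X.dual.R r) = 0 := rfl
      rw [h1, h2, map_zero, mul_zero, add_zero]
      exact θ.f.commutes r }
  hd i a := by
    show θ.f (fs (X.dual.d i a)) + e * θ.f (sn (X.dual.d i a))
      = Y.d i (θ.f (fs a) + e * θ.f (sn a))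
    rw [fs_d, sn_d, map_add, Derivation.leibniz, hde, θ.hd, θ.hd]
    simp

theorem evE_apply (θ : DH X Y) (e : Y.R) (he : e * e = 0) (hde : ∀ i, Y.d i e = 0) (x : X.dual.R) :
    (evE θ e he hde).f x = θ.f (fs x) + e * θ.f (sn x) := rfl

theorem eps_sq (X : DR n) : eps (1 : X.R) * eps (1 : X.R) = 0 := by
  apply dual_ext <;> simp

theorem d_eps (X : DR n) (i : Fin n) : X.dual.d i (eps (1 : X.R)) = 0 := by
  apply dual_ext
  · rw [fs_d]; exact map_zero _
  · rw [sn_d]; exact (X.d i).map_one_eq_zero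

/-- induced morphism on dual numbers -/
noncomputable def DH.dual (θ : DH X Y) : DH X.dual Y.dual :=
  evE ((inlH Y).comp θ) (eps 1) (eps_sq Y) (d_eps Y)

theorem fs_dual (θ : DH X Y) (x : X.dual.R) : fs (θ.dual.f x) = θ.f (fs x) := by
  show fs ((inlH Y).f (θ.f (fs x)) + eps 1 * (inlH Y).f (θ.f (sn x))) = _
  simp [fs_inl]

theorem sn_dual (θ : DH X Y) (x : X.dual.R) : sn (θ.dual.f x) = θ.f (sn x) := by
  show sn ((inlH Y).f (θ.f (fs x)) + eps 1 * (inlH Y).f (θ.f (sn x))) = _
  simp [fs_inl, sn_inl]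

/-- the morphism `a + b ε₁ ↦ a + b ε₂` -/
noncomputable def toOuter (X : DR n) : DH X.dual X.dual.dual :=
  evE ((inlH X.dual).comp (inlH X)) (eps 1) (eps_sq X.dual) (d_eps X.dual)

/-- exchange of the two infinitesimals -/
noncomputable def swapD (X : DR n) : DH X.dual.dual X.dual.dual :=
  evE (toOuter X) ((inlH X.dual).f (eps 1)) (by rw [← map_mul, eps_sq, map_zero])
    (fun i => by
      have := (inlH X.dual).hd i (eps (1 : X.R))
      rw [← this, d_eps, map_zero])

theorem swapD_comp (x : X.dual.dual.R) :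
    fs (fs ((swapD X).f x)) = fs (fs x) ∧ sn (fs ((swapD X).f x)) = fs (sn x) ∧
      fs (sn ((swapD X).f x)) = sn (fs x) ∧ sn (sn ((swapD X).f x)) = sn (sn x) := by
  have h : (swapD X).f x = ((inlH X.dual).f ((inlH X).f (fs (fs x)))
      + eps 1 * (inlH X.dual).f ((inlH X).f (sn (fs x))))
      + (inlH X.dual).f (eps 1) * ((inlH X.dual).f ((inlH X).f (fs (sn x)))
      + eps 1 * (inlH X.dual).f ((inlH X).f (sn (sn x)))) := rfl
  rw [h]
  simp [fs_inl, sn_inl]

/-- equality in the double dual numbers -/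
theorem ddual_ext {x y : X.dual.dual.R} (h1 : fs (fs x) = fs (fs y)) (h2 : sn (fs x) = sn (fs y))
    (h3 : fs (sn x) = fs (sn y)) (h4 : sn (sn x) = sn (sn y)) : x = y :=
  dual_ext (dual_ext h1 h2) (dual_ext h3 h4)

/-! ### polynomials -/

/-- constants -/
noncomputable def cH (X : DR n) : DH X X.poly where
  f := (IsScalarTower.toAlgHom ℝ X.R (Polynomial X.R))
  hd i a := by
    show Polynomial.C (X.d i a) = polyD (X.d i) (Polynomial.C a)
    ext m
    rw [polyD_coeff, Polynomial.coeff_C, Polynomial.coeff_C]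
    split_ifs
    · rfl
    · exact (map_zero _).symm

theorem cH_apply (a : X.R) : (cH X).f a = (Polynomial.C a : Polynomial X.R) := rfl

/-- first two coefficients -/
noncomputable def evD (X : DR n) : DH X.poly X.dual where
  f := {
    toFun := fun p => (inlH X).f (Polynomial.coeff p 0) + eps (Polynomial.coeff p 1)
    map_one' := by
      apply dual_ext
      · simp [fs_inl]
        exact Polynomial.coeff_one_zero
      · simp [sn_inl]
        exact Polynomial.coeff_one.trans (if_neg (by norm_num))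
    map_mul' := fun p q => by
      apply dual_ext
      · simp only [fs_add, fs_mul, fs_inl, fs_eps, add_zero]
        exact Polynomial.mul_coeff_zero p q
      · simp only [sn_add, sn_mul, fs_add, fs_inl, sn_inl, fs_eps, sn_eps, zero_add, add_zero]
        exact Polynomial.mul_coeff_one p q
    map_zero' := by
      apply dual_ext
      · simp [fs_inl]
        exact Polynomial.coeff_zero 0
      · simp [sn_inl]
        exact Polynomial.coeff_zero 1
    map_add' := fun p q => by
      apply dual_ext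
      · simp only [fs_add, fs_inl, fs_eps, add_zero]
        exact Polynomial.coeff_add p q 0
      · simp only [sn_add, sn_inl, sn_eps, zero_add]
        exact Polynomial.coeff_add p q 1
    commutes' := fun r => by
      have h0 : (algebraMap ℝ X.poly.R r) = (Polynomial.C (algebraMap ℝ X.R r) : Polynomial X.R) := rfl
      apply dual_ext
      · simp only [fs_add, fs_inl, fs_eps, add_zero]
        rw [h0]
        exact Polynomial.coeff_C_zero
      · simp only [sn_add, sn_inl, sn_eps, zero_add]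
        rw [h0]
        exact Polynomial.coeff_C_succ }
  hd i p := by
    apply dual_ext
    · show fs ((inlH X).f (Polynomial.coeff (polyD (X.d i) p) 0)
        + eps (Polynomial.coeff (polyD (X.d i) p) 1)) = fs (X.dual.d i _)
      rw [fs_d, polyD_coeff, polyD_coeff]
      simp [fs_inl]
    · show sn ((inlH X).f (Polynomial.coeff (polyD (X.d i) p) 0)
        + eps (Polynomial.coeff (polyD (X.d i) p) 1)) = sn (X.dual.d i _)
      rw [sn_d, polyD_coeff, polyD_coeff]
      simp [sn_inl]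

theorem fs_evD (p : X.poly.R) : fs ((evD X).f p) = Polynomial.coeff p 0 := by
  show fs ((inlH X).f (Polynomial.coeff p 0) + eps (Polynomial.coeff p 1)) = _
  simp [fs_inl]

theorem sn_evD (p : X.poly.R) : sn ((evD X).f p) = Polynomial.coeff p 1 := by
  show sn ((inlH X).f (Polynomial.coeff p 0) + eps (Polynomial.coeff p 1)) = _
  simp [sn_inl]

/-- evaluation at a real number -/
noncomputable def evS (X : DR n) (s : ℝ) : DH X.poly X where
  f := (Polynomial.aeval (algebraMap ℝ X.R s) : Polynomial X.R →ₐ[X.R] X.R).restrictScalars ℝ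
  hd i p := by
    show Polynomial.aeval (algebraMap ℝ X.R s) (polyD (X.d i) p)
      = X.d i (Polynomial.aeval (algebraMap ℝ X.R s) p)
    have key : ∀ q : Polynomial X.R, q.natDegree ≤ p.natDegree →
        Polynomial.aeval (algebraMap ℝ X.R s) q
        = ∑ m ∈ Finset.range (p.natDegree + 1), s ^ m • q.coeff m := by
      intro q hq
      rw [Polynomial.aeval_def, Polynomial.eval₂_eq_sum_range' _ (Nat.lt_succ_of_le hq)]
      refine Finset.sum_congr rfl fun m _ => ?_
      rw [Algebra.algebraMap_self, RingHom.id_apply, Algebra.smul_def, map_pow, mul_comm]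
    have hdeg : (polyD (X.d i) p).natDegree ≤ p.natDegree := by
      rw [Polynomial.natDegree_le_iff_coeff_eq_zero]
      intro N hN
      rw [polyD_coeff, Polynomial.coeff_eq_zero_of_natDegree_lt hN, map_zero]
    rw [key _ hdeg, key p le_rfl, map_sum]
    refine Finset.sum_congr rfl fun m _ => ?_
    rw [polyD_coeff, Derivation.map_smul]

theorem evS_sum (s : ℝ) (p : X.poly.R) : (evS X s).f p
    = ∑ m ∈ Finset.range (Polynomial.natDegree (p : Polynomial X.R) + 1),
      s ^ m • Polynomial.coeff (p : Polynomial X.R) m := by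
  show Polynomial.aeval (algebraMap ℝ X.R s) (p : Polynomial X.R) = _
  rw [Polynomial.aeval_def, Polynomial.eval₂_eq_sum_range]
  refine Finset.sum_congr rfl fun m _ => ?_
  rw [Algebra.algebraMap_self, RingHom.id_apply, Algebra.smul_def, map_pow, mul_comm]

end Homs

/-! ### functoriality of variations -/

section VaryMap

variable {n : ℕ} {J : Type} {ρ : J → ℕ} {X Y : DR n}

open Classical in
theorem vary_map (θ : DH X Y) (S : Set J) (b : BD X J ρ) (Ψ : Fl X J ρ) :
    (b.vary S Ψ).map θ.dual.f = (b.map θ.f).vary S (fun j K => θ.f (Ψ j K)) := by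
  refine BD.ext' ?_ ?_ ?_
  · funext i j
    show θ.dual.f ((inlH X).f (b.G i j)) = (inlH Y).f (θ.f (b.G i j))
    apply dual_ext
    · rw [fs_dual]; rfl
    · rw [sn_dual, sn_inl, map_zero]; rfl
  · funext i j
    show θ.dual.f ((inlH X).f (b.Gi i j)) = (inlH Y).f (θ.f (b.Gi i j))
    apply dual_ext
    · rw [fs_dual]; rfl
    · rw [sn_dual, sn_inl, map_zero]; rfl
  · funext j K
    show θ.dual.f ((inlH X).f (b.Φ j K) + if j ∈ S then eps (Ψ j K) else 0)
      = (inlH Y).f (θ.f (b.Φ j K)) + if j ∈ S then eps (θ.f (Ψ j K)) else 0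
    by_cases hj : j ∈ S
    · rw [if_pos hj, if_pos hj]
      apply dual_ext
      · rw [fs_dual]; simp [fs_inl]
      · rw [sn_dual]; simp [sn_inl]
    · rw [if_neg hj, if_neg hj]
      apply dual_ext
      · rw [fs_dual]; simp [fs_inl]
      · rw [sn_dual]; simp [sn_inl]

/-- functoriality of the linearisation -/
theorem HN.Lmap {S : Set J} {g : Dg J} {r : ℕ} {T : Tn n J ρ r} {L : Ln n J ρ r}
    (h : HN S g r T L) (θ : DH X Y) (b : BD X J ρ) (Ψ : Fl X J ρ) (K : Fin r → Fin n) :
    L Y (b.map θ.f) (fun j K => θ.f (Ψ j K)) K = θ.f (L X b Ψ K) := by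
  rw [← (h.dual (b.map θ.f) (fun j K => θ.f (Ψ j K)) K).2, ← (h.dual b Ψ K).2, ← vary_map,
    h.map θ.dual, sn_dual]

open Classical in
/-- perturbation of the fields by multiples of a nilpotent element -/
noncomputable def BD.pert (S : Set J) (b : BD X J ρ) (e : X.R) (Ψ : Fl X J ρ) : BD X J ρ where
  G := b.G
  Gi := b.Gi
  Φ j K := b.Φ j K + if j ∈ S then e * Ψ j K else 0
  met := b.met

open Classical in
theorem HN.pertE {S : Set J} {g : Dg J} {r : ℕ} {T : Tn n J ρ r} {L : Ln n J ρ r}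
    (h : HN S g r T L) (b : BD X J ρ) {e : X.R} (he : e * e = 0) (hde : ∀ i, X.d i e = 0)
    (Ψ : Fl X J ρ) (K : Fin r → Fin n) :
    T X (b.pert S e Ψ) K = T X b K + e * L X b Ψ K := by
  have h1 := h.map (evE ⟨AlgHom.id ℝ X.R, fun _ _ => rfl⟩ e he hde) (b.vary S Ψ) K
  have h2 : (b.vary S Ψ).map (evE (⟨AlgHom.id ℝ X.R, fun _ _ => rfl⟩ : DH X X) e he hde).f
      = b.pert S e Ψ := by
    refine BD.ext' ?_ ?_ ?_
    · funext i j
      show fs ((inlH X).f (b.G i j)) + e * sn ((inlH X).f (b.G i j)) = b.G i j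
      rw [fs_inl, sn_inl, mul_zero, add_zero]
    · funext i j
      show fs ((inlH X).f (b.Gi i j)) + e * sn ((inlH X).f (b.Gi i j)) = b.Gi i j
      rw [fs_inl, sn_inl, mul_zero, add_zero]
    · funext j K
      show fs ((inlH X).f (b.Φ j K) + if j ∈ S then eps (Ψ j K) else 0)
        + e * sn ((inlH X).f (b.Φ j K) + if j ∈ S then eps (Ψ j K) else 0)
        = b.Φ j K + if j ∈ S then e * Ψ j K else 0
      by_cases hj : j ∈ S
      · rw [if_pos hj, if_pos hj]
        simp [fs_inl, sn_inl]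
      · rw [if_neg hj, if_neg hj]
        simp [fs_inl, sn_inl]
  rw [h2] at h1
  rw [h1, evE_apply, ← (h.dual b Ψ K).1, ← (h.dual b Ψ K).2]
  rfl

/-- dependence on the fields occurring in the degree -/
theorem HN.Tcongr {S : Set J} {g : Dg J} {r : ℕ} {T : Tn n J ρ r} {L : Ln n J ρ r}
    (h : HN S g r T L) {b b' : BD X J ρ} (hG : b.G = b'.G) (hGi : b.Gi = b'.Gi)
    (hΦ : ∀ j, (j ∈ S → g.1 j ≠ 0) → b.Φ j = b'.Φ j) (K : Fin r → Fin n) :
    T X b K = T X b' K := by
  have hA : b.A = b'.A := by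
    unfold BD.A
    rw [hG, hGi]
  induction h with
  | one => rfl
  | met => beta_reduce; rw [hG]
  | curv =>
    show b.curv K = b'.curv K
    unfold BD.curv BD.F
    rw [hG, hA]
  | fieldV j hj =>
    have : b.Φ j = b'.Φ j := hΦ j (fun _ => by simp)
    beta_reduce
    rw [this]
  | fieldC j hj =>
    have : b.Φ j = b'.Φ j := hΦ j (fun h => absurd h hj)
    beta_reduce
    rw [this]
  | zero g r => rfl
  | add _ _ h1 h2 => beta_reduce; rw [h1 hΦ, h2 hΦ]
  | smul t _ h1 => beta_reduce; rw [h1 hΦ]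
  | @mul g g' r r' t T T' L L' e _ _ h1 h2 =>
    have a1 : ∀ j, (j ∈ S → g.1 j ≠ 0) → b.Φ j = b'.Φ j := fun j hj => hΦ j (fun hS => by
      rw [Prod.fst_add, Finsupp.add_apply]
      have := hj hS
      omega)
    have a2 : ∀ j, (j ∈ S → g'.1 j ≠ 0) → b.Φ j = b'.Φ j := fun j hj => hΦ j (fun hS => by
      rw [Prod.fst_add, Finsupp.add_apply]
      have := hj hS
      omega)
    simp only [relab, tens, h1 a1, h2 a2]
  | perm e _ h1 => simp only [relab, h1 hΦ]
  | contr e _ h1 => simp only [contr2, relab, h1 hΦ, hGi]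
  | @deriv g r t T L e _ h1 =>
    have a1 : ∀ j, (j ∈ S → g.1 j ≠ 0) → b.Φ j = b'.Φ j := fun j hj => hΦ j (fun hS => by
      rw [Prod.fst_add, Finsupp.add_apply]
      simpa using hj hS)
    have h2 : T X b = T X b' := by
      funext K; exact h1 a1 K
    simp only [relab, DD, h2, hA]

end VaryMap

end Run7.h96.Hy

end

section

/-!
Invariance of the integrals under the flow operators.
-/

set_option linter.all false
set_option maxHeartbeats 400000

open scoped BigOperators

namespace Run7.h96.Hy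

open CInv

variable {k : ℕ}

section Maps

variable {X Y : DR (k + 1)}

theorem bump_map (θ : DH X Y) (b : HD X) (δ : Fin (k + 1) → Fin (k + 1) → X.ps.R) :
    (bump b δ).map θ.dual.f = bump (b.map θ.f) (fun i j => psm θ (δ i j)) := by
  refine BD.ext' ?_ ?_ ?_
  · funext i j
    show θ.dual.f ((inlH X).f (b.G i j) + eps ((1 / 2 : ℝ) • (cf 0 (δ i j) + cf 0 (δ j i))))
      = (inlH Y).f (θ.f (b.G i j))
        + eps ((1 / 2 : ℝ) • (cf 0 (psm θ (δ i j)) + cf 0 (psm θ (δ j i))))
    apply dual_ext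
    · rw [fs_dual]; simp [fs_inl]
    · rw [sn_dual]; simp [sn_inl, cf_psm]
  · funext i j
    show θ.dual.f ((inlH X).f (b.Gi i j) - eps (∑ p, ∑ q, b.Gi i p
        * ((1 / 2 : ℝ) • (cf 0 (δ p q) + cf 0 (δ q p))) * b.Gi q j))
      = (inlH Y).f (θ.f (b.Gi i j)) - eps (∑ p, ∑ q, θ.f (b.Gi i p)
        * ((1 / 2 : ℝ) • (cf 0 (psm θ (δ p q)) + cf 0 (psm θ (δ q p)))) * θ.f (b.Gi q j))
    apply dual_ext
    · rw [fs_dual]; simp [fs_inl]
    · rw [sn_dual]; simp [sn_inl, cf_psm]
  · funext j K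
    show θ.dual.f ((inlH X).f (b.Φ j K) + eps (toFl δ j K))
      = (inlH Y).f (θ.f (b.Φ j K)) + eps (toFl (fun i j => psm θ (δ i j)) j K)
    have h1 : toFl (fun i j => psm θ (δ i j)) j K = θ.f (toFl δ j K) := by
      cases j with
      | h j => exact cf_psm θ _ _
      | nu => exact (map_zero _).symm
      | chi => exact (map_zero _).symm
      | om j => exact (map_zero _).symm
    rw [h1]
    apply dual_ext
    · rw [fs_dual]; simp [fs_inl]
    · rw [sn_dual]; simp [sn_inl]

theorem cb_map (θ : DH X Y) {b : HD X} (hb : Fer b) (hY : ∀ f, Y.d 0 f = 0) (ω : X.ps.R) :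
    (cb b ω).map θ.dual.f = cb (b.map θ.f) (psm θ ω) := by
  unfold cb
  rw [bump_map]
  congr 1
  funext i j
  exact (psm_dl θ hb hY ω i j).symm

theorem toFl_psm (θ : DH X Y) (β : Fin (k + 1) → Fin (k + 1) → X.ps.R) (j : Fd)
    (K : Fin (ρF j) → Fin (k + 1)) :
    toFl (fun i j => psm θ (β i j)) j K = θ.f (toFl β j K) := by
  cases j with
  | h j => exact cf_psm θ _ _
  | nu => exact (map_zero _).symm
  | chi => exact (map_zero _).symm
  | om j => exact (map_zero _).symm

end Maps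

/-! ### integrals -/

/-- an integral on a differential ring with enough real points, and a positivity condition for
metrics -/
structure Intg (A : DR (k + 1)) where
  I : A.R →ₗ[ℝ] ℝ
  dI : ∀ i f, I (A.d i f) = 0
  pt : Type
  ev : pt → (A.R →ₐ[ℝ] ℝ)
  sep : ∀ Q, (∀ p, ev p Q = 0) → Q = 0
  P : (Fin (k + 1) → Fin (k + 1) → A.R) → Prop
  pos : ∀ G, P G → ∀ p, (Matrix.of fun i j => ev p (G i j)).PosDef

/-- volume densities -/
structure Vol {A : DR (k + 1)} (J : Intg A) (b : HD A) (w : A.R) : Prop where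
  jac : ∀ i, A.d i w = w * ∑ p, b.A i p p
  nd : ∀ Q, (∀ χ, J.I (Q * χ * w) = 0) → Q = 0
  pd : J.P b.G

/-- infinitesimal invariance of the integral of a scalar under conformal changes -/
def HI {A : DR (k + 1)} (J : Intg A) (T : Sc k) : Prop :=
  ∀ (b : HD A), Fer b → ∀ w, Vol J b w → ∀ ω : A.ps.R,
    J.I ((sn (T A.dual (cb b ω)) + (k : ℝ) • (cf 0 ω * T A b)) * w) = 0

theorem HI.congr {A : DR (k + 1)} {J : Intg A} {T T' : Sc k} (h : HI J T) (hT : eqF T T') :
    HI J T' := by
  intro b hb w hw ω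
  rw [← hT A b hb, ← hT A.dual (cb b ω) (hb.cb ω)]
  exact h b hb w hw ω

theorem HI.add {A : DR (k + 1)} {J : Intg A} {T T' : Sc k} (h : HI J T) (h' : HI J T') :
    HI J (T + T') := by
  intro b hb w hw ω
  have e : (sn ((T + T') A.dual (cb b ω)) + (k : ℝ) • (cf 0 ω * (T + T') A b)) * w
      = (sn (T A.dual (cb b ω)) + (k : ℝ) • (cf 0 ω * T A b)) * w
        + (sn (T' A.dual (cb b ω)) + (k : ℝ) • (cf 0 ω * T' A b)) * w := by
    show (sn (T A.dual (cb b ω) + T' A.dual (cb b ω)) + (k : ℝ) • (cf 0 ω * (T A b + T' A b))) * w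
      = _
    rw [sn_add, mul_add, smul_add]; ring
  rw [e, map_add, h b hb w hw ω, h' b hb w hw ω, add_zero]

theorem HI.smul {A : DR (k + 1)} {J : Intg A} {T : Sc k} (h : HI J T) (t : ℝ) :
    HI J (t • T) := by
  intro b hb w hw ω
  have e : (sn ((t • T) A.dual (cb b ω)) + (k : ℝ) • (cf 0 ω * (t • T) A b)) * w
      = t • ((sn (T A.dual (cb b ω)) + (k : ℝ) • (cf 0 ω * T A b)) * w) := by
    show (sn (t • T A.dual (cb b ω)) + (k : ℝ) • (cf 0 ω * (t • T A b))) * w = _
    rw [sn_smul]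
    simp only [Algebra.smul_def]; ring
  rw [e, map_smul, h b hb w hw ω, smul_zero]

theorem poly_I {A : DR (k + 1)} (I : A.R →ₗ[ℝ] ℝ) (p : A.poly.R) (w : A.R)
    (h : ∀ s : ℝ, I ((evS A s).f p * w) = 0) (m : ℕ) :
    I (Polynomial.coeff (p : Polynomial A.R) m * w) = 0 := by
  set q : Polynomial ℝ := ∑ m ∈ Finset.range (Polynomial.natDegree (p : Polynomial A.R) + 1),
    Polynomial.monomial m (I (Polynomial.coeff (p : Polynomial A.R) m * w)) with hq
  have hq0 : q = 0 := by
    refine Polynomial.funext fun s => ?_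
    rw [Polynomial.eval_zero, ← h s, evS_sum, hq, Polynomial.eval_finset_sum, Finset.sum_mul,
      map_sum]
    refine Finset.sum_congr rfl fun m _ => ?_
    rw [Polynomial.eval_monomial, smul_mul_assoc, map_smul, smul_eq_mul, mul_comm]
  have h1 := congrArg (fun q => Polynomial.coeff q m) hq0
  simp only [hq, Polynomial.finset_sum_coeff, Polynomial.coeff_monomial, Polynomial.coeff_zero] at h1
  rw [Finset.sum_ite_eq' (Finset.range _) m] at h1
  by_cases hm : m ∈ Finset.range (Polynomial.natDegree (p : Polynomial A.R) + 1)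
  · rw [if_pos hm] at h1
    exact h1
  · rw [Finset.mem_range, not_lt] at hm
    rw [Polynomial.coeff_eq_zero_of_natDegree_lt (by omega), zero_mul, map_zero]

section PolyFam

variable {A : DR (k + 1)}

/-- the variable -/
noncomputable def pX (A : DR (k + 1)) : A.poly.R := (Polynomial.X : Polynomial A.R)

open Classical in
/-- the family `b + s Ψ` -/
noncomputable def bpf (b : HD A) (Ψ : Fl A Fd ρF) : HD A.poly where
  G i j := (cH A).f (b.G i j)
  Gi i j := (cH A).f (b.Gi i j)
  Φ j K := (cH A).f (b.Φ j K) + if j ∈ Sh then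
    pX A * (cH A).f (Ψ j K) else (0 : A.poly.R)
  met := (b.map (cH A).f).met

open Classical in
/-- the member of the family -/
noncomputable def bsf (b : HD A) (Ψ : Fl A Fd ρF) (s : ℝ) : HD A where
  G := b.G
  Gi := b.Gi
  Φ j K := b.Φ j K + if j ∈ Sh then s • Ψ j K else 0
  met := b.met

theorem evS_cH (s : ℝ) (a : A.R) : (evS A s).f ((cH A).f a) = a := by
  show Polynomial.aeval (algebraMap ℝ A.R s) (Polynomial.C a) = a
  rw [Polynomial.aeval_C]; rfl

theorem evS_X (s : ℝ) : (evS A s).f (pX A) = algebraMap ℝ A.R s := by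
  show Polynomial.aeval (algebraMap ℝ A.R s) (Polynomial.X : Polynomial A.R) = _
  rw [Polynomial.aeval_X]

open Classical in
theorem bpf_evS (b : HD A) (Ψ : Fl A Fd ρF) (s : ℝ) : (bpf b Ψ).map (evS A s).f = bsf b Ψ s := by
  refine BD.ext' ?_ ?_ ?_
  · funext i j; exact evS_cH s _
  · funext i j; exact evS_cH s _
  · funext j K
    show (evS A s).f ((cH A).f (b.Φ j K) + if j ∈ Sh then
      pX A * (cH A).f (Ψ j K) else (0 : A.poly.R))
      = b.Φ j K + if j ∈ Sh then s • Ψ j K else 0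
    by_cases hj : j ∈ Sh
    · rw [if_pos hj, if_pos hj, map_add, evS_cH]
      have : (evS A s).f (pX A * (cH A).f (Ψ j K)) = s • Ψ j K := by
        rw [map_mul, evS_X, evS_cH, Algebra.smul_def]
      rw [this]
    · rw [if_neg hj, if_neg hj, map_add, evS_cH]
      congr 1
      exact map_zero (evS A s).f

theorem evD_cH (a : A.R) : (evD A).f ((cH A).f a) = (inlH A).f a := by
  apply dual_ext
  · rw [fs_evD]
    exact Polynomial.coeff_C_zero
  · rw [sn_evD]
    exact Polynomial.coeff_C_succ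

theorem evD_X : (evD A).f (pX A) = eps 1 := by
  apply dual_ext
  · rw [fs_evD, fs_eps]
    exact Polynomial.coeff_X_zero
  · rw [sn_evD, sn_eps]
    exact Polynomial.coeff_X_one

open Classical in
theorem bpf_evD (b : HD A) (Ψ : Fl A Fd ρF) : (bpf b Ψ).map (evD A).f = b.vary Sh Ψ := by
  refine BD.ext' ?_ ?_ ?_
  · funext i j; exact evD_cH _
  · funext i j; exact evD_cH _
  · funext j K
    show (evD A).f ((cH A).f (b.Φ j K) + if j ∈ Sh then
      pX A * (cH A).f (Ψ j K) else (0 : A.poly.R))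
      = (inlH A).f (b.Φ j K) + if j ∈ Sh then eps (Ψ j K) else 0
    by_cases hj : j ∈ Sh
    · rw [if_pos hj, if_pos hj, map_add, evD_cH]
      have : (evD A).f (pX A * (cH A).f (Ψ j K)) = eps (Ψ j K) := by
        rw [map_mul, evD_X, evD_cH]
        apply dual_ext <;> simp [fs_inl, sn_inl]
      rw [this]
    · rw [if_neg hj, if_neg hj, map_add, evD_cH]
      congr 1
      exact map_zero (evD A).f

theorem poly_d0 (h0 : ∀ f, A.d 0 f = 0) (f : A.poly.R) : A.poly.d 0 f = 0 := by
  show polyD (A.d 0) f = 0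
  apply Polynomial.ext
  intro m
  rw [polyD_coeff, h0]
  exact (Polynomial.coeff_zero m).symm

open Classical in
theorem Fer.bpf {b : HD A} (hb : Fer b) {Ψ : Fl A Fd ρF}
    (h0 : ∀ j i, Ψ (Fd.h j) ![0, i] = 0)
    (hs : ∀ j i i', Ψ (Fd.h j) ![i, i'] = Ψ (Fd.h j) ![i', i]) : Fer (Hy.bpf b Ψ) where
  d0 := poly_d0 hb.d0
  g00 := by
    show (cH A).f (b.G 0 0) = 1
    rw [hb.g00, map_one]
  g0 a := by
    show (cH A).f (b.G 0 a.succ) = 0
    rw [hb.g0, map_zero]
  nu K := by
    show (cH A).f (b.Φ Fd.nu K) + (if Fd.nu ∈ Sh then _ else (0 : A.poly.R)) = _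
    rw [if_neg (by rintro ⟨j, hj⟩; cases hj), hb.nu]
    refine (add_zero _).trans ?_
    split_ifs
    · exact map_one _
    · exact map_zero _
  h0 j i := by
    show (cH A).f (b.Φ (Fd.h j) ![0, i]) + (if Fd.h j ∈ Sh then
      pX A * (cH A).f (Ψ (Fd.h j) ![0, i]) else (0 : A.poly.R)) = 0
    rw [if_pos ⟨j, rfl⟩, hb.h0, h0, map_zero]
    refine (zero_add _).trans ?_
    exact mul_zero _
  hs j i i' := by
    show (cH A).f (b.Φ (Fd.h j) ![i, i']) + (if Fd.h j ∈ Sh then
      pX A * (cH A).f (Ψ (Fd.h j) ![i, i']) else (0 : A.poly.R))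
      = (cH A).f (b.Φ (Fd.h j) ![i', i]) + (if Fd.h j ∈ Sh then
      pX A * (cH A).f (Ψ (Fd.h j) ![i', i]) else (0 : A.poly.R))
    rw [hb.hs, hs]

open Classical in
theorem Fer.bsf {b : HD A} (hb : Fer b) {Ψ : Fl A Fd ρF}
    (h0 : ∀ j i, Ψ (Fd.h j) ![0, i] = 0)
    (hs : ∀ j i i', Ψ (Fd.h j) ![i, i'] = Ψ (Fd.h j) ![i', i]) (s : ℝ) : Fer (Hy.bsf b Ψ s) := by
  rw [← bpf_evS]
  exact (hb.bpf h0 hs).map (evS A s) hb.d0

end PolyFam

/-! ### the invariance theorem -/

/-- conformally covariant flows -/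
structure Flw (β : ∀ X : DR (k + 1), HD X → Fin (k + 1) → Fin (k + 1) → X.ps.R) : Prop
    extends Adm β where
  nat : S2 0 β
  cm : ∀ (X : DR (k + 1)) (b : HD X), Fer b → ∀ ω : X.ps.R, ∃ ω' : X.ps.R, cf 0 ω' = 0 ∧
    ∀ i j, O (k + 1) (sX (β X.dual (cb b ω) i j)
      - sX (dl (b.vary Sh (toFl (β X b))) (lf ω) i j) - dl b ω' i j)

theorem NS.map {E : Set (Dg Fd)} {T : Sc k} (h : NS E T) {X Y : DR (k + 1)} (θ : DH X Y) {b : HD X}
    (hb : Fer b) (hY : ∀ f, Y.d 0 f = 0) : T Y (b.map θ.f) = θ.f (T X b) :=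
  NF.map h θ hb hY ![]

section Inv

variable {A : DR (k + 1)}

theorem HI.stepA {J : Intg A} {T : Sc k} {E : Set (Dg Fd)} (hT : NS E T) (h : HI J T)
    {β : ∀ X : DR (k + 1), HD X → Fin (k + 1) → Fin (k + 1) → X.ps.R} (hβ : Adm β)
    {b : HD A} (hb : Fer b) {w : A.R} (hw : Vol J b w) (ω : A.ps.R) :
    J.I ((sn (sn (T A.dual.dual (cb (b.vary Sh (toFl (β A b))) (lf ω))))
      + (k : ℝ) • (cf 0 ω * DV β T A b)) * w) = 0 := by
  set Ψ := toFl (β A b) with hΨ
  have h0 : ∀ j i, Ψ (Fd.h j) ![0, i] = 0 := by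
    intro j i
    show cf (j + 1) (β A b 0 i) = 0
    rw [hβ.zero A b hb, cf_zero]
  have hs : ∀ j i i', Ψ (Fd.h j) ![i, i'] = Ψ (Fd.h j) ![i', i] := by
    intro j i i'
    show cf (j + 1) (β A b i i') = cf (j + 1) (β A b i' i)
    rw [hβ.symm A b hb]
  have hp := hb.bpf h0 hs
  -- the polynomial
  let R : A.poly.R := sn (T A.poly.dual (cb (bpf b Ψ) (psm (cH A) ω)))
    + (k : ℝ) • ((cH A).f (cf 0 ω) * T A.poly (bpf b Ψ))
  have h1 : ∀ s : ℝ, (evS A s).f R = sn (T A.dual (cb (bsf b Ψ s) ω))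
      + (k : ℝ) • (cf 0 ω * T A (bsf b Ψ s)) := by
    intro s
    have e1 : (cb (bpf b Ψ) (psm (cH A) ω)).map (evS A s).dual.f = cb (bsf b Ψ s) ω := by
      rw [cb_map (evS A s) hp hb.d0, bpf_evS]
      congr 1
      apply cf_ext
      intro m
      rw [cf_psm, cf_psm, evS_cH]
    have e2 := hT.map (evS A s).dual (hp.cb (psm (cH A) ω)) (dual_d0 hb.d0)
    have e3 := hT.map (evS A s) hp hb.d0
    rw [e1] at e2
    rw [bpf_evS] at e3
    show (evS A s).f (sn (T A.poly.dual (cb (bpf b Ψ) (psm (cH A) ω)))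
      + (k : ℝ) • ((cH A).f (cf 0 ω) * T A.poly (bpf b Ψ))) = _
    rw [map_add, map_smul, map_mul, evS_cH, e2, e3, sn_dual]
  have h2 : ∀ s : ℝ, J.I ((evS A s).f R * w) = 0 := by
    intro s
    rw [h1 s]
    exact h (bsf b Ψ s) (hb.bsf h0 hs s) w ⟨hw.jac, hw.nd, hw.pd⟩ ω
  have h3 := poly_I J.I R w h2 1
  have h4 : Polynomial.coeff (R : Polynomial A.R) 1
      = sn (sn (T A.dual.dual (cb (b.vary Sh Ψ) (lf ω)))) + (k : ℝ) • (cf 0 ω * DV β T A b) := by
    rw [← sn_evD]
    have e1 : (cb (bpf b Ψ) (psm (cH A) ω)).map (evD A).dual.f = cb (b.vary Sh Ψ) (lf ω) := by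
      rw [cb_map (evD A) hp (dual_d0 hb.d0), bpf_evD]
      congr 1
      apply cf_ext
      intro m
      rw [cf_psm, cf_psm, evD_cH, cf_lf]
    have e2 := hT.map (evD A).dual (hp.cb (psm (cH A) ω)) (dual_d0 (dual_d0 hb.d0))
    have e3 := hT.map (evD A) hp (dual_d0 hb.d0)
    rw [e1] at e2
    rw [bpf_evD] at e3
    show sn ((evD A).f (sn (T A.poly.dual (cb (bpf b Ψ) (psm (cH A) ω)))
      + (k : ℝ) • ((cH A).f (cf 0 ω) * T A.poly (bpf b Ψ)))) = _
    rw [map_add, map_smul, map_mul, evD_cH, ← e3, ← sn_dual, ← e2, sn_add, sn_smul, sn_mul,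
      fs_inl, sn_inl, zero_mul, add_zero]
    rfl
  rw [h4] at h3
  exact h3

end Inv

end Run7.h96.Hy

end

section

/-!
Invariance of the integrals under the flow operators, second part.
-/

set_option linter.all false
set_option maxHeartbeats 400000

open scoped BigOperators

namespace Run7.h96.Hy

open CInv

variable {k : ℕ} {A : DR (k + 1)}

open Classical in
theorem vary_eq_bump (b : HD A) {δ : Fin (k + 1) → Fin (k + 1) → A.ps.R}
    (h0 : ∀ i j, cf 0 (δ i j) = 0) : b.vary Sh (toFl δ) = bump b δ := by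
  refine BD.ext' ?_ ?_ ?_
  · funext i j
    show (inlH A).f (b.G i j) = (inlH A).f (b.G i j)
      + eps ((1 / 2 : ℝ) • (cf 0 (δ i j) + cf 0 (δ j i)))
    rw [h0, h0]
    apply dual_ext <;> simp [fs_inl, sn_inl]
  · funext i j
    show (inlH A).f (b.Gi i j) = (inlH A).f (b.Gi i j) - eps (∑ p, ∑ q, b.Gi i p
        * ((1 / 2 : ℝ) • (cf 0 (δ p q) + cf 0 (δ q p))) * b.Gi q j)
    simp only [h0]
    apply dual_ext <;> simp [fs_inl, sn_inl]
  · funext f K
    by_cases hf : f ∈ Sh
    · obtain ⟨j, rfl⟩ := hf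
      rw [vary_h]
      rfl
    · rw [vary_nh b _ f hf]
      show _ = (inlH A).f (b.Φ f K) + eps (toFl δ f K)
      have : toFl δ f K = 0 := by
        cases f with
        | h j => exact absurd ⟨j, rfl⟩ hf
        | nu => rfl
        | chi => rfl
        | om j => rfl
      rw [this]
      apply dual_ext <;> simp [fs_inl, sn_inl]

theorem cf0_dl (b : HD A) {ω : A.ps.R} (h0 : cf 0 ω = 0) (i j : Fin (k + 1)) :
    cf 0 (dl b ω i j) = 0 :=
  GF_O (b := b) (N := 1) (T := fun i j => 2 * ω * gX b i j)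
    (fun i j => O.mul_right _ (O.mul_left _ (O1_of h0))) i j 0 (by omega)

theorem toFl_nS (δ : Fin (k + 1) → Fin (k + 1) → A.ps.R) {f : Fd} (hf : f ∉ Sh)
    (K : Fin (ρF f) → Fin (k + 1)) : toFl δ f K = 0 := by
  cases f with
  | h j => exact absurd ⟨j, rfl⟩ hf
  | nu => rfl
  | chi => rfl
  | om j => rfl

open Classical in
theorem HI.DV {J : Intg A} {T : Sc k} (hT : NS (EW (k : WithTop ℤ)) T) (h : HI J T)
    {β : ∀ X : DR (k + 1), HD X → Fin (k + 1) → Fin (k + 1) → X.ps.R} (hβ : Flw β) :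
    HI J (Hy.DV β T) := by
  intro b hb w hw ω
  obtain ⟨ω', h0', hc⟩ := hβ.cm A b hb ω
  have hA := HI.stepA hT h hβ.toAdm hb hw ω
  set b1 := b.vary Sh (toFl (β A b)) with hb1
  have hfb1 : Fer b1 := hβ.toAdm.fer hb
  set x1 := (cb b ω).vary Sh (toFl (β A.dual (cb b ω))) with hx1
  have hfx1 : Fer x1 := hβ.toAdm.fer (hb.cb ω)
  set x2 := cb b1 (lf ω) with hx2
  have hfx2 : Fer x2 := hfb1.cb _
  have hd0 : ∀ f, A.d 0 f = 0 := hb.d0
  have hdd0 := dual_d0 (dual_d0 hd0)
  set y := x1.map (swapD A).f with hy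
  have hfy : Fer y := hfx1.map (swapD A) hdd0
  have hTy : T A.dual.dual y = (swapD A).f (T A.dual.dual x1) := hT.map (swapD A) hfx1 hdd0
  -- first components
  have hβf : ∀ m i j, fs (cf m (β A.dual (cb b ω) i j)) = cf m (β A b i j) := by
    intro m i j
    have h1 := S2.map hβ.nat (fstH A) (hb.cb ω) hd0 i j
    have h2 : (cb b ω).map (fstH A).f = b := by
      unfold cb
      exact fst_bump b _
    rw [h2] at h1
    rw [h1, cf_psm]; rfl
  have hdf : ∀ m i j, fs (cf m (dl b1 (lf ω) i j)) = cf m (dl b ω i j) := by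
    intro m i j
    have h1 := psm_dl (fstH A) hfb1 hd0 (lf ω) i j
    have h2 : b1.map (fstH A).f = b := fst_vary b _
    have h3 : psm (fstH A) (lf ω) = ω := fX_lf ω
    rw [h2, h3] at h1
    rw [h1, cf_psm]; rfl
  have hcc : ∀ m, m < k + 1 → ∀ i j, sn (cf m (β A.dual (cb b ω) i j))
      = sn (cf m (dl b1 (lf ω) i j)) + cf m (dl b ω' i j) := by
    intro m hm i j
    have h1 := hc i j m hm
    rw [cf_sub, cf_sub, cf_sX, cf_sX] at h1
    have h2 := sub_eq_zero.mp h1
    rw [← h2]; ring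
  have hG : y.G = x2.G := by
    funext i j
    have e1 : y.G i j = (swapD A).f ((inlH A.dual).f ((inlH A).f (b.G i j)
      + eps ((1 / 2 : ℝ) • (cf 0 (dl b ω i j) + cf 0 (dl b ω j i))))) := rfl
    have e2 : x2.G i j = (inlH A.dual).f ((inlH A).f (b.G i j))
      + eps ((1 / 2 : ℝ) • (cf 0 (dl b1 (lf ω) i j) + cf 0 (dl b1 (lf ω) j i))) := rfl
    have hz : ∀ i j, sn (cf 0 (dl b1 (lf ω) i j)) = 0 := by
      intro i j
      have h1 := hcc 0 (by omega) i j
      rw [hβ.cf0 A.dual _ (hb.cb ω), cf0_dl b h0', add_zero] at h1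
      rw [← h1]; rfl
    obtain ⟨s1, s2, s3, s4⟩ := swapD_comp ((inlH A.dual).f ((inlH A).f (b.G i j)
      + eps ((1 / 2 : ℝ) • (cf 0 (dl b ω i j) + cf 0 (dl b ω j i)))))
    rw [e1, e2]
    apply ddual_ext
    · rw [s1]; simp [fs_inl, sn_inl]
    · rw [s2]; simp [fs_inl, sn_inl]
    · rw [s3]; simp [fs_inl, sn_inl, hdf]
    · rw [s4]; simp [fs_inl, sn_inl, hz]
  have hGi : y.Gi = x2.Gi := by
    have h1 := y.met
    rw [hG] at h1
    exact metric_unique h1 x2.met
  set Ψ : Fl A.dual.dual Fd ρF := fun f K => (inlH A.dual).f ((inlH A).f (toFl (dl b ω') f K))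
    with hΨ
  set e : A.dual.dual.R := eps (eps 1) with he
  have hee : e * e = 0 := by
    apply dual_ext <;> simp [he]
  have hde : ∀ i, A.dual.dual.d i e = 0 := by
    intro i
    apply dual_ext
    · rw [fs_d, he, fs_eps]; exact map_zero _
    · rw [sn_d, he, sn_eps, d_eps]; rfl
  have hΦ : ∀ f, (f ∈ Sh → wf f ≤ k) → y.Φ f = (x2.pert Sh e Ψ).Φ f := by
    intro f hf
    funext K
    by_cases hfS : f ∈ Sh
    · have hwf := hf hfS
      obtain ⟨j, rfl⟩ := hfS
      have hj : j + 1 < k + 1 := by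
        have : wf (Fd.h j) = j + 1 := rfl
        omega
      have e1 : y.Φ (Fd.h j) K = (swapD A).f ((inlH A.dual).f ((inlH A).f (b.Φ (Fd.h j) K)
        + eps (cf (j + 1) (dl b ω (K 0) (K 1))))
        + eps (cf (j + 1) (β A.dual (cb b ω) (K 0) (K 1)))) := by
        show (swapD A).f (x1.Φ (Fd.h j) K) = _
        rw [hx1, vary_h]
        rfl
      have e2 : (x2.pert Sh e Ψ).Φ (Fd.h j) K = ((inlH A.dual).f ((inlH A).f (b.Φ (Fd.h j) K)
        + eps (cf (j + 1) (β A b (K 0) (K 1))))
        + eps (cf (j + 1) (dl b1 (lf ω) (K 0) (K 1))))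
        + e * (inlH A.dual).f ((inlH A).f (cf (j + 1) (dl b ω' (K 0) (K 1)))) := by
        show x2.Φ (Fd.h j) K + (if Fd.h j ∈ Sh then e * Ψ (Fd.h j) K else 0) = _
        rw [if_pos ⟨j, rfl⟩]
        congr 1
        show (inlH A.dual).f (b1.Φ (Fd.h j) K) + _ = _
        rw [hb1, vary_h]
        rfl
      rw [e1, e2]
      obtain ⟨s1, s2, s3, s4⟩ := swapD_comp ((inlH A.dual).f ((inlH A).f (b.Φ (Fd.h j) K)
        + eps (cf (j + 1) (dl b ω (K 0) (K 1))))
        + eps (cf (j + 1) (β A.dual (cb b ω) (K 0) (K 1))))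
      apply ddual_ext
      · rw [s1]; simp [fs_inl, sn_inl, he]
      · rw [s2]; simp [fs_inl, sn_inl, he, hβf]
      · rw [s3]; simp [fs_inl, sn_inl, he, hdf]
      · rw [s4]
        simp only [sn_add, sn_mul, fs_add, fs_eps, sn_eps, fs_inl, sn_inl, zero_add, add_zero,
          zero_mul, mul_zero, he, one_mul]
        rw [hcc (j + 1) hj]
    · have e1 : y.Φ f K = (swapD A).f ((inlH A.dual).f ((inlH A).f (b.Φ f K) + eps 0)) := by
        show (swapD A).f (x1.Φ f K) = _
        rw [hx1, vary_nh _ _ f hfS]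
        show (swapD A).f ((inlH A.dual).f ((inlH A).f (b.Φ f K) + eps (toFl (dl b ω) f K))) = _
        rw [toFl_nS _ hfS]
      have e2 : (x2.pert Sh e Ψ).Φ f K = (inlH A.dual).f ((inlH A).f (b.Φ f K)) + eps 0 := by
        show x2.Φ f K + (if f ∈ Sh then e * Ψ f K else 0) = _
        rw [if_neg hfS, add_zero]
        show (inlH A.dual).f (b1.Φ f K) + eps (toFl (dl b1 (lf ω)) f K) = _
        rw [toFl_nS _ hfS, hb1, vary_nh _ _ f hfS]
      rw [e1, e2]
      obtain ⟨s1, s2, s3, s4⟩ := swapD_comp ((inlH A.dual).f ((inlH A).f (b.Φ f K) + eps 0))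
      apply ddual_ext
      · rw [s1]; simp [fs_inl, sn_inl]
      · rw [s2]; simp [fs_inl, sn_inl]
      · rw [s3]; simp [fs_inl, sn_inl]
      · rw [s4]; simp [fs_inl, sn_inl]
  -- expansion
  obtain ⟨T', hT', hI⟩ := hT
  obtain ⟨ι, hι, g, T1, L, hg, hT1, hS⟩ := hT'.out (Equiv.refl (Fin 0))
  have key : ∀ i, T1 i A.dual.dual y ![] = T1 i A.dual.dual x2 ![] + e * L i A.dual.dual x2 Ψ ![] := by
    intro i
    rw [← (hT1 i).pertE x2 hee hde Ψ ![]]
    refine (hT1 i).Tcongr (b' := x2.pert Sh e Ψ) hG hGi (fun f hf => hΦ f fun hfS => ?_) _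
    have h1 := le_wt (hf hfS)
    have h2 : 1 ≤ (g i).1 f := Nat.one_le_iff_ne_zero.mpr (hf hfS)
    have h3 : wf f ≤ (g i).1 f * wf f := Nat.le_mul_of_pos_left _ h2
    have h4 := mem_EW_nat.mp (hg i)
    omega
  have hLi : ∀ i, fs (fs (L i A.dual.dual x2 Ψ ![])) = L i A b (toFl (dl b ω')) ![] := by
    intro i
    have h1 := (hT1 i).Lmap (fstH A.dual) x2 Ψ ![]
    have h2 : x2.map (fstH A.dual).f = b1 := by
      rw [hx2]; unfold cb; exact fst_bump b1 _
    have h3 : (fun j K => (fstH A.dual).f (Ψ j K)) = fun j K => (inlH A).f (toFl (dl b ω') j K) := by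
      funext j K; rfl
    rw [h2, h3] at h1
    have h4 := (hT1 i).Lmap (fstH A) b1 (fun j K => (inlH A).f (toFl (dl b ω') j K)) ![]
    have h5 : b1.map (fstH A).f = b := fst_vary b _
    have h6 : (fun j K => (fstH A).f ((inlH A).f (toFl (dl b ω') j K))) = toFl (dl b ω') := by
      funext j K; rfl
    rw [h5, h6, h1] at h4
    exact h4.symm
  have hTe : ∀ (X : DR (k + 1)) (c : HD X), Fer c → T X c = ∑ i, T1 i X c ![] := by
    intro X c hc
    have h1 := hI X c hc ![]
    beta_reduce at h1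
    rw [h1, hS]
    refine Finset.sum_congr rfl fun i _ => ?_
    exact congrArg _ (Subsingleton.elim _ _)
  have hlin : sn (T A.dual (cb b ω')) = ∑ i, L i A b (toFl (dl b ω')) ![] := by
    have h1 : cb b ω' = b.vary Sh (toFl (dl b ω')) := (vary_eq_bump b (cf0_dl b h0')).symm
    have h2 : Fer (b.vary Sh (toFl (dl b ω'))) := by rw [← h1]; exact hb.cb ω'
    rw [h1, hTe _ _ h2, sn_sum]
    exact Finset.sum_congr rfl fun i _ => ((hT1 i).dual b (toFl (dl b ω')) ![]).2
  have main : sn (sn (T A.dual.dual x1)) = sn (sn (T A.dual.dual x2)) + sn (T A.dual (cb b ω')) := by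
    have h1 : sn (sn (T A.dual.dual x1)) = sn (sn (T A.dual.dual y)) := by
      rw [hTy, (swapD_comp _).2.2.2]
    rw [h1, hTe _ _ hfy, hTe _ _ hfx2, hlin, sn_sum, sn_sum, sn_sum, sn_sum,
      ← Finset.sum_add_distrib]
    refine Finset.sum_congr rfl fun i _ => ?_
    rw [key i, sn_add, sn_add, ← hLi i]
    congr 1
    simp [he]
  have hC := h b hb w hw ω'
  rw [h0', zero_mul, smul_zero, add_zero] at hC
  have e3 : (sn (Hy.DV β T A.dual (cb b ω)) + (k : ℝ) • (cf 0 ω * Hy.DV β T A b)) * w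
      = (sn (sn (T A.dual.dual x2)) + (k : ℝ) • (cf 0 ω * Hy.DV β T A b)) * w
        + sn (T A.dual (cb b ω')) * w := by
    have : sn (Hy.DV β T A.dual (cb b ω)) = sn (sn (T A.dual.dual x1)) := rfl
    rw [this, main]; ring
  rw [e3, map_add, hC, add_zero]
  exact hA

end Run7.h96.Hy

end

section

/-!
Naturality of natural tensors under changes of coordinates.
-/

set_option linter.all false
set_option maxHeartbeats 400000

open scoped BigOperators

namespace Run7.h96.Hy

open CInv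

section Pb

variable {n : ℕ} {A B : Type} [CommRing A] [CommRing B]

/-- pulled back tensor -/
def pb {κ : Type} [Fintype κ] [DecidableEq κ] (φ : A →+* B) (J : Fin n → Fin n → B)
    (T : (κ → Fin n) → A) (I : κ → Fin n) : B :=
  ∑ a : κ → Fin n, (∏ s, J (I s) (a s)) * φ (T a)

variable {κ μ : Type} [Fintype κ] [DecidableEq κ] [Fintype μ] [DecidableEq μ]
variable (φ : A →+* B) (J : Fin n → Fin n → B)

theorem pb_add (T T' : (κ → Fin n) → A) (I : κ → Fin n) :
    pb φ J (fun K => T K + T' K) I = pb φ J T I + pb φ J T' I := by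
  unfold pb
  simp only [map_add, mul_add, Finset.sum_add_distrib]

theorem pb_zero (I : κ → Fin n) : pb φ J (fun _ => (0 : A)) I = 0 := by
  unfold pb
  simp

theorem pb_ocons (T : (Option κ → Fin n) → A) (i : Fin n) (I : κ → Fin n) :
    pb φ J T (ocons i I) = ∑ a, J i a * pb φ J (fun K => T (ocons a K)) I := by
  unfold pb
  rw [sum_option]
  refine Finset.sum_congr rfl fun a _ => ?_
  rw [Finset.mul_sum]
  refine Finset.sum_congr rfl fun K _ => ?_
  rw [Fintype.prod_option]
  simp only [ocons_none, ocons_some]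
  ring

theorem pb_relab (e : κ ≃ μ) (T : (κ → Fin n) → A) (I : μ → Fin n) :
    pb φ J (relab e T) I = relab e (pb φ J T) I := by
  unfold pb relab
  refine Fintype.sum_equiv (e.symm.arrowCongr (Equiv.refl (Fin n))) _ _ fun a => ?_
  congr 1
  refine (Fintype.prod_equiv e _ _ fun s => ?_).symm
  simp [Equiv.arrowCongr]

theorem pb_tens (S : (κ → Fin n) → A) (T : (μ → Fin n) → A) (I : κ ⊕ μ → Fin n) :
    pb φ J (tens S T) I = tens (pb φ J S) (pb φ J T) I := by
  unfold pb tens
  rw [sum_sum, Finset.sum_mul_sum]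
  refine Finset.sum_congr rfl fun K _ => Finset.sum_congr rfl fun L _ => ?_
  rw [Fintype.prod_sum_type, map_mul]
  simp only [Sum.elim_inl, Sum.elim_inr]
  ring

theorem pb_contr2 {K : Fin n → Fin n → B} (hKJ : ∀ i j, ∑ k, K i k * J k j = if i = j then 1 else 0)
    (Gi : Fin n → Fin n → A) (T : (Option (Option κ) → Fin n) → A) (I : κ → Fin n) :
    contr2 (pullInv φ K Gi) (pb φ J T) I = pb φ J (contr2 Gi T) I := by
  have h1 : pb φ J (contr2 Gi T) I
      = ∑ i, ∑ j, φ (Gi i j) * pb φ J (fun L => T (ocons i (ocons j L))) I := by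
    unfold pb contr2
    simp only [map_sum, map_mul, Finset.mul_sum]
    rw [Finset.sum_comm]
    refine Finset.sum_congr rfl fun i _ => ?_
    rw [Finset.sum_comm]
    refine Finset.sum_congr rfl fun j _ => ?_
    refine Finset.sum_congr rfl fun a _ => by ring
  have h2 : contr2 (pullInv φ K Gi) (pb φ J T) I
      = ∑ i, ∑ j, ∑ a, ∑ b, (pullInv φ K Gi i j * (J i a * J j b))
        * pb φ J (fun L => T (ocons a (ocons b L))) I := by
    unfold contr2
    refine Finset.sum_congr rfl fun i _ => Finset.sum_congr rfl fun j _ => ?_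
    rw [pb_ocons]
    simp only [Finset.mul_sum]
    refine Finset.sum_congr rfl fun a _ => ?_
    rw [pb_ocons]
    simp only [Finset.mul_sum]
    refine Finset.sum_congr rfl fun b _ => ?_
    ring
  have h3 : ∀ a b, ∑ i, ∑ j, pullInv φ K Gi i j * (J i a * J j b) = φ (Gi a b) := by
    intro a b
    unfold pullInv
    have e1 : ∀ i j, (∑ c, ∑ d, K c i * K d j * φ (Gi c d)) * (J i a * J j b)
        = ∑ c, ∑ d, (K c i * J i a) * (K d j * J j b) * φ (Gi c d) := by
      intro i j
      rw [Finset.sum_mul]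
      refine Finset.sum_congr rfl fun c _ => ?_
      rw [Finset.sum_mul]
      refine Finset.sum_congr rfl fun d _ => by ring
    simp only [e1]
    have e2 : ∑ i, ∑ j, ∑ c, ∑ d, (K c i * J i a) * (K d j * J j b) * φ (Gi c d)
        = ∑ c, ∑ d, (∑ i, K c i * J i a) * (∑ j, K d j * J j b) * φ (Gi c d) := by
      have e3 : ∀ c d, (∑ i, K c i * J i a) * (∑ j, K d j * J j b) * φ (Gi c d)
          = ∑ i, ∑ j, (K c i * J i a) * (K d j * J j b) * φ (Gi c d) := by
        intro c d
        rw [Finset.sum_mul_sum, Finset.sum_mul]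
        refine Finset.sum_congr rfl fun i _ => ?_
        rw [Finset.sum_mul]
      simp only [e3]
      calc ∑ i, ∑ j, ∑ c, ∑ d, (K c i * J i a) * (K d j * J j b) * φ (Gi c d)
          = ∑ i, ∑ c, ∑ j, ∑ d, (K c i * J i a) * (K d j * J j b) * φ (Gi c d) :=
            Finset.sum_congr rfl fun i _ => Finset.sum_comm
        _ = ∑ c, ∑ i, ∑ j, ∑ d, (K c i * J i a) * (K d j * J j b) * φ (Gi c d) :=
            Finset.sum_comm
        _ = ∑ c, ∑ i, ∑ d, ∑ j, (K c i * J i a) * (K d j * J j b) * φ (Gi c d) :=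
            Finset.sum_congr rfl fun c _ => Finset.sum_congr rfl fun i _ => Finset.sum_comm
        _ = ∑ c, ∑ d, ∑ i, ∑ j, (K c i * J i a) * (K d j * J j b) * φ (Gi c d) :=
            Finset.sum_congr rfl fun c _ => Finset.sum_comm
    rw [e2]
    simp only [hKJ]
    simp
  rw [h1, h2]
  calc ∑ i, ∑ j, ∑ a, ∑ b, (pullInv φ K Gi i j * (J i a * J j b))
        * pb φ J (fun L => T (ocons a (ocons b L))) I
      = ∑ i, ∑ a, ∑ j, ∑ b, (pullInv φ K Gi i j * (J i a * J j b))
        * pb φ J (fun L => T (ocons a (ocons b L))) I :=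
        Finset.sum_congr rfl fun i _ => Finset.sum_comm
    _ = ∑ a, ∑ i, ∑ j, ∑ b, (pullInv φ K Gi i j * (J i a * J j b))
        * pb φ J (fun L => T (ocons a (ocons b L))) I := Finset.sum_comm
    _ = ∑ a, ∑ i, ∑ b, ∑ j, (pullInv φ K Gi i j * (J i a * J j b))
        * pb φ J (fun L => T (ocons a (ocons b L))) I :=
        Finset.sum_congr rfl fun a _ => Finset.sum_congr rfl fun i _ => Finset.sum_comm
    _ = ∑ a, ∑ b, ∑ i, ∑ j, (pullInv φ K Gi i j * (J i a * J j b))
        * pb φ J (fun L => T (ocons a (ocons b L))) I :=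
        Finset.sum_congr rfl fun a _ => Finset.sum_comm
    _ = _ := by
        refine Finset.sum_congr rfl fun a _ => Finset.sum_congr rfl fun b _ => ?_
        rw [← h3 a b, Finset.sum_mul]
        refine Finset.sum_congr rfl fun i _ => ?_
        rw [Finset.sum_mul]

end Pb

section Nat1

variable {n : ℕ} {X Y : DR n} {φ : X.R →+* Y.R} {J K : Fin n → Fin n → Y.R}

theorem pb_DD (hc : CoordChange X.D Y.D φ J K) {g gi : Fin n → Fin n → X.R} (h : IsMetric g gi)
    {r : ℕ} (T : (Fin r → Fin n) → X.R) (I : Option (Fin r) → Fin n) :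
    DD Y.d (fun i l m => chr Y.D (pull φ J g) (pullInv φ K gi) l i m) (pb φ J T) I
      = pb φ J (DD X.d (fun i l m => chr X.D g gi l i m) T) I := by
  have h1 := cc_covD X.isDer Y.isDer hc h T (pb φ J T) (fun _ => rfl)
    (Fin.cons (I none) fun s => I (some s))
  have h2 : DD Y.d (fun i l m => chr Y.D (pull φ J g) (pullInv φ K gi) l i m) (pb φ J T) I
      = covD Y.D (pull φ J g) (pullInv φ K gi) (pb φ J T)
        (Fin.cons (I none) fun s => I (some s)) := rfl
  rw [h2, h1, ← (Fin.consEquiv (fun _ : Fin (r + 1) => Fin n)).sum_comp, Fintype.sum_prod_type]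
  unfold pb
  rw [sum_option]
  refine Finset.sum_congr rfl fun a _ => Finset.sum_congr rfl fun L _ => ?_
  rw [Fin.prod_univ_succ, Fintype.prod_option]
  rfl

/-- transformation of the curvature of the Levi-Civita connection -/
theorem cc_F (hc : CoordChange X.D Y.D φ J K) {g gi : Fin n → Fin n → X.R} (h : IsMetric g gi)
    (i j : Fin n) :
    ccRicF Y.D (ccRicW Y.D (pull φ J g) (pullInv φ K gi)) i j
      = Matrix.of J * (∑ a, ∑ b, (J i a * J j b) • (ccRicF X.D (ccRicW X.D g gi) a b).map φ)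
        * Matrix.of K := by
  have hD := X.isDer
  have hD' := Y.isDer
  set D := X.D
  set D' := Y.D
  set w := ccRicW D g gi with hw
  set w' := ccRicW D' (pull φ J g) (pullInv φ K gi) with hw'
  set Jm : Matrix (Fin n) (Fin n) Y.R := Matrix.of J with hJm
  set Km : Matrix (Fin n) (Fin n) Y.R := Matrix.of K with hKm
  set wt : Fin n → Matrix (Fin n) (Fin n) Y.R := fun i => ∑ a, J i a • (w a).map φ with hwt
  have hJK : Jm * Km = 1 := by
    ext p q
    rw [Matrix.mul_apply, Matrix.one_apply]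
    exact hc.jk p q
  have h4 : ∀ i, w' i * Jm = Jm * wt i + Jm.map (D' i) := by
    intro i
    ext p q
    rw [Matrix.mul_apply, Matrix.add_apply, Matrix.mul_apply, Matrix.map_apply]
    have h5 := cc_chr hD hD' hc h i p q
    change ∑ k, chr D' (pull φ J g) (pullInv φ K gi) k i p * J k q = _ + D' i (J p q)
    rw [h5]
    congr 1
    simp only [hwt, Matrix.sum_apply, Matrix.smul_apply, Matrix.map_apply, smul_eq_mul,
      Finset.mul_sum]
    rw [Finset.sum_comm]
    refine Finset.sum_congr rfl fun b _ => Finset.sum_congr rfl fun a _ => ?_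
    change J i a * J p b * φ (chr D g gi q a b) = J p b * (J i a * φ (chr D g gi q a b))
    ring
  have hcurv : ∀ i j, ccRicF D' w' i j * Jm = Jm * ccRicF D' wt i j := by
    intro i j
    have h1 : (w' j).map (D' i) * Jm + w' j * Jm.map (D' i) =
        (Jm.map (D' i) * wt j + Jm * (wt j).map (D' i)) + (Jm.map (D' j)).map (D' i) := by
      rw [← ccRic_mapmul hD', ← ccRic_mapmul hD', ← ccRic_mapadd hD', h4]
    have h2 : (w' i).map (D' j) * Jm + w' i * Jm.map (D' j) =
        (Jm.map (D' j) * wt i + Jm * (wt i).map (D' j)) + (Jm.map (D' i)).map (D' j) := by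
      rw [← ccRic_mapmul hD', ← ccRic_mapmul hD', ← ccRic_mapadd hD', h4]
    have h3 : (Jm.map (D' j)).map (D' i) = (Jm.map (D' i)).map (D' j) := by
      ext p q
      simp only [Matrix.map_apply]
      exact hD'.comm i j _
    have e1 := eq_sub_of_add_eq h1
    have e2 := eq_sub_of_add_eq h2
    have e3 : w' i * w' j * Jm = (Jm * wt i + Jm.map (D' i)) * wt j + w' i * Jm.map (D' j) := by
      rw [Matrix.mul_assoc, h4 j, Matrix.mul_add, ← Matrix.mul_assoc, h4 i]
    have e4 : w' j * w' i * Jm = (Jm * wt j + Jm.map (D' j)) * wt i + w' j * Jm.map (D' i) := by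
      rw [Matrix.mul_assoc, h4 i, Matrix.mul_add, ← Matrix.mul_assoc, h4 j]
    unfold ccRicF
    rw [Matrix.sub_mul, Matrix.sub_mul, Matrix.sub_mul, e1, e2, e3, e4, h3]
    noncomm_ring
  have hFt : ∀ i j, ccRicF D' wt i j = ∑ a, ∑ b, (J i a * J j b) • (ccRicF D w a b).map φ := by
    intro i j
    have hder : ∀ i j, (wt j).map (D' i) = (∑ b, D' i (J j b) • (w b).map φ) +
        ∑ a, ∑ b, (J i a * J j b) • ((w b).map (D a)).map φ := by
      intro i j
      ext p q
      simp only [hwt, Matrix.map_apply, Matrix.add_apply, Matrix.sum_apply, Matrix.smul_apply,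
        smul_eq_mul, ccRic_sum hD', hD'.mul, hc.der, Finset.sum_add_distrib, Finset.mul_sum]
      congr 1
      rw [Finset.sum_comm]
      refine Finset.sum_congr rfl fun a _ => Finset.sum_congr rfl fun b _ => ?_
      ring
    have hprod : ∀ i j, wt i * wt j = ∑ a, ∑ b, (J i a * J j b) • ((w a).map φ * (w b).map φ) := by
      intro i j
      simp only [hwt, Finset.sum_mul_sum, smul_mul_smul_comm]
    have hsw : ∀ (M : Fin n → Fin n → Matrix (Fin n) (Fin n) Y.R),
        ∑ a, ∑ b, (J j a * J i b) • M a b = ∑ a, ∑ b, (J i a * J j b) • M b a := by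
      intro M
      rw [Finset.sum_comm]
      refine Finset.sum_congr rfl fun a _ => Finset.sum_congr rfl fun b _ => ?_
      rw [mul_comm]
    have hcl : ∑ b, D' i (J j b) • (w b).map φ = ∑ b, D' j (J i b) • (w b).map φ :=
      Finset.sum_congr rfl fun b _ => by rw [hc.closed i j b]
    have hlast : ∀ a b, (ccRicF D w a b).map φ = ((w b).map (D a)).map φ - ((w a).map (D b)).map φ -
        ((w a).map φ * (w b).map φ - (w b).map φ * (w a).map φ) := by
      intro a b
      ext p q
      simp only [ccRicF, Matrix.map_apply, Matrix.sub_apply, Matrix.mul_apply, map_sub, map_sum,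
        map_mul]
    unfold ccRicF at hlast ⊢
    rw [hder i j, hder j i, hprod i j, hprod j i, hsw, hsw, hcl]
    simp only [hlast, smul_sub, Finset.sum_sub_distrib]
    abel
  have hF' : ∀ i j, ccRicF D' w' i j = Jm * ccRicF D' wt i j * Km := by
    intro i j
    rw [← hcurv, Matrix.mul_assoc, hJK, Matrix.mul_one]
  rw [hF', hFt]

theorem F_eq {J' : Type} {ρ : J' → ℕ} (b : BD X J' ρ) (i j l m : Fin n) :
    b.F i j l m = ccRicF X.D (ccRicW X.D b.G b.Gi) i j m l := by
  unfold ccRicF BD.F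
  rw [Matrix.sub_apply, Matrix.sub_apply, Matrix.sub_apply, Matrix.map_apply, Matrix.map_apply,
    Matrix.mul_apply, Matrix.mul_apply]
  show X.d i (b.A j l m) - X.d j (b.A i l m) + ∑ p, (b.A i l p * b.A j p m - b.A j l p * b.A i p m)
    = X.d i (b.A j l m) - X.d j (b.A i l m)
      - ((∑ p, b.A i p m * b.A j l p) - ∑ p, b.A j p m * b.A i l p)
  rw [Finset.sum_sub_distrib]
  have e1 : ∑ p, b.A i l p * b.A j p m = ∑ p, b.A j p m * b.A i l p :=
    Finset.sum_congr rfl fun p _ => mul_comm _ _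
  have e2 : ∑ p, b.A j l p * b.A i p m = ∑ p, b.A i p m * b.A j l p :=
    Finset.sum_congr rfl fun p _ => mul_comm _ _
  rw [e1, e2]; ring

theorem F_nat {J' : Type} {ρ : J' → ℕ} (hc : CoordChange X.D Y.D φ J K) (b : BD X J' ρ)
    (b' : BD Y J' ρ) (hG : b'.G = pull φ J b.G) (hGi : b'.Gi = pullInv φ K b.Gi)
    (i j l m : Fin n) : b'.F i j l m
      = ∑ a, ∑ c, ∑ e, ∑ d, J i a * J j c * J m e * K d l * φ (b.F a c d e) := by
  rw [F_eq, hG, hGi, cc_F hc b.met, Matrix.mul_apply]
  have h1 : ∀ x, (Matrix.of J * ∑ a, ∑ c, (J i a * J j c)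
      • (ccRicF X.D (ccRicW X.D b.G b.Gi) a c).map φ) m x * (Matrix.of K) x l
      = ∑ a, ∑ c, ∑ e, J i a * J j c * J m e * K x l * φ (b.F a c x e) := by
    intro x
    rw [Matrix.mul_apply]
    simp only [Matrix.sum_apply, Matrix.smul_apply, Matrix.map_apply, smul_eq_mul, Matrix.of_apply,
      Finset.mul_sum, Finset.sum_mul]
    rw [Finset.sum_comm]
    refine Finset.sum_congr rfl fun a _ => ?_
    rw [Finset.sum_comm]
    refine Finset.sum_congr rfl fun c _ => ?_
    refine Finset.sum_congr rfl fun e _ => ?_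
    rw [F_eq]
    ring
  simp only [h1]
  rw [Finset.sum_comm]
  refine Finset.sum_congr rfl fun a _ => ?_
  rw [Finset.sum_comm]
  refine Finset.sum_congr rfl fun c _ => ?_
  rw [Finset.sum_comm]

/-- sums over `Fin 4 → Fin n` -/
theorem sum_fin4 {M : Type} [AddCommMonoid M] (f : (Fin 4 → Fin n) → M) :
    ∑ K, f K = ∑ a, ∑ b, ∑ c, ∑ d, f ![a, b, c, d] := by
  have h1 : ∀ (m : ℕ) (f : (Fin (m + 1) → Fin n) → M),
      ∑ K, f K = ∑ a, ∑ K : Fin m → Fin n, f (Fin.cons a K) := by
    intro m f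
    rw [← (Fin.consEquiv (fun _ : Fin (m + 1) => Fin n)).sum_comp, Fintype.sum_prod_type]
    rfl
  rw [h1]
  refine Finset.sum_congr rfl fun a _ => ?_
  rw [h1]
  refine Finset.sum_congr rfl fun b _ => ?_
  rw [h1]
  refine Finset.sum_congr rfl fun c _ => ?_
  rw [h1]
  refine Finset.sum_congr rfl fun d _ => ?_
  rw [Fintype.sum_unique]
  rfl

/-- sums over `Fin 2 → Fin n` -/
theorem sum_fin2 {M : Type} [AddCommMonoid M] (f : (Fin 2 → Fin n) → M) :
    ∑ K, f K = ∑ a, ∑ b, f ![a, b] := by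
  have h1 : ∀ (m : ℕ) (f : (Fin (m + 1) → Fin n) → M),
      ∑ K, f K = ∑ a, ∑ K : Fin m → Fin n, f (Fin.cons a K) := by
    intro m f
    rw [← (Fin.consEquiv (fun _ : Fin (m + 1) => Fin n)).sum_comp, Fintype.sum_prod_type]
    rfl
  rw [h1]
  refine Finset.sum_congr rfl fun a _ => ?_
  rw [h1]
  refine Finset.sum_congr rfl fun b _ => ?_
  rw [Fintype.sum_unique]
  rfl

theorem curv_nat {J' : Type} {ρ : J' → ℕ} (hc : CoordChange X.D Y.D φ J K) (b : BD X J' ρ)
    (b' : BD Y J' ρ) (hG : b'.G = pull φ J b.G) (hGi : b'.Gi = pullInv φ K b.Gi)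
    (I : Fin 4 → Fin n) : b'.curv I = pb φ J b.curv I := by
  have h1 : b'.curv I = ∑ p, (∑ x, ∑ y, J (I 2) x * J p y * φ (b.G x y))
      * ∑ a, ∑ c, ∑ e, ∑ d, J (I 0) a * J (I 1) c * J (I 3) e * K d p * φ (b.F a c d e) := by
    unfold BD.curv
    refine Finset.sum_congr rfl fun p _ => ?_
    rw [F_nat hc b b' hG hGi, hG]
    rfl
  have h2 : pb φ J b.curv I = ∑ a, ∑ c, ∑ x, ∑ e, ∑ y,
      J (I 0) a * J (I 1) c * J (I 2) x * J (I 3) e * (φ (b.G x y) * φ (b.F a c y e)) := by
    unfold pb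
    rw [sum_fin4]
    refine Finset.sum_congr rfl fun a _ => Finset.sum_congr rfl fun c _ =>
      Finset.sum_congr rfl fun x _ => Finset.sum_congr rfl fun e _ => ?_
    unfold BD.curv
    rw [map_sum, Finset.mul_sum]
    refine Finset.sum_congr rfl fun y _ => ?_
    rw [map_mul]
    have : (∏ s, J (I s) ((![a, c, x, e] : Fin 4 → Fin n) s))
        = J (I 0) a * J (I 1) c * J (I 2) x * J (I 3) e := by
      rw [Fin.prod_univ_four]; rfl
    rw [this]
    rfl
  rw [h1, h2]
  -- move the sum over `p` inside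
  have h3 : ∀ y d, ∑ p, J p y * K d p = if d = y then 1 else 0 := by
    intro y d
    rw [← hc.kj d y]
    exact Finset.sum_congr rfl fun p _ => mul_comm _ _
  have h4 : ∀ p, (∑ x, ∑ y, J (I 2) x * J p y * φ (b.G x y))
      * (∑ a, ∑ c, ∑ e, ∑ d, J (I 0) a * J (I 1) c * J (I 3) e * K d p * φ (b.F a c d e))
      = ∑ a, ∑ c, ∑ x, ∑ e, ∑ y, ∑ d, (J p y * K d p) * (J (I 0) a * J (I 1) c * J (I 2) x
        * J (I 3) e * (φ (b.G x y) * φ (b.F a c d e))) := by
    intro p
    rw [Finset.mul_sum]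
    refine Finset.sum_congr rfl fun a _ => ?_
    rw [Finset.mul_sum]
    refine Finset.sum_congr rfl fun c _ => ?_
    rw [Finset.sum_mul]
    refine Finset.sum_congr rfl fun x _ => ?_
    rw [Finset.mul_sum]
    refine Finset.sum_congr rfl fun e _ => ?_
    rw [Finset.sum_mul]
    refine Finset.sum_congr rfl fun y _ => ?_
    rw [Finset.mul_sum]
    refine Finset.sum_congr rfl fun d _ => ?_
    ring
  simp only [h4]
  rw [Finset.sum_comm]
  refine Finset.sum_congr rfl fun a _ => ?_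
  rw [Finset.sum_comm]
  refine Finset.sum_congr rfl fun c _ => ?_
  rw [Finset.sum_comm]
  refine Finset.sum_congr rfl fun x _ => ?_
  rw [Finset.sum_comm]
  refine Finset.sum_congr rfl fun e _ => ?_
  rw [Finset.sum_comm]
  refine Finset.sum_congr rfl fun y _ => ?_
  rw [Finset.sum_comm]
  simp only [← Finset.sum_mul, h3]
  simp

/-- naturality -/
theorem HN.nat {J' : Type} {ρ : J' → ℕ} {S : Set J'} {g : Dg J'} {r : ℕ} {T : Tn n J' ρ r}
    {L : Ln n J' ρ r} (h : HN S g r T L) (hc : CoordChange X.D Y.D φ J K) (b : BD X J' ρ)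
    (b' : BD Y J' ρ) (hG : b'.G = pull φ J b.G) (hGi : b'.Gi = pullInv φ K b.Gi)
    (hΦ : ∀ j I, b'.Φ j I = pb φ J (b.Φ j) I) (I : Fin r → Fin n) :
    T Y b' I = pb φ J (T X b) I := by
  induction h with
  | one =>
    unfold pb
    rw [Fintype.sum_unique]
    simp
  | met =>
    show b'.G (I 0) (I 1) = _
    unfold pb
    rw [sum_fin2, hG]
    refine Finset.sum_congr rfl fun a _ => Finset.sum_congr rfl fun c _ => ?_
    rw [Fin.prod_univ_two]
    rfl
  | curv => exact curv_nat hc b b' hG hGi I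
  | fieldV j hj => exact hΦ j I
  | fieldC j hj => exact hΦ j I
  | zero g r => exact (pb_zero φ J I).symm
  | add _ _ h1 h2 => beta_reduce; rw [h1, h2, pb_add]
  | smul t _ h1 =>
    beta_reduce
    rw [h1]
    unfold pb
    rw [Finset.smul_sum]
    refine Finset.sum_congr rfl fun a _ => ?_
    rw [hc.smul, mul_smul_comm]
  | @mul g g' r r' t T T' L L' e _ _ h1 h2 =>
    have e1 : T Y b' = pb φ J (T X b) := funext h1
    have e2 : T' Y b' = pb φ J (T' X b) := funext h2
    beta_reduce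
    rw [e1, e2, pb_relab]
    unfold relab
    rw [pb_tens]
  | @perm g r r' T L e _ h1 =>
    have e1 : T Y b' = pb φ J (T X b) := funext h1
    beta_reduce
    rw [e1, pb_relab]
  | @contr g r t T L e _ h1 =>
    have e1 : T Y b' = pb φ J (T X b) := funext h1
    have e2 : relab e (pb φ J (T X b)) = pb φ J (relab e (T X b)) :=
      funext fun I => (pb_relab φ J e _ I).symm
    beta_reduce
    rw [e1, e2, hGi, pb_contr2 φ J hc.kj]
  | @deriv g r t T L e _ h1 =>
    have e1 : T Y b' = pb φ J (T X b) := funext h1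
    have hA : b'.A = fun i l m => chr Y.D (pull φ J b.G) (pullInv φ K b.Gi) l i m := by
      unfold BD.A
      rw [hG, hGi]
    have e2 : DD Y.d b'.A (pb φ J (T X b)) = pb φ J (DD X.d b.A (T X b)) := by
      funext I
      rw [hA]
      exact pb_DD hc b.met (T X b) I
    beta_reduce
    rw [e1, e2, pb_relab]

end Nat1

end Run7.h96.Hy

end
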