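import Pool.Agent.Run7.h96.K02
import Pool.Agent.Run7.h96.K04

section

/-!
Naturality of the hypersurface data.
-/

set_option linter.all false
set_option maxHeartbeats 400000

open scoped BigOperators

namespace Run7.h96.Hy

open CInv

variable {n : ℕ}

theorem inv_unique {A : Type} [CommRing A] {g gi gi' : Fin n → Fin n → A} (h : IsMetric g gi)
    (h' : IsMetric g gi') : gi = gi' := by
  have h1 : (Matrix.of g) * (Matrix.of gi) = 1 := by
    ext i j
    rw [Matrix.mul_apply, Matrix.one_apply]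
    exact h.inv i j
  have h2 : (Matrix.of g) * (Matrix.of gi') = 1 := by
    ext i j
    rw [Matrix.mul_apply, Matrix.one_apply]
    exact h'.inv i j
  have h3 := mul_eq_one_comm.mp h1
  have h4 : Matrix.of gi = Matrix.of gi' := by
    calc Matrix.of gi = Matrix.of gi * (Matrix.of g * Matrix.of gi') := by rw [h2, mul_one]
      _ = Matrix.of gi' := by rw [← mul_assoc, h3, one_mul]
  exact Matrix.of.injective h4

theorem Fml.eval_map {J : Type} {ρ : J → ℕ} {X Y : DR n} (θ : DH X Y) (b : BD X J ρ) {r : ℕ}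
    (P : Fml J ρ r) (K : Fin r → Fin n) : P.eval Y (b.map θ.f) K = θ.f (P.eval X b K) := by
  induction P with
  | one => exact (map_one _).symm
  | met => rfl
  | curv => exact HN.map (S := (∅ : Set J)) HN.curv θ b K
  | fld j => rfl
  | zero r => exact (map_zero _).symm
  | add _ _ h1 h2 => simp only [Fml.eval, h1, h2, map_add]
  | smul t _ h1 => simp only [Fml.eval, h1, map_smul]
  | mul e _ _ h1 h2 => simp only [Fml.eval, relab, tens, h1, h2, map_mul]
  | perm e _ h1 => simp only [Fml.eval, relab, h1]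
  | contr e _ h1 => exact map_contr2 θ.f (fun K => h1 _) K
  | @deriv r t e P h1 =>
    show DD Y.d (b.map θ.f).A (P.eval Y (b.map θ.f)) (fun s => K (e s))
      = θ.f (DD X.d b.A (P.eval X b) (fun s => K (e s)))
    exact map_DD θ b (fun K => h1 _) _

theorem sum_ite2 {M : Type} [AddCommMonoid M] (a b : Fin n) (f : Fin n → Fin n → M) :
    (∑ x, ∑ y, if a = x then (if b = y then f x y else 0) else 0) = f a b := by
  rw [Finset.sum_eq_single a]
  · simp
  · intro x _ hx
    simp [Ne.symm hx]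
  · simp

section Rm

variable {X Y : DR n} {g gi : Fin n → Fin n → X.R}

theorem mbd_map (θ : DH X Y) (h : IsMetric g gi)
    (h' : IsMetric (fun i j => θ.f (g i j)) (fun i j => θ.f (gi i j))) :
    (mbd h).map θ.f = mbd h' := BD.ext' rfl rfl (by funext e; exact e.elim)

theorem rm_map (θ : DH X Y) (h : IsMetric g gi)
    (h' : IsMetric (fun i j => θ.f (g i j)) (fun i j => θ.f (gi i j))) (l : ℕ)
    (K : Fin (4 + l) → Fin n) : rm h' l K = θ.f (rm h l K) := by
  induction l with
  | zero =>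
    show (mbd h').curv K = θ.f ((mbd h).curv K)
    rw [← mbd_map θ h h']
    exact HN.map (S := (∅ : Set Empty)) HN.curv θ (mbd h) K
  | succ l ih =>
    show relab (finSuccEquiv (4 + l)).symm (DD Y.d (mbd h').A (rm h' l)) K
      = θ.f (relab (finSuccEquiv (4 + l)).symm (DD X.d (mbd h).A (rm h l)) K)
    rw [← mbd_map θ h h']
    exact map_DD θ (mbd h) (T := rm h l) (T' := rm h' l) (fun K => ih K) _

theorem rm_cc {φ : X.R →+* Y.R} {J K : Fin n → Fin n → Y.R} (hc : CoordChange X.D Y.D φ J K)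
    (h : IsMetric g gi) (h' : IsMetric (pull φ J g) (pullInv φ K gi)) (l : ℕ)
    (I : Fin (4 + l) → Fin n) : rm h' l I = pb φ J (rm h l) I := by
  induction l with
  | zero => exact curv_nat hc (mbd h) (mbd h') rfl rfl I
  | succ l ih =>
    have h1 : rm h' l = pb φ J (rm h l) := by funext I; exact ih I
    show relab (finSuccEquiv (4 + l)).symm (DD Y.d (mbd h').A (rm h' l)) I
      = pb φ J (relab (finSuccEquiv (4 + l)).symm (DD X.d (mbd h).A (rm h l))) I
    rw [pb_relab, h1]
    exact pb_DD hc h (rm h l) _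

theorem pb_pb {A B C : Type} [CommRing A] [CommRing B] [CommRing C] {κ : Type} [Fintype κ]
    [DecidableEq κ] (ψ : B →+* C) (F : Fin n → Fin n → C) (φ : A →+* B) (J : Fin n → Fin n → B)
    (T : (κ → Fin n) → A) (I : κ → Fin n) :
    pb ψ F (pb φ J T) I = pb (ψ.comp φ) (fun i l => ∑ m, F i m * ψ (J m l)) T I := by
  unfold pb
  have h1 : ∀ a : κ → Fin n, (∏ s, ∑ m, F (I s) m * ψ (J m (a s)))
      = ∑ L : κ → Fin n, (∏ s, F (I s) (L s)) * ∏ s, ψ (J (L s) (a s)) := by
    intro a
    rw [Finset.prod_univ_sum]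
    rw [Fintype.piFinset_univ]
    refine Finset.sum_congr rfl fun L _ => ?_
    rw [Finset.prod_mul_distrib]
  simp only [h1, map_sum, map_mul, map_prod, Finset.mul_sum, Finset.sum_mul]
  rw [Finset.sum_comm]
  refine Finset.sum_congr rfl fun a _ => Finset.sum_congr rfl fun L _ => ?_
  rw [RingHom.comp_apply]
  ring

end Rm

variable {k : ℕ}

section MapH

variable {X A X' A' : DR (k + 1)} {H : Hs X A} {H' : Hs X' A'}

theorem ext_map {R R' : Type} [CommRing R] [CommRing R'] [Algebra ℝ R] [Algebra ℝ R']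
    (η : R →ₐ[ℝ] R') (c : R) (M : Fin k → Fin k → R) (i j : Fin (k + 1)) :
    η (ext c M i j) = ext (η c) (fun a b => η (M a b)) i j := by
  refine Fin.cases ?_ (fun a => ?_) i <;> refine Fin.cases ?_ (fun b => ?_) j
  · rfl
  · exact map_zero _
  · exact map_zero _
  · rfl

theorem Mt.hyp_map {m : Mt H} {m' : Mt H'} (θ : DH X X') (η : DH A A')
    (hr : ∀ f, H'.res (θ.f f) = η.f (H.res f)) (hg : m'.g = fun i j => θ.f (m.g i j))
    (hgi : m'.gi = fun i j => θ.f (m.gi i j)) (hN : m'.N = η.f m.N) :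
    m'.hyp = m.hyp.map η.f := by
  obtain ⟨g', gi', met', N', hN'⟩ := m'
  simp only at hg hgi hN
  subst hg hgi hN
  have hfr : ∀ i j, (⟨_, _, met', _, hN'⟩ : Mt H').fr i j = η.f (m.fr i j) := by
    intro i j
    refine Fin.cases ?_ (fun a => ?_) i
    · show η.f m.N * H'.res (θ.f (m.gi 0 j)) = η.f (m.N * H.res (m.gi 0 j))
      rw [hr, map_mul]
    · show (if a.succ = j then (1 : A'.R) else 0) = η.f (if a.succ = j then 1 else 0)
      split_ifs
      · exact (map_one _).symm
      · exact (map_zero _).symm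
  refine BD.ext' ?_ ?_ ?_
  · funext i j
    show ext 1 (fun a b => H'.res (θ.f (m.g a.succ b.succ))) i j
      = η.f (ext 1 (fun a b => H.res (m.g a.succ b.succ)) i j)
    rw [ext_map, map_one]
    simp only [hr]
  · funext i j
    show ext 1 (fun a b => H'.res (θ.f (m.gi a.succ b.succ)) - η.f m.N * η.f m.N
      * (H'.res (θ.f (m.gi 0 a.succ)) * H'.res (θ.f (m.gi 0 b.succ)))) i j
      = η.f (ext 1 m.hi i j)
    rw [ext_map, map_one]
    simp only [hr, Mt.hi, map_sub, map_mul]
  · funext j K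
    cases j with
    | nu =>
      show (if K 0 = 0 then (1 : A'.R) else 0) = η.f (if K 0 = 0 then 1 else 0)
      split_ifs
      · exact (map_one _).symm
      · exact (map_zero _).symm
    | II =>
      show ext 0 (fun a b => η.f m.N * H'.res (chr X'.D (fun i j => θ.f (m.g i j))
        (fun i j => θ.f (m.gi i j)) 0 a.succ b.succ)) (K 0) (K 1) = η.f (ext 0 m.II (K 0) (K 1))
      rw [ext_map, map_zero]
      have h1 : ∀ i l j, chr X'.D (fun i j => θ.f (m.g i j)) (fun i j => θ.f (m.gi i j)) l i j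
          = θ.f (chr X.D m.g m.gi l i j) := fun i l j => BD.map_A θ (mbd m.met) i l j
      simp only [h1, hr, Mt.II, map_mul]
    | R l =>
      show (∑ L : Fin (4 + l) → Fin (k + 1), (∏ s, (⟨_, _, met', _, hN'⟩ : Mt H').fr (K s) (L s))
        * H'.res (rm met' l L)) = η.f (∑ L : Fin (4 + l) → Fin (k + 1),
          (∏ s, m.fr (K s) (L s)) * H.res (rm m.met l L))
      rw [map_sum]
      refine Finset.sum_congr rfl fun L _ => ?_
      rw [map_mul, map_prod, rm_map θ m.met met', hr]
      simp only [hfr]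

end MapH

section CCH

variable {X A X' : DR (k + 1)} {H : Hs X A} {H' : Hs X' A}

/-- a coordinate change which is the identity along the hypersurface -/
structure HCC (H : Hs X A) (H' : Hs X' A) (φ : X.R →+* X'.R) (J K : Fin (k + 1) → Fin (k + 1) → X'.R) :
    Prop where
  cc : CoordChange X.D X'.D φ J K
  hr : ∀ f, H'.res (φ f) = H.res f
  hJ : ∀ (a : Fin k) j, H'.res (J a.succ j) = if a.succ = j then 1 else 0

variable {φ : X.R →+* X'.R} {J K : Fin (k + 1) → Fin (k + 1) → X'.R}

theorem HCC.hK (hc : HCC H H' φ J K) (a : Fin k) (j : Fin (k + 1)) :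
    H'.res (K a.succ j) = if a.succ = j then 1 else 0 := by
  have h1 := congrArg H'.res (hc.cc.jk a.succ j)
  rw [map_sum] at h1
  simp only [map_mul, hc.hJ, ite_mul, one_mul, zero_mul, Finset.sum_ite_eq, Finset.mem_univ,
    if_true] at h1
  rw [h1]
  split_ifs
  · exact map_one _
  · exact map_zero _

theorem HCC.J00 (hc : HCC H H' φ J K) : H'.res (J 0 0) * H'.res (K 0 0) = 1 := by
  have h1 := congrArg H'.res (hc.cc.jk 0 0)
  rw [map_sum, Fin.sum_univ_succ, if_pos rfl, map_one] at h1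
  simp only [map_mul, hc.hK, if_neg (Fin.succ_ne_zero _), mul_zero, Finset.sum_const_zero,
    add_zero] at h1
  exact h1

theorem HCC.hfr (hc : HCC H H' φ J K) {m : Mt H} {m' : Mt H'}
    (hgi : m'.gi = pullInv φ K m.gi) (hN : m'.N = H'.res (J 0 0) * m.N) (i l : Fin (k + 1)) :
    ∑ j, m'.fr i j * H'.res (J j l) = m.fr i l := by
  refine Fin.cases ?_ (fun a => ?_) i
  · have h1 : ∀ j, m'.fr 0 j = m.N * ∑ b, H'.res (K b j) * H.res (m.gi 0 b) := by
      intro j
      show m'.N * H'.res (m'.gi 0 j) = _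
      rw [hN, hgi]
      unfold pullInv
      rw [map_sum, Fin.sum_univ_succ]
      have h2 : ∀ a : Fin k, H'.res (∑ b, K a.succ 0 * K b j * φ (m.gi a.succ b)) = 0 := by
        intro a
        rw [map_sum]
        refine Finset.sum_eq_zero fun b _ => ?_
        rw [map_mul, map_mul, hc.hK, if_neg (Fin.succ_ne_zero a)]; ring
      rw [Finset.sum_eq_zero fun a _ => h2 a, add_zero, map_sum]
      simp only [map_mul, hc.hr, Finset.mul_sum]
      refine Finset.sum_congr rfl fun b _ => ?_
      linear_combination (m.N * (H'.res (K b j) * H.res (m.gi 0 b))) * hc.J00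
    simp only [h1]
    have h3 : ∑ j, (m.N * ∑ b, H'.res (K b j) * H.res (m.gi 0 b)) * H'.res (J j l)
        = ∑ b, (m.N * H.res (m.gi 0 b)) * H'.res (∑ j, K b j * J j l) := by
      simp only [map_sum, map_mul, Finset.mul_sum, Finset.sum_mul]
      rw [Finset.sum_comm]
      refine Finset.sum_congr rfl fun b _ => Finset.sum_congr rfl fun j _ => by ring
    rw [h3]
    simp only [hc.cc.kj]
    rw [Finset.sum_eq_single l]
    · rw [if_pos rfl, map_one, mul_one]; rfl
    · intro b _ hb
      rw [if_neg hb, map_zero, mul_zero]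
    · intro h; exact absurd (Finset.mem_univ l) h
  · show ∑ j, (if a.succ = j then (1 : A.R) else 0) * H'.res (J j l) = if a.succ = l then 1 else 0
    simp only [ite_mul, one_mul, zero_mul, Finset.sum_ite_eq, Finset.mem_univ, if_true]
    exact hc.hJ a l

theorem Mt.hyp_cc (hc : HCC H H' φ J K) {m : Mt H} {m' : Mt H'} (hg : m'.g = pull φ J m.g)
    (hgi : m'.gi = pullInv φ K m.gi) (hN : m'.N = H'.res (J 0 0) * m.N) : m'.hyp = m.hyp := by
  have hG : m'.hyp.G = m.hyp.G := by
    funext i j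
    show ext 1 (fun a b => H'.res (m'.g a.succ b.succ)) i j
      = ext 1 (fun a b => H.res (m.g a.succ b.succ)) i j
    congr 1
    funext a b
    rw [hg]
    unfold pull
    simp only [map_sum, map_mul, hc.hJ, hc.hr, ite_mul, one_mul, zero_mul]
    exact sum_ite2 _ _ _
  have hGi : m'.hyp.Gi = m.hyp.Gi := inv_unique (hG ▸ m'.hyp.met) m.hyp.met
  refine BD.ext' hG hGi ?_
  funext j I
  cases j with
  | nu => rfl
  | II =>
    show ext 0 m'.II (I 0) (I 1) = ext 0 m.II (I 0) (I 1)
    congr 1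
    funext a b
    unfold Mt.II
    have h1 := congrArg H'.res (cc_chr X.isDer X'.isDer hc.cc m.met a.succ b.succ 0)
    rw [map_sum, Fin.sum_univ_succ] at h1
    simp only [map_add, map_sum, map_mul, hc.hJ, if_neg (Fin.succ_ne_zero _), mul_zero,
      Finset.sum_const_zero, add_zero, hc.hr, ite_mul, one_mul, zero_mul, sum_ite2] at h1
    have h2 : H'.res (X'.D a.succ (J b.succ 0)) = 0 := by
      have := H'.hd a (J b.succ 0)
      rw [hc.hJ, if_neg (Fin.succ_ne_zero b), map_zero] at this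
      exact this
    rw [h2, add_zero] at h1
    rw [hg, hgi, hN]
    linear_combination m.N * h1
  | R l =>
    show (∑ L : Fin (4 + l) → Fin (k + 1), (∏ s, m'.fr (I s) (L s)) * H'.res (rm m'.met l L))
      = ∑ L : Fin (4 + l) → Fin (k + 1), (∏ s, m.fr (I s) (L s)) * H.res (rm m.met l L)
    obtain ⟨g', gi', met', N', hN'⟩ := m'
    simp only at hg hgi hN
    subst hg hgi hN
    have h1 : rm met' l = pb φ J (rm m.met l) := by
      funext L; exact rm_cc hc.cc m.met met' l L
    rw [h1]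
    have h2 := pb_pb (H'.res : X'.R →+* A.R)
      (Mt.fr (⟨_, _, met', _, hN'⟩ : Mt H')) φ J (rm m.met l) I
    refine Eq.trans h2 ?_
    unfold pb
    refine Finset.sum_congr rfl fun L _ => ?_
    congr 1
    · refine Finset.prod_congr rfl fun s _ => ?_
      exact hc.hfr (m := m) (m' := ⟨_, _, met', _, hN'⟩) rfl rfl (I s) (L s)
    · exact hc.hr _

end CCH

end Run7.h96.Hy

end

section

/-!
The component linear in the top coefficient.
-/

set_option linter.all false
set_option maxHeartbeats 400000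

open scoped BigOperators

namespace Run7.h96.Hy

open CInv

section Repl

variable {n : ℕ} {J : Type} {ρ : J → ℕ}

theorem HN.sum {S : Set J} {g : Dg J} {r : ℕ} {α : Type} (s : Finset α) {T : α → Tn n J ρ r}
    {L : α → Ln n J ρ r} (h : ∀ a ∈ s, HN S g r (T a) (L a)) :
    HN S g r (fun X b K => ∑ a ∈ s, T a X b K) (fun X b Ψ K => ∑ a ∈ s, L a X b Ψ K) := by
  classical
  induction s using Finset.induction_on with
  | empty => simpa using HN.zero g r
  | @insert a s ha ih =>
    have h1 := h a (Finset.mem_insert_self a s)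
    have h2 := ih fun b hb => h b (Finset.mem_insert_of_mem hb)
    simp only [Finset.sum_insert ha]
    exact h1.add h2

open Classical in
/-- replacing the fields in `S` -/
noncomputable def BD.repl {X : DR n} (S : Set J) (b : BD X J ρ) (Ψ : Fl X J ρ) : BD X J ρ where
  G := b.G
  Gi := b.Gi
  Φ j := if j ∈ S then Ψ j else b.Φ j
  met := b.met

theorem repl_in {X : DR n} {S : Set J} (b : BD X J ρ) (Ψ : Fl X J ρ) {j : J} (hj : j ∈ S) :
    (b.repl S Ψ).Φ j = Ψ j := if_pos hj

theorem repl_out {X : DR n} {S : Set J} (b : BD X J ρ) (Ψ : Fl X J ρ) {j : J} (hj : j ∉ S) :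
    (b.repl S Ψ).Φ j = b.Φ j := if_neg hj

theorem HN.T0 {S : Set J} {g : Dg J} {r : ℕ} {T : Tn n J ρ r} {L : Ln n J ρ r}
    (h : HN S g r T L) (hg : g.1 = 0) {X : DR n} (b : BD X J ρ) (Ψ : Fl X J ρ)
    (K : Fin r → Fin n) : T X (b.repl S Ψ) K = T X b K := by
  refine h.Tcongr (b := b.repl S Ψ) (b' := b) rfl rfl (fun j hj => ?_) K
  by_cases hS : j ∈ S
  · have := hj hS
    rw [hg] at this
    exact absurd rfl this
  · exact repl_out b Ψ hS

/-- degree one natural tensors are linear -/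
theorem HN.L1 {S : Set J} {g : Dg J} {r : ℕ} {T : Tn n J ρ r} {L : Ln n J ρ r}
    (h : HN S g r T L) (hg : nf g = 1) {X : DR n} (b : BD X J ρ) (Ψ : Fl X J ρ)
    (K : Fin r → Fin n) : L X b Ψ K = T X (b.repl S Ψ) K := by
  induction h with
  | one => rw [nf_zero] at hg; omega
  | met => rw [nf_zero] at hg; omega
  | curv => rw [nf_N] at hg; omega
  | fieldV j hj =>
    beta_reduce
    rw [repl_in b Ψ hj]
  | fieldC j hj => rw [nf_zero] at hg; omega
  | zero g r => rfl
  | add _ _ h1 h2 => beta_reduce; rw [h1 hg, h2 hg]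
  | smul t _ h1 => beta_reduce; rw [h1 hg]
  | @mul g g' r r' t T T' L L' e hT hT' h1 h2 =>
    rw [nf_add] at hg
    have hcase : (nf g = 0 ∧ nf g' = 1) ∨ (nf g = 1 ∧ nf g' = 0) := by omega
    rcases hcase with ⟨a, a'⟩ | ⟨a, a'⟩
    · have h0 := nf_eq_zero a
      simp only [relab, tens, hT.L0 h0, hT.T0 h0 b Ψ, h2 a', zero_mul, add_zero]
    · have h0 := nf_eq_zero a'
      simp only [relab, tens, hT'.L0 h0, hT'.T0 h0 b Ψ, h1 a, mul_zero, zero_add]
  | perm e _ h1 => simp only [relab, h1 hg]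
  | @contr g r t T L e _ h1 =>
    simp only [contr2, relab, h1 hg]
    rfl
  | @deriv g r t T L e _ h1 =>
    have h2 : nf g = 1 := by
      rw [nf_add, nf_N] at hg; omega
    have h3 : L X b Ψ = T X (b.repl S Ψ) := funext fun K => h1 h2 K
    simp only [relab, DD, h3]
    rfl

/-- functoriality of degree zero scalars for coordinate changes -/
theorem HN.nat0 {X Y : DR n} {φ : X.R →+* Y.R} {M N : Fin n → Fin n → Y.R} {S : Set J} {g : Dg J}
    {T : Tn n J ρ 0} {L : Ln n J ρ 0} (h : HN S g 0 T L) (hc : CoordChange X.D Y.D φ M N)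
    (b : BD X J ρ) (b' : BD Y J ρ) (hG : b'.G = pull φ M b.G)
    (hΦ : ∀ j I, b'.Φ j I = pb φ M (b.Φ j) I) : T Y b' ![] = φ (T X b ![]) := by
  have hGi : b'.Gi = pullInv φ N b.Gi := by
    have h1 := b'.met
    rw [hG] at h1
    exact metric_unique h1 (cc_metric hc b.met)
  rw [h.nat hc b b' hG hGi hΦ]
  unfold pb
  rw [Fintype.sum_unique]
  simp only [Finset.univ_eq_empty, Finset.prod_empty, one_mul]
  congr 2

/-- the reals -/
noncomputable def R0 (n : ℕ) : DR n where
  R := ℝ
  d _ := 0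
  comm _ _ _ := rfl

/-- elements of `R0` are real numbers -/
def rv {n : ℕ} (a : (R0 n).R) : ℝ := a

theorem R0_cc {M N : Fin n → Fin n → ℝ} (h1 : ∀ i j, ∑ k, M i k * N k j = if i = j then 1 else 0)
    (h2 : ∀ i j, ∑ k, N i k * M k j = if i = j then 1 else 0) :
    CoordChange (R0 n).D (R0 n).D (RingHom.id ℝ) M N where
  smul _ _ := rfl
  jk := h1
  kj := h2
  der i a := by
    have h3 : ∀ (i : Fin n) (x : (R0 n).R), (R0 n).D i x = 0 := fun _ _ => rfl
    have h4 : ∀ j, M i j * rv ((R0 n).D j a) = 0 := by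
      intro j
      rw [h3]
      exact mul_zero (M i j)
    exact (Finset.sum_eq_zero fun j _ => h4 j).symm
  closed i j k := rfl

end Repl

section Std

variable {k : ℕ}

theorem sum_fin1 {n : ℕ} {M : Type} [AddCommMonoid M] (f : (Fin 1 → Fin n) → M) :
    ∑ K, f K = ∑ a, f ![a] := by
  refine Fintype.sum_equiv (Equiv.funUnique (Fin 1) (Fin n)) _ _ fun K => ?_
  congr 1
  funext s
  rw [Subsingleton.elim s 0]
  rfl

/-- standard data over the reals -/
noncomputable def sd (x : Fd → ℝ) (H : ℕ → Fin (k + 1) → Fin (k + 1) → ℝ) : HD (R0 (k + 1)) where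
  G i j := if i = j then (1 : ℝ) else 0
  Gi i j := if i = j then (1 : ℝ) else 0
  Φ f := match f with
    | Fd.nu => fun K => if K 0 = 0 then (1 : ℝ) else 0
    | Fd.chi => fun _ => x Fd.chi
    | Fd.om j => fun _ => x (Fd.om j)
    | Fd.h j => fun K => H j (K 0) (K 1)
  met := {
    symm := fun i j => by simp only [eq_comm]
    inv := fun i j => by
      show ∑ p, (if i = p then (1 : ℝ) else 0) * (if p = j then (1 : ℝ) else 0) = _
      simp
      rfl }

/-- coordinate changes of standard data -/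
theorem sd_nat {g : Dg Fd} {T : Tn (k + 1) Fd ρF 0} {L : Ln (k + 1) Fd ρF 0}
    (hT : HN Sh g 0 T L) {M N : Fin (k + 1) → Fin (k + 1) → ℝ}
    (h1 : ∀ i j, ∑ k, M i k * N k j = if i = j then 1 else 0)
    (h2 : ∀ i j, ∑ k, N i k * M k j = if i = j then 1 else 0)
    (h0 : ∀ i, M i 0 = if i = 0 then 1 else 0) (c : HD (R0 (k + 1))) (x : Fd → ℝ)
    (hG : ∀ i j, ∑ a, ∑ b, M i a * M j b * rv (c.G a b) = if i = j then 1 else 0)
    (hnu : ∀ K, rv (c.Φ Fd.nu K) = if K 0 = 0 then 1 else 0)
    (hchi : rv (c.Φ Fd.chi ![]) = x Fd.chi) (hom : ∀ j, rv (c.Φ (Fd.om j) ![]) = x (Fd.om j))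
    (H : ℕ → Fin (k + 1) → Fin (k + 1) → ℝ)
    (hH : ∀ m i j, H m i j = ∑ a, ∑ b, M i a * M j b * rv (c.Φ (Fd.h m) ![a, b])) :
    rv (T (R0 (k + 1)) (sd x H) ![]) = rv (T (R0 (k + 1)) c ![]) := by
  refine (HN.nat0 hT (R0_cc h1 h2) c (sd x H) ?_ ?_).trans rfl
  · funext i j
    exact (hG i j).symm
  · intro f I
    cases f with
    | nu =>
      show (if I 0 = 0 then (1 : ℝ) else 0) = ∑ a : Fin 1 → Fin (k + 1), (∏ s, M (I s) (a s))
        * rv (c.Φ Fd.nu a)
      rw [sum_fin1]
      simp only [hnu]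
      simp [h0]
    | chi =>
      show x Fd.chi = ∑ a : Fin 0 → Fin (k + 1), (∏ s, M (I s) (a s)) * rv (c.Φ Fd.chi a)
      rw [Fintype.sum_unique, ← hchi]
      simp only [Finset.univ_eq_empty, Finset.prod_empty, one_mul]
      congr 2
    | om j =>
      show x (Fd.om j) = ∑ a : Fin 0 → Fin (k + 1), (∏ s, M (I s) (a s)) * rv (c.Φ (Fd.om j) a)
      rw [Fintype.sum_unique, ← hom]
      simp only [Finset.univ_eq_empty, Finset.prod_empty, one_mul]
      congr 2
    | h m =>
      show H m (I 0) (I 1) = ∑ a : Fin 2 → Fin (k + 1), (∏ s, M (I s) (a s))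
        * rv (c.Φ (Fd.h m) a)
      rw [sum_fin2, hH]
      refine Finset.sum_congr rfl fun a _ => Finset.sum_congr rfl fun b _ => ?_
      rw [Fin.prod_univ_two]
      rfl

/-- scalars linear in one coefficient, over the reals -/
theorem sd_zero {m : ℕ} {T : Tn (k + 1) Fd ρF 0} {L : Ln (k + 1) Fd ρF 0}
    (hT : HN Sh (Finsupp.single (Fd.h m) 1, 0) 0 T L) (x : Fd → ℝ)
    (h0 : rv (T (R0 (k + 1)) (sd x (fun _ i j => if i = j ∧ i ≠ 0 then 1 else 0)) ![]) = 0)
    (H : ℕ → Fin (k + 1) → Fin (k + 1) → ℝ) (hH0 : ∀ i, H m 0 i = 0) (hH0' : ∀ i, H m i 0 = 0) :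
    rv (T (R0 (k + 1)) (sd x H) ![]) = 0 := by
  classical
  -- the linear functional
  let Ψ : (Fin (k + 1) → Fin (k + 1) → ℝ) → Fl (R0 (k + 1)) Fd ρF := fun H f => match f with
    | Fd.h j => fun K => H (K 0) (K 1)
    | Fd.nu => fun _ => (0 : ℝ)
    | Fd.chi => fun _ => (0 : ℝ)
    | Fd.om _ => fun _ => (0 : ℝ)
  let Λ : (Fin (k + 1) → Fin (k + 1) → ℝ) →ₗ[ℝ] ℝ := {
    toFun := fun H => rv (L (R0 (k + 1)) (sd x 0) (Ψ H) ![])
    map_add' := fun H H' => by
      have h1 := hT.ladd (sd x 0) (Ψ H) (Ψ H') ![]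
      have h2 : (fun j K => Ψ H j K + Ψ H' j K) = Ψ (H + H') := by
        funext f K
        cases f with
        | h j => rfl
        | nu => exact add_zero (0 : ℝ)
        | chi => exact add_zero (0 : ℝ)
        | om j => exact add_zero (0 : ℝ)
      rw [h2] at h1
      exact h1
    map_smul' := fun c H => by
      have h1 := hT.lsmul (sd x 0) c (Ψ H) ![]
      have h2 : (fun j K => c • Ψ H j K) = Ψ (c • H) := by
        funext f K
        cases f with
        | h j => rfl
        | nu => exact mul_zero c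
        | chi => exact mul_zero c
        | om j => exact mul_zero c
      rw [h2] at h1
      exact h1 }
  have hnf : nf ((Finsupp.single (Fd.h m) 1, 0) : Dg Fd) = 1 := nf_single _
  have hΛ : ∀ H : ℕ → Fin (k + 1) → Fin (k + 1) → ℝ,
      rv (T (R0 (k + 1)) (sd x H) ![]) = Λ (H m) := by
    intro H
    have h1 := hT.L1 hnf (sd x 0) (Ψ (H m)) ![]
    have h2 : T (R0 (k + 1)) (sd x H) ![]
        = T (R0 (k + 1)) ((sd x 0).repl Sh (Ψ (H m))) ![] := by
      refine hT.Tcongr (b := sd x H) (b' := (sd x 0).repl Sh (Ψ (H m))) rfl rfl (fun f hf => ?_) _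
      by_cases hS : f ∈ Sh
      · rw [repl_in _ _ hS]
        have h3 := hf hS
        have h4 : f = Fd.h m := by
          by_contra hne
          apply h3
          show (Finsupp.single (Fd.h m) 1) f = 0
          rw [Finsupp.single_apply, if_neg (fun h => hne h.symm)]
        subst h4
        rfl
      · rw [repl_out _ _ hS]
        cases f with
        | h j => exact absurd ⟨j, rfl⟩ hS
        | nu => rfl
        | chi => rfl
        | om j => rfl
    rw [h2]
    exact h1.symm
  have hΛ' : ∀ H : Fin (k + 1) → Fin (k + 1) → ℝ,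
      rv (T (R0 (k + 1)) (sd x (fun _ => H)) ![]) = Λ H := fun H => hΛ (fun _ => H)
  -- basis
  let E : Fin (k + 1) → Fin (k + 1) → Fin (k + 1) → Fin (k + 1) → ℝ :=
    fun i j i' j' => if i' = i ∧ j' = j then 1 else 0
  have hsum : ∀ H : Fin (k + 1) → Fin (k + 1) → ℝ, Λ H = ∑ i, ∑ j, H i j * Λ (E i j) := by
    intro H
    have h1 : H = ∑ i, ∑ j, H i j • E i j := by
      funext i' j'
      simp only [Finset.sum_apply, Pi.smul_apply, smul_eq_mul, E, mul_ite, mul_one, mul_zero]
      rw [Finset.sum_eq_single i', Finset.sum_eq_single j']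
      · simp
      · intro j _ hj
        rw [if_neg]
        rintro ⟨_, h⟩
        exact hj h.symm
      · simp
      · intro i _ hi
        refine Finset.sum_eq_zero fun j _ => ?_
        rw [if_neg]
        rintro ⟨h, _⟩
        exact hi h.symm
      · simp
    conv_lhs => rw [h1]
    simp only [map_sum, map_smul, smul_eq_mul]
  -- reflections
  have hrefl : ∀ (s : Fin (k + 1) → ℝ), (∀ i, s i * s i = 1) → s 0 = 1 →
      ∀ H : Fin (k + 1) → Fin (k + 1) → ℝ, Λ (fun i j => s i * s j * H i j) = Λ H := by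
    intro s hs hs0 H
    rw [← hΛ', ← hΛ']
    have hmm : ∀ i j, ∑ k, (if i = k then s i else 0) * (if k = j then s k else 0)
        = if i = j then (1 : ℝ) else 0 := by
      intro i j
      simp only [ite_mul, zero_mul, Finset.sum_ite_eq, Finset.mem_univ, if_true]
      by_cases hij : i = j
      · rw [if_pos hij, if_pos hij, hs]
      · rw [if_neg hij, if_neg hij, mul_zero]
    refine sd_nat hT (M := fun i j => if i = j then s i else 0)
      (N := fun i j => if i = j then s i else 0) hmm hmm ?_ (sd x (fun _ => H)) x ?_ (fun _ => rfl)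
      rfl (fun _ => rfl) _ ?_
    · intro i
      by_cases hi : i = 0
      · rw [if_pos hi, if_pos hi, hi, hs0]
      · rw [if_neg hi, if_neg hi]
    · intro i j
      show ∑ a, ∑ b, (if i = a then s i else 0) * (if j = b then s j else 0)
        * (if a = b then (1 : ℝ) else 0) = _
      simp only [mul_ite, mul_one, mul_zero, Finset.sum_ite_eq, Finset.mem_univ, if_true]
      have := hmm i j
      simp only [ite_mul, zero_mul, mul_ite, mul_zero, Finset.sum_ite_eq, Finset.mem_univ, if_true]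
      by_cases hij : i = j
      · subst hij
        simp [hs]
      · rw [if_neg hij, if_neg hij]
    · intro _ i j
      show s i * s j * H i j = ∑ a, ∑ b, (if i = a then s i else 0) * (if j = b then s j else 0)
        * H a b
      simp only [mul_ite, ite_mul, mul_zero, zero_mul, Finset.sum_ite_eq, Finset.mem_univ, if_true]
  -- permutations
  have hperm : ∀ (σ : Equiv.Perm (Fin (k + 1))), σ 0 = 0 →
      ∀ H : Fin (k + 1) → Fin (k + 1) → ℝ, Λ (fun i j => H (σ i) (σ j)) = Λ H := by
    intro σ hσ H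
    rw [← hΛ', ← hΛ']
    refine sd_nat hT (M := fun i j => if σ i = j then 1 else 0)
      (N := fun i j => if σ j = i then 1 else 0) ?_ ?_ ?_ (sd x (fun _ => H)) x ?_ (fun _ => rfl)
      rfl (fun _ => rfl) _ ?_
    · intro i j
      simp only [ite_mul, one_mul, zero_mul, Finset.sum_ite_eq, Finset.mem_univ, if_true]
      by_cases hij : i = j
      · rw [if_pos hij, if_pos (by rw [hij])]
      · rw [if_neg hij, if_neg (fun h => hij (σ.injective h).symm)]
    · intro i j
      rw [Finset.sum_eq_single (σ.symm i)]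
      · simp
      · intro l _ hl
        rw [if_neg, zero_mul]
        intro h
        exact hl (by rw [← h, Equiv.symm_apply_apply])
      · simp
    · intro i
      by_cases hi : i = 0
      · rw [if_pos hi, if_pos (by rw [hi, hσ])]
      · rw [if_neg hi, if_neg]
        intro h
        exact hi (σ.injective (h.trans hσ.symm))
    · intro i j
      show ∑ a, ∑ b, (if σ i = a then (1 : ℝ) else 0) * (if σ j = b then (1 : ℝ) else 0)
        * (if a = b then (1 : ℝ) else 0) = _
      simp only [mul_ite, mul_one, mul_zero, Finset.sum_ite_eq, Finset.mem_univ, if_true]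
      by_cases hij : i = j
      · rw [if_pos hij, if_pos (by rw [hij])]
      · rw [if_neg hij, if_neg (fun h => hij (σ.injective h))]
    · intro _ i j
      show H (σ i) (σ j) = ∑ a, ∑ b, (if σ i = a then (1 : ℝ) else 0)
        * (if σ j = b then (1 : ℝ) else 0) * H a b
      simp only [mul_ite, ite_mul, one_mul, mul_one, mul_zero, zero_mul, Finset.sum_ite_eq,
        Finset.mem_univ, if_true]
  have hoff : ∀ i j, i ≠ 0 → j ≠ i → Λ (E i j) = 0 := by
    intro i j hi hij
    have h1 := hrefl (fun l => if l = i then -1 else 1) (fun l => by split_ifs <;> norm_num)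
      (if_neg (fun h => hi h.symm)) (E i j)
    have h2 : (fun i' j' => (if i' = i then (-1 : ℝ) else 1) * (if j' = i then (-1 : ℝ) else 1)
        * E i j i' j') = (-1 : ℝ) • E i j := by
      funext i' j'
      show _ * (if i' = i ∧ j' = j then (1 : ℝ) else 0)
        = -1 * (if i' = i ∧ j' = j then (1 : ℝ) else 0)
      by_cases h : i' = i ∧ j' = j
      · rw [if_pos h, if_pos h.1, if_neg (by rw [h.2]; exact hij)]
        norm_num
      · rw [if_neg h, mul_zero, mul_zero]
    rw [h2, map_smul, smul_eq_mul] at h1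
    linarith
  have hdiag : ∀ i j, i ≠ 0 → j ≠ 0 → Λ (E i i) = Λ (E j j) := by
    intro i j hi hj
    have h1 := hperm (Equiv.swap i j) (Equiv.swap_apply_of_ne_of_ne hi.symm hj.symm) (E i i)
    rw [← h1]
    congr 1
    funext i' j'
    show (if Equiv.swap i j i' = i ∧ Equiv.swap i j j' = i then (1 : ℝ) else 0)
      = if i' = j ∧ j' = j then (1 : ℝ) else 0
    have h2 : ∀ l, Equiv.swap i j l = i ↔ l = j := by
      intro l
      rw [Equiv.swap_apply_eq_iff, Equiv.swap_apply_left]
    simp only [h2]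
  have hform : ∀ H : Fin (k + 1) → Fin (k + 1) → ℝ, (∀ i, H 0 i = 0) → (∀ i, H i 0 = 0) →
      Λ H = ∑ i, H i i * (if i = 0 then 0 else Λ (E i i)) := by
    intro H ha hb
    rw [hsum]
    refine Finset.sum_congr rfl fun i _ => ?_
    by_cases hi : i = 0
    · subst hi
      simp [ha]
    · rw [if_neg hi, Finset.sum_eq_single i]
      · intro j _ hj
        rw [hoff i j hi hj, mul_zero]
      · simp
  have hz : ∀ i, i ≠ 0 → Λ (E i i) = 0 := by
    intro i hi
    have h1 : Λ (fun i j => if i = j ∧ i ≠ 0 then 1 else 0) = 0 := by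
      rw [← hΛ']
      exact h0
    rw [hform _ (fun i => by simp) (fun i => by
      by_cases h : i = 0
      · simp [h]
      · simp [h])] at h1
    have h2 : ∀ j : Fin (k + 1), (if j = j ∧ j ≠ 0 then (1 : ℝ) else 0)
        * (if j = 0 then 0 else Λ (E j j)) = if j = 0 then 0 else Λ (E i i) := by
      intro j
      by_cases hj : j = 0
      · simp [hj]
      · rw [if_neg hj, if_pos ⟨rfl, hj⟩, if_neg hj, one_mul, hdiag j i hj hi]
    rw [Finset.sum_congr rfl fun j _ => h2 j] at h1
    have h3 : ∑ j : Fin (k + 1), (if j = 0 then (0 : ℝ) else Λ (E i i)) = k * Λ (E i i) := by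
      rw [Fin.sum_univ_succ]
      simp
    rw [h3] at h1
    have hk : (k : ℝ) ≠ 0 := by
      have : 0 < k := by
        rcases Nat.eq_zero_or_pos k with h | h
        · subst h
          exact absurd (Fin.ext (by omega)) hi
        · exact h
      exact_mod_cast this.ne'
    exact (mul_eq_zero.mp h1).resolve_left hk
  rw [hΛ, hform _ hH0 hH0']
  refine Finset.sum_eq_zero fun i _ => ?_
  by_cases hi : i = 0
  · rw [if_pos hi, mul_zero]
  · rw [if_neg hi, hz i hi, mul_zero]

end Std

end Run7.h96.Hy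

end

section

/-!
The component linear in the top coefficient, second part.
-/

set_option linter.all false
set_option maxHeartbeats 400000

open scoped BigOperators MatrixOrder

namespace Run7.h96.Hy

open CInv

theorem exJ {k : ℕ} (A : Matrix (Fin k) (Fin k) ℝ) (hA : A.PosDef) :
    ∃ J K : Matrix (Fin k) (Fin k) ℝ, J * A * J.transpose = 1 ∧ J * K = 1 ∧ K * J = 1 := by
  set B := CFC.sqrt A with hB
  have hA0 : (0 : Matrix (Fin k) (Fin k) ℝ) ≤ A := Matrix.nonneg_iff_posSemidef.mpr hA.posSemidef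
  have h1 : B * B = A := CFC.sqrt_mul_sqrt_self A hA0
  have h2 : (0 : Matrix (Fin k) (Fin k) ℝ) ≤ B := CFC.sqrt_nonneg A
  have h3 : B.transpose = B := by
    have := (Matrix.nonneg_iff_posSemidef.mp h2).isHermitian
    have h4 := this.eq
    rwa [Matrix.conjTranspose_eq_transpose_of_trivial] at h4
  have hdet : IsUnit B.det := by
    have h5 := hA.det_pos
    rw [← h1, Matrix.det_mul] at h5
    rw [isUnit_iff_ne_zero]
    intro h
    rw [h] at h5
    simp at h5
  have h6 : B * B⁻¹ = 1 := Matrix.mul_nonsing_inv B hdet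
  have h7 : B⁻¹ * B = 1 := Matrix.nonsing_inv_mul B hdet
  refine ⟨B⁻¹, B, ?_, h7, h6⟩
  rw [Matrix.transpose_nonsing_inv, h3, ← h1, ← Matrix.mul_assoc, h7, Matrix.one_mul, h6]

variable {k : ℕ}

/-- the leading coefficient of an infinitesimal conformal change -/
theorem cf_dl_top {X : DR (k + 1)} (b : HD X) {ω : X.ps.R} {N : ℕ} (hω : O N ω) (i j : Fin k) :
    cf N (dl b ω i.succ j.succ) = 2 * (cf N ω * b.G i.succ j.succ) := by
  have h1 : ∀ i j, O N (2 * ω * gX b i j) := fun i j => O.mul_right _ (O.mul_left _ hω)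
  have hV : ∀ c, O (N + 1) (gfV b (fun i j => 2 * ω * gX b i j) c) := fun c => gfV_O' h1 c
  have h2 : O (N + 1) (lie X.ps.D (gfV b (fun i j => 2 * ω * gX b i j)) (gX b) i.succ j.succ) := by
    unfold lie
    exact ((O.sum _ fun a _ => O.mul_right _ (hV a)).add
      (O.sum _ fun a _ => O.mul_right _ ((hV a).ds i))).add
      (O.sum _ fun a _ => O.mul_right _ ((hV a).ds j))
  show cf N (2 * ω * gX b i.succ j.succ + _) = _
  rw [cf_add, h2 N (by omega), add_zero]
  have h3 := O.cf_mul (M := N) (N := 0) (F := 2 * ω) (G := gX b i.succ j.succ) (O.mul_left _ hω)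
    (O.zero' _)
  rw [add_zero] at h3
  rw [h3]
  have h4 : (2 : X.ps.R) * ω = ω + ω := by ring
  rw [h4, cf_add, cf_gX]
  show (cf N ω + cf N ω) * b.G i.succ j.succ = _
  ring

/-- the trace variation -/
noncomputable def gt {X : DR (k + 1)} (b : HD X) : Fl X Fd ρF := fun f => match f with
  | Fd.h _ => fun K => b.G (K 0) (K 1) - (if K 0 = 0 ∧ K 1 = 0 then 1 else 0)
  | Fd.nu => fun _ => 0
  | Fd.chi => fun _ => 0
  | Fd.om _ => fun _ => 0

/-- block matrices -/
def blk {R : Type} [Zero R] [One R] (M : Fin k → Fin k → R) (i j : Fin (k + 1)) : R :=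
  Fin.cases (motive := fun _ => R) (Fin.cases (motive := fun _ => R) 1 (fun _ => 0) j)
    (fun a => Fin.cases (motive := fun _ => R) 0 (fun b => M a b) j) i

theorem blk00 {R : Type} [Zero R] [One R] (M : Fin k → Fin k → R) : blk M 0 0 = 1 := rfl
theorem blk0s {R : Type} [Zero R] [One R] (M : Fin k → Fin k → R) (j : Fin k) :
    blk M 0 j.succ = 0 := rfl
theorem blks0 {R : Type} [Zero R] [One R] (M : Fin k → Fin k → R) (j : Fin k) :
    blk M j.succ 0 = 0 := rfl
theorem blkss {R : Type} [Zero R] [One R] (M : Fin k → Fin k → R) (i j : Fin k) :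
    blk M i.succ j.succ = M i j := rfl

theorem blk_mul {M N : Fin k → Fin k → ℝ}
    (h : ∀ i j, ∑ l, M i l * N l j = if i = j then 1 else 0) (i j : Fin (k + 1)) :
    ∑ l, blk M i l * blk N l j = if i = j then 1 else 0 := by
  rw [Fin.sum_univ_succ]
  refine Fin.cases ?_ (fun i => ?_) i <;> refine Fin.cases ?_ (fun j => ?_) j
  · simp [blk00, blk0s]
  · simp only [blk00, blk0s, one_mul, zero_mul, Finset.sum_const_zero, add_zero]
    rw [if_neg (Fin.succ_ne_zero j).symm]
  · simp only [blks0, blkss, zero_mul, mul_zero, Finset.sum_const_zero, add_zero]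
    rw [if_neg (Fin.succ_ne_zero i)]
  · simp only [blks0, blkss, zero_mul, zero_add, h, Fin.succ_inj]

/-- vanishing over the reals at every point gives vanishing -/
theorem stage1 {A : DR (k + 1)} (J : Intg A) {m : ℕ} {T : Tn (k + 1) Fd ρF 0}
    {L : Ln (k + 1) Fd ρF 0} (hT : HN Sh (Finsupp.single (Fd.h m) 1, 0) 0 T L)
    (hq : ∀ b : HD A, Fer b → J.P b.G → T A (b.repl Sh (gt b)) ![] = 0)
    (b : HD A) (hb : Fer b) (hP : J.P b.G) : T A b ![] = 0 := by
  classical
  refine J.sep _ fun p => ?_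
  set θ : A.R →ₐ[ℝ] (R0 (k + 1)).R := J.ev p with hθ
  set c : HD (R0 (k + 1)) := BD.map (Y := R0 (k + 1)) θ b with hc
  have hpos := J.pos b.G hP p
  have hpos' : (Matrix.of fun i j : Fin k => J.ev p (b.G i.succ j.succ)).PosDef :=
    hpos.submatrix (Fin.succ_injective k)
  obtain ⟨J', K', h1, h2, h3⟩ := exJ _ hpos'
  set M := blk (R := ℝ) (fun i j => J' i j) with hM
  set N := blk (R := ℝ) (fun i j => K' i j) with hN
  have hMN : ∀ i j, ∑ l, M i l * N l j = if i = j then 1 else 0 := by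
    refine blk_mul fun i j => ?_
    have := congrFun (congrFun h2 i) j
    rw [Matrix.mul_apply, Matrix.one_apply] at this
    exact this
  have hNM : ∀ i j, ∑ l, N i l * M l j = if i = j then 1 else 0 := by
    refine blk_mul fun i j => ?_
    have := congrFun (congrFun h3 i) j
    rw [Matrix.mul_apply, Matrix.one_apply] at this
    exact this
  have hM0 : ∀ i, M i 0 = if i = 0 then 1 else 0 := by
    intro i
    refine Fin.cases ?_ (fun i => ?_) i
    · rw [if_pos rfl]; exact blk00 _
    · rw [if_neg (Fin.succ_ne_zero i)]; exact blks0 _ i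
  have cG00 : rv (c.G 0 0) = 1 := by
    show rv (θ (b.G 0 0)) = 1
    rw [hb.g00, map_one]; rfl
  have cG0s : ∀ a : Fin k, rv (c.G 0 a.succ) = 0 := by
    intro a
    show rv (θ (b.G 0 a.succ)) = 0
    rw [hb.g0, map_zero]; rfl
  have cGs0 : ∀ a : Fin k, rv (c.G a.succ 0) = 0 := by
    intro a
    rw [c.symm]; exact cG0s a
  have hG : ∀ i j, ∑ a, ∑ b, M i a * M j b * rv (c.G a b) = if i = j then 1 else 0 := by
    intro i j
    rw [Fin.sum_univ_succ, Fin.sum_univ_succ]
    simp only [cG00, cG0s, mul_one, mul_zero, Finset.sum_const_zero, add_zero]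
    have e1 : ∀ a : Fin k, ∑ b, M i a.succ * M j b * rv (c.G a.succ b)
        = ∑ b : Fin k, M i a.succ * M j b.succ * rv (c.G a.succ b.succ) := by
      intro a
      rw [Fin.sum_univ_succ, cGs0, mul_zero, zero_add]
    simp only [e1]
    refine Fin.cases ?_ (fun i => ?_) i <;> refine Fin.cases ?_ (fun j => ?_) j
    · simp [hM, blk00, blk0s]
    · simp only [hM, blk00, blk0s, blks0, mul_zero, zero_mul, Finset.sum_const_zero, add_zero]
      rw [if_neg (Fin.succ_ne_zero j).symm]
    · simp only [hM, blk00, blk0s, blks0, mul_zero, zero_mul, Finset.sum_const_zero, add_zero]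
      rw [if_neg (Fin.succ_ne_zero i)]
    · simp only [hM, blks0, blkss, mul_zero, zero_mul, zero_add, Fin.succ_inj]
      have h4 := congrFun (congrFun h1 i) j
      rw [Matrix.mul_apply, Matrix.one_apply] at h4
      rw [← h4]
      simp only [Matrix.mul_apply, Matrix.transpose_apply, Matrix.of_apply, Finset.sum_mul]
      rw [Finset.sum_comm]
      refine Finset.sum_congr rfl fun a _ => Finset.sum_congr rfl fun b' _ => ?_
      show J' i b' * J' j a * J.ev p (b.G b'.succ a.succ) = J' i b' * J.ev p (b.G b'.succ a.succ) * J' j a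
      ring
  set x : Fd → ℝ := fun f => match f with
    | Fd.chi => rv (c.Φ Fd.chi ![])
    | Fd.om j => rv (c.Φ (Fd.om j) ![])
    | Fd.nu => 0
    | Fd.h _ => 0 with hx
  have hnu : ∀ K, rv (c.Φ Fd.nu K) = if K 0 = 0 then 1 else 0 := by
    intro K
    show rv (θ (b.Φ Fd.nu K)) = _
    rw [hb.nu]
    split_ifs
    · rw [map_one]; rfl
    · rw [map_zero]; rfl
  have hmain := sd_nat hT hMN hNM hM0 c x hG hnu rfl (fun _ => rfl)
    (fun m i j => ∑ a, ∑ b, M i a * M j b * rv (c.Φ (Fd.h m) ![a, b])) (fun _ _ _ => rfl)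
  have hTc : T (R0 (k + 1)) c ![] = θ (T A b ![]) := hT.mapA rfl (Y := R0 (k + 1)) θ b ![]
  -- the trace data
  have hTr : rv (T (R0 (k + 1)) (sd x (fun _ i j => if i = j ∧ i ≠ 0 then 1 else 0)) ![]) = 0 := by
    set c' := c.repl Sh (gt c) with hc'
    have h5 := sd_nat hT hMN hNM hM0 c' x hG (fun K => by
      show rv ((c.repl Sh (gt c)).Φ Fd.nu K) = _
      rw [repl_out _ _ (by rintro ⟨j, hj⟩; cases hj)]
      exact hnu K) (by
      show rv ((c.repl Sh (gt c)).Φ Fd.chi ![]) = _
      rw [repl_out _ _ (by rintro ⟨j, hj⟩; cases hj)]) (fun j => by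
      show rv ((c.repl Sh (gt c)).Φ (Fd.om j) ![]) = _
      rw [repl_out _ _ (by rintro ⟨j, hj⟩; cases hj)])
      (fun _ i j => if i = j ∧ i ≠ 0 then 1 else 0) (by
      intro m' i j
      have e1 : ∀ a b', rv (c'.Φ (Fd.h m') ![a, b']) = rv (c.G a b')
          - (if a = 0 then 1 else 0) * (if b' = 0 then 1 else 0) := by
        intro a b'
        show rv ((c.repl Sh (gt c)).Φ (Fd.h m') ![a, b']) = _
        rw [repl_in _ _ (show Fd.h m' ∈ Sh from ⟨m', rfl⟩)]
        show rv (c.G a b' - (if a = 0 ∧ b' = 0 then 1 else 0)) = _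
        by_cases ha : a = 0
        · by_cases hb' : b' = 0
          · rw [if_pos ⟨ha, hb'⟩, if_pos ha, if_pos hb', mul_one]; rfl
          · rw [if_neg (fun h => hb' h.2), if_neg hb', mul_zero]; rfl
        · rw [if_neg (fun h => ha h.1), if_neg ha, zero_mul]; rfl
      simp only [e1, mul_sub, Finset.sum_sub_distrib, hG]
      have e2 : ∑ a, ∑ b', M i a * M j b' * ((if a = 0 then 1 else 0) * (if b' = 0 then 1 else 0))
          = M i 0 * M j 0 := by
        rw [Finset.sum_eq_single 0, Finset.sum_eq_single 0]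
        · simp
        · intro b' _ hb'
          rw [if_neg hb', mul_zero, mul_zero]
        · simp
        · intro a _ ha
          refine Finset.sum_eq_zero fun b' _ => ?_
          rw [if_neg ha, zero_mul, mul_zero]
        · simp
      rw [e2, hM0, hM0]
      by_cases hi : i = 0
      · by_cases hj : j = 0
        · rw [if_neg (fun h => h.2 hi), if_pos (hi.trans hj.symm), if_pos hi, if_pos hj]
          norm_num
        · rw [if_neg (fun h => h.2 hi), if_neg (fun h : i = j => hj (h.symm.trans hi)), if_pos hi, if_neg hj]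
          norm_num
      · rw [if_neg hi, zero_mul, sub_zero]
        by_cases hij : i = j
        · rw [if_pos ⟨hij, hi⟩, if_pos hij]
        · rw [if_neg (fun h => hij h.1), if_neg hij])
    rw [h5]
    have h6 : c' = BD.map (Y := R0 (k + 1)) θ (b.repl Sh (gt b)) := by
      refine BD.ext' rfl rfl ?_
      funext f K
      by_cases hf : f ∈ Sh
      · obtain ⟨j, rfl⟩ := hf
        show (c.repl Sh (gt c)).Φ (Fd.h j) K = θ ((b.repl Sh (gt b)).Φ (Fd.h j) K)
        rw [repl_in _ _ (show Fd.h j ∈ Sh from ⟨j, rfl⟩), repl_in _ _ (show Fd.h j ∈ Sh from ⟨j, rfl⟩)]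
        show c.G (K 0) (K 1) - (if K 0 = 0 ∧ K 1 = 0 then 1 else 0)
          = θ (b.G (K 0) (K 1) - (if K 0 = 0 ∧ K 1 = 0 then 1 else 0))
        rw [map_sub]
        congr 1
        split_ifs
        · exact (map_one θ).symm
        · exact (map_zero θ).symm
      · show (c.repl Sh (gt c)).Φ f K = θ ((b.repl Sh (gt b)).Φ f K)
        rw [repl_out _ _ hf, repl_out _ _ hf]
        rfl
    have h7 : T (R0 (k + 1)) c' ![] = θ (T A (b.repl Sh (gt b)) ![]) := by
      rw [h6]
      exact hT.mapA rfl (Y := R0 (k + 1)) θ _ ![]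
    rw [h7, hq b hb hP, map_zero]
    rfl
  have hPhi0 : ∀ b', rv (c.Φ (Fd.h m) ![0, b']) = 0 := by
    intro b'
    show rv (θ (b.Φ (Fd.h m) ![0, b'])) = 0
    rw [hb.h0, map_zero]; rfl
  have hPhi0' : ∀ b', rv (c.Φ (Fd.h m) ![b', 0]) = 0 := by
    intro b'
    show rv (θ (b.Φ (Fd.h m) ![b', 0])) = 0
    rw [hb.hs, hb.h0, map_zero]; rfl
  have hM0r : ∀ a : Fin k, M 0 a.succ = 0 := fun a => rfl
  have hz := sd_zero hT x hTr
    (fun m i j => ∑ a, ∑ b, M i a * M j b * rv (c.Φ (Fd.h m) ![a, b]))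
    (fun i => by
      show ∑ a, ∑ b', M 0 a * M i b' * rv (c.Φ (Fd.h m) ![a, b']) = 0
      rw [Fin.sum_univ_succ]
      simp [hPhi0, hM0r])
    (fun i => by
      show ∑ a, ∑ b', M i a * M 0 b' * rv (c.Φ (Fd.h m) ![a, b']) = 0
      refine Finset.sum_eq_zero fun a _ => ?_
      rw [Fin.sum_univ_succ]
      simp [hPhi0', hM0r])
  rw [hmain, hTc] at hz
  exact hz

/-- infinitesimal version -/
theorem stage2 {A : DR (k + 1)} (J : Intg A) {m : ℕ} {T : Tn (k + 1) Fd ρF 0}
    {L : Ln (k + 1) Fd ρF 0} (hT : HN Sh (Finsupp.single (Fd.h m) 1, 0) 0 T L)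
    (hz : ∀ b : HD A, Fer b → J.P b.G → T A b ![] = 0)
    (b : HD A) (hb : Fer b) (hP : J.P b.G) (ω : A.ps.R) : sn (T A.dual (cb b ω) ![]) = 0 := by
  classical
  set Z := A.dual.fl with hZ
  set c : HD Z := flb (cb b ω) with hc
  -- the compensating variation
  let Ψ : Fl A Fd ρF := fun f => match f with
    | Fd.h j => fun K => toFl (dl b ω) (Fd.h j) K - 2 * (cf 0 ω * b.Φ (Fd.h j) K)
    | Fd.nu => fun _ => 0
    | Fd.chi => fun _ => 0
    | Fd.om _ => fun _ => 0
  set b' : HD Z := flb (b.vary Sh Ψ) with hb'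
  let s : Fin (k + 1) → A.dual.R := fun i => if i = 0 then 1 else 1 - eps (cf 0 ω)
  let s' : Fin (k + 1) → A.dual.R := fun i => if i = 0 then 1 else 1 + eps (cf 0 ω)
  have hss : ∀ i, s i * s' i = 1 := by
    intro i
    by_cases hi : i = 0
    · show (if i = 0 then (1 : A.dual.R) else 1 - eps (cf 0 ω))
        * (if i = 0 then (1 : A.dual.R) else 1 + eps (cf 0 ω)) = 1
      rw [if_pos hi, if_pos hi, mul_one]
    · show (if i = 0 then (1 : A.dual.R) else 1 - eps (cf 0 ω))
        * (if i = 0 then (1 : A.dual.R) else 1 + eps (cf 0 ω)) = 1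
      rw [if_neg hi, if_neg hi]
      apply dual_ext <;> simp
  let M : Fin (k + 1) → Fin (k + 1) → A.dual.R := fun i j => if i = j then s i else 0
  let N : Fin (k + 1) → Fin (k + 1) → A.dual.R := fun i j => if i = j then s' i else 0
  have hcc : CoordChange Z.D Z.D (RingHom.id Z.R) M N := {
    smul := fun _ _ => rfl
    jk := fun i j => by
      show ∑ l, (if i = l then s i else 0) * (if l = j then s' l else 0) = _
      simp only [ite_mul, zero_mul, Finset.sum_ite_eq, Finset.mem_univ, if_true]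
      by_cases hij : i = j
      · rw [if_pos hij, hss]
        exact (if_pos hij).symm
      · rw [if_neg hij, mul_zero]
        exact (if_neg hij).symm
    kj := fun i j => by
      show ∑ l, (if i = l then s' i else 0) * (if l = j then s l else 0) = _
      simp only [ite_mul, zero_mul, Finset.sum_ite_eq, Finset.mem_univ, if_true]
      by_cases hij : i = j
      · rw [if_pos hij, mul_comm, hss]
        exact (if_pos hij).symm
      · rw [if_neg hij, mul_zero]
        exact (if_neg hij).symm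
    der := fun i a => by
      have h3 : ∀ (i : Fin (k + 1)) (x : Z.R), Z.D i x = 0 := fun _ _ => rfl
      rw [h3]
      refine (Finset.sum_eq_zero fun j _ => ?_).symm
      show (show Z.R from M i j) * Z.D j a = 0
      rw [h3]
      exact mul_zero _
    closed := fun i j k => rfl }
  have hpull : ∀ (F : Fin (k + 1) → Fin (k + 1) → A.dual.R) i j,
      pull (RingHom.id Z.R) M F i j = s i * s j * F i j := by
    intro F i j
    show ∑ a, ∑ b, (if i = a then s i else 0) * (if j = b then s j else 0) * F a b = _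
    simp only [mul_ite, ite_mul, mul_zero, zero_mul, Finset.sum_ite_eq, Finset.mem_univ, if_true]
  have hssG : ∀ i j (u v : A.R), (i ≠ 0 → j ≠ 0 → True) → ((i = 0 ∨ j = 0) → v = 0 ∧
      ((i = 0 ∧ j = 0) ∨ u = 0)) →
      s i * s j * ((inlH A).f u + eps v) = (inlH A).f u + eps (if i = 0 ∨ j = 0 then 0
        else v - 2 * (cf 0 ω * u)) := by
    intro i j u v _ hz'
    by_cases hi : i = 0
    · obtain ⟨hv, hu⟩ := hz' (Or.inl hi)
      rw [if_pos (Or.inl hi), hv]
      by_cases hj : j = 0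
      · have e1 : s i = 1 := if_pos hi
        have e2 : s j = 1 := if_pos hj
        rw [e1, e2, one_mul, one_mul]
      · have hu' : u = 0 := by
          rcases hu with h | h
          · exact absurd h.2 hj
          · exact h
        rw [hu']
        apply dual_ext <;> simp
    · by_cases hj : j = 0
      · obtain ⟨hv, hu⟩ := hz' (Or.inr hj)
        rw [if_pos (Or.inr hj), hv]
        have hu' : u = 0 := by
          rcases hu with h | h
          · exact absurd h.1 hi
          · exact h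
        rw [hu']
        apply dual_ext <;> simp
      · have e1 : s i = 1 - eps (cf 0 ω) := if_neg hi
        have e2 : s j = 1 - eps (cf 0 ω) := if_neg hj
        rw [e1, e2, if_neg (by rintro (h | h); exacts [hi h, hj h])]
        apply dual_ext
        · simp [fs_inl]
        · simp only [sn_mul, fs_mul, fs_add, sn_add, fs_sub, sn_sub, fs_one, sn_one, fs_eps,
            sn_eps, fs_inl, sn_inl]
          ring
  have hdl0 : ∀ m i, cf m (dl b ω 0 i) = 0 := fun m i => by rw [dl_zero hb, cf_zero]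
  have hdl0' : ∀ m i, cf m (dl b ω i 0) = 0 := fun m i => by rw [dl_symm hb, hdl0]
  have key := HN.nat0 hT hcc c b' ?_ ?_
  · have e1 : T Z c ![] = T A.dual (cb b ω) ![] :=
      hT.mapA rfl (Y := Z) (AlgHom.id ℝ A.dual.R : A.dual.R →ₐ[ℝ] A.dual.fl.R) (cb b ω) ![]
    have e2 : T Z b' ![] = T A.dual (b.vary Sh Ψ) ![] :=
      hT.mapA rfl (Y := Z) (AlgHom.id ℝ A.dual.R : A.dual.R →ₐ[ℝ] A.dual.fl.R) (b.vary Sh Ψ) ![]
    have e3 : T A.dual (cb b ω) ![] = T A.dual (b.vary Sh Ψ) ![] := by
      rw [← e1, ← e2]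
      exact key.symm
    rw [e3, (hT.dual b Ψ ![]).2, hT.L1 (nf_single _)]
    refine hz _ ?_ hP
    refine { d0 := hb.d0, g00 := hb.g00, g0 := hb.g0, nu := ?_, h0 := ?_, hs := ?_ }
    · intro K
      rw [repl_out _ _ (by rintro ⟨j, hj⟩; cases hj)]
      exact hb.nu K
    · intro j i
      rw [repl_in _ _ (show Fd.h j ∈ Sh from ⟨j, rfl⟩)]
      show cf (j + 1) (dl b ω 0 i) - 2 * (cf 0 ω * b.Φ (Fd.h j) ![0, i]) = 0
      rw [hdl0, hb.h0, mul_zero, mul_zero, sub_zero]
    · intro j i i'
      rw [repl_in _ _ (show Fd.h j ∈ Sh from ⟨j, rfl⟩)]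
      show cf (j + 1) (dl b ω i i') - 2 * (cf 0 ω * b.Φ (Fd.h j) ![i, i'])
        = cf (j + 1) (dl b ω i' i) - 2 * (cf 0 ω * b.Φ (Fd.h j) ![i', i])
      rw [dl_symm hb, hb.hs]
  · funext i j
    refine Eq.trans ?_ (hpull c.G i j).symm
    show (inlH A).f (b.G i j) = s i * s j * ((inlH A).f (b.G i j)
      + eps ((1 / 2 : ℝ) • (cf 0 (dl b ω i j) + cf 0 (dl b ω j i))))
    rw [hssG i j _ _ (fun _ _ => trivial)]
    · by_cases h0 : i = 0 ∨ j = 0
      · rw [if_pos h0]
        apply dual_ext <;> simp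
      · rw [if_neg h0]
        push Not at h0
        obtain ⟨i', rfl⟩ := Fin.exists_succ_eq.mpr h0.1
        obtain ⟨j', rfl⟩ := Fin.exists_succ_eq.mpr h0.2
        rw [dl_symm hb ω j'.succ i'.succ, cf_dl_top b (O.zero' ω)]
        have : (1 / 2 : ℝ) • (2 * (cf 0 ω * b.G i'.succ j'.succ) + 2 * (cf 0 ω * b.G i'.succ j'.succ))
            - 2 * (cf 0 ω * b.G i'.succ j'.succ) = 0 := by
          rw [← two_smul ℝ (2 * (cf 0 ω * b.G i'.succ j'.succ)), smul_smul]
          norm_num
        rw [this]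
        apply dual_ext <;> simp
    · intro h0
      rcases h0 with h0 | h0
      · subst h0
        rw [hdl0, hdl0', add_zero, smul_zero]
        refine ⟨rfl, ?_⟩
        refine Fin.cases ?_ (fun j' => ?_) j
        · exact Or.inl ⟨rfl, rfl⟩
        · exact Or.inr (hb.g0 j')
      · subst h0
        rw [hdl0, hdl0', add_zero, smul_zero]
        refine ⟨rfl, ?_⟩
        refine Fin.cases ?_ (fun j' => ?_) i
        · exact Or.inl ⟨rfl, rfl⟩
        · right
          rw [b.symm]
          exact hb.g0 j'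
  · intro f I
    cases f with
    | nu =>
      show (b.vary Sh Ψ).Φ Fd.nu I = ∑ a : Fin 1 → Fin (k + 1), (∏ l, M (I l) (a l))
        * (cb b ω).Φ Fd.nu a
      rw [sum_fin1, vary_nh b _ Fd.nu (by rintro ⟨j, hj⟩; cases hj)]
      have e1 : ∀ a, (cb b ω).Φ Fd.nu ![a] = (inlH A).f (if a = 0 then 1 else 0) := by
        intro a
        have h1 : (cb b ω).Φ Fd.nu ![a] = (inlH A).f (b.Φ Fd.nu ![a]) + eps 0 := rfl
        rw [h1, hb.nu]
        apply dual_ext <;> simp
      simp only [e1, hb.nu]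
      rw [Finset.sum_eq_single 0]
      · simp only [Finset.univ_unique, Fin.default_eq_zero, Finset.prod_singleton, if_true,
          map_one, mul_one]
        show _ = (if I 0 = 0 then s (I 0) else 0)
        by_cases h0 : I 0 = 0
        · rw [if_pos h0, if_pos h0, map_one]
          exact (if_pos h0).symm
        · rw [if_neg h0, if_neg h0, map_zero]
      · intro a _ ha
        rw [if_neg ha, map_zero, mul_zero]
      · simp
    | chi =>
      show (b.vary Sh Ψ).Φ Fd.chi I = ∑ a : Fin 0 → Fin (k + 1), (∏ l, M (I l) (a l))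
        * (cb b ω).Φ Fd.chi a
      rw [Fintype.sum_unique, vary_nh b _ Fd.chi (by rintro ⟨j, hj⟩; cases hj)]
      simp only [Finset.univ_eq_empty, Finset.prod_empty, one_mul]
      show _ = (inlH A).f (b.Φ Fd.chi _) + eps 0
      have h0 : (eps (0 : A.R) : A.dual.R) = 0 := rfl
      rw [h0, add_zero]
      refine congrArg _ (congrArg _ ?_)
      exact funext fun l => l.elim0
    | om j =>
      show (b.vary Sh Ψ).Φ (Fd.om j) I = ∑ a : Fin 0 → Fin (k + 1), (∏ l, M (I l) (a l))
        * (cb b ω).Φ (Fd.om j) a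
      rw [Fintype.sum_unique, vary_nh b _ (Fd.om j) (by rintro ⟨j, hj⟩; cases hj)]
      simp only [Finset.univ_eq_empty, Finset.prod_empty, one_mul]
      show _ = (inlH A).f (b.Φ (Fd.om j) _) + eps 0
      have h0 : (eps (0 : A.R) : A.dual.R) = 0 := rfl
      rw [h0, add_zero]
      refine congrArg _ (congrArg _ ?_)
      exact funext fun l => l.elim0
    | h j =>
      have e0 : ∑ a : Fin 2 → Fin (k + 1), (∏ l, M (I l) (a l)) * (cb b ω).Φ (Fd.h j) a
          = s (I 0) * s (I 1) * (cb b ω).Φ (Fd.h j) I := by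
        rw [sum_fin2]
        have e1 : ∀ a c, (∏ l, M (I l) ((![a, c] : Fin 2 → Fin (k + 1)) l))
            = (if I 0 = a then s (I 0) else 0) * (if I 1 = c then s (I 1) else 0) := by
          intro a c
          rw [Fin.prod_univ_two]
          rfl
        simp only [e1, mul_ite, ite_mul, mul_zero, zero_mul, Finset.sum_ite_eq, Finset.mem_univ,
          if_true]
        congr 2
        funext l
        fin_cases l <;> rfl
      refine Eq.trans ?_ e0.symm
      show (b.vary Sh Ψ).Φ (Fd.h j) I = _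
      rw [vary_h]
      have e2 : (cb b ω).Φ (Fd.h j) I = (inlH A).f (b.Φ (Fd.h j) I)
        + eps (cf (j + 1) (dl b ω (I 0) (I 1))) := rfl
      have hI : I = ![I 0, I 1] := by
        funext l
        fin_cases l <;> rfl
      rw [e2, hssG (I 0) (I 1) _ _ (fun _ _ => trivial)]
      · by_cases h0 : I 0 = 0 ∨ I 1 = 0
        · rw [if_pos h0]
          congr 1
          show eps (cf (j + 1) (dl b ω (I 0) (I 1)) - 2 * (cf 0 ω * b.Φ (Fd.h j) I)) = _
          rcases h0 with h0 | h0
          · rw [hI, h0]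
            show eps (cf (j + 1) (dl b ω 0 (I 1)) - 2 * (cf 0 ω * b.Φ (Fd.h j) ![0, I 1])) = _
            rw [hdl0, hb.h0, mul_zero, mul_zero, sub_zero]
          · rw [hI, h0]
            show eps (cf (j + 1) (dl b ω (I 0) 0) - 2 * (cf 0 ω * b.Φ (Fd.h j) ![I 0, 0])) = _
            rw [hdl0', hb.hs, hb.h0, mul_zero, mul_zero, sub_zero]
        · rw [if_neg h0]
          rfl
      · intro h0
        rcases h0 with h0 | h0
        · rw [hI, h0]
          refine ⟨hdl0 _ _, Or.inr (hb.h0 j _)⟩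
        · rw [hI, h0]
          refine ⟨hdl0' _ _, Or.inr ?_⟩
          rw [hb.hs]
          exact hb.h0 j _

end Run7.h96.Hy

end

section

/-!
Removing the component linear in the top coefficient.
-/

set_option linter.all false
set_option maxHeartbeats 400000

open scoped BigOperators

namespace Run7.h96.Hy

open CInv

section Rs

variable {n : ℕ} {J : Type} {ρ : J → ℕ}

/-- degree one natural tensors without derivatives are linear over the ring -/
theorem HN.replA {S : Set J} {g : Dg J} {r : ℕ} {T : Tn n J ρ r} {L : Ln n J ρ r}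
    (h : HN S g r T L) (hg : nf g = 1) (hg2 : g.2 = 0) {X : DR n} (b : BD X J ρ) (c : X.R)
    (Ψ : Fl X J ρ) (K : Fin r → Fin n) :
    T X (b.repl S (fun j K => c * Ψ j K)) K = c * T X (b.repl S Ψ) K := by
  classical
  set θ : X.R →ₐ[ℝ] X.fl.R := AlgHom.id ℝ X.R with hθ
  have h1 := h.mapA hg2 (Y := X.fl) θ (b.repl S (fun j K => c * Ψ j K)) K
  have h2 := h.mapA hg2 (Y := X.fl) θ (b.repl S Ψ) K
  have h3 := h.scl (BD.map (Y := X.fl) θ (b.repl S Ψ)) (c := (show X.fl.R from c))
    (fun i => rfl) K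
  rw [hg, pow_one] at h3
  have h4 : (BD.map (Y := X.fl) θ (b.repl S Ψ)).scl S (show X.fl.R from c)
      = BD.map (Y := X.fl) θ (b.repl S (fun j K => c * Ψ j K)) := by
    refine BD.ext' rfl rfl ?_
    funext j K
    show (if j ∈ S then (show X.fl.R from c) * θ ((b.repl S Ψ).Φ j K) else θ ((b.repl S Ψ).Φ j K))
      = θ ((b.repl S (fun j K => c * Ψ j K)).Φ j K)
    by_cases hj : j ∈ S
    · rw [if_pos hj, repl_in _ _ hj, repl_in _ _ hj]
      rfl
    · rw [if_neg hj, repl_out _ _ hj, repl_out _ _ hj]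
  rw [h4, h1, h2] at h3
  exact h3

end Rs

variable {k : ℕ}

/-- the top degree -/
noncomputable def ek (k : ℕ) : Dg Fd := (Finsupp.single (Fd.h (k - 1)) 1, 0)

open Classical in
/-- vanishing of the linear functional on the metric -/
theorem top_gt (hk : 1 ≤ k) {A : DR (k + 1)} {J : Intg A}
    (hvol : ∀ b : HD A, Fer b → J.P b.G → ∃ w, Vol J b w) {T : Sc k} {ι : Type} [Fintype ι]
    {g : ι → Dg Fd} {T1 : ι → Tn (k + 1) Fd ρF 0} {L : ι → Ln (k + 1) Fd ρF 0}
    (hT1 : ∀ i, HN Sh (g i) 0 (T1 i) (L i)) (hg : ∀ i, wt (g i) = k)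
    (hT : eqF T (∑ i, ofT (T1 i))) (h : HI J T) (b : HD A) (hb : Fer b) (hP : J.P b.G) :
    ∑ i ∈ Finset.univ.filter (fun i => g i = ek k), T1 i A (b.repl Sh (gt b)) ![] = 0 := by
  obtain ⟨w, hw⟩ := hvol b hb hP
  refine hw.nd _ fun χ => ?_
  set Q := ∑ i ∈ Finset.univ.filter (fun i => g i = ek k), T1 i A (b.repl Sh (gt b)) ![] with hQ
  set a : A.R := (1 / 2 : ℝ) • χ with ha
  set ω : A.ps.R := cst a * rr A ^ k with hω
  have hcfω : ∀ m, cf m ω = if m = k then a else 0 := by
    intro m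
    rw [hω, cf_cst_mul, cf_rr_pow]
    split_ifs <;> simp
  have hω0 : cf 0 ω = 0 := by rw [hcfω, if_neg (by omega)]
  have hωO : O k ω := by
    intro m hm
    rw [hcfω, if_neg (by omega)]
  have hI := h b hb w hw ω
  rw [hω0, zero_mul, smul_zero, add_zero] at hI
  have hv : cb b ω = b.vary Sh (toFl (dl b ω)) := (vary_eq_bump b (cf0_dl b hω0)).symm
  have hfv : Fer (b.vary Sh (toFl (dl b ω))) := by rw [← hv]; exact hb.cb ω
  have hdlO : ∀ i j, O k (dl b ω i j) := by
    intro i j
    exact GF_O (fun i j => O.mul_right _ (O.mul_left _ hωO)) i j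
  have hdlk : ∀ K : Fin 2 → Fin (k + 1), cf k (dl b ω (K 0) (K 1)) = χ * gt b (Fd.h (k - 1)) K := by
    intro K
    show _ = χ * (b.G (K 0) (K 1) - (if K 0 = 0 ∧ K 1 = 0 then 1 else 0))
    by_cases h0 : K 0 = 0
    · rw [h0, dl_zero hb, cf_zero]
      by_cases h1 : K 1 = 0
      · rw [h1, hb.g00, if_pos ⟨rfl, rfl⟩, sub_self, mul_zero]
      · obtain ⟨j, hj⟩ := Fin.exists_succ_eq.mpr h1
        rw [← hj, hb.g0, if_neg (by rintro ⟨_, h⟩; exact absurd h (Fin.succ_ne_zero j)), sub_self,
          mul_zero]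
    · by_cases h1 : K 1 = 0
      · obtain ⟨j, hj⟩ := Fin.exists_succ_eq.mpr h0
        rw [h1, dl_symm hb, dl_zero hb, cf_zero, b.symm, ← hj, hb.g0,
          if_neg (by rintro ⟨h, _⟩; exact absurd h (Fin.succ_ne_zero j)), sub_self, mul_zero]
      · obtain ⟨i, hi⟩ := Fin.exists_succ_eq.mpr h0
        obtain ⟨j, hj⟩ := Fin.exists_succ_eq.mpr h1
        rw [if_neg (by rintro ⟨h, _⟩; exact h0 h), sub_zero, ← hi, ← hj, cf_dl_top b hωO, hcfω,
          if_pos rfl, ha, smul_mul_assoc, two_mul, ← add_smul]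
        norm_num
  have hterm : ∀ i, L i A b (toFl (dl b ω)) ![]
      = if g i = ek k then χ * T1 i A (b.repl Sh (gt b)) ![] else 0 := by
    intro i
    by_cases hi : g i = ek k
    · rw [if_pos hi]
      have hnf : nf (g i) = 1 := by rw [hi]; exact nf_single _
      have h2 : (g i).2 = 0 := by rw [hi]; rfl
      rw [← (hT1 i).replA hnf h2, ← (hT1 i).L1 hnf]
      refine (hT1 i).Lcongr b (fun f hf => ?_) _
      have hf' : f = Fd.h (k - 1) := by
        by_contra hne
        apply hf
        rw [hi]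
        show (Finsupp.single (Fd.h (k - 1)) 1) f = 0
        rw [Finsupp.single_apply, if_neg (fun h => hne h.symm)]
      subst hf'
      funext K
      show cf (k - 1 + 1) (dl b ω (K 0) (K 1)) = χ * gt b (Fd.h (k - 1)) K
      rw [Nat.sub_add_cancel hk]
      exact hdlk K
    · rw [if_neg hi]
      rcases (hT1 i).supp with h0 | hsupp
      · rw [← ((hT1 i).dual b (toFl (dl b ω)) ![]).2, h0]
        rfl
      · have h1 : L i A b (toFl (dl b ω)) ![] = L i A b (fun j K => (0 : ℝ) • b.Φ j K) ![] := by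
          refine (hT1 i).Lcongr b (fun f hf => ?_) _
          obtain ⟨j, rfl⟩ := hsupp f hf
          have h3 := le_wt hf
          have h5 : 1 ≤ (g i).1 (Fd.h j) := Nat.one_le_iff_ne_zero.mpr hf
          have h4 : j + 1 ≤ k := by
            have h6 : j + 1 ≤ (g i).1 (Fd.h j) * wf (Fd.h j) := Nat.le_mul_of_pos_left _ h5
            have := hg i
            omega
          have h7 : j + 1 ≠ k := by
            intro hjk
            apply hi
            have h8 := single_of hsupp hf (by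
              rw [hg i]
              show k ≤ j + 1
              omega)
            rw [h8]
            unfold ek
            congr 2
            congr 1
            omega
          funext K
          show cf (j + 1) (dl b ω (K 0) (K 1)) = (0 : ℝ) • b.Φ (Fd.h j) K
          rw [hdlO _ _ (j + 1) (by omega), zero_smul]
        rw [h1, (hT1 i).lsmul b 0 b.Φ, zero_smul]
  have hsn : sn (T A.dual (cb b ω)) = χ * Q := by
    rw [hv, hT _ _ hfv]
    have e1 : (∑ i, ofT (T1 i)) A.dual (b.vary Sh (toFl (dl b ω)))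
        = ∑ i, T1 i A.dual (b.vary Sh (toFl (dl b ω))) ![] := by
      rw [Finset.sum_apply, Finset.sum_apply]
      rfl
    rw [e1, sn_sum, hQ, Finset.mul_sum, Finset.sum_filter]
    refine Finset.sum_congr rfl fun i _ => ?_
    rw [((hT1 i).dual b (toFl (dl b ω)) ![]).2, hterm i]
  rw [hsn] at hI
  rw [mul_comm Q χ]
  exact hI

open Classical in
/-- the component without top degree is still invariant -/
theorem HI.drop (hk : 1 ≤ k) {A : DR (k + 1)} {J : Intg A}
    (hvol : ∀ b : HD A, Fer b → J.P b.G → ∃ w, Vol J b w) {T : Sc k} {ι : Type} [Fintype ι]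
    {g : ι → Dg Fd} {T1 : ι → Tn (k + 1) Fd ρF 0} {L : ι → Ln (k + 1) Fd ρF 0}
    (hT1 : ∀ i, HN Sh (g i) 0 (T1 i) (L i)) (hg : ∀ i, wt (g i) = k)
    (hT : eqF T (∑ i, ofT (T1 i))) (h : HI J T) :
    HI J (∑ i ∈ Finset.univ.filter (fun i => g i ≠ ek k), ofT (T1 i)) ∧
    ∀ b : HD A, Fer b → J.P b.G →
      T A b = (∑ i ∈ Finset.univ.filter (fun i => g i ≠ ek k), ofT (T1 i)) A b := by
  set Te : Tn (k + 1) Fd ρF 0 := fun X b K =>
    ∑ i ∈ Finset.univ.filter (fun i => g i = ek k), T1 i X b K with hTe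
  have hHN : HN Sh (ek k) 0 Te (fun X b Ψ K =>
      ∑ i ∈ Finset.univ.filter (fun i => g i = ek k), L i X b Ψ K) := by
    refine HN.sum _ fun i hi => ?_
    rw [Finset.mem_filter] at hi
    have := hT1 i
    rwa [hi.2] at this
  have hq := top_gt hk hvol hT1 hg hT h
  have hz := stage1 J hHN hq
  have hz2 := stage2 J hHN hz
  have hsplit : ∀ (X : DR (k + 1)) (b : HD X), Fer b → T X b
      = (∑ i ∈ Finset.univ.filter (fun i => g i ≠ ek k), ofT (T1 i)) X b + Te X b ![] := by
    intro X b hb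
    rw [hT X b hb, ← Finset.sum_filter_add_sum_filter_not Finset.univ (fun i => g i ≠ ek k)]
    show (∑ i ∈ Finset.univ.filter (fun i => g i ≠ ek k), ofT (T1 i)) X b
      + (∑ i ∈ Finset.univ.filter (fun i => ¬ g i ≠ ek k), ofT (T1 i)) X b = _
    congr 1
    rw [Finset.sum_apply, Finset.sum_apply]
    refine Finset.sum_congr ?_ fun i _ => rfl
    ext i
    simp
  constructor
  · intro b hb w hw ω
    have h1 := h b hb w hw ω
    rw [hsplit A b hb, hsplit A.dual (cb b ω) (hb.cb ω), hz b hb hw.pd, sn_add,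
      hz2 b hb hw.pd ω, add_zero, add_zero] at h1
    exact h1
  · intro b hb hP
    rw [hsplit A b hb, hz b hb hP, add_zero]

/-- naturality of the derivative along a natural flow -/
theorem NS.DV {m : ℕ} {T : Sc k} (hT : NS (EW (m : WithTop ℤ)) T)
    {β : ∀ X : DR (k + 1), HD X → Fin (k + 1) → Fin (k + 1) → X.ps.R} (hβ : Adm β) (hn : S2 0 β) :
    NS (EW (m : WithTop ℤ)) (Hy.DV β T) := by
  classical
  obtain ⟨T', hT', hI⟩ := hT
  obtain ⟨ι, hι, g, T1, L, hg, hT1, hS⟩ := hT'.out (Equiv.refl (Fin 0))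
  have hrep : ∀ j, ∃ Ψ : Tk (k + 1) Fd ρF (Fin 2),
      FS Sh (EW ((j + 1 : ℕ) : WithTop ℤ)) (Fin 2) Ψ ∧
      ∀ (X : DR (k + 1)) (b : HD X), Fer b → ∀ K : Fin 2 → Fin (k + 1),
        cf (j + 1) (β X b (K 0) (K 1)) = Ψ X b K := by
    intro j
    have h1 := hn (j + 1)
    obtain ⟨Ψ, h2, h3⟩ := h1
    refine ⟨Ψ, h2.mono ?_, h3⟩
    rw [add_zero]
  choose Ψ hΨ1 hΨ2 using hrep
  let lw : ∀ X : DR (k + 1), HD X → Fl X Fd ρF := fun X b f => match f with
    | Fd.h j => Ψ j X b
    | Fd.nu => fun _ => 0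
    | Fd.chi => fun _ => 0
    | Fd.om _ => fun _ => 0
  let Ej : Fd → Set (Dg Fd) := fun f => {ν | wt ν = wf f}
  have hmain : NF (k := k) (EW (m : WithTop ℤ)) (Fin 0)
      (fun X b K => ∑ i, L i X b (lw X b) K) := by
    refine NF.of (FS.sum Finset.univ fun i _ => ?_)
    refine ((hT1 i).lsub lw Ej ?_).mono ?_
    · rintro f ⟨j, rfl⟩
      refine (hΨ1 j).mono fun ν hν => ?_
      exact mem_EW_nat.mp hν
    · rintro g' ⟨f, hf, ν, hν, hsum⟩
      obtain ⟨j, rfl⟩ := hf
      rw [mem_EW_nat]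
      have h1 := congrArg wt hsum
      rw [wt_add, wt_add, wt_single] at h1
      have h2 : wt ν = j + 1 := hν
      have h3 := mem_EW_nat.mp (hg i)
      omega
  refine hmain.congr fun X b hb K => ?_
  have h1 := hI X.dual _ (hβ.fer hb) ![]
  beta_reduce at h1
  show _ = sn (T X.dual (b.vary Sh (toFl (β X b))))
  rw [h1, hS, sn_sum]
  refine Finset.sum_congr rfl fun i _ => ?_
  rw [((hT1 i).dual b (toFl (β X b)) _).2]
  have h2 : lw X b = toFl (β X b) := by
    funext f K
    cases f with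
    | h j => exact (hΨ2 j X b hb K).symm
    | nu => rfl
    | chi => rfl
    | om j => rfl
  rw [h2]
  congr 1
  exact Subsingleton.elim _ _

end Run7.h96.Hy

end

section

/-!
The linear test lemma, and total divergences.
-/

set_option linter.all false
set_option maxHeartbeats 400000

open scoped BigOperators

namespace Run7.h96.Hy

open CInv

section Gen

variable {n : ℕ} {J : Type} {ρ : J → ℕ} {J' : Type} {ρ' : J' → ℕ}

/-- change of the set of variable fields -/
theorem FS.chg {S S' : Set J} {E : Set (Dg J)} {κ : Type} {T : Tk n J ρ κ} (h : FS S E κ T) :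
    FS S' Set.univ κ T :=
  FS.subst (S' := S) (S := S') h (fun X b => b.Φ)
    (fun j => FS.field j (fun _ => Set.mem_univ _) (fun _ => Set.mem_univ _))

theorem Lin.congrS {S : Set J} {S' : Set J'} {r : ℕ} {T : Lk n J ρ J' ρ' r} (h : Lin S S' r T)
    {X : DR n} (b : BD X J ρ) {Ψ Ψ' : Fl X J' ρ'} (hΨ : ∀ j ∈ S', Ψ j = Ψ' j)
    (K : Fin r → Fin n) : T X b Ψ K = T X b Ψ' K := by
  induction h with
  | zero r => rfl
  | field j hj => beta_reduce; rw [hΨ j hj]
  | add _ _ h1 h2 => beta_reduce; rw [h1, h2]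
  | smul t _ h1 => beta_reduce; rw [h1]
  | mulN hQ e _ h1 => simp only [relab, tens, h1]
  | perm e _ h1 => simp only [relab, h1]
  | contr e _ h1 => simp only [contr2, relab, h1]
  | @deriv r t T e _ h1 =>
    have h2 : T X b Ψ = T X b Ψ' := funext fun K => h1 K
    simp only [relab, DD, h2]

theorem Lin.sum {S : Set J} {S' : Set J'} {r : ℕ} {α : Type} (s : Finset α)
    {T : α → Lk n J ρ J' ρ' r} (h : ∀ a ∈ s, Lin S S' r (T a)) :
    Lin S S' r (fun X b Ψ K => ∑ a ∈ s, T a X b Ψ K) := by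
  classical
  induction s using Finset.induction_on with
  | empty => simpa using Lin.zero (S := S) (S' := S') r
  | @insert a s ha ih =>
    have h1 := h a (Finset.mem_insert_self a s)
    have h2 := ih fun b hb => h b (Finset.mem_insert_of_mem hb)
    simp only [Finset.sum_insert ha]
    exact h1.add h2

/-- total divergences -/
theorem dvg_total {X : DR n} (b : BD X J ρ) {w : X.R}
    (hw : ∀ i, X.d i w = w * ∑ p, b.A i p p) (V : Fin n → X.R) :
    dvg X.d b.A b.Gi V * w = ∑ i, X.d i (∑ j, b.Gi i j * V j * w) := by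
  have hs : ∀ i l m, b.A i l m = b.A m l i := fun i l m => (metric_compat X.isDer b.met).1 l i m
  have h1 : ∀ i j, X.d i (b.Gi i j * V j * w)
      = (-(∑ p, b.A i i p * b.Gi p j) - ∑ p, b.A i j p * b.Gi i p) * V j * w
        + b.Gi i j * X.d i (V j) * w + b.Gi i j * V j * (w * ∑ p, b.A i p p) := by
    intro i j
    rw [Derivation.leibniz, Derivation.leibniz, hw, b.compatGi]
    simp only [smul_eq_mul]; ring
  simp only [map_sum, h1, Finset.sum_add_distrib]
  have e1 : ∑ i, ∑ j, (-(∑ p, b.A i i p * b.Gi p j) - ∑ p, b.A i j p * b.Gi i p) * V j * w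
      = -(∑ i, ∑ j, ∑ p, b.A i i p * b.Gi p j * V j * w)
        - ∑ i, ∑ j, ∑ p, b.A i j p * b.Gi i p * V j * w := by
    rw [← Finset.sum_neg_distrib, ← Finset.sum_sub_distrib]
    refine Finset.sum_congr rfl fun i _ => ?_
    rw [← Finset.sum_neg_distrib, ← Finset.sum_sub_distrib]
    refine Finset.sum_congr rfl fun j _ => ?_
    rw [sub_mul, sub_mul, neg_mul, neg_mul, Finset.sum_mul, Finset.sum_mul, Finset.sum_mul,
      Finset.sum_mul]
  have e2 : ∑ i, ∑ j, b.Gi i j * V j * (w * ∑ p, b.A i p p)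
      = ∑ i, ∑ j, ∑ p, b.A i i p * b.Gi p j * V j * w := by
    have a1 : ∑ i, ∑ j, b.Gi i j * V j * (w * ∑ p, b.A i p p)
        = ∑ i, ∑ j, ∑ p, b.A p p i * b.Gi i j * V j * w := by
      refine Finset.sum_congr rfl fun i _ => Finset.sum_congr rfl fun j _ => ?_
      rw [Finset.mul_sum, Finset.mul_sum]
      refine Finset.sum_congr rfl fun p _ => ?_
      rw [hs i p p]; ring
    rw [a1]
    calc ∑ i, ∑ j, ∑ p, b.A p p i * b.Gi i j * V j * w
        = ∑ i, ∑ p, ∑ j, b.A p p i * b.Gi i j * V j * w :=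
          Finset.sum_congr rfl fun i _ => Finset.sum_comm
      _ = ∑ p, ∑ i, ∑ j, b.A p p i * b.Gi i j * V j * w := Finset.sum_comm
      _ = ∑ p, ∑ j, ∑ i, b.A p p i * b.Gi i j * V j * w :=
          Finset.sum_congr rfl fun i _ => Finset.sum_comm
  have e3 : dvg X.d b.A b.Gi V * w = (∑ i, ∑ j, b.Gi i j * X.d i (V j) * w)
      - ∑ i, ∑ j, ∑ p, b.A i j p * b.Gi i p * V j * w := by
    unfold dvg
    have a1 : ∀ i, ∑ j, ∑ p, b.A i j p * b.Gi i p * V j * w
        = ∑ j, ∑ l, b.Gi i j * (b.A i l j * V l) * w := by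
      intro i
      rw [Finset.sum_comm]
      refine Finset.sum_congr rfl fun p _ => Finset.sum_congr rfl fun j _ => by ring
    simp only [a1]
    rw [Finset.sum_mul, ← Finset.sum_sub_distrib]
    refine Finset.sum_congr rfl fun i _ => ?_
    rw [Finset.sum_mul, ← Finset.sum_sub_distrib]
    refine Finset.sum_congr rfl fun j _ => ?_
    rw [mul_sub, sub_mul, Finset.mul_sum, Finset.sum_mul]
  rw [e1, e2, e3]; ring

end Gen

variable {k : ℕ}

theorem dvg_I {A : DR (k + 1)} {J : Intg A} {b : HD A} {w : A.R} (hw : Vol J b w)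
    (V : Fin (k + 1) → A.R) : J.I (dvg A.d b.A b.Gi V * w) = 0 := by
  rw [dvg_total b hw.jac, map_sum]
  exact Finset.sum_eq_zero fun i _ => J.dI i _

open Classical in
/-- the fields in `S'` -/
noncomputable def rs {X : DR (k + 1)} (S' : Set Fd) (b : HD X) : Fl X Fd ρF :=
  fun j K => if j ∈ S' then b.Φ j K else 0

open Classical in
theorem Fer.scl {X : DR (k + 1)} {b : HD X} (hb : Fer b) {S' : Set Fd} (h1 : Fd.nu ∉ S')
    (h2 : ∀ j, Fd.h j ∉ S') (c : X.R) : Fer (b.scl S' c) where
  d0 := hb.d0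
  g00 := hb.g00
  g0 := hb.g0
  nu K := by
    show (if Fd.nu ∈ S' then c * b.Φ Fd.nu K else b.Φ Fd.nu K) = _
    rw [if_neg h1]; exact hb.nu K
  h0 j i := by
    show (if Fd.h j ∈ S' then c * b.Φ (Fd.h j) ![0, i] else b.Φ (Fd.h j) ![0, i]) = _
    rw [if_neg (h2 j)]; exact hb.h0 j i
  hs j i i' := by
    show (if Fd.h j ∈ S' then c * b.Φ (Fd.h j) ![i, i'] else b.Φ (Fd.h j) ![i, i'])
      = (if Fd.h j ∈ S' then c * b.Φ (Fd.h j) ![i', i] else b.Φ (Fd.h j) ![i', i])
    rw [if_neg (h2 j), if_neg (h2 j)]; exact hb.hs j i i'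

theorem pair_fin0 {X : DR (k + 1)} (Gi : Fin (k + 1) → Fin (k + 1) → X.R)
    (S T : (Fin 0 → Fin (k + 1)) → X.R) : pair Gi S T = S ![] * T ![] := by
  unfold pair
  rw [Fintype.sum_unique, Fintype.sum_unique]
  simp only [Finset.univ_eq_empty, Finset.prod_empty, mul_one]
  congr 2

open Classical in
/-- the linear test lemma -/
theorem lin_test {S' : Set Fd} (h1 : Fd.nu ∉ S') (h2 : ∀ j, Fd.h j ∉ S') {F : Sc k}
    (hF : NS Set.univ F)
    (hom : ∀ (X : DR (k + 1)) (b : HD X), Fer b → ∀ c : X.R, (∀ i, X.d i c = 0) →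
      F X (b.scl S' c) = c * F X b) :
    ∃ (s : Finset Fd) (E : (j : Fd) → Tn (k + 1) Fd ρF (ρF j))
      (V : ∀ X : DR (k + 1), HD X → Fl X Fd ρF → Fin (k + 1) → X.R),
      (∀ j, FS S' Set.univ (Fin (ρF j)) (E j)) ∧
      (∀ ψ : ∀ X : DR (k + 1), HD X → Fl X Fd ρF,
        (∀ j ∈ S', FS S' Set.univ (Fin (ρF j)) (fun X b => ψ X b j)) →
        FS S' Set.univ (Fin 1) (fun X b K => V X b (ψ X b) (K 0))) ∧
      ∀ (X : DR (k + 1)) (b : HD X), Fer b → F X b
        = (∑ j ∈ s, pair b.Gi (E j X (b.scl S' 0)) (rs S' b j))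
          + dvg X.d b.A b.Gi (V X (b.scl S' 0) (rs S' b)) := by
  obtain ⟨T', hT', hI⟩ := hF
  have hT2 : FS S' Set.univ (Fin 0) T' := hT'.chg
  obtain ⟨ι, hι, g, T1, L, hg, hT1, hS⟩ := hT2.out (Equiv.refl (Fin 0))
  have hsum : ∀ (X : DR (k + 1)) (b : HD X), Fer b → F X b = ∑ i, T1 i X b ![] := by
    intro X b hb
    have := hI X b hb ![]
    beta_reduce at this
    rw [this, hS]
    refine Finset.sum_congr rfl fun i _ => ?_
    exact congrArg _ (Subsingleton.elim _ _)
  -- the part of degree one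
  have hone : ∀ (X : DR (k + 1)) (b : HD X), Fer b → F X b
      = ∑ i ∈ Finset.univ.filter (fun i => nf (g i) = 1), T1 i X b ![] := by
    intro X b hb
    have a1 := hom X.dual (tb b) hb.tb (eps 1) (d_eps X)
    rw [hsum _ _ (hb.tb.scl h1 h2 (eps 1)), hsum _ _ hb.tb] at a1
    have a2 : ∀ i, T1 i X.dual (tb b) ![] = (inlH X).f (T1 i X b ![]) := fun i =>
      (hT1 i).map (inlH X) b ![]
    have a3 : ∀ i, T1 i X.dual ((tb b).scl S' (eps 1)) ![]
        = (eps 1) ^ (nf (g i)) * (inlH X).f (T1 i X b ![]) := by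
      intro i
      rw [(hT1 i).scl (tb b) (d_eps X), a2]
    simp only [a2, a3] at a1
    have a4 := congrArg sn a1
    rw [sn_sum, sn_mul, sn_sum, fs_sum] at a4
    simp only [sn_inl, fs_inl, fs_eps, sn_eps, Finset.sum_const_zero, mul_zero, zero_mul,
      one_mul, zero_add, add_zero] at a4
    rw [hsum X b hb, ← a4, Finset.sum_filter]
    refine Finset.sum_congr rfl fun i _ => ?_
    rcases Nat.lt_or_ge (nf (g i)) 1 with h | h
    · have h0 : nf (g i) = 0 := by omega
      rw [h0, pow_zero, one_mul, sn_inl, if_neg (by norm_num)]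
    · rcases Nat.lt_or_ge (nf (g i)) 2 with h' | h'
      · have h0 : nf (g i) = 1 := by omega
        rw [h0, pow_one, if_pos rfl]
        simp [sn_inl, fs_inl]
      · obtain ⟨N, hN⟩ := Nat.exists_eq_add_of_le h'
        rw [if_neg (by omega), hN, add_comm 2 N, eps_pow, zero_mul, sn_zero]
  have hM : Lin S' S' 0 (fun X b Ψ K => ∑ i ∈ Finset.univ.filter (fun i => nf (g i) = 1),
      L i X b Ψ K) := Lin.sum _ fun i _ => (hT1 i).toLin
  obtain ⟨s, E, V, hs, hE, hV, hP⟩ := hM.parts (fun _ _ _ => 1) (FS.one (Set.mem_univ _))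
  refine ⟨s, E, V, hE, hV, fun X b hb => ?_⟩
  rw [hone X b hb]
  have b1 := hP X (b.scl S' 0) (rs S' b)
  rw [pair_fin0, one_mul] at b1
  refine Eq.trans ?_ b1
  refine Finset.sum_congr rfl fun i hi => ?_
  rw [Finset.mem_filter] at hi
  rw [(hT1 i).L1 hi.2]
  congr 1
  refine BD.ext' rfl rfl ?_
  funext j K
  by_cases hj : j ∈ S'
  · rw [repl_in _ _ hj]
    show _ = (if j ∈ S' then b.Φ j K else 0)
    rw [if_pos hj]
  · rw [repl_out _ _ hj]
    show _ = (if j ∈ S' then 0 * b.Φ j K else b.Φ j K)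
    rw [if_neg hj]

end Run7.h96.Hy

end

section

/-!
Dependence on the test fields.
-/

set_option linter.all false
set_option maxHeartbeats 400000

open scoped BigOperators

namespace Run7.h96.Hy

open CInv

section Zo

variable {n : ℕ} {J : Type} {ρ : J → ℕ}

open Classical in
/-- setting some of the constant fields to zero -/
theorem HN.zo {S N : Set J} (hSN : ∀ j ∈ N, j ∉ S) {g : Dg J} {r : ℕ} {T : Tn n J ρ r}
    {L : Ln n J ρ r} (h : HN S g r T L) :
    HN S g r (fun X b => T X (b.scl N 0)) (fun X b Ψ => L X (b.scl N 0) Ψ) := by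
  induction h with
  | one => exact HN.one
  | met => exact HN.met
  | curv => exact HN.curv
  | fieldV j hj =>
    have : (fun (X : DR n) (b : BD X J ρ) => (b.scl N 0).Φ j) = fun X b => b.Φ j := by
      funext X b K
      show (if j ∈ N then 0 * b.Φ j K else b.Φ j K) = _
      rw [if_neg (fun h => hSN j h hj)]
    show HN S _ _ (fun (X : DR n) (b : BD X J ρ) => (b.scl N 0).Φ j) _
    rw [this]
    exact HN.fieldV j hj
  | fieldC j hj =>
    by_cases hN : j ∈ N
    · have : (fun (X : DR n) (b : BD X J ρ) => (b.scl N 0).Φ j) = fun X b K => 0 := by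
        funext X b K
        show (if j ∈ N then 0 * b.Φ j K else b.Φ j K) = _
        rw [if_pos hN, zero_mul]
      show HN S _ _ (fun (X : DR n) (b : BD X J ρ) => (b.scl N 0).Φ j) _
      rw [this]
      exact HN.zero 0 _
    · have : (fun (X : DR n) (b : BD X J ρ) => (b.scl N 0).Φ j) = fun X b => b.Φ j := by
        funext X b K
        show (if j ∈ N then 0 * b.Φ j K else b.Φ j K) = _
        rw [if_neg hN]
      show HN S _ _ (fun (X : DR n) (b : BD X J ρ) => (b.scl N 0).Φ j) _
      rw [this]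
      exact HN.fieldC j hj
  | zero g r => exact HN.zero g r
  | add _ _ h1 h2 => exact h1.add h2
  | smul t _ h1 => exact h1.smul t
  | mul e _ _ h1 h2 => exact h1.mul e h2
  | perm e _ h1 => exact h1.perm e
  | contr e _ h1 => exact h1.contr e
  | deriv e _ h1 => exact h1.deriv e

theorem d_mul_const {X : DR n} {c : X.R} (hc : ∀ i, X.d i c = 0) (i : Fin n) (f : X.R) :
    X.d i (c * f) = c * X.d i f := by
  rw [Derivation.leibniz, hc]; simp

/-- the linearisation commutes with constants of the ring -/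
theorem HN.lcst {S : Set J} {g : Dg J} {r : ℕ} {T : Tn n J ρ r} {L : Ln n J ρ r}
    (h : HN S g r T L) {X : DR n} (b : BD X J ρ) {c : X.R} (hc : ∀ i, X.d i c = 0)
    (Ψ : Fl X J ρ) (K : Fin r → Fin n) :
    L X b (fun j K => c * Ψ j K) K = c * L X b Ψ K := by
  induction h with
  | one => simp
  | met => simp
  | curv => simp
  | fieldV j hj => rfl
  | fieldC j hj => simp
  | zero g r => simp
  | add _ _ h1 h2 => beta_reduce; rw [h1, h2]; ring
  | smul t _ h1 => beta_reduce; rw [h1]; simp only [Algebra.smul_def]; ring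
  | mul e _ _ h1 h2 => simp only [relab, tens, h1, h2]; ring
  | perm e _ h1 => simp only [relab, h1]
  | contr e _ h1 =>
    simp only [contr2, relab, h1, Finset.mul_sum]
    refine Finset.sum_congr rfl fun i _ => Finset.sum_congr rfl fun j _ => by ring
  | @deriv g r t T L e _ h1 =>
    have h2 : L X b (fun j K => c * Ψ j K) = fun K => c * L X b Ψ K := by
      funext K; exact h1 K
    simp only [relab, DD, cov]
    rw [h2, act_mul_const, d_mul_const hc]
    ring

end Zo

variable {k : ℕ}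

section Congr

variable {X : DR (k + 1)} {b b' : HD X}

theorem gX_congr (hG : b.G = b'.G) (hh : ∀ j, b.Φ (Fd.h j) = b'.Φ (Fd.h j)) : gX b = gX b' := by
  funext i j
  apply cf_ext
  intro m
  rw [cf_gX, cf_gX]
  cases m with
  | zero => exact congrFun (congrFun hG i) j
  | succ m => exact congrFun (hh m) _

theorem gXi_congr (h : gX b = gX b') : gXi b = gXi b' := by
  unfold gXi
  rw [h]

theorem Yam_congr (h : gX b = gX b') (σ : X.ps.R) : Yam b σ = Yam b' σ := by
  unfold Yam
  rw [h, gXi_congr h]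

theorem Lop_congr (h : gX b = gX b') (σ u : X.ps.R) : Lop b σ u = Lop b' σ u := by
  unfold Lop
  rw [h, gXi_congr h]

theorem sgm_congr (h : gX b = gX b') (m : ℕ) : sgm b m = sgm b' m := by
  induction m with
  | zero => rfl
  | succ m ih =>
    unfold sgm
    rw [ih, Yam_congr h]

theorem sg_congr (h : gX b = gX b') : sg b = sg b' := sgm_congr h k

theorem tg_congr (h : gX b = gX b') : tg b = tg b' := by
  unfold tg
  rw [h, gXi_congr h, sg_congr h]

theorem os_congr (h : gX b = gX b') : os b = os b' := by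
  unfold os
  rw [h, gXi_congr h, sg_congr h]

theorem GF_congr (h : gX b = gX b') (T : Fin (k + 1) → Fin (k + 1) → X.ps.R) : GF b T = GF b' T := by
  funext i j
  unfold GF gfV
  rw [h, gXi_congr h]

theorem dl_congr (h : gX b = gX b') (ω : X.ps.R) : dl b ω = dl b' ω := by
  funext i j
  unfold dl
  rw [GF_congr h, h]

theorem flow_congr (h : gX b = gX b') : flow b = flow b' := by
  funext i j
  unfold flow Bf
  rw [GF_congr h, tg_congr h, os_congr h, h]

theorem ugm_congr (h : gX b = gX b') (hc : b.Φ Fd.chi ![] = b'.Φ Fd.chi ![]) (m : ℕ) :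
    ugm b m = ugm b' m := by
  induction m with
  | zero => unfold ugm; rw [hc]
  | succ m ih =>
    unfold ugm
    rw [ih, sg_congr h, Lop_congr h]

theorem ug_congr (h : gX b = gX b') (hc : b.Φ Fd.chi ![] = b'.Φ Fd.chi ![]) : ug b = ug b' :=
  ugm_congr h hc _

end Congr

section Cst

variable {X : DR (k + 1)} {b : HD X} {c : X.R}

theorem D_cst0 (h0 : ∀ f, X.d 0 f = 0) (hc : ∀ i, X.d i c = 0) (i : Fin (k + 1)) :
    X.ps.D i (cst c) = 0 := by
  rw [D_cst h0, hc, cst_zero]

theorem D_cst_mul (h0 : ∀ f, X.d 0 f = 0) (hc : ∀ i, X.d i c = 0) (i : Fin (k + 1)) (F : X.ps.R) :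
    X.ps.D i (cst c * F) = cst c * X.ps.D i F := by
  rw [X.ps.isDer.mul, D_cst0 h0 hc, zero_mul, zero_add]

theorem itgX_cst_mul (F : X.ps.R) : itgX (cst c * F) = cst c * itgX F := by
  apply cf_ext
  intro m
  cases m with
  | zero => rw [cf_cst_mul, cf_itg0, cf_itg0, mul_zero]
  | succ m => rw [cf_cst_mul, cf_itgs, cf_itgs, cf_cst_mul, mul_smul_comm]

theorem gfV_cst (h0 : ∀ f, X.d 0 f = 0) (hc : ∀ i, X.d i c = 0)
    (T : Fin (k + 1) → Fin (k + 1) → X.ps.R) (a : Fin (k + 1)) :
    gfV b (fun i j => cst c * T i j) a = cst c * gfV b T a := by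
  unfold gfV
  have e1 : ∀ d, gXi b a d * (cst c * T 0 d + X.ps.D d (-((1 / 2 : ℝ) • itgX (cst c * T 0 0))))
      = cst c * (gXi b a d * (T 0 d + X.ps.D d (-((1 / 2 : ℝ) • itgX (T 0 0))))) := by
    intro d
    have e2 : -((1 / 2 : ℝ) • itgX (cst c * T 0 0)) = cst c * (-((1 / 2 : ℝ) • itgX (T 0 0))) := by
      rw [itgX_cst_mul, mul_neg, mul_smul_comm]
    rw [e2, D_cst_mul h0 hc]; ring
  simp only [e1, ← Finset.mul_sum]
  rw [itgX_cst_mul]; ring

theorem GF_cst (h0 : ∀ f, X.d 0 f = 0) (hc : ∀ i, X.d i c = 0)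
    (T : Fin (k + 1) → Fin (k + 1) → X.ps.R) (i j : Fin (k + 1)) :
    GF b (fun i j => cst c * T i j) i j = cst c * GF b T i j := by
  unfold GF lie
  have e1 : gfV b (fun i j => cst c * T i j) = fun a => cst c * gfV b T a := by
    funext a; exact gfV_cst h0 hc T a
  rw [e1]
  simp only [D_cst_mul h0 hc, mul_add, Finset.mul_sum, mul_assoc]

theorem dl_cst (h0 : ∀ f, X.d 0 f = 0) (hc : ∀ i, X.d i c = 0) (ω : X.ps.R) (i j : Fin (k + 1)) :
    dl b (cst c * ω) i j = cst c * dl b ω i j := by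
  unfold dl
  rw [← GF_cst h0 hc]
  congr 1
  funext i j
  ring

theorem GF_addT (T T' : Fin (k + 1) → Fin (k + 1) → X.ps.R) (i j : Fin (k + 1)) :
    GF b (fun i j => T i j + T' i j) i j = GF b T i j + GF b T' i j := by
  have e1 : gfV b (fun i j => T i j + T' i j) = fun a => gfV b T a + gfV b T' a := by
    funext a
    unfold gfV
    have e2 : ∀ F G : X.ps.R, itgX (F + G) = itgX F + itgX G := by
      intro F G
      apply cf_ext
      intro m
      cases m with
      | zero => rw [cf_add, cf_itg0, cf_itg0, cf_itg0, add_zero]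
      | succ m => rw [cf_add, cf_itgs, cf_itgs, cf_itgs, cf_add, smul_add]
    have e3 : ∀ d, gXi b a d * (T 0 d + T' 0 d + X.ps.D d (-((1 / 2 : ℝ) • itgX (T 0 0 + T' 0 0))))
        = gXi b a d * (T 0 d + X.ps.D d (-((1 / 2 : ℝ) • itgX (T 0 0))))
          + gXi b a d * (T' 0 d + X.ps.D d (-((1 / 2 : ℝ) • itgX (T' 0 0)))) := by
      intro d
      rw [e2, smul_add, neg_add, X.ps.isDer.add]; ring
    simp only [e3, Finset.sum_add_distrib]
    rw [e2]; ring
  unfold GF lie
  rw [e1]
  simp only [X.ps.isDer.add, add_mul, Finset.sum_add_distrib]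
  ring

theorem hess_cst (h0 : ∀ f, X.d 0 f = 0) (hc : ∀ i, X.d i c = 0) (u : X.ps.R)
    (i j : Fin (k + 1)) : hess X.ps.D (gX b) (gXi b) (cst c * u) i j
      = cst c * hess X.ps.D (gX b) (gXi b) u i j := by
  unfold hess
  have e1 : ∀ l, X.ps.D l (cst c * u) = cst c * X.ps.D l u := fun l => D_cst_mul h0 hc l u
  have e2 : ∀ l, chr X.ps.D (gX b) (gXi b) l i j * X.ps.D l (cst c * u)
      = cst c * (chr X.ps.D (gX b) (gXi b) l i j * X.ps.D l u) := by
    intro l
    rw [e1]; ring
  rw [e1 j, D_cst_mul h0 hc, Finset.sum_congr rfl fun l _ => e2 l, ← Finset.mul_sum]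
  ring

theorem lap_cst (h0 : ∀ f, X.d 0 f = 0) (hc : ∀ i, X.d i c = 0) (u : X.ps.R) :
    lap X.ps.D (gX b) (gXi b) (cst c * u) = cst c * lap X.ps.D (gX b) (gXi b) u := by
  unfold lap
  rw [Finset.mul_sum]
  refine Finset.sum_congr rfl fun i _ => ?_
  rw [Finset.mul_sum]
  refine Finset.sum_congr rfl fun j _ => ?_
  rw [hess_cst h0 hc]; ring

theorem ip_cst (gi : Fin (k + 1) → Fin (k + 1) → X.ps.R) (v w : Fin (k + 1) → X.ps.R) (a : X.ps.R) :
    ip gi v (fun i => a * w i) = a * ip gi v w := by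
  unfold ip
  rw [Finset.mul_sum]
  refine Finset.sum_congr rfl fun i _ => ?_
  rw [Finset.mul_sum]
  refine Finset.sum_congr rfl fun j _ => by ring

theorem Lop_cst (hb : Fer b) (hc : ∀ i, X.d i c = 0) (σ u : X.ps.R) :
    Lop b σ (cst c * u) = cst c * Lop b σ u := by
  have h0 := hb.d0
  unfold Lop lop
  have e1 : (fun i => X.ps.D i (cst c * u)) = fun i => cst c * X.ps.D i u := by
    funext i; exact D_cst_mul h0 hc i u
  rw [e1, ip_cst, lap_cst h0 hc]
  simp only [Algebra.smul_def]
  ring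

open Classical in
theorem ug_scl (hb : Fer b) (hc : ∀ i, X.d i c = 0) {S' : Set Fd} (h1 : Fd.nu ∉ S')
    (h2 : ∀ j, Fd.h j ∉ S') (h3 : Fd.chi ∈ S') :
    O k (ug (b.scl S' c) - cst c * ug b) := by
  have hg : gX (b.scl S' c) = gX b := by
    refine gX_congr rfl fun j => ?_
    funext K
    show (if Fd.h j ∈ S' then c * b.Φ (Fd.h j) K else b.Φ (Fd.h j) K) = _
    rw [if_neg (h2 j)]
  have hs := sg_congr hg
  have hb' := hb.scl h1 h2 c
  refine Lop_unique hb (σ := sg b) sg_cf0 sg_cf1 (u := cst c * ug b) ?_ ?_ ?_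
  · rw [cf_cst_mul, ug_cf0, ug_cf0]
    show c * b.Φ Fd.chi ![] = (if Fd.chi ∈ S' then c * b.Φ Fd.chi ![] else b.Φ Fd.chi ![])
    rw [if_pos h3]
  · rw [Lop_cst hb hc]
    exact O.mul_left _ (ug_Lop hb)
  · have := ug_Lop hb'
    rw [hs, Lop_congr hg] at this
    exact this

/-- for the constant test function the harmonic extension is constant -/
theorem ug_one (hb : Fer b) (hchi : b.Φ Fd.chi ![] = 1) : O k (ug b - 1) := by
  refine Lop_unique hb (σ := sg b) sg_cf0 sg_cf1 (u := 1) ?_ ?_ (ug_Lop hb)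
  · rw [cf_one, if_pos rfl, ug_cf0, hchi]
  · have : Lop b (sg b) 1 = 0 := by
      unfold Lop lop lap hess ip
      have h1 : ∀ i, X.ps.D i (1 : X.ps.R) = 0 := fun i => der_one X.ps.isDer i
      have h0 : ∀ i, X.ps.D i (0 : X.ps.R) = 0 := fun i => der_zero X.ps.isDer i
      simp only [h1, h0, mul_zero, Finset.sum_const_zero, sub_zero, smul_zero]
    rw [this]
    exact O.z

end Cst

end Run7.h96.Hy

end
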