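import Pool.Agent.Run7.h96.K05

section

/-!
The decomposition of the derivative along the flow.
-/

set_option linter.all false
set_option maxHeartbeats 400000

open scoped BigOperators

namespace Run7.h96.Hy

open CInv

variable {k : ℕ}

/-- the test fields -/
def Nt : Set Fd := {f | f = Fd.chi ∨ ∃ j, f = Fd.om j}
def Om : Set Fd := {f | ∃ j, f = Fd.om j}
def Ch : Set Fd := {f | f = Fd.chi}

theorem nu_Nt : Fd.nu ∉ Nt := by rintro (h | ⟨j, h⟩) <;> cases h
theorem h_Nt (j : ℕ) : Fd.h j ∉ Nt := by rintro (h | ⟨j, h⟩) <;> cases h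
theorem nu_Om : Fd.nu ∉ Om := by rintro ⟨j, h⟩; cases h
theorem h_Om (j : ℕ) : Fd.h j ∉ Om := by rintro ⟨j, h⟩; cases h
theorem nu_Ch : Fd.nu ∉ Ch := by intro h; cases h
theorem h_Ch (j : ℕ) : Fd.h j ∉ Ch := by intro h; cases h
theorem Nt_Sh : ∀ f ∈ Nt, f ∉ Sh := by
  rintro f (rfl | ⟨j, rfl⟩) ⟨i, hi⟩ <;> cases hi

open Classical in
theorem scl_sub {X : DR (k + 1)} (b : HD X) {S' N : Set Fd} (h : S' ⊆ N) (c : X.R) :
    (b.scl S' c).scl N 0 = b.scl N 0 := by
  refine BD.ext' rfl rfl ?_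
  funext f K
  show (if f ∈ N then 0 * (if f ∈ S' then c * b.Φ f K else b.Φ f K)
    else (if f ∈ S' then c * b.Φ f K else b.Φ f K)) = if f ∈ N then 0 * b.Φ f K else b.Φ f K
  by_cases hf : f ∈ N
  · rw [if_pos hf, if_pos hf, zero_mul, zero_mul]
  · rw [if_neg hf, if_neg hf, if_neg (fun h' => hf (h h'))]

open Classical in
theorem gX_scl {X : DR (k + 1)} (b : HD X) {S' : Set Fd} (h2 : ∀ j, Fd.h j ∉ S') (c : X.R) :
    gX (b.scl S' c) = gX b := by
  refine gX_congr rfl fun j => ?_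
  funext K
  show (if Fd.h j ∈ S' then c * b.Φ (Fd.h j) K else b.Φ (Fd.h j) K) = _
  rw [if_neg (h2 j)]

open Classical in
theorem vary_scl {X : DR (k + 1)} (b : HD X) {N : Set Fd} (hN : ∀ f ∈ N, f ∉ Sh) (Ψ : Fl X Fd ρF) :
    (b.vary Sh Ψ).scl N 0 = (b.scl N 0).vary Sh Ψ := by
  refine BD.ext' rfl rfl ?_
  funext f K
  show (if f ∈ N then 0 * (b.vary Sh Ψ).Φ f K else (b.vary Sh Ψ).Φ f K)
    = ((b.scl N 0).vary Sh Ψ).Φ f K
  by_cases hf : f ∈ N
  · rw [if_pos hf, zero_mul, vary_nh _ _ f (hN f hf)]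
    show _ = (inlH X).f (if f ∈ N then 0 * b.Φ f K else b.Φ f K)
    rw [if_pos hf, zero_mul, map_zero]
  · rw [if_neg hf]
    by_cases hS : f ∈ Sh
    · obtain ⟨j, rfl⟩ := hS
      rw [vary_h, vary_h]
      congr 1
      show _ = (inlH X).f (if Fd.h j ∈ N then 0 * b.Φ (Fd.h j) K else b.Φ (Fd.h j) K)
      rw [if_neg hf]
    · rw [vary_nh _ _ f hS, vary_nh _ _ f hS]
      show _ = (inlH X).f (if f ∈ N then 0 * b.Φ f K else b.Φ f K)
      rw [if_neg hf]

open Classical in
theorem cb_scl {X : DR (k + 1)} (b : HD X) {N : Set Fd} (hN : ∀ f ∈ N, f ∉ Sh) (ω : X.ps.R) :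
    (cb b ω).scl N 0 = cb (b.scl N 0) ω := by
  have hg : gX (b.scl N 0) = gX b := gX_scl b (fun j h => hN _ h ⟨j, rfl⟩) 0
  have hd : dl (b.scl N 0) ω = dl b ω := dl_congr hg ω
  unfold cb
  rw [hd]
  refine BD.ext' rfl rfl ?_
  funext f K
  show (if f ∈ N then 0 * ((inlH X).f (b.Φ f K) + eps (toFl (dl b ω) f K))
    else (inlH X).f (b.Φ f K) + eps (toFl (dl b ω) f K))
    = (inlH X).f (if f ∈ N then 0 * b.Φ f K else b.Φ f K) + eps (toFl (dl b ω) f K)
  by_cases hf : f ∈ N
  · rw [if_pos hf, if_pos hf, zero_mul, zero_mul, map_zero, toFl_nS _ (hN f hf)]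
    exact (zero_add _).symm
  · rw [if_neg hf, if_neg hf]

/-- restriction to vanishing test fields -/
noncomputable def zr (T : Sc k) : Sc k := fun X b => T X (b.scl Nt 0)

theorem zr_HI {A : DR (k + 1)} {J : Intg A} {T : Sc k} (h : HI J T) : HI J (zr T) := by
  intro b hb w hw ω
  have h1 := h (b.scl Nt 0) (hb.scl nu_Nt h_Nt 0) w ⟨hw.jac, hw.nd, hw.pd⟩ ω
  rw [← cb_scl b Nt_Sh ω] at h1
  exact h1

theorem zr_DV (T : Sc k) : zr (DV (fun X b => flow b) T) = DV (fun X b => flow b) (zr T) := by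
  funext X b
  show sn (T X.dual ((b.scl Nt 0).vary Sh (toFl (flow (b.scl Nt 0)))))
    = sn (T X.dual ((b.vary Sh (toFl (flow b))).scl Nt 0))
  rw [vary_scl b Nt_Sh, flow_congr (gX_scl b h_Nt 0)]

/-- representation by terms without test fields -/
structure CR (T : Sc k) where
  ι : Type
  hι : Fintype ι
  g : ι → Dg Fd
  T1 : ι → Tn (k + 1) Fd ρF 0
  L : ι → Ln (k + 1) Fd ρF 0
  hT1 : ∀ i, HN Sh (g i) 0 (T1 i) (L i)
  hw : ∀ i, wt (g i) = k
  hz : ∀ i (X : DR (k + 1)) (b : HD X) K, T1 i X b K = T1 i X (b.scl Nt 0) K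
  hzL : ∀ i (X : DR (k + 1)) (b : HD X) Ψ K, L i X b Ψ K = L i X (b.scl Nt 0) Ψ K
  hT : ∀ (X : DR (k + 1)) (b : HD X), Fer b → T X b = ∑ i, T1 i X b ![]

attribute [instance] CR.hι

theorem zr_CR {T : Sc k} (h : NS (EW (k : WithTop ℤ)) T) : Nonempty (CR (zr T)) := by
  obtain ⟨T', hT', hI⟩ := h
  obtain ⟨ι, hι, g, T1, L, hg, hT1, hS⟩ := hT'.out (Equiv.refl (Fin 0))
  refine ⟨{
    ι := ι
    hι := hι
    g := g
    T1 := fun i X b => T1 i X (b.scl Nt 0)
    L := fun i X b Ψ => L i X (b.scl Nt 0) Ψ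
    hT1 := fun i => (hT1 i).zo Nt_Sh
    hw := fun i => mem_EW_nat.mp (hg i)
    hz := fun i X b K => by
      beta_reduce
      rw [scl_sub b (le_refl Nt) 0]
    hzL := fun i X b Ψ K => by
      beta_reduce
      rw [scl_sub b (le_refl Nt) 0]
    hT := fun X b hb => by
      have h1 := hI X (b.scl Nt 0) (hb.scl nu_Nt h_Nt 0) ![]
      beta_reduce at h1
      show T X (b.scl Nt 0) = _
      rw [h1, hS]
      refine Finset.sum_congr rfl fun i _ => ?_
      exact congrArg _ (Subsingleton.elim _ _) }⟩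

namespace CR

variable {T : Sc k} (R : CR T)

/-- the linearisation -/
noncomputable def Lt (X : DR (k + 1)) (b : HD X) (Ψ : Fl X Fd ρF) : X.R := ∑ i, R.L i X b Ψ ![]

theorem Lt_congr {X : DR (k + 1)} (b : HD X) {Ψ Ψ' : Fl X Fd ρF}
    (h : ∀ j, j + 1 ≤ k → Ψ (Fd.h j) = Ψ' (Fd.h j)) : R.Lt X b Ψ = R.Lt X b Ψ' := by
  refine Finset.sum_congr rfl fun i _ => ?_
  rcases (R.hT1 i).supp with h0 | hs
  · have h1 : ∀ Ψ, R.L i X b Ψ ![] = 0 := fun Ψ => by
      rw [← ((R.hT1 i).dual b Ψ ![]).2, h0]; rfl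
    rw [h1, h1]
  · refine (R.hT1 i).Lcongr b (fun f hf => ?_) _
    obtain ⟨j, rfl⟩ := hs f hf
    refine h j ?_
    have h3 := le_wt hf
    have h5 : 1 ≤ (R.g i).1 (Fd.h j) := Nat.one_le_iff_ne_zero.mpr hf
    have h6 : j + 1 ≤ (R.g i).1 (Fd.h j) * wf (Fd.h j) := Nat.le_mul_of_pos_left _ h5
    have := R.hw i
    omega

theorem Lt_add {X : DR (k + 1)} (b : HD X) (Ψ Ψ' : Fl X Fd ρF) :
    R.Lt X b (fun j K => Ψ j K + Ψ' j K) = R.Lt X b Ψ + R.Lt X b Ψ' := by
  unfold Lt
  rw [← Finset.sum_add_distrib]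
  exact Finset.sum_congr rfl fun i _ => (R.hT1 i).ladd b Ψ Ψ' ![]

theorem Lt_cst {X : DR (k + 1)} (b : HD X) {c : X.R} (hc : ∀ i, X.d i c = 0) (Ψ : Fl X Fd ρF) :
    R.Lt X b (fun j K => c * Ψ j K) = c * R.Lt X b Ψ := by
  unfold Lt
  rw [Finset.mul_sum]
  exact Finset.sum_congr rfl fun i _ => (R.hT1 i).lcst b hc Ψ ![]

theorem Lt_scl {X : DR (k + 1)} (b : HD X) {S' : Set Fd} (h : S' ⊆ Nt) (c : X.R) (Ψ : Fl X Fd ρF) :
    R.Lt X (b.scl S' c) Ψ = R.Lt X b Ψ := by
  refine Finset.sum_congr rfl fun i _ => ?_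
  rw [R.hzL i X (b.scl S' c), scl_sub b h, ← R.hzL]

theorem sn_vary {X : DR (k + 1)} {b : HD X} (hb : Fer b) {β : Fin (k + 1) → Fin (k + 1) → X.ps.R}
    (h0 : ∀ i, β 0 i = 0) (hs : ∀ i j, β i j = β j i) :
    sn (T X.dual (b.vary Sh (toFl β))) = R.Lt X b (toFl β) := by
  rw [R.hT _ _ (hb.vary h0 hs), sn_sum]
  exact Finset.sum_congr rfl fun i _ => ((R.hT1 i).dual b (toFl β) ![]).2

/-- naturality of the linearisation along natural variations -/
theorem Lt_nat {β : ∀ X : DR (k + 1), HD X → Fin (k + 1) → Fin (k + 1) → X.ps.R}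
    {w : WithTop ℤ} (hn : S2 w β) :
    NS Set.univ (fun X b => R.Lt X b (toFl (β X b))) := by
  have hrep : ∀ j, ∃ Ψ : Tk (k + 1) Fd ρF (Fin 2),
      FS Sh Set.univ (Fin 2) Ψ ∧
      ∀ (X : DR (k + 1)) (b : HD X), Fer b → ∀ K : Fin 2 → Fin (k + 1),
        cf (j + 1) (β X b (K 0) (K 1)) = Ψ X b K := by
    intro j
    obtain ⟨Ψ, h2, h3⟩ := hn (j + 1)
    exact ⟨Ψ, h2.mono (Set.subset_univ _), h3⟩
  choose Ψ hΨ1 hΨ2 using hrep
  let lw : ∀ X : DR (k + 1), HD X → Fl X Fd ρF := fun X b f => match f with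
    | Fd.h j => Ψ j X b
    | Fd.nu => fun _ => 0
    | Fd.chi => fun _ => 0
    | Fd.om _ => fun _ => 0
  have hmain : NF (k := k) Set.univ (Fin 0) (fun X b K => ∑ i, R.L i X b (lw X b) K) := by
    refine NF.of (FS.sum Finset.univ fun i _ => ?_)
    refine ((R.hT1 i).lsub lw (fun _ => Set.univ) ?_).mono (Set.subset_univ _)
    rintro f ⟨j, rfl⟩
    exact hΨ1 j
  refine hmain.congr fun X b hb K => ?_
  have h2 : lw X b = toFl (β X b) := by
    funext f K
    cases f with
    | h j => exact (hΨ2 j X b hb K).symm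
    | nu => rfl
    | chi => rfl
    | om j => rfl
  rw [h2]
  show _ = R.Lt X b (toFl (β X b))
  refine Finset.sum_congr rfl fun i _ => ?_
  congr 1
  exact Subsingleton.elim _ _

end CR

/-- constant test function one -/
def chi1 (X : DR (k + 1)) : Fl X Fd ρF := fun f => match f with
  | Fd.chi => fun _ => 1
  | Fd.nu => fun _ => 0
  | Fd.h _ => fun _ => 0
  | Fd.om _ => fun _ => 0

theorem toFl_cst {X : DR (k + 1)} (c : X.R) (β : Fin (k + 1) → Fin (k + 1) → X.ps.R) :
    toFl (fun i j => cst c * β i j) = fun f K => c * toFl β f K := by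
  funext f K
  cases f with
  | h j => exact cf_cst_mul _ _ _
  | nu => exact (mul_zero c).symm
  | chi => exact (mul_zero c).symm
  | om j => exact (mul_zero c).symm

theorem toFl_add {X : DR (k + 1)} (β β' : Fin (k + 1) → Fin (k + 1) → X.ps.R) :
    toFl (fun i j => β i j + β' i j) = fun f K => toFl β f K + toFl β' f K := by
  funext f K
  cases f with
  | h j => exact cf_add _ _ _
  | nu => exact (add_zero 0).symm
  | chi => exact (add_zero 0).symm
  | om j => exact (add_zero 0).symm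

open Classical in
/-- the part of the flow with the test function -/
theorem CR.flowX_split {T : Sc k} (R : CR T) :
    ∃ (W : Sc k) (V : ∀ X : DR (k + 1), HD X → Fl X Fd ρF → Fin (k + 1) → X.R),
      NS Set.univ W ∧
      (∀ (X : DR (k + 1)) (b b' : HD X), b.scl Ch 0 = b'.scl Ch 0 → W X b = W X b') ∧
      (∀ ψ : ∀ X : DR (k + 1), HD X → Fl X Fd ρF,
        (∀ j ∈ Ch, FS Ch Set.univ (Fin (ρF j)) (fun X b => ψ X b j)) →
        FS Ch Set.univ (Fin 1) (fun X b K => V X b (ψ X b) (K 0))) ∧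
      ∀ (X : DR (k + 1)) (b : HD X), Fer b → R.Lt X b (toFl (flowX b))
        = W X b * b.Φ Fd.chi ![] + dvg X.d b.A b.Gi (V X (b.scl Ch 0) (rs Ch b)) := by
  have hCN : Ch ⊆ Nt := fun f hf => Or.inl hf
  obtain ⟨s, E, V, hE, hV, hmain⟩ := lin_test (S' := Ch) nu_Ch h_Ch
    (F := fun X b => R.Lt X b (toFl (flowX b))) (R.Lt_nat S2.flowX) (by
      intro X b hb c hc
      show R.Lt X (b.scl Ch c) (toFl (flowX (b.scl Ch c))) = c * R.Lt X b (toFl (flowX b))
      rw [R.Lt_scl b hCN, ← R.Lt_cst b hc, ← toFl_cst]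
      refine R.Lt_congr b fun j hj => ?_
      funext K
      show cf (j + 1) (flowX (b.scl Ch c) (K 0) (K 1)) = cf (j + 1) (cst c * flowX b (K 0) (K 1))
      have hg : gX (b.scl Ch c) = gX b := gX_scl b h_Ch c
      have hu := ug_scl hb hc nu_Ch h_Ch (S' := Ch) rfl
      have e1 : flowX (b.scl Ch c) (K 0) (K 1) = GF b (fun i j => ug (b.scl Ch c) * tg b i j) (K 0)
          (K 1) := by
        unfold flowX
        rw [GF_congr hg, tg_congr hg]
      have e2 : (fun i j => ug (b.scl Ch c) * tg b i j) = fun i j => cst c * (ug b * tg b i j)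
          + (ug (b.scl Ch c) - cst c * ug b) * tg b i j := by
        funext i j; ring
      have e3 : GF b (fun i j => cst c * (ug b * tg b i j)) (K 0) (K 1)
          = cst c * flowX b (K 0) (K 1) := GF_cst hb.d0 hc _ _ _
      rw [e1, e2, GF_addT, cf_add, e3]
      have e4 : O (k + 1) (GF b (fun i j => (ug (b.scl Ch c) - cst c * ug b) * tg b i j) (K 0)
          (K 1)) := by
        refine GF_O (fun i j => ?_) _ _
        exact hu.mul (tg_O1 hb i j)
      rw [e4 (j + 1) (by omega), add_zero])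
  refine ⟨fun X b => ∑ j ∈ s, pair b.Gi (E j X (b.scl Ch 0)) (chi1 X j), V, ?_, ?_, hV, ?_⟩
  · -- naturality
    have h1 : FS Ch Set.univ (Fin 0) (fun (X : DR (k + 1)) (b : HD X) K =>
        ∑ j ∈ s, pair b.Gi (E j X b) (chi1 X j)) := by
      refine FS.sum s fun j _ => ?_
      have hc1 : FS (n := k + 1) Ch Set.univ (Fin (ρF j)) (fun (X : DR (k + 1)) (b : HD X) =>
          chi1 X j) := by
        cases j with
        | nu => exact FS.zero
        | chi => exact FS.one (Set.mem_univ _)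
        | om j => exact FS.zero
        | h j => exact FS.zero
      let e0 : Fin (ρF j) ≃ Fin (ρF j) ⊕ Fin 0 := (Equiv.sumEmpty _ _).symm
      have h3 := FS.pairL (μ := Fin 0) ((hE j).relab e0) hc1 (E'' := Set.univ)
        fun _ _ _ _ => Set.mem_univ _
      exact h3.congr fun X b K => rfl
    have h2 := FS.subst (S := Sh) h1 (fun X b => (b.scl Ch 0).Φ) (fun j => by
      by_cases hj : j ∈ Ch
      · refine (FS.zero (n := k + 1) (ρ := ρF)).congr fun X b K => ?_
        show 0 = (if j ∈ Ch then 0 * b.Φ j K else b.Φ j K)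
        rw [if_pos hj, zero_mul]
      · refine (FS.field (n := k + 1) (ρ := ρF) j (fun _ => Set.mem_univ _)
          (fun _ => Set.mem_univ _)).congr fun X b K => ?_
        show b.Φ j K = (if j ∈ Ch then 0 * b.Φ j K else b.Φ j K)
        rw [if_neg hj])
    exact NF.of h2
  · intro X b b' hbb
    have hGi : b.Gi = b'.Gi := by
      have := congrArg (fun c : HD X => c.Gi) hbb
      exact this
    show ∑ j ∈ s, pair b.Gi (E j X (b.scl Ch 0)) (chi1 X j)
      = ∑ j ∈ s, pair b'.Gi (E j X (b'.scl Ch 0)) (chi1 X j)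
    rw [hbb, hGi]
  · intro X b hb
    have h1 := hmain X b hb
    beta_reduce at h1
    rw [h1, Finset.sum_mul]
    congr 1
    refine Finset.sum_congr rfl fun j _ => ?_
    by_cases hj : j ∈ Ch
    · have hj' : j = Fd.chi := hj
      subst hj'
      rw [pair_fin0, pair_fin0]
      show _ * (if Fd.chi ∈ Ch then b.Φ Fd.chi ![] else 0) = _ * 1 * _
      rw [if_pos hj, mul_one]
    · have e1 : rs Ch b j = fun _ => 0 := by
        funext K
        exact if_neg hj
      have e2 : chi1 X j = fun _ => 0 := by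
        cases j with
        | nu => rfl
        | chi => exact absurd rfl hj
        | om j => rfl
        | h j => rfl
      rw [e1, e2, pair_zero_right, zero_mul]

end Run7.h96.Hy

end

section

/-!
The divergence part and the covariance of the remaining part.
-/

set_option linter.all false
set_option maxHeartbeats 400000

open scoped BigOperators

namespace Run7.h96.Hy

open CInv

variable {k : ℕ}

/-- the series of the test functions -/
noncomputable def wo {X : DR (k + 1)} (b : HD X) : X.ps.R :=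
  (PowerSeries.mk fun m => Nat.casesOn (motive := fun _ => X.R) m 0
    (fun m => b.Φ (Fd.om m) ![]) : PowerSeries X.R)

theorem cf_wo0 {X : DR (k + 1)} (b : HD X) : cf 0 (wo b) = 0 := PowerSeries.coeff_mk _ _
theorem cf_wos {X : DR (k + 1)} (b : HD X) (m : ℕ) : cf (m + 1) (wo b) = b.Φ (Fd.om m) ![] :=
  PowerSeries.coeff_mk _ _

theorem S0.wo : S0 (k := k) ⊤ (fun X b => Hy.wo b) := by
  intro m
  have htop : ((m : ℕ) : WithTop ℤ) + ⊤ = ⊤ := add_top _
  rw [htop, EW_top]
  cases m with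
  | zero =>
    refine (NF.zero (k := k)).congr fun X b hb K => ?_
    exact (cf_wo0 b).symm
  | succ m =>
    refine (NF.of (FS.field (n := k + 1) (ρ := ρF) (Fd.om m) (fun _ => Set.mem_univ _)
      (fun _ => Set.mem_univ _))).congr fun X b hb K => ?_
    beta_reduce
    rw [cf_wos]
    exact congrArg _ (Subsingleton.elim _ _)

/-- the gauge function as test functions -/
noncomputable def osF (X : DR (k + 1)) (b : HD X) : Fl X Fd ρF := fun f => match f with
  | Fd.om j => fun _ => cf (j + 1) (os b)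
  | Fd.nu => fun _ => 0
  | Fd.h _ => fun _ => 0
  | Fd.chi => fun _ => 0

open Classical in
theorem repl_scl {X : DR (k + 1)} (b : HD X) {S' N : Set Fd} (h : S' ⊆ N) (Ψ : Fl X Fd ρF) :
    (b.repl S' Ψ).scl N 0 = b.scl N 0 := by
  refine BD.ext' rfl rfl ?_
  funext f K
  show (if f ∈ N then 0 * (b.repl S' Ψ).Φ f K else (b.repl S' Ψ).Φ f K)
    = if f ∈ N then 0 * b.Φ f K else b.Φ f K
  by_cases hf : f ∈ N
  · rw [if_pos hf, if_pos hf, zero_mul, zero_mul]
  · rw [if_neg hf, if_neg hf, repl_out _ _ (fun h' => hf (h h'))]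

theorem gX_repl {X : DR (k + 1)} (b : HD X) {S' : Set Fd} (h2 : ∀ j, Fd.h j ∉ S')
    (Ψ : Fl X Fd ρF) : gX (b.repl S' Ψ) = gX b :=
  gX_congr rfl fun j => repl_out _ _ (h2 j)

theorem Fer.repl {X : DR (k + 1)} {b : HD X} (hb : Fer b) {S' : Set Fd} (h1 : Fd.nu ∉ S')
    (h2 : ∀ j, Fd.h j ∉ S') (Ψ : Fl X Fd ρF) : Fer (b.repl S' Ψ) where
  d0 := hb.d0
  g00 := hb.g00
  g0 := hb.g0
  nu K := by rw [repl_out _ _ h1]; exact hb.nu K
  h0 j i := by rw [repl_out _ _ (h2 j)]; exact hb.h0 j i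
  hs j i i' := by rw [repl_out _ _ (h2 j)]; exact hb.hs j i i'

theorem CR.Lt_eq {T : Sc k} (R : CR T) {X : DR (k + 1)} {b b' : HD X}
    (h : b.scl Nt 0 = b'.scl Nt 0) (Ψ : Fl X Fd ρF) : R.Lt X b Ψ = R.Lt X b' Ψ := by
  refine Finset.sum_congr rfl fun i _ => ?_
  rw [R.hzL i X b, h, ← R.hzL]

open Classical in
/-- the gauge part is a divergence -/
theorem CR.os_split {T : Sc k} (R : CR T) {A : DR (k + 1)} {J : Intg A} (h : HI J T) :
    ∃ (V : ∀ X : DR (k + 1), HD X → Fl X Fd ρF → Fin (k + 1) → X.R),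
      (∀ ψ : ∀ X : DR (k + 1), HD X → Fl X Fd ρF,
        (∀ j ∈ Om, FS Om Set.univ (Fin (ρF j)) (fun X b => ψ X b j)) →
        FS Om Set.univ (Fin 1) (fun X b K => V X b (ψ X b) (K 0))) ∧
      ∀ (b : HD A), Fer b → (∃ w, Vol J b w) → R.Lt A b (toFl (dl b (os b)))
        = dvg A.d b.A b.Gi (V A (b.scl Om 0) (osF A b)) := by
  have hON : Om ⊆ Nt := fun f hf => Or.inr hf
  obtain ⟨s, E, V, hE, hV, hmain⟩ := lin_test (S' := Om) nu_Om h_Om
    (F := fun X b => R.Lt X b (toFl (dl b (wo b)))) (R.Lt_nat (S2.dl S0.wo (w' := ⊤) (by rfl))) (by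
      intro X b hb c hc
      show R.Lt X (b.scl Om c) (toFl (dl (b.scl Om c) (wo (b.scl Om c))))
        = c * R.Lt X b (toFl (dl b (wo b)))
      have hwo : wo (b.scl Om c) = cst c * wo b := by
        apply cf_ext
        intro m
        rw [cf_cst_mul]
        cases m with
        | zero => rw [cf_wo0, cf_wo0, mul_zero]
        | succ m =>
          rw [cf_wos, cf_wos]
          show (if Fd.om m ∈ Om then c * b.Φ (Fd.om m) ![] else b.Φ (Fd.om m) ![]) = _
          rw [if_pos ⟨m, rfl⟩]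
      rw [R.Lt_scl b hON, ← R.Lt_cst b hc, ← toFl_cst, hwo, dl_congr (gX_scl b h_Om c)]
      congr 2
      funext i j
      exact dl_cst hb.d0 hc _ i j)
  have hE0 : ∀ m, Fd.om m ∈ s → ∀ b : HD A, Fer b → ∀ w, Vol J b w →
      E (Fd.om m) A (b.scl Om 0) ![] = 0 := by
    intro m hms b hb w hw
    refine hw.nd _ fun χ => ?_
    let Ψ : Fl A Fd ρF := fun f => match f with
      | Fd.om j => fun _ => if j = m then χ else 0
      | Fd.nu => fun _ => 0
      | Fd.h _ => fun _ => 0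
      | Fd.chi => fun _ => 0
    set b' := b.repl Om Ψ with hb'
    have hfb' : Fer b' := hb.repl nu_Om h_Om Ψ
    have h1 := h b' hfb' w ⟨hw.jac, hw.nd, hw.pd⟩ (wo b')
    rw [cf_wo0, zero_mul, smul_zero, add_zero] at h1
    have h2 : cb b' (wo b') = b'.vary Sh (toFl (dl b' (wo b'))) :=
      (vary_eq_bump b' (cf0_dl b' (cf_wo0 b'))).symm
    rw [h2, R.sn_vary hfb' (dl_zero hfb' _) (dl_symm hfb' _)] at h1
    have h3 := hmain A b' hfb'
    beta_reduce at h3
    rw [h3, repl_scl b (le_refl Om)] at h1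
    have h4 : ∑ j ∈ s, pair b'.Gi (E j A (b.scl Om 0)) (rs Om b' j)
        = E (Fd.om m) A (b.scl Om 0) ![] * χ := by
      rw [Finset.sum_eq_single (Fd.om m)]
      · rw [pair_fin0]
        show _ * (if Fd.om m ∈ Om then b'.Φ (Fd.om m) ![] else 0) = _
        rw [if_pos ⟨m, rfl⟩, hb', repl_in _ _ (show Fd.om m ∈ Om from ⟨m, rfl⟩)]
        show _ * (if m = m then χ else 0) = _
        rw [if_pos rfl]
      · intro j _ hj
        have e1 : rs Om b' j = fun _ => 0 := by
          funext K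
          show (if j ∈ Om then b'.Φ j K else 0) = 0
          by_cases hjO : j ∈ Om
          · obtain ⟨j', rfl⟩ := hjO
            rw [if_pos ⟨j', rfl⟩, hb', repl_in _ _ (show Fd.om j' ∈ Om from ⟨j', rfl⟩)]
            show (if j' = m then χ else 0) = 0
            rw [if_neg (fun h => hj (by rw [h]))]
          · exact if_neg hjO
        rw [e1, pair_zero_right]
      · intro hn
        exact absurd hms hn
    rw [h4, add_mul, map_add] at h1
    have h5 := dvg_I (J := J) (b := b') (w := w) ⟨hw.jac, hw.nd, hw.pd⟩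
      (V A (b.scl Om 0) (rs Om b'))
    rw [h5, add_zero] at h1
    exact h1
  refine ⟨V, hV, fun b hb ⟨w, hw⟩ => ?_⟩
  set b' := b.repl Om (osF A b) with hb'
  have hfb' : Fer b' := hb.repl nu_Om h_Om _
  have hwo : wo b' = os b := by
    apply cf_ext
    intro m
    cases m with
    | zero => rw [cf_wo0, os_O1 hb 0 (by omega)]
    | succ m =>
      rw [cf_wos, hb', repl_in _ _ (show Fd.om m ∈ Om from ⟨m, rfl⟩)]
      rfl
  have h3 := hmain A b' hfb'
  beta_reduce at h3
  rw [hwo, dl_congr (gX_repl b h_Om _), R.Lt_eq (b' := b) (repl_scl b hON _),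
    repl_scl b (le_refl Om)] at h3
  rw [h3]
  have h4 : ∑ j ∈ s, pair b'.Gi (E j A (b.scl Om 0)) (rs Om b' j) = 0 := by
    refine Finset.sum_eq_zero fun j hj => ?_
    by_cases hjO : j ∈ Om
    · obtain ⟨m, rfl⟩ := hjO
      rw [pair_fin0, hE0 m hj b hb w hw, zero_mul]
    · have e1 : rs Om b' j = fun _ => 0 := by
        funext K
        exact if_neg hjO
      rw [e1, pair_zero_right]
  have h5 : rs Om b' = osF A b := by
    funext f K
    show (if f ∈ Om then b'.Φ f K else 0) = osF A b f K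
    by_cases hf : f ∈ Om
    · rw [if_pos hf, hb', repl_in _ _ hf]
    · rw [if_neg hf]
      cases f with
      | om j => exact absurd ⟨j, rfl⟩ hf
      | nu => rfl
      | chi => rfl
      | h j => rfl
  rw [h4, zero_add, h5]
  rfl

/-! ### densities over the dual numbers -/

/-- trace of the Christoffel symbols -/
theorem tr_chr {n : ℕ} {J : Type} {ρ : J → ℕ} {X : DR n} (b : BD X J ρ) (i : Fin n) :
    ∑ p, b.A i p p = (1 / 2 : ℝ) • ∑ p, ∑ q, b.Gi p q * X.d i (b.G p q) := by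
  have h1 : ∀ p, b.A i p p = (1 / 2 : ℝ) • ∑ l, b.Gi p l * (X.d i (b.G p l) + X.d p (b.G i l)
      - X.d l (b.G i p)) := fun p => rfl
  simp only [h1, ← Finset.smul_sum]
  congr 1
  have h2 : ∀ p, ∑ l, b.Gi p l * (X.d i (b.G p l) + X.d p (b.G i l) - X.d l (b.G i p))
      = (∑ l, b.Gi p l * X.d i (b.G p l)) + ((∑ l, b.Gi p l * X.d p (b.G i l))
        - ∑ l, b.Gi p l * X.d l (b.G i p)) := by
    intro p
    rw [← Finset.sum_sub_distrib, ← Finset.sum_add_distrib]
    exact Finset.sum_congr rfl fun l _ => by ring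
  simp only [h2, Finset.sum_add_distrib, Finset.sum_sub_distrib]
  have h3 : ∑ p, ∑ l, b.Gi p l * X.d p (b.G i l) = ∑ p, ∑ l, b.Gi p l * X.d l (b.G i p) := by
    rw [Finset.sum_comm]
    refine Finset.sum_congr rfl fun p _ => Finset.sum_congr rfl fun l _ => ?_
    rw [b.isymm l p]
  rw [h3, sub_self, add_zero]

/-- the metric of an infinitesimal conformal change -/
theorem cb_G {X : DR (k + 1)} {b : HD X} (hb : Fer b) (ω : X.ps.R) (i j : Fin (k + 1)) :
    (cb b ω).G i j = (inlH X).f (b.G i j)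
      + eps (2 * (cf 0 ω * (b.G i j - if i = 0 ∧ j = 0 then 1 else 0))) := by
  show (inlH X).f (b.G i j) + eps ((1 / 2 : ℝ) • (cf 0 (dl b ω i j) + cf 0 (dl b ω j i))) = _
  congr 2
  rw [dl_symm hb ω j i, ← two_smul ℝ, smul_smul]
  norm_num
  refine Fin.cases ?_ (fun i => ?_) i <;> refine Fin.cases ?_ (fun j => ?_) j
  · rw [dl_zero hb, cf_zero, hb.g00]; simp
  · rw [dl_zero hb, cf_zero, hb.g0]; simp
  · rw [dl_symm hb, dl_zero hb, cf_zero, b.symm, hb.g0]; simp
  · rw [cf_dl_top b (O.zero' ω)]; simp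

theorem jac_dual {X : DR (k + 1)} {b : HD X} (hb : Fer b) (ω : X.ps.R) {w : X.R}
    (hw : ∀ i, X.d i w = w * ∑ p, b.A i p p) (i : Fin (k + 1)) :
    X.dual.d i ((inlH X).f w * (1 + (k : ℝ) • eps (cf 0 ω)))
      = ((inlH X).f w * (1 + (k : ℝ) • eps (cf 0 ω))) * ∑ p, (cb b ω).A i p p := by
  have hGi : ∀ i j, b.Gi i j = b.Gi j i := b.isymm
  have hinv : ∀ i j, ∑ p, b.Gi i p * b.G p j = if i = j then 1 else 0 := b.inv'
  have hGi00 : b.Gi 0 0 = 1 := by
    have h := b.inv 0 0
    rw [if_pos rfl, Fin.sum_univ_succ, hb.g00, one_mul] at h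
    simp only [hb.g0, zero_mul, Finset.sum_const_zero, add_zero] at h
    exact h
  have hGi0 : ∀ a : Fin k, b.Gi 0 a.succ = 0 := by
    intro a
    have h := b.inv 0 a.succ
    rw [if_neg (Fin.succ_ne_zero a).symm, Fin.sum_univ_succ, hb.g00, one_mul] at h
    simp only [hb.g0, zero_mul, Finset.sum_const_zero, add_zero] at h
    exact h
  -- the inverse metric
  let e : Fin (k + 1) → Fin (k + 1) → X.R := fun p q =>
    2 * (cf 0 ω * (b.G p q - if p = 0 ∧ q = 0 then 1 else 0))
  have hGid : ∀ p q, (cb b ω).Gi p q = (inlH X).f (b.Gi p q)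
      - eps (2 * (cf 0 ω * (b.Gi p q - if p = 0 ∧ q = 0 then 1 else 0))) := by
    have h1 : IsMetric (cb b ω).G (fun p q => (inlH X).f (b.Gi p q)
      - eps (2 * (cf 0 ω * (b.Gi p q - if p = 0 ∧ q = 0 then 1 else 0)))) := by
      refine ⟨(cb b ω).symm, fun i j => ?_⟩
      apply dual_ext
      · rw [fs_sum]
        have e1 : ∀ p, fs ((cb b ω).G i p * ((inlH X).f (b.Gi p j)
            - eps (2 * (cf 0 ω * (b.Gi p j - if p = 0 ∧ j = 0 then 1 else 0)))))
            = b.G i p * b.Gi p j := by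
          intro p
          rw [cb_G hb, fs_mul, fs_add, fs_sub, fs_inl, fs_inl, fs_eps, fs_eps, add_zero, sub_zero]
        simp only [e1, b.inv]
        split_ifs <;> rfl
      · rw [sn_sum]
        have e1 : ∀ p, sn ((cb b ω).G i p * ((inlH X).f (b.Gi p j)
            - eps (2 * (cf 0 ω * (b.Gi p j - if p = 0 ∧ j = 0 then 1 else 0)))))
            = 2 * (cf 0 ω * ((if i = 0 then b.G i p * (if p = 0 then (if j = 0 then 1 else 0) else 0)
              else b.G i p * (if p = 0 then (if j = 0 then 1 else 0) else 0))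
              - (if i = 0 then (if p = 0 then b.Gi p j else 0) else 0))) := by
          intro p
          rw [cb_G hb, sn_mul, fs_add, fs_sub, fs_inl, fs_inl, fs_eps, fs_eps, add_zero, sub_zero,
            sn_add, sn_sub, sn_inl, sn_inl, sn_eps, sn_eps]
          by_cases hi : i = 0 <;> by_cases hp : p = 0 <;> by_cases hj : j = 0 <;>
            simp [hi, hp, hj] <;> ring
        simp only [e1, ← Finset.mul_sum, Finset.sum_sub_distrib]
        have e2 : ∑ p, (if i = 0 then b.G i p * (if p = 0 then (if j = 0 then (1 : X.R) else 0)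
              else 0) else b.G i p * (if p = 0 then (if j = 0 then 1 else 0) else 0))
            = b.G i 0 * (if j = 0 then 1 else 0) := by
          rw [Finset.sum_eq_single 0]
          · simp
          · intro p _ hp
            simp [hp]
          · simp
        have e3 : ∑ p, (if i = 0 then (if p = 0 then b.Gi p j else 0) else 0)
            = if i = 0 then b.Gi 0 j else 0 := by
          rw [Finset.sum_eq_single 0]
          · simp
          · intro p _ hp
            simp [hp]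
          · simp
        rw [e2, e3]
        have e4 : b.G i 0 * (if j = 0 then 1 else 0) - (if i = 0 then b.Gi 0 j else 0) = 0 := by
          refine Fin.cases ?_ (fun i => ?_) i <;> refine Fin.cases ?_ (fun j => ?_) j
          · rw [hb.g00, hGi00]; simp
          · rw [hGi0]; simp
          · rw [b.symm, hb.g0]; simp
          · simp
        rw [e4, mul_zero, mul_zero]
        split_ifs <;> rfl
    have h2 := metric_unique (cb b ω).met h1
    intro p q
    exact congrFun (congrFun h2 p) q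
  have htr : ∑ p, (cb b ω).A i p p = (inlH X).f (∑ p, b.A i p p)
      + (k : ℝ) • eps (X.d i (cf 0 ω)) := by
    rw [tr_chr, tr_chr b]
    apply dual_ext
    · rw [fs_smul, fs_sum, fs_add, fs_inl, fs_smul, fs_eps, smul_zero, add_zero]
      congr 1
      refine Finset.sum_congr rfl fun p _ => ?_
      rw [fs_sum]
      refine Finset.sum_congr rfl fun q _ => ?_
      rw [fs_mul, fs_d, hGid, cb_G hb, fs_sub, fs_add, fs_inl, fs_inl, fs_eps, fs_eps, add_zero,
        sub_zero]
    · rw [sn_smul, sn_sum, sn_add, sn_inl, sn_smul, sn_eps, zero_add]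
      have e1 : ∀ p, sn (∑ q, (cb b ω).Gi p q * X.dual.d i ((cb b ω).G p q))
          = ∑ q, (2 * (X.d i (cf 0 ω) * (b.Gi p q * (b.G p q - if p = 0 ∧ q = 0 then 1 else 0)))
            + 2 * (cf 0 ω * ((if p = 0 ∧ q = 0 then 1 else 0) * X.d i (b.G p q)))) := by
        intro p
        rw [sn_sum]
        refine Finset.sum_congr rfl fun q _ => ?_
        have hd : X.d i (2 * (cf 0 ω * (b.G p q - if p = 0 ∧ q = 0 then 1 else 0)))
            = 2 * (X.d i (cf 0 ω) * (b.G p q - if p = 0 ∧ q = 0 then 1 else 0))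
              + 2 * (cf 0 ω * X.d i (b.G p q)) := by
          have h2 : X.d i (2 : X.R) = 0 := by
            have := (X.d i).map_natCast 2
            exact_mod_cast this
          have h3 : X.d i (if p = 0 ∧ q = 0 then (1 : X.R) else 0) = 0 := by
            split_ifs
            · exact (X.d i).map_one_eq_zero
            · exact map_zero _
          rw [Derivation.leibniz, Derivation.leibniz, map_sub, h2, h3]
          simp only [smul_eq_mul]; ring
        rw [sn_mul, fs_d, sn_d, hGid, cb_G hb, fs_sub, fs_add, sn_sub, sn_add, fs_inl, fs_inl,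
          sn_inl, sn_inl, fs_eps, fs_eps, sn_eps, sn_eps, add_zero, sub_zero, zero_add, zero_sub, hd]
        ring
      simp only [e1, Finset.sum_add_distrib]
      have e2 : ∑ p, ∑ q, 2 * (X.d i (cf 0 ω) * (b.Gi p q * (b.G p q
          - if p = 0 ∧ q = 0 then 1 else 0))) = 2 * (X.d i (cf 0 ω) * (k : X.R)) := by
        simp only [← Finset.mul_sum]
        congr 2
        have e3 : ∀ p, ∑ q, b.Gi p q * (b.G p q - if p = 0 ∧ q = 0 then 1 else 0)
            = 1 - if p = 0 then 1 else 0 := by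
          intro p
          have e4 : ∀ q, b.Gi p q * (b.G p q - if p = 0 ∧ q = 0 then 1 else 0)
              = b.Gi p q * b.G q p - (if q = 0 then (if p = 0 then b.Gi p q else 0) else 0) := by
            intro q
            rw [b.symm p q]
            by_cases hp : p = 0 <;> by_cases hq : q = 0 <;> simp [hp, hq] <;> ring
          simp only [e4, Finset.sum_sub_distrib, hinv, if_true]
          congr 1
          rw [Finset.sum_eq_single 0]
          · by_cases hp : p = 0
            · simp [hp, hGi00]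
            · simp [hp]
          · intro q _ hq
            simp [hq]
          · simp
        simp only [e3, Finset.sum_sub_distrib]
        simp
      have e5 : ∑ p, ∑ q, 2 * (cf 0 ω * ((if p = 0 ∧ q = 0 then (1 : X.R) else 0)
          * X.d i (b.G p q))) = 0 := by
        refine Finset.sum_eq_zero fun p _ => Finset.sum_eq_zero fun q _ => ?_
        by_cases h : p = 0 ∧ q = 0
        · rw [if_pos h, h.1, h.2, hb.g00, (X.d i).map_one_eq_zero]; simp
        · rw [if_neg h]; simp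
      rw [e2, e5, add_zero]
      have : (2 : X.R) * (X.d i (cf 0 ω) * (k : X.R)) = (2 : ℝ) • ((k : ℝ) • X.d i (cf 0 ω)) := by
        simp only [Algebra.smul_def, map_ofNat, map_natCast]; ring
      rw [this, smul_smul]
      norm_num
  rw [htr, Derivation.leibniz]
  have h2 : X.dual.d i (1 + (k : ℝ) • eps (cf 0 ω)) = (k : ℝ) • eps (X.d i (cf 0 ω)) := by
    apply dual_ext
    · rw [fs_d]; simp
    · rw [sn_d]; simp
  have h3 : X.dual.d i ((inlH X).f w) = (inlH X).f w * (inlH X).f (∑ p, b.A i p p) := by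
    rw [← (inlH X).hd, hw, map_mul]
  rw [h2, h3]
  have h4 : eps (cf 0 ω) * eps (X.d i (cf 0 ω)) = 0 := by
    apply dual_ext <;> simp
  simp only [smul_eq_mul, Algebra.smul_def]
  linear_combination (-(inlH X).f w * (algebraMap ℝ X.dual.R k) * (algebraMap ℝ X.dual.R k)) * h4

end Run7.h96.Hy

end

section

/-!
The core theorem.
-/

set_option linter.all false
set_option maxHeartbeats 400000

open scoped BigOperators

namespace Run7.h96.Hy

open CInv

variable {k : ℕ}

/-- divergences over the dual numbers -/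
theorem dvg_dual_I {A : DR (k + 1)} {J : Intg A} {b : HD A} (hb : Fer b) {w : A.R}
    (hw : Vol J b w) (ω : A.ps.R) (V : Fin (k + 1) → A.dual.R) {q : A.R}
    (hq : fs (dvg A.dual.d (cb b ω).A (cb b ω).Gi V) = q) :
    J.I ((sn (dvg A.dual.d (cb b ω).A (cb b ω).Gi V) + (k : ℝ) • (cf 0 ω * q)) * w) = 0 := by
  have h1 := dvg_total (cb b ω) (jac_dual hb ω hw.jac) V
  have h2 := congrArg sn h1
  rw [sn_sum] at h2
  have h3 : sn (dvg A.dual.d (cb b ω).A (cb b ω).Gi V * ((inlH A).f w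
      * (1 + (k : ℝ) • eps (cf 0 ω)))) = (sn (dvg A.dual.d (cb b ω).A (cb b ω).Gi V)
        + (k : ℝ) • (cf 0 ω * q)) * w := by
    rw [sn_mul, sn_mul, fs_mul, fs_add, sn_add, fs_one, sn_one, fs_smul, sn_smul, fs_eps, sn_eps,
      fs_inl, sn_inl, hq]
    simp only [Algebra.smul_def]
    ring
  rw [h3] at h2
  rw [h2, map_sum]
  refine Finset.sum_eq_zero fun i _ => ?_
  rw [sn_d]
  exact J.dI i _

theorem flowX_Flw : Flw (k := k) (fun X b => flowX b) where
  toAdm := flowX_adm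
  nat := S2.flowX
  cm X b hb ω := flowX_comm hb ω

theorem flow_Flw : Flw (k := k) (fun X b => flow b) where
  toAdm := flow_adm
  nat := S2.flow
  cm X b hb ω := flow_comm hb ω

open Classical in
theorem W_cov {A : DR (k + 1)} {J : Intg A} {T : Sc k} (R : CR T)
    (hTn : NS (EW (k : WithTop ℤ)) T) (h : HI J T)
    {W : Sc k} {V : ∀ X : DR (k + 1), HD X → Fl X Fd ρF → Fin (k + 1) → X.R}
    (hWn : NS Set.univ W)
    (hW : ∀ (X : DR (k + 1)) (b b' : HD X), b.scl Ch 0 = b'.scl Ch 0 → W X b = W X b')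
    (hmain : ∀ (X : DR (k + 1)) (b : HD X), Fer b → R.Lt X b (toFl (flowX b))
        = W X b * b.Φ Fd.chi ![] + dvg X.d b.A b.Gi (V X (b.scl Ch 0) (rs Ch b)))
    {b : HD A} (hb : Fer b) {w : A.R} (hw : Vol J b w) (ω : A.ps.R) :
    sn (W A.dual (cb b ω)) + (k : ℝ) • (cf 0 ω * W A b) = 0 := by
  refine hw.nd _ fun χ => ?_
  have hCS : ∀ f ∈ Ch, f ∉ Sh := fun f hf => Nt_Sh f (Or.inl hf)
  let Ψ : Fl A Fd ρF := fun f => match f with
    | Fd.chi => fun _ => χ
    | Fd.nu => fun _ => 0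
    | Fd.h _ => fun _ => 0
    | Fd.om _ => fun _ => 0
  set b' := b.repl Ch Ψ with hb'
  have hfb' : Fer b' := hb.repl nu_Ch h_Ch Ψ
  have hchi : b'.Φ Fd.chi ![] = χ := by
    rw [hb', repl_in _ _ (show Fd.chi ∈ Ch from rfl)]
  have hbs : b'.scl Ch 0 = b.scl Ch 0 := repl_scl b (le_refl Ch) Ψ
  have hI := (HI.DV hTn h flowX_Flw) b' hfb' w ⟨hw.jac, hw.nd, hw.pd⟩ ω
  set c := cb b' ω with hc
  have hfc : Fer c := hfb'.cb ω
  have hF : ∀ (X : DR (k + 1)) (b : HD X), Fer b → DV (fun X b => flowX b) T X b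
      = W X b * b.Φ Fd.chi ![] + dvg X.d b.A b.Gi (V X (b.scl Ch 0) (rs Ch b)) := by
    intro X b hb
    rw [← hmain X b hb]
    exact R.sn_vary hb (flowX_adm.zero X b hb) (flowX_adm.symm X b hb)
  have hcchi : c.Φ Fd.chi ![] = (inlH A).f χ := by
    show (inlH A).f (b'.Φ Fd.chi ![]) + eps 0 = _
    rw [hchi]
    exact add_zero _
  have hWc : W A.dual c = W A.dual (cb b ω) := by
    refine hW _ _ _ ?_
    rw [hc, cb_scl b' hCS, cb_scl b hCS, hbs]
  have hWb : W A b' = W A b := hW _ _ _ hbs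
  -- functoriality
  have hfst : (c : HD A.dual).map (fstH A).f = b' := by
    rw [hc]; unfold cb; exact fst_bump b' _
  have hfW : fs (W A.dual c) = W A b' := by
    have := hWn.map (fstH A) hfc hb.d0
    rw [hfst] at this
    exact this.symm
  have hfD : fs (DV (fun X b => flowX b) T A.dual c) = DV (fun X b => flowX b) T A b' := by
    have hn : NS (EW (k : WithTop ℤ)) (DV (fun X b => flowX b) T) := hTn.DV flowX_adm S2.flowX
    have := hn.map (fstH A) hfc hb.d0
    rw [hfst] at this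
    exact this.symm
  set Dc := dvg A.dual.d c.A c.Gi (V A.dual (c.scl Ch 0) (rs Ch c)) with hDc
  set Db := dvg A.d b'.A b'.Gi (V A (b'.scl Ch 0) (rs Ch b')) with hDb
  have e1 := hF A.dual c hfc
  have e2 := hF A b' hfb'
  have hq : fs Dc = Db := by
    have h1 := congrArg fs e1
    rw [hfD, e2, fs_add, fs_mul, hfW, hcchi, fs_inl, hchi] at h1
    exact (add_left_cancel h1).symm
  have hz := dvg_dual_I (J := J) hfb' ⟨hw.jac, hw.nd, hw.pd⟩ ω
    (V A.dual (c.scl Ch 0) (rs Ch c)) hq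
  rw [e1, e2, hcchi, hchi] at hI
  have e3 : (sn (W A.dual c * (inlH A).f χ + Dc) + (k : ℝ) • (cf 0 ω * (W A b' * χ + Db))) * w
      = (sn (W A.dual (cb b ω)) + (k : ℝ) • (cf 0 ω * W A b)) * χ * w
        + (sn Dc + (k : ℝ) • (cf 0 ω * Db)) * w := by
    rw [hWc, hWb, sn_add, sn_mul, fs_inl, sn_inl]
    simp only [Algebra.smul_def]
    ring
  rw [e3, map_add] at hI
  have hz' : J.I ((sn Dc + (k : ℝ) • (cf 0 ω * Db)) * w) = 0 := hz
  rw [hz', add_zero] at hI
  exact hI

/-- natural vector fields -/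
def NV (V : ∀ X : DR (k + 1), HD X → Fin (k + 1) → X.R) : Prop :=
  NF Set.univ (Fin 1) (fun X b K => V X b (K 0))

open Classical in
theorem sub_scl {S' : Set Fd} {r : ℕ} {T : Tn (k + 1) Fd ρF r} (h : FS S' Set.univ (Fin r) T)
    (N : Set Fd) : FS Sh Set.univ (Fin r) (fun X b => T X (b.scl N 0)) := by
  refine FS.subst (S := Sh) h (fun X b => (b.scl N 0).Φ) (fun j => ?_)
  by_cases hj : j ∈ N
  · refine (FS.zero (n := k + 1) (ρ := ρF)).congr fun X b K => ?_
    show 0 = (if j ∈ N then 0 * b.Φ j K else b.Φ j K)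
    rw [if_pos hj, zero_mul]
  · refine (FS.field (n := k + 1) (ρ := ρF) j (fun _ => Set.mem_univ _)
      (fun _ => Set.mem_univ _)).congr fun X b K => ?_
    show b.Φ j K = (if j ∈ N then 0 * b.Φ j K else b.Φ j K)
    rw [if_neg hj]

open Classical in
/-- the derivative along the flow of an invariant scalar -/
theorem flow_dec {T : Sc k} (R : CR T) {A : DR (k + 1)} {J : Intg A}
    (hTn : NS (EW (k : WithTop ℤ)) T) (h : HI J T) :
    ∃ (W : Sc k) (V : ∀ X : DR (k + 1), HD X → Fin (k + 1) → X.R), NS Set.univ W ∧ NV V ∧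
      (∀ b : HD A, Fer b → ∀ w, Vol J b w → ∀ ω,
        sn (W A.dual (cb b ω)) + (k : ℝ) • (cf 0 ω * W A b) = 0) ∧
      ∀ b : HD A, Fer b → (∃ w, Vol J b w) → DV (fun X b => flow b) T A b
        = W A b + dvg A.d b.A b.Gi (V A b) := by
  obtain ⟨W, V1, hWn, hW, hV1, hmain⟩ := R.flowX_split
  obtain ⟨V2, hV2, hos⟩ := R.os_split h
  -- representatives of the gauge function
  have hrep : ∀ j : ℕ, ∃ Ψ : Tk (k + 1) Fd ρF (Fin 0),
      FS Sh Set.univ (Fin 0) Ψ ∧
      ∀ (X : DR (k + 1)) (b : HD X), Fer b → ∀ K : Fin 0 → Fin (k + 1),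
        cf (j + 1) (os b) = Ψ X b K := by
    intro j
    obtain ⟨Ψ, h2, h3⟩ := S0.os (k := k) (j + 1)
    exact ⟨Ψ, h2.mono (Set.subset_univ _), h3⟩
  choose Ψ hΨ1 hΨ2 using hrep
  let ψ : ∀ X : DR (k + 1), HD X → Fl X Fd ρF := fun X b f => match f with
    | Fd.om j => Ψ j X b
    | Fd.nu => fun _ => 0
    | Fd.h _ => fun _ => 0
    | Fd.chi => fun _ => 0
  have n1 : FS (n := k + 1) Sh Set.univ (Fin 1) (fun X b K => V1 X (b.scl Ch 0) (chi1 X) (K 0)) := by
    refine sub_scl (hV1 (fun X b => chi1 X) ?_) Ch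
    intro j hj
    have hj' : j = Fd.chi := hj
    subst hj'
    exact FS.one (Set.mem_univ _)
  have n2 : FS (n := k + 1) Sh Set.univ (Fin 1)
      (fun X b K => V2 X (b.scl Om 0) (ψ X (b.scl Om 0)) (K 0)) := by
    refine sub_scl (hV2 ψ ?_) Om
    rintro j ⟨m, rfl⟩
    exact (hΨ1 m).chg
  refine ⟨W, fun X b i => V1 X (b.scl Ch 0) (chi1 X) i + V2 X (b.scl Om 0) (ψ X (b.scl Om 0)) i,
    hWn, ?_, ?_, ?_⟩
  · exact NF.of (n1.add n2)
  · intro b hb w hw ω
    exact W_cov R hTn h hWn hW hmain hb hw ω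
  · intro b hb hw
    have h1 : DV (fun X b => flow b) T A b = R.Lt A b (toFl (flow b)) :=
      R.sn_vary hb (flow_adm.zero A b hb) (flow_adm.symm A b hb)
    have h2 : flow b = fun i j => GF b (tg b) i j + dl b (os b) i j := by
      funext i j
      have : Bf b = fun i j => tg b i j + 2 * os b * gX b i j := rfl
      unfold flow
      rw [this, GF_addT]
      rfl
    have h3 : R.Lt A b (toFl (flow b)) = R.Lt A b (toFl (GF b (tg b)))
        + R.Lt A b (toFl (dl b (os b))) := by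
      rw [h2, ← R.Lt_add, ← toFl_add]
    -- the constant test function
    set b' := b.repl Ch (chi1 A) with hb'
    have hfb' : Fer b' := hb.repl nu_Ch h_Ch _
    have hchi : b'.Φ Fd.chi ![] = 1 := by
      rw [hb', repl_in _ _ (show Fd.chi ∈ Ch from rfl)]
      rfl
    have hbs : b'.scl Ch 0 = b.scl Ch 0 := repl_scl b (le_refl Ch) _
    have hg : gX b' = gX b := gX_repl b h_Ch _
    have hCN : Ch ⊆ Nt := fun f hf => Or.inl hf
    have h4 : R.Lt A b (toFl (GF b (tg b))) = R.Lt A b' (toFl (flowX b')) := by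
      rw [R.Lt_eq (b := b') (b' := b) (repl_scl b hCN _)]
      refine R.Lt_congr b fun j hj => ?_
      funext K
      show cf (j + 1) (GF b (tg b) (K 0) (K 1)) = cf (j + 1) (flowX b' (K 0) (K 1))
      have e1 : flowX b' (K 0) (K 1) = GF b (fun i j => ug b' * tg b i j) (K 0) (K 1) := by
        unfold flowX
        rw [GF_congr hg, tg_congr hg]
      have e2 : (fun i j => ug b' * tg b i j) = fun i j => tg b i j + (ug b' - 1) * tg b i j := by
        funext i j; ring
      have e3 : O (k + 1) (GF b (fun i j => (ug b' - 1) * tg b i j) (K 0) (K 1)) := by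
        refine GF_O (fun i j => ?_) _ _
        exact (ug_one hfb' hchi).mul (tg_O1 hb i j)
      rw [e1, e2, GF_addT, cf_add, e3 (j + 1) (by omega), add_zero]
    have h5 := hmain A b' hfb'
    have h6 : W A b' = W A b := hW _ _ _ hbs
    have h7 : rs Ch b' = chi1 A := by
      funext f K
      show (if f ∈ Ch then b'.Φ f K else 0) = chi1 A f K
      by_cases hf : f ∈ Ch
      · rw [if_pos hf, hb', repl_in _ _ hf]
      · rw [if_neg hf]
        cases f with
        | chi => exact absurd rfl hf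
        | nu => rfl
        | om j => rfl
        | h j => rfl
    rw [h6, hchi, mul_one, hbs, h7] at h5
    have h8 := hos b hb hw
    have h9 : osF A b = ψ A (b.scl Om 0) := by
      funext f K
      have hfs : Fer (b.scl Om 0) := hb.scl nu_Om h_Om 0
      have hoc : os (b.scl Om 0) = os b := os_congr (gX_scl b h_Om 0)
      cases f with
      | om j =>
        show cf (j + 1) (os b) = Ψ j A (b.scl Om 0) K
        rw [← hoc]
        exact hΨ2 j A _ hfs K
      | nu => rfl
      | chi => rfl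
      | h j => rfl
    rw [h1, h3, h4, h5, h8, h9, add_assoc]
    congr 1
    exact (dvg_add b _ _).symm

end Run7.h96.Hy

end

section

/-!
The core theorem: invariant scalars of weight `k`.
-/

set_option linter.all false
set_option maxHeartbeats 400000

open scoped BigOperators

namespace Run7.h96.Hy

open CInv

variable {k : ℕ}

theorem zr_NS {E : Set (Dg Fd)} {T : Sc k} (h : NS E T) : NS E (zr T) := by
  obtain ⟨T', hT', hI⟩ := h
  obtain ⟨ι, hι, g, T1, L, hg, hT1, hS⟩ := hT'.out (Equiv.refl (Fin 0))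
  have h1 : NF (k := k) E (Fin 0) (fun X b K => ∑ i, T1 i X (b.scl Nt 0) K) :=
    NF.of (FS.sum Finset.univ fun i _ => FS.of ((hT1 i).zo Nt_Sh) (hg i))
  refine h1.congr fun X b hb K => ?_
  have h2 := hI X (b.scl Nt 0) (hb.scl nu_Nt h_Nt 0) K
  beta_reduce at h2
  show _ = T X (b.scl Nt 0)
  rw [h2, hS]
  rfl

theorem CR.ns {T : Sc k} (R : CR T) : NS (EW (k : WithTop ℤ)) T := by
  have h1 : NF (k := k) (EW (k : WithTop ℤ)) (Fin 0) (fun X b K => ∑ i, R.T1 i X b K) :=
    NF.of (FS.sum Finset.univ fun i _ => FS.of (R.hT1 i) (mem_EW_nat.mpr (R.hw i)))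
  refine h1.congr fun X b hb K => ?_
  beta_reduce
  rw [R.hT X b hb]
  refine Finset.sum_congr rfl fun i _ => ?_
  exact congrArg _ (Subsingleton.elim _ _)

/-- invariant natural scalars -/
def IM {A : DR (k + 1)} (J : Intg A) : Submodule ℝ (Sc k) where
  carrier := {T | NS (EW (k : WithTop ℤ)) T ∧ HI J T}
  zero_mem' := ⟨NF.zero, fun b hb w hw ω => by
    have : (sn ((0 : Sc k) A.dual (cb b ω)) + (k : ℝ) • (cf 0 ω * (0 : Sc k) A b)) * w = 0 := by
      show (sn (0 : A.dual.R) + (k : ℝ) • (cf 0 ω * (0 : A.R))) * w = 0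
      simp
    rw [this, map_zero]⟩
  add_mem' h h' := ⟨NF.add h.1 h'.1, h.2.add h'.2⟩
  smul_mem' t _ h := ⟨NF.smul h.1 t, h.2.smul t⟩

theorem IM_inv {A : DR (k + 1)} (J : Intg A) : ∀ T ∈ IM J, D' k T ∈ IM J :=
  fun T hT => ⟨hT.1.DV flow_adm S2.flow, HI.DV hT.1 hT.2 flow_Flw⟩

open Classical in
/-- the core theorem -/
theorem core (hk : 1 ≤ k) {A : DR (k + 1)} {J : Intg A}
    (hvol : ∀ b : HD A, Fer b → J.P b.G → ∃ w, Vol J b w) {P : Sc k}
    (hP : NS (EW (k : WithTop ℤ)) P) (hI : HI J P) :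
    ∃ (K0 W : Sc k) (V : ∀ X : DR (k + 1), HD X → Fin (k + 1) → X.R),
      NS (E0 k) K0 ∧ NS Set.univ W ∧ NV V ∧
      (∀ b : HD A, Fer b → J.P b.G → zr P A b = K0 A b + W A b + dvg A.d b.A b.Gi (V A b)) ∧
      (∀ b : HD A, Fer b → J.P b.G → ∀ ω,
        sn (W A.dual (cb b ω)) + (k : ℝ) • (cf 0 ω * W A b) = 0) := by
  obtain ⟨R⟩ := zr_CR hP
  have hT : eqF (zr P) (∑ i, ofT (R.T1 i)) := by
    intro X b hb
    rw [R.hT X b hb, Finset.sum_apply, Finset.sum_apply]
    rfl
  obtain ⟨hI2, heq⟩ := HI.drop hk hvol R.hT1 R.hw hT (zr_HI hI)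
  set Rr : Sc k := ∑ i ∈ Finset.univ.filter (fun i => R.g i ≠ ek k), ofT (R.T1 i) with hRr
  have hgood : Good Rr := by
    refine Good.sum _ fun i hi => ?_
    rw [Finset.mem_filter] at hi
    exact good_HN hk (k * (k + 1) + k) (R.g i) (R.T1 i) (R.L i) (R.hT1 i) (R.hw i) hi.2 (by omega)
  have hRN : NS (EW (k : WithTop ℤ)) Rr := by
    have h1 : NF (k := k) (EW (k : WithTop ℤ)) (Fin 0) (fun X b K =>
        ∑ i ∈ Finset.univ.filter (fun i => R.g i ≠ ek k), R.T1 i X b K) :=
      NF.of (FS.sum _ fun i _ => FS.of (R.hT1 i) (mem_EW_nat.mpr (R.hw i)))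
    refine h1.congr fun X b hb K => ?_
    rw [hRr, Finset.sum_apply, Finset.sum_apply]
    refine Finset.sum_congr rfl fun i _ => ?_
    show R.T1 i X b K = R.T1 i X b ![]
    exact congrArg _ (Subsingleton.elim _ _)
  have hRz : zr Rr = Rr := by
    funext X b
    show Rr X (b.scl Nt 0) = Rr X b
    rw [hRr, Finset.sum_apply, Finset.sum_apply, Finset.sum_apply]
    refine Finset.sum_congr rfl fun i _ => ?_
    exact (R.hz i X b ![]).symm
  obtain ⟨p, hp0, hpK⟩ := hgood
  set T2 : Sc k := Polynomial.aeval (D' k) p.divX Rr with hT2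
  have hT2M : T2 ∈ IM J := inv_aeval (IM_inv J) p.divX Rr ⟨hRN, hI2⟩
  have hp0' : p.coeff 0 ≠ 0 := by
    rw [Polynomial.coeff_zero_eq_eval_zero]; exact hp0
  have hdec : Polynomial.aeval (D' k) p Rr = D' k T2 + p.coeff 0 • Rr := by
    conv_lhs => rw [← Polynomial.divX_mul_X_add p]
    rw [map_add, mul_comm, map_mul, Polynomial.aeval_X, Polynomial.aeval_C]
    rfl
  set T3 : Sc k := (-(p.coeff 0)⁻¹) • T2 with hT3
  have hT3M : T3 ∈ IM J := (IM J).smul_mem _ hT2M
  set K1 : Sc k := (p.coeff 0)⁻¹ • Polynomial.aeval (D' k) p Rr with hK1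
  have hK1M : K1 ∈ KK k := (KK k).smul_mem _ hpK
  have hRr2 : Rr = K1 + D' k T3 := by
    rw [hK1, hT3, map_smul, hdec, smul_add, smul_smul, inv_mul_cancel₀ hp0', one_smul]
    module
  have hRr3 : Rr = zr K1 + D' k (zr T3) := by
    have h1 : zr (D' k T3) = D' k (zr T3) := zr_DV T3
    rw [← h1]
    have h2 : zr K1 + zr (D' k T3) = zr (K1 + D' k T3) := rfl
    rw [h2, ← hRr2, hRz]
  obtain ⟨R3⟩ := zr_CR hT3M.1
  obtain ⟨W, V, hW, hV, hcov, hfl⟩ := flow_dec R3 (J := J) R3.ns (zr_HI hT3M.2)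
  refine ⟨zr K1, W, V, zr_NS hK1M, hW, hV, ?_, ?_⟩
  · intro b hb hPb
    rw [heq b hb hPb]
    have h1 : Rr A b = zr K1 A b + D' k (zr T3) A b := congrFun (congrFun hRr3 A) b
    rw [h1, add_assoc]
    congr 1
    exact hfl b hb (hvol b hb hPb)
  · intro b hb hPb ω
    obtain ⟨w, hw⟩ := hvol b hb hPb
    exact hcov b hb w hw ω

end Run7.h96.Hy

end

section

/-!
Naturality of the curvature tensor of the metric `dr² + h_r` and of its covariant derivatives.
-/

set_option linter.all false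
set_option maxHeartbeats 400000

open scoped BigOperators

namespace Run7.h96.Hy

open CInv

variable {k : ℕ}

section Bg

variable {n : ℕ} {X : DR n} {g gi : Fin n → Fin n → X.R}

theorem F_bg (h : IsMetric g gi) (Γ C : Fin n → Fin n → Fin n → X.R)
    (hΓ : ∀ i l m, Γ i l m = Γ m l i)
    (hA : ∀ i l m, (mbd h).A i l m = Γ i l m + C l i m)
    (i j l m : Fin n) :
    (mbd h).F i j l m = (X.d i (Γ j l m) - X.d j (Γ i l m)
        + ∑ p, (Γ i l p * Γ j p m - Γ j l p * Γ i p m))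
      + (nbC X.D Γ C i l j m - nbC X.D Γ C j l i m)
      + ∑ p, (C l i p * C p j m - C l j p * C p i m) := by
  unfold BD.F
  simp only [hA, map_add]
  unfold nbC
  have e1 : ∑ p, Γ i p j * C l p m = ∑ p, Γ j p i * C l p m :=
    Finset.sum_congr rfl fun p _ => by rw [hΓ i p j]
  have e2 : ∑ p, ((Γ i l p + C l i p) * (Γ j p m + C p j m)
      - (Γ j l p + C l j p) * (Γ i p m + C p i m))
      = (∑ p, (Γ i l p * Γ j p m - Γ j l p * Γ i p m))
        + ((∑ p, Γ i l p * C p j m) + (∑ p, Γ j p m * C l i p) - (∑ p, Γ j l p * C p i m)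
          - ∑ p, Γ i p m * C l j p)
        + ∑ p, (C l i p * C p j m - C l j p * C p i m) := by
    simp only [← Finset.sum_add_distrib, ← Finset.sum_sub_distrib]
    refine Finset.sum_congr rfl fun p _ => by ring
  rw [e2, e1]
  show _ = _ + (X.d i (C l j m) + _ - _ - _ - (X.d j (C l i m) + _ - _ - _)) + _
  ring

end Bg

section Sl

variable {w w' w'' : WithTop ℤ}

theorem S4.perm {T : ∀ X : DR (k + 1), HD X → Fin (k + 1) → Fin (k + 1) → Fin (k + 1)
    → Fin (k + 1) → X.ps.R} (h : S4 w T) (e : Fin 4 → Fin 4) (he : Function.Bijective e) :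
    S4 w (fun X b i j l m => T X b (![i, j, l, m] (e 0)) (![i, j, l, m] (e 1))
      (![i, j, l, m] (e 2)) (![i, j, l, m] (e 3))) := by
  refine SN.congr (SN.comp h e he) fun X b hb K => ?_
  have hK : (![K 0, K 1, K 2, K 3] : Fin 4 → Fin (k + 1)) = K := by
    funext s; fin_cases s <;> rfl
  beta_reduce
  rw [hK]

theorem S4.add {T T' : ∀ X : DR (k + 1), HD X → Fin (k + 1) → Fin (k + 1) → Fin (k + 1)
    → Fin (k + 1) → X.ps.R} (h : S4 w T) (h' : S4 w T') :
    S4 w (fun X b i j l m => T X b i j l m + T' X b i j l m) := SN.add h h'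
theorem S4.sub {T T' : ∀ X : DR (k + 1), HD X → Fin (k + 1) → Fin (k + 1) → Fin (k + 1)
    → Fin (k + 1) → X.ps.R} (h : S4 w T) (h' : S4 w T') :
    S4 w (fun X b i j l m => T X b i j l m - T' X b i j l m) := SN.sub h h'

/-- `∑ Gi l q (M j l N i i' q m)` -/
theorem S4.low {M : ∀ X : DR (k + 1), HD X → Fin (k + 1) → Fin (k + 1) → X.ps.R}
    {T : ∀ X : DR (k + 1), HD X → Fin (k + 1) → Fin (k + 1) → Fin (k + 1)
    → Fin (k + 1) → X.ps.R} (h : S2 w M) (h' : S4 w' T) (hw : w + w' = w'') :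
    S4 w'' (fun X b i i' j m => ∑ l, ∑ q, cst (b.Gi l q) * (M X b j l * T X b i i' q m)) := by
  refine SN.congr (SN.ct (κ := Fin 4) h h' hw ![some (some 2), none]
    ![some (some 0), some (some 1), some none, some (some 3)] (by decide)) fun X b hb K => ?_
  rfl

/-- raising the difference tensor -/
theorem SN.slot {κ : Type} [Fintype κ] [DecidableEq κ] {T : Tp k κ}
    {C : ∀ X : DR (k + 1), HD X → Fin (k + 1) → Fin (k + 1) → Fin (k + 1) → X.ps.R}
    (h : SN w κ T) (h' : S3 w' C) (hw : w + w' = w'') (s : κ) :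
    SN w'' (Option κ) (fun X b K => ∑ l, ∑ q, cst (b.Gi l q)
      * (T X b (Function.update (fun t => K (some t)) s l) * C X b q (K none) (K (some s)))) := by
  let e : κ → Option (Option (Option κ)) := fun t => if t = s then none else some (some (some t))
  let e' : Fin 3 → Option (Option (Option κ)) := ![some none, some (some none), some (some (some s))]
  have he : Function.Bijective (Sum.elim e e') := by
    constructor
    · rintro (t | i) (t' | i') hh
      · simp only [Sum.elim_inl, e] at hh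
        by_cases h1 : t = s
        · by_cases h2 : t' = s
          · rw [h1, h2]
          · rw [if_pos h1, if_neg h2] at hh; cases hh
        · by_cases h2 : t' = s
          · rw [if_neg h1, if_pos h2] at hh; cases hh
          · rw [if_neg h1, if_neg h2] at hh
            simp only [Option.some.injEq] at hh
            rw [hh]
      · exfalso
        simp only [Sum.elim_inl, Sum.elim_inr, e, e'] at hh
        by_cases h1 : t = s
        · rw [if_pos h1] at hh
          fin_cases i' <;> simp at hh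
        · rw [if_neg h1] at hh
          fin_cases i' <;> simp at hh
          exact h1 hh
      · exfalso
        simp only [Sum.elim_inl, Sum.elim_inr, e, e'] at hh
        by_cases h1 : t' = s
        · rw [if_pos h1] at hh
          fin_cases i <;> simp at hh
        · rw [if_neg h1] at hh
          fin_cases i <;> simp at hh
          exact h1 hh.symm
      · simp only [Sum.elim_inr, e'] at hh
        fin_cases i <;> fin_cases i' <;> first | rfl | simp at hh
    · rintro (_ | _ | _ | t)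
      · exact ⟨Sum.inl s, if_pos rfl⟩
      · exact ⟨Sum.inr 0, rfl⟩
      · exact ⟨Sum.inr 1, rfl⟩
      · by_cases h1 : t = s
        · subst h1; exact ⟨Sum.inr 2, rfl⟩
        · exact ⟨Sum.inl t, if_neg h1⟩
  refine SN.congr (SN.ct (κ := Option κ) h h' hw e e' he) fun X b hb K => ?_
  refine Finset.sum_congr rfl fun l _ => Finset.sum_congr rfl fun q _ => ?_
  congr 2
  congr 1
  funext t
  simp only [e, Function.update_apply]
  by_cases h1 : t = s
  · rw [if_pos h1, if_pos h1]; rfl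
  · rw [if_neg h1, if_neg h1]; rfl

end Sl

/-! ### the curvature -/

section Geo

variable {X : DR (k + 1)} {b : HD X}

/-- difference tensor with the upper index in front -/
noncomputable def uC (b : HD X) (l i m : Fin (k + 1)) : X.ps.R :=
  upC (fun i j => cst (b.Gi i j)) (nC b) l i m

theorem mbd_A (hb : Fer b) (i l m : Fin (k + 1)) :
    (mbd hb.metric).A i l m = cA b i l m + uC b l i m := by
  show chr X.ps.D (gX b) (gXi b) l i m = _
  rw [chr_bg hb.metric (cA b) (cA_symm b), nC_up]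
  rfl

/-- intermediate tensor -/
noncomputable def Zt (b : HD X) (i j q m : Fin (k + 1)) : X.ps.R :=
  cst (b.curv ![i, j, q, m]) + (nb3 X.ps.D (cA b) (nC b) i q j m
    - nb3 X.ps.D (cA b) (nC b) j q i m)
    + ((∑ l, ∑ p, cst (b.Gi l p) * (nC b q i l * nC b p j m))
      - ∑ l, ∑ p, cst (b.Gi l p) * (nC b q j l * nC b p i m))

theorem up_curv (b : HD X) (i j l m : Fin (k + 1)) :
    ∑ q, b.Gi l q * b.curv ![i, j, q, m] = b.F i j l m := by
  have h1 : ∀ q, b.Gi l q * b.curv ![i, j, q, m] = ∑ p, (b.Gi l q * b.G q p) * b.F i j p m := by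
    intro q
    show b.Gi l q * (∑ p, b.G q p * b.F i j p m) = _
    rw [Finset.mul_sum]
    refine Finset.sum_congr rfl fun p _ => by ring
  simp only [h1]
  rw [Finset.sum_comm]
  simp only [← Finset.sum_mul, b.inv']
  simp

theorem F_Zt (hb : Fer b) (i j l m : Fin (k + 1)) :
    (mbd hb.metric).F i j l m = ∑ q, cst (b.Gi l q) * Zt b i j q m := by
  have hGi : ∀ i l m, X.ps.D i (cst (b.Gi l m))
    = -(∑ p, cA b i l p * cst (b.Gi p m)) - ∑ p, cA b i m p * cst (b.Gi l p) := cGi_compat hb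
  rw [F_bg hb.metric (cA b) (uC b) (cA_symm b) (mbd_A hb)]
  unfold uC
  have h1 : ∀ i j, nbC X.ps.D (cA b) (upC (fun i j => cst (b.Gi i j)) (nC b)) i l j m
      = ∑ q, cst (b.Gi l q) * nb3 X.ps.D (cA b) (nC b) i q j m := fun i j =>
    nbC_up X.ps.isDer (Γ := cA b) hGi (nC b) i l j m
  have h1' : (fun l i j => upC (fun i j => cst (b.Gi i j)) (nC b) l i j)
      = upC (fun i j => cst (b.Gi i j)) (nC b) := rfl
  rw [h1', h1, h1]
  have h2 : X.ps.d i (cA b j l m) - X.ps.d j (cA b i l m)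
      + ∑ p, (cA b i l p * cA b j p m - cA b j l p * cA b i p m)
      = ∑ q, cst (b.Gi l q) * cst (b.curv ![i, j, q, m]) := by
    have h3 : ∑ q, cst (b.Gi l q) * cst (b.curv ![i, j, q, m]) = cst (b.F i j l m) := by
      rw [← up_curv, cst_sum]
      simp only [cst_mul]
    rw [h3]
    unfold BD.F
    rw [cst_add, cst_sub, cst_sum]
    simp only [cst_sub, cst_mul]
    have e1 : ∀ i (a : X.R), X.ps.d i (cst a) = cst (X.d i a) := fun i a => D_cst hb.d0 i a
    unfold cA
    rw [e1, e1]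
  have h4 : ∀ i j, ∑ p, upC (fun i j => cst (b.Gi i j)) (nC b) l i p
      * upC (fun i j => cst (b.Gi i j)) (nC b) p j m
      = ∑ q, cst (b.Gi l q) * ∑ l', ∑ p, cst (b.Gi l' p) * (nC b q i l' * nC b p j m) := by
    intro i j
    unfold upC
    simp only [Finset.sum_mul_sum]
    rw [Finset.sum_comm]
    refine Finset.sum_congr rfl fun q _ => ?_
    simp only [Finset.mul_sum]
    refine Finset.sum_congr rfl fun p _ => Finset.sum_congr rfl fun r _ => by ring
  rw [h2, Finset.sum_sub_distrib, h4, h4]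
  unfold Zt
  simp only [mul_add, mul_sub, Finset.sum_add_distrib, Finset.sum_sub_distrib]

end Geo

theorem S4.Zt : S4 (k := k) 2 (fun X b i j q m => Hy.Zt b i j q m) := by
  have h12 : (1 : WithTop ℤ) + 1 = 2 := by norm_num
  have h0 : S4 (k := k) 2 (fun X b i j q m => Hy.cst (b.curv ![i, j, q, m])) := by
    have h1 : NF (k := k) (EW 2) (Fin 4) (fun X b => b.curv) :=
      NF.of (FS.curv (Or.inr (by rw [wt_N]; rfl)))
    refine SN.congr (SN.ofNF h1) fun X b hb K => ?_
    refine congrArg Hy.cst (congrArg b.curv ?_)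
    funext s; fin_cases s <;> rfl
  have h4 : S4 (k := k) 2 (fun X b i j l m => nb3 X.ps.D (cA b) (Hy.nC b) i j l m) :=
    S3.d (w := 1) S3.nC (by norm_num)
  have h5 : S4 (k := k) 2 (fun X b i j q m => nb3 X.ps.D (cA b) (Hy.nC b) i q j m) :=
    S4.perm h4 ![0, 2, 1, 3] (by decide)
  have h6 : S4 (k := k) 2 (fun X b i j q m => nb3 X.ps.D (cA b) (Hy.nC b) j q i m) :=
    S4.perm h4 ![1, 2, 0, 3] (by decide)
  have h7 : S4 (k := k) 2 (fun X b i j q m => ∑ l, ∑ p, Hy.cst (b.Gi l p)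
      * (Hy.nC b q j l * Hy.nC b p i m)) := S3.tt S3.nC S3.nC h12
  have h8 : S4 (k := k) 2 (fun X b i j q m => ∑ l, ∑ p, Hy.cst (b.Gi l p)
      * (Hy.nC b q i l * Hy.nC b p j m)) := S4.perm h7 ![1, 0, 2, 3] (by decide)
  exact S4.add (S4.add h0 (S4.sub h5 h6)) (S4.sub h8 h7)

open Classical in
/-- covariant derivatives of the curvature of `dr² + h_r` -/
noncomputable def rX (l : ℕ) : Tp k (Fin (4 + l)) := fun X b K =>
  if h : IsMetric (gX b) (gXi b) then rm h l K else 0

theorem rX_eq {X : DR (k + 1)} {b : HD X} (hb : Fer b) (l : ℕ) (K : Fin (4 + l) → Fin (k + 1)) :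
    rX l X b K = rm hb.metric l K := by
  unfold rX
  rw [dif_pos hb.metric]

theorem SN.rX0 : SN (k := k) 2 (Fin 4) (rX 0) := by
  have h1 : S4 (k := k) 2 (fun X b i i' j m => ∑ l, ∑ q, Hy.cst (b.Gi l q)
      * (gX b j l * Hy.Zt b i i' q m)) := S4.low S2.g S4.Zt (by norm_num)
  refine SN.congr h1 fun X b hb K => ?_
  rw [rX_eq hb]
  show _ = ∑ p, gX b (K 2) p * (mbd hb.metric).F (K 0) (K 1) p (K 3)
  refine Finset.sum_congr rfl fun l _ => ?_
  rw [F_Zt hb, Finset.mul_sum]
  refine Finset.sum_congr rfl fun q _ => by ring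

theorem SN.rX (l : ℕ) : SN (k := k) ((l + 2 : ℕ) : WithTop ℤ) (Fin (4 + l)) (Hy.rX l) := by
  induction l with
  | zero => exact SN.wc SN.rX0 (by norm_num)
  | succ l ih =>
    have hw : ((l + 2 : ℕ) : WithTop ℤ) + 1 = ((l + 1 + 2 : ℕ) : WithTop ℤ) :=
      (Nat.cast_succ (l + 2)).symm
    have h1 := SN.dd ih hw
    have h2 : ∀ s : Fin (4 + l), SN (k := k) ((l + 1 + 2 : ℕ) : WithTop ℤ) (Option (Fin (4 + l)))
        (fun X b K => ∑ l', ∑ q, Hy.cst (b.Gi l' q)
          * (Hy.rX l X b (Function.update (fun t => K (some t)) s l')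
            * Hy.nC b q (K none) (K (some s)))) := fun s => SN.slot ih S3.nC hw s
    have h3 : SN (k := k) ((l + 1 + 2 : ℕ) : WithTop ℤ) (Option (Fin (4 + l)))
        (fun X b K => ∑ s, ∑ l', ∑ q, Hy.cst (b.Gi l' q)
          * (Hy.rX l X b (Function.update (fun t => K (some t)) s l')
            * Hy.nC b q (K none) (K (some s)))) := by
      intro m
      refine (NF.sum Finset.univ fun s _ => h2 s m).congr fun X b _ K => ?_
      rw [cf_sum]
    refine SN.congr ((h1.sub h3).comp (finSuccEquiv (4 + l)).symm (Equiv.bijective _))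
      fun X b hb K => ?_
    rw [rX_eq hb]
    show _ = DD X.ps.d (mbd hb.metric).A (rm hb.metric l) (fun s => K ((finSuccEquiv (4 + l)).symm s))
    have h4 : Hy.rX l X b = rm hb.metric l := by funext K; exact rX_eq hb l K
    beta_reduce
    rw [h4]
    unfold Run7.h96.DD cov act
    simp only [mbd_A hb, add_mul, Finset.sum_add_distrib]
    rw [sub_add_eq_sub_sub]
    congr 1
    refine Finset.sum_congr rfl fun s _ => Finset.sum_congr rfl fun l' _ => ?_
    unfold uC upC
    rw [Finset.sum_mul]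
    refine Finset.sum_congr rfl fun q _ => by ring

end Run7.h96.Hy

end

section

/-!
The basic tensors of the hypersurface `{r = 0}` for the metric `dr² + h_r` are natural in the
Taylor coefficients of `h_r`; weights.
-/

set_option linter.all false
set_option maxHeartbeats 400000

open scoped BigOperators

namespace Run7.h96.Hy

open CInv

variable {k : ℕ}

/-- restriction of a power series to `r = 0` -/
noncomputable def c0 (A : DR (k + 1)) : A.ps.R →ₐ[ℝ] A.R where
  toFun F := cf 0 F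
  map_one' := by rw [cf_one, if_pos rfl]
  map_mul' F G := by
    rw [cf_mul, Finset.Nat.antidiagonal_zero, Finset.sum_singleton]
  map_zero' := cf_zero 0
  map_add' F G := cf_add 0 F G
  commutes' t := by
    have h1 : (algebraMap ℝ A.ps.R t) = t • (1 : A.ps.R) := Algebra.algebraMap_eq_smul_one t
    have h2 : (algebraMap ℝ A.R t) = t • (1 : A.R) := Algebra.algebraMap_eq_smul_one t
    show cf 0 (algebraMap ℝ A.ps.R t) = _
    rw [h1, h2, cf_smul, cf_one, if_pos rfl]

theorem c0_apply {A : DR (k + 1)} (F : A.ps.R) : c0 A F = cf 0 F := rfl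

/-- the formal hypersurface -/
noncomputable def psHs {A : DR (k + 1)} (h0 : ∀ f, A.d 0 f = 0) : Hs A.ps A where
  res := c0 A
  hd a f := cf_ds 0 a f
  d0 := h0

/-- the metric `dr² + h_r` -/
noncomputable def fmt {A : DR (k + 1)} {b : HD A} (hb : Fer b) : Mt (psHs hb.d0) where
  g := gX b
  gi := gXi b
  met := hb.metric
  N := 1
  hN := by
    show 1 * 1 * cf 0 (gXi b 0 0) = 1
    rw [hb.gXi00, cf_one, if_pos rfl]; ring

theorem fmt_fr {A : DR (k + 1)} {b : HD A} (hb : Fer b) (i j : Fin (k + 1)) :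
    (fmt hb).fr i j = if i = j then 1 else 0 := by
  refine Fin.cases ?_ (fun a => ?_) i
  · show 1 * cf 0 (gXi b 0 j) = _
    rw [hb.gXi0i, one_mul]
    by_cases h : j = 0
    · rw [if_pos h, if_pos h.symm, cf_one, if_pos rfl]
    · rw [if_neg h, if_neg (Ne.symm h), cf_zero]
  · rfl

theorem fmt_along {A : DR (k + 1)} {b : HD A} (hb : Fer b) {r : ℕ}
    (T : (Fin r → Fin (k + 1)) → A.ps.R) (K : Fin r → Fin (k + 1)) :
    (fmt hb).along T K = cf 0 (T K) := by
  show (∑ L : Fin r → Fin (k + 1), (∏ s, (fmt hb).fr (K s) (L s)) * cf 0 (T L)) = _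
  simp only [fmt_fr hb]
  rw [Finset.sum_eq_single K]
  · simp
  · intro L _ hL
    have : ∃ s, K s ≠ L s := by
      by_contra h
      push Not at h
      exact hL (funext fun s => (h s).symm)
    obtain ⟨s, hs⟩ := this
    rw [Finset.prod_eq_zero (Finset.mem_univ s) (if_neg hs), zero_mul]
  · intro h; exact absurd (Finset.mem_univ K) h

/-- weights of the basic tensors -/
def wa : Fa → ℕ
  | Fa.nu => 0
  | Fa.II => 1
  | Fa.R l => l + 2

/-- representative of the derivatives of the curvature -/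
noncomputable def RF (l : ℕ) : Tk (k + 1) Fd ρF (Fin (4 + l)) := Classical.choose (SN.rX (k := k) l 0)

theorem RF_FS (l : ℕ) : FS Sh (EW ((l + 2 : ℕ) : WithTop ℤ)) (Fin (4 + l)) (RF (k := k) l) := by
  have h := (Classical.choose_spec (SN.rX (k := k) l 0)).1
  have e : ((0 : ℕ) : WithTop ℤ) + ((l + 2 : ℕ) : WithTop ℤ) = ((l + 2 : ℕ) : WithTop ℤ) := by
    rw [Nat.cast_zero, zero_add]
  exact h.mono (by rw [e])

theorem RF_eq (l : ℕ) {X : DR (k + 1)} {b : HD X} (hb : Fer b) (K : Fin (4 + l) → Fin (k + 1)) :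
    cf 0 (rm hb.metric l K) = RF l X b K := by
  rw [← rX_eq hb]
  exact (Classical.choose_spec (SN.rX (k := k) l 0)).2 X b hb K

/-- basic tensors of Fermi data -/
noncomputable def hFf (X : DR (k + 1)) (b : HD X) : Fl X Fa ρa := fun j => match j with
  | Fa.nu => b.Φ Fd.nu
  | Fa.II => fun K => (-(1 / 2 : ℝ)) • b.Φ (Fd.h 0) K
  | Fa.R l => RF l X b

theorem hFf_FS (j : Fa) : FS Sh (EW ((wa j : ℕ) : WithTop ℤ)) (Fin (ρa j))
    (fun X (b : HD X) => hFf (k := k) X b j) := by
  cases j with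
  | nu =>
    refine FS.field Fd.nu ?_ ?_
    · rintro ⟨j, hj⟩; cases hj
    · intro _
      right
      rw [wt_zero]; rfl
  | II =>
    refine (FS.field (E := EW ((1 : ℕ) : WithTop ℤ)) (Fd.h 0) ?_ ?_).smul (-(1 / 2 : ℝ))
    · intro _
      right
      rw [wt_single]; simp
    · intro h; exact absurd ⟨0, rfl⟩ h
  | R l => exact RF_FS l

theorem chr0_fer {A : DR (k + 1)} {b : HD A} (hb : Fer b) (a c : Fin k) :
    cf 0 (chr A.ps.D (gX b) (gXi b) 0 a.succ c.succ)
      = (-(1 / 2 : ℝ)) • b.Φ (Fd.h 0) ![a.succ, c.succ] := by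
  unfold chr
  rw [cf_smul, Fin.sum_univ_succ, hb.gXi00, one_mul]
  have h1 : ∀ d : Fin k, gXi b 0 d.succ * (A.ps.D a.succ (gX b c.succ d.succ)
      + A.ps.D c.succ (gX b a.succ d.succ) - A.ps.D d.succ (gX b a.succ c.succ)) = 0 := by
    intro d
    rw [hb.gXi0, zero_mul]
  rw [Finset.sum_eq_zero fun d _ => h1 d, add_zero, hb.gX0', hb.gX0', der_zero A.ps.isDer,
    der_zero A.ps.isDer, zero_add, zero_sub, cf_neg, cf_d0, cf_gX]
  show (1 / 2 : ℝ) • -((((0 : ℕ) : ℝ) + 1) • b.Φ (Fd.h 0) ![a.succ, c.succ]) = _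
  rw [← neg_smul, smul_smul]
  norm_num

/-- the basic tensors of the metric `dr² + h_r` -/
theorem fmt_hyp {A : DR (k + 1)} {b : HD A} (hb : Fer b) : (fmt hb).hyp = b.setF (hFf A b) := by
  have hG : (fmt hb).hyp.G = b.G := by
    funext i j
    show ext 1 (fun a c => cf 0 (gX b a.succ c.succ)) i j = b.G i j
    simp only [cf_gX]
    refine Fin.cases ?_ (fun a => ?_) i <;> refine Fin.cases ?_ (fun c => ?_) j
    · exact hb.g00.symm
    · exact (hb.g0 c).symm
    · rw [b.symm a.succ 0]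
      exact (hb.g0 a).symm
    · rfl
  refine BD.ext' hG (inv_unique (hG ▸ (fmt hb).hyp.met) b.met) ?_
  funext j K
  cases j with
  | nu => exact (hb.nu K).symm
  | II =>
    have h2 : ∀ K : Fin 2 → Fin (k + 1), K = ![K 0, K 1] := by
      intro K; funext s; fin_cases s <;> rfl
    show ext 0 (fmt hb).II (K 0) (K 1) = (-(1 / 2 : ℝ)) • b.Φ (Fd.h 0) K
    rw [h2 K]
    have h3 : ∀ i j : Fin (k + 1), ext 0 (fmt hb).II i j = (-(1 / 2 : ℝ)) • b.Φ (Fd.h 0) ![i, j] := by
      intro i j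
      refine Fin.cases ?_ (fun a => ?_) i
      · rw [hb.h0, smul_zero]
        refine Fin.cases ?_ (fun c => ?_) j <;> rfl
      · refine Fin.cases ?_ (fun c => ?_) j
        · rw [hb.hs, hb.h0, smul_zero]; rfl
        · show 1 * cf 0 (chr A.ps.D (gX b) (gXi b) 0 a.succ c.succ) = _
          rw [one_mul, chr0_fer hb]
    exact h3 _ _
  | R l =>
    show (fmt hb).along (rm (fmt hb).met l) K = RF l A b K
    rw [fmt_along hb]
    exact RF_eq l hb K

/-! ### weighted substitution -/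

/-- weight of a degree -/
noncomputable def wg {J : Type} (w : J → ℕ) (g : Dg J) : ℕ := g.2 + g.1.sum (fun f m => m * w f)

theorem wg_zero {J : Type} (w : J → ℕ) : wg w 0 = 0 := by simp [wg]

theorem wg_add {J : Type} (w : J → ℕ) (g g' : Dg J) : wg w (g + g') = wg w g + wg w g' := by
  unfold wg
  rw [Prod.fst_add, Prod.snd_add, Finsupp.sum_add_index']
  · ring
  · intro f; simp
  · intro f m m'; ring

theorem EW_nat_add (m m' : ℕ) : ((m : ℕ) : WithTop ℤ) + ((m' : ℕ) : WithTop ℤ)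
    = ((m + m' : ℕ) : WithTop ℤ) := (Nat.cast_add m m').symm

theorem HN.substW {J' : Type} {ρ' : J' → ℕ} {g : Dg J'} {r : ℕ} {T : Tn (k + 1) J' ρ' r}
    {L : Ln (k + 1) J' ρ' r} (h : HN Set.univ g r T L) (w : J' → ℕ)
    (Ψ : ∀ X : DR (k + 1), HD X → Fl X J' ρ')
    (hΨ : ∀ j, FS Sh (EW ((w j : ℕ) : WithTop ℤ)) (Fin (ρ' j)) (fun X b => Ψ X b j)) :
    FS Sh (EW ((wg w g : ℕ) : WithTop ℤ)) (Fin r) (fun X b => T X (b.setF (Ψ X b))) := by
  induction h with
  | one =>
    refine FS.one ?_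
    right; rw [wt_zero, wg_zero]; rfl
  | met =>
    refine FS.metr ?_
    right; rw [wt_zero, wg_zero]; rfl
  | curv =>
    refine FS.curv ?_
    right
    rw [wt_N]
    simp [wg]
  | fieldV j hj =>
    refine (hΨ j).mono ?_
    have : wg w (Finsupp.single j 1, 0) = w j := by simp [wg]
    rw [this]
  | fieldC j hj => exact absurd (Set.mem_univ j) hj
  | zero g r => exact FS.zero
  | add _ _ h1 h2 => exact h1.add h2
  | smul t _ h1 => exact h1.smul t
  | @mul g g' r r' t T T' L L' e _ _ h1 h2 =>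
    refine (h1.mul h2 ?_).relab e
    refine EW_add ?_
    rw [EW_nat_add, wg_add]
  | perm e _ h1 => exact h1.relab e
  | contr e _ h1 => exact FS.contr2 (h1.relab e)
  | @deriv g r t T L e _ h1 =>
    refine (h1.DD ?_).relab e
    intro g' hg'
    refine EW_add ?_ g' hg' _ EW_one
    have : wg w (g + (0, 1)) = wg w g + 1 := by
      rw [wg_add]; simp [wg]
    rw [this, Nat.cast_succ]

theorem FS.substW {J' : Type} {ρ' : J' → ℕ} {κ : Type} {T : Tk (k + 1) J' ρ' κ} (w : J' → ℕ) {m : ℕ}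
    (h : FS Set.univ {g | wg w g = m} κ T)
    (Ψ : ∀ X : DR (k + 1), HD X → Fl X J' ρ')
    (hΨ : ∀ j, FS Sh (EW ((w j : ℕ) : WithTop ℤ)) (Fin (ρ' j)) (fun X b => Ψ X b j)) :
    FS Sh (EW ((m : ℕ) : WithTop ℤ)) κ (fun X b => T X (b.setF (Ψ X b))) := by
  obtain ⟨r, e, ι, hι, g, F, L, hg, hT, hI⟩ := h
  have h1 : FS Sh (EW ((m : ℕ) : WithTop ℤ)) (Fin r) (fun X b K => ∑ i, F i X (b.setF (Ψ X b)) K) := by
    refine FS.sum Finset.univ fun i _ => ?_
    have h2 := HN.substW (hT i) w Ψ hΨ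
    have h3 : wg w (g i) = m := hg i
    rw [h3] at h2
    exact h2
  exact (h1.relab e.symm).congr fun X b K => (hI X _ K).symm

/-! ### formulas and finite sums of homogeneous tensors -/

theorem Fml.toFS {n : ℕ} {J : Type} {ρ : J → ℕ} {r : ℕ} (P : Fml J ρ r) :
    FS (n := n) (Set.univ : Set J) Set.univ (Fin r) (fun X b => P.eval X b) := by
  induction P with
  | one => exact FS.one (Set.mem_univ _)
  | met => exact FS.metr (Set.mem_univ _)
  | curv => exact FS.curv (Set.mem_univ _)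
  | fld j => exact FS.field j (fun _ => Set.mem_univ _) (fun _ => Set.mem_univ _)
  | zero r => exact FS.zero
  | add _ _ h1 h2 => exact h1.add h2
  | smul t _ h1 => exact h1.smul t
  | mul e _ _ h1 h2 => exact (h1.mul h2 fun _ _ _ _ => Set.mem_univ _).relab e
  | perm e _ h1 => exact h1.relab e
  | contr e _ h1 => exact FS.contr2 (h1.relab e)
  | deriv e _ h1 => exact (h1.DD fun _ _ => Set.mem_univ _).relab e

theorem HN.toFml {n : ℕ} {J : Type} {ρ : J → ℕ} {S : Set J} {g : Dg J} {r : ℕ} {T : Tn n J ρ r}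
    {L : Ln n J ρ r} (h : HN S g r T L) :
    ∃ P : Fml J ρ r, ∀ X b K, P.eval X b K = T X b K := by
  induction h with
  | one => exact ⟨.one, fun _ _ _ => rfl⟩
  | met => exact ⟨.met, fun _ _ _ => rfl⟩
  | curv => exact ⟨.curv, fun _ _ _ => rfl⟩
  | fieldV j hj => exact ⟨.fld j, fun _ _ _ => rfl⟩
  | fieldC j hj => exact ⟨.fld j, fun _ _ _ => rfl⟩
  | zero g r => exact ⟨.zero r, fun _ _ _ => rfl⟩
  | add _ _ h1 h2 =>
    obtain ⟨P, hP⟩ := h1
    obtain ⟨Q, hQ⟩ := h2
    exact ⟨.add P Q, fun X b K => by simp only [Fml.eval, hP, hQ]⟩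
  | smul t _ h1 =>
    obtain ⟨P, hP⟩ := h1
    exact ⟨.smul t P, fun X b K => by simp only [Fml.eval, hP]⟩
  | mul e _ _ h1 h2 =>
    obtain ⟨P, hP⟩ := h1
    obtain ⟨Q, hQ⟩ := h2
    refine ⟨.mul e P Q, fun X b K => ?_⟩
    show relab e (tens (P.eval X b) (Q.eval X b)) K = _
    rw [show P.eval X b = _ from funext fun K => hP X b K,
      show Q.eval X b = _ from funext fun K => hQ X b K]
  | perm e _ h1 =>
    obtain ⟨P, hP⟩ := h1
    refine ⟨.perm e P, fun X b K => ?_⟩
    show relab e (P.eval X b) K = _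
    rw [show P.eval X b = _ from funext fun K => hP X b K]
  | contr e _ h1 =>
    obtain ⟨P, hP⟩ := h1
    refine ⟨.contr e P, fun X b K => ?_⟩
    show contr2 b.Gi (relab e (P.eval X b)) K = _
    rw [show P.eval X b = _ from funext fun K => hP X b K]
  | deriv e _ h1 =>
    obtain ⟨P, hP⟩ := h1
    refine ⟨.deriv e P, fun X b K => ?_⟩
    show relab e (DD X.d b.A (P.eval X b)) K = _
    rw [show P.eval X b = _ from funext fun K => hP X b K]

theorem FS.toFml {n : ℕ} {J : Type} {ρ : J → ℕ} {S : Set J} {E : Set (Dg J)} {r : ℕ}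
    {T : Tn n J ρ r} (h : FS S E (Fin r) T) :
    ∃ P : Fml J ρ r, ∀ X b K, P.eval X b K = T X b K := by
  classical
  obtain ⟨ι, hι, g, F, L, hg, hT, hI⟩ := h.out (Equiv.refl (Fin r))
  have h1 : ∀ s : Finset ι, ∃ P : Fml J ρ r, ∀ (X : DR n) (b : BD X J ρ) K,
      P.eval X b K = ∑ i ∈ s, F i X b K := by
    intro s
    induction s using Finset.induction_on with
    | empty => exact ⟨.zero r, fun X b K => by simp only [Finset.sum_empty]; rfl⟩
    | @insert a s ha ih =>
      obtain ⟨P, hP⟩ := ih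
      obtain ⟨Q, hQ⟩ := (hT a).toFml
      refine ⟨.add Q P, fun X b K => ?_⟩
      rw [Finset.sum_insert ha]
      simp only [Fml.eval, hP, hQ]
  obtain ⟨P, hP⟩ := h1 Finset.univ
  refine ⟨P, fun X b K => ?_⟩
  rw [hP, hI]
  rfl

/-- the part of a given weight -/
theorem FS.parts {n : ℕ} {J : Type} {ρ : J → ℕ} {κ : Type} [Finite κ] {T : Tk n J ρ κ} (w : J → ℕ)
    (h : FS (Set.univ : Set J) Set.univ κ T) :
    ∃ (M : ℕ) (Q : ℕ → Tk n J ρ κ), (∀ m, FS Set.univ {g | wg w g = m} κ (Q m)) ∧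
      ∀ X b K, T X b K = ∑ m ∈ Finset.range M, Q m X b K := by
  classical
  obtain ⟨r, e, ι, hι, g, F, L, hg, hT, hI⟩ := h
  obtain ⟨M, hM⟩ : ∃ M, ∀ i, wg w (g i) < M :=
    ⟨(Finset.univ.sup fun i => wg w (g i)) + 1, fun i =>
      Nat.lt_succ_of_le (Finset.le_sup (f := fun i => wg w (g i)) (Finset.mem_univ i))⟩
  refine ⟨M, fun m X b K => ∑ i ∈ Finset.univ.filter (fun i => wg w (g i) = m),
    F i X b (fun s => K (e.symm s)), fun m => ?_, fun X b K => ?_⟩
  · refine FS.sum _ fun i hi => ?_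
    rw [Finset.mem_filter] at hi
    exact (FS.of (hT i) (E := {g | wg w g = m}) hi.2).relab e.symm
  · rw [hI]
    rw [Finset.sum_fiberwise_of_maps_to (g := fun i => wg w (g i))]
    intro i _
    exact Finset.mem_range.mpr (hM i)

end Run7.h96.Hy

end

section

/-!
Dependence of the curvature on the Taylor coefficients of the metric.
-/

set_option linter.all false
set_option maxHeartbeats 400000

open scoped BigOperators

namespace Run7.h96.Hy

open CInv

variable {k : ℕ}

section Od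

variable {X : DR (k + 1)} {g gi g' gi' : Fin (k + 1) → Fin (k + 1) → X.ps.R}

theorem O_mul_sub {N : ℕ} {F F' G G' : X.ps.R} (h : O N (F - F')) (h' : O N (G - G')) :
    O N (F * G - F' * G') := by
  have e : F * G - F' * G' = (F - F') * G + F' * (G - G') := by ring
  rw [e]
  exact (h.mul_right G).add (h'.mul_left F')

theorem O_sum_sub {N : ℕ} {α : Type} (s : Finset α) {F F' : α → X.ps.R}
    (h : ∀ a ∈ s, O N (F a - F' a)) : O N (∑ a ∈ s, F a - ∑ a ∈ s, F' a) := by
  rw [← Finset.sum_sub_distrib]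
  exact O.sum s h

theorem O_D_sub {N : ℕ} {F F' : X.ps.R} (i : Fin (k + 1)) (h : O (N + 1) (F - F')) :
    O N (X.ps.D i F - X.ps.D i F') := by
  rw [← der_sub X.ps.isDer]
  exact h.di i

theorem O_sub_trans {N : ℕ} {F G H : X.ps.R} (h : O N (F - G)) (h' : O N (G - H)) : O N (F - H) := by
  have e : F - H = (F - G) + (G - H) := by ring
  rw [e]; exact h.add h'

theorem O_inv (h : IsMetric g gi) (h' : IsMetric g' gi') {N : ℕ}
    (hN : ∀ i j, O N (g i j - g' i j)) (i j : Fin (k + 1)) : O N (gi i j - gi' i j) := by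
  have h1 := (gi_symm h).2
  have e1 : gi i j = ∑ q, (∑ p, gi i p * g' p q) * gi' q j := by
    simp only [Finset.sum_mul]
    rw [Finset.sum_comm]
    have : ∀ p, ∑ q, gi i p * g' p q * gi' q j = gi i p * (if p = j then 1 else 0) := by
      intro p
      rw [← h'.inv p j, Finset.mul_sum]
      refine Finset.sum_congr rfl fun q _ => by ring
    simp only [this]
    simp
  have e2 : gi' i j = ∑ q, (∑ p, gi i p * g p q) * gi' q j := by
    simp only [h1]
    simp
  rw [e1, e2]
  refine O_sum_sub _ fun q _ => ?_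
  have e3 : (∑ p, gi i p * g' p q) * gi' q j - (∑ p, gi i p * g p q) * gi' q j
      = -((∑ p, gi i p * (g p q - g' p q)) * gi' q j) := by
    simp only [mul_sub, Finset.sum_sub_distrib]; ring
  rw [e3]
  refine O.neg (O.mul_right _ (O.sum _ fun p _ => O.mul_left _ (hN p q)))

theorem O_chr (h : IsMetric g gi) (h' : IsMetric g' gi') {N : ℕ}
    (hN : ∀ i j, O (N + 1) (g i j - g' i j)) (l i j : Fin (k + 1)) :
    O N (chr X.ps.D g gi l i j - chr X.ps.D g' gi' l i j) := by
  unfold chr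
  rw [← smul_sub]
  refine O.smul _ (O_sum_sub _ fun p _ => O_mul_sub ((O_inv h h' hN l p).mono (Nat.le_succ N)) ?_)
  have e : X.ps.D i (g j p) + X.ps.D j (g i p) - X.ps.D p (g i j)
      - (X.ps.D i (g' j p) + X.ps.D j (g' i p) - X.ps.D p (g' i j))
      = (X.ps.D i (g j p) - X.ps.D i (g' j p)) + (X.ps.D j (g i p) - X.ps.D j (g' i p))
        - (X.ps.D p (g i j) - X.ps.D p (g' i j)) := by ring
  rw [e]
  exact ((O_D_sub i (hN j p)).add (O_D_sub j (hN i p))).sub (O_D_sub p (hN i j))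

theorem O_F (h : IsMetric g gi) (h' : IsMetric g' gi') {N : ℕ}
    (hN : ∀ i j, O (N + 2) (g i j - g' i j)) (i j l m : Fin (k + 1)) :
    O N ((mbd h).F i j l m - (mbd h').F i j l m) := by
  have hA : ∀ i l m, O (N + 1) ((mbd h).A i l m - (mbd h').A i l m) := fun i l m =>
    O_chr h h' hN l i m
  have hA' : ∀ i l m, O N ((mbd h).A i l m - (mbd h').A i l m) := fun i l m =>
    (hA i l m).mono (Nat.le_succ N)
  have e : (mbd h).F i j l m - (mbd h').F i j l m
      = (X.ps.D i ((mbd h).A j l m) - X.ps.D i ((mbd h').A j l m))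
        - (X.ps.D j ((mbd h).A i l m) - X.ps.D j ((mbd h').A i l m))
        + ((∑ p, ((mbd h).A i l p * (mbd h).A j p m - (mbd h).A j l p * (mbd h).A i p m))
          - ∑ p, ((mbd h').A i l p * (mbd h').A j p m - (mbd h').A j l p * (mbd h').A i p m)) := by
    show (X.ps.D i ((mbd h).A j l m) - X.ps.D j ((mbd h).A i l m) + _)
      - (X.ps.D i ((mbd h').A j l m) - X.ps.D j ((mbd h').A i l m) + _) = _
    ring
  rw [e]
  refine ((O_D_sub i (hA j l m)).sub (O_D_sub j (hA i l m))).add (O_sum_sub _ fun p _ => ?_)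
  have e2 : (mbd h).A i l p * (mbd h).A j p m - (mbd h).A j l p * (mbd h).A i p m
      - ((mbd h').A i l p * (mbd h').A j p m - (mbd h').A j l p * (mbd h').A i p m)
      = ((mbd h).A i l p * (mbd h).A j p m - (mbd h').A i l p * (mbd h').A j p m)
        - ((mbd h).A j l p * (mbd h).A i p m - (mbd h').A j l p * (mbd h').A i p m) := by ring
  rw [e2]
  exact (O_mul_sub (hA' _ _ _) (hA' _ _ _)).sub (O_mul_sub (hA' _ _ _) (hA' _ _ _))

theorem O_rm (h : IsMetric g gi) (h' : IsMetric g' gi') (l : ℕ) : ∀ {N : ℕ},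
    (∀ i j, O (N + l + 2) (g i j - g' i j)) → ∀ K : Fin (4 + l) → Fin (k + 1),
    O N (rm h l K - rm h' l K) := by
  induction l with
  | zero =>
    intro N hN K
    show O N ((∑ p, g (K 2) p * (mbd h).F (K 0) (K 1) p (K 3))
      - ∑ p, g' (K 2) p * (mbd h').F (K 0) (K 1) p (K 3))
    refine O_sum_sub _ fun p _ => O_mul_sub ((hN _ _).mono (by omega)) (O_F h h' hN _ _ _ _)
  | succ l ih =>
    intro N hN K
    have h1 : ∀ K, O (N + 1) (rm h l K - rm h' l K) := fun K =>
      ih (fun i j => (hN i j).mono (by omega)) K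
    have hA : ∀ i l m, O N ((mbd h).A i l m - (mbd h').A i l m) := fun i l m =>
      O_chr h h' (fun i j => (hN i j).mono (by omega)) l i m
    show O N ((X.ps.D _ (rm h l _) - act _ (rm h l) _) - (X.ps.D _ (rm h' l _) - act _ (rm h' l) _))
    set K0 : Option (Fin (4 + l)) → Fin (k + 1) := fun s => K ((finSuccEquiv (4 + l)).symm s)
    have e : (X.ps.D (K0 none) (rm h l (fun s => K0 (some s)))
          - act ((mbd h).A (K0 none)) (rm h l) (fun s => K0 (some s)))
        - (X.ps.D (K0 none) (rm h' l (fun s => K0 (some s)))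
          - act ((mbd h').A (K0 none)) (rm h' l) (fun s => K0 (some s)))
        = (X.ps.D (K0 none) (rm h l (fun s => K0 (some s)))
            - X.ps.D (K0 none) (rm h' l (fun s => K0 (some s))))
          - (act ((mbd h).A (K0 none)) (rm h l) (fun s => K0 (some s))
            - act ((mbd h').A (K0 none)) (rm h' l) (fun s => K0 (some s))) := by ring
    refine Eq.mp (congrArg (O N) e.symm) ?_
    refine (O_D_sub _ (h1 _)).sub ?_
    unfold act
    refine O_sum_sub _ fun s _ => O_sum_sub _ fun p _ => ?_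
    exact O_mul_sub (hA _ _ _) ((h1 _).mono (Nat.le_succ N))

end Od

/-! ### principal part of the curvature -/

/-- adding normal indices in the slots of the derivatives -/
def pad : (l : ℕ) → (Fin 4 → Fin (k + 1)) → Fin (4 + l) → Fin (k + 1)
  | 0, K => K
  | l + 1, K => Fin.cons 0 (pad l K)

theorem act_cons {R : Type} [CommRing R] {r : ℕ} (M : Fin (k + 1) → Fin (k + 1) → R)
    (hM : ∀ p, M p 0 = 0) (T : (Fin (r + 1) → Fin (k + 1)) → R) (K : Fin r → Fin (k + 1)) :
    act M T (Fin.cons 0 K) = act M (fun L => T (Fin.cons 0 L)) K := by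
  unfold act
  rw [Fin.sum_univ_succ]
  have h1 : ∑ l, M l ((Fin.cons 0 K : Fin (r + 1) → Fin (k + 1)) 0)
      * T (Function.update (Fin.cons 0 K) 0 l) = 0 := by
    refine Finset.sum_eq_zero fun l _ => ?_
    rw [Fin.cons_zero, hM, zero_mul]
  rw [h1, zero_add]
  refine Finset.sum_congr rfl fun s _ => Finset.sum_congr rfl fun l _ => ?_
  rw [Fin.cons_succ]
  show M l (K s) * T (Function.update (Fin.cons 0 K) s.succ l)
    = M l (K s) * T (Fin.cons 0 (Function.update K s l))
  rw [Fin.cons_update]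

theorem act_pad {R : Type} [CommRing R] (M : Fin (k + 1) → Fin (k + 1) → R)
    (hM : ∀ p, M p 0 = 0) (l : ℕ) (T : (Fin (4 + l) → Fin (k + 1)) → R) (K : Fin 4 → Fin (k + 1)) :
    act M T (pad l K) = act M (fun L => T (pad l L)) K := by
  induction l with
  | zero => rfl
  | succ l ih =>
    show act M T (Fin.cons 0 (pad l K)) = _
    rw [act_cons M hM]
    exact ih _

section Prin

variable {X : DR (k + 1)} {b b' : HD X}

/-- the components `∇_ν^l R(ν, ∂_i, ν, ∂_j)` -/
noncomputable def Ul (hb : Fer b) (l : ℕ) (i j : Fin (k + 1)) : X.ps.R :=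
  rm hb.metric l (pad l ![0, i, 0, j])

theorem fer_A0 (hb : Fer b) (p j : Fin (k + 1)) : (mbd hb.metric).A 0 p j
    = (1 / 2 : ℝ) • ∑ q, gXi b p q * X.ps.D 0 (gX b j q) := by
  show chr X.ps.D (gX b) (gXi b) p 0 j = _
  unfold chr
  congr 1
  refine Finset.sum_congr rfl fun q _ => ?_
  have h1 : ∀ i m, X.ps.D i (gX b 0 m) = 0 := by
    intro i m
    rw [hb.gX0i]
    split_ifs
    · exact der_one X.ps.isDer i
    · exact der_zero X.ps.isDer i
  rw [h1, h1]; ring

theorem fer_A00 (hb : Fer b) (p : Fin (k + 1)) : (mbd hb.metric).A 0 p 0 = 0 := hb.chr00 p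

theorem Ul_succ (hb : Fer b) (l : ℕ) (i j : Fin (k + 1)) :
    Ul hb (l + 1) i j = X.ps.D 0 (Ul hb l i j)
      - ((∑ p, (mbd hb.metric).A 0 p i * Ul hb l p j)
        + ∑ p, (mbd hb.metric).A 0 p j * Ul hb l i p) := by
  have h1 : Ul hb (l + 1) i j = X.ps.D 0 (rm hb.metric l (pad l ![0, i, 0, j]))
      - act ((mbd hb.metric).A 0) (rm hb.metric l) (pad l ![0, i, 0, j]) := rfl
  rw [h1, act_pad _ (fer_A00 hb)]
  congr 1
  unfold act
  rw [Fin.sum_univ_four]
  have e0 : ∑ p, (mbd hb.metric).A 0 p (![0, i, 0, j] 0)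
      * rm hb.metric l (pad l (Function.update ![0, i, 0, j] 0 p)) = 0 :=
    Finset.sum_eq_zero fun p _ => by
      show (mbd hb.metric).A 0 p 0 * _ = 0
      rw [fer_A00 hb, zero_mul]
  have e2 : ∑ p, (mbd hb.metric).A 0 p (![0, i, 0, j] 2)
      * rm hb.metric l (pad l (Function.update ![0, i, 0, j] 2 p)) = 0 :=
    Finset.sum_eq_zero fun p _ => by
      show (mbd hb.metric).A 0 p 0 * _ = 0
      rw [fer_A00 hb, zero_mul]
  have u1 : ∀ p, Function.update (![0, i, 0, j] : Fin 4 → Fin (k + 1)) 1 p = ![0, p, 0, j] := by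
    intro p; funext s; fin_cases s <;> rfl
  have u3 : ∀ p, Function.update (![0, i, 0, j] : Fin 4 → Fin (k + 1)) 3 p = ![0, i, 0, p] := by
    intro p; funext s; fin_cases s <;> rfl
  have e1 : ∑ p, (mbd hb.metric).A 0 p (![0, i, 0, j] 1)
      * rm hb.metric l (pad l (Function.update ![0, i, 0, j] 1 p))
      = ∑ p, (mbd hb.metric).A 0 p i * Ul hb l p j :=
    Finset.sum_congr rfl fun p _ => by
      rw [u1]
      show (mbd hb.metric).A 0 p i * rm hb.metric l (pad l ![0, p, 0, j]) = _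
      rfl
  have e3 : ∑ p, (mbd hb.metric).A 0 p (![0, i, 0, j] 3)
      * rm hb.metric l (pad l (Function.update ![0, i, 0, j] 3 p))
      = ∑ p, (mbd hb.metric).A 0 p j * Ul hb l i p :=
    Finset.sum_congr rfl fun p _ => by
      rw [u3]
      show (mbd hb.metric).A 0 p j * rm hb.metric l (pad l ![0, i, 0, p]) = _
      rfl
  rw [e0, e1, e2, e3, zero_add, add_zero]

theorem fer_chr0 (hb : Fer b) (i j : Fin (k + 1)) : (mbd hb.metric).A i 0 j
    = (-(1 / 2) : ℝ) • X.ps.D 0 (gX b i j) := by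
  show chr X.ps.D (gX b) (gXi b) 0 i j = _
  unfold chr
  rw [Finset.sum_eq_single 0]
  · have h1 : ∀ i m, X.ps.D i (gX b m 0) = 0 := by
      intro i m
      rw [hb.metric.symm, hb.gX0i]
      split_ifs
      · exact der_one X.ps.isDer i
      · exact der_zero X.ps.isDer i
    rw [hb.gXi00, h1, h1, one_mul, zero_add, zero_sub, smul_neg, neg_smul]
  · intro q _ hq
    rw [hb.gXi0i, if_neg hq, zero_mul]
  · intro h; exact absurd (Finset.mem_univ _) h

theorem Ul_zero (hb : Fer b) (i j : Fin (k + 1)) :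
    Ul hb 0 i j = (-(1 / 2) : ℝ) • X.ps.D 0 (X.ps.D 0 (gX b i j))
      + (1 / 2 : ℝ) • ∑ p, X.ps.D 0 (gX b i p) * (mbd hb.metric).A 0 p j := by
  show (∑ p, gX b 0 p * (mbd hb.metric).F 0 i p j) = _
  rw [Finset.sum_eq_single 0]
  · rw [hb.gX00, one_mul]
    have hz : ∀ m, (mbd hb.metric).A 0 0 m = 0 := by
      intro m
      rw [fer_chr0 hb, hb.gX0i]
      split_ifs
      · rw [der_one X.ps.isDer, smul_zero]
      · rw [der_zero X.ps.isDer, smul_zero]
    show X.ps.D 0 ((mbd hb.metric).A i 0 j) - X.ps.D i ((mbd hb.metric).A 0 0 j)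
      + ∑ p, ((mbd hb.metric).A 0 0 p * (mbd hb.metric).A i p j
        - (mbd hb.metric).A i 0 p * (mbd hb.metric).A 0 p j) = _
    rw [hz, der_zero X.ps.isDer, sub_zero, fer_chr0 hb, X.ps.isDer.smul, Finset.smul_sum]
    congr 1
    refine Finset.sum_congr rfl fun p _ => ?_
    rw [hz, fer_chr0 hb, zero_mul, zero_sub, smul_mul_assoc, neg_smul, neg_neg]
  · intro p _ hp
    rw [hb.gX0i, if_neg hp, zero_mul]
  · intro h; exact absurd (Finset.mem_univ _) h

theorem Ul_prin (hb : Fer b) (hb' : Fer b') (l : ℕ) : ∀ {N : ℕ},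
    (∀ i j, O (N + l + 2) (gX b i j - gX b' i j)) → ∀ i j,
    O (N + 1) (Ul hb l i j - Ul hb' l i j
      + (1 / 2 : ℝ) • (X.ps.D 0)^[l + 2] (gX b i j - gX b' i j)) := by
  have hitO : ∀ (m N : ℕ) (F : X.ps.R), O (N + m) F → O N ((X.ps.D 0)^[m] F) := by
    intro m
    induction m with
    | zero => intro N F h; exact h
    | succ m ih =>
      intro N F h
      rw [Function.iterate_succ_apply]
      exact ih N _ (O.d0 h)
  have hA : ∀ {N : ℕ}, (∀ i j, O (N + 1) (gX b i j - gX b' i j)) → ∀ p j,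
      O N ((mbd hb.metric).A 0 p j - (mbd hb'.metric).A 0 p j) := fun hN p j =>
    O_chr hb.metric hb'.metric hN p 0 j
  induction l with
  | zero =>
    intro N hN i j
    rw [Ul_zero hb, Ul_zero hb']
    have e : (X.ps.D 0)^[0 + 2] (gX b i j - gX b' i j)
        = X.ps.D 0 (X.ps.D 0 (gX b i j)) - X.ps.D 0 (X.ps.D 0 (gX b' i j)) := by
      show X.ps.D 0 (X.ps.D 0 (gX b i j - gX b' i j)) = _
      rw [der_sub X.ps.isDer, der_sub X.ps.isDer]
    rw [e]
    have e2 : (-(1 / 2) : ℝ) • X.ps.D 0 (X.ps.D 0 (gX b i j))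
        + (1 / 2 : ℝ) • ∑ p, X.ps.D 0 (gX b i p) * (mbd hb.metric).A 0 p j
        - ((-(1 / 2) : ℝ) • X.ps.D 0 (X.ps.D 0 (gX b' i j))
          + (1 / 2 : ℝ) • ∑ p, X.ps.D 0 (gX b' i p) * (mbd hb'.metric).A 0 p j)
        + (1 / 2 : ℝ) • (X.ps.D 0 (X.ps.D 0 (gX b i j)) - X.ps.D 0 (X.ps.D 0 (gX b' i j)))
        = (1 / 2 : ℝ) • ((∑ p, X.ps.D 0 (gX b i p) * (mbd hb.metric).A 0 p j)
          - ∑ p, X.ps.D 0 (gX b' i p) * (mbd hb'.metric).A 0 p j) := by
      module
    rw [e2]
    refine O.smul _ (O_sum_sub _ fun p _ => O_mul_sub ?_ (hA (fun i j => hN i j) p j))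
    exact O_D_sub 0 (hN i p)
  | succ l ih =>
    intro N hN i j
    have hN' : ∀ i j, O (N + 1 + l + 2) (gX b i j - gX b' i j) := fun i j =>
      (hN i j).mono (by omega)
    have h1 := fun i j => ih hN' i j
    have h2 : ∀ i j, O (N + 1) (Ul hb l i j - Ul hb' l i j) := by
      intro i j
      have e : Ul hb l i j - Ul hb' l i j = (Ul hb l i j - Ul hb' l i j
          + (1 / 2 : ℝ) • (X.ps.D 0)^[l + 2] (gX b i j - gX b' i j))
          - (1 / 2 : ℝ) • (X.ps.D 0)^[l + 2] (gX b i j - gX b' i j) := by ring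
      rw [e]
      refine ((h1 i j).mono (by omega)).sub (O.smul _ (hitO _ _ _ ?_))
      exact (hN i j).mono (by omega)
    rw [Ul_succ hb, Ul_succ hb']
    have e3 : (X.ps.D 0)^[l + 1 + 2] (gX b i j - gX b' i j)
        = X.ps.D 0 ((X.ps.D 0)^[l + 2] (gX b i j - gX b' i j)) := by
      have : l + 1 + 2 = (l + 2) + 1 := by ring
      rw [this, Function.iterate_succ_apply']
    rw [e3]
    have h3 : O (N + 1) (X.ps.D 0 (Ul hb l i j - Ul hb' l i j
        + (1 / 2 : ℝ) • (X.ps.D 0)^[l + 2] (gX b i j - gX b' i j))) := O.d0 (h1 i j)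
    rw [X.ps.isDer.add, der_sub X.ps.isDer, X.ps.isDer.smul] at h3
    have h4 : ∀ p j, O (N + 1) ((mbd hb.metric).A 0 p j - (mbd hb'.metric).A 0 p j) := fun p j =>
      hA (fun i j => (hN i j).mono (by omega)) p j
    have h5 := O_sum_sub Finset.univ (F := fun p => (mbd hb.metric).A 0 p i * Ul hb l p j)
      (F' := fun p => (mbd hb'.metric).A 0 p i * Ul hb' l p j)
      fun p _ => O_mul_sub (h4 p i) (h2 p j)
    have h6 := O_sum_sub Finset.univ (F := fun p => (mbd hb.metric).A 0 p j * Ul hb l i p)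
      (F' := fun p => (mbd hb'.metric).A 0 p j * Ul hb' l i p)
      fun p _ => O_mul_sub (h4 p j) (h2 i p)
    have h7 := (h3.sub h5).sub h6
    have e8 : ∀ (a b' c d e f g : X.ps.R), a - (b' + c) - (d - (e + f)) + g
        = (a - d + g) - (b' - e) - (c - f) := by intros; ring
    rw [e8]
    exact h7

theorem cf_iter (m : ℕ) : ∀ (n : ℕ) (F : X.ps.R),
    ((n.factorial : ℕ) : ℝ) • cf n ((X.ps.D 0)^[m] F) = (((n + m).factorial : ℕ) : ℝ) • cf (n + m) F := by
  induction m with
  | zero => intro n F; rfl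
  | succ m ih =>
    intro n F
    rw [Function.iterate_succ_apply, ih, cf_d0, smul_smul]
    have : n + (m + 1) = (n + m) + 1 := rfl
    rw [this, Nat.factorial_succ]
    congr 1
    push_cast; ring

theorem cf0_iter (m : ℕ) (F : X.ps.R) : cf 0 ((X.ps.D 0)^[m] F) = ((m.factorial : ℕ) : ℝ) • cf m F := by
  have := cf_iter m 0 F
  simpa using this

theorem Ul_diff (hb : Fer b) (hb' : Fer b') (l : ℕ) (hG : b.G = b'.G)
    (hh : ∀ j < l + 1, b.Φ (Fd.h j) = b'.Φ (Fd.h j)) (i j : Fin (k + 1)) :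
    b.Φ (Fd.h (l + 1)) ![i, j] - b'.Φ (Fd.h (l + 1)) ![i, j]
      = (-(2 / ((l + 2).factorial : ℝ))) • (cf 0 (Ul hb l i j) - cf 0 (Ul hb' l i j)) := by
  have h1 : ∀ i j, O (0 + l + 2) (gX b i j - gX b' i j) := by
    intro i j m hm
    rw [cf_sub, cf_gX, cf_gX]
    cases m with
    | zero => show b.G i j - b'.G i j = 0; rw [hG, sub_self]
    | succ m =>
      show b.Φ (Fd.h m) ![i, j] - b'.Φ (Fd.h m) ![i, j] = 0
      rw [hh m (by omega), sub_self]
  have h2 := Ul_prin hb hb' l h1 i j 0 (by norm_num)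
  rw [cf_add, cf_sub, cf_smul, cf0_iter, cf_sub, cf_gX, cf_gX] at h2
  have h3 : cf 0 (Ul hb l i j) - cf 0 (Ul hb' l i j)
      = -((1 / 2 : ℝ) • (((l + 2).factorial : ℕ) : ℝ) • (b.Φ (Fd.h (l + 1)) ![i, j]
        - b'.Φ (Fd.h (l + 1)) ![i, j])) := eq_neg_of_add_eq_zero_left h2
  rw [h3, smul_neg, neg_smul, neg_neg, smul_smul, smul_smul]
  have h4 : (((l + 2).factorial : ℕ) : ℝ) ≠ 0 := by
    exact_mod_cast Nat.factorial_ne_zero _
  have h5 : 2 / (((l + 2).factorial : ℕ) : ℝ) * (1 / 2) * (((l + 2).factorial : ℕ) : ℝ) = 1 := by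
    field_simp
  have h6 : 2 / (((l + 2).factorial : ℕ) : ℝ) * (1 / 2 * (((l + 2).factorial : ℕ) : ℝ)) = 1 := by
    rw [← mul_assoc]; exact h5
  first
    | rw [h5, one_smul]
    | rw [h6, one_smul]

end Prin

end Run7.h96.Hy

end
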