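import Pool.Agent.Run7.h96.K06
import Pool.Agent.Run7.h96.K02

section

/-!
The Taylor coefficients of `h_r` are natural in the basic tensors of the hypersurface.
-/

set_option linter.all false
set_option maxHeartbeats 400000

open scoped BigOperators

namespace Run7.h96.Hy

open CInv

variable {k : ℕ}

/-- functions of Fermi data which are natural in the basic tensors -/
def NB (κ : Type) (T : Tk (k + 1) Fd ρF κ) : Prop :=
  ∃ T' : Tk (k + 1) Fa ρa κ, FS Set.univ Set.univ κ T' ∧
    ∀ (X : DR (k + 1)) (b : HD X), Fer b → ∀ K, T X b K = T' X (b.setF (hFf X b)) K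

section NBl

variable {κ μ : Type}

theorem NB.congr {T T' : Tk (k + 1) Fd ρF κ} (h : NB κ T)
    (hTT : ∀ (X : DR (k + 1)) (b : HD X), Fer b → ∀ K, T X b K = T' X b K) : NB κ T' := by
  obtain ⟨S, hS, hST⟩ := h
  exact ⟨S, hS, fun X b hb K => by rw [← hTT X b hb, hST X b hb]⟩

theorem NB.add {T T' : Tk (k + 1) Fd ρF κ} (h : NB κ T) (h' : NB κ T') :
    NB κ (fun X b K => T X b K + T' X b K) := by
  obtain ⟨S, hS, hST⟩ := h
  obtain ⟨S', hS', hST'⟩ := h'
  exact ⟨_, hS.add hS', fun X b hb K => by beta_reduce; rw [hST X b hb, hST' X b hb]⟩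

theorem NB.smul {T : Tk (k + 1) Fd ρF κ} (h : NB κ T) (t : ℝ) :
    NB κ (fun X b K => t • T X b K) := by
  obtain ⟨S, hS, hST⟩ := h
  exact ⟨_, hS.smul t, fun X b hb K => by beta_reduce; rw [hST X b hb]⟩

theorem NB.sub {T T' : Tk (k + 1) Fd ρF κ} (h : NB κ T) (h' : NB κ T') :
    NB κ (fun X b K => T X b K - T' X b K) :=
  (h.add (h'.smul (-1))).congr fun X b _ K => by simp; ring

theorem NB.zero [Finite κ] : NB (k := k) κ (fun _ _ _ => 0) :=
  ⟨fun _ _ _ => 0, FS.zero, fun _ _ _ _ => rfl⟩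

theorem NB.comp {T : Tk (k + 1) Fd ρF κ} (h : NB κ T) (e : κ → μ) (he : Function.Bijective e) :
    NB μ (fun X b K => T X b (fun s => K (e s))) := by
  obtain ⟨S, hS, hST⟩ := h
  exact ⟨_, hS.relab (Equiv.ofBijective e he), fun X b hb K => hST X b hb _⟩

theorem NB.fld (j : Fa) : NB (k := k) (Fin (ρa j)) (fun X b => hFf X b j) :=
  ⟨fun X c => c.Φ j, FS.field j (fun _ => Set.mem_univ _) (fun _ => Set.mem_univ _),
    fun X b hb K => rfl⟩

/-- putting the unit normal in a slot -/
theorem NB.plug [Finite κ] {T : Tk (k + 1) Fd ρF (Option κ)} (h : NB (Option κ) T) :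
    NB κ (fun X b K => T X b (ocons 0 K)) := by
  obtain ⟨S, hS, hST⟩ := h
  have h1 : FS (n := k + 1) (ρ := ρa) (Set.univ : Set Fa) Set.univ (Fin 1) (fun X c => c.Φ Fa.nu) :=
    FS.field Fa.nu (fun _ => Set.mem_univ _) (fun _ => Set.mem_univ _)
  let e : Fin 1 ⊕ Option κ ≃ Option (Option κ) :=
    { toFun := fun s => match s with
        | Sum.inl _ => none
        | Sum.inr s => some s
      invFun := fun s => match s with
        | none => Sum.inl 0
        | some s => Sum.inr s
      left_inv := by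
        rintro (s | s)
        · have : s = 0 := Subsingleton.elim _ _
          subst this; rfl
        · rfl
      right_inv := by rintro (_ | s) <;> rfl }
  have h2 := FS.contr2 ((h1.mul hS (E'' := Set.univ) fun _ _ _ _ => Set.mem_univ _).relab e)
  refine ⟨_, h2, fun X b hb K => ?_⟩
  beta_reduce
  rw [hST X b hb]
  show _ = ∑ i, ∑ j, b.Gi i j * (b.Φ Fd.nu (fun _ => i) * S X (b.setF (hFf X b)) (ocons j K))
  rw [Finset.sum_eq_single 0]
  · rw [Finset.sum_eq_single 0]
    · rw [hb.Gi0i, if_pos rfl, hb.nu, if_pos rfl]; ring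
    · intro j _ hj
      rw [hb.Gi0i, if_neg hj, zero_mul]
    · intro h; exact absurd (Finset.mem_univ _) h
  · intro i _ hi
    refine Finset.sum_eq_zero fun j _ => ?_
    rw [hb.nu, if_neg hi, zero_mul, mul_zero]
  · intro h; exact absurd (Finset.mem_univ _) h

theorem NB.pad (l : ℕ) : ∀ {T : Tk (k + 1) Fd ρF (Fin (4 + l))}, NB (Fin (4 + l)) T →
    NB (Fin 4) (fun X b K => T X b (Hy.pad l K)) := by
  induction l with
  | zero => intro T h; exact h
  | succ l ih =>
    intro T h
    have h1 := (NB.comp h (finSuccEquiv (4 + l)) (Equiv.bijective _)).plug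
    refine (ih h1).congr fun X b hb K => ?_
    show T X b (fun s => ocons 0 (Hy.pad l K) ((finSuccEquiv (4 + l)) s)) = T X b (Fin.cons 0 (Hy.pad l K))
    congr 1
    funext s
    refine Fin.cases ?_ (fun s => ?_) s
    · rw [finSuccEquiv_zero]; rfl
    · rw [finSuccEquiv_succ]; rfl

theorem NB.pick {T : Tk (k + 1) Fd ρF (Fin 4)} (h : NB (Fin 4) T) :
    NB (Fin 2) (fun X b K => T X b ![0, K 0, 0, K 1]) := by
  have h1 := (NB.comp h (![none, some none, some (some 0), some (some 1)]
    : Fin 4 → Option (Option (Fin 2))) (by decide))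
  have h2 := (NB.comp h (![none, some (some 0), some none, some (some 1)]
    : Fin 4 → Option (Option (Fin 2))) (by decide)).plug.plug
  refine h2.congr fun X b hb K => ?_
  show T X b _ = T X b _
  congr 1
  funext s
  fin_cases s <;> rfl

theorem NB.subst {S : Set Fd} {E : Set (Dg Fd)} {T : Tk (k + 1) Fd ρF κ} (hT : FS S E κ T)
    (Ψ : ∀ X : DR (k + 1), HD X → Fl X Fd ρF)
    (hΨ : ∀ j, NB (Fin (ρF j)) (fun X b => Ψ X b j)) :
    NB κ (fun X b => T X (b.setF (Ψ X b))) := by
  choose Ψ' h1 h2 using hΨ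
  refine ⟨fun X c => T X (c.setF (fun j => Ψ' j X c)), FS.subst hT (fun X c j => Ψ' j X c) h1,
    fun X b hb K => ?_⟩
  beta_reduce
  have h3 : b.setF (Ψ X b) = (b.setF (hFf X b)).setF (fun j => Ψ' j X (b.setF (hFf X b))) := by
    refine BD.ext' rfl rfl ?_
    funext j K
    exact h2 j X b hb K
  rw [h3]

end NBl

/-- truncation of the fields -/
def trF (l : ℕ) (X : DR (k + 1)) (b : HD X) : Fl X Fd ρF := fun j => match j with
  | Fd.nu => b.Φ Fd.nu
  | Fd.h j => if j < l then b.Φ (Fd.h j) else fun _ => 0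
  | Fd.chi => fun _ => 0
  | Fd.om _ => fun _ => 0

theorem Fer.trF {X : DR (k + 1)} {b : HD X} (hb : Fer b) (l : ℕ) : Fer (b.setF (Hy.trF l X b)) where
  d0 := hb.d0
  g00 := hb.g00
  g0 := hb.g0
  nu := hb.nu
  h0 j i := by
    show (if j < l then b.Φ (Fd.h j) else fun _ => 0) ![0, i] = 0
    split_ifs
    · exact hb.h0 j i
    · rfl
  hs j i i' := by
    show (if j < l then b.Φ (Fd.h j) else fun _ => 0) ![i, i']
      = (if j < l then b.Φ (Fd.h j) else fun _ => 0) ![i', i]
    split_ifs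
    · exact hb.hs j i i'
    · rfl

theorem NB.nu : NB (k := k) (Fin 1) (fun X b => b.Φ Fd.nu) := NB.fld Fa.nu

/-- the Taylor coefficients are natural in the basic tensors -/
theorem NB.h (j : ℕ) : NB (k := k) (Fin 2) (fun X b => b.Φ (Fd.h j)) := by
  induction j using Nat.strong_induction_on with
  | _ j ih =>
    rcases j with _ | l
    · refine ((NB.fld (k := k) Fa.II).smul (-2)).congr fun X b hb K => ?_
      show (-2 : ℝ) • ((-(1 / 2 : ℝ)) • b.Φ (Fd.h 0) K) = b.Φ (Fd.h 0) K
      rw [smul_smul]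
      norm_num
    · have hΨ : ∀ j, NB (k := k) (Fin (ρF j)) (fun X b => trF (l + 1) X b j) := by
        intro j
        cases j with
        | nu => exact NB.nu
        | chi => exact NB.zero
        | om _ => exact NB.zero
        | h j =>
          by_cases hj : j < l + 1
          · refine (ih j hj).congr fun X b hb K => ?_
            show b.Φ (Fd.h j) K = (if j < l + 1 then b.Φ (Fd.h j) else fun _ => 0) K
            rw [if_pos hj]
          · refine (NB.zero (k := k) (κ := Fin 2)).congr fun X b hb K => ?_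
            show 0 = (if j < l + 1 then b.Φ (Fd.h j) else fun _ => 0) K
            rw [if_neg hj]
      have h1 : NB (k := k) (Fin 2) (fun X b K => RF l X b (Hy.pad l ![0, K 0, 0, K 1])) :=
        ((NB.fld (Fa.R l)).pad l).pick
      have h2 : NB (k := k) (Fin 2) (fun X b K => RF l X (b.setF (trF (l + 1) X b))
          (Hy.pad l ![0, K 0, 0, K 1])) := by
        have h3 := NB.subst (RF_FS (k := k) l) (trF (l + 1)) hΨ
        exact (h3.pad l).pick
      refine ((h1.sub h2).smul (-(2 / ((l + 2).factorial : ℝ)))).congr fun X b hb K => ?_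
      have h4 := Ul_diff hb (hb.trF (l + 1)) l rfl (fun j hj => by
        show b.Φ (Fd.h j) = (if j < l + 1 then b.Φ (Fd.h j) else fun _ => 0)
        rw [if_pos hj]) (K 0) (K 1)
      have h5 : (b.setF (trF (l + 1) X b)).Φ (Fd.h (l + 1)) ![K 0, K 1] = 0 := by
        show (if l + 1 < l + 1 then b.Φ (Fd.h (l + 1)) else fun _ => 0) ![K 0, K 1] = 0
        rw [if_neg (lt_irrefl _)]
      rw [h5, sub_zero] at h4
      have h6 : K = ![K 0, K 1] := by funext s; fin_cases s <;> rfl
      have h7 : cf 0 (Ul hb l (K 0) (K 1)) = RF l X b (Hy.pad l ![0, K 0, 0, K 1]) := RF_eq l hb _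
      have h8 : cf 0 (Ul (hb.trF (l + 1)) l (K 0) (K 1))
          = RF l X (b.setF (trF (l + 1) X b)) (Hy.pad l ![0, K 0, 0, K 1]) :=
        RF_eq l (hb.trF (l + 1)) _
      beta_reduce
      rw [← h7, ← h8, ← h4, ← h6]

open Classical in
/-- every natural tensor is natural in the basic tensors -/
theorem NB.of {κ : Type} {T : Tk (k + 1) Fd ρF κ} (h : NF Set.univ κ T) :
    NB κ (fun X b => T X (b.scl Nt 0)) := by
  obtain ⟨S, hS, hST⟩ := h
  have h1 : ∀ j, NB (k := k) (Fin (ρF j)) (fun X b => (b.scl Nt 0).Φ j) := by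
    intro j
    cases j with
    | nu =>
      refine NB.nu.congr fun X b hb K => ?_
      show b.Φ Fd.nu K = (if Fd.nu ∈ Nt then 0 * b.Φ Fd.nu K else b.Φ Fd.nu K)
      rw [if_neg nu_Nt]
    | h j =>
      refine (NB.h j).congr fun X b hb K => ?_
      show b.Φ (Fd.h j) K = (if Fd.h j ∈ Nt then 0 * b.Φ (Fd.h j) K else b.Φ (Fd.h j) K)
      rw [if_neg (h_Nt j)]
    | chi =>
      refine (NB.zero (k := k) (κ := Fin 0)).congr fun X b hb K => ?_
      show 0 = (if Fd.chi ∈ Nt then 0 * b.Φ Fd.chi K else b.Φ Fd.chi K)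
      rw [if_pos (show Fd.chi ∈ Nt from Or.inl rfl), zero_mul]
    | om j =>
      refine (NB.zero (k := k) (κ := Fin 0)).congr fun X b hb K => ?_
      show 0 = (if Fd.om j ∈ Nt then 0 * b.Φ (Fd.om j) K else b.Φ (Fd.om j) K)
      rw [if_pos (show Fd.om j ∈ Nt from Or.inr ⟨j, rfl⟩), zero_mul]
  refine (NB.subst hS (fun X b => (b.scl Nt 0).Φ) h1).congr fun X b hb K => ?_
  rw [hST X _ (hb.scl nu_Nt h_Nt 0)]
  rfl

end Run7.h96.Hy

end

section

/-!
Taylor homomorphisms and fixed points of contractions for power series.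
-/

set_option linter.all false
set_option maxHeartbeats 400000

open scoped BigOperators

namespace Run7.h96.Hy

open CInv

variable {k : ℕ}

/-! ### Taylor homomorphism of a derivation -/

section Taylor

variable {A : DR (k + 1)} {B : Type} [CommRing B] [Algebra ℝ B] (δ : B → B)
  (ha : ∀ f g, δ (f + g) = δ f + δ g) (hm : ∀ f g, δ (f * g) = δ f * g + f * δ g)
  (hs : ∀ (t : ℝ) f, δ (t • f) = t • δ f) (ρ : B →ₐ[ℝ] A.R)

/-- Taylor series along a derivation -/
noncomputable def tay (f : B) : A.ps.R :=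
  (PowerSeries.mk fun n => ((n.factorial : ℕ) : ℝ)⁻¹ • ρ (δ^[n] f) : PowerSeries A.R)

theorem cf_tay (n : ℕ) (f : B) : cf n (tay δ ρ f) = ((n.factorial : ℕ) : ℝ)⁻¹ • ρ (δ^[n] f) :=
  PowerSeries.coeff_mk _ _

theorem cf0_tay (f : B) : cf 0 (tay δ ρ f) = ρ f := by
  rw [cf_tay]; simp

theorem D_tay (f : B) : A.ps.D 0 (tay δ ρ f) = tay δ ρ (δ f) := by
  apply cf_ext
  intro n
  rw [cf_d0, cf_tay, cf_tay, smul_smul, Function.iterate_succ_apply]
  congr 1
  rw [Nat.factorial_succ]
  have h : ((n.factorial : ℕ) : ℝ) ≠ 0 := by exact_mod_cast Nat.factorial_ne_zero n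
  have h2 : ((n : ℝ) + 1) ≠ 0 := by positivity
  push_cast
  field_simp

include ha in
theorem iter_add (n : ℕ) (f g : B) : δ^[n] (f + g) = δ^[n] f + δ^[n] g := by
  induction n generalizing f g with
  | zero => rfl
  | succ n ih => rw [Function.iterate_succ_apply, Function.iterate_succ_apply,
      Function.iterate_succ_apply, ha, ih]

include hs in
theorem iter_smul (n : ℕ) (t : ℝ) (f : B) : δ^[n] (t • f) = t • δ^[n] f := by
  induction n generalizing f with
  | zero => rfl
  | succ n ih => rw [Function.iterate_succ_apply, Function.iterate_succ_apply, hs, ih]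

include ha in
theorem tay_add (f g : B) : tay δ ρ (f + g) = tay δ ρ f + tay δ ρ g := by
  apply cf_ext
  intro n
  rw [cf_add, cf_tay, cf_tay, cf_tay, iter_add δ ha, map_add, smul_add]

include hs in
theorem tay_smul (t : ℝ) (f : B) : tay δ ρ (t • f) = t • tay δ ρ f := by
  apply cf_ext
  intro n
  rw [cf_smul, cf_tay, cf_tay, iter_smul δ hs, map_smul, smul_comm]

theorem cf_succ_inj {F G : A.ps.R} {n : ℕ} (h : cf n (A.ps.D 0 F) = cf n (A.ps.D 0 G)) :
    cf (n + 1) F = cf (n + 1) G := by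
  rw [cf_d0, cf_d0] at h
  have h2 : ((n : ℝ) + 1) ≠ 0 := by positivity
  have h3 := congrArg (fun x => ((n : ℝ) + 1)⁻¹ • x) h
  simp only [smul_smul, inv_mul_cancel₀ h2, one_smul] at h3
  exact h3

include ha hm in
theorem tay_mul (f g : B) : tay δ ρ (f * g) = tay δ ρ f * tay δ ρ g := by
  apply cf_ext
  intro n
  induction n generalizing f g with
  | zero =>
    rw [cf0_tay, map_mul]
    have : cf 0 (tay δ ρ f * tay δ ρ g) = cf 0 (tay δ ρ f) * cf 0 (tay δ ρ g) :=
      map_mul (c0 A) _ _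
    rw [this, cf0_tay, cf0_tay]
  | succ n ih =>
    apply cf_succ_inj
    rw [D_tay, hm, tay_add δ ha, cf_add, ih, ih, A.ps.isDer.mul, cf_add, D_tay, D_tay]

include ha hm in
theorem tay_one : tay δ ρ (1 : B) = 1 := by
  have h1 : δ 1 = 0 := by
    have := hm 1 1
    simp only [mul_one, one_mul] at this
    simpa using this
  have h0 : δ 0 = 0 := by
    have := ha 0 0
    simpa using this
  apply cf_ext
  intro n
  rw [cf_tay, cf_one]
  cases n with
  | zero => simp
  | succ n =>
    have h2 : ∀ n, δ^[n] (0 : B) = 0 := by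
      intro n
      induction n with
      | zero => rfl
      | succ n ih => rw [Function.iterate_succ_apply, h0, ih]
    rw [Function.iterate_succ_apply, h1, h2, map_zero, smul_zero, if_neg (Nat.succ_ne_zero n)]

/-- Taylor homomorphism -/
noncomputable def tayH : B →ₐ[ℝ] A.ps.R where
  toFun := tay δ ρ
  map_one' := tay_one δ ha hm ρ
  map_mul' := tay_mul δ ha hm ρ
  map_zero' := by
    have := tay_smul δ hs ρ 0 (0 : B)
    rw [zero_smul, zero_smul] at this
    exact this
  map_add' := tay_add δ ha ρ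
  commutes' t := by
    have h1 : (algebraMap ℝ B t) = t • (1 : B) := Algebra.algebraMap_eq_smul_one t
    have h2 : (algebraMap ℝ A.ps.R t) = t • (1 : A.ps.R) := Algebra.algebraMap_eq_smul_one t
    rw [h1, h2, tay_smul δ hs, tay_one δ ha hm]

theorem tayH_apply (f : B) : tayH δ ha hm hs ρ f = tay δ ρ f := rfl

end Taylor

/-! ### fixed points -/

section Fix

variable {A : DR (k + 1)} {ι : Type}

theorem fixpt (F : (ι → A.ps.R) → ι → A.ps.R) (u0 : ι → A.ps.R) (n0 : ℕ)
    (h0 : ∀ u, (∀ i, O n0 (u i - u0 i)) → ∀ i, O n0 (F u i - u0 i))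
    (hF : ∀ n, n0 ≤ n → ∀ u v, (∀ i, O n0 (u i - u0 i)) → (∀ i, O n0 (v i - u0 i)) →
      (∀ i, O n (u i - v i)) → ∀ i, O (n + 1) (F u i - F v i)) :
    ∃ u, (∀ i, O n0 (u i - u0 i)) ∧ F u = u := by
  have hself : ∀ i, O n0 (u0 i - u0 i) := fun i => by rw [sub_self]; exact O.z
  have hin : ∀ m, ∀ i, O n0 (F^[m] u0 i - u0 i) := by
    intro m
    induction m with
    | zero => exact hself
    | succ m ih => rw [Function.iterate_succ_apply']; exact h0 _ ih
  have hstep : ∀ m, ∀ i, O (n0 + m) (F^[m + 1] u0 i - F^[m] u0 i) := by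
    intro m
    induction m with
    | zero => exact h0 _ hself
    | succ m ih =>
      intro i
      have e1 : F^[m + 1 + 1] u0 i = F (F^[m + 1] u0) i := by rw [Function.iterate_succ_apply']
      have e2 : F^[m + 1] u0 i = F (F^[m] u0) i := by rw [Function.iterate_succ_apply']
      rw [e1, e2]
      exact hF (n0 + m) (Nat.le_add_right _ _) _ _ (hin (m + 1)) (hin m) ih i
  have hcau : ∀ m m', m ≤ m' → ∀ i, O (n0 + m) (F^[m'] u0 i - F^[m] u0 i) := by
    intro m m' hm
    induction m', hm using Nat.le_induction with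
    | base => intro i; rw [sub_self]; exact O.z
    | succ m' hm' ih =>
      intro i
      exact O_sub_trans ((hstep m' i).mono (by omega)) (ih i)
  let u : ι → A.ps.R := fun i => (PowerSeries.mk fun n => cf n (F^[n + 1] u0 i) : PowerSeries A.R)
  have hu : ∀ n i, cf n (u i) = cf n (F^[n + 1] u0 i) := fun n i => PowerSeries.coeff_mk _ _
  have happ : ∀ m i, O (n0 + m) (u i - F^[m] u0 i) := by
    intro m i n hn
    rw [cf_sub, hu]
    rcases le_total m (n + 1) with h | h
    · rw [← cf_sub]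
      exact hcau m (n + 1) h i n hn
    · have := hcau (n + 1) m h i n (by omega)
      rw [cf_sub] at this
      rw [sub_eq_zero] at this ⊢
      exact this.symm
  have huin : ∀ i, O n0 (u i - u0 i) := fun i => (happ 0 i)
  refine ⟨u, huin, ?_⟩
  funext i
  apply cf_ext
  intro n
  have h1 : O (n0 + n + 1) (F u i - F^[n + 1] u0 i) := by
    rw [Function.iterate_succ_apply']
    exact hF (n0 + n) (Nat.le_add_right _ _) u _ huin (hin n) (happ n) i
  have h2 := h1 n (by omega)
  rw [cf_sub, sub_eq_zero] at h2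
  rw [h2, hu]

end Fix

end Run7.h96.Hy

end

section

/-!
Fermi normal form of a formal metric.
-/

set_option linter.all false
set_option maxHeartbeats 400000

open scoped BigOperators

namespace Run7.h96.Hy

open CInv

variable {k : ℕ}

section NF1

variable {A : DR (k + 1)} {h0 : ∀ f, A.d 0 f = 0} (m : Mt (psHs h0))

theorem contr_step {δ G : A.ps.R} {n : ℕ} (h1 : cf 0 δ = 0) (h : O n (A.ps.D 0 δ - G)) :
    O (n + 1) (δ - itgX G) := by
  refine itg_unique ?_ ?_
  · rw [cf_sub, h1, cf_itg0, sub_zero]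
  · rw [der_sub A.ps.isDer, D_itg]; exact h

theorem cfm0 (F G : A.ps.R) : cf 0 (F * G) = cf 0 F * cf 0 G := map_mul (c0 A) F G

theorem cf0_one : cf 0 (1 : A.ps.R) = 1 := map_one (c0 A)

/-- a series that is a unit up to a constant annihilates nothing -/
theorem cst_cancel {a a' : A.R} (h : a' * a = 1) {F : A.ps.R} (hF : cst a * F = 0) : F = 0 := by
  have : cst a' * (cst a * F) = 0 := by rw [hF, mul_zero]
  rw [← mul_assoc, ← cst_mul, h, cst_one, one_mul] at this
  exact this

/-- `|df|²` -/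
noncomputable def ek2 (f : A.ps.R) : A.ps.R :=
  ip m.gi (fun i => A.ps.D i f) (fun i => A.ps.D i f)

theorem ek2_diff (u v : A.ps.R) : ek2 m u - ek2 m v
    = ∑ i, ∑ j, m.gi i j * (A.ps.D i (u - v) * A.ps.D j (u + v)) := by
  unfold ek2 ip
  have hs : ∀ i j, m.gi i j = m.gi j i := (gi_symm m.met).1
  have e1 : ∀ i j, m.gi i j * (A.ps.D i (u - v) * A.ps.D j (u + v))
      = m.gi i j * (A.ps.D i u * A.ps.D j u) - m.gi i j * (A.ps.D i v * A.ps.D j v)
        + (m.gi i j * (A.ps.D i u * A.ps.D j v) - m.gi i j * (A.ps.D i v * A.ps.D j u)) := by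
    intro i j
    rw [der_sub A.ps.isDer, A.ps.isDer.add]; ring
  simp only [e1, Finset.sum_add_distrib, Finset.sum_sub_distrib]
  have e2 : ∑ i, ∑ j, m.gi i j * (A.ps.D i v * A.ps.D j u)
      = ∑ i, ∑ j, m.gi i j * (A.ps.D i u * A.ps.D j v) := by
    rw [Finset.sum_comm]
    refine Finset.sum_congr rfl fun i _ => Finset.sum_congr rfl fun j _ => ?_
    rw [hs j i]; ring
  rw [e2]; ring

theorem cf0_D {f : A.ps.R} (hf : cf 0 f = 0) (i : Fin (k + 1)) :
    cf 0 (A.ps.D i f) = if i = 0 then cf 1 f else 0 := by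
  refine Fin.cases ?_ (fun a => ?_) i
  · rw [if_pos rfl, cf_d0]; simp
  · rw [if_neg (Fin.succ_ne_zero a), cf_ds, hf, map_zero]

theorem hN0 : m.N * (m.N * cf 0 (m.gi 0 0)) = 1 := by
  have := m.hN
  rw [mul_assoc] at this
  exact this

theorem cf0_ek2 {f : A.ps.R} (hf : cf 0 f = 0) (h1 : cf 1 f = m.N) : cf 0 (ek2 m f) = 1 := by
  unfold ek2 ip
  rw [cf_sum, Finset.sum_eq_single 0]
  · rw [cf_sum, Finset.sum_eq_single 0]
    · rw [cfm0, cfm0, cf0_D hf, if_pos rfl, h1]
      linear_combination hN0 m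
    · intro j _ hj
      rw [cfm0, cfm0, cf0_D hf j, if_neg hj, mul_zero, mul_zero]
    · intro h; exact absurd (Finset.mem_univ _) h
  · intro i _ hi
    rw [cf_sum]
    refine Finset.sum_eq_zero fun j _ => ?_
    rw [cfm0, cfm0, cf0_D hf i, if_neg hi, zero_mul, mul_zero]
  · intro h; exact absurd (Finset.mem_univ _) h

theorem ex_rho : ∃ ρ : A.ps.R, cf 0 ρ = 0 ∧ cf 1 ρ = m.N ∧ ek2 m ρ = 1 := by
  set c : A.ps.R := cst ((1 / 2 : ℝ) • m.N) with hc
  have hz : ∀ u : A.ps.R, O 2 (u - rr A * cst m.N) → cf 0 u = 0 ∧ cf 1 u = m.N := by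
    intro u hu
    have a0 := hu 0 (by norm_num)
    have a1 := hu 1 (by norm_num)
    rw [cf_sub, mul_comm, cf_cst_mul, cf_rr, sub_eq_zero] at a0 a1
    constructor
    · rw [a0]; simp
    · rw [a1]; simp
  obtain ⟨u, hu0, hu⟩ := fixpt (ι := Unit)
    (fun u _ => u () - itgX (c * (ek2 m (u ()) - 1))) (fun _ => rr A * cst m.N) 2
    (fun u h i => by
      have h1 := hz _ (h ())
      have e : u () - itgX (c * (ek2 m (u ()) - 1)) - rr A * cst m.N
          = (u () - rr A * cst m.N) - itgX (c * (ek2 m (u ()) - 1)) := by ring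
      show O 2 (u () - itgX (c * (ek2 m (u ()) - 1)) - rr A * cst m.N)
      rw [e]
      refine (h ()).sub (O.itg (N := 1) (O.mul_left _ ?_))
      intro n hn
      have : n = 0 := by omega
      subst this
      rw [cf_sub, cf0_ek2 m h1.1 h1.2, cf0_one, sub_self])
    (fun n hn u v hu hv huv i => by
      have a := hz _ (hu ())
      have b := hz _ (hv ())
      have hδ := huv ()
      set U := u () with hU
      set V := v () with hV
      have e : (U - itgX (c * (ek2 m U - 1))) - (V - itgX (c * (ek2 m V - 1)))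
          = (U - V) - itgX (c * (ek2 m U - ek2 m V)) := by
        have e1 : c * (ek2 m U - 1) = c * (ek2 m U - ek2 m V) + c * (ek2 m V - 1) := by ring
        rw [e1, itg_add]; ring
      show O (n + 1) ((U - itgX (c * (ek2 m U - 1))) - (V - itgX (c * (ek2 m V - 1))))
      rw [e]
      refine contr_step (by rw [cf_sub, a.1, b.1, sub_zero]) ?_
      rw [ek2_diff]
      have hδ' : O (n - 1 + 1) (U - V) := hδ.mono (by omega)
      have hs : cf 0 (U + V) = 0 := by rw [cf_add, a.1, b.1, add_zero]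
      have hO1 : ∀ a' : Fin k, O 1 (A.ps.D a'.succ (U + V)) := by
        intro a'
        exact O1_of (by rw [cf0_D hs, if_neg (Fin.succ_ne_zero a')])
      have hrest : O n ((∑ i, ∑ j, m.gi i j * (A.ps.D i (U - V) * A.ps.D j (U + V)))
          - m.gi 0 0 * (A.ps.D 0 (U - V) * A.ps.D 0 (U + V))) := by
        rw [Fin.sum_univ_succ, Fin.sum_univ_succ (f := fun j => m.gi 0 j
          * (A.ps.D 0 (U - V) * A.ps.D j (U + V)))]
        have e2 : ∀ (x y z : A.ps.R), x + y + z - x = y + z := by intros; ring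
        rw [e2]
        refine O.add (O.sum _ fun b' _ => O.mul_left _ ?_) (O.sum _ fun a' _ => O.sum _ fun j _ => ?_)
        · have h3 := (O.d0 hδ').mul (hO1 b')
          exact h3.mono (by omega)
        · exact O.mul_left _ (O.mul_right _ (O.ds a' hδ))
      have e3 : A.ps.D 0 (U - V) - c * ∑ i, ∑ j, m.gi i j * (A.ps.D i (U - V) * A.ps.D j (U + V))
          = A.ps.D 0 (U - V) * (1 - c * (m.gi 0 0 * A.ps.D 0 (U + V)))
            - c * ((∑ i, ∑ j, m.gi i j * (A.ps.D i (U - V) * A.ps.D j (U + V)))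
              - m.gi 0 0 * (A.ps.D 0 (U - V) * A.ps.D 0 (U + V))) := by ring
      rw [e3]
      refine O.sub ?_ (O.mul_left _ hrest)
      have h4 : O 1 (1 - c * (m.gi 0 0 * A.ps.D 0 (U + V))) := by
        refine O1_of ?_
        rw [cf_sub, cf0_one, cfm0, cfm0, cf0_D hs, if_pos rfl, cf_add, a.2, b.2, hc, cf_cst,
          if_pos rfl]
        have h5 : ((1 / 2 : ℝ) • m.N) * (cf 0 (m.gi 0 0) * (m.N + m.N))
            = m.N * (m.N * cf 0 (m.gi 0 0)) := by
          rw [← two_smul ℝ m.N]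
          simp only [smul_mul_assoc, mul_smul_comm, smul_smul]
          norm_num
          ring
        rw [h5, hN0, sub_self]
      exact ((O.d0 hδ').mul h4).mono (by omega))
  have h1 := hz _ (hu0 ())
  have h2 : u () - itgX (c * (ek2 m (u ()) - 1)) = u () := congrFun hu ()
  have h3 : itgX (c * (ek2 m (u ()) - 1)) = 0 := by linear_combination -h2
  have h4 : c * (ek2 m (u ()) - 1) = 0 := by
    have := D_itg (c * (ek2 m (u ()) - 1))
    rw [h3, der_zero A.ps.isDer] at this
    exact this.symm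
  have h5 : ek2 m (u ()) - 1 = 0 := by
    refine cst_cancel (a := (1 / 2 : ℝ) • m.N) (a' := (2 : ℝ) • (m.N * cf 0 (m.gi 0 0))) ?_ h4
    have := hN0 m
    simp only [smul_mul_assoc, mul_smul_comm, smul_smul]
    norm_num
    linear_combination this
  exact ⟨u (), h1.1, h1.2, sub_eq_zero.mp h5⟩

/-! ### coordinate vector fields -/

variable {m}

/-- gradient of the distance function -/
noncomputable def gr (m : Mt (psHs h0)) (ρ : A.ps.R) (i : Fin (k + 1)) : A.ps.R :=
  ∑ j, m.gi i j * A.ps.D j ρ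

theorem cf0_gr {ρ : A.ps.R} (h1 : cf 0 ρ = 0) (h2 : cf 1 ρ = m.N) (i : Fin (k + 1)) :
    cf 0 (gr m ρ i) = cf 0 (m.gi i 0) * m.N := by
  unfold gr
  rw [cf_sum, Finset.sum_eq_single 0]
  · rw [cfm0, cf0_D h1, if_pos rfl, h2]
  · intro j _ hj
    rw [cfm0, cf0_D h1 j, if_neg hj, mul_zero]
  · intro h; exact absurd (Finset.mem_univ _) h

theorem ex_E {L : Fin (k + 1) → A.ps.R} (hL : m.N * cf 0 (L 0) = 1) (c : Fin k) :
    ∃ E : Fin (k + 1) → A.ps.R, (∀ j, cf 0 (E j) = if c.succ = j then 1 else 0) ∧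
      ∀ j, Hy.along A.ps.D L (E j) = Hy.along A.ps.D E (L j) := by
  set G : (Fin (k + 1) → A.ps.R) → Fin (k + 1) → A.ps.R := fun E j =>
    Hy.along A.ps.D L (E j) - Hy.along A.ps.D E (L j) with hG
  have hcst : ∀ j : Fin (k + 1), cf 0 (cst (if c.succ = j then (1 : A.R) else 0))
      = if c.succ = j then 1 else 0 := fun j => by rw [cf_cst, if_pos rfl]
  obtain ⟨E, hE0, hE⟩ := fixpt (ι := Fin (k + 1))
    (fun E j => E j - itgX (cst m.N * G E j))
    (fun j => cst (if c.succ = j then (1 : A.R) else 0)) 1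
    (fun u h i => by
      have e : u i - itgX (cst m.N * G u i) - cst (if c.succ = i then (1 : A.R) else 0)
          = (u i - cst (if c.succ = i then (1 : A.R) else 0)) - itgX (cst m.N * G u i) := by ring
      show O 1 (u i - itgX (cst m.N * G u i) - cst (if c.succ = i then (1 : A.R) else 0))
      rw [e]
      exact (h i).sub (O1_of (cf_itg0 _)))
    (fun n hn u v hu hv huv j => by
      have e : (u j - itgX (cst m.N * G u j)) - (v j - itgX (cst m.N * G v j))
          = (u j - v j) - itgX (cst m.N * (G u j - G v j)) := by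
        have e1 : cst m.N * G u j = cst m.N * (G u j - G v j) + cst m.N * G v j := by ring
        rw [e1, itg_add]; ring
      show O (n + 1) ((u j - itgX (cst m.N * G u j)) - (v j - itgX (cst m.N * G v j)))
      rw [e]
      refine contr_step (huv j 0 (by omega)) ?_
      have e2 : G u j - G v j = (∑ i, L i * A.ps.D i (u j - v j))
          - ∑ i, (u i - v i) * A.ps.D i (L j) := by
        rw [hG]
        simp only [Hy.along, der_sub A.ps.isDer, mul_sub, sub_mul, Finset.sum_sub_distrib]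
        ring
      rw [e2, Fin.sum_univ_succ (f := fun i => L i * A.ps.D i (u j - v j))]
      have hδ' : ∀ j, O (n - 1 + 1) (u j - v j) := fun j => (huv j).mono (by omega)
      have e3 : A.ps.D 0 (u j - v j) - cst m.N * (L 0 * A.ps.D 0 (u j - v j)
            + (∑ a : Fin k, L a.succ * A.ps.D a.succ (u j - v j))
            - ∑ i, (u i - v i) * A.ps.D i (L j))
          = A.ps.D 0 (u j - v j) * (1 - cst m.N * L 0)
            - cst m.N * ((∑ a : Fin k, L a.succ * A.ps.D a.succ (u j - v j))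
              - ∑ i, (u i - v i) * A.ps.D i (L j)) := by ring
      rw [e3]
      refine O.sub ?_ (O.mul_left _ (O.sub (O.sum _ fun a _ => O.mul_left _ (O.ds a (huv j)))
        (O.sum _ fun i _ => O.mul_right _ (huv i))))
      have h4 : O 1 (1 - cst m.N * L 0) := by
        refine O1_of ?_
        rw [cf_sub, cf0_one, cf_cst_mul, hL, sub_self]
      exact ((O.d0 (hδ' j)).mul h4).mono (by omega))
  refine ⟨E, fun j => ?_, fun j => ?_⟩
  · have := hE0 j 0 (by norm_num)
    rw [cf_sub, hcst, sub_eq_zero] at this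
    exact this
  · have h2 : E j - itgX (cst m.N * G E j) = E j := congrFun hE j
    have h3 : itgX (cst m.N * G E j) = 0 := by linear_combination -h2
    have h4 : cst m.N * G E j = 0 := by
      have := D_itg (cst m.N * G E j)
      rw [h3, der_zero A.ps.isDer] at this
      exact this.symm
    have h5 : G E j = 0 := cst_cancel (a' := cf 0 (L 0)) (by rw [mul_comm]; exact hL) h4
    exact sub_eq_zero.mp h5

end NF1

end Run7.h96.Hy

end

section

/-!
Fermi normal form of a formal metric: the coordinate change.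
-/

set_option linter.all false
set_option maxHeartbeats 400000

open scoped BigOperators

namespace Run7.h96.Hy

open CInv

variable {k : ℕ}

section NF2

variable {A : DR (k + 1)} {h0 : ∀ f, A.d 0 f = 0}

theorem along_zero' (V : Fin (k + 1) → A.ps.R) : Hy.along A.ps.D V (0 : A.ps.R) = 0 := by
  unfold Hy.along
  simp only [der_zero A.ps.isDer, mul_zero, Finset.sum_const_zero]

theorem along_smul' (V : Fin (k + 1) → A.ps.R) (t : ℝ) (f : A.ps.R) :
    Hy.along A.ps.D V (t • f) = t • Hy.along A.ps.D V f := by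
  unfold Hy.along
  simp only [A.ps.isDer.smul, mul_smul_comm, Finset.smul_sum]

theorem along_one' (V : Fin (k + 1) → A.ps.R) : Hy.along A.ps.D V (1 : A.ps.R) = 0 := by
  unfold Hy.along
  simp only [der_one A.ps.isDer, mul_zero, Finset.sum_const_zero]

/-- Taylor homomorphism of a vector field -/
noncomputable def vH (L : Fin (k + 1) → A.ps.R) : A.ps.R →ₐ[ℝ] A.ps.R :=
  tayH (Hy.along A.ps.D L) (along_add A.ps.isDer L) (along_mul A.ps.isDer L)
    (along_smul' L) (c0 A)

theorem cf_vH (L : Fin (k + 1) → A.ps.R) (n : ℕ) (f : A.ps.R) :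
    cf n (vH L f) = ((n.factorial : ℕ) : ℝ)⁻¹ • cf 0 ((Hy.along A.ps.D L)^[n] f) :=
  cf_tay (Hy.along A.ps.D L) (c0 A) n f

theorem cf0_vH (L : Fin (k + 1) → A.ps.R) (f : A.ps.R) : cf 0 (vH L f) = cf 0 f :=
  cf0_tay (Hy.along A.ps.D L) (c0 A) f

theorem D0_vH (L : Fin (k + 1) → A.ps.R) (f : A.ps.R) :
    A.ps.D 0 (vH L f) = vH L (Hy.along A.ps.D L f) := D_tay (Hy.along A.ps.D L) (c0 A) f

/-- vector fields commuting with `L` -/
theorem comm_of {L E : Fin (k + 1) → A.ps.R}
    (h : ∀ j, Hy.along A.ps.D L (E j) = Hy.along A.ps.D E (L j)) (f : A.ps.R) :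
    Hy.along A.ps.D L (Hy.along A.ps.D E f) = Hy.along A.ps.D E (Hy.along A.ps.D L f) := by
  rw [along_comm A.ps.isDer]
  have : br A.ps.D L E = fun _ => 0 := by
    funext j
    unfold br
    rw [h, sub_self]
  rw [this]
  unfold Hy.along
  simp

theorem iter_comm {L E : Fin (k + 1) → A.ps.R}
    (h : ∀ j, Hy.along A.ps.D L (E j) = Hy.along A.ps.D E (L j)) (n : ℕ) (f : A.ps.R) :
    (Hy.along A.ps.D L)^[n] (Hy.along A.ps.D E f) = Hy.along A.ps.D E ((Hy.along A.ps.D L)^[n] f) := by
  induction n generalizing f with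
  | zero => rfl
  | succ n ih =>
    rw [Function.iterate_succ_apply, Function.iterate_succ_apply, comm_of h, ih]

theorem cf0_alongE {E : Fin (k + 1) → A.ps.R} {c : Fin k}
    (hE : ∀ j, cf 0 (E j) = if c.succ = j then 1 else 0) (f : A.ps.R) :
    cf 0 (Hy.along A.ps.D E f) = A.d c.succ (cf 0 f) := by
  unfold Hy.along
  rw [cf_sum, Finset.sum_eq_single c.succ]
  · rw [cfm0, hE, if_pos rfl, one_mul, cf_ds]
  · intro j _ hj
    rw [cfm0, hE, if_neg (Ne.symm hj), zero_mul]
  · intro h; exact absurd (Finset.mem_univ _) h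

theorem Ds_vH {L E : Fin (k + 1) → A.ps.R} {c : Fin k}
    (hE : ∀ j, cf 0 (E j) = if c.succ = j then 1 else 0)
    (h : ∀ j, Hy.along A.ps.D L (E j) = Hy.along A.ps.D E (L j)) (f : A.ps.R) :
    A.ps.D c.succ (vH L f) = vH L (Hy.along A.ps.D E f) := by
  apply cf_ext
  intro n
  rw [cf_ds, cf_vH, cf_vH, iter_comm h, cf0_alongE hE, Derivation.map_smul]

/-- a vector field commuting with `L` and vanishing initially is killed by the homomorphism -/
theorem vH_zero {L B : Fin (k + 1) → A.ps.R} (hB : ∀ j, cf 0 (B j) = 0)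
    (h : ∀ j, Hy.along A.ps.D L (B j) = Hy.along A.ps.D B (L j)) (j : Fin (k + 1)) :
    vH L (B j) = 0 := by
  have key : ∀ n, ∃ c : Fin (k + 1) → A.ps.R, (Hy.along A.ps.D L)^[n] (B j) = ∑ i, c i * B i := by
    intro n
    induction n with
    | zero =>
      refine ⟨fun i => if i = j then 1 else 0, ?_⟩
      simp
    | succ n ih =>
      obtain ⟨c, hc⟩ := ih
      refine ⟨fun i => Hy.along A.ps.D L (c i) + ∑ l, c l * A.ps.D i (L l), ?_⟩
      rw [Function.iterate_succ_apply', hc, along_sum A.ps.isDer]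
      simp only [along_mul A.ps.isDer, h, add_mul, Finset.sum_add_distrib, Finset.sum_mul]
      congr 1
      rw [Finset.sum_comm]
      refine Finset.sum_congr rfl fun l _ => ?_
      unfold Hy.along
      rw [Finset.mul_sum]
      refine Finset.sum_congr rfl fun i _ => by ring
  apply cf_ext
  intro n
  obtain ⟨c, hc⟩ := key n
  rw [cf_vH, hc, cf_sum, cf_zero]
  have : ∀ i, cf 0 (c i * B i) = 0 := fun i => by rw [cfm0, hB, mul_zero]
  rw [Finset.sum_eq_zero fun i _ => this i, smul_zero]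

/-- inverse of a matrix of series -/
theorem ex_inv {M : Fin (k + 1) → Fin (k + 1) → A.ps.R} {M0 : Fin (k + 1) → Fin (k + 1) → A.R}
    (h : ∀ i j, ∑ p, cf 0 (M i p) * M0 p j = if i = j then 1 else 0) :
    ∃ K : Fin (k + 1) → Fin (k + 1) → A.ps.R, (∀ i j, ∑ p, M i p * K p j = if i = j then 1 else 0) ∧
      ∀ i j, ∑ p, K i p * M p j = if i = j then 1 else 0 := by
  have h1 : IsUnit (Matrix.of (fun i j => cf 0 (M i j)) : Matrix (Fin (k + 1)) (Fin (k + 1)) A.R).det := by
    have h : (Matrix.of (fun i j => cf 0 (M i j))) * (Matrix.of M0) = 1 := by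
      ext i j
      rw [Matrix.mul_apply, Matrix.one_apply]
      exact h i j
    have := congrArg Matrix.det h
    rw [Matrix.det_mul, Matrix.det_one] at this
    exact IsUnit.of_mul_eq_one _ this
  have h2 : PowerSeries.constantCoeff (R := A.R)
      ((Matrix.of M : Matrix (Fin (k + 1)) (Fin (k + 1)) (PowerSeries A.R)).det)
      = (Matrix.of (fun i j => cf 0 (M i j)) : Matrix (Fin (k + 1)) (Fin (k + 1)) A.R).det := by
    rw [RingHom.map_det]
    congr 1
    ext i j
    exact (PowerSeries.coeff_zero_eq_constantCoeff_apply (R := A.R) (M i j : PowerSeries A.R)).symm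
  have h3 : IsUnit ((Matrix.of M : Matrix (Fin (k + 1)) (Fin (k + 1)) (PowerSeries A.R)).det) := by
    rw [PowerSeries.isUnit_iff_constantCoeff, h2]
    exact h1
  have h4 := Matrix.mul_nonsing_inv (Matrix.of M) h3
  have h5 := Matrix.nonsing_inv_mul (Matrix.of M) h3
  refine ⟨fun i j => ((Matrix.of M : Matrix (Fin (k + 1)) (Fin (k + 1)) (PowerSeries A.R))⁻¹) i j,
    fun i j => ?_, fun i j => ?_⟩
  · have := congrFun (congrFun h4 i) j
    rw [Matrix.mul_apply, Matrix.one_apply] at this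
    exact this
  · have := congrFun (congrFun h5 i) j
    rw [Matrix.mul_apply, Matrix.one_apply] at this
    exact this

/-- Fermi data from a metric in Fermi form -/
noncomputable def ofFer {g gi : Fin (k + 1) → Fin (k + 1) → A.ps.R} (h : IsMetric g gi) : HD A where
  G i j := cf 0 (g i j)
  Gi i j := cf 0 (gi i j)
  Φ j := match j with
    | Fd.nu => fun K => if K 0 = 0 then 1 else 0
    | Fd.h j => fun K => cf (j + 1) (g (K 0) (K 1))
    | Fd.chi => fun _ => 0
    | Fd.om _ => fun _ => 0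
  met := {
    symm := fun i j => by rw [h.symm]
    inv := fun i j => by
      have := congrArg (c0 A) (h.inv i j)
      rw [map_sum] at this
      simp only [map_mul] at this
      refine Eq.trans this ?_
      split_ifs
      · exact map_one _
      · exact map_zero _ }

theorem gX_ofFer {g gi : Fin (k + 1) → Fin (k + 1) → A.ps.R} (h : IsMetric g gi)
    (i j : Fin (k + 1)) : gX (ofFer h) i j = g i j := by
  apply cf_ext
  intro m
  rw [cf_gX]
  cases m with
  | zero => rfl
  | succ m => rfl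

theorem Fer.ofFer {g gi : Fin (k + 1) → Fin (k + 1) → A.ps.R} (h : IsMetric g gi)
    (h0 : ∀ f, A.d 0 f = 0) (h1 : ∀ j, g 0 j = if j = 0 then 1 else 0) : Fer (Hy.ofFer h) where
  d0 := h0
  g00 := by
    show cf 0 (g 0 0) = 1
    rw [h1, if_pos rfl, cf0_one]
  g0 a := by
    show cf 0 (g 0 a.succ) = 0
    rw [h1, if_neg (Fin.succ_ne_zero a), cf_zero]
  nu K := rfl
  h0 j i := by
    show cf (j + 1) (g 0 i) = 0
    rw [h1]
    split_ifs
    · rw [cf_one, if_neg (Nat.succ_ne_zero j)]
    · exact cf_zero _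
  hs j i i' := by
    show cf (j + 1) (g i i') = cf (j + 1) (g i' i)
    rw [h.symm]

/-- Fermi normal form -/
theorem fermi_nf (m : Mt (psHs h0)) :
    ∃ (b : HD A) (hb : Fer b) (φ : A.ps.R →ₐ[ℝ] A.ps.R) (J K : Fin (k + 1) → Fin (k + 1) → A.ps.R),
      HCC (psHs h0) (psHs h0) (φ : A.ps.R →+* A.ps.R) J K ∧ gX b = pull φ J m.g ∧
      gXi b = pullInv φ K m.gi ∧ cf 0 (J 0 0) * m.N = 1 ∧ b.scl Nt 0 = b := by
  classical
  obtain ⟨ρ, hρ0, hρ1, hρ⟩ := ex_rho m
  set L := gr m ρ with hL
  have hs : ∀ i j, m.gi i j = m.gi j i := (gi_symm m.met).1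
  have hL0 : m.N * cf 0 (L 0) = 1 := by
    rw [hL, cf0_gr hρ0 hρ1]
    linear_combination hN0 m
  choose E hE0 hE using fun c => ex_E (m := m) hL0 c
  let φ := vH L
  let J : Fin (k + 1) → Fin (k + 1) → A.ps.R := fun i j =>
    Fin.cases (φ (L j)) (fun c => φ (E c j)) i
  have hJ0 : ∀ (c : Fin k) (j : Fin (k + 1)), cf 0 (J c.succ j) = if c.succ = j then 1 else 0 := by
    intro c j
    show cf 0 (vH L (E c j)) = _
    rw [cf0_vH, hE0]
  have hJ00 : ∀ j, cf 0 (J 0 j) = cf 0 (L j) := fun j => cf0_vH L (L j)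
  -- the inverse at `r = 0`
  obtain ⟨K, hJK, hKJ⟩ := ex_inv (M := J) (M0 := fun i j =>
      Fin.cases (if j = 0 then m.N else -(m.N * cf 0 (L j))) (fun c => if c.succ = j then 1 else 0) i)
    (by
      intro i j
      rw [Fin.sum_univ_succ]
      refine Fin.cases ?_ (fun a => ?_) i
      · simp only [Fin.cases_zero, Fin.cases_succ, hJ00]
        refine Fin.cases ?_ (fun b => ?_) j
        · rw [if_pos rfl, if_pos rfl]
          have : ∀ c : Fin k, cf 0 (L c.succ) * (if c.succ = 0 then (1 : A.R) else 0) = 0 := by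
            intro c; rw [if_neg (Fin.succ_ne_zero c), mul_zero]
          rw [Finset.sum_eq_zero fun c _ => this c]
          linear_combination hL0
        · rw [if_neg (Fin.succ_ne_zero b), if_neg (Fin.succ_ne_zero b).symm]
          rw [Finset.sum_eq_single b]
          · rw [if_pos rfl]
            linear_combination (-(cf 0 (L b.succ))) * hL0
          · intro c _ hc
            rw [if_neg (fun h => hc (Fin.succ_injective _ h)), mul_zero]
          · intro h; exact absurd (Finset.mem_univ _) h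
      · simp only [Fin.cases_zero, Fin.cases_succ, hJ0]
        rw [if_neg (Fin.succ_ne_zero a), zero_mul, zero_add]
        rw [Finset.sum_eq_single a]
        · rw [if_pos rfl, one_mul]
        · intro c _ hc
          rw [if_neg (fun h => hc (Fin.succ_injective _ h).symm), zero_mul]
        · intro h; exact absurd (Finset.mem_univ _) h)
  have hder : ∀ (i : Fin (k + 1)) f, A.ps.D i (φ f) = ∑ j, J i j * φ (A.ps.D j f) := by
    intro i f
    refine Fin.cases ?_ (fun c => ?_) i
    · show A.ps.D 0 (vH L f) = ∑ j, vH L (L j) * vH L (A.ps.D j f)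
      rw [D0_vH]
      unfold Hy.along
      rw [map_sum]
      simp only [map_mul]
    · show A.ps.D c.succ (vH L f) = ∑ j, vH L (E c j) * vH L (A.ps.D j f)
      rw [Ds_vH (hE0 c) (hE c)]
      unfold Hy.along
      rw [map_sum]
      simp only [map_mul]
  have hcl : ∀ i j l, A.ps.D i (J j l) = A.ps.D j (J i l) := by
    have hcl0 : ∀ (c : Fin k) l, A.ps.D 0 (J c.succ l) = A.ps.D c.succ (J 0 l) := by
      intro c l
      show A.ps.D 0 (vH L (E c l)) = A.ps.D c.succ (vH L (L l))
      rw [D0_vH, Ds_vH (hE0 c) (hE c), hE]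
    have hclE : ∀ (a c : Fin k) l, A.ps.D a.succ (J c.succ l) = A.ps.D c.succ (J a.succ l) := by
      intro a c l
      show A.ps.D a.succ (vH L (E c l)) = A.ps.D c.succ (vH L (E a l))
      rw [Ds_vH (hE0 a) (hE a), Ds_vH (hE0 c) (hE c), ← sub_eq_zero, ← map_sub]
      refine vH_zero (B := br A.ps.D (E a) (E c)) (fun j => ?_) (fun j => ?_) l
      · show cf 0 (Hy.along A.ps.D (E a) (E c j) - Hy.along A.ps.D (E c) (E a j)) = 0
        rw [cf_sub, cf0_alongE (hE0 a), cf0_alongE (hE0 c), hE0, hE0]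
        split_ifs <;> simp
      · show Hy.along A.ps.D L (Hy.along A.ps.D (E a) (E c j) - Hy.along A.ps.D (E c) (E a j)) = _
        have h1 : Hy.along A.ps.D L (Hy.along A.ps.D (E a) (E c j)
            - Hy.along A.ps.D (E c) (E a j))
            = Hy.along A.ps.D L (Hy.along A.ps.D (E a) (E c j))
              - Hy.along A.ps.D L (Hy.along A.ps.D (E c) (E a j)) := by
          unfold Hy.along
          simp only [der_sub A.ps.isDer, mul_sub, Finset.sum_sub_distrib]
        rw [h1, comm_of (hE a), comm_of (hE c), hE, hE]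
        have h2 := along_comm A.ps.isDer (E a) (E c) (L j)
        rw [h2]; ring
    intro i j l
    refine Fin.cases ?_ (fun a => ?_) i <;> refine Fin.cases ?_ (fun c => ?_) j
    · rfl
    · exact hcl0 c l
    · exact (hcl0 a l).symm
    · exact hclE a c l
  have hcc : CoordChange A.ps.D A.ps.D (φ : A.ps.R →+* A.ps.R) J K := {
    smul := fun r a => map_smul φ r a
    jk := hJK
    kj := hKJ
    der := hder
    closed := hcl }
  have hH : HCC (psHs h0) (psHs h0) (φ : A.ps.R →+* A.ps.R) J K := {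
    cc := hcc
    hr := fun f => cf0_vH L f
    hJ := hJ0 }
  have hφρ : φ ρ = rr A := by
    have h1 : O 0 (φ ρ) := O.zero' _
    apply cf_ext
    intro n
    cases n with
    | zero =>
      rw [cf_rr, if_neg (by norm_num)]
      show cf 0 (vH L ρ) = 0
      rw [cf0_vH, hρ0]
    | succ n =>
      apply cf_succ_inj
      show cf n (A.ps.D 0 (vH L ρ)) = cf n (A.ps.D 0 (rr A))
      have h2 : Hy.along A.ps.D L ρ = 1 := by
        rw [← hρ, hL]
        unfold Hy.along ek2 ip gr
        simp only [Finset.sum_mul]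
        refine Finset.sum_congr rfl fun i _ => Finset.sum_congr rfl fun j _ => by ring
      rw [D0_vH, h2, map_one, D_rr, if_pos rfl]
  have hgL : ∀ b, ∑ a, L a * m.g a b = A.ps.D b ρ := by
    intro b
    rw [hL]
    unfold gr
    have : ∀ a, (∑ j, m.gi a j * A.ps.D j ρ) * m.g a b = ∑ j, (m.gi j a * m.g a b) * A.ps.D j ρ := by
      intro a
      rw [Finset.sum_mul]
      refine Finset.sum_congr rfl fun j _ => ?_
      rw [hs a j]; ring
    simp only [this]
    rw [Finset.sum_comm]
    simp only [← Finset.sum_mul, (gi_symm m.met).2]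
    simp
  have hg0 : ∀ j, pull φ J m.g 0 j = if j = 0 then 1 else 0 := by
    intro j
    have h1 : pull φ J m.g 0 j = ∑ b, J j b * φ (A.ps.D b ρ) := by
      unfold pull
      rw [Finset.sum_comm]
      refine Finset.sum_congr rfl fun b _ => ?_
      rw [← hgL b, map_sum, Finset.mul_sum]
      refine Finset.sum_congr rfl fun a _ => ?_
      show vH L (L a) * J j b * vH L (m.g a b) = J j b * vH L (L a * m.g a b)
      rw [map_mul]; ring
    rw [h1]
    have h2 := hder j ρ
    rw [← h2, hφρ, D_rr]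
  have hmet := cc_metric hcc m.met
  refine ⟨ofFer hmet, Fer.ofFer hmet h0 hg0, φ, J, K, hH, ?_, ?_, ?_, ?_⟩
  · funext i j
    exact gX_ofFer hmet i j
  · have h1 : gX (ofFer hmet) = pull φ J m.g := by funext i j; exact gX_ofFer hmet i j
    have h2 := (Fer.ofFer hmet h0 hg0).metric
    rw [h1] at h2
    exact inv_unique h2 hmet
  · rw [hJ00]
    linear_combination hL0
  · refine BD.ext' rfl rfl ?_
    funext j K
    show (if j ∈ Nt then 0 * (ofFer hmet).Φ j K else (ofFer hmet).Φ j K) = (ofFer hmet).Φ j K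
    split_ifs with hj
    · rw [zero_mul]
      rcases hj with rfl | ⟨j, rfl⟩ <;> rfl
    · rfl

/-- the basic tensors of an arbitrary formal metric are those of its Fermi normal form -/
theorem fermi_hyp {m : Mt (psHs h0)} {b : HD A} {hb : Fer b} {φ : A.ps.R →ₐ[ℝ] A.ps.R}
    {J K : Fin (k + 1) → Fin (k + 1) → A.ps.R}
    (hH : HCC (psHs h0) (psHs h0) (φ : A.ps.R →+* A.ps.R) J K) (hg : gX b = pull φ J m.g)
    (hgi : gXi b = pullInv φ K m.gi) (hN : cf 0 (J 0 0) * m.N = 1) :
    m.hyp = b.setF (hFf A b) := by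
  rw [← fmt_hyp hb]
  exact (Mt.hyp_cc (m := m) (m' := fmt hb) hH hg hgi hN.symm).symm

end NF2

end Run7.h96.Hy

end

section

/-!
Conformal changes of the metric and Fermi normal forms.
-/

set_option linter.all false
set_option maxHeartbeats 400000

open scoped BigOperators

namespace Run7.h96.Hy

open CInv

variable {k : ℕ}

section Mul

variable {X A : DR (k + 1)} {H : Hs X A}

/-- the metric `u² g` -/
def Mt.mulc (m : Mt H) (u u' : X.R) (h : u * u' = 1) : Mt H where
  g i j := u * u * m.g i j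
  gi i j := u' * u' * m.gi i j
  met := {
    symm := fun i j => by rw [m.met.symm]
    inv := fun i j => by
      rw [← m.met.inv i j]
      refine Finset.sum_congr rfl fun p _ => ?_
      linear_combination (m.g i p * m.gi p j * (u * u' + 1)) * h }
  N := H.res u * m.N
  hN := by
    have h1 := congrArg H.res h
    rw [map_mul, map_one] at h1
    rw [map_mul, map_mul]
    linear_combination (H.res u * H.res u' + 1) * m.N * m.N * H.res (m.gi 0 0) * h1 + m.hN

variable {X' : DR (k + 1)} {H' : Hs X' A} {φ : X.R →+* X'.R} {J K : Fin (k + 1) → Fin (k + 1) → X'.R}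

theorem pull_mulc (u : X.R) (g : Fin (k + 1) → Fin (k + 1) → X.R) (i j : Fin (k + 1)) :
    pull φ J (fun i j => u * u * g i j) i j = φ u * φ u * pull φ J g i j := by
  unfold pull
  rw [Finset.mul_sum]
  refine Finset.sum_congr rfl fun a _ => ?_
  rw [Finset.mul_sum]
  refine Finset.sum_congr rfl fun b _ => ?_
  rw [map_mul, map_mul]; ring

theorem pullInv_mulc (u : X.R) (g : Fin (k + 1) → Fin (k + 1) → X.R) (i j : Fin (k + 1)) :
    pullInv φ K (fun i j => u * u * g i j) i j = φ u * φ u * pullInv φ K g i j := by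
  unfold pullInv
  rw [Finset.mul_sum]
  refine Finset.sum_congr rfl fun a _ => ?_
  rw [Finset.mul_sum]
  refine Finset.sum_congr rfl fun b _ => ?_
  rw [map_mul, map_mul]; ring

/-- the transform of a conformally changed metric -/
theorem Mt.hyp_cc_mulc (hc : HCC H H' φ J K) {m : Mt H} {m' : Mt H'} (hg : m'.g = pull φ J m.g)
    (hgi : m'.gi = pullInv φ K m.gi) (hN : m'.N = H'.res (J 0 0) * m.N) {u u' : X.R}
    (h : u * u' = 1) {v v' : X'.R} (h' : v * v' = 1) (hv : v = φ u) (hv' : v' = φ u') :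
    (m'.mulc v v' h').hyp = (m.mulc u u' h).hyp := by
  subst hv hv'
  refine Mt.hyp_cc hc ?_ ?_ ?_
  · funext i j
    show φ u * φ u * m'.g i j = pull φ J (fun i j => u * u * m.g i j) i j
    rw [pull_mulc, hg]
  · funext i j
    show φ u' * φ u' * m'.gi i j = pullInv φ K (fun i j => u' * u' * m.gi i j) i j
    rw [pullInv_mulc, hgi]
  · show H'.res (φ u) * m'.N = H'.res (J 0 0) * (H.res u * m.N)
    rw [hc.hr, hN]; ring

end Mul

/-! ### dual numbers -/

section Dual

variable {A : DR (k + 1)} {h0 : ∀ f, A.d 0 f = 0}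

theorem lf_sum {α : Type} (s : Finset α) (f : α → A.ps.R) : lf (∑ a ∈ s, f a) = ∑ a ∈ s, lf (f a) :=
  psm_sum _ s f
theorem lf_one : lf (1 : A.ps.R) = 1 := psm_one _
theorem lf_zero : lf (0 : A.ps.R) = 0 := psm_zero _
theorem lf_smul (t : ℝ) (F : A.ps.R) : lf (t • F) = t • lf F := psm_smul _ t F
theorem lf_D (i : Fin (k + 1)) (F : A.ps.R) : lf (A.ps.D i F) = A.dual.ps.D i (lf F) := psm_D _ i F

/-- the lifted metric -/
noncomputable def lfm (m : Mt (psHs h0)) : Mt (psHs (dual_d0 h0)) where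
  g i j := lf (m.g i j)
  gi i j := lf (m.gi i j)
  met := {
    symm := fun i j => by rw [m.met.symm]
    inv := fun i j => by
      have := congrArg lf (m.met.inv i j)
      rw [lf_sum] at this
      simp only [lf_mul] at this
      rw [this]
      split_ifs
      · exact lf_one
      · exact lf_zero }
  N := (inlH A).f m.N
  hN := by
    show (inlH A).f m.N * (inlH A).f m.N * cf 0 (lf (m.gi 0 0)) = 1
    rw [cf_lf, ← map_mul, ← map_mul]
    have h1 : m.N * m.N * cf 0 (m.gi 0 0) = 1 := m.hN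
    rw [h1, map_one]

theorem eew (ω : A.ps.R) : (1 + ee A * lf ω) * (1 - ee A * lf ω) = 1 := by
  linear_combination (-(lf ω * lf ω)) * (ee_sq (X := A))

/-- the infinitesimally changed metric `(1 + 2 ε ω) g` -/
noncomputable def im (m : Mt (psHs h0)) (ω : A.ps.R) : Mt (psHs (dual_d0 h0)) :=
  (lfm m).mulc (1 + ee A * lf ω) (1 - ee A * lf ω) (eew ω)

/-- dual extension of a ring morphism -/
noncomputable def dφ (φ : A.ps.R →ₐ[ℝ] A.ps.R) : A.dual.ps.R →+* A.dual.ps.R where
  toFun F := lf (φ (fX F)) + ee A * lf (φ (sX F))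
  map_one' := by
    have h1 : fX (1 : A.dual.ps.R) = 1 := psm_one _
    have h2 : sX (1 : A.dual.ps.R) = 0 := by
      have := sX_lf (1 : A.ps.R)
      rw [lf_one] at this
      exact this
    rw [h1, h2, map_one, map_zero, lf_one, lf_zero, mul_zero, add_zero]
  map_mul' F G := by
    rw [fX_mul, sX_mul, map_mul, map_add, map_mul, map_mul, lf_mul, lf_add, lf_mul, lf_mul]
    linear_combination (-(lf (φ (sX F)) * lf (φ (sX G)))) * (ee_sq (X := A))
  map_zero' := by
    have h1 : fX (0 : A.dual.ps.R) = 0 := psm_zero _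
    have h2 : sX (0 : A.dual.ps.R) = 0 := by
      have := sX_lf (0 : A.ps.R)
      rw [lf_zero] at this
      exact this
    rw [h1, h2, map_zero, lf_zero, mul_zero, add_zero]
  map_add' F G := by
    rw [fX_add, sX_add, map_add, map_add, lf_add, lf_add]; ring

theorem dφ_apply (φ : A.ps.R →ₐ[ℝ] A.ps.R) (F : A.dual.ps.R) :
    dφ φ F = lf (φ (fX F)) + ee A * lf (φ (sX F)) := rfl

theorem dφ_lf (φ : A.ps.R →ₐ[ℝ] A.ps.R) (F : A.ps.R) : dφ φ (lf F) = lf (φ F) := by
  rw [dφ_apply, fX_lf, sX_lf, map_zero, lf_zero, mul_zero, add_zero]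

theorem dφ_ee (φ : A.ps.R →ₐ[ℝ] A.ps.R) : dφ φ (ee A) = ee A := by
  have h1 : fX (ee A) = 0 := by
    have := fX_ee (1 : A.dual.ps.R)
    rw [mul_one] at this; exact this
  have h2 : sX (ee A) = 1 := by
    have := sX_ee (1 : A.dual.ps.R)
    rw [mul_one] at this
    rw [this]; exact psm_one _
  rw [dφ_apply, h1, h2, map_zero, map_one, lf_zero, lf_one, zero_add, mul_one]

theorem dual_HCC {φ : A.ps.R →ₐ[ℝ] A.ps.R} {J K : Fin (k + 1) → Fin (k + 1) → A.ps.R}
    (hH : HCC (psHs h0) (psHs h0) (φ : A.ps.R →+* A.ps.R) J K) :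
    HCC (psHs (dual_d0 h0)) (psHs (dual_d0 h0)) (dφ φ) (fun i j => lf (J i j))
      (fun i j => lf (K i j)) where
  cc := {
    smul := fun r a => by
      have h1 : fX (r • a) = r • fX a := fX_smul r a
      rw [dφ_apply, dφ_apply, h1, sX_smul, map_smul, map_smul, lf_smul, lf_smul, smul_add,
        mul_smul_comm]
    jk := fun i j => by
      have := congrArg lf (hH.cc.jk i j)
      rw [lf_sum] at this
      simp only [lf_mul] at this
      rw [this]
      split_ifs
      · exact lf_one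
      · exact lf_zero
    kj := fun i j => by
      have := congrArg lf (hH.cc.kj i j)
      rw [lf_sum] at this
      simp only [lf_mul] at this
      rw [this]
      split_ifs
      · exact lf_one
      · exact lf_zero
    der := fun i a => by
      have h1 : ∀ f : A.ps.R, A.ps.D i (φ f) = ∑ j, J i j * φ (A.ps.D j f) := hH.cc.der i
      rw [dφ_apply, A.dual.ps.isDer.add, A.dual.ps.isDer.mul, D_ee h0, zero_mul, zero_add,
        ← lf_D, ← lf_D, h1, h1, lf_sum, lf_sum, Finset.mul_sum, ← Finset.sum_add_distrib]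
      refine Finset.sum_congr rfl fun j _ => ?_
      rw [dφ_apply, fX_D, sX_D, lf_mul, lf_mul]; ring
    closed := fun i j l => by
      rw [← lf_D, ← lf_D]
      have : A.ps.D i (J j l) = A.ps.D j (J i l) := hH.cc.closed i j l
      rw [this] }
  hr F := by
    show cf 0 (lf (φ (fX F)) + ee A * lf (φ (sX F))) = cf 0 F
    have h1 : ∀ f : A.ps.R, cf 0 (φ f) = cf 0 f := hH.hr
    conv_rhs => rw [decomp F]
    rw [cf_add, cf_add, cf_ee_mul, cf_ee_mul, cf_lf, cf_lf, cf_lf, cf_lf, h1, h1]
  hJ a j := by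
    show cf 0 (lf (J a.succ j)) = _
    have h1 : cf 0 (J a.succ j) = if a.succ = j then 1 else 0 := hH.hJ a j
    rw [cf_lf, h1]
    split_ifs
    · exact map_one _
    · exact map_zero _

/-- infinitesimal conformal change of a metric in Fermi form, in terms of `cb` -/
theorem im_fmt {b : HD A} (hb : Fer b) (ω : A.ps.R) :
    (im (fmt hb) ω).hyp = (cb b ω).setF (hFf A.dual (cb b ω)) := by
  rw [← fmt_hyp (hb.cb ω)]
  have hD := A.dual.ps.isDer
  have hcc := shift_cc hD (zl b ω) (ee A) ee_sq (D_ee hb.d0)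
  have hZ : ∀ a, O 1 (zl b ω a) := fun a => O_lf (zv_O1 ω a)
  have hZ0 : cf 1 (zl b ω 0) = - (inlH A).f (cf 0 ω) := by
    show cf 1 (lf (zv b ω 0)) = _
    rw [cf_lf, zv_cf hb, map_neg]
  have hH : HCC (psHs (dual_d0 hb.d0)) (psHs (dual_d0 hb.d0))
      (shiftH hD (zl b ω) (ee A) ee_sq)
      (fun i j => (if i = j then 1 else 0) + ee A * A.dual.ps.D i (zl b ω j))
      (fun i j => (if i = j then 1 else 0) - ee A * A.dual.ps.D i (zl b ω j)) := {
    cc := hcc
    hr := fun F => by
      show cf 0 (F + ee A * Hy.along A.dual.ps.D (zl b ω) F) = cf 0 F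
      have h1 : cf 0 (Hy.along A.dual.ps.D (zl b ω) F) = 0 :=
        (along_O (N := 0) hZ F) 0 (by norm_num)
      rw [cf_add, cf_ee_mul, h1, mul_zero, add_zero]
    hJ := fun a j => by
      show cf 0 ((if a.succ = j then 1 else 0) + ee A * A.dual.ps.D a.succ (zl b ω j))
        = if a.succ = j then 1 else 0
      have h1 : cf 0 (A.dual.ps.D a.succ (zl b ω j)) = 0 := (O.ds a (hZ j)) 0 (by norm_num)
      rw [cf_add, cf_ee_mul, h1, mul_zero, add_zero]
      split_ifs
      · exact cf0_one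
      · exact cf_zero _ }
  symm
  have hlg : (fun i j => lf (gX b i j)) = gX (tb b) := by
    funext i j; exact (psm_gX (inlH A) b i j).symm
  have hg : (fmt (hb.cb ω)).g = pull (shiftH hD (zl b ω) (ee A) ee_sq)
      (fun i j => (if i = j then 1 else 0) + ee A * A.dual.ps.D i (zl b ω j))
      (im (fmt hb) ω).g := by
    funext i j
    show gX (cb b ω) i j = ∑ a, ∑ c, ((if i = a then 1 else 0) + ee A * A.dual.ps.D i (zl b ω a))
      * ((if j = c then 1 else 0) + ee A * A.dual.ps.D j (zl b ω c))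
      * shiftH hD (zl b ω) (ee A) ee_sq ((im (fmt hb) ω).g a c)
    rw [shift_pull hD (zl b ω) (ee A) ee_sq, cb_metric hb, ← hlg]
    have h1 : ∀ i j, (im (fmt hb) ω).g i j = lf (gX b i j) + ee A * (2 * lf ω * lf (gX b i j)) := by
      intro i j
      show (1 + ee A * lf ω) * (1 + ee A * lf ω) * lf (gX b i j) = _
      linear_combination (lf ω * lf ω * lf (gX b i j)) * (ee_sq (X := A))
    have h2 : lie A.dual.ps.D (zl b ω) (im (fmt hb) ω).g i j
        = lie A.dual.ps.D (zl b ω) (fun i j => lf (gX b i j)) i j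
          + ee A * lie A.dual.ps.D (zl b ω) (fun i j => 2 * lf ω * lf (gX b i j)) i j := by
      have h3 : (im (fmt hb) ω).g = fun i j => (fun i j => lf (gX b i j)) i j
          + (fun i j => ee A * (2 * lf ω * lf (gX b i j))) i j := by
        funext i j; exact h1 i j
      rw [h3, lie_addT hD, lie_εT hD (zl b ω) (D_ee hb.d0)]
    rw [h2, h1 i j]
    linear_combination (-(lie A.dual.ps.D (zl b ω) (fun i j => 2 * lf ω * lf (gX b i j)) i j))
      * (ee_sq (X := A))
  refine Mt.hyp_cc hH hg ?_ ?_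
  · have h4 := cc_metric hcc (im (fmt hb) ω).met
    have h5 : gX (cb b ω) = pull (shiftH hD (zl b ω) (ee A) ee_sq)
      (fun i j => (if i = j then 1 else 0) + ee A * A.dual.ps.D i (zl b ω j))
      (im (fmt hb) ω).g := hg
    have h6 := (hb.cb ω).metric
    rw [h5] at h6
    exact inv_unique h6 h4
  · show (1 : A.dual.R) = cf 0 ((if (0 : Fin (k + 1)) = 0 then 1 else 0)
      + ee A * A.dual.ps.D 0 (zl b ω 0)) * (cf 0 (1 + ee A * lf ω) * (inlH A).f 1)
    rw [if_pos rfl, cf_add, cf_add, cf0_one, cf_ee_mul, cf_ee_mul, cf_lf, cf_d0, map_one, mul_one]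
    have h7 : cf (0 + 1) (zl b ω 0) = - (inlH A).f (cf 0 ω) := hZ0
    rw [h7]
    have h8 : (eps (1 : A.R)) * eps 1 = 0 := by apply dual_ext <;> simp
    simp only [Nat.cast_zero, zero_add, one_smul]
    linear_combination ((inlH A).f (cf 0 ω) * (inlH A).f (cf 0 ω)) * h8

/-- infinitesimal conformal change of an arbitrary formal metric -/
theorem im_hyp {m : Mt (psHs h0)} {b : HD A} {hb : Fer b} {φ : A.ps.R →ₐ[ℝ] A.ps.R}
    {J K : Fin (k + 1) → Fin (k + 1) → A.ps.R}
    (hH : HCC (psHs h0) (psHs h0) (φ : A.ps.R →+* A.ps.R) J K) (hg : gX b = pull φ J m.g)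
    (hgi : gXi b = pullInv φ K m.gi) (hN : cf 0 (J 0 0) * m.N = 1) (ω : A.ps.R) :
    (im m ω).hyp = (cb b (φ ω)).setF (hFf A.dual (cb b (φ ω))) := by
  rw [← im_fmt hb]
  symm
  refine Mt.hyp_cc_mulc (dual_HCC hH) (m := lfm m) (m' := lfm (fmt hb)) ?_ ?_ ?_ _ _ ?_ ?_
  · funext i j
    show lf (gX b i j) = ∑ a, ∑ c, lf (J i a) * lf (J j c) * dφ φ (lf (m.g a c))
    rw [hg]
    unfold pull
    rw [lf_sum]
    refine Finset.sum_congr rfl fun a _ => ?_
    rw [lf_sum]
    refine Finset.sum_congr rfl fun c _ => ?_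
    rw [lf_mul, lf_mul, dφ_lf]
    rfl
  · funext i j
    show lf (gXi b i j) = ∑ a, ∑ c, lf (K a i) * lf (K c j) * dφ φ (lf (m.gi a c))
    rw [hgi]
    unfold pullInv
    rw [lf_sum]
    refine Finset.sum_congr rfl fun a _ => ?_
    rw [lf_sum]
    refine Finset.sum_congr rfl fun c _ => ?_
    rw [lf_mul, lf_mul, dφ_lf]
    rfl
  · show (inlH A).f 1 = cf 0 (lf (J 0 0)) * (inlH A).f m.N
    rw [cf_lf, ← map_mul, hN]
  · rw [map_add, map_mul, map_one, dφ_ee, dφ_lf]
  · rw [map_sub, map_mul, map_one, dφ_ee, dφ_lf]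

end Dual

end Run7.h96.Hy

end

section

/-!
Values, homomorphisms and parameters for the rings of smooth functions.
-/

set_option linter.all false
set_option maxHeartbeats 400000

open scoped BigOperators

namespace Run7.h96.Hy

open CInv

section Vl

variable {E : Type} [NormedAddCommGroup E] [NormedSpace ℝ E] {Λ : Set E} {n : ℕ} {v : Fin n → E}
variable {E' : Type} [NormedAddCommGroup E'] [NormedSpace ℝ E'] {Λ' : Set E'} {n' : ℕ}
  {v' : Fin n' → E'}

/-- the values of a smooth function -/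
def vl (f : (CsR E Λ v).R) (x : E) : ℝ := (show Cs E Λ from f).1 x

theorem vl_ext {f g : (CsR E Λ v).R} (h : ∀ x, vl f x = vl g x) : f = g :=
  Subtype.ext (funext h)

theorem vl_smooth (f : (CsR E Λ v).R) : ContDiff ℝ (⊤ : ℕ∞) (vl f) := Cs.smooth (show Cs E Λ from f)

theorem vl_diff (f : (CsR E Λ v).R) : Differentiable ℝ (vl f) := (vl_smooth f).differentiable (by simp)

theorem vl_cont (f : (CsR E Λ v).R) : Continuous (vl f) := (vl_smooth f).continuous

theorem vl_per (f : (CsR E Λ v).R) {l : E} (hl : l ∈ Λ) (x : E) : vl f (x + l) = vl f x :=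
  Cs.per (show Cs E Λ from f) hl x

/-- evaluation at a point -/
def evC (x : E) : (CsR E Λ v).R →ₐ[ℝ] ℝ where
  toFun f := vl f x
  map_one' := rfl
  map_mul' _ _ := rfl
  map_zero' := rfl
  map_add' _ _ := rfl
  commutes' _ := rfl

theorem evC_apply (x : E) (f : (CsR E Λ v).R) : evC x f = vl f x := rfl

@[simp] theorem vl_add (f g : (CsR E Λ v).R) (x : E) : vl (f + g) x = vl f x + vl g x := rfl
@[simp] theorem vl_sub (f g : (CsR E Λ v).R) (x : E) : vl (f - g) x = vl f x - vl g x := rfl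
@[simp] theorem vl_mul (f g : (CsR E Λ v).R) (x : E) : vl (f * g) x = vl f x * vl g x := rfl
@[simp] theorem vl_neg (f : (CsR E Λ v).R) (x : E) : vl (-f) x = - vl f x := rfl
@[simp] theorem vl_zero (x : E) : vl (0 : (CsR E Λ v).R) x = 0 := rfl
@[simp] theorem vl_one (x : E) : vl (1 : (CsR E Λ v).R) x = 1 := rfl
@[simp] theorem vl_smul (t : ℝ) (f : (CsR E Λ v).R) (x : E) : vl (t • f) x = t * vl f x := rfl
theorem vl_sum {α : Type} (s : Finset α) (f : α → (CsR E Λ v).R) (x : E) :
    vl (∑ a ∈ s, f a) x = ∑ a ∈ s, vl (f a) x := map_sum (evC x) f s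
theorem vl_pow (f : (CsR E Λ v).R) (m : ℕ) (x : E) : vl (f ^ m) x = vl f x ^ m :=
  map_pow (evC x) f m
theorem vl_d (i : Fin n) (f : (CsR E Λ v).R) (x : E) :
    vl ((CsR E Λ v).d i f) x = fderiv ℝ (vl f) x (v i) := rfl

/-- building a smooth function -/
def mkC (f : E → ℝ) (h : ContDiff ℝ (⊤ : ℕ∞) f) (hp : ∀ l ∈ Λ, ∀ x, f (x + l) = f x) :
    (CsR E Λ v).R := (⟨f, h, hp⟩ : Cs E Λ)

theorem vl_mkC (f : E → ℝ) (h : ContDiff ℝ (⊤ : ℕ∞) f) (hp : ∀ l ∈ Λ, ∀ x, f (x + l) = f x) (x : E) :
    vl (mkC (v := v) f h hp) x = f x := rfl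

theorem ex_inv_vl (f : (CsR E Λ v).R) (h : ∀ x, vl f x ≠ 0) : ∃ g : (CsR E Λ v).R, f * g = 1 :=
  ⟨mkC (fun x => (vl f x)⁻¹) ((vl_smooth f).inv h) (fun l hl x => by rw [vl_per f hl]),
    vl_ext fun x => mul_inv_cancel₀ (h x)⟩

/-- exponential -/
noncomputable def expC (f : (CsR E Λ v).R) : (CsR E Λ v).R :=
  mkC (fun x => Real.exp (vl f x)) (vl_smooth f).exp (fun l hl x => by rw [vl_per f hl])

theorem vl_exp (f : (CsR E Λ v).R) (x : E) : vl (expC f) x = Real.exp (vl f x) := rfl

theorem exp_inv (f : (CsR E Λ v).R) : expC f * expC (-f) = 1 := vl_ext fun x => by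
  rw [vl_mul, vl_exp, vl_exp, vl_neg, ← Real.exp_add, add_neg_cancel, Real.exp_zero, vl_one]

theorem ex_sqrt (f : (CsR E Λ v).R) (h : ∀ x, 0 < vl f x) :
    ∃ g : (CsR E Λ v).R, g * g = f ∧ (∀ x, 0 < vl g x) ∧ ∀ x, vl g x = Real.sqrt (vl f x) :=
  ⟨mkC (fun x => Real.sqrt (vl f x)) ((vl_smooth f).sqrt fun x => (h x).ne')
    (fun l hl x => by rw [vl_per f hl]),
    vl_ext fun x => Real.mul_self_sqrt (h x).le, fun x => Real.sqrt_pos.mpr (h x), fun x => rfl⟩

/-- composition with an affine map -/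
def cph (c : E) (L : E' →L[ℝ] E) (hΛ : ∀ l ∈ Λ', L l ∈ Λ) :
    (CsR E Λ v).R →ₐ[ℝ] (CsR E' Λ' v').R where
  toFun f := mkC (fun x => vl f (c + L x)) ((vl_smooth f).comp (contDiff_const.add L.contDiff))
    (fun l hl x => by rw [map_add, ← add_assoc, vl_per f (hΛ l hl)])
  map_one' := rfl
  map_mul' _ _ := rfl
  map_zero' := rfl
  map_add' _ _ := rfl
  commutes' _ := rfl

theorem vl_cph (c : E) (L : E' →L[ℝ] E) (hΛ : ∀ l ∈ Λ', L l ∈ Λ) (f : (CsR E Λ v).R) (x : E') :
    vl (cph (v' := v') c L hΛ f) x = vl f (c + L x) := rfl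

theorem fderiv_cph (c : E) (L : E' →L[ℝ] E) (f : (CsR E Λ v).R) (x w : E') :
    fderiv ℝ (fun x => vl f (c + L x)) x w = fderiv ℝ (vl f) (c + L x) (L w) := by
  have h1 : HasFDerivAt (fun x => c + L x) L x := by
    simpa using (L.hasFDerivAt (x := x)).const_add c
  have h2 := ((vl_diff f) (c + L x)).hasFDerivAt.comp x h1
  have h3 : fderiv ℝ (fun x => vl f (c + L x)) x = (fderiv ℝ (vl f) (c + L x)).comp L := h2.fderiv
  rw [h3]; rfl

theorem d_cph (c : E) (L : E' →L[ℝ] E) (hΛ : ∀ l ∈ Λ', L l ∈ Λ) (f : (CsR E Λ v).R)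
    (i : Fin n') (j : Fin n) (hij : L (v' i) = v j) :
    (CsR E' Λ' v').d i (cph c L hΛ f) = cph c L hΛ ((CsR E Λ v).d j f) := vl_ext fun x => by
  rw [vl_d, vl_cph, vl_d, ← hij]
  exact fderiv_cph c L f x (v' i)

end Vl

/-! ### morphisms and duals -/

/-- a derivation gives a morphism to the dual numbers -/
noncomputable def DH.der {n : ℕ} {B X : DR n} (θ : DH B X) (δ : Derivation ℝ B.R B.R)
    (hδ : ∀ i f, δ (B.d i f) = B.d i (δ f)) : DH B X.dual where
  f :=
    { toFun := fun f => (inlH X).f (θ.f f) + eps (θ.f (δ f))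
      map_one' := by
        rw [map_one, Derivation.map_one_eq_zero, map_zero, map_one]
        apply dual_ext <;> simp
      map_mul' := fun f g => by
        rw [map_mul, Derivation.leibniz]
        apply dual_ext
        · simp [fs_inl]
        · simp [sn_inl, fs_inl]; ring
      map_zero' := by
        rw [map_zero, map_zero, map_zero, map_zero]
        apply dual_ext <;> simp
      map_add' := fun f g => by
        rw [map_add, map_add, map_add, map_add]
        apply dual_ext
        · simp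
        · simp [sn_inl]
      commutes' := fun t => by
        have h1 : δ (algebraMap ℝ B.R t) = 0 := δ.map_algebraMap t
        have h2 : θ.f (algebraMap ℝ B.R t) = algebraMap ℝ X.R t := θ.f.commutes t
        have h3 : (inlH X).f (algebraMap ℝ X.R t) = algebraMap ℝ X.dual.R t := (inlH X).f.commutes t
        show (inlH X).f (θ.f (algebraMap ℝ B.R t)) + eps (θ.f (δ (algebraMap ℝ B.R t))) = _
        rw [h1, h2, h3, map_zero]
        apply dual_ext <;> simp }
  hd i a := by
    show (inlH X).f (θ.f (B.d i a)) + eps (θ.f (δ (B.d i a)))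
      = X.dual.d i ((inlH X).f (θ.f a) + eps (θ.f (δ a)))
    rw [hδ, θ.hd, θ.hd]
    apply dual_ext
    · simp [fs_inl]
    · simp [sn_inl]

theorem DH.der_fs {n : ℕ} {B X : DR n} (θ : DH B X) (δ : Derivation ℝ B.R B.R)
    (hδ : ∀ i f, δ (B.d i f) = B.d i (δ f)) (f : B.R) : fs ((θ.der δ hδ).f f) = θ.f f := by
  show fs ((inlH X).f (θ.f f) + eps (θ.f (δ f))) = _
  simp [fs_inl]

theorem DH.der_sn {n : ℕ} {B X : DR n} (θ : DH B X) (δ : Derivation ℝ B.R B.R)
    (hδ : ∀ i f, δ (B.d i f) = B.d i (δ f)) (f : B.R) : sn ((θ.der δ hδ).f f) = θ.f (δ f) := by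
  show sn ((inlH X).f (θ.f f) + eps (θ.f (δ f))) = _
  simp [sn_inl]

/-! ### one-parameter families -/

section Par

variable {E : Type} [NormedAddCommGroup E] [NormedSpace ℝ E] {Λ : Set E} {n : ℕ} {v : Fin n → E}

/-- smooth families of smooth functions -/
noncomputable def TR (E : Type) [NormedAddCommGroup E] [NormedSpace ℝ E] (Λ : Set E) {n : ℕ}
    (v : Fin n → E) : DR n :=
  CsR (ℝ × E) {l | l.1 = 0 ∧ l.2 ∈ Λ} (fun i => (0, v i))

/-- value of a family at a parameter -/
noncomputable def evt (t : ℝ) : DH (TR E Λ v) (CsR E Λ v) where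
  f := cph (t, 0) (ContinuousLinearMap.inr ℝ ℝ E) (fun l hl => ⟨rfl, hl⟩)
  hd i a := (d_cph _ _ _ a i i rfl).symm

theorem vl_evt (t : ℝ) (f : (TR E Λ v).R) (x : E) :
    vl (v := v) ((evt t).f f) x = vl (v := fun i => (0, v i)) f (t, x) := by
  show vl (v := fun i => (0, v i)) f ((t, 0) + (0, x)) = _
  simp

/-- constant families -/
noncomputable def cT : DH (CsR E Λ v) (TR E Λ v) where
  f := cph 0 (ContinuousLinearMap.snd ℝ ℝ E) (fun l hl => hl.2)
  hd i a := (d_cph _ _ _ a i i rfl).symm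

theorem vl_cT (f : (CsR E Λ v).R) (x : ℝ × E) :
    vl (v := fun i => (0, v i)) ((cT (v := v)).f f) x = vl f x.2 := by
  show vl f (0 + x.2) = _
  rw [zero_add]

/-- derivative in the parameter -/
noncomputable def dT : Derivation ℝ (TR E Λ v).R (TR E Λ v).R :=
  dC (E := ℝ × E) (Λ := {l | l.1 = 0 ∧ l.2 ∈ Λ}) ((1, 0) : ℝ × E)

theorem vl_dT (f : (TR E Λ v).R) (x : ℝ × E) :
    vl (v := fun i => (0, v i)) (dT (v := v) f) x
      = fderiv ℝ (vl (v := fun i => (0, v i)) f) x (1, 0) := rfl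

/-- first order expansion of a family -/
noncomputable def dlt (t : ℝ) : DH (TR E Λ v) (CsR E Λ v).dual :=
  (evt t).der dT (fun i f => dC_comm _ _ _)

/-- the parameter -/
noncomputable def tt' : (TR E Λ v).R :=
  mkC (fun x => x.1) contDiff_fst (fun l hl x => by
    show x.1 + l.1 = x.1
    rw [hl.1, add_zero])

theorem vl_tt (x : ℝ × E) : vl (v := fun i => (0, v i)) (tt' (v := v) (Λ := Λ)) x = x.1 := rfl

end Par

end Run7.h96.Hy

end
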