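import Mathlib
import Pool.Agent.Run7.h96.K01

section

/-!
Universal natural tensor formulas for a submanifold `Y` of dimension `k` and codimension `c`,
in local coordinates `x = (x_1,...,x_k)` of `Y`.

Along `Y` the bundle `TX` splits as `TY ⊕ NY`; we use a frame of `TY ⊕ NY` indexed by
`Fin k ⊕ Fin c`, where `Sum.inl a` is the coordinate field `∂_a` of `Y` and `Sum.inr α` is a
normal field `n_α`.
-/

set_option linter.all false

open scoped BigOperators

namespace Run7.h96

/-- index set of the frame of `TY ⊕ NY` (and of the ambient coordinates) -/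
abbrev Ix (k c : ℕ) : Type := Fin k ⊕ Fin c

/-- points of `Y` in coordinates -/
abbrev Pt (k : ℕ) : Type := Fin k → ℝ

/-- the coordinate derivative `∂_i f` -/
noncomputable def pd {ι : Type} [Fintype ι] [DecidableEq ι] (i : ι) (f : (ι → ℝ) → ℝ)
    (x : ι → ℝ) : ℝ :=
  fderiv ℝ f x (Pi.single i 1)

/-- The data on `Y` from which natural tensors are built: the metric `G` of `TY ⊕ NY`, the
connection `A` (`A a x i l` is the `e_i`-component of `∇_{∂_a} e_l` at `x`) and a family `Φ` of
covariant tensor fields with values in the tensor powers of `TY ⊕ NY`, `Φ j` having `ρ j` slots. -/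
structure Data (k c : ℕ) (J : Type) (ρ : J → ℕ) where
  G : Pt k → Matrix (Ix k c) (Ix k c) ℝ
  A : Fin k → Pt k → Matrix (Ix k c) (Ix k c) ℝ
  Φ : (j : J) → Pt k → (Fin (ρ j) → Ix k c) → ℝ

variable {k c : ℕ} {J : Type} {ρ : J → ℕ}

/-- A formula for a covariant tensor field with `r` slots. -/
abbrev Formula (k c : ℕ) (J : Type) (ρ : J → ℕ) (r : ℕ) : Type :=
  Data k c J ρ → Pt k → (Fin r → Ix k c) → ℝ

/-- The covariant derivative along `Y` of a tensor field `T` with `r` slots; the new slot is slot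
`0`, and the derivative in normal directions is zero. -/
noncomputable def covR (d : Data k c J ρ) {r : ℕ} (T : Pt k → (Fin r → Ix k c) → ℝ) (x : Pt k)
    (K : Fin (r + 1) → Ix k c) : ℝ :=
  match K 0 with
  | Sum.inl a => pd a (fun y => T y (Fin.tail K)) x
      - ∑ s, ∑ l, d.A a x l (Fin.tail K s) * T x (Function.update (Fin.tail K) s l)
  | Sum.inr _ => 0

/-- The curvature `F_{ab}{}^i{}_l` of the connection. -/
noncomputable def curvF (d : Data k c J ρ) (x : Pt k) (a b : Fin k) (i l : Ix k c) : ℝ :=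
  pd a (fun y => d.A b y i l) x - pd b (fun y => d.A a y i l) x
    + ∑ m, (d.A a x i m * d.A b x m l - d.A b x i m * d.A a x m l)

/-- The metric of `TY`, as a tensor with two slots. -/
def gTan : Formula k c J ρ 2 := fun d x K =>
  match K 0, K 1 with
  | Sum.inl a, Sum.inl b => d.G x (Sum.inl a) (Sum.inl b)
  | _, _ => 0

/-- The metric of `NY`, as a tensor with two slots. -/
def gNor : Formula k c J ρ 2 := fun d x K =>
  match K 0, K 1 with
  | Sum.inr a, Sum.inr b => d.G x (Sum.inr a) (Sum.inr b)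
  | _, _ => 0

/-- The curvature of `TY ⊕ NY` with all indices lowered:
`(a, b, i, l) ↦ ⟨F(∂_a, ∂_b) e_l, e_i⟩`. Its `TY`-part is the intrinsic curvature of `Y`, its
`NY`-part is the curvature of the normal connection. -/
noncomputable def curvT : Formula k c J ρ 4 := fun d x K =>
  match K 0, K 1 with
  | Sum.inl a, Sum.inl b => ∑ m, d.G x (K 2) m * curvF d x a b m (K 3)
  | _, _ => 0

/-- Natural tensor formulas: the smallest class containing the constants, the metrics of `TY` and
`NY`, the curvature of `TY ⊕ NY` and the tensor fields `Φ j` (`j ∈ S`), and closed under linear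
combinations, tensor products, permutations of the slots, contraction of two slots with the
inverse metric and covariant differentiation. -/
inductive IsNat (S : Set J) : (r : ℕ) → Formula k c J ρ r → Prop
  | one : IsNat S 0 (fun _ _ _ => 1)
  | tan : IsNat S 2 gTan
  | nor : IsNat S 2 gNor
  | curv : IsNat S 4 curvT
  | field (j : J) (hj : j ∈ S) : IsNat S (ρ j) (fun d x K => d.Φ j x K)
  | add {r : ℕ} {T T' : Formula k c J ρ r} :
      IsNat S r T → IsNat S r T' → IsNat S r (fun d x K => T d x K + T' d x K)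
  | smul {r : ℕ} {T : Formula k c J ρ r} (t : ℝ) :
      IsNat S r T → IsNat S r (fun d x K => t * T d x K)
  | mul {r r' : ℕ} {T : Formula k c J ρ r} {T' : Formula k c J ρ r'} :
      IsNat S r T → IsNat S r' T' → IsNat S (r + r')
        (fun d x K => T d x (fun s => K (Fin.castAdd r' s)) * T' d x (fun s => K (Fin.natAdd r s)))
  | perm {r : ℕ} {T : Formula k c J ρ r} (σ : Equiv.Perm (Fin r)) :
      IsNat S r T → IsNat S r (fun d x K => T d x (fun s => K (σ s)))
  | contr {r : ℕ} {T : Formula k c J ρ (r + 2)} :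
      IsNat S (r + 2) T → IsNat S r
        (fun d x K => ∑ i, ∑ j, (d.G x)⁻¹ i j * T d x (Fin.cons i (Fin.cons j K)))
  | deriv {r : ℕ} {T : Formula k c J ρ r} :
      IsNat S r T → IsNat S (r + 1) (fun d x K => covR d (T d) x K)

end Run7.h96

end

section

/-!
Smooth data, and natural tensors on smooth data with values in the ring of smooth functions.
-/

set_option linter.all false

open scoped BigOperators

namespace Run7.h96

/-- the algebra of smooth functions on `ℝ^k` -/
def Sm (k : ℕ) : Subalgebra ℝ (Pt k → ℝ) where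
  carrier := {f | ContDiff ℝ (⊤ : ℕ∞) f}
  mul_mem' := fun {a b} ha hb => by
    have ha' : ContDiff ℝ (⊤ : ℕ∞) a := ha
    have hb' : ContDiff ℝ (⊤ : ℕ∞) b := hb
    exact ha'.mul hb'
  add_mem' := fun {a b} ha hb => by
    have ha' : ContDiff ℝ (⊤ : ℕ∞) a := ha
    have hb' : ContDiff ℝ (⊤ : ℕ∞) b := hb
    exact ha'.add hb'
  algebraMap_mem' := fun r => by
    have : ContDiff ℝ (⊤ : ℕ∞) (fun _ : Pt k => r) := contDiff_const
    exact this

theorem Sm.smooth {k : ℕ} (f : Sm k) : ContDiff ℝ (⊤ : ℕ∞) (f : Pt k → ℝ) := f.2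

theorem Sm.diff {k : ℕ} (f : Sm k) (x : Pt k) : DifferentiableAt ℝ (f : Pt k → ℝ) x :=
  ((Sm.smooth f).differentiable (by simp)).differentiableAt

theorem pd_smooth {k : ℕ} (a : Fin k) {f : Pt k → ℝ} (hf : ContDiff ℝ (⊤ : ℕ∞) f) :
    ContDiff ℝ (⊤ : ℕ∞) (pd a f) := by
  unfold pd
  exact (hf.fderiv_right (m := (⊤ : ℕ∞)) (by simp)).clm_apply contDiff_const

/-- coordinate derivations -/
noncomputable def dS {k : ℕ} (a : Fin k) : Derivation ℝ (Sm k) (Sm k) where
  toFun f := ⟨pd a (f : Pt k → ℝ), pd_smooth a (Sm.smooth f)⟩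
  map_add' f g := by
    ext x
    simp only [pd, Subalgebra.coe_add, Pi.add_apply]
    rw [fderiv_add (Sm.diff f x) (Sm.diff g x)]; rfl
  map_smul' c f := by
    ext x
    simp only [pd, Subalgebra.coe_smul, RingHom.id_apply, Pi.smul_apply]
    rw [fderiv_const_smul (Sm.diff f x)]; rfl
  map_one_eq_zero' := by
    ext x
    show fderiv ℝ (fun _ => (1 : ℝ)) x _ = 0
    simp
  leibniz' f g := by
    ext x
    show fderiv ℝ (fun y => (f : Pt k → ℝ) y * (g : Pt k → ℝ) y) x _ = _
    rw [fderiv_fun_mul (Sm.diff f x) (Sm.diff g x)]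
    simp [pd]

theorem dS_apply {k : ℕ} (a : Fin k) (f : Sm k) (x : Pt k) :
    (dS a f : Pt k → ℝ) x = pd a (f : Pt k → ℝ) x := rfl

/-- smooth geometric data with values in the ring of smooth functions -/
structure BD (k c : ℕ) (J : Type) (ρ : J → ℕ) where
  G : Ix k c → Ix k c → Sm k
  Gi : Ix k c → Ix k c → Sm k
  A : Fin k → Ix k c → Ix k c → Sm k
  Φ : (j : J) → (Fin (ρ j) → Ix k c) → Sm k
  symm : ∀ i j, G i j = G j i
  inv : ∀ i j, ∑ p, G i p * Gi p j = if i = j then 1 else 0
  block : ∀ a b, G (Sum.inl a) (Sum.inr b) = 0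
  compat : ∀ a i j, dS a (G i j) = ∑ p, (A a p i * G p j + A a p j * G i p)

variable {k c : ℕ} {J : Type} {ρ : J → ℕ}

/-- derivations indexed by the frame -/
noncomputable def dX (k c : ℕ) : Ix k c → Derivation ℝ (Sm k) (Sm k)
  | Sum.inl a => dS a
  | Sum.inr _ => 0

/-- connection coefficients indexed by the frame -/
def BD.AX (b : BD k c J ρ) : Ix k c → Ix k c → Ix k c → Sm k
  | Sum.inl a => b.A a
  | Sum.inr _ => fun _ _ => 0

/-- the underlying data -/
def BD.raw (b : BD k c J ρ) : Data k c J ρ where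
  G x := fun i j => (b.G i j : Pt k → ℝ) x
  A a x := fun i j => (b.A a i j : Pt k → ℝ) x
  Φ j x K := (b.Φ j K : Pt k → ℝ) x

theorem BD.inv' (b : BD k c J ρ) (i j : Ix k c) :
    ∑ p, b.Gi i p * b.G p j = if i = j then 1 else 0 := by
  have h : (Matrix.of b.G) * (Matrix.of b.Gi) = 1 := by
    ext i j : 2
    simp only [Matrix.mul_apply, Matrix.of_apply, b.inv, Matrix.one_apply]
  have h' := mul_eq_one_comm.mp h
  have := congrFun (congrFun h' i) j
  simpa only [Matrix.mul_apply, Matrix.of_apply, Matrix.one_apply] using this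

theorem BD.isymm (b : BD k c J ρ) (i j : Ix k c) : b.Gi i j = b.Gi j i := by
  have h : (Matrix.of b.G) * (Matrix.of b.Gi) = 1 := by
    ext i j : 2
    simp only [Matrix.mul_apply, Matrix.of_apply, b.inv, Matrix.one_apply]
  have hs : (Matrix.of b.G).transpose = Matrix.of b.G := by
    ext i j : 2
    simp only [Matrix.transpose_apply, Matrix.of_apply]; rw [b.symm]
  have h' : (Matrix.of b.G) * (Matrix.of b.Gi).transpose = 1 := by
    have := congrArg Matrix.transpose (mul_eq_one_comm.mp h)
    rw [Matrix.transpose_mul, hs, Matrix.transpose_one] at this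
    exact this
  have h2 : (Matrix.of b.Gi) = (Matrix.of b.Gi).transpose := by
    calc (Matrix.of b.Gi) = (Matrix.of b.Gi) * ((Matrix.of b.G) * (Matrix.of b.Gi).transpose) := by
          rw [h', mul_one]
      _ = (Matrix.of b.Gi).transpose := by rw [← mul_assoc, mul_eq_one_comm.mp h, one_mul]
  have := congrFun (congrFun h2 i) j
  simpa using this

theorem BD.compatGi (b : BD k c J ρ) : Compat (dX k c) b.AX b.Gi := by
  intro i l m
  cases i with
  | inr a => simp [dX, BD.AX]
  | inl a =>
    show dS a (b.Gi l m) = -(∑ p, b.A a l p * b.Gi p m) - ∑ p, b.A a m p * b.Gi l p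
    -- differentiate `∑ G q p Gi p m = δ`
    have hd : ∀ q, ∑ p, (b.G q p * dS a (b.Gi p m) + b.Gi p m * dS a (b.G q p)) = 0 := by
      intro q
      have := congrArg (dS a) (b.inv q m)
      rw [map_sum] at this
      have h0 : dS a (if q = m then (1 : Sm k) else 0) = 0 := by
        split_ifs
        · exact Derivation.map_one_eq_zero _
        · exact map_zero _
      rw [h0] at this
      rw [← this]
      refine Finset.sum_congr rfl fun p _ => ?_
      rw [Derivation.leibniz]; simp only [smul_eq_mul]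
    have h1 : dS a (b.Gi l m) = ∑ q, b.Gi l q * ∑ p, b.G q p * dS a (b.Gi p m) := by
      simp only [Finset.mul_sum]
      rw [Finset.sum_comm]
      have : ∀ p, ∑ q, b.Gi l q * (b.G q p * dS a (b.Gi p m))
          = (if l = p then 1 else 0) * dS a (b.Gi p m) := by
        intro p
        rw [← b.inv' l p, Finset.sum_mul]
        refine Finset.sum_congr rfl fun q _ => by ring
      rw [Finset.sum_congr rfl fun p _ => this p]
      simp
    have h2 : ∀ q, ∑ p, b.G q p * dS a (b.Gi p m) = - ∑ p, b.Gi p m * dS a (b.G q p) := by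
      intro q
      have := hd q
      rw [Finset.sum_add_distrib] at this
      exact eq_neg_of_add_eq_zero_left this
    rw [h1]
    simp only [h2]
    have h3 : ∀ q, ∑ p, b.Gi p m * dS a (b.G q p)
        = (∑ r, b.A a r q * (if r = m then 1 else 0)) + ∑ p, ∑ r, b.Gi p m * (b.A a r p * b.G q r) := by
      intro q
      simp only [b.compat, Finset.mul_sum, mul_add, Finset.sum_add_distrib]
      congr 1
      rw [Finset.sum_comm]
      refine Finset.sum_congr rfl fun r _ => ?_
      rw [← b.inv r m, Finset.mul_sum]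
      refine Finset.sum_congr rfl fun p _ => by ring
    simp only [h3]
    simp only [mul_neg, Finset.sum_neg_distrib, mul_add, Finset.sum_add_distrib, neg_add]
    have h4 : ∑ q, b.Gi l q * ∑ r, b.A a r q * (if r = m then (1 : Sm k) else 0)
        = ∑ p, b.A a m p * b.Gi l p := by
      refine Finset.sum_congr rfl fun q _ => ?_
      simp [mul_comm]
    have h5 : ∑ q, b.Gi l q * ∑ p, ∑ r, b.Gi p m * (b.A a r p * b.G q r)
        = ∑ p, b.A a l p * b.Gi p m := by
      have e1 : ∀ q, b.Gi l q * ∑ p, ∑ r, b.Gi p m * (b.A a r p * b.G q r)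
          = ∑ p, ∑ r, (b.Gi l q * b.G q r) * (b.A a r p * b.Gi p m) := by
        intro q
        simp only [Finset.mul_sum]
        refine Finset.sum_congr rfl fun p _ => Finset.sum_congr rfl fun r _ => by ring
      rw [Finset.sum_congr rfl fun q _ => e1 q, Finset.sum_comm]
      refine Finset.sum_congr rfl fun p _ => ?_
      rw [Finset.sum_comm]
      have e2 : ∀ r, ∑ q, (b.Gi l q * b.G q r) * (b.A a r p * b.Gi p m)
          = (if l = r then 1 else 0) * (b.A a r p * b.Gi p m) := by
        intro r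
        rw [← b.inv' l r, Finset.sum_mul]
      rw [Finset.sum_congr rfl fun r _ => e2 r]
      simp
    have h6 : ∀ q, b.Gi l q * -∑ r, b.A a r q * (if r = m then (1 : Sm k) else 0)
        = -(b.Gi l q * ∑ r, b.A a r q * (if r = m then (1 : Sm k) else 0)) := fun q => by ring
    have h7 : ∀ q, b.Gi l q * -∑ p, ∑ r, b.Gi p m * (b.A a r p * b.G q r)
        = -(b.Gi l q * ∑ p, ∑ r, b.Gi p m * (b.A a r p * b.G q r)) := fun q => by ring
    simp only [h6, h7, Finset.sum_neg_distrib]
    rw [h4, h5]; ring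

end Run7.h96

end

section

/-!
Natural tensors on smooth data, with slots in an arbitrary finite type.
-/

set_option linter.all false

open scoped BigOperators

namespace Run7.h96

variable {k c : ℕ} {J : Type} {ρ : J → ℕ}

/-- `T` is given by a natural formula. -/
def NatB (S : Set J) (κ : Type) (T : BD k c J ρ → (κ → Ix k c) → Sm k) : Prop :=
  ∃ (r : ℕ) (e : κ ≃ Fin r) (T0 : Formula k c J ρ r), IsNat S r T0 ∧
    ∀ b K x, (T b K : Pt k → ℝ) x = T0 b.raw x (fun s => K (e.symm s))

variable {S : Set J}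

theorem NatB.out {κ : Type} {T : BD k c J ρ → (κ → Ix k c) → Sm k}
    (h : NatB S κ T) {r : ℕ} (e : κ ≃ Fin r) : ∃ T0 : Formula k c J ρ r, IsNat S r T0 ∧
      ∀ b K x, (T b K : Pt k → ℝ) x = T0 b.raw x (fun s => K (e.symm s)) := by
  obtain ⟨r', e', T0, h0, hT⟩ := h
  have hr : r = r' := by
    have := Fintype.card_congr (e.symm.trans e')
    simpa using this
  subst hr
  refine ⟨_, IsNat.perm (e'.symm.trans e) h0, fun b K x => ?_⟩
  rw [hT]
  congr 1
  funext s
  simp

theorem NatB.congr {κ : Type} {T T' : BD k c J ρ → (κ → Ix k c) → Sm k} (h : NatB S κ T)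
    (hTT : ∀ b K, T b K = T' b K) : NatB S κ T' := by
  have : T = T' := by funext b K; exact hTT b K
  exact this ▸ h

theorem NatB.relab {κ μ : Type} {T : BD k c J ρ → (κ → Ix k c) → Sm k} (h : NatB S κ T)
    (e : κ ≃ μ) : NatB S μ (fun b => relab e (T b)) := by
  obtain ⟨r, e', T0, h0, hT⟩ := h
  refine ⟨r, e.symm.trans e', T0, h0, fun b K x => ?_⟩
  show (T b (fun s => K (e s)) : Pt k → ℝ) x = _
  rw [hT]
  rfl

theorem NatB.add {κ : Type} {T T' : BD k c J ρ → (κ → Ix k c) → Sm k} (h : NatB S κ T)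
    (h' : NatB S κ T') : NatB S κ (fun b K => T b K + T' b K) := by
  obtain ⟨r, e, T0, h0, hT⟩ := h
  obtain ⟨T0', h0', hT'⟩ := h'.out e
  exact ⟨r, e, _, IsNat.add h0 h0', fun b K x => by
    show (T b K : Pt k → ℝ) x + (T' b K : Pt k → ℝ) x = _
    rw [hT, hT']⟩

theorem NatB.smul {κ : Type} {T : BD k c J ρ → (κ → Ix k c) → Sm k} (h : NatB S κ T) (t : ℝ) :
    NatB S κ (fun b K => t • T b K) := by
  obtain ⟨r, e, T0, h0, hT⟩ := h
  exact ⟨r, e, _, IsNat.smul t h0, fun b K x => by
    show t * (T b K : Pt k → ℝ) x = _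
    rw [hT]⟩

theorem NatB.neg {κ : Type} {T : BD k c J ρ → (κ → Ix k c) → Sm k} (h : NatB S κ T) :
    NatB S κ (fun b K => - T b K) :=
  (h.smul (-1)).congr fun b K => by simp

theorem NatB.sub {κ : Type} {T T' : BD k c J ρ → (κ → Ix k c) → Sm k} (h : NatB S κ T)
    (h' : NatB S κ T') : NatB S κ (fun b K => T b K - T' b K) :=
  (h.add h'.neg).congr fun b K => by ring

theorem NatB.one : NatB (k := k) (c := c) (ρ := ρ) S (Fin 0) (fun _ _ => 1) :=
  ⟨0, Equiv.refl _, _, IsNat.one, fun b K x => rfl⟩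

theorem IsNat.const (t : ℝ) : IsNat (k := k) (c := c) (ρ := ρ) S 0 (fun _ _ _ => t) := by
  have := IsNat.smul t (IsNat.one (k := k) (c := c) (ρ := ρ) (S := S))
  simpa using this

theorem NatB.mul {κ μ : Type} {T : BD k c J ρ → (κ → Ix k c) → Sm k}
    {T' : BD k c J ρ → (μ → Ix k c) → Sm k} (h : NatB S κ T)
    (h' : NatB S μ T') : NatB S (κ ⊕ μ) (fun b => tens (T b) (T' b)) := by
  obtain ⟨r, e, T0, h0, hT⟩ := h
  obtain ⟨r', e', T0', h0', hT'⟩ := h'
  refine ⟨r + r', (Equiv.sumCongr e e').trans finSumFinEquiv, _, IsNat.mul h0 h0',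
    fun b K x => ?_⟩
  show (T b _ : Pt k → ℝ) x * (T' b _ : Pt k → ℝ) x = _
  rw [hT, hT']
  congr 1
  · congr 1
    funext s
    simp
  · congr 1
    funext s
    simp

/-- the equivalence `Option κ ≃ Fin (r+1)` extending `κ ≃ Fin r` -/
def optFin {κ : Type} {r : ℕ} (e : κ ≃ Fin r) : Option κ ≃ Fin (r + 1) :=
  (Equiv.optionCongr e).trans (finSuccEquiv r).symm

@[simp] theorem optFin_symm_zero {κ : Type} {r : ℕ} (e : κ ≃ Fin r) :
    (optFin e).symm 0 = none := by
  rw [Equiv.symm_apply_eq]
  simp [optFin]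

@[simp] theorem optFin_symm_succ {κ : Type} {r : ℕ} (e : κ ≃ Fin r) (i : Fin r) :
    (optFin e).symm i.succ = some (e.symm i) := by
  rw [Equiv.symm_apply_eq]
  simp [optFin]

theorem NatB.contr2 {κ : Type} {T : BD k c J ρ → (Option (Option κ) → Ix k c) → Sm k}
    (hκ : Finite κ)
    (h : NatB S (Option (Option κ)) T) : NatB S κ (fun b => contr2 b.Gi (T b)) := by
  obtain ⟨r, ⟨e⟩⟩ := Finite.exists_equiv_fin κ
  obtain ⟨T0, h0, hT⟩ := h.out (optFin (optFin e))
  refine ⟨r, e, _, IsNat.contr h0, fun b K x => ?_⟩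
  have hGi : (b.raw.G x)⁻¹ = Matrix.of (fun i j => (b.Gi i j : Pt k → ℝ) x) := by
    apply Matrix.inv_eq_right_inv
    ext i j
    rw [Matrix.mul_apply]
    have := congrArg (fun f : Sm k => (f : Pt k → ℝ) x) (b.inv i j)
    have h2 : ((∑ p, b.G i p * b.Gi p j : Sm k) : Pt k → ℝ) x
        = ∑ p, (b.G i p : Pt k → ℝ) x * (b.Gi p j : Pt k → ℝ) x := by
      rw [AddSubmonoidClass.coe_finset_sum, Finset.sum_apply]
      rfl
    rw [h2] at this
    simp only [BD.raw, Matrix.of_apply]
    rw [this]
    rw [Matrix.one_apply]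
    split_ifs <;> rfl
  rw [hGi]
  have h2 : ((Run7.h96.contr2 b.Gi (T b) K : Sm k) : Pt k → ℝ) x
      = ∑ i, ∑ j, (b.Gi i j : Pt k → ℝ) x * (T b (ocons i (ocons j K)) : Pt k → ℝ) x := by
    unfold Run7.h96.contr2
    rw [AddSubmonoidClass.coe_finset_sum, Finset.sum_apply]
    refine Finset.sum_congr rfl fun i _ => ?_
    rw [AddSubmonoidClass.coe_finset_sum, Finset.sum_apply]
    rfl
  rw [h2]
  refine Finset.sum_congr rfl fun i _ => Finset.sum_congr rfl fun j _ => ?_
  rw [hT, Matrix.of_apply]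
  congr 2
  funext s
  refine Fin.cases ?_ (fun s => ?_) s
  · rw [optFin_symm_zero]; rfl
  · rw [optFin_symm_succ]
    refine Fin.cases ?_ (fun s => ?_) s
    · rw [optFin_symm_zero]; rfl
    · rw [optFin_symm_succ]; rfl

theorem covR_inl (d : Data k c J ρ) {r : ℕ} (T : Pt k → (Fin r → Ix k c) → ℝ) (x : Pt k)
    (K : Fin (r + 1) → Ix k c) (a : Fin k) (h : K 0 = Sum.inl a) :
    covR d T x K = pd a (fun y => T y (Fin.tail K)) x
      - ∑ s, ∑ l, d.A a x l (Fin.tail K s) * T x (Function.update (Fin.tail K) s l) := by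
  unfold covR; rw [h]

theorem covR_inr (d : Data k c J ρ) {r : ℕ} (T : Pt k → (Fin r → Ix k c) → ℝ) (x : Pt k)
    (K : Fin (r + 1) → Ix k c) (a : Fin c) (h : K 0 = Sum.inr a) :
    covR d T x K = 0 := by
  unfold covR; rw [h]

theorem NatB.DD {κ : Type} [Fintype κ] [DecidableEq κ]
    {T : BD k c J ρ → (κ → Ix k c) → Sm k} (h : NatB S κ T) :
    NatB S (Option κ) (fun b => DD (dX k c) b.AX (T b)) := by
  obtain ⟨r, e, T0, h0, hT⟩ := h
  refine ⟨r + 1, optFin e, _, IsNat.deriv h0, fun b K x => ?_⟩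
  obtain ⟨i, L, rfl⟩ : ∃ i L, K = ocons i L := ⟨K none, fun s => K (some s), (ocons_eta K).symm⟩
  show ((Run7.h96.DD (dX k c) b.AX (T b) (ocons i L) : Sm k) : Pt k → ℝ) x = _
  rw [DD_ocons]
  have hK0 : (ocons i L) ((optFin e).symm 0) = i := by simp
  have htail : Fin.tail (fun s => ocons i L ((optFin e).symm s)) = fun s => L (e.symm s) := by
    funext s
    simp [Fin.tail]
  cases i with
  | inr a =>
    rw [covR_inr _ _ _ _ a hK0]
    show ((cov (dX k c) b.AX (Sum.inr a) (T b) L : Sm k) : Pt k → ℝ) x = 0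
    have : cov (dX k c) b.AX (Sum.inr a) (T b) L = 0 := by
      simp [cov, dX, BD.AX, act]
    rw [this]; rfl
  | inl a =>
    rw [covR_inl _ _ _ _ a hK0, htail]
    show ((cov (dX k c) b.AX (Sum.inl a) (T b) L : Sm k) : Pt k → ℝ) x
      = pd a (fun y => T0 b.raw y (fun s => L (e.symm s))) x
        - ∑ s, ∑ l, b.raw.A a x l (L (e.symm s))
          * T0 b.raw x (Function.update (fun s => L (e.symm s)) s l)
    have h1 : (fun y => T0 b.raw y (fun s => L (e.symm s))) = (T b L : Pt k → ℝ) := by
      funext y; rw [hT]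
    rw [h1]
    have h2 : ((cov (dX k c) b.AX (Sum.inl a) (T b) L : Sm k) : Pt k → ℝ) x
        = pd a (T b L : Pt k → ℝ) x
          - ((act (b.A a) (T b) L : Sm k) : Pt k → ℝ) x := rfl
    rw [h2]
    congr 1
    have h3 : ((act (b.A a) (T b) L : Sm k) : Pt k → ℝ) x
        = ∑ s, ∑ l, (b.A a l (L s) : Pt k → ℝ) x * (T b (Function.update L s l) : Pt k → ℝ) x := by
      unfold act
      rw [AddSubmonoidClass.coe_finset_sum, Finset.sum_apply]
      refine Finset.sum_congr rfl fun s _ => ?_
      rw [AddSubmonoidClass.coe_finset_sum, Finset.sum_apply]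
      rfl
    rw [h3]
    refine Fintype.sum_equiv e _ _ fun s => ?_
    refine Finset.sum_congr rfl fun l _ => ?_
    rw [hT]
    simp only [Equiv.symm_apply_apply]
    congr 2
    funext t
    by_cases hts : t = e s
    · subst hts; simp
    · have : e.symm t ≠ s := fun h => hts (by rw [← h]; simp)
      simp [Function.update, hts, this]

end Run7.h96

end

section

/-!
Further closure properties of natural tensors.
-/

set_option linter.all false

open scoped BigOperators

namespace Run7.h96

variable {k c : ℕ} {J : Type} {ρ : J → ℕ} {S : Set J}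

theorem NatB.mono {S' : Set J} (hS : S ⊆ S') {κ : Type} {T : BD k c J ρ → (κ → Ix k c) → Sm k}
    (h : NatB S κ T) : NatB S' κ T := by
  obtain ⟨r, e, T0, h0, hT⟩ := h
  refine ⟨r, e, T0, ?_, hT⟩
  clear hT e
  induction h0 with
  | one => exact IsNat.one
  | tan => exact IsNat.tan
  | nor => exact IsNat.nor
  | curv => exact IsNat.curv
  | field j hj => exact IsNat.field j (hS hj)
  | add _ _ h1 h2 => exact IsNat.add h1 h2
  | smul t _ h1 => exact IsNat.smul t h1
  | mul _ _ h1 h2 => exact IsNat.mul h1 h2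
  | perm σ _ h1 => exact IsNat.perm σ h1
  | contr _ h1 => exact IsNat.contr h1
  | deriv _ h1 => exact IsNat.deriv h1

/-- the zero tensor is natural, in every rank -/
theorem IsNat.zero (r : ℕ) : IsNat (k := k) (c := c) (ρ := ρ) S r (fun _ _ _ => 0) := by
  induction r with
  | zero => exact IsNat.const 0
  | succ r ih =>
    have h1 := IsNat.deriv ih
    have h2 := IsNat.smul 0 h1
    simpa using h2

theorem NatB.zero (κ : Type) [Finite κ] :
    NatB (k := k) (c := c) (ρ := ρ) S κ (fun _ _ => 0) := by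
  obtain ⟨r, ⟨e⟩⟩ := Finite.exists_equiv_fin κ
  exact ⟨r, e, _, IsNat.zero r, fun b K x => rfl⟩

theorem NatB.sum {κ α : Type} [Finite κ] (s : Finset α)
    {T : α → BD k c J ρ → (κ → Ix k c) → Sm k}
    (h : ∀ a ∈ s, NatB S κ (T a)) : NatB S κ (fun b K => ∑ a ∈ s, T a b K) := by
  classical
  induction s using Finset.induction_on with
  | empty => simpa using NatB.zero κ
  | @insert a s ha ih =>
    have h1 := h a (Finset.mem_insert_self a s)
    have h2 := ih fun b hb => h b (Finset.mem_insert_of_mem hb)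
    refine (h1.add h2).congr fun b K => ?_
    rw [Finset.sum_insert ha]

/-- the metric of `TY` as a tensor over smooth functions -/
def BD.tan (b : BD k c J ρ) (K : Fin 2 → Ix k c) : Sm k :=
  match K 0, K 1 with
  | Sum.inl a, Sum.inl a' => b.G (Sum.inl a) (Sum.inl a')
  | _, _ => 0

/-- the metric of `NY` as a tensor over smooth functions -/
def BD.nor (b : BD k c J ρ) (K : Fin 2 → Ix k c) : Sm k :=
  match K 0, K 1 with
  | Sum.inr a, Sum.inr a' => b.G (Sum.inr a) (Sum.inr a')
  | _, _ => 0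

theorem NatB.tan : NatB (k := k) (c := c) (ρ := ρ) S (Fin 2) BD.tan := by
  refine ⟨2, Equiv.refl _, _, IsNat.tan, fun b K x => ?_⟩
  unfold BD.tan gTan
  simp only [Equiv.refl_symm, Equiv.refl_apply]
  rcases K 0 with a | a <;> rcases K 1 with a' | a' <;> rfl

theorem NatB.nor : NatB (k := k) (c := c) (ρ := ρ) S (Fin 2) BD.nor := by
  refine ⟨2, Equiv.refl _, _, IsNat.nor, fun b K x => ?_⟩
  unfold BD.nor gNor
  simp only [Equiv.refl_symm, Equiv.refl_apply]
  rcases K 0 with a | a <;> rcases K 1 with a' | a' <;> rfl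

theorem NatB.metric : NatB (k := k) (c := c) (ρ := ρ) S (Fin 2)
    (fun b K => b.G (K 0) (K 1)) := by
  refine (NatB.tan.add NatB.nor).congr fun b K => ?_
  unfold BD.tan BD.nor
  rcases h0 : K 0 with a | a <;> rcases h1 : K 1 with a' | a'
  · simp
  · simp [b.block]
  · have := b.symm (Sum.inr a) (Sum.inl a')
    simp [this, b.block]
  · simp

/-- curvature as a tensor over smooth functions -/
noncomputable def BD.F (b : BD k c J ρ) (a a' : Fin k) (i l : Ix k c) : Sm k :=
  dS a (b.A a' i l) - dS a' (b.A a i l)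
    + ∑ m, (b.A a i m * b.A a' m l - b.A a' i m * b.A a m l)

/-- curvature as a tensor over smooth functions -/
noncomputable def BD.curv (b : BD k c J ρ) (K : Fin 4 → Ix k c) : Sm k :=
  match K 0, K 1 with
  | Sum.inl a, Sum.inl a' => ∑ m, b.G (K 2) m * b.F a a' m (K 3)
  | _, _ => 0

theorem coe_sum' {α : Type} (s : Finset α) (f : α → Sm k) (x : Pt k) :
    ((∑ a ∈ s, f a : Sm k) : Pt k → ℝ) x = ∑ a ∈ s, (f a : Pt k → ℝ) x := by
  rw [AddSubmonoidClass.coe_finset_sum, Finset.sum_apply]

theorem BD.F_apply (b : BD k c J ρ) (a a' : Fin k) (i l : Ix k c) (x : Pt k) :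
    (b.F a a' i l : Pt k → ℝ) x = curvF b.raw x a a' i l := by
  unfold BD.F curvF
  show (dS a (b.A a' i l) : Pt k → ℝ) x - (dS a' (b.A a i l) : Pt k → ℝ) x
    + ((∑ m, (b.A a i m * b.A a' m l - b.A a' i m * b.A a m l) : Sm k) : Pt k → ℝ) x = _
  rw [coe_sum']
  rfl

theorem NatB.curv : NatB (k := k) (c := c) (ρ := ρ) S (Fin 4) BD.curv := by
  refine ⟨4, Equiv.refl _, _, IsNat.curv, fun b K x => ?_⟩
  unfold BD.curv curvT
  simp only [Equiv.refl_symm, Equiv.refl_apply]
  rcases h0 : K 0 with a | a <;> rcases h1 : K 1 with a' | a'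
  · show ((∑ m, b.G (K 2) m * b.F a a' m (K 3) : Sm k) : Pt k → ℝ) x
      = ∑ m, b.raw.G x (K 2) m * curvF b.raw x a a' m (K 3)
    rw [coe_sum']
    refine Finset.sum_congr rfl fun m _ => ?_
    rw [← BD.F_apply]
    rfl
  · rfl
  · rfl
  · rfl

theorem NatB.field (j : J) (hj : j ∈ S) :
    NatB (k := k) (c := c) S (Fin (ρ j)) (fun b : BD k c J ρ => b.Φ j) :=
  ⟨ρ j, Equiv.refl _, _, IsNat.field j hj, fun b K x => rfl⟩

/-- equivalence of slots used to contract one pair at a time -/
def slotEquiv (κ μ : Type) :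
    (Option κ ⊕ Option κ) ⊕ μ ≃ (κ ⊕ κ) ⊕ Option (Option μ) where
  toFun
    | Sum.inl (Sum.inl none) => Sum.inr none
    | Sum.inl (Sum.inl (some s)) => Sum.inl (Sum.inl s)
    | Sum.inl (Sum.inr none) => Sum.inr (some none)
    | Sum.inl (Sum.inr (some s)) => Sum.inl (Sum.inr s)
    | Sum.inr t => Sum.inr (some (some t))
  invFun
    | Sum.inl (Sum.inl s) => Sum.inl (Sum.inl (some s))
    | Sum.inl (Sum.inr s) => Sum.inl (Sum.inr (some s))
    | Sum.inr none => Sum.inl (Sum.inl none)
    | Sum.inr (some none) => Sum.inl (Sum.inr none)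
    | Sum.inr (some (some t)) => Sum.inr t
  left_inv s := by rcases s with (s | s) | s <;> (try cases s) <;> rfl
  right_inv s := by rcases s with (s | s) | (_ | _ | s) <;> rfl

/-- contraction of a block of pairs of slots -/
def bcontr {I R κ μ : Type} [Fintype I] [CommRing R] [Fintype κ] [DecidableEq κ]
    (Gi : I → I → R) (T : ((κ ⊕ κ) ⊕ μ → I) → R) (M : μ → I) : R :=
  ∑ K : κ → I, ∑ L : κ → I, (∏ s, Gi (K s) (L s)) * T (Sum.elim (Sum.elim K L) M)

theorem univ_irrB {α : Type} (i1 i2 : Fintype α) : @Finset.univ α i1 = @Finset.univ α i2 :=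
  Finset.ext fun x => ⟨fun _ => @Finset.mem_univ α i2 x, fun _ => @Finset.mem_univ α i1 x⟩

theorem NatB.bcontr_all (κ : Type) [Finite κ] : ∀ [Fintype κ] [DecidableEq κ] (μ : Type) [Finite μ]
    {T : BD k c J ρ → ((κ ⊕ κ) ⊕ μ → Ix k c) → Sm k},
    NatB S ((κ ⊕ κ) ⊕ μ) T → NatB S μ (fun b => bcontr b.Gi (T b)) := by
  refine Finite.induction_empty_option (P := fun κ => ∀ [Fintype κ] [DecidableEq κ] (μ : Type)
    [Finite μ] {T : BD k c J ρ → ((κ ⊕ κ) ⊕ μ → Ix k c) → Sm k},
    NatB S ((κ ⊕ κ) ⊕ μ) T → NatB S μ (fun b => bcontr b.Gi (T b))) ?_ ?_ ?_ κ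
  · intro α β e hα _ _ μ _ T hT
    letI : Fintype α := Fintype.ofEquiv β e.symm
    letI : DecidableEq α := fun x y => decidable_of_iff (e x = e y) e.injective.eq_iff
    have h1 := hα μ (hT.relab (Equiv.sumCongr (Equiv.sumCongr e.symm e.symm) (Equiv.refl μ)))
    refine h1.congr fun b M => ?_
    unfold bcontr
    refine Fintype.sum_equiv (Equiv.arrowCongr e (Equiv.refl _)) _ _ fun K => ?_
    refine Fintype.sum_equiv (Equiv.arrowCongr e (Equiv.refl _)) _ _ fun L => ?_
    congr 1
    · refine Fintype.prod_equiv e _ _ fun s => ?_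
      simp [Equiv.arrowCongr]
    · unfold Run7.h96.relab
      congr 1
      funext s
      rcases s with (s | s) | s <;> simp [Equiv.arrowCongr]
  · intro _ _ μ _ T hT
    refine (hT.relab ((Equiv.sumCongr (Equiv.emptySum PEmpty PEmpty) (Equiv.refl μ)).trans
      (Equiv.emptySum PEmpty μ))).congr fun b M => ?_
    unfold bcontr Run7.h96.relab
    rw [Fintype.sum_eq_single (fun s : PEmpty => s.elim) (fun K hK => absurd
      (funext fun s : PEmpty => s.elim) hK),
      Fintype.sum_eq_single (fun s : PEmpty => s.elim) (fun K hK => absurd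
      (funext fun s : PEmpty => s.elim) hK)]
    simp only [Finset.univ_eq_empty, Finset.prod_empty, one_mul]
    congr 1
    funext s
    rcases s with (s | s) | s
    · exact s.elim
    · exact s.elim
    · rfl
  · intro α _ hα _ _ μ _ T hT
    letI : DecidableEq α := fun x y => decidable_of_iff (some x = some y) (by simp)
    have h1 := hα (Option (Option μ)) (hT.relab (slotEquiv α μ))
    have h2 := NatB.contr2 inferInstance h1
    refine h2.congr fun b M => ?_
    unfold bcontr Run7.h96.contr2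
    have e1 : ∀ f : (Option α → Ix k c) → Sm k, ∑ K, f K = ∑ i, ∑ K : α → Ix k c, f (ocons i K) := by
      intro f
      have := sum_option (κ := α) f
      refine (Finset.sum_congr (univ_irrB _ _) fun _ _ => rfl).trans (this.trans ?_)
      exact Finset.sum_congr rfl fun i _ => Finset.sum_congr (univ_irrB _ _) fun _ _ => rfl
    rw [e1]
    have e2 : ∀ (i : Ix k c) (K : α → Ix k c), ∑ L : Option α → Ix k c,
        (∏ s, b.Gi (ocons i K s) (L s)) * T b (Sum.elim (Sum.elim (ocons i K) L) M)
        = ∑ j, ∑ L : α → Ix k c, b.Gi i j * ((∏ s, b.Gi (K s) (L s))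
          * T b (Sum.elim (Sum.elim (ocons i K) (ocons j L)) M)) := by
      intro i K
      rw [e1]
      refine Finset.sum_congr rfl fun j _ => Finset.sum_congr rfl fun L _ => ?_
      have e3 : (∏ s, b.Gi (ocons i K s) (ocons j L s)) = b.Gi i j * ∏ s, b.Gi (K s) (L s) := by
        have := Fintype.prod_option (fun s : Option α => b.Gi (ocons i K s) (ocons j L s))
        simp only [ocons_none, ocons_some] at this
        exact (Finset.prod_congr (univ_irrB _ _) fun _ _ => rfl).trans this
      rw [e3, mul_assoc]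
    rw [Finset.sum_congr rfl fun i _ => Finset.sum_congr rfl fun K _ => e2 i K]
    refine Finset.sum_congr rfl fun i _ => ?_
    rw [Finset.sum_comm]
    refine Finset.sum_congr rfl fun j _ => ?_
    rw [Finset.mul_sum]
    refine Finset.sum_congr rfl fun K _ => ?_
    rw [Finset.mul_sum]
    refine Finset.sum_congr rfl fun L _ => ?_
    congr 2
    unfold Run7.h96.relab
    congr 1
    funext s
    rcases s with ((_ | s) | (_ | s)) | s <;> rfl

/-- partial contraction of two natural tensors is natural -/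
theorem NatB.pairL {κ μ : Type} [Fintype κ] [DecidableEq κ] [Finite μ]
    {P : BD k c J ρ → (κ ⊕ μ → Ix k c) → Sm k} {Q : BD k c J ρ → (κ → Ix k c) → Sm k}
    (hP : NatB S (κ ⊕ μ) P) (hQ : NatB S κ Q) :
    NatB S μ (fun b M => pair b.Gi (fun K => P b (Sum.elim K M)) (Q b)) := by
  have h1 := hP.mul hQ
  let e : (κ ⊕ μ) ⊕ κ ≃ (κ ⊕ κ) ⊕ μ :=
    { toFun := fun s => match s with
        | Sum.inl (Sum.inl s) => Sum.inl (Sum.inl s)
        | Sum.inl (Sum.inr s) => Sum.inr s
        | Sum.inr s => Sum.inl (Sum.inr s)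
      invFun := fun s => match s with
        | Sum.inl (Sum.inl s) => Sum.inl (Sum.inl s)
        | Sum.inr s => Sum.inl (Sum.inr s)
        | Sum.inl (Sum.inr s) => Sum.inr s
      left_inv := by rintro ((s | s) | s) <;> rfl
      right_inv := by rintro ((s | s) | s) <;> rfl }
  refine (NatB.bcontr_all κ μ (h1.relab e)).congr fun b M => ?_
  unfold bcontr pair Run7.h96.relab tens
  refine Finset.sum_congr rfl fun K _ => Finset.sum_congr rfl fun L _ => ?_
  have a1 : (fun s => Sum.elim (Sum.elim K L) M (e (Sum.inl s))) = Sum.elim K M := by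
    funext s; rcases s with s | s <;> rfl
  have a2 : (fun s => Sum.elim (Sum.elim K L) M (e (Sum.inr s))) = L := by
    funext s; rfl
  rw [a1, a2]; ring

end Run7.h96

end

section

/-!
Periodicity.
-/

set_option linter.all false

open scoped BigOperators

namespace Run7.h96

variable {k c : ℕ} {J : Type} {ρ : J → ℕ} {S : Set J}

/-- periodic with respect to `ℤ^k` -/
def Per (f : Pt k → ℝ) : Prop := ∀ (a : Fin k) x, f (x + Pi.single a 1) = f x

/-- periodic raw data -/
structure Data.Per (d : Data k c J ρ) : Prop where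
  G : ∀ a x, d.G (x + Pi.single a 1) = d.G x
  A : ∀ a a' x, d.A a' (x + Pi.single a 1) = d.A a' x
  Φ : ∀ a j x, d.Φ j (x + Pi.single a 1) = d.Φ j x

theorem pd_per (a a' : Fin k) {f : Pt k → ℝ} (hf : ∀ x, f (x + Pi.single a 1) = f x) (x : Pt k) :
    pd a' f (x + Pi.single a 1) = pd a' f x := by
  unfold pd
  have h : (fun y => f (y + Pi.single a 1)) = f := by funext y; exact hf y
  conv_rhs => rw [← h]
  rw [fderiv_comp_add_right]

theorem IsNat.per {r : ℕ} {T : Formula k c J ρ r} (h : IsNat S r T) {d : Data k c J ρ}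
    (hd : d.Per) (a : Fin k) (x : Pt k) (K : Fin r → Ix k c) :
    T d (x + Pi.single a 1) K = T d x K := by
  induction h generalizing x with
  | one => rfl
  | tan => unfold gTan; rw [hd.G]
  | nor => unfold gNor; rw [hd.G]
  | curv =>
    unfold curvT curvF
    have h1 : ∀ a' a'' i l, pd a' (fun y => d.A a'' y i l) (x + Pi.single a 1)
        = pd a' (fun y => d.A a'' y i l) x := by
      intro a' a'' i l
      exact pd_per a a' (fun y => by rw [hd.A]) x
    simp only [h1, hd.G, hd.A]
  | field j hj => simp only [hd.Φ]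
  | add _ _ h1 h2 => simp only [h1, h2]
  | smul t _ h1 => simp only [h1]
  | mul _ _ h1 h2 => simp only [h1, h2]
  | perm σ _ h1 => simp only [h1]
  | contr _ h1 => simp only [h1, hd.G]
  | @deriv r T _ h1 =>
    unfold covR
    have h2 : ∀ a', pd a' (fun y => T d y (Fin.tail K)) (x + Pi.single a 1)
        = pd a' (fun y => T d y (Fin.tail K)) x := fun a' =>
      pd_per a a' (fun y => h1 y (Fin.tail K)) x
    simp only [h2, hd.A, h1]

theorem NatB.per {κ : Type} {T : BD k c J ρ → (κ → Ix k c) → Sm k}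
    (h : NatB S κ T) {b : BD k c J ρ} (hb : b.raw.Per) (K : κ → Ix k c) : Per (T b K : Pt k → ℝ) := by
  obtain ⟨r, e, T0, h0, hT⟩ := h
  intro a x
  rw [hT, hT, h0.per hb]

theorem Per.add {f g : Sm k} (hf : Per (f : Pt k → ℝ)) (hg : Per (g : Pt k → ℝ)) :
    Per ((f + g : Sm k) : Pt k → ℝ) := fun a x => by
  show (f : Pt k → ℝ) _ + (g : Pt k → ℝ) _ = _
  rw [hf, hg]; rfl

theorem Per.mul {f g : Sm k} (hf : Per (f : Pt k → ℝ)) (hg : Per (g : Pt k → ℝ)) :
    Per ((f * g : Sm k) : Pt k → ℝ) := fun a x => by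
  show (f : Pt k → ℝ) _ * (g : Pt k → ℝ) _ = _
  rw [hf, hg]; rfl

theorem Per.sub {f g : Sm k} (hf : Per (f : Pt k → ℝ)) (hg : Per (g : Pt k → ℝ)) :
    Per ((f - g : Sm k) : Pt k → ℝ) := fun a x => by
  show (f : Pt k → ℝ) _ - (g : Pt k → ℝ) _ = _
  rw [hf, hg]; rfl

theorem Per.smul {f : Sm k} (t : ℝ) (hf : Per (f : Pt k → ℝ)) :
    Per ((t • f : Sm k) : Pt k → ℝ) := fun a x => by
  show t * (f : Pt k → ℝ) _ = _
  rw [hf]; rfl

theorem Per.zero : Per ((0 : Sm k) : Pt k → ℝ) := fun a x => rfl

theorem Per.one : Per ((1 : Sm k) : Pt k → ℝ) := fun a x => rfl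

theorem Per.sum {α : Type} (s : Finset α) {f : α → Sm k}
    (hf : ∀ a ∈ s, Per (f a : Pt k → ℝ)) : Per ((∑ a ∈ s, f a : Sm k) : Pt k → ℝ) := fun a x => by
  rw [coe_sum', coe_sum']
  exact Finset.sum_congr rfl fun b hb => hf b hb a x

theorem Per.prod {α : Type} (s : Finset α) {f : α → Sm k}
    (hf : ∀ a ∈ s, Per (f a : Pt k → ℝ)) : Per ((∏ a ∈ s, f a : Sm k) : Pt k → ℝ) := by
  classical
  induction s using Finset.induction_on with
  | empty => exact Per.one
  | @insert a s ha ih =>
    rw [Finset.prod_insert ha]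
    exact (hf a (Finset.mem_insert_self a s)).mul
      (ih fun b hb => hf b (Finset.mem_insert_of_mem hb))

theorem Per.dX {f : Sm k} (hf : Per (f : Pt k → ℝ)) (i : Ix k c) :
    Per ((Run7.h96.dX k c i f : Sm k) : Pt k → ℝ) := by
  cases i with
  | inl a' => intro a x; exact pd_per a a' (fun y => hf a y) x
  | inr a' => exact Per.zero

theorem BD.per_AX {b : BD k c J ρ} (hb : b.raw.Per) (i l m : Ix k c) :
    Per (b.AX i l m : Pt k → ℝ) := by
  cases i with
  | inl a' => intro a x; exact congrFun (congrFun (hb.A a a' x) l) m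
  | inr a' => exact Per.zero

theorem BD.per_G {b : BD k c J ρ} (hb : b.raw.Per) (l m : Ix k c) :
    Per (b.G l m : Pt k → ℝ) := by
  intro a x; exact congrFun (congrFun (hb.G a x) l) m

theorem BD.raw_inv (b : BD k c J ρ) (x : Pt k) :
    (b.raw.G x)⁻¹ = Matrix.of (fun i j => (b.Gi i j : Pt k → ℝ) x) := by
  apply Matrix.inv_eq_right_inv
  ext i j
  rw [Matrix.mul_apply]
  have := congrArg (fun f : Sm k => (f : Pt k → ℝ) x) (b.inv i j)
  simp only [coe_sum'] at this
  simp only [BD.raw, Matrix.of_apply]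
  refine Eq.trans ?_ (this.trans ?_)
  · rfl
  · rw [Matrix.one_apply]
    split_ifs <;> rfl

theorem BD.per_Gi {b : BD k c J ρ} (hb : b.raw.Per) (l m : Ix k c) :
    Per (b.Gi l m : Pt k → ℝ) := by
  intro a x
  have h1 := congrFun (congrFun (b.raw_inv (x + Pi.single a 1)) l) m
  have h2 := congrFun (congrFun (b.raw_inv x) l) m
  rw [hb.G] at h1
  rw [h1] at h2
  exact h2

end Run7.h96

end

section

/-!
Integrals over the torus.
-/

set_option linter.all false

open scoped BigOperators
open MeasureTheory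

namespace Run7.h96

/-- integral over the fundamental cube -/
noncomputable def cube {k : ℕ} (f : Pt k → ℝ) : ℝ := ∫ x in Set.Icc (0 : Pt k) 1, f x

theorem cube_pd {k : ℕ} (a : Fin k) {f : Pt k → ℝ} (hf : ContDiff ℝ (⊤ : ℕ∞) f) (hp : Per f) :
    cube (pd a f) = 0 := by
  obtain ⟨n, rfl⟩ : ∃ n, k = n + 1 := ⟨k - 1, by have := a.pos; omega⟩
  have hdiff : Differentiable ℝ f := hf.differentiable (by simp)
  have hc : Continuous (pd a f) := (pd_smooth a hf).continuous
  have key := integral_divergence_of_hasFDerivAt_off_countable' (E := ℝ) (n := n)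
    (a := (0 : Fin (n + 1) → ℝ)) (b := 1) (fun i => by simp)
    (fun i => if i = a then f else fun _ => 0)
    (fun i => if i = a then fderiv ℝ f else fun _ => 0) ∅ Set.countable_empty
    (fun i => by
      by_cases h : i = a
      · simp only [h, if_true]; exact hf.continuous.continuousOn
      · simp only [h, if_false]; exact continuousOn_const)
    (fun x _ i => by
      by_cases h : i = a
      · simp only [h, if_true]; exact (hdiff x).hasFDerivAt
      · simp only [h, if_false]; exact hasFDerivAt_const _ _)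
    (by
      have : (fun x => ∑ i, (if i = a then fderiv ℝ f else fun _ => 0) x (Pi.single i 1))
          = pd a f := by
        funext x
        rw [Fintype.sum_eq_single a]
        · simp [pd]
        · intro i hi; simp [hi]
      rw [this]
      exact hc.continuousOn.integrableOn_compact isCompact_Icc)
  have e1 : (fun x => ∑ i, (if i = a then fderiv ℝ f else fun _ => 0) x (Pi.single i 1))
      = pd a f := by
    funext x
    rw [Fintype.sum_eq_single a]
    · simp [pd]
    · intro i hi; simp [hi]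
  rw [e1] at key
  unfold cube
  rw [key]
  refine Finset.sum_eq_zero fun i _ => ?_
  by_cases h : i = a
  · subst h
    simp only [if_true]
    rw [sub_eq_zero]
    refine setIntegral_congr_fun measurableSet_Icc fun x _ => ?_
    have := hp i (i.insertNth ((0 : Fin (n + 1) → ℝ) i) x)
    rw [← this]
    congr 1
    funext j
    refine Fin.succAboveCases i ?_ (fun j => ?_) j
    · simp
    · simp [Pi.single_apply, Fin.succAbove_ne]
  · simp [h]

theorem cube_add {k : ℕ} {f g : Pt k → ℝ} (hf : Continuous f) (hg : Continuous g) :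
    cube (fun x => f x + g x) = cube f + cube g := by
  unfold cube
  exact integral_add (hf.continuousOn.integrableOn_compact isCompact_Icc)
    (hg.continuousOn.integrableOn_compact isCompact_Icc)

theorem cube_sub {k : ℕ} {f g : Pt k → ℝ} (hf : Continuous f) (hg : Continuous g) :
    cube (fun x => f x - g x) = cube f - cube g := by
  unfold cube
  exact integral_sub (hf.continuousOn.integrableOn_compact isCompact_Icc)
    (hg.continuousOn.integrableOn_compact isCompact_Icc)

theorem cube_smul {k : ℕ} (t : ℝ) (f : Pt k → ℝ) :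
    cube (fun x => t * f x) = t * cube f := by
  unfold cube
  exact integral_const_mul t f

theorem cube_sum {k : ℕ} {α : Type} (s : Finset α) {f : α → Pt k → ℝ}
    (hf : ∀ a ∈ s, Continuous (f a)) :
    cube (fun x => ∑ a ∈ s, f a x) = ∑ a ∈ s, cube (f a) := by
  unfold cube
  exact integral_finset_sum s fun a ha =>
    (hf a ha).continuousOn.integrableOn_compact isCompact_Icc

theorem per_int {k : ℕ} {f : Pt k → ℝ} (hp : Per f) (s : Finset (Fin k)) (z : Fin k → ℤ)
    (x : Pt k) : f (x + ∑ a ∈ s, Pi.single a (z a : ℝ)) = f x := by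
  classical
  have h1 : ∀ (a : Fin k) (n : ℕ) (x : Pt k), f (x + Pi.single a (n : ℝ)) = f x := by
    intro a n
    induction n with
    | zero => intro x; simp
    | succ n ih =>
      intro x
      have : x + Pi.single a ((n + 1 : ℕ) : ℝ) = (x + Pi.single a (n : ℝ)) + Pi.single a 1 := by
        rw [add_assoc, ← Pi.single_add]; push_cast; rfl
      rw [this, hp, ih]
  have h2 : ∀ (a : Fin k) (n : ℤ) (x : Pt k), f (x + Pi.single a (n : ℝ)) = f x := by
    intro a n x
    obtain ⟨m, rfl | rfl⟩ := n.eq_nat_or_neg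
    · simpa using h1 a m x
    · have := h1 a m (x + Pi.single a ((-(m : ℤ) : ℤ) : ℝ))
      rw [← this]
      congr 1
      rw [add_assoc, ← Pi.single_add]; simp
  induction s using Finset.induction_on generalizing x with
  | empty => simp
  | @insert a s ha ih =>
    rw [Finset.sum_insert ha, ← add_assoc, ih, h2]

theorem per_zero_of_cube {k : ℕ} {f : Pt k → ℝ} (hp : Per f) (h : ∀ x ∈ Set.Icc (0 : Pt k) 1, f x = 0)
    (x : Pt k) : f x = 0 := by
  have h1 := per_int hp Finset.univ (fun a => -⌊x a⌋) x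
  rw [← h1]
  apply h
  have h2 : ∀ a, (x + ∑ b : Fin k, Pi.single b (((-⌊x b⌋ : ℤ) : ℝ))) a = Int.fract (x a) := by
    intro a
    simp only [Pi.add_apply, Finset.sum_apply, Pi.single_apply]
    simp [Int.fract, sub_eq_add_neg]
  constructor
  · intro a
    rw [h2]; exact Int.fract_nonneg _
  · intro a
    rw [h2]; exact (Int.fract_lt_one _).le

theorem zero_of_cube_eq_zero {k : ℕ} {f : Pt k → ℝ} (hc : Continuous f) (hp : Per f)
    (h0 : ∀ x, 0 ≤ f x) (h : cube f = 0) (x : Pt k) : f x = 0 := by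
  refine per_zero_of_cube hp ?_ x
  have h1 : f =ᵐ[volume.restrict (Set.Icc (0 : Pt k) 1)] 0 :=
    (setIntegral_eq_zero_iff_of_nonneg_ae (Filter.Eventually.of_forall h0)
      (hc.continuousOn.integrableOn_compact isCompact_Icc)).mp h
  have h2 : Set.EqOn f 0 (Set.Icc (0 : Pt k) 1) := by
    refine Measure.eqOn_of_ae_eq h1 hc.continuousOn continuousOn_const ?_
    have h3 : interior (Set.Icc (0 : Pt k) 1) = Set.pi Set.univ (fun i => Set.Ioo ((0 : Pt k) i) ((1 : Pt k) i)) := by
      rw [← Set.pi_univ_Icc, interior_pi_set Set.finite_univ]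
      simp [interior_Icc]
    rw [h3, closure_pi_set]
    simp only [Pi.zero_apply, Pi.one_apply]
    rw [closure_Ioo (by norm_num : (0 : ℝ) ≠ 1)]
    rw [← Set.pi_univ_Icc]
    rfl
  exact fun x hx => h2 hx

end Run7.h96

end
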