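import Pool.Agent.Run7.h96.K07
import Pool.Agent.Run7.h96.K08

section

/-!
The hypersurface `{x₀ = 0}` of `ℝ × T^k`, its volume densities and the Taylor expansion along it.
-/

set_option linter.all false
set_option maxHeartbeats 400000

open scoped BigOperators
open MeasureTheory

namespace Run7.h96.Hy

open CInv

variable {k : ℕ}

/-! ### the hypersurface -/

/-- the inclusion `x ↦ (0, x)` -/
noncomputable def inY (k : ℕ) : (Fin k → ℝ) →L[ℝ] (Fin (k + 1) → ℝ) :=
  ContinuousLinearMap.pi (Fin.cases 0 (fun a => ContinuousLinearMap.proj a))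

theorem inY_apply (x : Fin k → ℝ) : inY k x = Fin.cons 0 x := by
  funext i
  refine Fin.cases ?_ (fun a => ?_) i <;> rfl

theorem inY_single (a : Fin k) : inY k (Pi.single a 1) = Pi.single a.succ 1 := by
  rw [inY_apply]
  funext i
  refine Fin.cases ?_ (fun c => ?_) i
  · rw [Fin.cons_zero, Pi.single_eq_of_ne (Fin.succ_ne_zero a).symm]
  · rw [Fin.cons_succ]
    by_cases h : c = a
    · subst h; simp
    · rw [Pi.single_eq_of_ne h, Pi.single_eq_of_ne (fun h' => h (Fin.succ_injective _ h'))]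

theorem inY_PX : ∀ l ∈ PA k, inY k l ∈ PX k := by
  rintro l ⟨a, rfl⟩
  exact ⟨a, inY_single a⟩

/-- the hypersurface `{x₀ = 0}` -/
noncomputable def HX (k : ℕ) : Hs (XX k) (AA k) where
  res := cph 0 (inY k) inY_PX
  hd a f := (d_cph (0 : Fin (k + 1) → ℝ) (inY k) inY_PX f a.succ a.succ (inY_single a)).symm
  d0 f := vl_ext fun x => (vl_d (v := Fin.cons 0 (fun a => Pi.single a 1)) (0 : Fin (k + 1)) f x).trans
    (map_zero _)

theorem vl_res (f : (XX k).R) (x : Fin k → ℝ) : vl ((HX k).res f) x = vl f (Fin.cons 0 x) := by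
  show vl f (0 + inY k x) = _
  rw [zero_add, inY_apply]

/-- the hypersurface for families -/
noncomputable def HT (k : ℕ) : Hs (TR (Fin (k + 1) → ℝ) (PX k) (fun i => Pi.single i 1))
    (TR (Fin k → ℝ) (PA k) (Fin.cons 0 (fun a => Pi.single a 1) : Fin (k + 1) → (Fin k → ℝ))) where
  res := cph 0 ((ContinuousLinearMap.id ℝ ℝ).prodMap (inY k)) (fun l hl => ⟨hl.1, inY_PX _ hl.2⟩)
  hd a f := (d_cph (0 : ℝ × (Fin (k + 1) → ℝ)) _ _ f a.succ a.succ
    (by
      show ((0 : ℝ), inY k (Pi.single a 1)) = (0, Pi.single a.succ 1)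
      rw [inY_single])).symm
  d0 f := vl_ext fun x => (vl_d (v := fun i => ((0 : ℝ),
    (Fin.cons 0 (fun a => Pi.single a 1) : Fin (k + 1) → (Fin k → ℝ)) i)) (0 : Fin (k + 1)) f x).trans
    (map_zero _)

/-! ### determinants -/

section Det

variable {R : Type} [CommRing R] [Algebra ℝ R] {ι : Type} [Fintype ι] [DecidableEq ι]

/-- Jacobi's formula -/
theorem der_det (δ : Derivation ℝ R R) (M Mi : Matrix ι ι R) (h : Mi * M = 1) :
    δ M.det = M.det * ∑ i, ∑ j, Mi i j * δ (M j i) := by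
  let θ : R →+* DualNumber R :=
    { toFun := fun f => TrivSqZeroExt.inl f + TrivSqZeroExt.inr (δ f)
      map_one' := by
        rw [Derivation.map_one_eq_zero]; ext <;> simp
      map_mul' := fun f g => by
        rw [Derivation.leibniz]
        ext
        · simp
        · simp [DualNumber.snd_mul]; ring
      map_zero' := by rw [map_zero]; ext <;> simp
      map_add' := fun f g => by rw [map_add]; ext <;> simp }
  have h1 : θ M.det = (θ.mapMatrix M).det := RingHom.map_det θ M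
  let ι' : R →+* DualNumber R := TrivSqZeroExt.inlHom R R
  have h2 : θ.mapMatrix M = ι'.mapMatrix M * (1 + (DualNumber.eps : DualNumber R)
      • ι'.mapMatrix (Mi * M.map δ)) := by
    have hMi : ι'.mapMatrix M * ι'.mapMatrix Mi = 1 := by
      rw [← map_mul, mul_eq_one_comm.mp h, map_one]
    have e1 : θ.mapMatrix M = ι'.mapMatrix M + (DualNumber.eps : DualNumber R)
        • ι'.mapMatrix (M.map δ) := by
      ext i j
      · simp [θ, ι']
      · simp [θ, ι', DualNumber.snd_mul]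
    rw [e1, mul_add, mul_one, map_mul, mul_smul_comm, ← mul_assoc, hMi, one_mul]
  rw [h2, Matrix.det_mul, Matrix.det_one_add_smul] at h1
  have h3 : (DualNumber.eps : DualNumber R) ^ 2 = 0 := by rw [pow_two]; exact DualNumber.eps_mul_eps
  rw [h3, mul_zero, add_zero] at h1
  have h4 : (ι'.mapMatrix M).det = ι' M.det := (RingHom.map_det ι' M).symm
  have h5 : (ι'.mapMatrix (Mi * M.map δ)).trace = ι' (Mi * M.map δ).trace :=
    (AddMonoidHom.map_trace (ι' : R →+ DualNumber R) (Mi * M.map δ)).symm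
  rw [h4, h5] at h1
  have h6 := congrArg TrivSqZeroExt.snd h1
  simp only [θ, ι', RingHom.coe_mk, MonoidHom.coe_mk, OneHom.coe_mk, TrivSqZeroExt.snd_add,
    TrivSqZeroExt.snd_inl, TrivSqZeroExt.snd_inr, zero_add, DualNumber.snd_mul,
    TrivSqZeroExt.inlHom_apply, TrivSqZeroExt.fst_inl, TrivSqZeroExt.fst_add, TrivSqZeroExt.fst_one,
    TrivSqZeroExt.snd_one, DualNumber.snd_eps, DualNumber.fst_eps, TrivSqZeroExt.fst_mul, mul_zero,
    add_zero, zero_mul, mul_one, one_mul] at h6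
  rw [h6]
  congr 1

end Det

end Run7.h96.Hy

end

section

/-!
Integration over `T^k`.
-/

set_option linter.all false
set_option maxHeartbeats 400000

open scoped BigOperators
open MeasureTheory

namespace Run7.h96.Hy

open CInv

variable {k : ℕ}

/-- the vectors giving the derivations on `T^k` -/
def vA (k : ℕ) : Fin (k + 1) → (Fin k → ℝ) := Fin.cons 0 (fun a => Pi.single a 1)

/-- values of functions on `T^k` -/
noncomputable def va (f : (AA k).R) (x : Fin k → ℝ) : ℝ := vl (v := vA k) f x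

theorem va_ext {f g : (AA k).R} (h : ∀ x, va f x = va g x) : f = g := vl_ext (v := vA k) h
@[simp] theorem va_add (f g : (AA k).R) (x : Fin k → ℝ) : va (f + g) x = va f x + va g x := rfl
@[simp] theorem va_sub (f g : (AA k).R) (x : Fin k → ℝ) : va (f - g) x = va f x - va g x := rfl
@[simp] theorem va_mul (f g : (AA k).R) (x : Fin k → ℝ) : va (f * g) x = va f x * va g x := rfl
@[simp] theorem va_neg (f : (AA k).R) (x : Fin k → ℝ) : va (-f) x = - va f x := rfl
@[simp] theorem va_zero (x : Fin k → ℝ) : va (0 : (AA k).R) x = 0 := rfl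
@[simp] theorem va_one (x : Fin k → ℝ) : va (1 : (AA k).R) x = 1 := rfl
@[simp] theorem va_smul (t : ℝ) (f : (AA k).R) (x : Fin k → ℝ) : va (t • f) x = t * va f x := rfl
/-- evaluation -/
noncomputable def evA (x : Fin k → ℝ) : (AA k).R →ₐ[ℝ] ℝ := evC (v := vA k) (Λ := PA k) x
theorem evA_apply (x : Fin k → ℝ) (f : (AA k).R) : evA x f = va f x := rfl
theorem va_smooth (f : (AA k).R) : ContDiff ℝ (⊤ : ℕ∞) (va f) := vl_smooth (v := vA k) f
theorem va_diff (f : (AA k).R) : Differentiable ℝ (va f) := vl_diff (v := vA k) f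
theorem va_pow (f : (AA k).R) (m : ℕ) (x : Fin k → ℝ) : va (f ^ m) x = va f x ^ m :=
  map_pow (evA x) f m
theorem va_d (a : Fin k) (f : (AA k).R) (x : Fin k → ℝ) :
    va ((AA k).d a.succ f) x = fderiv ℝ (va f) x (Pi.single a 1) := rfl
theorem va_sum {α : Type} (s : Finset α) (f : α → (AA k).R) (x : Fin k → ℝ) :
    va (∑ a ∈ s, f a) x = ∑ a ∈ s, va (f a) x := map_sum (evA x) f s
theorem va_cont (f : (AA k).R) : Continuous (va f) := vl_cont (v := vA k) f
theorem va_per (f : (AA k).R) : Per (va f) := fun a x => vl_per (v := vA k) f ⟨a, rfl⟩ x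

/-- the integral over `T^k` -/
noncomputable def IA (k : ℕ) : (AA k).R →ₗ[ℝ] ℝ where
  toFun f := ∫ x in Set.Icc (0 : Fin k → ℝ) 1, va f x
  map_add' f g := cube_add (va_cont f) (va_cont g)
  map_smul' t f := cube_smul t (va f)

theorem IA_apply (f : (AA k).R) : IA k f = cube (va f) := rfl

/-- integration on `T^k` -/
noncomputable def JA (k : ℕ) : Intg (AA k) where
  I := IA k
  dI i f := by
    refine Fin.cases ?_ (fun a => ?_) i
    · have : (AA k).d 0 f = 0 := (HX k).d0 f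
      rw [this, map_zero]
    · exact cube_pd a (va_smooth f) (va_per f)
  pt := Fin k → ℝ
  ev x := evA x
  sep Q h := va_ext h
  P G := ∀ x, (Matrix.of fun i j => va (G i j) x).PosDef
  pos G h p := h p

theorem va_det (G : Fin (k + 1) → Fin (k + 1) → (AA k).R) (x : Fin k → ℝ) :
    va (Matrix.of G).det x = (Matrix.of fun i j => va (G i j) x).det := by
  have h := RingHom.map_det (evA x : (AA k).R →+* ℝ) (Matrix.of G)
  exact h

theorem unit_of_pos {f : (AA k).R} (h : ∀ x, va f x ≠ 0) : ∃ g : (AA k).R, f * g = 1 :=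
  ex_inv_vl (v := vA k) f h

theorem va_sqrt (f : (AA k).R) (h : ∀ x, 0 < va f x) :
    ∃ g : (AA k).R, g * g = f ∧ (∀ x, 0 < va g x) ∧ ∀ x, va g x = Real.sqrt (va f x) :=
  ex_sqrt (v := vA k) f h

theorem ex_vol {b : HD (AA k)} (hP : (JA k).P b.G) :
    ∃ w : (AA k).R, Vol (JA k) b w ∧ w * w = (Matrix.of b.G).det ∧ ∀ x, 0 < va w x := by
  have hD : ∀ x, 0 < va (Matrix.of b.G).det x := fun x => by
    rw [va_det]; exact (hP x).det_pos
  obtain ⟨w, hw1, hw2, -⟩ := va_sqrt (Matrix.of b.G).det hD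
  obtain ⟨w', hw'⟩ := unit_of_pos (f := w) (fun x => (hw2 x).ne')
  refine ⟨w, ⟨fun i => ?_, fun Q hQ => ?_, hP⟩, hw1, hw2⟩
  · have hM : Matrix.of b.Gi * Matrix.of b.G = 1 := by
      ext i j
      rw [Matrix.mul_apply, Matrix.one_apply]
      exact b.inv' i j
    have h1 := der_det ((AA k).d i) (Matrix.of b.G) (Matrix.of b.Gi) hM
    rw [← hw1, Derivation.leibniz] at h1
    have h2 : ∑ p, ∑ q, (Matrix.of b.Gi) p q * (AA k).d i ((Matrix.of b.G) q p)
        = (2 : ℝ) • ∑ p, b.A i p p := by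
      rw [tr_chr, smul_smul]
      norm_num
      refine Finset.sum_congr rfl fun p _ => Finset.sum_congr rfl fun q _ => ?_
      rw [b.symm q p]
    rw [h2, smul_eq_mul] at h1
    have h3 : (2 : ℝ) • (w * (AA k).d i w) = (2 : ℝ) • (w * (w * ∑ p, b.A i p p)) := by
      rw [two_smul, h1, mul_smul_comm]
      ring_nf
    have h4 : w * (AA k).d i w = w * (w * ∑ p, b.A i p p) := by
      have := congrArg (fun x => (1 / 2 : ℝ) • x) h3
      simp only [smul_smul] at this
      norm_num at this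
      exact this
    linear_combination w' * h4 - ((AA k).d i w - w * ∑ p, b.A i p p) * hw'
  · have h1 := hQ (Q * w)
    have h2 : cube (va (Q * (Q * w) * w)) = 0 := h1
    have h3 := zero_of_cube_eq_zero (va_cont _) (va_per _) (fun x => by
      rw [va_mul, va_mul, va_mul]
      have : va Q x * (va Q x * va w x) * va w x = (va Q x * va w x) ^ 2 := by ring
      rw [this]; positivity) h2
    refine va_ext fun x => ?_
    have h4 := h3 x
    rw [va_mul, va_mul, va_mul] at h4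
    have h5 : (va Q x * va w x) ^ 2 = 0 := by rw [← h4]; ring
    have h6 := pow_eq_zero_iff (two_ne_zero) |>.mp h5
    rcases mul_eq_zero.mp h6 with h | h
    · exact h
    · exact absurd h (hw2 x).ne'

theorem const_of_d {f : (AA k).R} (h : ∀ i, (AA k).d i f = 0) : ∃ c : ℝ, f = c • 1 := by
  have hd : ∀ x, fderiv ℝ (va f) x = 0 := by
    intro x
    apply ContinuousLinearMap.coe_injective
    refine LinearMap.pi_ext' fun i => LinearMap.ext_ring ?_
    have := congrArg (fun g => va g x) (h i.succ)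
    exact this
  refine ⟨va f 0, va_ext fun x => ?_⟩
  rw [va_smul, va_one, mul_one]
  exact is_const_of_fderiv_eq_zero (va_diff f) hd x 0

theorem vol_unique {b : HD (AA k)} {w w' : (AA k).R} (hw : ∀ i, (AA k).d i w = w * ∑ p, b.A i p p)
    (hw' : ∀ i, (AA k).d i w' = w' * ∑ p, b.A i p p) (hpos : ∀ x, va w' x ≠ 0) :
    ∃ c : ℝ, w = c • w' := by
  obtain ⟨u, hu⟩ := unit_of_pos (f := w') hpos
  have h1 : ∀ i, (AA k).d i (w * u) = 0 := by
    intro i
    have h2 := congrArg ((AA k).d i) hu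
    rw [Derivation.leibniz, Derivation.map_one_eq_zero, hw' i, smul_eq_mul, smul_eq_mul] at h2
    rw [Derivation.leibniz, hw i, smul_eq_mul, smul_eq_mul]
    have h3 : (AA k).d i u = -(u * ∑ p, b.A i p p) := by
      linear_combination u * h2 - ((AA k).d i u + u * ∑ p, b.A i p p) * hu
    rw [h3]; ring
  obtain ⟨c, hc⟩ := const_of_d h1
  refine ⟨c, ?_⟩
  have h4 : w = (w * u) * w' := by linear_combination (-w) * hu
  rw [h4, hc, smul_mul_assoc, one_mul]

/-- determinant of `1 ⊕ M` -/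
theorem det_ext {R : Type} [CommRing R] (M : Fin k → Fin k → R) :
    (Matrix.of (ext 1 M)).det = (Matrix.of M).det := by
  rw [Matrix.det_succ_row_zero, Fin.sum_univ_succ]
  have h1 : ∀ j : Fin k, (-1) ^ ((j.succ : Fin (k + 1)) : ℕ) * (Matrix.of (ext 1 M)) 0 j.succ
      * ((Matrix.of (ext 1 M)).submatrix Fin.succ (Fin.succAbove j.succ)).det = 0 := by
    intro j
    have : (Matrix.of (ext 1 M)) 0 j.succ = 0 := rfl
    rw [this, mul_zero, zero_mul]
  rw [Finset.sum_eq_zero fun j _ => h1 j, add_zero]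
  have h2 : (Matrix.of (ext 1 M)) 0 0 = 1 := rfl
  rw [h2]
  simp only [Fin.val_zero, pow_zero, one_mul]
  congr 1

end Run7.h96.Hy

end

section

/-!
Truncation of formal metrics, and the formal metric along a hypersurface.
-/

set_option linter.all false
set_option maxHeartbeats 400000

open scoped BigOperators

namespace Run7.h96.Hy

open CInv

variable {k : ℕ}

theorem curv_congr {n : ℕ} {X : DR n} {J J' : Type} {ρ : J → ℕ} {ρ' : J' → ℕ} (b : BD X J ρ)
    (b' : BD X J' ρ') (hG : b.G = b'.G) (hGi : b.Gi = b'.Gi) : b.curv = b'.curv ∧ b.A = b'.A := by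
  have hA : b.A = b'.A := by
    funext i l m
    unfold BD.A
    rw [hG, hGi]
  refine ⟨?_, hA⟩
  funext K
  unfold BD.curv BD.F
  rw [hA, hG]

/-- a formula involves finitely many derivatives of the curvature -/
theorem Fml.bd {r : ℕ} (P : Fml Fa ρa r) : ∃ M : ℕ, ∀ (n : ℕ) (X : DR n) (b b' : BD X Fa ρa),
    b.G = b'.G → b.Gi = b'.Gi → b.Φ Fa.nu = b'.Φ Fa.nu → b.Φ Fa.II = b'.Φ Fa.II →
    (∀ l < M, b.Φ (Fa.R l) = b'.Φ (Fa.R l)) → P.eval X b = P.eval X b' := by
  induction P with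
  | one => exact ⟨0, fun _ _ _ _ _ _ _ _ _ => rfl⟩
  | met => exact ⟨0, fun n X b b' hG _ _ _ _ => by
      funext K
      show b.G _ _ = b'.G _ _
      rw [hG]⟩
  | curv => exact ⟨0, fun n X b b' hG hGi _ _ _ => (curv_congr b b' hG hGi).1⟩
  | fld j =>
    cases j with
    | nu => exact ⟨0, fun n X b b' _ _ h _ _ => h⟩
    | II => exact ⟨0, fun n X b b' _ _ _ h _ => h⟩
    | R l => exact ⟨l + 1, fun n X b b' _ _ _ _ h => h l (Nat.lt_succ_self l)⟩
  | zero r => exact ⟨0, fun _ _ _ _ _ _ _ _ _ => rfl⟩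
  | add P Q h1 h2 =>
    obtain ⟨M1, h1⟩ := h1
    obtain ⟨M2, h2⟩ := h2
    refine ⟨max M1 M2, fun n X b b' a1 a2 a3 a4 a5 => ?_⟩
    have e1 := h1 n X b b' a1 a2 a3 a4 fun l hl => a5 l (lt_of_lt_of_le hl (le_max_left _ _))
    have e2 := h2 n X b b' a1 a2 a3 a4 fun l hl => a5 l (lt_of_lt_of_le hl (le_max_right _ _))
    simp only [Fml.eval, e1, e2]
  | smul t P h1 =>
    obtain ⟨M1, h1⟩ := h1
    refine ⟨M1, fun n X b b' a1 a2 a3 a4 a5 => ?_⟩
    simp only [Fml.eval, h1 n X b b' a1 a2 a3 a4 a5]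
  | mul e P Q h1 h2 =>
    obtain ⟨M1, h1⟩ := h1
    obtain ⟨M2, h2⟩ := h2
    refine ⟨max M1 M2, fun n X b b' a1 a2 a3 a4 a5 => ?_⟩
    have e1 := h1 n X b b' a1 a2 a3 a4 fun l hl => a5 l (lt_of_lt_of_le hl (le_max_left _ _))
    have e2 := h2 n X b b' a1 a2 a3 a4 fun l hl => a5 l (lt_of_lt_of_le hl (le_max_right _ _))
    simp only [Fml.eval, e1, e2]
  | perm e P h1 =>
    obtain ⟨M1, h1⟩ := h1
    refine ⟨M1, fun n X b b' a1 a2 a3 a4 a5 => ?_⟩
    simp only [Fml.eval, h1 n X b b' a1 a2 a3 a4 a5]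
  | contr e P h1 =>
    obtain ⟨M1, h1⟩ := h1
    refine ⟨M1, fun n X b b' a1 a2 a3 a4 a5 => ?_⟩
    simp only [Fml.eval, h1 n X b b' a1 a2 a3 a4 a5, a2]
  | deriv e P h1 =>
    obtain ⟨M1, h1⟩ := h1
    refine ⟨M1, fun n X b b' a1 a2 a3 a4 a5 => ?_⟩
    simp only [Fml.eval, h1 n X b b' a1 a2 a3 a4 a5, (curv_congr b b' a1 a2).2]

section Tr

variable {A : DR (k + 1)} {h0 : ∀ f, A.d 0 f = 0}

theorem cf0_of_O {F G : A.ps.R} {N : ℕ} (h : O (N + 1) (F - G)) : cf 0 F = cf 0 G := by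
  have := h 0 (Nat.succ_pos N)
  rw [cf_sub, sub_eq_zero] at this
  exact this

/-- truncation of formal metrics -/
theorem Fml.trunc {r : ℕ} (P : Fml Fa ρa r) : ∃ M : ℕ, ∀ (A : DR (k + 1)) (h0 : ∀ f, A.d 0 f = 0)
    (m m' : Mt (psHs h0)), m.N = m'.N → (∀ i j, O (M + 2) (m.g i j - m'.g i j)) →
    P.eval A m.hyp = P.eval A m'.hyp := by
  obtain ⟨M, hM⟩ := P.bd
  refine ⟨M, fun A h0 m m' hN hg => ?_⟩
  have hgi : ∀ i j, cf 0 (m.gi i j) = cf 0 (m'.gi i j) := fun i j =>
    cf0_of_O (N := M + 1) (O_inv m.met m'.met hg i j)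
  have hg0 : ∀ i j, cf 0 (m.g i j) = cf 0 (m'.g i j) := fun i j => cf0_of_O (N := M + 1) (hg i j)
  have hfr : m.fr = m'.fr := by
    funext i j
    refine Fin.cases ?_ (fun a => rfl) i
    show m.N * cf 0 (m.gi 0 j) = m'.N * cf 0 (m'.gi 0 j)
    rw [hgi, hN]
  have hG : m.hyp.G = m'.hyp.G := by
    funext i j
    show ext 1 (fun a b => cf 0 (m.g a.succ b.succ)) i j
      = ext 1 (fun a b => cf 0 (m'.g a.succ b.succ)) i j
    simp only [hg0]
  refine hM _ A m.hyp m'.hyp hG (inv_unique (hG ▸ m.hyp.met) m'.hyp.met) rfl ?_ ?_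
  · funext K
    show ext 0 m.II (K 0) (K 1) = ext 0 m'.II (K 0) (K 1)
    congr 1
    funext a b
    show m.N * cf 0 (chr A.ps.D m.g m.gi 0 a.succ b.succ)
      = m'.N * cf 0 (chr A.ps.D m'.g m'.gi 0 a.succ b.succ)
    rw [hN, cf0_of_O (N := 0) (O_chr m.met m'.met (N := 1)
      (fun i j => (hg i j).mono (by omega)) 0 a.succ b.succ)]
  · intro l hl
    funext K
    show (∑ L : Fin (4 + l) → Fin (k + 1), (∏ s, m.fr (K s) (L s)) * cf 0 (rm m.met l L))
      = ∑ L : Fin (4 + l) → Fin (k + 1), (∏ s, m'.fr (K s) (L s)) * cf 0 (rm m'.met l L)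
    rw [hfr]
    refine Finset.sum_congr rfl fun L _ => ?_
    rw [cf0_of_O (N := 0) (O_rm m.met m'.met l (N := 1)
      (fun i j => (hg i j).mono (by omega)) L)]

end Tr

/-! ### the formal metric along a hypersurface -/

section Tau

variable {X A B : DR (k + 1)} (H : Hs X A) (η : DH A B)

theorem DR.D_add' (X : DR (k + 1)) (i : Fin (k + 1)) (f g : X.R) : X.D i (f + g) = X.D i f + X.D i g :=
  X.isDer.add i f g
theorem DR.D_mul' (X : DR (k + 1)) (i : Fin (k + 1)) (f g : X.R) :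
    X.D i (f * g) = X.D i f * g + f * X.D i g := X.isDer.mul i f g
theorem DR.D_smul' (X : DR (k + 1)) (i : Fin (k + 1)) (t : ℝ) (f : X.R) :
    X.D i (t • f) = t • X.D i f := X.isDer.smul i t f

theorem D_iter_comm (X : DR (k + 1)) (i : Fin (k + 1)) (n : ℕ) (f : X.R) :
    (X.D 0)^[n] (X.D i f) = X.D i ((X.D 0)^[n] f) := by
  induction n generalizing f with
  | zero => rfl
  | succ n ih =>
    rw [Function.iterate_succ_apply, Function.iterate_succ_apply]
    have : X.D 0 (X.D i f) = X.D i (X.D 0 f) := X.isDer.comm 0 i f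
    rw [this, ih]

/-- Taylor expansion along the hypersurface -/
noncomputable def Hs.tay : DH X B.ps where
  f := tayH (A := B) (X.D 0) (X.D_add' 0) (X.D_mul' 0) (X.D_smul' 0) (η.f.comp H.res)
  hd i f := by
    refine Fin.cases ?_ (fun a => ?_) i
    · exact (D_tay (A := B) (X.D 0) (η.f.comp H.res) f).symm
    · apply cf_ext
      intro n
      have e : cf n (B.ps.D a.succ (Hy.tay (A := B) (X.D 0) (η.f.comp H.res) f))
        = cf n (Hy.tay (A := B) (X.D 0) (η.f.comp H.res) (X.D a.succ f)) := by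
        rw [cf_ds, cf_tay, cf_tay, D_iter_comm]
        have e2 : (η.f.comp H.res) (X.D a.succ ((X.D 0)^[n] f))
            = B.d a.succ ((η.f.comp H.res) ((X.D 0)^[n] f)) := by
          show η.f (H.res (X.d a.succ _)) = B.d a.succ (η.f (H.res _))
          rw [H.hd, η.hd]
        rw [e2]
        exact (B.d a.succ).map_smul _ _
      exact e.symm

theorem cf_Htay (n : ℕ) (f : X.R) : cf n ((H.tay η).f f)
    = ((n.factorial : ℕ) : ℝ)⁻¹ • η.f (H.res ((X.D 0)^[n] f)) := cf_tay _ _ n f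

theorem cf0_Htay (f : X.R) : cf 0 ((H.tay η).f f) = η.f (H.res f) := cf0_tay _ _ f

variable {H}

/-- the formal metric -/
noncomputable def Mt.tm (m : Mt H) (η : DH A B) (h0 : ∀ f, B.d 0 f = 0) : Mt (psHs h0) where
  g i j := (H.tay η).f (m.g i j)
  gi i j := (H.tay η).f (m.gi i j)
  met := {
    symm := fun i j => by rw [m.met.symm]
    inv := fun i j => by
      have := congrArg (H.tay η).f (m.met.inv i j)
      rw [map_sum] at this
      simp only [map_mul] at this
      rw [this]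
      split_ifs
      · exact map_one _
      · exact map_zero _ }
  N := η.f m.N
  hN := by
    show η.f m.N * η.f m.N * cf 0 ((H.tay η).f (m.gi 0 0)) = 1
    rw [cf0_Htay, ← map_mul, ← map_mul, m.hN, map_one]

theorem Mt.tm_hyp (m : Mt H) (η : DH A B) (h0 : ∀ f, B.d 0 f = 0) :
    (m.tm η h0).hyp = m.hyp.map η.f :=
  Mt.hyp_map (m := m) (m' := m.tm η h0) (H.tay η) η (fun f => cf0_Htay H η f) rfl rfl rfl

/-- the identity morphism -/
noncomputable def DH.id (A : DR (k + 1)) : DH A A where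
  f := AlgHom.id ℝ A.R
  hd _ _ := rfl

theorem BD.map_id {J : Type} {ρ : J → ℕ} (b : BD A J ρ) : b.map (DH.id A).f = b := rfl

end Tau

end Run7.h96.Hy

end

section

/-!
The family of metrics `e^{2tω} g` and its first order expansions.
-/

set_option linter.all false
set_option maxHeartbeats 400000

open scoped BigOperators

namespace Run7.h96.Hy

open CInv

variable {k : ℕ}

/-- the vectors giving the derivations on `ℝ × T^k` -/
def vX (k : ℕ) : Fin (k + 1) → (Fin (k + 1) → ℝ) := fun i => Pi.single i 1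

/-- values of functions on `ℝ × T^k` -/
noncomputable def vx (f : (XX k).R) (x : Fin (k + 1) → ℝ) : ℝ := vl (v := vX k) f x

theorem vx_ext {f g : (XX k).R} (h : ∀ x, vx f x = vx g x) : f = g := vl_ext (v := vX k) h
@[simp] theorem vx_add (f g : (XX k).R) (x : Fin (k + 1) → ℝ) : vx (f + g) x = vx f x + vx g x := rfl
@[simp] theorem vx_sub (f g : (XX k).R) (x : Fin (k + 1) → ℝ) : vx (f - g) x = vx f x - vx g x := rfl
@[simp] theorem vx_mul (f g : (XX k).R) (x : Fin (k + 1) → ℝ) : vx (f * g) x = vx f x * vx g x := rfl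
@[simp] theorem vx_neg (f : (XX k).R) (x : Fin (k + 1) → ℝ) : vx (-f) x = - vx f x := rfl
@[simp] theorem vx_zero (x : Fin (k + 1) → ℝ) : vx (0 : (XX k).R) x = 0 := rfl
@[simp] theorem vx_one (x : Fin (k + 1) → ℝ) : vx (1 : (XX k).R) x = 1 := rfl
@[simp] theorem vx_smul (t : ℝ) (f : (XX k).R) (x : Fin (k + 1) → ℝ) :
    vx (t • f) x = t * vx f x := rfl
/-- evaluation -/
noncomputable def evX (x : Fin (k + 1) → ℝ) : (XX k).R →ₐ[ℝ] ℝ := evC (v := vX k) (Λ := PX k) x
theorem evX_apply (x : Fin (k + 1) → ℝ) (f : (XX k).R) : evX x f = vx f x := rfl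
theorem vx_sum {α : Type} (s : Finset α) (f : α → (XX k).R) (x : Fin (k + 1) → ℝ) :
    vx (∑ a ∈ s, f a) x = ∑ a ∈ s, vx (f a) x := map_sum (evX x) f s
theorem vx_pow (f : (XX k).R) (m : ℕ) (x : Fin (k + 1) → ℝ) : vx (f ^ m) x = vx f x ^ m :=
  map_pow (evX x) f m
theorem vx_smooth (f : (XX k).R) : ContDiff ℝ (⊤ : ℕ∞) (vx f) := vl_smooth (v := vX k) f
theorem vx_d (i : Fin (k + 1)) (f : (XX k).R) (x : Fin (k + 1) → ℝ) :
    vx ((XX k).d i f) x = fderiv ℝ (vx f) x (Pi.single i 1) := rfl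
theorem va_res (f : (XX k).R) (x : Fin k → ℝ) : va ((HX k).res f) x = vx f (Fin.cons 0 x) :=
  vl_res f x

/-- exponential of a function on `ℝ × T^k` -/
noncomputable def eX (f : (XX k).R) : (XX k).R := expC (v := vX k) f
theorem vx_eX (f : (XX k).R) (x : Fin (k + 1) → ℝ) : vx (eX f) x = Real.exp (vx f x) := rfl
theorem eX_inv (f : (XX k).R) : eX f * eX (-f) = 1 := exp_inv (v := vX k) f

/-- families of functions on `ℝ × T^k` -/
noncomputable def XT (k : ℕ) : DR (k + 1) := TR (Fin (k + 1) → ℝ) (PX k) (vX k)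
/-- families of functions on `T^k` -/
noncomputable def AT (k : ℕ) : DR (k + 1) := TR (Fin k → ℝ) (PA k) (vA k)

/-- value -/
noncomputable def vXT (f : (XT k).R) (x : ℝ × (Fin (k + 1) → ℝ)) : ℝ :=
  vl (v := fun i => ((0 : ℝ), vX k i)) f x
/-- value -/
noncomputable def vAT (f : (AT k).R) (x : ℝ × (Fin k → ℝ)) : ℝ :=
  vl (v := fun i => ((0 : ℝ), vA k i)) f x

theorem vXT_ext {f g : (XT k).R} (h : ∀ x, vXT f x = vXT g x) : f = g :=
  vl_ext (v := fun i => ((0 : ℝ), vX k i)) h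
theorem vAT_ext {f g : (AT k).R} (h : ∀ x, vAT f x = vAT g x) : f = g :=
  vl_ext (v := fun i => ((0 : ℝ), vA k i)) h
@[simp] theorem vXT_mul (f g : (XT k).R) (x) : vXT (f * g) x = vXT f x * vXT g x := rfl
@[simp] theorem vXT_neg (f : (XT k).R) (x) : vXT (-f) x = - vXT f x := rfl
@[simp] theorem vAT_mul (f g : (AT k).R) (x) : vAT (f * g) x = vAT f x * vAT g x := rfl
@[simp] theorem vAT_neg (f : (AT k).R) (x) : vAT (-f) x = - vAT f x := rfl
theorem vXT_smooth (f : (XT k).R) : ContDiff ℝ (⊤ : ℕ∞) (vXT f) :=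
  vl_smooth (v := fun i => ((0 : ℝ), vX k i)) f
theorem vAT_smooth (f : (AT k).R) : ContDiff ℝ (⊤ : ℕ∞) (vAT f) :=
  vl_smooth (v := fun i => ((0 : ℝ), vA k i)) f

/-- value of a family -/
noncomputable def evX' (t : ℝ) : DH (XT k) (XX k) := evt (v := vX k) t
/-- value of a family -/
noncomputable def evA' (t : ℝ) : DH (AT k) (AA k) := evt (v := vA k) t
theorem vx_evX' (t : ℝ) (f : (XT k).R) (x : Fin (k + 1) → ℝ) : vx ((evX' t).f f) x = vXT f (t, x) :=
  vl_evt t f x
theorem va_evA' (t : ℝ) (f : (AT k).R) (x : Fin k → ℝ) : va ((evA' t).f f) x = vAT f (t, x) :=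
  vl_evt t f x

/-- constant families -/
noncomputable def cX' : DH (XX k) (XT k) := cT (v := vX k)
/-- constant families -/
noncomputable def cA' : DH (AA k) (AT k) := cT (v := vA k)
theorem vXT_cX (f : (XX k).R) (x) : vXT (cX'.f f) x = vx f x.2 := vl_cT (v := vX k) f x
theorem vAT_cA (f : (AA k).R) (x) : vAT (cA'.f f) x = va f x.2 := vl_cT (v := vA k) f x

/-- derivative in the parameter -/
noncomputable def dXT : Derivation ℝ (XT k).R (XT k).R := dT (v := vX k)
/-- derivative in the parameter -/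
noncomputable def dAT : Derivation ℝ (AT k).R (AT k).R := dT (v := vA k)
theorem vXT_d (f : (XT k).R) (x) : vXT (dXT f) x = fderiv ℝ (vXT f) x (1, 0) := rfl
theorem vAT_d (f : (AT k).R) (x) : vAT (dAT f) x = fderiv ℝ (vAT f) x (1, 0) := rfl

theorem dXT_comm (i : Fin (k + 1)) (f : (XT k).R) : dXT ((XT k).d i f) = (XT k).d i (dXT f) :=
  dC_comm _ _ _

/-- first order expansion -/
noncomputable def dA (t : ℝ) : DH (AT k) (AA k).dual := dlt (v := vA k) t

theorem fs_dA (t : ℝ) (f : (AT k).R) : fs ((dA t).f f) = (evA' t).f f :=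
  DH.der_fs (evt (v := vA k) (Λ := PA k) t) dT (fun i f => dC_comm _ _ _) f
theorem sn_dA (t : ℝ) (f : (AT k).R) : sn ((dA t).f f) = (evA' t).f (dAT f) :=
  DH.der_sn (evt (v := vA k) (Λ := PA k) t) dT (fun i f => dC_comm _ _ _) f

/-- the restriction for families -/
noncomputable def HT' (k : ℕ) : Hs (XT k) (AT k) := HT k

theorem vAT_res (f : (XT k).R) (t : ℝ) (x : Fin k → ℝ) :
    vAT ((HT' k).res f) (t, x) = vXT f (t, Fin.cons 0 x) := by
  show vXT f (0 + ((ContinuousLinearMap.id ℝ ℝ).prodMap (inY k)) (t, x)) = _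
  rw [zero_add]
  show vXT f (t, inY k x) = _
  rw [inY_apply]

theorem res_ev (t : ℝ) (f : (XT k).R) : (HX k).res ((evX' t).f f) = (evA' t).f ((HT' k).res f) :=
  va_ext fun x => by rw [va_res, vx_evX', va_evA', vAT_res]

theorem res_c (f : (XX k).R) : (HT' k).res (cX'.f f) = cA'.f ((HX k).res f) :=
  vAT_ext fun x => by
    obtain ⟨t, x⟩ := x
    rw [vAT_res, vXT_cX, vAT_cA, va_res]

theorem res_dT (f : (XT k).R) : (HT' k).res (dXT f) = dAT ((HT' k).res f) :=
  vAT_ext fun x => by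
    rw [vAT_d]
    have h1 := fderiv_cph (v := fun i => ((0 : ℝ), vX k i)) (0 : ℝ × (Fin (k + 1) → ℝ))
      ((ContinuousLinearMap.id ℝ ℝ).prodMap (inY k)) f x (1, 0)
    refine Eq.trans ?_ h1.symm
    show fderiv ℝ (vXT f) (0 + ((ContinuousLinearMap.id ℝ ℝ).prodMap (inY k)) x) (1, 0)
      = fderiv ℝ (vXT f) (0 + ((ContinuousLinearMap.id ℝ ℝ).prodMap (inY k)) x) ((1 : ℝ), inY k 0)
    rw [map_zero]

theorem ev_c (t : ℝ) (f : (XX k).R) : (evX' t).f (cX'.f f) = f :=
  vx_ext fun x => by rw [vx_evX', vXT_cX]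
theorem evA_c (t : ℝ) (f : (AA k).R) : (evA' t).f (cA'.f f) = f :=
  va_ext fun x => by rw [va_evA', vAT_cA]

theorem dXT_c (f : (XX k).R) : dXT (cX'.f f) = 0 := vXT_ext fun x => by
  rw [vXT_d]
  have h1 : vXT (cX'.f f) = fun x => vx f x.2 := funext fun x => vXT_cX f x
  rw [h1]
  have h2 : HasFDerivAt (fun x : ℝ × (Fin (k + 1) → ℝ) => vx f x.2)
      ((fderiv ℝ (vx f) x.2).comp (ContinuousLinearMap.snd ℝ ℝ (Fin (k + 1) → ℝ))) x :=
    (((vx_smooth f).differentiable (by simp)) x.2).hasFDerivAt.comp x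
      (ContinuousLinearMap.snd ℝ ℝ (Fin (k + 1) → ℝ)).hasFDerivAt
  rw [h2.fderiv]
  show (fderiv ℝ (vx f) x.2) 0 = 0
  rw [map_zero]

theorem dAT_c (f : (AA k).R) : dAT (cA'.f f) = 0 := vAT_ext fun x => by
  rw [vAT_d]
  have h1 : vAT (cA'.f f) = fun x => va f x.2 := funext fun x => vAT_cA f x
  rw [h1]
  have h2 : HasFDerivAt (fun x : ℝ × (Fin k → ℝ) => va f x.2)
      ((fderiv ℝ (va f) x.2).comp (ContinuousLinearMap.snd ℝ ℝ (Fin k → ℝ))) x :=
    (((va_smooth f).differentiable (by simp)) x.2).hasFDerivAt.comp x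
      (ContinuousLinearMap.snd ℝ ℝ (Fin k → ℝ)).hasFDerivAt
  rw [h2.fderiv]
  show (fderiv ℝ (va f) x.2) 0 = 0
  rw [map_zero]

/-- the function `e^{tω}` -/
noncomputable def eT (ω : (XX k).R) : (XT k).R :=
  mkC (v := fun i => ((0 : ℝ), vX k i)) (fun x => Real.exp (x.1 * vx ω x.2))
    ((contDiff_fst.mul ((vx_smooth ω).comp contDiff_snd)).exp) (fun l hl x => by
      have h1 : (x + l).1 = x.1 := by rw [Prod.fst_add, hl.1, add_zero]
      have h2 : vx ω (x + l).2 = vx ω x.2 := by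
        rw [Prod.snd_add]; exact vl_per (v := vX k) ω hl.2 x.2
      rw [h1, h2])

theorem vXT_eT (ω : (XX k).R) (x) : vXT (eT ω) x = Real.exp (x.1 * vx ω x.2) := rfl

theorem eT_inv (ω : (XX k).R) : eT ω * eT (-ω) = 1 := vXT_ext fun x => by
  rw [vXT_mul, vXT_eT, vXT_eT, vx_neg, ← Real.exp_add]
  have : x.1 * vx ω x.2 + x.1 * -vx ω x.2 = 0 := by ring
  rw [this, Real.exp_zero]; rfl

theorem ev_eT (t : ℝ) (ω : (XX k).R) : (evX' t).f (eT ω) = eX (t • ω) := vx_ext fun x => by
  rw [vx_evX', vXT_eT, vx_eX, vx_smul]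

theorem d_eT (ω : (XX k).R) : dXT (eT ω) = cX'.f ω * eT ω := vXT_ext fun x => by
  rw [vXT_d, vXT_mul, vXT_cX, vXT_eT]
  have h1 : HasFDerivAt (fun x : ℝ × (Fin (k + 1) → ℝ) => vx ω x.2)
      ((fderiv ℝ (vx ω) x.2).comp (ContinuousLinearMap.snd ℝ ℝ (Fin (k + 1) → ℝ))) x :=
    (((vx_smooth ω).differentiable (by simp)) x.2).hasFDerivAt.comp x
      (ContinuousLinearMap.snd ℝ ℝ (Fin (k + 1) → ℝ)).hasFDerivAt
  have h2 : HasFDerivAt (fun x : ℝ × (Fin (k + 1) → ℝ) => x.1)
      (ContinuousLinearMap.fst ℝ ℝ (Fin (k + 1) → ℝ)) x :=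
    (ContinuousLinearMap.fst ℝ ℝ (Fin (k + 1) → ℝ)).hasFDerivAt
  have h3 := (h2.mul h1).exp
  have h4 : vXT (eT ω) = fun x => Real.exp (x.1 * vx ω x.2) := rfl
  rw [h4]
  have h5 := congrArg (fun L : (ℝ × (Fin (k + 1) → ℝ)) →L[ℝ] ℝ => L ((1 : ℝ), 0)) h3.fderiv
  refine Eq.trans h5 ?_
  simp
  ring

/-! ### maps of metrics -/

section Mp

variable {X A X' A' : DR (k + 1)} {H : Hs X A} {H' : Hs X' A'}

/-- transport of a metric -/
def Mt.mp (m : Mt H) (θ : DH X X') (η : DH A A') (hr : ∀ f, H'.res (θ.f f) = η.f (H.res f)) :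
    Mt H' where
  g i j := θ.f (m.g i j)
  gi i j := θ.f (m.gi i j)
  met := {
    symm := fun i j => by rw [m.met.symm]
    inv := fun i j => by
      have := congrArg θ.f (m.met.inv i j)
      rw [map_sum] at this
      simp only [map_mul] at this
      rw [this]
      split_ifs
      · exact map_one _
      · exact map_zero _ }
  N := η.f m.N
  hN := by rw [hr, ← map_mul, ← map_mul, m.hN, map_one]

theorem Mt.ext' {m m' : Mt H} (hg : m.g = m'.g) (hgi : m.gi = m'.gi) (hN : m.N = m'.N) : m = m' := by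
  obtain ⟨g, gi, met, N, hN⟩ := m
  obtain ⟨g', gi', met', N', hN'⟩ := m'
  simp only at hg hgi hN
  subst hg hgi hN
  rfl

end Mp

/-- the metric `e^{2ω} g` -/
noncomputable def conf (m : Mt (HX k)) (ω : (XX k).R) : Mt (HX k) :=
  m.mulc (eX ω) (eX (-ω)) (eX_inv ω)

/-- the family `e^{2tω} g` -/
noncomputable def fam (m : Mt (HX k)) (ω : (XX k).R) : Mt (HT' k) :=
  (m.mp cX' cA' res_c).mulc (eT ω) (eT (-ω)) (eT_inv ω)

theorem fam_ev (m : Mt (HX k)) (ω : (XX k).R) (t : ℝ) :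
    (conf m (t • ω)).hyp = (fam m ω).hyp.map (evA' t).f := by
  refine Mt.hyp_map (m := fam m ω) (m' := conf m (t • ω)) (evX' t) (evA' t)
    (fun f => res_ev t f) ?_ ?_ ?_
  · funext i j
    show eX (t • ω) * eX (t • ω) * m.g i j = (evX' t).f (eT ω * eT ω * cX'.f (m.g i j))
    rw [map_mul, map_mul, ev_eT, ev_c]
  · funext i j
    show eX (-(t • ω)) * eX (-(t • ω)) * m.gi i j
      = (evX' t).f (eT (-ω) * eT (-ω) * cX'.f (m.gi i j))
    rw [map_mul, map_mul, ev_eT, ev_c, smul_neg]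
  · show (HX k).res (eX (t • ω)) * m.N = (evA' t).f ((HT' k).res (eT ω) * cA'.f m.N)
    rw [map_mul, ← res_ev, ev_eT, evA_c]

/-- Taylor expansion of functions on `ℝ × T^k` -/
noncomputable def τX (f : (XX k).R) : (AA k).ps.R := ((HX k).tay (DH.id (AA k))).f f

theorem τX_mul (f g : (XX k).R) : τX (f * g) = τX f * τX g := map_mul _ _ _
theorem τX_one : τX (1 : (XX k).R) = 1 := map_one _
theorem τX_neg (f : (XX k).R) : τX (-f) = -τX f := map_neg _ _
theorem cf0_τX (f : (XX k).R) : cf 0 (τX f) = (HX k).res f := cf0_Htay _ _ f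
theorem cf_τX (n : ℕ) (f : (XX k).R) : cf n (τX f)
    = ((n.factorial : ℕ) : ℝ)⁻¹ • (HX k).res (((XX k).D 0)^[n] f) := cf_Htay _ _ n f

/-- the formal metric of a metric on `ℝ × T^k` -/
noncomputable def fm (m : Mt (HX k)) : Mt (psHs (HX k).d0) := m.tm (DH.id (AA k)) (HX k).d0

theorem fm_hyp (m : Mt (HX k)) : (fm m).hyp = m.hyp := by
  rw [fm, Mt.tm_hyp, BD.map_id]

theorem iter_ev (t : ℝ) (n : ℕ) (f : (XT k).R) :
    (evX' t).f (((XT k).D 0)^[n] f) = ((XX k).D 0)^[n] ((evX' t).f f) := by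
  induction n generalizing f with
  | zero => rfl
  | succ n ih =>
    rw [Function.iterate_succ_apply, Function.iterate_succ_apply, ih]
    congr 1
    exact (evX' t).hd 0 f

theorem iter_dT (n : ℕ) (f : (XT k).R) :
    dXT (((XT k).D 0)^[n] f) = ((XT k).D 0)^[n] (dXT f) := by
  induction n generalizing f with
  | zero => rfl
  | succ n ih =>
    rw [Function.iterate_succ_apply, Function.iterate_succ_apply, ih]
    congr 1
    exact dXT_comm 0 f

theorem tay_dA (t : ℝ) (F : (XT k).R) : ((HT' k).tay (dA t)).f F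
    = lf (τX ((evX' t).f F)) + ee (AA k) * lf (τX ((evX' t).f (dXT F))) := by
  apply cf_ext
  intro n
  rw [cf_Htay, cf_add, cf_lf, cf_ee_mul, cf_lf, cf_τX, cf_τX]
  apply dual_ext
  · rw [fs_smul, fs_dA, fs_add, fs_mul, fs_inl, fs_eps, zero_mul, add_zero, ← res_ev, iter_ev]
  · rw [sn_smul, sn_dA, sn_add, sn_mul, sn_inl, sn_inl, fs_eps, fs_inl, sn_eps, zero_mul, zero_add,
      zero_add, one_mul, ← res_dT, ← res_ev, iter_dT, iter_ev]

theorem tay_dA_c (t : ℝ) (f : (XX k).R) : ((HT' k).tay (dA t)).f (cX'.f f) = lf (τX f) := by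
  rw [tay_dA, ev_c, dXT_c, map_zero]
  have : τX (0 : (XX k).R) = 0 := map_zero _
  rw [this, lf_zero, mul_zero, add_zero]

theorem tay_dA_e (t : ℝ) (ω : (XX k).R) : ((HT' k).tay (dA t)).f (eT ω)
    = lf (τX (eX (t • ω))) * (1 + ee (AA k) * lf (τX ω)) := by
  rw [tay_dA, d_eT, map_mul, ev_c, ev_eT, τX_mul, lf_mul]; ring

theorem fam_d (m : Mt (HX k)) (ω : (XX k).R) (t : ℝ) :
    (fam m ω).tm (dA t) (dual_d0 (HX k).d0) = im (fm (conf m (t • ω))) (τX ω) := by
  refine Mt.ext' ?_ ?_ ?_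
  · funext i j
    show ((HT' k).tay (dA t)).f (eT ω * eT ω * cX'.f (m.g i j))
      = (1 + ee (AA k) * lf (τX ω)) * (1 + ee (AA k) * lf (τX ω))
        * lf (τX (eX (t • ω) * eX (t • ω) * m.g i j))
    rw [map_mul, map_mul, tay_dA_e, tay_dA_c, τX_mul, τX_mul, lf_mul, lf_mul]; ring
  · funext i j
    show ((HT' k).tay (dA t)).f (eT (-ω) * eT (-ω) * cX'.f (m.gi i j))
      = (1 - ee (AA k) * lf (τX ω)) * (1 - ee (AA k) * lf (τX ω))
        * lf (τX (eX (-(t • ω)) * eX (-(t • ω)) * m.gi i j))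
    rw [map_mul, map_mul, tay_dA_e, tay_dA_c, τX_mul, τX_mul, lf_mul, lf_mul, τX_neg, smul_neg]
    have : lf (-τX ω) = - lf (τX ω) := by
      have h := lf_smul (-1) (τX ω)
      simp only [neg_smul, one_smul] at h
      exact h
    rw [this]; ring
  · show (dA t).f ((HT' k).res (eT ω) * cA'.f m.N)
      = cf 0 (1 + ee (AA k) * lf (τX ω)) * (inlH (AA k)).f ((HX k).res (eX (t • ω)) * m.N)
    rw [cf_add, cf_one, if_pos rfl, cf_ee_mul, cf_lf, cf0_τX]
    apply dual_ext
    · rw [fs_dA, map_mul, ← res_ev, ev_eT, evA_c, fs_mul, fs_inl, fs_add, fs_one, fs_mul, fs_eps,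
        zero_mul, add_zero, one_mul]
    · rw [sn_dA, Derivation.leibniz, dAT_c, smul_zero, zero_add, ← res_dT, d_eT, smul_eq_mul,
        map_mul, ← res_ev, map_mul, ev_c, ev_eT, evA_c, sn_mul, sn_inl, fs_inl, sn_add, sn_one,
        sn_mul, fs_eps, sn_eps, fs_inl, map_mul]
      ring

/-- first order expansions of the values of a formula along the family -/
theorem fam_sn {r : ℕ} (P : Fml Fa ρa r) (m : Mt (HX k)) (ω : (XX k).R) (t : ℝ)
    (K : Fin r → Fin (k + 1)) :
    (evA' t).f (P.eval (AT k) (fam m ω).hyp K) = P.eval (AA k) (conf m (t • ω)).hyp K ∧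
    (evA' t).f (dAT (P.eval (AT k) (fam m ω).hyp K))
      = sn (P.eval (AA k).dual (im (fm (conf m (t • ω))) (τX ω)).hyp K) := by
  refine ⟨?_, ?_⟩
  · rw [fam_ev, Fml.eval_map]
  · rw [← fam_d, Mt.tm_hyp, Fml.eval_map, sn_dA]

end Run7.h96.Hy

end

section

/-!
Total integrals of formulas over the hypersurface, and their derivatives along families.
-/

set_option linter.all false
set_option maxHeartbeats 400000

open scoped BigOperators
open MeasureTheory

namespace Run7.h96.Hy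

open CInv

variable {k : ℕ}

theorem diff_pt (G : (AT k).R) (t : ℝ) (x : Fin k → ℝ) :
    HasDerivAt (fun t => vAT G (t, x)) (vAT (dAT G) (t, x)) t := by
  have h1 : HasDerivAt (fun t : ℝ => ((t, x) : ℝ × (Fin k → ℝ))) (1, 0) t :=
    (hasDerivAt_id t).prodMk (hasDerivAt_const t x)
  have h2 := (((vAT_smooth G).differentiable (by simp)) (t, x)).hasFDerivAt
  have h3 := h2.comp_hasDerivAt t h1
  exact h3

theorem diff_int (G : (AT k).R) (t0 : ℝ) :
    HasDerivAt (fun t => ∫ x in Set.Icc (0 : Fin k → ℝ) 1, vAT G (t, x))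
      (∫ x in Set.Icc (0 : Fin k → ℝ) 1, vAT (dAT G) (t0, x)) t0 := by
  have hc : Continuous (vAT G) := (vAT_smooth G).continuous
  have hc' : Continuous (vAT (dAT G)) := (vAT_smooth _).continuous
  have hK : IsCompact (Set.Icc (t0 - 1) (t0 + 1) ×ˢ Set.Icc (0 : Fin k → ℝ) 1) :=
    isCompact_Icc.prod isCompact_Icc
  obtain ⟨C, hC⟩ := hK.exists_bound_of_continuousOn hc'.continuousOn
  have hs : ∀ t : ℝ, Continuous fun x : Fin k → ℝ => ((t, x) : ℝ × (Fin k → ℝ)) := fun t =>
    continuous_const.prodMk continuous_id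
  have hfin : volume (Set.Icc (0 : Fin k → ℝ) 1) < ⊤ := isCompact_Icc.measure_lt_top
  refine (hasDerivAt_integral_of_dominated_loc_of_deriv_le
    (μ := volume.restrict (Set.Icc (0 : Fin k → ℝ) 1)) (F := fun t x => vAT G (t, x))
    (F' := fun t x => vAT (dAT G) (t, x)) (s := Set.Icc (t0 - 1) (t0 + 1))
    (bound := fun _ => C) (Icc_mem_nhds (by linarith) (by linarith)) ?_ ?_ ?_ ?_ ?_ ?_).2
  · exact Filter.Eventually.of_forall fun t => (hc.comp (hs t)).aestronglyMeasurable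
  · exact (hc.comp (hs t0)).continuousOn.integrableOn_compact isCompact_Icc
  · exact (hc'.comp (hs t0)).aestronglyMeasurable
  · rw [ae_restrict_iff' measurableSet_Icc]
    exact Filter.Eventually.of_forall fun x hx t ht => hC (t, x) ⟨ht, hx⟩
  · exact integrableOn_const hfin.ne
  · exact Filter.Eventually.of_forall fun x t _ => diff_pt G t x

/-- positive definite metrics -/
def Pos (m : Mt (HX k)) : Prop := ∀ x, (Matrix.of fun i j => vx (m.g i j) x).PosDef

theorem ext_va (c : (AA k).R) (M : Fin k → Fin k → (AA k).R) (x : Fin k → ℝ) (i j : Fin (k + 1)) :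
    va (ext c M i j) x = ext (va c x) (fun a b => va (M a b) x) i j := ext_map (evA x) c M i j

theorem posdef_ext {M : Fin k → Fin k → ℝ} (h : (Matrix.of M).PosDef) :
    (Matrix.of (ext 1 M)).PosDef := by
  have hs : ∀ a b, M a b = M b a := fun a b => by
    have := congrFun (congrFun h.1 b) a
    simpa using this
  refine Matrix.PosDef.of_dotProduct_mulVec_pos ?_ fun v hv => ?_
  · ext i j
    show star (ext (1 : ℝ) M j i) = ext 1 M i j
    rw [ext_symm 1 hs]
    rfl
  · have e : star v ⬝ᵥ (Matrix.of (ext 1 M)).mulVec v = v 0 * v 0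
        + star (fun a : Fin k => v a.succ) ⬝ᵥ (Matrix.of M).mulVec (fun a : Fin k => v a.succ) := by
      simp only [dotProduct, Matrix.mulVec, Fin.sum_univ_succ]
      have h1 : ∀ a : Fin k, Matrix.of (ext (1 : ℝ) M) 0 a.succ = 0 := fun a => rfl
      have h2 : ∀ a : Fin k, Matrix.of (ext (1 : ℝ) M) a.succ 0 = 0 := fun a => rfl
      have h3 : Matrix.of (ext (1 : ℝ) M) 0 0 = 1 := rfl
      have h4 : ∀ a b : Fin k, Matrix.of (ext (1 : ℝ) M) a.succ b.succ = Matrix.of M a b :=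
        fun a b => rfl
      simp only [h1, h2, h3, h4, zero_mul, Finset.sum_const_zero, add_zero, one_mul, zero_add]
      rfl
    rw [e]
    by_cases hu : (fun a : Fin k => v a.succ) = 0
    · rw [hu]
      have h0 : v 0 ≠ 0 := by
        intro h0
        apply hv
        funext i
        refine Fin.cases h0 (fun a => ?_) i
        exact congrFun hu a
      simp only [Matrix.mulVec_zero, dotProduct_zero, add_zero]
      exact mul_self_pos.mpr h0
    · have := h.dotProduct_mulVec_pos hu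
      have h2 := mul_self_nonneg (v 0)
      linarith

/-- the induced metric at a point -/
noncomputable def hbar (m : Mt (HX k)) (x : Fin k → ℝ) : Matrix (Fin k) (Fin k) ℝ :=
  Matrix.of fun a b => vx (m.g a.succ b.succ) (Fin.cons 0 x)

theorem Pos.hbar {m : Mt (HX k)} (hm : Pos m) (x : Fin k → ℝ) : (Hy.hbar m x).PosDef :=
  (hm (Fin.cons 0 x)).submatrix (e := Fin.succ) (Fin.succ_injective k)

theorem Pos.hyp {m : Mt (HX k)} (hm : Pos m) : (JA k).P m.hyp.G := by
  intro x
  have e : (Matrix.of fun i j => va (m.hyp.G i j) x) = Matrix.of (ext 1 (Hy.hbar m x)) := by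
    ext i j
    show va (ext 1 (fun a b => (HX k).res (m.g a.succ b.succ)) i j) x = _
    rw [ext_va]
    simp only [va_res]
    rfl
  rw [e]
  exact posdef_ext (hm.hbar x)

/-- the total integral of a scalar over the hypersurface -/
noncomputable def total (P : Fml Fa ρa 0) (m : Mt (HX k)) : ℝ :=
  ∫ x in Set.Icc (0 : Fin k → ℝ) 1, va (P.eval (AA k) m.hyp ![]) x * Real.sqrt (hbar m x).det

theorem Pos.conf {m : Mt (HX k)} (hm : Pos m) (ω : (XX k).R) : Pos (Hy.conf m ω) := by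
  intro x
  have e : (Matrix.of fun i j => vx ((Hy.conf m ω).g i j) x)
      = (Real.exp (vx ω x) * Real.exp (vx ω x)) • (Matrix.of fun i j => vx (m.g i j) x) := by
    ext i j
    rfl
  rw [e]
  exact (hm x).smul (mul_pos (Real.exp_pos _) (Real.exp_pos _))

theorem va_d0 {f : (AA k).R} : (AA k).d 0 f = 0 := (HX k).d0 f

/-- the density -/
theorem ex_dens {m : Mt (HX k)} (hm : Pos m) :
    ∃ w : (AA k).R, (∀ x, 0 < va w x) ∧ (∀ x, va w x = Real.sqrt (hbar m x).det) ∧
      w * w = (Matrix.of m.hyp.G).det := by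
  have hD : ∀ x, va (Matrix.of m.hyp.G).det x = (hbar m x).det := by
    intro x
    have h1 : (Matrix.of m.hyp.G).det
        = (Matrix.of fun a b : Fin k => (HX k).res (m.g a.succ b.succ)).det :=
      det_ext (fun a b : Fin k => (HX k).res (m.g a.succ b.succ))
    rw [h1]
    have h2 := RingHom.map_det (evA x : (AA k).R →+* ℝ)
      (Matrix.of fun a b : Fin k => (HX k).res (m.g a.succ b.succ))
    refine h2.trans ?_
    congr 1
    ext a b
    exact va_res _ x
  obtain ⟨w, hw1, hw2, hw3⟩ := va_sqrt (Matrix.of m.hyp.G).det (fun x => by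
    rw [hD]; exact (hm.hbar x).det_pos)
  exact ⟨w, hw2, fun x => by rw [hw3, hD], hw1⟩

theorem total_eq {P : Fml Fa ρa 0} {m : Mt (HX k)} {w : (AA k).R}
    (hw : ∀ x, va w x = Real.sqrt (hbar m x).det) :
    total P m = IA k (P.eval (AA k) m.hyp ![] * w) := by
  show _ = ∫ x in Set.Icc (0 : Fin k → ℝ) 1, va (P.eval (AA k) m.hyp ![] * w) x
  unfold total
  simp only [va_mul, hw]

theorem sqrt_conf (m : Mt (HX k)) (ω : (XX k).R) (x : Fin k → ℝ) :
    Real.sqrt (hbar (conf m ω) x).det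
      = va ((HX k).res (eX ω)) x ^ k * Real.sqrt (hbar m x).det := by
  have e : hbar (conf m ω) x = (va ((HX k).res (eX ω)) x * va ((HX k).res (eX ω)) x) • hbar m x := by
    ext a b
    show vx (eX ω * eX ω * m.g a.succ b.succ) (Fin.cons 0 x)
      = (va ((HX k).res (eX ω)) x * va ((HX k).res (eX ω)) x) * vx (m.g a.succ b.succ) (Fin.cons 0 x)
    rw [va_res, vx_mul, vx_mul]
  rw [e, Matrix.det_smul, Fintype.card_fin]
  have h1 : 0 < va ((HX k).res (eX ω)) x := Real.exp_pos _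
  rw [← pow_two, ← pow_mul, mul_comm 2 k, pow_mul]
  have h2 : Real.sqrt ((va ((HX k).res (eX ω)) x ^ k) ^ 2 * (hbar m x).det)
      = Real.sqrt ((va ((HX k).res (eX ω)) x ^ k) ^ 2) * Real.sqrt (hbar m x).det :=
    Real.sqrt_mul (by positivity) _
  rw [h2, Real.sqrt_sq (by positivity)]

theorem conf_zero (m : Mt (HX k)) (ω : (XX k).R) : conf m ((0 : ℝ) • ω) = m := by
  have h1 : eX ((0 : ℝ) • ω) = 1 := vx_ext fun x => by
    rw [vx_eX, vx_smul, zero_mul, Real.exp_zero, vx_one]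
  have h2 : eX (-((0 : ℝ) • ω)) = 1 := vx_ext fun x => by
    rw [vx_eX, vx_neg, vx_smul, zero_mul, neg_zero, Real.exp_zero, vx_one]
  refine Mt.ext' ?_ ?_ ?_
  · funext i j
    show eX ((0 : ℝ) • ω) * eX ((0 : ℝ) • ω) * m.g i j = m.g i j
    rw [h1]; ring
  · funext i j
    show eX (-((0 : ℝ) • ω)) * eX (-((0 : ℝ) • ω)) * m.gi i j = m.gi i j
    rw [h2]; ring
  · show (HX k).res (eX ((0 : ℝ) • ω)) * m.N = m.N
    rw [h1, map_one, one_mul]

theorem der_pow {R : Type} [CommRing R] [Algebra ℝ R] (δ : Derivation ℝ R R) {E c : R}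
    (h : δ E = c * E) (n : ℕ) : δ (E ^ n) = (n : ℝ) • (c * E ^ n) := by
  induction n with
  | zero => rw [pow_zero, Derivation.map_one_eq_zero]; simp
  | succ n ih =>
    rw [pow_succ, Derivation.leibniz, ih, h, smul_eq_mul, smul_eq_mul]
    push_cast
    simp only [Algebra.smul_def, map_add, map_one]
    ring

/-- the infinitesimal form of the invariance of the total integral -/
theorem total_inf (P : Fml Fa ρa 0) {m : Mt (HX k)} (hm : Pos m) (ω : (XX k).R)
    (h : ∀ t : ℝ, total P (conf m (t • ω)) = total P m) {w : (AA k).R}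
    (hw : ∀ x, va w x = Real.sqrt (hbar m x).det) :
    IA k ((sn (P.eval (AA k).dual (im (fm m) (τX ω)).hyp ![])
      + (k : ℝ) • ((HX k).res ω * P.eval (AA k) m.hyp ![])) * w) = 0 := by
  set F : (AT k).R := P.eval (AT k) (fam m ω).hyp ![] with hF
  set E : (AT k).R := (HT' k).res (eT ω) with hE
  set G : (AT k).R := F * E ^ k * cA'.f w with hG
  have hEv : ∀ t, (evA' t).f E = (HX k).res (eX (t • ω)) := fun t => by
    rw [hE, ← res_ev, ev_eT]
  have hdE : dAT E = cA'.f ((HX k).res ω) * E := by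
    rw [hE, ← res_dT, d_eT, map_mul, res_c]
  have h1 : ∀ t : ℝ, total P (conf m (t • ω)) = ∫ x in Set.Icc (0 : Fin k → ℝ) 1, vAT G (t, x) := by
    intro t
    unfold total
    refine setIntegral_congr_fun measurableSet_Icc fun x _ => ?_
    beta_reduce
    rw [sqrt_conf, ← hw, ← va_evA', hG, map_mul, map_mul, map_pow, hEv, evA_c, hF,
      (fam_sn P m ω t ![]).1, va_mul, va_mul, va_pow]
    ring
  have h2 := diff_int G 0
  have h3 : (fun t => ∫ x in Set.Icc (0 : Fin k → ℝ) 1, vAT G (t, x)) = fun _ => total P m := by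
    funext t
    rw [← h1, h]
  rw [h3] at h2
  have h4 := h2.unique (hasDerivAt_const 0 (total P m))
  have hdG : dAT G = (dAT F + (k : ℝ) • (cA'.f ((HX k).res ω) * F)) * E ^ k * cA'.f w := by
    rw [hG, Derivation.leibniz, Derivation.leibniz, der_pow dAT hdE, dAT_c]
    simp only [smul_eq_mul, Algebra.smul_def]
    ring
  have h5 : (evA' 0).f (dAT G) = (sn (P.eval (AA k).dual (im (fm m) (τX ω)).hyp ![])
      + (k : ℝ) • ((HX k).res ω * P.eval (AA k) m.hyp ![])) * w := by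
    have e1 := fam_sn P m ω 0 ![]
    rw [conf_zero] at e1
    rw [hdG, map_mul, map_mul, map_add, map_smul, map_mul, map_pow, hEv, evA_c, evA_c, hF, e1.1,
      e1.2]
    have e2 : (HX k).res (eX ((0 : ℝ) • ω)) = 1 := va_ext fun x => by
      rw [va_res, vx_eX, vx_smul, zero_mul, Real.exp_zero, va_one]
    rw [e2, one_pow, mul_one]
  show (∫ x in Set.Icc (0 : Fin k → ℝ) 1, va ((sn (P.eval (AA k).dual (im (fm m) (τX ω)).hyp ![])
      + (k : ℝ) • ((HX k).res ω * P.eval (AA k) m.hyp ![])) * w) x) = 0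
  rw [← h5]
  simp only [va_evA']
  exact h4

end Run7.h96.Hy

end

section

/-!
Realisation of formal Fermi data by positive definite metrics on `ℝ × T^k`.
-/

set_option linter.all false
set_option maxHeartbeats 400000

open scoped BigOperators
open MeasureTheory

namespace Run7.h96.Hy

open CInv

variable {k : ℕ}

/-! ### functions -/

/-- the projection to `T^k` -/
noncomputable def tlX (k : ℕ) : (Fin (k + 1) → ℝ) →L[ℝ] (Fin k → ℝ) :=
  ContinuousLinearMap.pi (fun a => ContinuousLinearMap.proj a.succ)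

theorem tlX_PA : ∀ l ∈ PX k, tlX k l ∈ PA k := by
  rintro l ⟨a, rfl⟩
  refine ⟨a, ?_⟩
  funext c
  show (Pi.single a.succ (1 : ℝ) : Fin (k + 1) → ℝ) c.succ = _
  by_cases h : c = a
  · subst h; simp
  · rw [Pi.single_eq_of_ne h, Pi.single_eq_of_ne (fun h' => h (Fin.succ_injective _ h'))]

/-- functions on `T^k` as functions on `ℝ × T^k` -/
noncomputable def lA (f : (AA k).R) : (XX k).R :=
  (cph (v := vA k) (v' := vX k) (Λ := PA k) (Λ' := PX k) 0 (tlX k) tlX_PA) f

theorem vx_lA (f : (AA k).R) (x : Fin (k + 1) → ℝ) : vx (lA f) x = va f (fun a => x a.succ) := by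
  show va f (0 + tlX k x) = _
  rw [zero_add]
  rfl

theorem D_lA (f : (AA k).R) : (XX k).D 0 (lA f) = 0 := vx_ext fun x => by
  have h1 := fderiv_cph (v := vA k) (0 : Fin k → ℝ) (tlX k) f x (Pi.single 0 1)
  refine Eq.trans (b := fderiv ℝ (va f) (0 + tlX k x) (tlX k (Pi.single 0 1))) h1 ?_
  have h2 : tlX k (Pi.single 0 1) = 0 := by
    funext a
    show (Pi.single 0 (1 : ℝ) : Fin (k + 1) → ℝ) a.succ = 0
    rw [Pi.single_eq_of_ne (Fin.succ_ne_zero a)]
  rw [h2, map_zero]
  rfl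

theorem D_zero' : (XX k).D 0 0 = 0 := map_zero ((XX k).d 0)

theorem iter_zero (n : ℕ) : ((XX k).D 0)^[n] 0 = 0 := by
  induction n with
  | zero => rfl
  | succ n ih => rw [Function.iterate_succ_apply, D_zero', ih]

theorem τX_lA (f : (AA k).R) : τX (lA f) = cst f := by
  apply cf_ext
  intro n
  rw [cf_τX, cf_cst]
  cases n with
  | zero =>
    rw [if_pos rfl, Nat.factorial_zero, Nat.cast_one, inv_one, one_smul]
    exact va_ext fun x => by
      show va ((HX k).res (lA f)) x = _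
      rw [va_res, vx_lA]
      rfl
  | succ n =>
    rw [Function.iterate_succ_apply, D_lA, iter_zero, map_zero, smul_zero,
      if_neg (Nat.succ_ne_zero n)]

/-- the coordinate `x₀` -/
noncomputable def rX' (k : ℕ) : (XX k).R :=
  mkC (v := vX k) (fun x => x 0) (contDiff_apply ℝ ℝ 0) (fun l hl x => by
    obtain ⟨a, rfl⟩ := hl
    rw [Pi.add_apply, Pi.single_eq_of_ne (Fin.succ_ne_zero a).symm, add_zero])

theorem vx_rX (x : Fin (k + 1) → ℝ) : vx (rX' k) x = x 0 := rfl

theorem D_rX : (XX k).D 0 (rX' k) = 1 := vx_ext fun x => by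
  show fderiv ℝ (fun x : Fin (k + 1) → ℝ => x 0) x (Pi.single 0 1) = 1
  have h : HasFDerivAt (fun x : Fin (k + 1) → ℝ => x 0)
      (ContinuousLinearMap.proj (R := ℝ) (φ := fun _ : Fin (k + 1) => ℝ) 0) x :=
    (ContinuousLinearMap.proj (R := ℝ) (φ := fun _ : Fin (k + 1) => ℝ) 0).hasFDerivAt
  rw [h.fderiv]
  simp

theorem τX_rX : τX (rX' k) = rr (AA k) := by
  apply cf_ext
  intro n
  rw [cf_τX, cf_rr]
  rcases n with _ | _ | n
  · rw [if_neg (by norm_num), Nat.factorial_zero, Nat.cast_one, inv_one, one_smul]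
    exact va_ext fun x => by
      show va ((HX k).res (rX' k)) x = _
      rw [va_res, vx_rX]
      rfl
  · rw [if_pos rfl]
    show (((0 + 1 : ℕ).factorial : ℕ) : ℝ)⁻¹ • (HX k).res ((XX k).D 0 (rX' k)) = 1
    rw [D_rX, map_one]
    norm_num
  · rw [if_neg (by omega), Function.iterate_succ_apply, Function.iterate_succ_apply, D_rX]
    have : (XX k).D 0 1 = 0 := Derivation.map_one_eq_zero ((XX k).d 0)
    rw [this, iter_zero, map_zero, smul_zero]

/-- functions vanishing near the hypersurface -/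
theorem τX_near {f : (XX k).R} {ε : ℝ} (hε : 0 < ε) (h : ∀ x, |x 0| < ε → vx f x = 0) :
    τX f = 0 := by
  have key : ∀ (n : ℕ) (f : (XX k).R), (∀ x, |x 0| < ε → vx f x = 0) →
      ∀ x, |x 0| < ε → vx (((XX k).D 0)^[n] f) x = 0 := by
    intro n
    induction n with
    | zero => intro f h; exact h
    | succ n ih =>
      intro f h
      rw [Function.iterate_succ_apply]
      refine ih _ fun x hx => ?_
      show fderiv ℝ (vx f) x (Pi.single 0 1) = 0
      have hopen : IsOpen {y : Fin (k + 1) → ℝ | |y 0| < ε} :=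
        isOpen_lt (continuous_abs.comp (continuous_apply 0)) continuous_const
      have h1 : vx f =ᶠ[nhds x] fun _ => 0 := by
        filter_upwards [hopen.mem_nhds hx] with y hy
        exact h y hy
      rw [h1.fderiv_eq]
      simp
  apply cf_ext
  intro n
  rw [cf_τX, cf_zero]
  have : (HX k).res (((XX k).D 0)^[n] f) = 0 := va_ext fun x => by
    rw [va_res, key n f h _ (by simpa using hε)]
    rfl
  rw [this, smul_zero]

/-- a bounded function with the Taylor series of `x₀` -/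
theorem ex_s {δ : ℝ} (hδ : 0 < δ) : ∃ s : (XX k).R, (∀ x, |vx s x| ≤ δ) ∧ τX s = rr (AA k) := by
  let φ : ContDiffBump (0 : ℝ) := ⟨δ / 2, δ, by linarith, by linarith⟩
  let s : (XX k).R := mkC (v := vX k) (fun x => x 0 * φ (x 0))
    ((contDiff_apply ℝ ℝ 0).mul (φ.contDiff.comp (contDiff_apply ℝ ℝ 0))) (fun l hl x => by
      obtain ⟨a, rfl⟩ := hl
      have : (x + (Pi.single a.succ 1 : Fin (k + 1) → ℝ)) 0 = x 0 := by
        rw [Pi.add_apply, Pi.single_eq_of_ne (Fin.succ_ne_zero a).symm, add_zero]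
      rw [this])
  have hs : ∀ x, vx s x = x 0 * φ (x 0) := fun x => rfl
  refine ⟨s, fun x => ?_, ?_⟩
  · rw [hs]
    rcases le_or_gt δ |x 0| with h | h
    · rw [φ.zero_of_le_dist (by rw [dist_zero_right]; exact h), mul_zero, abs_zero]
      exact hδ.le
    · rw [abs_mul, abs_of_nonneg φ.nonneg]
      calc |x 0| * φ (x 0) ≤ |x 0| * 1 := mul_le_mul_of_nonneg_left φ.le_one (abs_nonneg _)
        _ ≤ δ := by linarith
  · have h1 : τX (s - rX' k) = 0 := τX_near (ε := δ / 2) (by linarith) fun x hx => by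
      rw [vx_sub, hs, vx_rX, φ.one_of_mem_closedBall (by
        rw [Metric.mem_closedBall, dist_zero_right]
        exact hx.le)]
      ring
    have h2 : τX (s - rX' k) = τX s - τX (rX' k) := map_sub _ _ _
    rw [h2, τX_rX, sub_eq_zero] at h1
    exact h1

/-! ### positivity -/

theorem per_red (x : Fin k → ℝ) : ∃ y ∈ Set.Icc (0 : Fin k → ℝ) 1, ∀ f : (AA k).R, va f x = va f y := by
  refine ⟨x + ∑ b : Fin k, Pi.single b (((-⌊x b⌋ : ℤ) : ℝ)), ?_, fun f =>
    (per_int (va_per f) Finset.univ (fun a => -⌊x a⌋) x).symm⟩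
  have h2 : ∀ a, (x + ∑ b : Fin k, Pi.single b (((-⌊x b⌋ : ℤ) : ℝ))) a = Int.fract (x a) := by
    intro a
    simp only [Pi.add_apply, Finset.sum_apply, Pi.single_apply]
    simp [Int.fract, sub_eq_add_neg]
  constructor
  · intro a
    rw [h2]; exact Int.fract_nonneg _
  · intro a
    rw [h2]; exact (Int.fract_lt_one _).le

theorem pos_delta {n : ℕ} (M : ℕ) (h : ℕ → Fin n → Fin n → (AA k).R)
    (hs : ∀ m i j, h m i j = h m j i)
    (hp : ∀ x, (Matrix.of fun i j => va (h 0 i j) x).PosDef) :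
    ∃ δ > 0, ∀ s : ℝ, |s| ≤ δ → ∀ x : Fin k → ℝ,
      (Matrix.of fun i j => ∑ m ∈ Finset.range (M + 1), va (h m i j) x * s ^ m).PosDef := by
  let q : ℝ × ((Fin k → ℝ) × (Fin n → ℝ)) → ℝ := fun p =>
    ∑ i, p.2.2 i * ∑ j, (∑ m ∈ Finset.range (M + 1), va (h m i j) p.2.1 * p.1 ^ m) * p.2.2 j
  have hq : Continuous q := by
    refine continuous_finsetSum _ fun i _ => ?_
    refine ((continuous_apply i).comp (continuous_snd.comp continuous_snd)).mul ?_
    refine continuous_finsetSum _ fun j _ => ?_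
    refine Continuous.mul ?_ ((continuous_apply j).comp (continuous_snd.comp continuous_snd))
    refine continuous_finsetSum _ fun m _ => ?_
    exact ((va_cont (h m i j)).comp (continuous_fst.comp continuous_snd)).mul
      (continuous_fst.pow m)
  have hqd : ∀ s x v, q (s, x, v) = star v ⬝ᵥ (Matrix.of fun i j =>
      ∑ m ∈ Finset.range (M + 1), va (h m i j) x * s ^ m).mulVec v := fun s x v => rfl
  have h0 : ∀ x, (Matrix.of fun i j => ∑ m ∈ Finset.range (M + 1), va (h m i j) x * (0 : ℝ) ^ m)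
      = Matrix.of fun i j => va (h 0 i j) x := by
    intro x
    ext i j
    show (∑ m ∈ Finset.range (M + 1), va (h m i j) x * (0 : ℝ) ^ m) = va (h 0 i j) x
    rw [Finset.sum_range_succ']
    simp
  have hU : IsOpen {p | 0 < q p} := isOpen_lt continuous_const hq
  have hK : IsCompact (Set.Icc (0 : Fin k → ℝ) 1 ×ˢ Metric.sphere (0 : Fin n → ℝ) 1) :=
    isCompact_Icc.prod (isCompact_sphere _ _)
  obtain ⟨u, v, hu, hv, h0u, hKv, huv⟩ := generalized_tube_lemma (s := {(0 : ℝ)})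
    isCompact_singleton hK hU (by
      rintro ⟨s, x, v⟩ ⟨hs0, -, hv⟩
      have hs0' : s = 0 := hs0
      subst hs0'
      show 0 < q (0, x, v)
      rw [hqd, h0]
      refine (hp x).dotProduct_mulVec_pos ?_
      intro hv0
      rw [hv0] at hv
      simp at hv)
  obtain ⟨ε, hε, hεu⟩ := Metric.isOpen_iff.mp hu 0 (h0u rfl)
  refine ⟨ε / 2, by linarith, fun s hs' x => ?_⟩
  refine Matrix.PosDef.of_dotProduct_mulVec_pos ?_ fun w hw => ?_
  · ext i j
    show star (∑ m ∈ Finset.range (M + 1), va (h m j i) x * s ^ m) = _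
    simp only [hs _ j i]
    rfl
  · obtain ⟨y, hy, hxy⟩ := per_red x
    have e1 : (Matrix.of fun i j => ∑ m ∈ Finset.range (M + 1), va (h m i j) x * s ^ m)
        = Matrix.of fun i j => ∑ m ∈ Finset.range (M + 1), va (h m i j) y * s ^ m := by
      ext i j
      show (∑ m ∈ Finset.range (M + 1), va (h m i j) x * s ^ m) = _
      simp only [hxy]
      rfl
    rw [e1, ← hqd]
    have hn : 0 < ‖w‖ := norm_pos_iff.mpr hw
    have h1 : 0 < q (s, y, ‖w‖⁻¹ • w) := by
      refine huv (Set.mk_mem_prod (hεu ?_) (hKv (Set.mk_mem_prod hy ?_)))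
      · rw [Metric.mem_ball, dist_zero_right]
        show |s| < ε
        linarith
      · rw [mem_sphere_zero_iff_norm, norm_smul, norm_inv, norm_norm, inv_mul_cancel₀ hn.ne']
    have h2 : q (s, y, ‖w‖⁻¹ • w) = ‖w‖⁻¹ * ‖w‖⁻¹ * q (s, y, w) := by
      show (∑ i, (‖w‖⁻¹ * w i) * ∑ j, (∑ m ∈ Finset.range (M + 1), va (h m i j) y * s ^ m)
        * (‖w‖⁻¹ * w j)) = ‖w‖⁻¹ * ‖w‖⁻¹ * ∑ i, w i * ∑ j,
          (∑ m ∈ Finset.range (M + 1), va (h m i j) y * s ^ m) * w j
      simp only [Finset.mul_sum]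
      refine Finset.sum_congr rfl fun i _ => Finset.sum_congr rfl fun j _ => by ring
    rw [h2] at h1
    by_contra hneg
    push Not at hneg
    have : ‖w‖⁻¹ * ‖w‖⁻¹ * q (s, y, w) ≤ 0 :=
      mul_nonpos_of_nonneg_of_nonpos (by positivity) hneg
    linarith

/-! ### inverse metrics -/

theorem ex_gi {g : Fin (k + 1) → Fin (k + 1) → (XX k).R} (hs : ∀ i j, g i j = g j i)
    (hp : ∀ x, (Matrix.of fun i j => vx (g i j) x).PosDef) :
    ∃ gi : Fin (k + 1) → Fin (k + 1) → (XX k).R, IsMetric g gi := by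
  have hd : ∀ x, vx (Matrix.of g).det x ≠ 0 := by
    intro x
    have h1 : vx (Matrix.of g).det x = (Matrix.of fun i j => vx (g i j) x).det :=
      RingHom.map_det (evX x : (XX k).R →+* ℝ) (Matrix.of g)
    rw [h1]
    exact (hp x).det_pos.ne'
  obtain ⟨u, hu⟩ : ∃ u : (XX k).R, (Matrix.of g).det * u = 1 :=
    ex_inv_vl (v := vX k) (Matrix.of g).det hd
  refine ⟨fun i j => u * (Matrix.of g).adjugate i j, ⟨hs, fun i j => ?_⟩⟩
  have h1 := congrFun (congrFun (Matrix.mul_adjugate (Matrix.of g)) i) j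
  rw [Matrix.mul_apply] at h1
  have h2 : ∑ p, g i p * (u * (Matrix.of g).adjugate p j)
      = u * ∑ p, (Matrix.of g) i p * (Matrix.of g).adjugate p j := by
    rw [Finset.mul_sum]
    refine Finset.sum_congr rfl fun p _ => ?_
    show g i p * _ = u * (g i p * _)
    ring
  rw [h2, h1]
  show u * ((Matrix.of g).det * (1 : Matrix (Fin (k + 1)) (Fin (k + 1)) (XX k).R) i j) = _
  rw [Matrix.one_apply, ← mul_assoc, mul_comm u]
  have hu' : (Matrix.of g).det * u = 1 := hu
  rw [hu', one_mul]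

/-! ### realisation -/

theorem cf_lin (M m : ℕ) (c : ℕ → (AA k).R) (hm : m < M) :
    cf m (∑ n ∈ Finset.range M, cst (c n) * rr (AA k) ^ n) = c m := by
  rw [cf_sum]
  simp only [cf_cst_mul, cf_rr_pow]
  rw [Finset.sum_eq_single m]
  · rw [if_pos rfl, mul_one]
  · intro n _ hn
    rw [if_neg (Ne.symm hn), mul_zero]
  · intro h; exact absurd (Finset.mem_range.mpr hm) h

theorem realise {b : HD (AA k)} (hb : Fer b) (hP : (JA k).P b.G) (M : ℕ) (ω : (AA k).ps.R) :
    ∃ (m : Mt (HX k)) (ω' : (XX k).R), Pos m ∧ m.N = 1 ∧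
      (∀ i j, O (M + 1) (τX (m.g i j) - gX b i j)) ∧ O (M + 1) (τX ω' - ω) := by
  obtain ⟨δ, hδ, hpos⟩ := pos_delta M (hj b) (fun m i j => hb.hj_symm m i j) hP
  obtain ⟨s, hs1, hs2⟩ := ex_s (k := k) hδ
  let g : Fin (k + 1) → Fin (k + 1) → (XX k).R := fun i j =>
    ∑ n ∈ Finset.range (M + 1), lA (hj b n i j) * s ^ n
  have hg : ∀ i j, g i j = g j i := fun i j => by
    show (∑ n ∈ Finset.range (M + 1), lA (hj b n i j) * s ^ n) = _
    refine Finset.sum_congr rfl fun n _ => ?_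
    rw [hb.hj_symm]
  have hgp : ∀ x, (Matrix.of fun i j => vx (g i j) x).PosDef := by
    intro x
    have h1 := hpos (vx s x) (hs1 x) (fun a => x a.succ)
    have e : (Matrix.of fun i j => vx (g i j) x) = (Matrix.of fun i j =>
        ∑ m ∈ Finset.range (M + 1), va (hj b m i j) (fun a => x a.succ) * vx s x ^ m) := by
      ext i j
      show vx (∑ n ∈ Finset.range (M + 1), lA (hj b n i j) * s ^ n) x = _
      rw [vx_sum]
      refine Finset.sum_congr rfl fun n _ => ?_
      rw [vx_mul, vx_lA, vx_pow]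
    rw [e]; exact h1
  obtain ⟨gi, hgi⟩ := ex_gi hg hgp
  have hl1 : lA (1 : (AA k).R) = 1 := map_one (cph (v := vA k) (v' := vX k) (Λ := PA k)
    (Λ' := PX k) 0 (tlX k) tlX_PA)
  have hl0 : lA (0 : (AA k).R) = 0 := map_zero (cph (v := vA k) (v' := vX k) (Λ := PA k)
    (Λ' := PX k) 0 (tlX k) tlX_PA)
  have hg00 : g 0 0 = 1 := by
    show (∑ n ∈ Finset.range (M + 1), lA (hj b n 0 0) * s ^ n) = 1
    rw [Finset.sum_range_succ', Finset.sum_eq_zero fun n _ => ?_]
    · show 0 + lA (b.G 0 0) * s ^ 0 = 1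
      rw [hb.g00, hl1]; ring
    · rw [hb.hj_zero, hl0, zero_mul]
  have hg0 : ∀ a : Fin k, g 0 a.succ = 0 := by
    intro a
    show (∑ n ∈ Finset.range (M + 1), lA (hj b n 0 a.succ) * s ^ n) = 0
    rw [Finset.sum_range_succ', Finset.sum_eq_zero fun n _ => ?_]
    · show 0 + lA (b.G 0 a.succ) * s ^ 0 = 0
      rw [hb.g0, hl0]; ring
    · rw [hb.hj_zero, hl0, zero_mul]
  have hgi00 : gi 0 0 = 1 := by
    have h := hgi.inv 0 0
    rw [if_pos rfl, Fin.sum_univ_succ, hg00, one_mul] at h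
    simp only [hg0, zero_mul, Finset.sum_const_zero, add_zero] at h
    exact h
  have hτ : ∀ c : ℕ → (AA k).R, τX (∑ n ∈ Finset.range (M + 1), lA (c n) * s ^ n)
      = ∑ n ∈ Finset.range (M + 1), cst (c n) * rr (AA k) ^ n := by
    intro c
    have h1 : ∀ f : (XX k).R, τX f = ((HX k).tay (DH.id (AA k))).f f := fun f => rfl
    rw [h1, map_sum]
    refine Finset.sum_congr rfl fun n _ => ?_
    rw [map_mul, map_pow, ← h1, ← h1, τX_lA, hs2]
  refine ⟨⟨g, gi, hgi, 1, by rw [hgi00, map_one]; ring⟩,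
    ∑ n ∈ Finset.range (M + 1), lA (cf n ω) * s ^ n, hgp, rfl, fun i j m hm => ?_, fun m hm => ?_⟩
  · show cf m (τX (∑ n ∈ Finset.range (M + 1), lA (hj b n i j) * s ^ n) - gX b i j) = 0
    rw [hτ, cf_sub, cf_lin (M + 1) m _ hm, cf_gX, sub_self]
  · rw [hτ, cf_sub, cf_lin (M + 1) m _ hm, sub_self]

end Run7.h96.Hy

end

section

/-!
From the invariance of total integrals to the infinitesimal invariance for Fermi data.
-/

set_option linter.all false
set_option maxHeartbeats 400000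

open scoped BigOperators
open MeasureTheory

namespace Run7.h96.Hy

open CInv

variable {k : ℕ}

/-- the scalar of Fermi data given by a formula -/
noncomputable def scP (P : Fml Fa ρa 0) : Sc k := fun X b => P.eval X (b.setF (hFf X b)) ![]

theorem scP_fmt {A : DR (k + 1)} {b : HD A} (hb : Fer b) (P : Fml Fa ρa 0) :
    scP P A b = P.eval A (fmt hb).hyp ![] := by
  rw [fmt_hyp]; rfl

theorem scP_cb {A : DR (k + 1)} {b : HD A} (hb : Fer b) (ω : A.ps.R) (P : Fml Fa ρa 0) :
    scP P A.dual (cb b ω) = P.eval A.dual (im (fmt hb) ω).hyp ![] := by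
  rw [im_fmt]; rfl

/-- uniqueness of the density up to a factor -/
theorem dens_vol {b : HD (AA k)} {w w1 : (AA k).R} (hw : Vol (JA k) b w)
    (h1 : ∀ x, 0 < va w1 x) (h2 : w1 * w1 = (Matrix.of b.G).det) : ∃ c : ℝ, w = c • w1 := by
  obtain ⟨w0, hw0, hsq, hpos⟩ := ex_vol hw.pd
  have e : w0 = w1 := va_ext fun x => by
    have h3 := congrArg (fun f => va f x) (hsq.trans h2.symm)
    simp only [va_mul] at h3
    have h4 := hpos x
    have h5 := h1 x
    nlinarith
  subst e
  exact vol_unique hw.jac hw0.jac (fun x => (hpos x).ne')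

theorem hi_of (P : Fml Fa ρa 0)
    (h : ∀ m : Mt (HX k), Pos m → ∀ ω, total P (conf m ω) = total P m) : HI (JA k) (scP P) := by
  intro b hb w hw ω
  obtain ⟨M, hM⟩ := Fml.trunc (k := k) P
  obtain ⟨m, ω', hm, hN, hg, hω⟩ := realise hb hw.pd (M + 1) ω
  have hcf : cf 0 (τX ω') = cf 0 ω := cf0_of_O (N := M + 1) hω
  have e1 : P.eval (AA k) (fm m).hyp = P.eval (AA k) (fmt hb).hyp :=
    hM (AA k) _ (fm m) (fmt hb) hN (fun i j => hg i j)
  have e2 : P.eval (AA k).dual (im (fm m) (τX ω')).hyp = P.eval (AA k).dual (im (fmt hb) ω).hyp := by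
    refine hM (AA k).dual _ (im (fm m) (τX ω')) (im (fmt hb) ω) ?_ ?_
    · show cf 0 (1 + ee (AA k) * lf (τX ω')) * (inlH (AA k)).f m.N
        = cf 0 (1 + ee (AA k) * lf ω) * (inlH (AA k)).f 1
      rw [cf_add, cf_add, cf_ee_mul, cf_ee_mul, cf_lf, cf_lf, hcf, hN]
    · intro i j
      show O (M + 2) ((1 + ee (AA k) * lf (τX ω')) * (1 + ee (AA k) * lf (τX ω')) * lf (τX (m.g i j))
        - (1 + ee (AA k) * lf ω) * (1 + ee (AA k) * lf ω) * lf (gX b i j))
      have h1 : O (M + 2) ((1 + ee (AA k) * lf (τX ω')) - (1 + ee (AA k) * lf ω)) := by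
        have e : (1 + ee (AA k) * lf (τX ω')) - (1 + ee (AA k) * lf ω)
            = ee (AA k) * lf (τX ω' - ω) := by
          have : lf (τX ω' - ω) = lf (τX ω') - lf ω := by
            rw [sub_eq_add_neg, lf_add]
            have h := lf_smul (-1) ω
            simp only [neg_smul, one_smul] at h
            rw [h, ← sub_eq_add_neg]
          rw [this]; ring
        rw [e]
        exact (O_lf hω).mul_left _
      have h2 : O (M + 2) (lf (τX (m.g i j)) - lf (gX b i j)) := by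
        have : lf (τX (m.g i j) - gX b i j) = lf (τX (m.g i j)) - lf (gX b i j) := by
          rw [sub_eq_add_neg, lf_add]
          have h := lf_smul (-1) (gX b i j)
          simp only [neg_smul, one_smul] at h
          rw [h, ← sub_eq_add_neg]
        rw [← this]
        exact O_lf (hg i j)
      exact O_mul_sub (O_mul_sub h1 h1) h2
  have hG : m.hyp.G = b.G := by
    funext i j
    show ext 1 (fun a c => (HX k).res (m.g a.succ c.succ)) i j = b.G i j
    have h3 : ∀ i j, (HX k).res (m.g i j) = b.G i j := fun i j => by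
      rw [← cf0_τX, cf0_of_O (N := M + 1) (hg i j), cf_gX]; rfl
    simp only [h3]
    refine Fin.cases ?_ (fun a => ?_) i <;> refine Fin.cases ?_ (fun c => ?_) j
    · exact hb.g00.symm
    · exact (hb.g0 c).symm
    · rw [b.symm a.succ 0]
      exact (hb.g0 a).symm
    · rfl
  obtain ⟨w1, hw1, hw2, hw3⟩ := ex_dens hm
  rw [hG] at hw3
  obtain ⟨c, rfl⟩ := dens_vol hw hw1 hw3
  have h4 := total_inf P hm ω' (fun t => h m hm (t • ω')) hw2
  rw [e2, ← fm_hyp m, e1, ← scP_fmt, ← scP_cb, ← cf0_τX, hcf] at h4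
  show IA k _ = 0
  rw [mul_smul_comm, map_smul, h4, smul_zero]

end Run7.h96.Hy

end

section

/-!
Formulas for the terms of the decomposition, and covariance under finite conformal changes.
-/

set_option linter.all false
set_option maxHeartbeats 400000

open scoped BigOperators
open MeasureTheory

namespace Run7.h96.Hy

open CInv

variable {k : ℕ}

open Classical in
/-- normal forms of metrics on `ℝ × T^k` -/
theorem nf_m (m : Mt (HX k)) : ∃ (b : HD (AA k)), Fer b ∧ b.scl Nt 0 = b ∧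
    m.hyp = b.setF (hFf (AA k) b) := by
  obtain ⟨b, hb, φ, J, K, hH, hg, hgi, hN, hz⟩ := fermi_nf (fm m)
  exact ⟨b, hb, hz, (fm_hyp m).symm.trans (fermi_hyp (hb := hb) hH hg hgi hN)⟩

open Classical in
theorem ns_fml {T : Sc k} (h : NS Set.univ T) : ∃ T' : Fml Fa ρa 0, ∀ (X : DR (k + 1)) (b : HD X),
    Fer b → b.scl Nt 0 = b → T X b = T'.eval X (b.setF (hFf X b)) ![] := by
  obtain ⟨T1, h1, h2⟩ := NB.of h
  obtain ⟨T2, h3⟩ := h1.toFml
  refine ⟨T2, fun X b hb hz => ?_⟩
  rw [h3, ← h2 X b hb]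
  beta_reduce
  rw [hz]

open Classical in
theorem nv_fml {V : ∀ X : DR (k + 1), HD X → Fin (k + 1) → X.R} (h : NV V) :
    ∃ V' : Fml Fa ρa 1, ∀ (X : DR (k + 1)) (b : HD X),
    Fer b → b.scl Nt 0 = b → ∀ i, V X b i = V'.eval X (b.setF (hFf X b)) (fun _ => i) := by
  obtain ⟨T1, h1, h2⟩ := NB.of h
  obtain ⟨T2, h3⟩ := h1.toFml
  refine ⟨T2, fun X b hb hz i => ?_⟩
  rw [h3, ← h2 X b hb]
  beta_reduce
  rw [hz]

/-- the divergence `∇^i V_i` of a covector -/
def Fml.dv {J : Type} {ρ : J → ℕ} (V : Fml J ρ 1) : Fml J ρ 0 :=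
  .contr (finSuccEquiv 1 |>.trans (Equiv.optionCongr (finSuccEquiv 0)))
    (.deriv (finSuccEquiv 1).symm V)

theorem Fml.dv_eval {J : Type} {ρ : J → ℕ} {n : ℕ} {X : DR n} (b : BD X J ρ) (V : Fml J ρ 1)
    (K : Fin 0 → Fin n) :
    V.dv.eval X b K = dvg X.d b.A b.Gi (fun i => V.eval X b (fun _ => i)) := by
  show (∑ i, ∑ j, b.Gi i j * (X.d i (V.eval X b _) - act (b.A i) (V.eval X b) _)) = _
  unfold dvg
  refine Finset.sum_congr rfl fun i _ => Finset.sum_congr rfl fun j _ => ?_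
  congr 1
  have e0 : ∀ f : Fin 1 → Fin n, f = fun _ => f 0 := fun f => by
    funext s
    rw [Subsingleton.elim s 0]
  congr 1
  · congr 2
    funext s
    rw [Subsingleton.elim s 0]
    rfl
  · unfold act
    rw [Fin.sum_univ_one]
    refine Finset.sum_congr rfl fun l _ => ?_
    congr 1
    congr 1
    funext s
    rw [Subsingleton.elim s 0, Function.update_self]

/-- infinitesimal covariance gives finite covariance -/
theorem fin_cov (W : Fml Fa ρa 0) (n : ℕ)
    (h : ∀ m : Mt (HX k), Pos m → ∀ ω : (XX k).R,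
      sn (W.eval (AA k).dual (im (fm m) (τX ω)).hyp ![])
        + (n : ℝ) • ((HX k).res ω * W.eval (AA k) m.hyp ![]) = 0)
    {m : Mt (HX k)} (hm : Pos m) (ω : (XX k).R) :
    (HX k).res (eX ω) ^ n * W.eval (AA k) (conf m ω).hyp ![] = W.eval (AA k) m.hyp ![] := by
  set F : (AT k).R := W.eval (AT k) (fam m ω).hyp ![] with hF
  set E : (AT k).R := (HT' k).res (eT ω) with hE
  set G : (AT k).R := F * E ^ n with hG
  have hEv : ∀ t, (evA' t).f E = (HX k).res (eX (t • ω)) := fun t => by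
    rw [hE, ← res_ev, ev_eT]
  have hdE : dAT E = cA'.f ((HX k).res ω) * E := by
    rw [hE, ← res_dT, d_eT, map_mul, res_c]
  have hdG : dAT G = (dAT F + (n : ℝ) • (cA'.f ((HX k).res ω) * F)) * E ^ n := by
    rw [hG, Derivation.leibniz, der_pow dAT hdE]
    simp only [smul_eq_mul, Algebra.smul_def]
    ring
  have h0 : ∀ t, (evA' t).f (dAT G) = 0 := by
    intro t
    have e1 := fam_sn W m ω t ![]
    rw [hdG, map_mul, map_add, map_smul, map_mul, evA_c, hF, e1.1, e1.2,
      h (conf m (t • ω)) (hm.conf _) ω, zero_mul]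
  have h1 : ∀ x, vAT G (1, x) = vAT G (0, x) := by
    intro x
    have hd : ∀ t, HasDerivAt (fun t => vAT G (t, x)) 0 t := by
      intro t
      have e := diff_pt G t x
      rw [← va_evA', h0] at e
      exact e
    exact is_const_of_deriv_eq_zero (fun t => (hd t).differentiableAt) (fun t => (hd t).deriv) 1 0
  have h2 : (evA' 1).f G = (evA' 0).f G := va_ext fun x => by rw [va_evA', va_evA', h1]
  rw [hG, map_mul, map_mul, map_pow, map_pow, hEv, hEv, hF, (fam_sn W m ω 1 ![]).1,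
    (fam_sn W m ω 0 ![]).1, conf_zero, one_smul] at h2
  have e2 : (HX k).res (eX ((0 : ℝ) • ω)) = 1 := va_ext fun x => by
    rw [va_res, vx_eX, vx_smul, zero_mul, Real.exp_zero, va_one]
  rw [e2, one_pow, mul_one] at h2
  rw [← h2]; ring

open Classical in
/-- the weight `k` part -/
theorem wk_part (hk : 1 ≤ k) (Q : Fml Fa ρa 0) (hQ : NS (EW (k : WithTop ℤ)) (scP (k := k) Q))
    (h : ∀ m : Mt (HX k), Pos m → ∀ ω, total Q (conf m ω) = total Q m) :
    ∃ (K0 : Sc k) (W : Fml Fa ρa 0) (V : Fml Fa ρa 1), NS (E0 k) K0 ∧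
      (∀ m : Mt (HX k), Pos m → ∀ b : HD (AA k), Fer b → b.scl Nt 0 = b →
        m.hyp = b.setF (hFf (AA k) b) →
        Q.eval (AA k) m.hyp ![] = K0 (AA k) b + W.eval (AA k) m.hyp ![]
          + V.dv.eval (AA k) m.hyp ![]) ∧
      ∀ m : Mt (HX k), Pos m → ∀ ω : (XX k).R,
        (HX k).res (eX ω) ^ k * W.eval (AA k) (conf m ω).hyp ![] = W.eval (AA k) m.hyp ![] := by
  obtain ⟨K0, W, V, hK0, hW, hV, hdec, hcov⟩ := core hk (J := JA k)
    (fun b hb hP => by obtain ⟨w, hw, -⟩ := ex_vol hP; exact ⟨w, hw⟩) hQ (hi_of Q h)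
  obtain ⟨W', hW'⟩ := ns_fml hW
  obtain ⟨V', hV'⟩ := nv_fml hV
  refine ⟨K0, W', V', hK0, ?_, fun m hm ω => fin_cov W' k (fun m hm ω => ?_) hm ω⟩
  · intro m hm b hb hz hmb
    have hP : (JA k).P b.G := by
      have := hm.hyp
      rw [hmb] at this
      exact this
    have h1 := hdec b hb hP
    have h2 : zr (scP Q) (AA k) b = Q.eval (AA k) m.hyp ![] := by
      show scP Q (AA k) (b.scl Nt 0) = _
      rw [hz, hmb]; rfl
    rw [← h2, h1, hW' _ b hb hz, hmb, Fml.dv_eval]
    congr 1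
    show dvg (AA k).d b.A b.Gi (V (AA k) b) = dvg (AA k).d b.A b.Gi _
    congr 1
    funext i
    exact hV' _ b hb hz i
  · obtain ⟨b, hb, φ, J, K, hH, hg, hgi, hN, hz⟩ := fermi_nf (fm m)
    have h1 := im_hyp (hb := hb) hH hg hgi hN (τX ω)
    have h2 : m.hyp = b.setF (hFf (AA k) b) :=
      (fm_hyp m).symm.trans (fermi_hyp (hb := hb) hH hg hgi hN)
    have hP : (JA k).P b.G := by
      have := hm.hyp
      rw [h2] at this
      exact this
    have h3 := hcov b hb hP (φ (τX ω))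
    have hz' : (cb b (φ (τX ω))).scl Nt 0 = cb b (φ (τX ω)) := by
      rw [cb_scl b Nt_Sh, hz]
    have h4 : cf 0 (φ (τX ω)) = (HX k).res ω := by
      have := hH.hr (τX ω)
      have h5 : cf 0 (φ (τX ω)) = cf 0 (τX ω) := this
      rw [h5, cf0_τX]
    rw [hW' _ _ (hb.cb _) hz', hW' _ b hb hz, h4, ← h1, ← h2] at h3
    exact h3

end Run7.h96.Hy

end
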