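import Pool.Agent.Run7.h96.K09

section

/-!
Behaviour of natural tensors under constant rescalings of the metric and of the frame.
-/

set_option linter.all false
set_option maxHeartbeats 400000

open scoped BigOperators

namespace Run7.h96.Hy

open CInv

variable {k : ℕ}

/-- product data: the metric is `const ⊕ ḡ` and the derivation `d 0` vanishes -/
structure Pd {A : DR (k + 1)} {J : Type} {ρ : J → ℕ} (b : BD A J ρ) : Prop where
  d0 : ∀ f, A.d 0 f = 0
  g00 : ∀ i, A.d i (b.G 0 0) = 0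
  g0 : ∀ a : Fin k, b.G 0 a.succ = 0
  gi0 : ∀ a : Fin k, b.Gi 0 a.succ = 0

section PdL

variable {A : DR (k + 1)} {J : Type} {ρ : J → ℕ} {b : BD A J ρ}

theorem Pd.dG (h : Pd b) (i m p : Fin (k + 1)) (hz : i = 0 ∨ m = 0 ∨ p = 0) :
    A.d i (b.G m p) = 0 := by
  rcases hz with rfl | rfl | rfl
  · exact h.d0 _
  · refine Fin.cases ?_ (fun a => ?_) p
    · exact h.g00 i
    · rw [h.g0, map_zero]
  · refine Fin.cases ?_ (fun a => ?_) m
    · exact h.g00 i
    · rw [b.symm, h.g0, map_zero]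

theorem Pd.A0 (h : Pd b) (i l m : Fin (k + 1)) (hz : i = 0 ∨ l = 0 ∨ m = 0) : b.A i l m = 0 := by
  unfold BD.A chr
  have key : ∀ p, b.Gi l p * (A.D i (b.G m p) + A.D m (b.G i p) - A.D p (b.G i m)) = 0 := by
    intro p
    have h1 : ∀ i m p, (i = 0 ∨ m = 0 ∨ p = 0) → A.D i (b.G m p) = 0 := fun i m p hz => h.dG i m p hz
    rcases hz with hz | hz | hz
    · rw [h1 i m p (Or.inl hz), h1 m i p (Or.inr (Or.inl hz)), h1 p i m (Or.inr (Or.inl hz))]; ring
    · subst hz
      revert p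
      refine Fin.cases ?_ (fun a => ?_)
      · rw [h1 i m 0 (Or.inr (Or.inr rfl)), h1 m i 0 (Or.inr (Or.inr rfl)), h1 0 i m (Or.inl rfl)]
        ring
      · rw [h.gi0, zero_mul]
    · rw [h1 i m p (Or.inr (Or.inl hz)), h1 m i p (Or.inl hz), h1 p i m (Or.inr (Or.inr hz))]; ring
  rw [Finset.sum_eq_zero fun p _ => key p, smul_zero]

theorem Pd.F0 (h : Pd b) (i j l m : Fin (k + 1)) (hz : i = 0 ∨ j = 0 ∨ l = 0 ∨ m = 0) :
    b.F i j l m = 0 := by
  unfold BD.F
  have h2 : ∀ p, b.A i l p * b.A j p m - b.A j l p * b.A i p m = 0 := by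
    intro p
    rcases hz with hz | hz | hz | hz
    · rw [h.A0 i l p (Or.inl hz), h.A0 i p m (Or.inl hz)]; ring
    · rw [h.A0 j p m (Or.inl hz), h.A0 j l p (Or.inl hz)]; ring
    · rw [h.A0 i l p (Or.inr (Or.inl hz)), h.A0 j l p (Or.inr (Or.inl hz))]; ring
    · rw [h.A0 j p m (Or.inr (Or.inr hz)), h.A0 i p m (Or.inr (Or.inr hz))]; ring
  rw [Finset.sum_eq_zero fun p _ => h2 p, add_zero]
  rcases hz with hz | hz | hz | hz
  · rw [h.A0 i l m (Or.inl hz), map_zero, hz, h.d0, sub_zero]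
  · rw [h.A0 j l m (Or.inl hz), map_zero, hz, h.d0, sub_zero]
  · rw [h.A0 j l m (Or.inr (Or.inl hz)), h.A0 i l m (Or.inr (Or.inl hz)), map_zero, map_zero,
      sub_zero]
  · rw [h.A0 j l m (Or.inr (Or.inr hz)), h.A0 i l m (Or.inr (Or.inr hz)), map_zero, map_zero,
      sub_zero]

end PdL

/-- frame factors -/
def fc (e s : ℝ) : Fin (k + 1) → ℝ := Fin.cons e (fun _ => s)

theorem fc_ne {e s : ℝ} (he : e ≠ 0) (hs : s ≠ 0) (i : Fin (k + 1)) : fc e s i ≠ 0 := by
  refine Fin.cases he (fun a => hs) i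

section Frm

variable {A : DR (k + 1)} {J : Type} {ρ : J → ℕ}

/-- rescaled data -/
noncomputable def BD.frm (e s : ℝ) (he : e ≠ 0) (hs : s ≠ 0) (w : J → ℕ) (b : BD A J ρ) :
    BD A J ρ where
  G i j := (fc e s i * fc e s j) • b.G i j
  Gi i j := ((fc e s i)⁻¹ * (fc e s j)⁻¹) • b.Gi i j
  Φ j K := (s⁻¹ ^ w j * ∏ u, fc e s (K u)) • b.Φ j K
  met := {
    symm := fun i j => by rw [b.symm, mul_comm]
    inv := fun i j => by
      have h1 : ∀ p, (fc e s i * fc e s p) • b.G i p * ((fc e s p)⁻¹ * (fc e s j)⁻¹) • b.Gi p j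
          = (fc e s i * (fc e s j)⁻¹) • (b.G i p * b.Gi p j) := by
        intro p
        rw [smul_mul_smul_comm]
        congr 1
        have := fc_ne he hs p
        field_simp
      rw [Finset.sum_congr rfl fun p _ => h1 p, ← Finset.smul_sum, b.inv]
      by_cases h : i = j
      · subst h
        rw [if_pos rfl, mul_inv_cancel₀ (fc_ne he hs i), one_smul]
      · rw [if_neg h, smul_zero] }

variable {e s : ℝ} (he : e ≠ 0) (hs : s ≠ 0) (w : J → ℕ) {b : BD A J ρ}

theorem Pd.frm (h : Pd b) : Pd (b.frm e s he hs w) where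
  d0 := h.d0
  g00 i := by
    show A.d i (_ • b.G 0 0) = 0
    rw [(A.d i).map_smul, h.g00, smul_zero]
  g0 a := by
    show _ • b.G 0 a.succ = 0
    rw [h.g0, smul_zero]
  gi0 a := by
    show _ • b.Gi 0 a.succ = 0
    rw [h.gi0, smul_zero]

theorem Pd.frm_A (h : Pd b) : (b.frm e s he hs w).A = b.A := by
  funext i l m
  by_cases hz : i = 0 ∨ l = 0 ∨ m = 0
  · rw [(h.frm he hs w).A0 i l m hz, h.A0 i l m hz]
  · push Not at hz
    obtain ⟨hi, hl, hm⟩ := hz
    obtain ⟨i, rfl⟩ := Fin.exists_succ_eq.mpr hi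
    obtain ⟨l, rfl⟩ := Fin.exists_succ_eq.mpr hl
    obtain ⟨m, rfl⟩ := Fin.exists_succ_eq.mpr hm
    unfold BD.A chr
    congr 1
    refine Finset.sum_congr rfl fun p _ => ?_
    have hD : ∀ i m p : Fin (k + 1), A.D i ((b.frm e s he hs w).G m p)
        = (fc e s m * fc e s p) • A.D i (b.G m p) := fun i m p => (A.d i).map_smul _ _
    rw [hD, hD, hD]
    refine Fin.cases ?_ (fun p => ?_) p
    · have h1 : (b.frm e s he hs w).Gi l.succ 0 = 0 := by
        rw [(b.frm e s he hs w).isymm]; exact (h.frm he hs w).gi0 l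
      have h2 : b.Gi l.succ 0 = 0 := by rw [b.isymm]; exact h.gi0 l
      rw [h1, h2, zero_mul, zero_mul]
    · show (s⁻¹ * s⁻¹) • b.Gi l.succ p.succ * ((s * s) • _ + (s * s) • _ - (s * s) • _) = _
      rw [← smul_add, ← smul_sub, smul_mul_smul_comm]
      have : s⁻¹ * s⁻¹ * (s * s) = 1 := by field_simp
      rw [this, one_smul]

theorem Pd.frm_F (h : Pd b) (i j l m : Fin (k + 1)) :
    (b.frm e s he hs w).F i j l m = b.F i j l m := by
  unfold BD.F
  rw [h.frm_A he hs w]

theorem Pd.curv0 (h : Pd b) (K : Fin 4 → Fin (k + 1)) (hz : ∃ u, K u = 0) : b.curv K = 0 := by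
  unfold BD.curv
  refine Finset.sum_eq_zero fun p _ => ?_
  obtain ⟨u, hu⟩ := hz
  have key : (K 0 = 0 ∨ K 1 = 0 ∨ p = 0 ∨ K 3 = 0) ∨ (K 2 = 0 ∧ p ≠ 0) := by
    by_cases hp : p = 0
    · left; right; right; left; exact hp
    · fin_cases u
      · left; left; exact hu
      · left; right; left; exact hu
      · right; exact ⟨hu, hp⟩
      · left; right; right; right; exact hu
  rcases key with h1 | ⟨h1, h2⟩
  · rw [h.F0 _ _ _ _ h1, mul_zero]
  · obtain ⟨p, rfl⟩ := Fin.exists_succ_eq.mpr h2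
    rw [h1, h.g0, zero_mul]

theorem Pd.DD0 (h : Pd b) {κ : Type} [Fintype κ] [DecidableEq κ] (T : (κ → Fin (k + 1)) → A.R)
    (K : Option κ → Fin (k + 1)) (hz : K none = 0) : DD A.d b.A T K = 0 := by
  unfold DD cov act
  rw [hz, h.d0]
  have : ∀ u : κ, ∀ l, b.A 0 l (K (some u)) * T (Function.update (fun u => K (some u)) u l) = 0 := by
    intro u l
    rw [h.A0 _ _ _ (Or.inl rfl), zero_mul]
  rw [Finset.sum_eq_zero fun u _ => Finset.sum_eq_zero fun l _ => this u l, sub_zero]

/-- scaling of natural tensors -/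
theorem HN.frm {g : Dg J} {r : ℕ} {T : Tn (k + 1) J ρ r} {L : Ln (k + 1) J ρ r}
    (hT : HN Set.univ g r T L) (h : Pd b) (K : Fin r → Fin (k + 1)) :
    T A (b.frm e s he hs w) K = (s⁻¹ ^ wg w g * ∏ u, fc e s (K u)) • T A b K := by
  induction hT with
  | one => rw [wg_zero]; simp
  | met =>
    rw [wg_zero, pow_zero, one_mul, Fin.prod_univ_two]
    rfl
  | curv =>
    beta_reduce
    by_cases hz : ∃ u, K u = 0
    · rw [h.curv0 K hz, (h.frm he hs w).curv0 K hz, smul_zero]
    · push Not at hz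
      have h2 : ∀ u, fc e s (K u) = s := by
        intro u
        obtain ⟨a, ha⟩ := Fin.exists_succ_eq.mpr (hz u)
        rw [← ha]; rfl
      have hw : wg w ((0, 2) : Dg J) = 2 := by simp [wg]
      rw [hw]
      simp only [h2, Finset.prod_const, Finset.card_univ, Fintype.card_fin]
      show (∑ p, (fc e s (K 2) * fc e s p) • b.G (K 2) p * (b.frm e s he hs w).F (K 0) (K 1) p (K 3))
        = _ • ∑ p, b.G (K 2) p * b.F (K 0) (K 1) p (K 3)
      rw [Finset.smul_sum]
      refine Finset.sum_congr rfl fun p _ => ?_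
      rw [h.frm_F]
      by_cases hp : p = 0
      · rw [h.F0 _ _ _ _ (Or.inr (Or.inr (Or.inl hp)))]; simp
      · obtain ⟨p, rfl⟩ := Fin.exists_succ_eq.mpr hp
        rw [h2, smul_mul_assoc]
        congr 1
        show s * s = s⁻¹ ^ 2 * s ^ 4
        field_simp
  | fieldV j hj =>
    have hw : wg w ((Finsupp.single j 1, 0) : Dg J) = w j := by simp [wg]
    rw [hw]; rfl
  | fieldC j hj => exact absurd (Set.mem_univ j) hj
  | zero g r => rw [smul_zero]
  | add _ _ h1 h2 => beta_reduce; rw [h1, h2, smul_add]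
  | smul t _ h1 => beta_reduce; rw [h1, smul_comm]
  | @mul g g' r r' t T T' L L' φ _ _ h1 h2 =>
    beta_reduce
    simp only [relab, tens, h1, h2]
    have hp : ∏ u : Fin t, fc e s (K u) = (∏ u : Fin r, fc e s (K (φ (Sum.inl u))))
        * ∏ u : Fin r', fc e s (K (φ (Sum.inr u))) := by
      rw [← Equiv.prod_comp φ, Fintype.prod_sum_type]
    rw [hp, smul_mul_smul_comm, wg_add, pow_add]
    congr 1
    ring
  | @perm g r r' T L φ _ h1 =>
    beta_reduce
    simp only [relab, h1]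
    rw [Equiv.prod_comp φ (fun u => fc e s (K u))]
  | @contr g r t T L φ _ h1 =>
    beta_reduce
    unfold contr2
    rw [Finset.smul_sum]
    refine Finset.sum_congr rfl fun i _ => ?_
    rw [Finset.smul_sum]
    refine Finset.sum_congr rfl fun j _ => ?_
    simp only [relab, h1]
    have hp : ∏ u : Fin t, fc e s ((ocons i (ocons j K)) (φ u))
        = fc e s i * (fc e s j * ∏ u : Fin r, fc e s (K u)) := by
      rw [Equiv.prod_comp φ (fun u => fc e s ((ocons i (ocons j K)) u)), Fintype.prod_option,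
        Fintype.prod_option]
      rfl
    rw [hp]
    show ((fc e s i)⁻¹ * (fc e s j)⁻¹) • b.Gi i j * _ = _
    rw [smul_mul_smul_comm]
    congr 1
    have h3 := fc_ne he hs i
    have h4 := fc_ne he hs j
    field_simp
  | @deriv g r t T L φ _ h1 =>
    beta_reduce
    have hw : wg w (g + (0, 1)) = wg w g + 1 := by
      rw [wg_add]; simp [wg]
    rw [hw]
    unfold relab
    by_cases hz : K (φ none) = 0
    · rw [h.DD0 _ _ hz, (h.frm he hs w).DD0 _ _ hz, smul_zero]
    · have hp : ∏ u : Fin t, fc e s (K u) = s * ∏ u : Fin r, fc e s (K (φ (some u))) := by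
        rw [← Equiv.prod_comp φ, Fintype.prod_option]
        congr 1
        obtain ⟨a, ha⟩ := Fin.exists_succ_eq.mpr hz
        rw [← ha]; rfl
      have hT' : T A (b.frm e s he hs w) = fun K => (s⁻¹ ^ wg w g * ∏ u, fc e s (K u)) • T A b K :=
        funext h1
      rw [hT', h.frm_A he hs w]
      unfold DD cov
      have hact : act (b.A (K (φ none))) (fun K => (s⁻¹ ^ wg w g * ∏ u, fc e s (K u)) • T A b K)
          (fun u => K (φ (some u))) = (s⁻¹ ^ wg w g * ∏ u, fc e s (K (φ (some u))))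
            • act (b.A (K (φ none))) (T A b) (fun u => K (φ (some u))) := by
        unfold act
        rw [Finset.smul_sum]
        refine Finset.sum_congr rfl fun u _ => ?_
        rw [Finset.smul_sum]
        refine Finset.sum_congr rfl fun l _ => ?_
        by_cases hz' : l = 0 ∨ K (φ (some u)) = 0
        · rcases hz' with h' | h'
          · rw [h.A0 _ _ _ (Or.inr (Or.inl h')), zero_mul, zero_mul, smul_zero]
          · rw [h.A0 _ _ _ (Or.inr (Or.inr h')), zero_mul, zero_mul, smul_zero]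
        · push Not at hz'
          have hq : ∏ v, fc e s (Function.update (fun u => K (φ (some u))) u l v)
              = ∏ v, fc e s (K (φ (some v))) := by
            refine Finset.prod_congr rfl fun v _ => ?_
            by_cases hv : v = u
            · subst hv
              rw [Function.update_self]
              obtain ⟨a, ha⟩ := Fin.exists_succ_eq.mpr hz'.1
              obtain ⟨a', ha'⟩ := Fin.exists_succ_eq.mpr hz'.2
              rw [← ha, ← ha']; rfl
            · rw [Function.update_of_ne hv]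
          beta_reduce
          rw [hq, mul_smul_comm]
      rw [hact, (A.d _).map_smul, ← smul_sub, hp]
      congr 1
      rw [pow_succ]
      field_simp

end Frm

end Run7.h96.Hy

end

section

/-!
Scalars whose total integrals vanish are divergences up to intrinsic terms.
-/

set_option linter.all false
set_option maxHeartbeats 400000

open scoped BigOperators

namespace Run7.h96.Hy

open CInv

variable {k : ℕ}

theorem nf_eq_zero1 {J : Type} {g : Dg J} (h : nf g = 0) : g.1 = 0 := by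
  ext j
  by_contra hj
  have h1 : j ∈ g.1.support := Finsupp.mem_support_iff.mpr hj
  have h2 : (∑ a ∈ g.1.support, g.1 a) = 0 := h
  exact hj (Finset.sum_eq_zero_iff.mp h2 j h1)

theorem pair_cmul {n : ℕ} {R κ : Type} [CommRing R] [Fintype κ] [DecidableEq κ]
    (Gi : Fin n → Fin n → R) (S T : (κ → Fin n) → R) (c : R) :
    pair Gi S (fun K => c * T K) = c * pair Gi S T := by
  unfold pair
  rw [Finset.mul_sum]
  refine Finset.sum_congr rfl fun K _ => ?_
  rw [Finset.mul_sum]
  refine Finset.sum_congr rfl fun L _ => by ring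

open Classical in
theorem Fer.sclSh {X : DR (k + 1)} {b : HD X} (hb : Fer b) (c : X.R) : Fer (b.scl Sh c) where
  d0 := hb.d0
  g00 := hb.g00
  g0 := hb.g0
  nu K := by
    show (if Fd.nu ∈ Sh then c * b.Φ Fd.nu K else b.Φ Fd.nu K) = _
    rw [if_neg (by rintro ⟨j, hj⟩; cases hj)]; exact hb.nu K
  h0 j i := by
    show (if Fd.h j ∈ Sh then c * b.Φ (Fd.h j) ![0, i] else b.Φ (Fd.h j) ![0, i]) = _
    rw [if_pos ⟨j, rfl⟩, hb.h0, mul_zero]
  hs j i i' := by
    show (if Fd.h j ∈ Sh then c * b.Φ (Fd.h j) ![i, i'] else b.Φ (Fd.h j) ![i, i'])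
      = (if Fd.h j ∈ Sh then c * b.Φ (Fd.h j) ![i', i] else b.Φ (Fd.h j) ![i', i])
    rw [if_pos ⟨j, rfl⟩, if_pos ⟨j, rfl⟩, hb.hs]

theorem dvg_sum {n : ℕ} {J : Type} {ρ : J → ℕ} {X : DR n} (b : BD X J ρ) {α : Type} (s : Finset α)
    (V : α → Fin n → X.R) :
    dvg X.d b.A b.Gi (fun i => ∑ a ∈ s, V a i) = ∑ a ∈ s, dvg X.d b.A b.Gi (V a) := by
  classical
  induction s using Finset.induction_on with
  | empty => simp only [Finset.sum_empty]; exact dvg_zero b
  | @insert a s ha ih =>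
    rw [Finset.sum_insert ha, ← ih, ← dvg_add]
    congr 1
    funext i
    rw [Finset.sum_insert ha]

open Classical in
/-- scalars with vanishing integrals -/
theorem zero_int {A : DR (k + 1)} {J : Intg A} {T : Sc k} {E : Set (Dg Fd)} (hT : NS E T)
    (h : ∀ b : HD A, Fer b → ∀ w, Vol J b w → J.I (T A b * w) = 0)
    (hvol : ∀ b : HD A, Fer b → J.P b.G → ∃ w, Vol J b w) :
    ∃ (K0 : Sc k) (V : ∀ X : DR (k + 1), HD X → Fin (k + 1) → X.R),
      NS {g | g.1 = 0} K0 ∧ NV V ∧
      ∀ b : HD A, Fer b → J.P b.G → T A b = K0 A b + dvg A.d b.A b.Gi (V A b) := by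
  obtain ⟨T', hT', hI⟩ := hT
  obtain ⟨ι, hι, g, T1, L, hg, hT1, hS⟩ := hT'.out (Equiv.refl (Fin 0))
  have hsum : ∀ (X : DR (k + 1)) (b : HD X), Fer b → T X b = ∑ i, T1 i X b ![] := by
    intro X b hb
    have := hI X b hb ![]
    beta_reduce at this
    rw [this, hS]
    refine Finset.sum_congr rfl fun i _ => ?_
    exact congrArg _ (Subsingleton.elim _ _)
  let Sd : ℕ → Sc k := fun d X b => ∑ i ∈ Finset.univ.filter (fun i => nf (g i) = d), T1 i X b ![]
  obtain ⟨D, hD⟩ : ∃ D, ∀ i, nf (g i) < D :=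
    ⟨(Finset.univ.sup fun i => nf (g i)) + 1, fun i =>
      Nat.lt_succ_of_le (Finset.le_sup (f := fun i => nf (g i)) (Finset.mem_univ i))⟩
  have hsum2 : ∀ (X : DR (k + 1)) (b : HD X), Fer b → T X b = ∑ d ∈ Finset.range D, Sd d X b := by
    intro X b hb
    rw [hsum X b hb]
    show _ = ∑ d ∈ Finset.range D, ∑ i ∈ Finset.univ.filter (fun i => nf (g i) = d), T1 i X b ![]
    rw [Finset.sum_fiberwise_of_maps_to (g := fun i => nf (g i))]
    intro i _
    exact Finset.mem_range.mpr (hD i)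
  -- homogeneous parts
  have step1 : ∀ d, ∀ b : HD A, Fer b → ∀ w, Vol J b w → J.I (Sd d A b * w) = 0 := by
    intro d b hb w hw
    let p : A.poly.R := (∑ i, Polynomial.monomial (nf (g i)) (T1 i A b ![]) : Polynomial A.R)
    have h1 : ∀ s : ℝ, J.I ((evS A s).f p * w) = 0 := by
      intro s
      have hc : ∀ i, A.d i (algebraMap ℝ A.R s) = 0 := fun i => (A.d i).map_algebraMap s
      have e : (evS A s).f p = T A (b.scl Sh (algebraMap ℝ A.R s)) := by
        rw [hsum A _ (hb.sclSh _)]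
        show Polynomial.aeval (algebraMap ℝ A.R s)
          (∑ i, Polynomial.monomial (nf (g i)) (T1 i A b ![]) : Polynomial A.R) = _
        rw [map_sum]
        refine Finset.sum_congr rfl fun i _ => ?_
        rw [(hT1 i).scl b hc, Polynomial.aeval_monomial, mul_comm]
        rfl
      rw [e]
      exact h _ (hb.sclSh _) w ⟨hw.jac, hw.nd, hw.pd⟩
    have h2 := poly_I J.I p w h1 d
    have h3 : Polynomial.coeff (p : Polynomial A.R) d = Sd d A b := by
      show Polynomial.coeff (∑ i, Polynomial.monomial (nf (g i)) (T1 i A b ![]) : Polynomial A.R) d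
        = ∑ i ∈ Finset.univ.filter (fun i => nf (g i) = d), T1 i A b ![]
      rw [Polynomial.finset_sum_coeff, Finset.sum_filter]
      refine Finset.sum_congr rfl fun i _ => ?_
      rw [Polynomial.coeff_monomial]
    rw [h3] at h2
    exact h2
  -- linearisation
  have step2 : ∀ d, ∀ b : HD A, Fer b → ∀ w, Vol J b w → ∀ Ψ : Fl A Fd ρF,
      (∀ j i, Ψ (Fd.h j) ![0, i] = 0) → (∀ j i i', Ψ (Fd.h j) ![i, i'] = Ψ (Fd.h j) ![i', i]) →
      J.I ((∑ i ∈ Finset.univ.filter (fun i => nf (g i) = d), L i A b Ψ ![]) * w) = 0 := by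
    intro d b hb w hw Ψ h0 hs
    let R : A.poly.R := Sd d A.poly (bpf b Ψ)
    have h1 : ∀ s : ℝ, (evS A s).f R = Sd d A (bsf b Ψ s) := by
      intro s
      show (evS A s).f (∑ i ∈ Finset.univ.filter (fun i => nf (g i) = d), T1 i A.poly (bpf b Ψ) ![])
        = _
      rw [map_sum]
      refine Finset.sum_congr rfl fun i _ => ?_
      rw [← bpf_evS]
      exact ((hT1 i).map (evS A s) (bpf b Ψ) ![]).symm
    have h2 : ∀ s : ℝ, J.I ((evS A s).f R * w) = 0 := fun s => by
      rw [h1]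
      exact step1 d _ (hb.bsf h0 hs s) w ⟨hw.jac, hw.nd, hw.pd⟩
    have h3 := poly_I J.I R w h2 1
    have h4 : Polynomial.coeff (R : Polynomial A.R) 1
        = ∑ i ∈ Finset.univ.filter (fun i => nf (g i) = d), L i A b Ψ ![] := by
      rw [← sn_evD]
      show sn ((evD A).f (∑ i ∈ Finset.univ.filter (fun i => nf (g i) = d),
        T1 i A.poly (bpf b Ψ) ![])) = _
      rw [map_sum, sn_sum]
      refine Finset.sum_congr rfl fun i _ => ?_
      have h5 := (hT1 i).map (evD A) (bpf b Ψ) ![]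
      rw [bpf_evD] at h5
      rw [← h5]
      exact ((hT1 i).dual b Ψ ![]).2
    rw [h4] at h3
    exact h3
  have hM : ∀ d, Lin Sh Sh 0 (fun (X : DR (k + 1)) (b : HD X) Ψ K =>
      ∑ i ∈ Finset.univ.filter (fun i => nf (g i) = d), L i X b Ψ K) := fun d =>
    Lin.sum _ fun i _ => (hT1 i).toLin
  have hparts := fun d => (hM d).parts (fun _ _ _ => 1) (FS.one (Set.mem_univ _))
  choose s Ej V hs hE hV hP using hparts
  have hL : ∀ d (X : DR (k + 1)) (b : HD X) (Ψ : Fl X Fd ρF),
      (∑ i ∈ Finset.univ.filter (fun i => nf (g i) = d), L i X b Ψ ![])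
        = (∑ j ∈ s d, pair b.Gi (Ej d j X b) (Ψ j)) + dvg X.d b.A b.Gi (V d X b Ψ) := by
    intro d X b Ψ
    have := hP d X b Ψ
    rw [pair_fin0, one_mul] at this
    exact this
  refine ⟨Sd 0, fun X b i => ∑ d ∈ Finset.range D, (1 / (d : ℝ)) • V d X b b.Φ i, ?_, ?_, ?_⟩
  · have h1 : NF (k := k) {g | g.1 = 0} (Fin 0) (fun X b K =>
        ∑ i ∈ Finset.univ.filter (fun i => nf (g i) = 0), T1 i X b K) :=
      NF.of (FS.sum _ fun i hi => FS.of (hT1 i) (nf_eq_zero1 (Finset.mem_filter.mp hi).2))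
    refine h1.congr fun X b hb K => ?_
    refine Finset.sum_congr rfl fun i _ => ?_
    exact congrArg _ (Subsingleton.elim _ _)
  · refine NF.of (FS.sum _ fun d _ => ?_)
    exact (hV d (fun X b => b.Φ) (fun j hj => FS.field j (fun _ => Set.mem_univ _)
      (fun _ => Set.mem_univ _))).smul _
  · intro b hb hPb
    obtain ⟨w, hw⟩ := hvol b hb hPb
    have key : ∀ d, 1 ≤ d → Sd d A b = (1 / (d : ℝ)) • dvg A.d b.A b.Gi (V d A b b.Φ) := by
      intro d hd
      have h1 : (∑ j ∈ s d, pair b.Gi (Ej d j A b) (b.Φ j)) = 0 := by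
        refine hw.nd _ fun χ => ?_
        have h2 := step2 d b hb w hw (fun j K => χ * b.Φ j K)
          (fun j i => by beta_reduce; rw [hb.h0, mul_zero])
          (fun j i i' => by beta_reduce; rw [hb.hs])
        rw [hL, add_mul, map_add, dvg_I hw, add_zero] at h2
        have h3 : (∑ j ∈ s d, pair b.Gi (Ej d j A b) (fun K => χ * b.Φ j K))
            = (∑ j ∈ s d, pair b.Gi (Ej d j A b) (b.Φ j)) * χ := by
          rw [Finset.sum_mul]
          refine Finset.sum_congr rfl fun j _ => ?_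
          rw [pair_cmul, mul_comm]
        rw [h3] at h2
        exact h2
      have h4 := hL d A b b.Φ
      rw [h1, zero_add] at h4
      have h5 : (∑ i ∈ Finset.univ.filter (fun i => nf (g i) = d), L i A b b.Φ ![])
          = (d : ℝ) • Sd d A b := by
        show _ = (d : ℝ) • ∑ i ∈ Finset.univ.filter (fun i => nf (g i) = d), T1 i A b ![]
        rw [Finset.smul_sum]
        refine Finset.sum_congr rfl fun i hi => ?_
        have h6 := (hT1 i).euler b (fun _ => 1) ![]
        simp only [one_smul, mul_one] at h6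
        rw [h6]
        congr 1
        have h7 := (Finset.mem_filter.mp hi).2
        rw [← h7]
        unfold nf Finsupp.sum
        push_cast
        rfl
      rw [← h4, h5, smul_smul]
      have : (1 / (d : ℝ)) * (d : ℝ) = 1 := by
        have : (d : ℝ) ≠ 0 := by exact_mod_cast (by omega : d ≠ 0)
        field_simp
      rw [this, one_smul]
    rw [hsum2 A b hb, dvg_sum]
    rcases Nat.eq_zero_or_pos D with h0 | h0
    · subst h0
      simp only [Finset.range_zero, Finset.sum_empty, add_zero]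
      show 0 = ∑ i ∈ Finset.univ.filter (fun i => nf (g i) = 0), T1 i A b ![]
      refine (Finset.sum_eq_zero fun i _ => ?_).symm
      exact absurd (hD i) (Nat.not_lt_zero _)
    · obtain ⟨D, rfl⟩ := Nat.exists_eq_succ_of_ne_zero h0.ne'
      rw [Finset.sum_range_succ', Finset.sum_range_succ']
      have h1 : dvg A.d b.A b.Gi (fun i => (1 / ((0 : ℕ) : ℝ)) • V 0 A b b.Φ i) = 0 := by
        have : (fun i => (1 / ((0 : ℕ) : ℝ)) • V 0 A b b.Φ i) = fun _ => 0 := by
          funext i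
          simp
        rw [this]; exact dvg_zero b
      rw [h1, add_zero, add_comm (Sd 0 A b)]
      congr 1
      refine Finset.sum_congr rfl fun d _ => ?_
      rw [key (d + 1) (by omega), dvg_smul]

end Run7.h96.Hy

end

section

/-!
Decomposition into weights.
-/

set_option linter.all false
set_option maxHeartbeats 400000

open scoped BigOperators
open MeasureTheory

namespace Run7.h96.Hy

open CInv

variable {k : ℕ}

/-- realisation of Fermi data for a formula -/
theorem real_fml (Q : Fml Fa ρa 0) {b : HD (AA k)} (hb : Fer b) {w : (AA k).R}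
    (hw : Vol (JA k) b w) : ∃ (m : Mt (HX k)) (c : ℝ), Pos m ∧
      IA k (scP Q (AA k) b * w) = c * total Q m := by
  obtain ⟨M, hM⟩ := Fml.trunc (k := k) Q
  obtain ⟨m, ω', hm, hN, hg, -⟩ := realise hb hw.pd (M + 1) 0
  have e1 : Q.eval (AA k) (fm m).hyp = Q.eval (AA k) (fmt hb).hyp :=
    hM (AA k) _ (fm m) (fmt hb) hN (fun i j => hg i j)
  have hG : m.hyp.G = b.G := by
    funext i j
    show ext 1 (fun a c => (HX k).res (m.g a.succ c.succ)) i j = b.G i j
    have h3 : ∀ i j, (HX k).res (m.g i j) = b.G i j := fun i j => by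
      rw [← cf0_τX, cf0_of_O (N := M + 1) (hg i j), cf_gX]; rfl
    simp only [h3]
    refine Fin.cases ?_ (fun a => ?_) i <;> refine Fin.cases ?_ (fun c => ?_) j
    · exact hb.g00.symm
    · exact (hb.g0 c).symm
    · rw [b.symm a.succ 0]
      exact (hb.g0 a).symm
    · rfl
  obtain ⟨w1, hw1, hw2, hw3⟩ := ex_dens hm
  rw [hG] at hw3
  obtain ⟨c, rfl⟩ := dens_vol hw hw1 hw3
  refine ⟨m, c, hm, ?_⟩
  rw [total_eq hw2, scP_fmt hb, ← e1, fm_hyp, mul_smul_comm, map_smul, smul_eq_mul]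

open Classical in
/-- formulas with vanishing total integrals -/
theorem w_part (Q : Fml Fa ρa 0) {E : Set (Dg Fd)} (hQ : NS E (scP (k := k) Q))
    (h : ∀ m : Mt (HX k), Pos m → total Q m = 0) :
    ∃ (K0 : Sc k) (V : Fml Fa ρa 1), NS {g | g.1 = 0} K0 ∧
      ∀ m : Mt (HX k), Pos m → ∀ b : HD (AA k), Fer b → b.scl Nt 0 = b →
        m.hyp = b.setF (hFf (AA k) b) →
        Q.eval (AA k) m.hyp ![] = K0 (AA k) b + V.dv.eval (AA k) m.hyp ![] := by
  obtain ⟨K0, V, hK0, hV, hdec⟩ := zero_int (J := JA k) hQ (fun b hb w hw => by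
      obtain ⟨m, c, hm, e⟩ := real_fml Q hb hw
      show IA k _ = 0
      rw [e, h m hm, mul_zero])
    (fun b hb hP => by obtain ⟨w, hw, -⟩ := ex_vol hP; exact ⟨w, hw⟩)
  obtain ⟨V', hV'⟩ := nv_fml hV
  refine ⟨K0, V', hK0, ?_⟩
  intro m hm b hb hz hmb
  have hP : (JA k).P b.G := by
    have := hm.hyp
    rw [hmb] at this
    exact this
  have h1 := hdec b hb hP
  have h2 : scP Q (AA k) b = Q.eval (AA k) m.hyp ![] := by
    rw [hmb]; rfl
  rw [← h2, h1, hmb, Fml.dv_eval]
  congr 1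
  show dvg (AA k).d b.A b.Gi (V (AA k) b) = dvg (AA k).d b.A b.Gi _
  congr 1
  funext i
  exact hV' _ b hb hz i

/-! ### constant rescalings -/

section Sc

variable {n : ℕ} {X : DR n} {g gi : Fin n → Fin n → X.R}

theorem met_sc (h : IsMetric g gi) {s : ℝ} (hs : s ≠ 0) :
    IsMetric (fun i j => (s * s) • g i j) (fun i j => (s⁻¹ * s⁻¹) • gi i j) where
  symm i j := by rw [h.symm]
  inv i j := by
    rw [← h.inv i j]
    refine Finset.sum_congr rfl fun p _ => ?_
    rw [smul_mul_smul_comm]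
    have : s * s * (s⁻¹ * s⁻¹) = 1 := by field_simp
    rw [this, one_smul]

theorem mbd_A_sc (h : IsMetric g gi) {s : ℝ} (hs : s ≠ 0) :
    (mbd (met_sc h hs)).A = (mbd h).A := by
  funext i l m
  show chr X.D _ _ l i m = chr X.D g gi l i m
  unfold chr
  congr 1
  refine Finset.sum_congr rfl fun p _ => ?_
  have hD : ∀ i m p : Fin n, X.D i ((s * s) • g m p) = (s * s) • X.D i (g m p) :=
    fun i m p => (X.d i).map_smul _ _
  show (s⁻¹ * s⁻¹) • gi l p * (X.D i ((s * s) • g m p) + X.D m ((s * s) • g i p)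
    - X.D p ((s * s) • g i m)) = _
  rw [hD, hD, hD, ← smul_add, ← smul_sub, smul_mul_smul_comm]
  have : s⁻¹ * s⁻¹ * (s * s) = 1 := by field_simp
  rw [this, one_smul]

theorem rm_sc (h : IsMetric g gi) {s : ℝ} (hs : s ≠ 0) (l : ℕ) (K : Fin (4 + l) → Fin n) :
    rm (met_sc h hs) l K = (s * s) • rm h l K := by
  induction l with
  | zero =>
    show (∑ p, (s * s) • g (K 2) p * (mbd (met_sc h hs)).F (K 0) (K 1) p (K 3))
      = (s * s) • ∑ p, g (K 2) p * (mbd h).F (K 0) (K 1) p (K 3)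
    rw [Finset.smul_sum]
    refine Finset.sum_congr rfl fun p _ => ?_
    have : (mbd (met_sc h hs)).F (K 0) (K 1) p (K 3) = (mbd h).F (K 0) (K 1) p (K 3) := by
      unfold BD.F
      rw [mbd_A_sc h hs]
    rw [this, smul_mul_assoc]
  | succ l ih =>
    show DD X.d (mbd (met_sc h hs)).A (rm (met_sc h hs) l)
        (fun u => K ((finSuccEquiv (4 + l)).symm u))
      = (s * s) • DD X.d (mbd h).A (rm h l) (fun u => K ((finSuccEquiv (4 + l)).symm u))
    rw [mbd_A_sc h hs, show rm (met_sc h hs) l = fun K => (s * s) • rm h l K from funext ih]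
    exact cov_smul _ _ _ _ _ _

end Sc

section ScH

variable {X A : DR (k + 1)} {H : Hs X A}

/-- the metric `s² g` -/
noncomputable def Mt.sc (m : Mt H) {s : ℝ} (hs : s ≠ 0) : Mt H where
  g i j := (s * s) • m.g i j
  gi i j := (s⁻¹ * s⁻¹) • m.gi i j
  met := met_sc m.met hs
  N := s • m.N
  hN := by
    rw [map_smul, smul_mul_smul_comm, smul_mul_smul_comm, m.hN]
    have : s * s * (s⁻¹ * s⁻¹) = 1 := by field_simp
    rw [this, one_smul]

theorem Mt.hyp_Pd (m : Mt H) : Pd m.hyp where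
  d0 := H.d0
  g00 i := by
    show A.d i (1 : A.R) = 0
    exact Derivation.map_one_eq_zero _
  g0 a := rfl
  gi0 a := rfl

theorem Mt.sc_hyp (m : Mt H) {s : ℝ} (hs : s ≠ 0) :
    (m.sc hs).hyp = m.hyp.frm 1 s one_ne_zero hs wa := by
  have hG : (m.sc hs).hyp.G = (m.hyp.frm 1 s one_ne_zero hs wa).G := by
    funext i j
    show ext 1 (fun a b => H.res ((s * s) • m.g a.succ b.succ)) i j
      = (fc 1 s i * fc 1 s j) • ext 1 (fun a b => H.res (m.g a.succ b.succ)) i j
    refine Fin.cases ?_ (fun a => ?_) i <;> refine Fin.cases ?_ (fun c => ?_) j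
    · show (1 : A.R) = ((1 : ℝ) * 1) • (1 : A.R)
      rw [one_mul, one_smul]
    · show (0 : A.R) = _ • (0 : A.R)
      rw [smul_zero]
    · show (0 : A.R) = _ • (0 : A.R)
      rw [smul_zero]
    · exact map_smul _ _ _
  refine BD.ext' hG (inv_unique (hG ▸ (m.sc hs).hyp.met) (m.hyp.frm 1 s one_ne_zero hs wa).met) ?_
  have hfr : ∀ i j, (m.sc hs).fr i j = (s⁻¹ * fc 1 s i) • m.fr i j := by
    intro i j
    refine Fin.cases ?_ (fun a => ?_) i
    · show s • m.N * H.res ((s⁻¹ * s⁻¹) • m.gi 0 j) = (s⁻¹ * 1) • (m.N * H.res (m.gi 0 j))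
      rw [map_smul, smul_mul_smul_comm]
      congr 1
      field_simp
    · show (if a.succ = j then (1 : A.R) else 0) = (s⁻¹ * s) • (if a.succ = j then (1 : A.R) else 0)
      rw [inv_mul_cancel₀ hs, one_smul]
  funext f K
  cases f with
  | nu =>
    show (if K 0 = 0 then (1 : A.R) else 0)
      = (s⁻¹ ^ 0 * ∏ u : Fin 1, fc 1 s (K u)) • (if K 0 = 0 then (1 : A.R) else 0)
    rw [Fin.prod_univ_one, pow_zero, one_mul]
    by_cases h : K 0 = 0
    · rw [if_pos h, h]
      show (1 : A.R) = (1 : ℝ) • (1 : A.R)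
      rw [one_smul]
    · rw [if_neg h, smul_zero]
  | II =>
    show ext 0 (m.sc hs).II (K 0) (K 1)
      = (s⁻¹ ^ 1 * ∏ u : Fin 2, fc 1 s (K u)) • ext 0 m.II (K 0) (K 1)
    rw [Fin.prod_univ_two, pow_one]
    have h2 : ∀ i j : Fin (k + 1), ext 0 (m.sc hs).II i j
        = (s⁻¹ * (fc 1 s i * fc 1 s j)) • ext 0 m.II i j := by
      intro i j
      refine Fin.cases ?_ (fun a => ?_) i <;> refine Fin.cases ?_ (fun c => ?_) j
      · show (0 : A.R) = _ • (0 : A.R)
        rw [smul_zero]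
      · show (0 : A.R) = _ • (0 : A.R)
        rw [smul_zero]
      · show (0 : A.R) = _ • (0 : A.R)
        rw [smul_zero]
      · show s • m.N * H.res (chr X.D (m.sc hs).g (m.sc hs).gi 0 a.succ c.succ)
          = (s⁻¹ * (s * s)) • (m.N * H.res (chr X.D m.g m.gi 0 a.succ c.succ))
        have h3 : chr X.D (m.sc hs).g (m.sc hs).gi 0 a.succ c.succ
            = chr X.D m.g m.gi 0 a.succ c.succ :=
          congrFun (congrFun (congrFun (mbd_A_sc m.met hs) a.succ) 0) c.succ
        rw [h3, smul_mul_assoc]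
        congr 1
        field_simp
    exact h2 _ _
  | R l =>
    show (∑ L : Fin (4 + l) → Fin (k + 1), (∏ u, (m.sc hs).fr (K u) (L u))
        * H.res (rm (met_sc m.met hs) l L))
      = (s⁻¹ ^ (l + 2) * ∏ u, fc 1 s (K u)) • ∑ L : Fin (4 + l) → Fin (k + 1),
        (∏ u, m.fr (K u) (L u)) * H.res (rm m.met l L)
    rw [Finset.smul_sum]
    refine Finset.sum_congr rfl fun L _ => ?_
    have h4 : (∏ u, (m.sc hs).fr (K u) (L u))
        = (s⁻¹ ^ (4 + l) * ∏ u, fc 1 s (K u)) • ∏ u, m.fr (K u) (L u) := by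
      simp only [hfr]
      rw [Finset.prod_smul, Finset.prod_mul_distrib]
      simp only [Finset.prod_const, Finset.card_univ, Fintype.card_fin]
    rw [h4, rm_sc m.met hs, map_smul, smul_mul_smul_comm]
    congr 1
    rw [show 4 + l = (l + 2) + 2 by ring, pow_add]
    field_simp

end ScH

theorem conf_cst (m : Mt (HX k)) (t : ℝ) : conf m (t • 1) = m.sc (Real.exp_pos t).ne' := by
  have h1 : eX (t • (1 : (XX k).R)) = Real.exp t • 1 := vx_ext fun x => by
    rw [vx_eX, vx_smul, vx_smul, vx_one, mul_one, mul_one]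
  have h2 : eX (-(t • (1 : (XX k).R))) = (Real.exp t)⁻¹ • 1 := vx_ext fun x => by
    rw [vx_eX, vx_neg, vx_smul, vx_smul, vx_one, mul_one, mul_one, Real.exp_neg]
  refine Mt.ext' ?_ ?_ ?_
  · funext i j
    show eX (t • 1) * eX (t • 1) * m.g i j = (Real.exp t * Real.exp t) • m.g i j
    rw [h1]
    simp only [Algebra.smul_def, map_mul]; ring
  · funext i j
    show eX (-(t • 1)) * eX (-(t • 1)) * m.gi i j = ((Real.exp t)⁻¹ * (Real.exp t)⁻¹) • m.gi i j
    rw [h2]
    simp only [Algebra.smul_def, map_mul]; ring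
  · show (HX k).res (eX (t • 1)) * m.N = Real.exp t • m.N
    rw [h1, map_smul, map_one, smul_mul_assoc, one_mul]

/-! ### weights -/

theorem FS.frm0 {A : DR (k + 1)} {J : Type} {ρ : J → ℕ} {e s : ℝ} (he : e ≠ 0) (hs : s ≠ 0)
    (w : J → ℕ) {b : BD A J ρ} (h : Pd b) {T : Tk (k + 1) J ρ (Fin 0)} {n : ℕ}
    (hT : FS Set.univ {g | wg w g = n} (Fin 0) T) (K : Fin 0 → Fin (k + 1)) :
    T A (b.frm e s he hs w) K = s⁻¹ ^ n • T A b K := by
  obtain ⟨ι, hι, g, T1, L, hg, hT1, hS⟩ := hT.out (Equiv.refl (Fin 0))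
  rw [hS, hS, Finset.smul_sum]
  refine Finset.sum_congr rfl fun i _ => ?_
  rw [(hT1 i).frm he hs w h]
  have h1 : wg w (g i) = n := hg i
  rw [h1]
  simp

theorem split_w (P : Fml Fa ρa 0) : ∃ (M : ℕ) (Q : ℕ → Fml Fa ρa 0), k < M ∧
    (∀ m, FS (n := k + 1) Set.univ {g | wg wa g = m} (Fin 0) (fun X b => (Q m).eval X b)) ∧
    ∀ (X : DR (k + 1)) b K, P.eval X b K = ∑ m ∈ Finset.range M, (Q m).eval X b K := by
  obtain ⟨M, Q, hQ, hS⟩ := (P.toFS (n := k + 1)).parts wa
  choose Q' hQ' using fun m => (hQ m).toFml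
  refine ⟨M + (k + 1), fun m => if m < M then Q' m else .zero 0, by omega, fun m => ?_,
    fun X b K => ?_⟩
  · by_cases h : m < M
    · simp only [if_pos h]
      exact (hQ m).congr fun X b K => (hQ' m X b K).symm
    · simp only [if_neg h]
      exact FS.zero
  · rw [hS, Finset.sum_range_add]
    have h1 : ∑ x ∈ Finset.range (k + 1), Fml.eval X b (if M + x < M then Q' (M + x)
        else Fml.zero 0) K = 0 := by
      refine Finset.sum_eq_zero fun x _ => ?_
      rw [if_neg (by omega)]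
      rfl
    rw [h1, add_zero]
    refine Finset.sum_congr rfl fun m hm => ?_
    beta_reduce
    rw [if_pos (Finset.mem_range.mp hm), hQ']

theorem total_sum {m : Mt (HX k)} (hm : Pos m) {P : Fml Fa ρa 0} {M : ℕ} {Q : ℕ → Fml Fa ρa 0}
    (h : ∀ (X : DR (k + 1)) b K, P.eval X b K = ∑ m ∈ Finset.range M, (Q m).eval X b K) :
    total P m = ∑ n ∈ Finset.range M, total (Q n) m := by
  obtain ⟨w, hw1, hw2, hw3⟩ := ex_dens hm
  rw [total_eq hw2, h, Finset.sum_mul, map_sum]
  refine Finset.sum_congr rfl fun n _ => ?_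
  rw [total_eq hw2]

theorem total_sc {m : Mt (HX k)} (hm : Pos m) {Q : Fml Fa ρa 0} {n : ℕ}
    (hQ : FS (n := k + 1) Set.univ {g | wg wa g = n} (Fin 0) (fun X b => Q.eval X b)) (t : ℝ) :
    total Q (conf m (t • 1)) = (Real.exp t)⁻¹ ^ n * Real.exp t ^ k * total Q m := by
  obtain ⟨w, hw1, hw2, hw3⟩ := ex_dens hm
  have h1 : ∀ x, va (Real.exp t ^ k • w) x = Real.sqrt (hbar (conf m (t • 1)) x).det := by
    intro x
    rw [sqrt_conf, va_smul, hw2, va_res, vx_eX, vx_smul, vx_one, mul_one]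
  rw [total_eq h1, total_eq hw2, conf_cst, Mt.sc_hyp]
  have h2 := hQ.frm0 one_ne_zero (Real.exp_pos t).ne' wa m.hyp_Pd ![]
  rw [h2, smul_mul_smul_comm, map_smul, smul_eq_mul]

theorem weights {P : Fml Fa ρa 0} {M : ℕ} {Q : ℕ → Fml Fa ρa 0} (hkM : k < M)
    (hQ : ∀ m, FS (n := k + 1) Set.univ {g | wg wa g = m} (Fin 0) (fun X b => (Q m).eval X b))
    (hS : ∀ (X : DR (k + 1)) b K, P.eval X b K = ∑ m ∈ Finset.range M, (Q m).eval X b K)
    (h : ∀ m : Mt (HX k), Pos m → ∀ ω, total P (conf m ω) = total P m) :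
    (∀ n, n < M → n ≠ k → ∀ m : Mt (HX k), Pos m → total (Q n) m = 0) ∧
    ∀ m : Mt (HX k), Pos m → ∀ ω, total (Q k) (conf m ω) = total (Q k) m := by
  have h0 : ∀ n, n < M → n ≠ k → ∀ m : Mt (HX k), Pos m → total (Q n) m = 0 := by
    intro n hn hnk m hm
    let p1 : Polynomial ℝ := ∑ n ∈ Finset.range M, Polynomial.monomial (M - n + k) (total (Q n) m)
    let p2 : Polynomial ℝ := Polynomial.monomial M (total P m)
    have heq : p1 = p2 := by
      refine Polynomial.eq_of_infinite_eval_eq p1 p2 ?_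
      refine Set.Infinite.mono (s := Set.Ioi (0 : ℝ)) ?_ (Set.Ioi_infinite 0)
      intro x hx
      have hx0 : (0 : ℝ) < x := hx
      have e1 := h m hm (Real.log x • 1)
      rw [total_sum (hm.conf _) hS] at e1
      simp only [total_sc hm (hQ _), Real.exp_log hx0] at e1
      show p1.eval x = p2.eval x
      show (∑ n ∈ Finset.range M, Polynomial.monomial (M - n + k) (total (Q n) m)).eval x
        = (Polynomial.monomial M (total P m)).eval x
      rw [Polynomial.eval_finset_sum, Polynomial.eval_monomial, ← e1, Finset.sum_mul]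
      refine Finset.sum_congr rfl fun n hn => ?_
      rw [Polynomial.eval_monomial]
      have hn' := Finset.mem_range.mp hn
      have e2 : x ^ M = x ^ (M - n) * x ^ n := by
        rw [← pow_add]
        congr 1
        omega
      rw [e2, pow_add, inv_pow]
      field_simp
    have h2 := congrArg (fun p => Polynomial.coeff p (M - n + k)) heq
    simp only [p1, p2, Polynomial.finset_sum_coeff, Polynomial.coeff_monomial] at h2
    rw [if_neg (by omega), Finset.sum_eq_single n] at h2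
    · rw [if_pos rfl] at h2
      exact h2
    · intro n' hn' hne
      rw [if_neg]
      have := Finset.mem_range.mp hn'
      omega
    · intro hn'
      exact absurd (Finset.mem_range.mpr hn) hn'
  refine ⟨h0, fun m hm ω => ?_⟩
  have key : ∀ m : Mt (HX k), Pos m → total P m = total (Q k) m := by
    intro m hm
    rw [total_sum hm hS, Finset.sum_eq_single k]
    · intro n hn hne
      exact h0 n (Finset.mem_range.mp hn) hne m hm
    · intro hn
      exact absurd (Finset.mem_range.mpr hkM) hn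
  rw [← key m hm, ← key _ (hm.conf ω), h m hm ω]

end Run7.h96.Hy

end

section

/-!
Natural scalars without second fundamental form and ambient curvature are intrinsic.
-/

set_option linter.all false
set_option maxHeartbeats 400000

open scoped BigOperators

namespace Run7.h96.Hy

open CInv

variable {k : ℕ}

/-- the tangential derivations -/
@[reducible] def DR.tg (A : DR (k + 1)) : DR k where
  R := A.R
  d a := A.d a.succ
  comm a c f := A.comm _ _ f

section Tgm

variable {A : DR (k + 1)} {J : Type} {ρ : J → ℕ} {b : BD A J ρ}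

theorem tgm (h : Pd b) : IsMetric (A := A.R) (fun a c : Fin k => b.G a.succ c.succ)
    (fun a c : Fin k => b.Gi a.succ c.succ) where
  symm a c := b.symm _ _
  inv a c := by
    have h1 := b.inv a.succ c.succ
    rw [Fin.sum_univ_succ] at h1
    have h2 : b.G a.succ 0 = 0 := by rw [b.symm]; exact h.g0 a
    rw [h2, zero_mul, zero_add] at h1
    rw [h1]
    by_cases hac : a = c
    · rw [if_pos hac, if_pos (by rw [hac])]
    · rw [if_neg hac, if_neg (fun h' => hac (Fin.succ_injective _ h'))]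

/-- the induced intrinsic data -/
def tgb (h : Pd b) : BD A.tg Empty (fun _ => 0) := mbd (X := A.tg) (tgm h)

theorem tgb_A (h : Pd b) (a c d : Fin k) : (tgb h).A a c d = b.A a.succ c.succ d.succ := by
  show chr A.tg.D (fun a c : Fin k => b.G a.succ c.succ) (fun a c : Fin k => b.Gi a.succ c.succ)
    c a d = chr A.D b.G b.Gi c.succ a.succ d.succ
  unfold chr
  rw [Fin.sum_univ_succ]
  have h2 : b.Gi c.succ 0 = 0 := by rw [b.isymm]; exact h.gi0 c
  rw [h2, zero_mul, zero_add]
  rfl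

theorem tgb_F (h : Pd b) (a c d e : Fin k) :
    (tgb h).F a c d e = b.F a.succ c.succ d.succ e.succ := by
  show A.d a.succ ((tgb h).A c d e) - A.d c.succ ((tgb h).A a d e)
    + ∑ p, ((tgb h).A a d p * (tgb h).A c p e - (tgb h).A c d p * (tgb h).A a p e) = _
  unfold BD.F
  rw [Fin.sum_univ_succ]
  have h1 : b.A a.succ d.succ 0 * b.A c.succ 0 e.succ - b.A c.succ d.succ 0 * b.A a.succ 0 e.succ
      = 0 := by
    rw [h.A0 _ _ _ (Or.inr (Or.inr rfl)), h.A0 c.succ d.succ 0 (Or.inr (Or.inr rfl))]; ring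
  rw [h1, zero_add]
  simp only [tgb_A]

theorem tgb_curv (h : Pd b) (K : Fin 4 → Fin k) :
    (tgb h).curv K = b.curv (fun s => (K s).succ) := by
  show (∑ p, b.G (K 2).succ p.succ * (tgb h).F (K 0) (K 1) p (K 3))
    = ∑ p, b.G (K 2).succ p * b.F (K 0).succ (K 1).succ p (K 3).succ
  rw [Fin.sum_univ_succ (n := k)]
  have h2 : b.G (K 2).succ 0 = 0 := by rw [b.symm]; exact h.g0 _
  rw [h2, zero_mul, zero_add]
  simp only [tgb_F]

end Tgm

theorem Fer.Pd {A : DR (k + 1)} {b : HD A} (hb : Fer b) : Hy.Pd b where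
  d0 := hb.d0
  g00 i := by rw [hb.g00]; exact Derivation.map_one_eq_zero _
  g0 := hb.g0
  gi0 a := by rw [hb.Gi0i, if_neg (Fin.succ_ne_zero a)]

/-- insertion of normal indices -/
def ins {κ : Type} (σ : κ → Bool) (K : {s // σ s = true} → Fin k) (s : κ) : Fin (k + 1) :=
  if h : σ s = true then (K ⟨s, h⟩).succ else 0

/-- equivalence -/
def E0' {κ : Type} (σ : κ → Bool) :
    {s : κ // σ s = true} ≃ {s : Option κ // s.elim false σ = true} where
  toFun s := ⟨some s.1, s.2⟩
  invFun s := match s with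
    | ⟨some u, h⟩ => ⟨u, h⟩
  left_inv s := rfl
  right_inv s := by
    obtain ⟨s, h⟩ := s
    cases s with
    | none => exact absurd h (by simp)
    | some u => rfl

/-- equivalence -/
def E1' {κ : Type} (σ : κ → Bool) :
    Option {s : κ // σ s = true} ≃ {s : Option κ // s.elim true σ = true} where
  toFun s := match s with
    | none => ⟨none, rfl⟩
    | some s => ⟨some s.1, s.2⟩
  invFun s := match s with
    | ⟨none, _⟩ => none
    | ⟨some u, h⟩ => some ⟨u, h⟩
  left_inv s := by cases s <;> rfl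
  right_inv s := by
    obtain ⟨s, h⟩ := s
    cases s <;> rfl

theorem ins_E0 {κ : Type} (σ : κ → Bool) (K : {s : Option κ // s.elim false σ = true} → Fin k) :
    ins (fun s : Option κ => s.elim false σ) K = ocons 0 (ins σ (fun s => K (E0' σ s))) := by
  funext s
  cases s with
  | none => exact dif_neg (by simp)
  | some s => rfl

theorem ins_E1 {κ : Type} (σ : κ → Bool) (K : {s : Option κ // s.elim true σ = true} → Fin k) :
    ins (fun s : Option κ => s.elim true σ) K
      = ocons (K (E1' σ none)).succ (ins σ (fun s => K (E1' σ (some s)))) := by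
  funext s
  cases s with
  | none => exact dif_pos rfl
  | some s => rfl

open Classical in
/-- the restrictions to tangential indices are intrinsic -/
def TG (κ : Type) (T : Tk (k + 1) Fd ρF κ) : Prop :=
  ∀ σ : κ → Bool, ∃ T' : Tk k Empty (fun _ => 0) {s // σ s = true},
    FS Set.univ Set.univ _ T' ∧ ∀ (A : DR (k + 1)) (b : HD A) (hb : Fer b), b.scl Nt 0 = b →
      ∀ K, T A b (ins σ K) = T' A.tg (tgb hb.Pd) K

section TGl

variable {κ μ : Type}

theorem TG.relab {T : Tk (k + 1) Fd ρF κ} (h : TG κ T) (e : κ ≃ μ) :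
    TG μ (fun X b => relab e (T X b)) := by
  intro σ
  obtain ⟨T', hT, hI⟩ := h (fun s => σ (e s))
  refine ⟨_, hT.relab (e.subtypeEquiv (p := fun s => σ (e s) = true) (q := fun s => σ s = true)
    (fun s => Iff.rfl)), fun A b hb hz K => ?_⟩
  exact hI A b hb hz (fun s => K ((e.subtypeEquiv (p := fun s => σ (e s) = true)
    (q := fun s => σ s = true) (fun s => Iff.rfl)) s))

theorem TG.add {T T' : Tk (k + 1) Fd ρF κ} (h : TG κ T) (h' : TG κ T') :
    TG κ (fun X b K => T X b K + T' X b K) := by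
  intro σ
  obtain ⟨S, hS, hI⟩ := h σ
  obtain ⟨S', hS', hI'⟩ := h' σ
  exact ⟨_, hS.add hS', fun A b hb hz K => by
    beta_reduce
    rw [hI A b hb hz, hI' A b hb hz]⟩

theorem TG.smul {T : Tk (k + 1) Fd ρF κ} (h : TG κ T) (t : ℝ) :
    TG κ (fun X b K => t • T X b K) := by
  intro σ
  obtain ⟨S, hS, hI⟩ := h σ
  exact ⟨_, hS.smul t, fun A b hb hz K => by beta_reduce; rw [hI A b hb hz]⟩

theorem TG.zero [Finite κ] : TG (k := k) κ (fun _ _ _ => 0) := fun σ =>
  ⟨fun _ _ _ => 0, FS.zero, fun _ _ _ _ _ => rfl⟩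

theorem TG.mul {T : Tk (k + 1) Fd ρF κ} {T' : Tk (k + 1) Fd ρF μ} (h : TG κ T) (h' : TG μ T') :
    TG (κ ⊕ μ) (fun X b => tens (T X b) (T' X b)) := by
  intro σ
  obtain ⟨S, hS, hI⟩ := h (fun s => σ (Sum.inl s))
  obtain ⟨S', hS', hI'⟩ := h' (fun s => σ (Sum.inr s))
  refine ⟨_, (hS.mul hS' (E'' := Set.univ) fun _ _ _ _ => Set.mem_univ _).relab
    (Equiv.subtypeSum (p := fun s => σ s = true)).symm, fun A b hb hz K => ?_⟩
  show T A b _ * T' A b _ = S A.tg _ _ * S' A.tg _ _
  rw [← hI A b hb hz, ← hI' A b hb hz]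
  rfl

theorem TG.contr2 [Finite κ] {T : Tk (k + 1) Fd ρF (Option (Option κ))}
    (h : TG (Option (Option κ)) T) : TG κ (fun X b => contr2 b.Gi (T X b)) := by
  intro σ
  obtain ⟨S, hS, hI⟩ := h (fun s : Option (Option κ) => s.elim false (fun s : Option κ => s.elim false σ))
  obtain ⟨S', hS', hI'⟩ := h (fun s : Option (Option κ) => s.elim true (fun s : Option κ => s.elim true σ))
  refine ⟨_, (hS.relab ((E0' σ).trans (E0' (fun s : Option κ => s.elim false σ))).symm).add
    (FS.contr2 (hS'.relab (((Equiv.optionCongr (E1' σ))).trans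
      (E1' (fun s : Option κ => s.elim true σ))).symm)), fun A b hb hz K => ?_⟩
  have hP := hb.Pd
  have g00 : b.Gi 0 0 = 1 := by rw [hb.Gi0i, if_pos rfl]
  have gs0 : ∀ a : Fin k, b.Gi a.succ 0 = 0 := fun a => by rw [b.isymm]; exact hP.gi0 a
  show (∑ i, ∑ j, b.Gi i j * T A b (ocons i (ocons j (ins σ K)))) = _ + ∑ i : Fin k, ∑ j : Fin k,
    b.Gi i.succ j.succ * S' A.tg (tgb hP) _
  rw [Fin.sum_univ_succ, Fin.sum_univ_succ, g00, one_mul]
  have e1 : ∑ i : Fin k, b.Gi 0 i.succ * T A b (ocons 0 (ocons i.succ (ins σ K))) = 0 :=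
    Finset.sum_eq_zero fun i _ => by rw [hP.gi0, zero_mul]
  rw [e1, add_zero]
  congr 1
  · have e2 := hI A b hb hz (fun s => K (((E0' σ).trans (E0' (fun s : Option κ => s.elim false σ))).symm s))
    refine Eq.trans ?_ e2
    congr 1
    rw [ins_E0, ins_E0]
    rfl
  · refine Finset.sum_congr rfl fun i _ => ?_
    rw [Fin.sum_univ_succ, gs0, zero_mul, zero_add]
    refine Finset.sum_congr rfl fun j _ => ?_
    congr 1
    set E := ((Equiv.optionCongr (E1' σ))).trans (E1' (fun s : Option κ => s.elim true σ)) with hE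
    have e2 := hI' A b hb hz (fun s => (ocons i (ocons j K)) (E.symm s))
    refine Eq.trans ?_ e2
    congr 1
    rw [ins_E1, ins_E1]
    have k1 : E.symm (E1' (fun s : Option κ => s.elim true σ) none) = none :=
      Equiv.symm_apply_apply E none
    have k2 : E.symm (E1' (fun s : Option κ => s.elim true σ) (some (E1' σ none))) = some none :=
      Equiv.symm_apply_apply E (some none)
    have k3 : ∀ s, E.symm (E1' (fun s : Option κ => s.elim true σ) (some (E1' σ (some s)))) = some (some s) :=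
      fun s => Equiv.symm_apply_apply E (some (some s))
    beta_reduce
    rw [k1, k2]
    simp only [k3]
    rfl

theorem TG.DD [Fintype κ] [DecidableEq κ] {T : Tk (k + 1) Fd ρF κ} (h : TG κ T) :
    TG (Option κ) (fun X b => DD X.d b.A (T X b)) := by
  intro σ
  by_cases h0 : σ none = true
  · obtain ⟨σ', hσ⟩ : ∃ σ' : κ → Bool, σ = fun s => s.elim true σ' := by
      refine ⟨fun s => σ (some s), ?_⟩
      funext s
      cases s with
      | none => exact h0
      | some s => rfl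
    subst hσ
    obtain ⟨S, hS, hI⟩ := h σ'
    refine ⟨_, (hS.DD (E' := Set.univ) fun _ _ => Set.mem_univ _).relab (E1' σ'),
      fun A b hb hz K => ?_⟩
    have hP := hb.Pd
    rw [ins_E1]
    set a := K (E1' σ' none) with ha
    set K' : {s // σ' s = true} → Fin k := fun s => K (E1' σ' (some s)) with hK'
    show A.d a.succ (T A b (ins σ' K')) - act (b.A a.succ) (T A b) (ins σ' K')
      = A.d a.succ (S A.tg (tgb hP) K') - act ((tgb hP).A a) (S A.tg (tgb hP)) K'
    rw [hI A b hb hz]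
    congr 1
    unfold act
    have h1 : ∀ s : κ, σ' s ≠ true →
        (∑ l, b.A a.succ l (ins σ' K' s) * T A b (Function.update (ins σ' K') s l)) = 0 := by
      intro s hs
      refine Finset.sum_eq_zero fun l _ => ?_
      have : ins σ' K' s = 0 := dif_neg hs
      rw [this, hP.A0 _ _ _ (Or.inr (Or.inr rfl)), zero_mul]
    rw [← Finset.sum_filter_of_ne (p := fun s => σ' s = true) (fun s _ hne => by
      by_contra hs
      exact hne (h1 s hs))]
    rw [Finset.sum_subtype (p := fun s => σ' s = true) _ (fun s => by simp)]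
    refine Finset.sum_congr rfl fun s _ => ?_
    rw [Fin.sum_univ_succ, hP.A0 _ _ _ (Or.inr (Or.inl rfl)), zero_mul, zero_add]
    refine Finset.sum_congr rfl fun c _ => ?_
    have h2 : ins σ' K' s.1 = (K' s).succ := dif_pos s.2
    rw [h2, ← tgb_A hP]
    congr 1
    rw [← hI A b hb hz]
    congr 1
    funext u
    by_cases hu : u = s.1
    · subst hu
      rw [Function.update_self]
      have : ins σ' (Function.update K' s c) s.1 = (Function.update K' s c s).succ := dif_pos s.2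
      rw [this, Function.update_self]
    · rw [Function.update_of_ne hu]
      unfold ins
      by_cases h3 : σ' u = true
      · rw [dif_pos h3, dif_pos h3, Function.update_of_ne (fun h' => hu (congrArg Subtype.val h'))]
      · rw [dif_neg h3, dif_neg h3]
  · refine ⟨fun _ _ _ => 0, FS.zero, fun A b hb hz K => ?_⟩
    exact hb.Pd.DD0 _ _ (dif_neg h0)

end TGl

open Classical in
theorem HN.tg {g : Dg Fd} {r : ℕ} {T : Tn (k + 1) Fd ρF r} {L : Ln (k + 1) Fd ρF r}
    (h : HN Sh g r T L) : g.1 = 0 → TG (Fin r) T := by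
  induction h with
  | one =>
    intro _ σ
    exact ⟨_, (FS.one (Set.mem_univ _)).relab (Equiv.equivOfIsEmpty (Fin 0) _),
      fun _ _ _ _ _ => rfl⟩
  | met =>
    intro _ σ
    by_cases h1 : ∀ s, σ s = true
    · refine ⟨_, (FS.metr (Set.mem_univ _)).relab (Equiv.subtypeUnivEquiv h1).symm,
        fun A b hb hz K => ?_⟩
      show b.G (ins σ K 0) (ins σ K 1) = b.G (K ⟨0, h1 0⟩).succ (K ⟨1, h1 1⟩).succ
      unfold ins
      rw [dif_pos (h1 0), dif_pos (h1 1)]
    · by_cases h2 : ∀ s, σ s ≠ true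
      · haveI : IsEmpty {s // σ s = true} := ⟨fun s => h2 s.1 s.2⟩
        refine ⟨_, (FS.one (Set.mem_univ _)).relab (Equiv.equivOfIsEmpty (Fin 0) _),
          fun A b hb hz K => ?_⟩
        show b.G (ins σ K 0) (ins σ K 1) = 1
        unfold ins
        rw [dif_neg (h2 0), dif_neg (h2 1)]
        exact hb.g00
      · refine ⟨fun _ _ _ => 0, FS.zero, fun A b hb hz K => ?_⟩
        show b.G (ins σ K 0) (ins σ K 1) = 0
        push Not at h1 h2
        obtain ⟨s, hs⟩ := h1
        obtain ⟨t, ht⟩ := h2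
        unfold ins
        fin_cases s <;> fin_cases t
        · exact absurd ht hs
        · rw [dif_neg (show σ 0 ≠ true from hs), dif_pos (show σ 1 = true from ht)]
          exact hb.g0 _
        · rw [dif_neg (show σ 1 ≠ true from hs), dif_pos (show σ 0 = true from ht), b.symm]
          exact hb.g0 _
        · exact absurd ht hs
  | curv =>
    intro _ σ
    by_cases h1 : ∀ s, σ s = true
    · refine ⟨_, (FS.curv (Set.mem_univ _)).relab (Equiv.subtypeUnivEquiv h1).symm,
        fun A b hb hz K => ?_⟩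
      show b.curv (ins σ K) = (tgb hb.Pd).curv (fun s => K ⟨s, h1 s⟩)
      rw [tgb_curv]
      congr 1
      funext s
      exact dif_pos (h1 s)
    · push Not at h1
      obtain ⟨s, hs⟩ := h1
      refine ⟨fun _ _ _ => 0, FS.zero, fun A b hb hz K => ?_⟩
      exact hb.Pd.curv0 _ ⟨s, dif_neg hs⟩
  | fieldV j hj =>
    intro h
    exact absurd h (by simp)
  | fieldC j hj =>
    intro _ σ
    cases j with
    | nu =>
      by_cases h1 : σ 0 = true
      · refine ⟨fun _ _ _ => 0, FS.zero, fun A b hb hz K => ?_⟩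
        show b.Φ Fd.nu (ins σ K) = 0
        rw [hb.nu, if_neg]
        unfold ins
        rw [dif_pos h1]
        exact Fin.succ_ne_zero _
      · haveI : IsEmpty {s // σ s = true} := ⟨fun s => h1 (by
          have : s.1 = 0 := Subsingleton.elim _ _
          rw [← this]; exact s.2)⟩
        refine ⟨_, (FS.one (Set.mem_univ _)).relab (Equiv.equivOfIsEmpty (Fin 0) _),
          fun A b hb hz K => ?_⟩
        show b.Φ Fd.nu (ins σ K) = 1
        rw [hb.nu, if_pos]
        unfold ins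
        rw [dif_neg h1]
    | h j => exact absurd ⟨j, rfl⟩ hj
    | chi =>
      refine ⟨fun _ _ _ => 0, FS.zero, fun A b hb hz K => ?_⟩
      show b.Φ Fd.chi (ins σ K) = 0
      rw [← hz]
      show (if Fd.chi ∈ Nt then 0 * b.Φ Fd.chi (ins σ K) else b.Φ Fd.chi (ins σ K)) = 0
      rw [if_pos (show Fd.chi ∈ Nt from Or.inl rfl), zero_mul]
    | om j =>
      refine ⟨fun _ _ _ => 0, FS.zero, fun A b hb hz K => ?_⟩
      show b.Φ (Fd.om j) (ins σ K) = 0
      rw [← hz]
      show (if Fd.om j ∈ Nt then 0 * b.Φ (Fd.om j) (ins σ K) else b.Φ (Fd.om j) (ins σ K)) = 0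
      rw [if_pos (show Fd.om j ∈ Nt from Or.inr ⟨j, rfl⟩), zero_mul]
  | zero g r => intro _; exact TG.zero
  | add _ _ h1 h2 => intro h; exact (h1 h).add (h2 h)
  | smul t _ h1 => intro h; exact (h1 h).smul t
  | mul e _ _ h1 h2 =>
    intro h
    have h3 := (add_eq_zero (a := _) (b := _)).mp h
    exact ((h1 h3.1).mul (h2 h3.2)).relab e
  | perm e _ h1 => intro h; exact (h1 h).relab e
  | contr e _ h1 => intro h; exact TG.contr2 ((h1 h).relab e)
  | @deriv g r t T L e _ h1 =>
    intro h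
    have h3 : g.1 = 0 := by
      have : (g + (0, 1)).1 = g.1 := add_zero _
      rw [this] at h
      exact h
    exact ((h1 h3).DD).relab e

open Classical in
/-- scalars without fields are intrinsic -/
theorem intr {K0 : Sc k} (h : NS {g | g.1 = 0} K0) : ∃ P0 : Fml Empty (fun _ => 0) 0,
    ∀ (A : DR (k + 1)) (b : HD A) (hb : Fer b), b.scl Nt 0 = b →
      K0 A b = P0.eval A.tg (tgb hb.Pd) ![] := by
  obtain ⟨T', hT', hI⟩ := h
  obtain ⟨ι, hι, g, T1, L, hg, hT1, hS⟩ := hT'.out (Equiv.refl (Fin 0))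
  choose S hS1 hS2 using fun i => (hT1 i).tg (hg i) (fun _ => true)
  have h1 : FS (n := k) (ρ := fun _ : Empty => 0) Set.univ Set.univ (Fin 0) (fun X c K =>
      ∑ i, Run7.h96.relab (Equiv.equivOfIsEmpty {s : Fin 0 // (fun _ => true) s = true} (Fin 0))
        (S i X c) K) := FS.sum _ fun i _ => (hS1 i).relab _
  obtain ⟨P0, hP0⟩ := h1.toFml
  refine ⟨P0, fun A b hb hz => ?_⟩
  rw [hP0]
  have h2 := hI A b hb ![]
  beta_reduce at h2
  rw [h2, hS]
  refine Finset.sum_congr rfl fun i _ => ?_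
  show _ = S i A.tg (tgb hb.Pd) _
  rw [← hS2 i A b hb hz]
  exact congrArg _ (Subsingleton.elim _ _)

end Run7.h96.Hy

end

section

/-!
The decomposition theorem for metrics on `ℝ × T^k`.
-/

set_option linter.all false
set_option maxHeartbeats 400000

open scoped BigOperators
open MeasureTheory

namespace Run7.h96.Hy

open CInv

variable {k : ℕ}

/-- the induced metric on the hypersurface, as a metric on `T^k` -/
noncomputable def Mt.ind {X A : DR (k + 1)} {H : Hs X A} (m : Mt H) : BD A.tg Empty (fun _ => 0) := tgb m.hyp_Pd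

theorem Fml.sum {J : Type} {ρ : J → ℕ} {r : ℕ} (M : ℕ) (F : ℕ → Fml J ρ r) : ∃ S : Fml J ρ r,
    ∀ (n : ℕ) (X : DR n) (b : BD X J ρ) K, S.eval X b K = ∑ i ∈ Finset.range M, (F i).eval X b K := by
  induction M with
  | zero => exact ⟨.zero r, fun n X b K => by rw [Finset.range_zero, Finset.sum_empty]; rfl⟩
  | succ M ih =>
    obtain ⟨S, hS⟩ := ih
    exact ⟨.add S (F M), fun n X b K => by rw [Finset.sum_range_succ, ← hS]; rfl⟩

theorem tgb_eq {A : DR (k + 1)} {J J' : Type} {ρ : J → ℕ} {ρ' : J' → ℕ} {b : BD A J ρ}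
    {b' : BD A J' ρ'} (h : Pd b) (h' : Pd b') (hG : b.G = b'.G) (hGi : b.Gi = b'.Gi) :
    tgb h = tgb h' := by
  refine BD.ext' ?_ ?_ (by funext e; exact e.elim)
  · funext a c
    show b.G a.succ c.succ = b'.G a.succ c.succ
    rw [hG]
  · funext a c
    show b.Gi a.succ c.succ = b'.Gi a.succ c.succ
    rw [hGi]

open Classical in
theorem decomp_thm (hk : 1 ≤ k) (P : Fml Fa ρa 0)
    (h : ∀ m : Mt (HX k), Pos m → ∀ ω, total P (conf m ω) = total P m) :
    ∃ (P0 : Fml Empty (fun _ => 0) 0) (W : Fml Fa ρa 0) (V : Fml Fa ρa 1),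
      (∀ m : Mt (HX k), Pos m → P.eval (AA k) m.hyp ![] = P0.eval (AA k).tg m.ind ![]
        + W.eval (AA k) m.hyp ![] + V.dv.eval (AA k) m.hyp ![]) ∧
      ∀ m : Mt (HX k), Pos m → ∀ ω : (XX k).R,
        (HX k).res (eX ω) ^ k * W.eval (AA k) (conf m ω).hyp ![] = W.eval (AA k) m.hyp ![] := by
  obtain ⟨M, Q, hkM, hQ, hS⟩ := split_w (k := k) P
  obtain ⟨h0, hk'⟩ := weights hkM hQ hS h
  have hNS : ∀ n, NS (EW ((n : ℕ) : WithTop ℤ)) (scP (k := k) (Q n)) := by
    intro n
    refine NF.of ?_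
    have h1 := (hQ n).substW wa (fun X b => hFf X b) (fun j => hFf_FS j)
    refine h1.congr fun X b K => ?_
    show (Q n).eval X (b.setF (hFf X b)) K = (Q n).eval X (b.setF (hFf X b)) ![]
    exact congrArg _ (Subsingleton.elim _ _)
  obtain ⟨Kk, W, Vk, hKk, hdk, hcov⟩ := wk_part hk (Q k) (hNS k) hk'
  have hKk' : NS {g | g.1 = 0} Kk := NF.mono hKk (fun g hg => hg.1)
  obtain ⟨Pk, hPk⟩ := intr hKk'
  have hrest : ∀ n, ∃ (Pn : Fml Empty (fun _ => 0) 0) (Vn : Fml Fa ρa 1), n < M →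
      ∀ m : Mt (HX k), Pos m → (Q n).eval (AA k) m.hyp ![] = Pn.eval (AA k).tg m.ind ![]
        + (if n = k then W.eval (AA k) m.hyp ![] else 0) + Vn.dv.eval (AA k) m.hyp ![] := by
    intro n
    by_cases hnk : n = k
    · subst hnk
      refine ⟨Pk, Vk, fun _ m hm => ?_⟩
      obtain ⟨b, hb, hz, hmb⟩ := nf_m m
      rw [if_pos rfl, hdk m hm b hb hz hmb, hPk _ b hb hz]
      congr 3
      have : tgb hb.Pd = m.ind := tgb_eq _ _ (by rw [hmb]; rfl) (by rw [hmb]; rfl)
      rw [this]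
    · by_cases hn : n < M
      · obtain ⟨Kn, Vn, hKn, hdn⟩ := w_part (Q n) (hNS n) (h0 n hn hnk)
        obtain ⟨Pn, hPn⟩ := intr hKn
        refine ⟨Pn, Vn, fun _ m hm => ?_⟩
        obtain ⟨b, hb, hz, hmb⟩ := nf_m m
        rw [if_neg hnk, add_zero, hdn m hm b hb hz hmb, hPn _ b hb hz]
        congr 2
        have : tgb hb.Pd = m.ind := tgb_eq _ _ (by rw [hmb]; rfl) (by rw [hmb]; rfl)
        rw [this]
      · exact ⟨.zero 0, .zero 1, fun h => absurd h hn⟩
  choose Pn Vn hPV using hrest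
  obtain ⟨P0, hP0⟩ := Fml.sum M Pn
  obtain ⟨V, hV⟩ := Fml.sum M Vn
  refine ⟨P0, W, V, fun m hm => ?_, hcov⟩
  rw [hS, hP0, Fml.dv_eval]
  simp only [hV]
  rw [dvg_sum]
  have h1 : ∀ n ∈ Finset.range M, (Q n).eval (AA k) m.hyp ![] = (Pn n).eval (AA k).tg m.ind ![]
        + (if n = k then W.eval (AA k) m.hyp ![] else 0) + (Vn n).dv.eval (AA k) m.hyp ![] :=
    fun n hn => hPV n (Finset.mem_range.mp hn) m hm
  rw [Finset.sum_congr rfl h1, Finset.sum_add_distrib, Finset.sum_add_distrib,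
    Finset.sum_ite_eq' (Finset.range M) k, if_pos (Finset.mem_range.mpr hkM)]
  congr 1
  refine Finset.sum_congr rfl fun n _ => ?_
  rw [Fml.dv_eval]

end Run7.h96.Hy

end

section

/-!
Metrics on `ℝ^{k+1}`, and their comparison with metrics on `ℝ × T^k` near a point.
-/

set_option linter.all false
set_option maxHeartbeats 400000

open scoped BigOperators
open MeasureTheory

namespace Run7.h96.Hy

open CInv

variable {k : ℕ}

/-- smooth functions on `ℝ^{k+1}` -/
noncomputable def XY (k : ℕ) : DR (k + 1) := CsR (Fin (k + 1) → ℝ) ∅ (vX k)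

/-- smooth functions on `ℝ^k`; the derivation with index `0` is zero -/
noncomputable def AY (k : ℕ) : DR (k + 1) := CsR (Fin k → ℝ) ∅ (vA k)

/-- values -/
noncomputable def vy (f : (XY k).R) (x : Fin (k + 1) → ℝ) : ℝ := vl (v := vX k) f x
/-- values -/
noncomputable def vb (f : (AY k).R) (x : Fin k → ℝ) : ℝ := vl (v := vA k) f x

theorem vy_smooth (f : (XY k).R) : ContDiff ℝ (⊤ : ℕ∞) (vy f) := vl_smooth (v := vX k) f
theorem vb_smooth (f : (AY k).R) : ContDiff ℝ (⊤ : ℕ∞) (vb f) := vl_smooth (v := vA k) f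
theorem vb_ext {f g : (AY k).R} (h : ∀ x, vb f x = vb g x) : f = g := vl_ext (v := vA k) h

/-- the hyperplane `{x₀ = 0}` of `ℝ^{k+1}` -/
noncomputable def HY (k : ℕ) : Hs (XY k) (AY k) where
  res := cph 0 (inY k) (fun l hl => hl.elim)
  hd a f := (d_cph (v := vX k) (v' := vA k) (0 : Fin (k + 1) → ℝ) (inY k)
    (Λ := ∅) (Λ' := ∅) (fun l hl => hl.elim) f a.succ a.succ (inY_single a)).symm
  d0 f := vb_ext fun x => (vl_d (v := vA k) (0 : Fin (k + 1)) f x).trans (map_zero _)

theorem vb_res (f : (XY k).R) (x : Fin k → ℝ) : vb ((HY k).res f) x = vy f (Fin.cons 0 x) := by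
  show vy f (0 + inY k x) = _
  rw [zero_add, inY_apply]

/-- exponential -/
noncomputable def eY (f : (XY k).R) : (XY k).R := expC (v := vX k) f
theorem vy_eY (f : (XY k).R) (x : Fin (k + 1) → ℝ) : vy (eY f) x = Real.exp (vy f x) := rfl
theorem eY_inv (f : (XY k).R) : eY f * eY (-f) = 1 := exp_inv (v := vX k) f

/-- the metric `e^{2ω} g` -/
noncomputable def confY (m : Mt (HY k)) (ω : (XY k).R) : Mt (HY k) :=
  m.mulc (eY ω) (eY (-ω)) (eY_inv ω)

/-- positive definite metrics -/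
def PosY (m : Mt (HY k)) : Prop := ∀ x, (Matrix.of fun i j => vy (m.g i j) x).PosDef

/-! ### pairs of functions -/

section Agr

variable {n : ℕ}

/-- a differential subring of the product -/
def DR.agr (X X' : DR n) (S : Subalgebra ℝ (X.R × X'.R))
    (hS : ∀ i p, p ∈ S → ((X.d i p.1, X'.d i p.2) : X.R × X'.R) ∈ S) : DR n where
  R := S
  d i :=
    { toFun := fun p => ⟨(X.d i p.1.1, X'.d i p.1.2), hS i p.1 p.2⟩
      map_add' := fun p q => by
        apply Subtype.ext
        exact Prod.ext (map_add (X.d i) _ _) (map_add (X'.d i) _ _)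
      map_smul' := fun t p => by
        apply Subtype.ext
        exact Prod.ext ((X.d i).map_smul _ _) ((X'.d i).map_smul _ _)
      map_one_eq_zero' := by
        apply Subtype.ext
        exact Prod.ext (Derivation.map_one_eq_zero _) (Derivation.map_one_eq_zero _)
      leibniz' := fun p q => by
        apply Subtype.ext
        exact Prod.ext (Derivation.leibniz (X.d i) _ _) (Derivation.leibniz (X'.d i) _ _) }
  comm i j p := by
    apply Subtype.ext
    exact Prod.ext (X.comm i j _) (X'.comm i j _)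

variable (X X' : DR n) (S : Subalgebra ℝ (X.R × X'.R))
  (hS : ∀ i p, p ∈ S → ((X.d i p.1, X'.d i p.2) : X.R × X'.R) ∈ S)

/-- first projection -/
def pr1 : DH (X.agr X' S hS) X where
  f := (AlgHom.fst ℝ X.R X'.R).comp S.val
  hd i a := rfl

/-- second projection -/
def pr2 : DH (X.agr X' S hS) X' where
  f := (AlgHom.snd ℝ X.R X'.R).comp S.val
  hd i a := rfl

end Agr

/-- functions agreeing near a point -/
def SX (y : Fin k → ℝ) : Subalgebra ℝ ((XY k).R × (XX k).R) where
  carrier := {p | vy p.1 =ᶠ[nhds (Fin.cons 0 y)] vx p.2}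
  mul_mem' := fun {p q} hp hq => by
    filter_upwards [hp, hq] with x h1 h2
    show vy p.1 x * vy q.1 x = vx p.2 x * vx q.2 x
    rw [h1, h2]
  add_mem' := fun {p q} hp hq => by
    filter_upwards [hp, hq] with x h1 h2
    show vy p.1 x + vy q.1 x = vx p.2 x + vx q.2 x
    rw [h1, h2]
  algebraMap_mem' := fun r => Filter.Eventually.of_forall fun x => rfl

/-- functions agreeing near a point -/
def SA (y : Fin k → ℝ) : Subalgebra ℝ ((AY k).R × (AA k).R) where
  carrier := {p | vb p.1 =ᶠ[nhds y] va p.2}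
  mul_mem' := fun {p q} hp hq => by
    filter_upwards [hp, hq] with x h1 h2
    show vb p.1 x * vb q.1 x = va p.2 x * va q.2 x
    rw [h1, h2]
  add_mem' := fun {p q} hp hq => by
    filter_upwards [hp, hq] with x h1 h2
    show vb p.1 x + vb q.1 x = va p.2 x + va q.2 x
    rw [h1, h2]
  algebraMap_mem' := fun r => Filter.Eventually.of_forall fun x => rfl

theorem SX_d (y : Fin k → ℝ) (i : Fin (k + 1)) (p : (XY k).R × (XX k).R) (hp : p ∈ SX y) :
    (((XY k).d i p.1, (XX k).d i p.2) : (XY k).R × (XX k).R) ∈ SX y := by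
  have h1 : vy p.1 =ᶠ[nhds (Fin.cons 0 y)] vx p.2 := hp
  have h2 := h1.fderiv (𝕜 := ℝ)
  show vy ((XY k).d i p.1) =ᶠ[nhds (Fin.cons 0 y)] vx ((XX k).d i p.2)
  filter_upwards [h2] with x hx
  show fderiv ℝ (vy p.1) x (vX k i) = fderiv ℝ (vx p.2) x (vX k i)
  rw [hx]

theorem SA_d (y : Fin k → ℝ) (i : Fin (k + 1)) (p : (AY k).R × (AA k).R) (hp : p ∈ SA y) :
    (((AY k).d i p.1, (AA k).d i p.2) : (AY k).R × (AA k).R) ∈ SA y := by
  have h1 : vb p.1 =ᶠ[nhds y] va p.2 := hp
  have h2 := h1.fderiv (𝕜 := ℝ)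
  show vb ((AY k).d i p.1) =ᶠ[nhds y] va ((AA k).d i p.2)
  filter_upwards [h2] with x hx
  show fderiv ℝ (vb p.1) x (vA k i) = fderiv ℝ (va p.2) x (vA k i)
  rw [hx]

/-- pairs of functions agreeing near a point -/
noncomputable def ZX (y : Fin k → ℝ) : DR (k + 1) := (XY k).agr (XX k) (SX y) (SX_d y)
/-- pairs of functions agreeing near a point -/
noncomputable def ZA (y : Fin k → ℝ) : DR (k + 1) := (AY k).agr (AA k) (SA y) (SA_d y)

theorem res_SA (y : Fin k → ℝ) (p : (XY k).R × (XX k).R) (hp : p ∈ SX y) :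
    (((HY k).res p.1, (HX k).res p.2) : (AY k).R × (AA k).R) ∈ SA y := by
  have h1 : vy p.1 =ᶠ[nhds (Fin.cons 0 y)] vx p.2 := hp
  have hc : Continuous (fun x : Fin k → ℝ => (Fin.cons 0 x : Fin (k + 1) → ℝ)) := by
    have : (fun x : Fin k → ℝ => (Fin.cons 0 x : Fin (k + 1) → ℝ)) = inY k := by
      funext x; rw [inY_apply]
    rw [this]
    exact (inY k).continuous
  have h2 := (hc.tendsto y).eventually h1
  show vb ((HY k).res p.1) =ᶠ[nhds y] va ((HX k).res p.2)
  filter_upwards [h2] with x hx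
  rw [vb_res, va_res, hx]

/-- the hypersurface for pairs -/
noncomputable def HZ (y : Fin k → ℝ) : Hs (ZX y) (ZA y) where
  res :=
    { toFun := fun p => ⟨((HY k).res p.1.1, (HX k).res p.1.2), res_SA y p.1 p.2⟩
      map_one' := Subtype.ext (Prod.ext (map_one _) (map_one _))
      map_mul' := fun p q => Subtype.ext (Prod.ext (map_mul _ _ _) (map_mul _ _ _))
      map_zero' := Subtype.ext (Prod.ext (map_zero _) (map_zero _))
      map_add' := fun p q => Subtype.ext (Prod.ext (map_add _ _ _) (map_add _ _ _))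
      commutes' := fun t => Subtype.ext (Prod.ext ((HY k).res.commutes t) ((HX k).res.commutes t)) }
  hd a f := Subtype.ext (Prod.ext ((HY k).hd a _) ((HX k).hd a _))
  d0 f := Subtype.ext (Prod.ext ((HY k).d0 _) ((HX k).d0 _))

/-- projections -/
noncomputable def qX1 (y : Fin k → ℝ) : DH (ZX y) (XY k) := pr1 (XY k) (XX k) (SX y) (SX_d y)
noncomputable def qX2 (y : Fin k → ℝ) : DH (ZX y) (XX k) := pr2 (XY k) (XX k) (SX y) (SX_d y)
noncomputable def qA1 (y : Fin k → ℝ) : DH (ZA y) (AY k) := pr1 (AY k) (AA k) (SA y) (SA_d y)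
noncomputable def qA2 (y : Fin k → ℝ) : DH (ZA y) (AA k) := pr2 (AY k) (AA k) (SA y) (SA_d y)

/-- tangential morphisms -/
def DH.tg {A B : DR (k + 1)} (η : DH A B) : DH A.tg B.tg where
  f := η.f
  hd a f := η.hd a.succ f

section Agree

variable {y : Fin k → ℝ} {m : Mt (HY k)} {m' : Mt (HX k)}

/-- two metrics agreeing near a point -/
structure Agr (y : Fin k → ℝ) (m : Mt (HY k)) (m' : Mt (HX k)) : Prop where
  g : ∀ i j, ((m.g i j, m'.g i j) : (XY k).R × (XX k).R) ∈ SX y
  gi : ∀ i j, ((m.gi i j, m'.gi i j) : (XY k).R × (XX k).R) ∈ SX y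
  N : ((m.N, m'.N) : (AY k).R × (AA k).R) ∈ SA y

/-- the pair of metrics -/
noncomputable def Agr.mt (h : Agr y m m') : Mt (HZ y) where
  g i j := ⟨(m.g i j, m'.g i j), h.g i j⟩
  gi i j := ⟨(m.gi i j, m'.gi i j), h.gi i j⟩
  met := {
    symm := fun i j => Subtype.ext (Prod.ext (m.met.symm i j) (m'.met.symm i j))
    inv := fun i j => by
      apply Subtype.ext
      refine Prod.ext ?_ ?_
      · refine (map_sum (qX1 y).f _ _).trans ?_
        refine (m.met.inv i j).trans ?_
        split_ifs <;> rfl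
      · refine (map_sum (qX2 y).f _ _).trans ?_
        refine (m'.met.inv i j).trans ?_
        split_ifs <;> rfl }
  N := ⟨(m.N, m'.N), h.N⟩
  hN := Subtype.ext (Prod.ext m.hN m'.hN)

theorem Agr.hyp1 (h : Agr y m m') : m.hyp = h.mt.hyp.map (qA1 y).f :=
  Mt.hyp_map (m := h.mt) (m' := m) (qX1 y) (qA1 y) (fun f => rfl) rfl rfl rfl

theorem Agr.hyp2 (h : Agr y m m') : m'.hyp = h.mt.hyp.map (qA2 y).f :=
  Mt.hyp_map (m := h.mt) (m' := m') (qX2 y) (qA2 y) (fun f => rfl) rfl rfl rfl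

theorem ind_map {X A X' A' : DR (k + 1)} {H : Hs X A} {H' : Hs X' A'} {m : Mt H} {m' : Mt H'}
    (η : DH A A') (h : m'.hyp = m.hyp.map η.f) : m'.ind = m.ind.map η.tg.f := by
  refine BD.ext' ?_ ?_ (by funext e; exact e.elim)
  · funext a c
    show m'.hyp.G a.succ c.succ = η.f (m.hyp.G a.succ c.succ)
    rw [h]; rfl
  · funext a c
    show m'.hyp.Gi a.succ c.succ = η.f (m.hyp.Gi a.succ c.succ)
    rw [h]; rfl

/-- formulas are local -/
theorem Agr.eval (h : Agr y m m') {r : ℕ} (P : Fml Fa ρa r) (K : Fin r → Fin (k + 1)) :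
    vb (P.eval (AY k) m.hyp K) y = va (P.eval (AA k) m'.hyp K) y := by
  rw [h.hyp1, h.hyp2, Fml.eval_map, Fml.eval_map]
  exact (P.eval (ZA y) h.mt.hyp K).2.self_of_nhds

theorem Agr.evalI (h : Agr y m m') {r : ℕ} (P : Fml Empty (fun _ => 0) r) (K : Fin r → Fin k) :
    vb (P.eval (AY k).tg m.ind K) y = va (P.eval (AA k).tg m'.ind K) y := by
  rw [ind_map (m := h.mt) (m' := m) (qA1 y) h.hyp1, ind_map (m := h.mt) (m' := m') (qA2 y) h.hyp2,
    Fml.eval_map, Fml.eval_map]
  exact (P.eval (ZA y).tg h.mt.ind K).2.self_of_nhds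

end Agree

/-! ### periodic modifications -/

/-- a smooth periodic function which is the identity near `0` -/
theorem ex_theta : ∃ θ : ℝ → ℝ, ContDiff ℝ (⊤ : ℕ∞) θ ∧ (∀ t, θ (t + 1) = θ t) ∧
    ∃ ε > 0, ∀ t, |t| < ε → θ t = t := by
  let φ : ContDiffBump (0 : ℝ) := ⟨1 / 4, 1 / 2, by norm_num, by norm_num⟩
  let ψ : ℝ → ℝ := fun s => φ s * (Real.arcsin s / (2 * Real.pi))
  have hψ : ContDiff ℝ (⊤ : ℕ∞) ψ := by
    rw [contDiff_iff_contDiffAt]
    intro s
    rcases lt_or_ge |s| 1 with h | h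
    · have h1 := abs_lt.mp h
      exact φ.contDiff.contDiffAt.mul ((Real.contDiffAt_arcsin (by linarith [h1.1] : s ≠ -1)
        (by linarith [h1.2] : s ≠ 1)).div_const _)
    · have : ψ =ᶠ[nhds s] fun _ => 0 := by
        have hopen : IsOpen {u : ℝ | 1 / 2 < |u|} := isOpen_lt continuous_const continuous_abs
        filter_upwards [hopen.mem_nhds (show 1 / 2 < |s| by linarith)] with u hu
        show φ u * _ = 0
        rw [φ.zero_of_le_dist (by rw [dist_zero_right]; exact le_of_lt hu), zero_mul]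
      exact contDiffAt_const.congr_of_eventuallyEq this
  have hpi := Real.pi_pos
  refine ⟨fun t => ψ (Real.sin (2 * Real.pi * t)), ?_, ?_, 1 / 32, by norm_num, ?_⟩
  · exact hψ.comp (Real.contDiff_sin.comp (contDiff_const.mul contDiff_id))
  · intro t
    have : 2 * Real.pi * (t + 1) = 2 * Real.pi * t + 2 * Real.pi := by ring
    beta_reduce
    rw [this, Real.sin_add_two_pi]
  · intro t ht
    have h1 : |2 * Real.pi * t| < 1 / 4 := by
      rw [abs_mul, abs_of_pos (by positivity)]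
      have h2 : Real.pi < 4 := by linarith [Real.pi_lt_d2]
      calc 2 * Real.pi * |t| ≤ 2 * 4 * |t| := by
            have := abs_nonneg t
            nlinarith
        _ < 2 * 4 * (1 / 32) := by linarith
        _ = 1 / 4 := by norm_num
    have h3 : |Real.sin (2 * Real.pi * t)| ≤ 1 / 4 := (Real.abs_sin_le_abs).trans h1.le
    show φ (Real.sin (2 * Real.pi * t)) * (Real.arcsin (Real.sin (2 * Real.pi * t)) / (2 * Real.pi))
      = t
    rw [φ.one_of_mem_closedBall (by rw [Metric.mem_closedBall, dist_zero_right]; exact h3), one_mul]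
    have h4 := abs_lt.mp h1
    have h5 : (3 : ℝ) < Real.pi := Real.pi_gt_three
    rw [Real.arcsin_sin (by linarith [h4.1]) (by linarith [h4.2])]
    field_simp

end Run7.h96.Hy

end

section

/-!
From periodic metrics to all metrics on `ℝ^{k+1}`.
-/

set_option linter.all false
set_option maxHeartbeats 400000

open scoped BigOperators
open MeasureTheory

namespace Run7.h96.Hy

open CInv

variable {k : ℕ}

section Per

variable {θ : ℝ → ℝ} (hθ : ContDiff ℝ (⊤ : ℕ∞) θ) (hp : ∀ t, θ (t + 1) = θ t) (y : Fin k → ℝ)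

/-- periodic map -/
def ΘA (θ : ℝ → ℝ) (y x : Fin k → ℝ) : Fin k → ℝ := fun a => y a + θ (x a - y a)

/-- periodic map -/
def ΘX (θ : ℝ → ℝ) (y : Fin k → ℝ) (x : Fin (k + 1) → ℝ) : Fin (k + 1) → ℝ :=
  Fin.cons (x 0) (ΘA θ y (fun a => x a.succ))

include hθ in
theorem ΘA_smooth : ContDiff ℝ (⊤ : ℕ∞) (ΘA θ y) := by
  rw [contDiff_pi]
  intro a
  exact contDiff_const.add (hθ.comp ((contDiff_apply ℝ ℝ a).sub contDiff_const))

include hθ in
theorem ΘX_smooth : ContDiff ℝ (⊤ : ℕ∞) (ΘX θ y) := by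
  rw [contDiff_pi]
  intro i
  refine Fin.cases ?_ (fun a => ?_) i
  · exact contDiff_apply ℝ ℝ 0
  · exact contDiff_const.add (hθ.comp ((contDiff_apply ℝ ℝ a.succ).sub contDiff_const))

include hp in
theorem ΘA_per (l : Fin k → ℝ) (hl : l ∈ PA k) (x : Fin k → ℝ) : ΘA θ y (x + l) = ΘA θ y x := by
  obtain ⟨a, rfl⟩ := hl
  funext c
  show y c + θ ((x + (Pi.single a 1 : Fin k → ℝ)) c - y c) = y c + θ (x c - y c)
  by_cases h : c = a
  · subst h
    have : (x + Pi.single c 1 : Fin k → ℝ) c - y c = (x c - y c) + 1 := by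
      rw [Pi.add_apply, Pi.single_eq_same]; ring
    rw [this, hp]
  · rw [Pi.add_apply, Pi.single_eq_of_ne h, add_zero]

include hp in
theorem ΘX_per (l : Fin (k + 1) → ℝ) (hl : l ∈ PX k) (x : Fin (k + 1) → ℝ) :
    ΘX θ y (x + l) = ΘX θ y x := by
  have h1 : tlX k l ∈ PA k := tlX_PA l hl
  obtain ⟨a, rfl⟩ := hl
  unfold ΘX
  have e1 : (x + Pi.single a.succ 1 : Fin (k + 1) → ℝ) 0 = x 0 := by
    rw [Pi.add_apply, Pi.single_eq_of_ne (Fin.succ_ne_zero a).symm, add_zero]
  have e2 : (fun b : Fin k => (x + Pi.single a.succ 1 : Fin (k + 1) → ℝ) b.succ)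
      = (fun b : Fin k => x b.succ) + tlX k (Pi.single a.succ 1) := rfl
  rw [e1, e2, ΘA_per hp y _ h1]

/-- composition with the periodic map -/
noncomputable def pY : (XY k).R →ₐ[ℝ] (XX k).R where
  toFun f := mkC (v := vX k) (Λ := PX k) (fun x => vy f (ΘX θ y x))
    ((vy_smooth f).comp (ΘX_smooth hθ y)) (fun l hl x => by rw [ΘX_per hp y l hl])
  map_one' := rfl
  map_mul' _ _ := rfl
  map_zero' := rfl
  map_add' _ _ := rfl
  commutes' _ := rfl

/-- composition with the periodic map -/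
noncomputable def pA : (AY k).R →ₐ[ℝ] (AA k).R where
  toFun f := mkC (v := vA k) (Λ := PA k) (fun x => vb f (ΘA θ y x))
    ((vb_smooth f).comp (ΘA_smooth hθ y)) (fun l hl x => by rw [ΘA_per hp y l hl])
  map_one' := rfl
  map_mul' _ _ := rfl
  map_zero' := rfl
  map_add' _ _ := rfl
  commutes' _ := rfl

theorem vx_pY (f : (XY k).R) (x : Fin (k + 1) → ℝ) : vx (pY hθ hp y f) x = vy f (ΘX θ y x) := rfl
theorem va_pA (f : (AY k).R) (x : Fin k → ℝ) : va (pA hθ hp y f) x = vb f (ΘA θ y x) := rfl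

theorem res_pY (f : (XY k).R) : (HX k).res (pY hθ hp y f) = pA hθ hp y ((HY k).res f) :=
  va_ext fun x => by
    rw [va_res, vx_pY, va_pA, vb_res]
    rfl

/-- the periodic modification of a metric -/
noncomputable def Mt.per (m : Mt (HY k)) : Mt (HX k) where
  g i j := pY hθ hp y (m.g i j)
  gi i j := pY hθ hp y (m.gi i j)
  met := {
    symm := fun i j => by rw [m.met.symm]
    inv := fun i j => by
      have := congrArg (pY hθ hp y) (m.met.inv i j)
      rw [map_sum] at this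
      simp only [map_mul] at this
      rw [this]
      split_ifs
      · exact map_one _
      · exact map_zero _ }
  N := pA hθ hp y m.N
  hN := by rw [res_pY, ← map_mul, ← map_mul, m.hN, map_one]

theorem PosY.per {m : Mt (HY k)} (hm : PosY m) : Pos (m.per hθ hp y) := fun x => hm (ΘX θ y x)

theorem per_conf (m : Mt (HY k)) (ω : (XY k).R) :
    (confY m ω).per hθ hp y = conf (m.per hθ hp y) (pY hθ hp y ω) := by
  refine Mt.ext' ?_ ?_ ?_
  · funext i j
    exact vx_ext fun x => rfl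
  · funext i j
    exact vx_ext fun x => rfl
  · show pA hθ hp y ((HY k).res (eY ω) * m.N)
      = (HX k).res (eX (pY hθ hp y ω)) * pA hθ hp y m.N
    rw [map_mul, ← res_pY]
    congr 1

variable {ε : ℝ} (hε : 0 < ε) (hi : ∀ t, |t| < ε → θ t = t)

include hε hi in
theorem ΘX_near : ∀ᶠ x in nhds (Fin.cons 0 y : Fin (k + 1) → ℝ), ΘX θ y x = x := by
  have h1 : ∀ a : Fin k, ∀ᶠ x in nhds (Fin.cons 0 y : Fin (k + 1) → ℝ), |x a.succ - y a| < ε := by
    intro a
    have hc : Continuous (fun x : Fin (k + 1) → ℝ => |x a.succ - y a|) :=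
      ((continuous_apply a.succ).sub continuous_const).abs
    refine (hc.tendsto _).eventually (gt_mem_nhds ?_)
    show |(Fin.cons 0 y : Fin (k + 1) → ℝ) a.succ - y a| < ε
    rw [Fin.cons_succ, sub_self, abs_zero]
    exact hε
  have h2 := Filter.eventually_all.mpr h1
  filter_upwards [h2] with x hx
  funext i
  refine Fin.cases ?_ (fun a => ?_) i
  · rfl
  · show y a + θ (x a.succ - y a) = x a.succ
    rw [hi _ (hx a)]; ring

include hε hi in
theorem ΘA_near : ∀ᶠ x in nhds y, ΘA θ y x = x := by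
  have h1 : ∀ a : Fin k, ∀ᶠ x in nhds y, |x a - y a| < ε := by
    intro a
    have hc : Continuous (fun x : Fin k → ℝ => |x a - y a|) :=
      ((continuous_apply a).sub continuous_const).abs
    refine (hc.tendsto _).eventually (gt_mem_nhds ?_)
    show |y a - y a| < ε
    rw [sub_self, abs_zero]
    exact hε
  have h2 := Filter.eventually_all.mpr h1
  filter_upwards [h2] with x hx
  funext a
  show y a + θ (x a - y a) = x a
  rw [hi _ (hx a)]; ring

include hε hi in
theorem agr_per (m : Mt (HY k)) : Agr y m (m.per hθ hp y) where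
  g i j := by
    show vy (m.g i j) =ᶠ[nhds (Fin.cons 0 y)] vx (pY hθ hp y (m.g i j))
    filter_upwards [ΘX_near y hε hi] with x hx
    rw [vx_pY, hx]
  gi i j := by
    show vy (m.gi i j) =ᶠ[nhds (Fin.cons 0 y)] vx (pY hθ hp y (m.gi i j))
    filter_upwards [ΘX_near y hε hi] with x hx
    rw [vx_pY, hx]
  N := by
    show vb m.N =ᶠ[nhds y] va (pA hθ hp y m.N)
    filter_upwards [ΘA_near y hε hi] with x hx
    rw [va_pA, hx]

end Per

/-- every metric on `ℝ^{k+1}` agrees near a point with a periodic one -/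
theorem ex_agr (y : Fin k → ℝ) : ∃ (p : Mt (HY k) → Mt (HX k)) (q : (XY k).R → (XX k).R),
    (∀ m, Agr y m (p m)) ∧ (∀ m, PosY m → Pos (p m)) ∧
    (∀ m ω, p (confY m ω) = conf (p m) (q ω)) ∧
    ∀ ω, va ((HX k).res (eX (q ω))) y = vb ((HY k).res (eY ω)) y := by
  obtain ⟨θ, hθ, hp, ε, hε, hi⟩ := ex_theta
  refine ⟨fun m => m.per hθ hp y, fun ω => pY hθ hp y ω, fun m => agr_per hθ hp y hε hi m,
    fun m hm => hm.per hθ hp y, fun m ω => per_conf hθ hp y m ω, fun ω => ?_⟩
  have h1 := (ΘX_near y hε hi).self_of_nhds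
  rw [va_res, vb_res, vx_eX, vy_eY, vx_pY, h1]

theorem vb_mul (f g : (AY k).R) (x : Fin k → ℝ) : vb (f * g) x = vb f x * vb g x := rfl
theorem vb_add (f g : (AY k).R) (x : Fin k → ℝ) : vb (f + g) x = vb f x + vb g x := rfl
theorem vb_pow (f : (AY k).R) (m : ℕ) (x : Fin k → ℝ) : vb (f ^ m) x = vb f x ^ m :=
  map_pow (evC (v := vA k) (Λ := ∅) x) f m

/-- the decomposition for all metrics on `ℝ^{k+1}` -/
theorem decomp_loc {P W : Fml Fa ρa 0} {P0 : Fml Empty (fun _ => 0) 0} {V : Fml Fa ρa 1}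
    (h : ∀ m : Mt (HX k), Pos m → P.eval (AA k) m.hyp ![] = P0.eval (AA k).tg m.ind ![]
        + W.eval (AA k) m.hyp ![] + V.dv.eval (AA k) m.hyp ![])
    (hW : ∀ m : Mt (HX k), Pos m → ∀ ω : (XX k).R,
        (HX k).res (eX ω) ^ k * W.eval (AA k) (conf m ω).hyp ![] = W.eval (AA k) m.hyp ![]) :
    (∀ m : Mt (HY k), PosY m → P.eval (AY k) m.hyp ![] = P0.eval (AY k).tg m.ind ![]
        + W.eval (AY k) m.hyp ![] + V.dv.eval (AY k) m.hyp ![]) ∧
    ∀ m : Mt (HY k), PosY m → ∀ ω : (XY k).R,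
        (HY k).res (eY ω) ^ k * W.eval (AY k) (confY m ω).hyp ![] = W.eval (AY k) m.hyp ![] := by
  refine ⟨fun m hm => vb_ext fun y => ?_, fun m hm ω => vb_ext fun y => ?_⟩
  · obtain ⟨p, q, h1, h2, -, -⟩ := ex_agr y
    have h3 := h (p m) (h2 m hm)
    have h4 := congrArg (fun f => va f y) h3
    rw [(h1 m).eval]
    refine h4.trans ?_
    show va (P0.eval (AA k).tg (p m).ind ![]) y + va (W.eval (AA k) (p m).hyp ![]) y
      + va (V.dv.eval (AA k) (p m).hyp ![]) y = vb (P0.eval (AY k).tg m.ind ![]) y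
      + vb (W.eval (AY k) m.hyp ![]) y + vb (V.dv.eval (AY k) m.hyp ![]) y
    rw [(h1 m).eval, (h1 m).eval, (h1 m).evalI]
  · obtain ⟨p, q, h1, h2, h3, h4⟩ := ex_agr y
    have h5 := congrArg (fun f => va f y) (hW (p m) (h2 m hm) (q ω))
    beta_reduce at h5
    rw [vb_mul, vb_pow, (h1 (confY m ω)).eval, (h1 m).eval, h3, ← h4]
    rw [va_mul, va_pow] at h5
    exact h5

end Run7.h96.Hy

end

section

/-!
Conformal invariance of the total integral of the intrinsic part.
-/

set_option linter.all false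
set_option maxHeartbeats 400000

open scoped BigOperators
open MeasureTheory

namespace Run7.h96.Hy

open CInv

variable {k : ℕ}

/-- Riemannian metrics on `T^k` -/
abbrev MT (k : ℕ) : Type := BD (AA k).tg Empty (fun _ => 0)

/-- positive definite metrics on `T^k` -/
def PosT (h : MT k) : Prop := ∀ x, (Matrix.of fun a c => va (h.G a c) x).PosDef

/-- exponential -/
noncomputable def eA (f : (AA k).R) : (AA k).R := expC (v := vA k) f
theorem va_eA (f : (AA k).R) (x : Fin k → ℝ) : va (eA f) x = Real.exp (va f x) := rfl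
theorem eA_inv (f : (AA k).R) : eA f * eA (-f) = 1 := exp_inv (v := vA k) f

/-- the metric `e^{2χ} h` on `T^k` -/
noncomputable def confT (h : MT k) (χ : (AA k).R) : MT k where
  G a c := (eA χ * eA χ * h.G a c : (AA k).R)
  Gi a c := (eA (-χ) * eA (-χ) * h.Gi a c : (AA k).R)
  Φ := fun e => e.elim
  met := {
    symm := fun a c => by rw [h.symm]
    inv := fun a c => by
      rw [← h.inv a c]
      refine Finset.sum_congr rfl fun p _ => ?_
      have h1 := eA_inv χ
      show eA χ * eA χ * h.G a p * (eA (-χ) * eA (-χ) * h.Gi p c) = h.G a p * h.Gi p c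
      have e : eA χ * eA χ * h.G a p * (eA (-χ) * eA (-χ) * h.Gi p c)
        = (eA χ * eA (-χ)) * (eA χ * eA (-χ)) * (h.G a p * h.Gi p c) := by ring
      rw [e, h1]; ring }

/-- total integrals of intrinsic scalars -/
noncomputable def totalT (P0 : Fml Empty (fun _ => 0) 0) (h : MT k) : ℝ :=
  ∫ x in Set.Icc (0 : Fin k → ℝ) 1, va (P0.eval (AA k).tg h ![]) x
    * Real.sqrt (Matrix.of fun a c => va (h.G a c) x).det

theorem ind_G (m : Mt (HX k)) (a c : Fin k) (x : Fin k → ℝ) :
    va (m.ind.G a c) x = vx (m.g a.succ c.succ) (Fin.cons 0 x) := va_res _ x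

theorem totalT_ind (P0 : Fml Empty (fun _ => 0) 0) (m : Mt (HX k)) {w : (AA k).R}
    (hw : ∀ x, va w x = Real.sqrt (hbar m x).det) :
    totalT P0 m.ind = IA k (P0.eval (AA k).tg m.ind ![] * w) := by
  show _ = ∫ x in Set.Icc (0 : Fin k → ℝ) 1, va (P0.eval (AA k).tg m.ind ![] * w) x
  unfold totalT
  refine setIntegral_congr_fun measurableSet_Icc fun x _ => ?_
  have e : (Matrix.of fun a c => va (m.ind.G a c) x) = hbar m x := by
    ext a c
    exact ind_G m a c x
  show va (P0.eval (AA k).tg m.ind ![]) x * Real.sqrt (Matrix.of fun a c => va (m.ind.G a c) x).det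
    = va (P0.eval (AA k).tg m.ind ![] * w) x
  rw [e, ← hw]
  exact (va_mul _ _ x).symm

open Classical in
theorem div_int {m : Mt (HX k)} (hm : Pos m) (V : Fml Fa ρa 1) {w : (AA k).R}
    (hw1 : ∀ x, 0 < va w x) (hw3 : w * w = (Matrix.of m.hyp.G).det) :
    IA k (V.dv.eval (AA k) m.hyp ![] * w) = 0 := by
  obtain ⟨b, hb, hz, hmb⟩ := nf_m m
  have hG : m.hyp.G = b.G := by rw [hmb]; rfl
  have hP : (JA k).P b.G := hG ▸ hm.hyp
  obtain ⟨w0, hw0, hsq, hpos⟩ := ex_vol hP
  have e : w0 = w := va_ext fun x => by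
    rw [hG] at hw3
    have h3 := congrArg (fun f => va f x) (hsq.trans hw3.symm)
    simp only [va_mul] at h3
    have h4 := hpos x
    have h5 := hw1 x
    nlinarith
  subst e
  rw [Fml.dv_eval, hmb]
  exact dvg_I hw0 _

theorem inv0_m {P W : Fml Fa ρa 0} {P0 : Fml Empty (fun _ => 0) 0} {V : Fml Fa ρa 1}
    (hP : ∀ m : Mt (HX k), Pos m → ∀ ω, total P (conf m ω) = total P m)
    (h : ∀ m : Mt (HX k), Pos m → P.eval (AA k) m.hyp ![] = P0.eval (AA k).tg m.ind ![]
        + W.eval (AA k) m.hyp ![] + V.dv.eval (AA k) m.hyp ![])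
    (hW : ∀ m : Mt (HX k), Pos m → ∀ ω : (XX k).R,
        (HX k).res (eX ω) ^ k * W.eval (AA k) (conf m ω).hyp ![] = W.eval (AA k) m.hyp ![])
    {m : Mt (HX k)} (hm : Pos m) (ω : (XX k).R) :
    totalT P0 (conf m ω).ind = totalT P0 m.ind := by
  obtain ⟨w, hw1, hw2, hw3⟩ := ex_dens hm
  obtain ⟨w', hw1', hw2', hw3'⟩ := ex_dens (hm.conf ω)
  have hww : w' = (HX k).res (eX ω) ^ k * w := va_ext fun x => by
    rw [hw2', sqrt_conf, va_mul, va_pow, hw2]
  have key : ∀ (m : Mt (HX k)), Pos m → ∀ w : (AA k).R, (∀ x, 0 < va w x) →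
      (∀ x, va w x = Real.sqrt (hbar m x).det) → w * w = (Matrix.of m.hyp.G).det →
      total P m = totalT P0 m.ind + IA k (W.eval (AA k) m.hyp ![] * w) := by
    intro m hm w h1 h2 h3
    have e : P.eval (AA k) m.hyp ![] * w = P0.eval (AA k).tg m.ind ![] * w
        + W.eval (AA k) m.hyp ![] * w + V.dv.eval (AA k) m.hyp ![] * w := by
      rw [h m hm]
      show ((_ : (AA k).R) + _ + _) * w = _
      ring
    rw [total_eq h2, e, map_add, map_add, div_int hm V h1 h3, add_zero, totalT_ind P0 m h2]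
  have k1 := key m hm w hw1 hw2 hw3
  have k2 := key _ (hm.conf ω) w' hw1' hw2' hw3'
  have k3 : W.eval (AA k) (conf m ω).hyp ![] * w' = W.eval (AA k) m.hyp ![] * w := by
    rw [hww, ← hW m hm ω]; ring
  rw [k3] at k2
  have := hP m hm ω
  linarith

/-! ### product metrics -/

/-- `lA` as a morphism of algebras -/
noncomputable def lAH (k : ℕ) : (AA k).R →ₐ[ℝ] (XX k).R :=
  cph (v := vA k) (v' := vX k) (Λ := PA k) (Λ' := PX k) 0 (tlX k) tlX_PA

theorem lAH_apply (f : (AA k).R) : lAH k f = lA f := rfl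

theorem ext_inv {R : Type} [CommRing R] {M Mi : Fin k → Fin k → R}
    (h : ∀ a c, ∑ p, M a p * Mi p c = if a = c then 1 else 0) (i j : Fin (k + 1)) :
    ∑ p, ext 1 M i p * ext 1 Mi p j = if i = j then 1 else 0 := by
  rw [Fin.sum_univ_succ]
  refine Fin.cases ?_ (fun a => ?_) i <;> refine Fin.cases ?_ (fun b => ?_) j
  · rw [if_pos rfl]
    have h1 : ∀ c : Fin k, ext (1 : R) M 0 c.succ * ext 1 Mi c.succ 0 = 0 := fun c => zero_mul _
    rw [Finset.sum_congr rfl fun c _ => h1 c, Finset.sum_const_zero, add_zero]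
    exact one_mul _
  · rw [if_neg (Fin.succ_ne_zero b).symm]
    have h1 : ∀ c : Fin k, ext (1 : R) M 0 c.succ * ext 1 Mi c.succ b.succ = 0 :=
      fun c => zero_mul _
    rw [Finset.sum_congr rfl fun c _ => h1 c, Finset.sum_const_zero, add_zero]
    exact mul_zero _
  · rw [if_neg (Fin.succ_ne_zero a)]
    have h1 : ∀ c : Fin k, ext (1 : R) M a.succ c.succ * ext 1 Mi c.succ 0 = 0 :=
      fun c => mul_zero _
    rw [Finset.sum_congr rfl fun c _ => h1 c, Finset.sum_const_zero, add_zero]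
    exact zero_mul _
  · have h2 : ext (1 : R) M a.succ 0 * ext 1 Mi 0 b.succ = 0 := zero_mul _
    rw [h2, zero_add]
    refine Eq.trans (h a b) ?_
    by_cases h : a = b
    · rw [if_pos h, if_pos (by rw [h])]
    · rw [if_neg h, if_neg (fun h' => h (Fin.succ_injective _ h'))]

/-- the product metric `dr² + h` -/
noncomputable def prm (h : MT k) : Mt (HX k) where
  g := ext 1 (fun a c => lA (h.G a c))
  gi := ext 1 (fun a c => lA (h.Gi a c))
  met := {
    symm := ext_symm 1 fun a c => by rw [h.symm]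
    inv := ext_inv fun a c => by
      have h1 := congrArg (lAH k) (h.inv a c)
      have h2 : lAH k (∑ p, h.G a p * h.Gi p c) = ∑ p, lA (h.G a p) * lA (h.Gi p c) := by
        rw [map_sum]
        exact Finset.sum_congr rfl fun p _ => map_mul (lAH k) _ _
      rw [← h2, h1]
      split_ifs
      · exact map_one (lAH k)
      · exact map_zero (lAH k) }
  N := 1
  hN := by
    show 1 * 1 * (HX k).res 1 = 1
    rw [map_one]; ring

theorem res_lA (f : (AA k).R) : (HX k).res (lA f) = f := va_ext fun x => by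
  rw [va_res, vx_lA]
  rfl

theorem prm_pos {h : MT k} (hh : PosT h) : Pos (prm h) := by
  intro x
  have e : (Matrix.of fun i j => vx ((prm h).g i j) x)
      = Matrix.of (ext 1 (fun a c => va (h.G a c) (fun a => x a.succ))) := by
    ext i j
    refine (ext_map (evX x) 1 (fun a c => lA (h.G a c)) i j).trans ?_
    rw [map_one]
    simp only [evX_apply, vx_lA]
    rfl
  rw [e]
  exact posdef_ext (hh _)

theorem ind_ext (m : Mt (HX k)) {h : MT k} (hG : ∀ a c, (HX k).res (m.g a.succ c.succ) = h.G a c) :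
    m.ind = h := by
  have h1 : m.ind.G = h.G := by
    funext a c
    exact hG a c
  refine BD.ext' h1 ?_ (by funext e; exact e.elim)
  exact inv_unique (h1 ▸ m.ind.met) h.met

/-- the total integral of the intrinsic part is conformally invariant on `T^k` -/
theorem inv0 {P W : Fml Fa ρa 0} {P0 : Fml Empty (fun _ => 0) 0} {V : Fml Fa ρa 1}
    (hP : ∀ m : Mt (HX k), Pos m → ∀ ω, total P (conf m ω) = total P m)
    (h : ∀ m : Mt (HX k), Pos m → P.eval (AA k) m.hyp ![] = P0.eval (AA k).tg m.ind ![]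
        + W.eval (AA k) m.hyp ![] + V.dv.eval (AA k) m.hyp ![])
    (hW : ∀ m : Mt (HX k), Pos m → ∀ ω : (XX k).R,
        (HX k).res (eX ω) ^ k * W.eval (AA k) (conf m ω).hyp ![] = W.eval (AA k) m.hyp ![])
    {g : MT k} (hg : PosT g) (χ : (AA k).R) : totalT P0 (confT g χ) = totalT P0 g := by
  have h1 := inv0_m hP h hW (prm_pos hg) (lA χ)
  have e1 : (prm g).ind = g := ind_ext _ fun a c => res_lA _
  have e2 : (conf (prm g) (lA χ)).ind = confT g χ := ind_ext _ fun a c => by
    have e3 : (HX k).res (eX (lA χ)) = eA χ := va_ext fun x => by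
      rw [va_res, vx_eX, vx_lA, va_eA]
      rfl
    show (HX k).res (eX (lA χ) * eX (lA χ) * lA (g.G a c)) = eA χ * eA χ * g.G a c
    rw [map_mul, map_mul, e3, res_lA]
  rw [e1, e2] at h1
  exact h1

end Run7.h96.Hy

end

section

/-!
Change of the unit normal.
-/

set_option linter.all false
set_option maxHeartbeats 400000

open scoped BigOperators
open MeasureTheory

namespace Run7.h96.Hy

open CInv

variable {k : ℕ}

/-- the same metric with the opposite unit normal -/
def Mt.neg {X A : DR (k + 1)} {H : Hs X A} (m : Mt H) : Mt H where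
  g := m.g
  gi := m.gi
  met := m.met
  N := -m.N
  hN := by rw [neg_mul_neg]; exact m.hN

section Flp

variable {n : ℕ}

/-- change of sign of `ν` and `II` -/
def BD.flp {X : DR n} (b : BD X Fa ρa) : BD X Fa ρa where
  G := b.G
  Gi := b.Gi
  Φ j := match j with
    | Fa.nu => fun K => (-1 : ℝ) • b.Φ Fa.nu K
    | Fa.II => fun K => (-1 : ℝ) • b.Φ Fa.II K
    | Fa.R l => b.Φ (Fa.R l)
  met := b.met

/-- change of sign of `ν` and `II` in a formula -/
def Fml.flp : {r : ℕ} → Fml Fa ρa r → Fml Fa ρa r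
  | _, .one => .one
  | _, .met => .met
  | _, .curv => .curv
  | _, .fld Fa.nu => .smul (-1) (.fld Fa.nu)
  | _, .fld Fa.II => .smul (-1) (.fld Fa.II)
  | _, .fld (Fa.R l) => .fld (Fa.R l)
  | _, .zero r => .zero r
  | _, .add S T => .add S.flp T.flp
  | _, .smul t T => .smul t T.flp
  | _, .mul e S T => .mul e S.flp T.flp
  | _, .perm e T => .perm e T.flp
  | _, .contr e T => .contr e T.flp
  | _, .deriv e T => .deriv e T.flp

theorem Fml.flp_eval {X : DR n} (b : BD X Fa ρa) {r : ℕ} (P : Fml Fa ρa r) :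
    P.flp.eval X b = P.eval X b.flp := by
  induction P with
  | one => rfl
  | met => rfl
  | curv => exact (curv_congr b b.flp rfl rfl).1
  | fld j => cases j <;> rfl
  | zero r => rfl
  | add S T h1 h2 => show (fun K => S.flp.eval X b K + T.flp.eval X b K) = _; rw [h1, h2]; rfl
  | smul t T h1 => show (fun K => t • T.flp.eval X b K) = _; rw [h1]; rfl
  | mul e S T h1 h2 =>
    show relab e (tens (S.flp.eval X b) (T.flp.eval X b)) = _
    rw [h1, h2]; rfl
  | perm e T h1 => show relab e (T.flp.eval X b) = _; rw [h1]; rfl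
  | contr e T h1 => show contr2 b.Gi (relab e (T.flp.eval X b)) = _; rw [h1]; rfl
  | deriv e T h1 => show relab e (DD X.d b.A (T.flp.eval X b)) = _; rw [h1]; rfl

theorem BD.flp_flp {X : DR n} (b : BD X Fa ρa) : b.flp.flp = b := by
  refine BD.ext' rfl rfl ?_
  funext j K
  cases j with
  | nu =>
    show (-1 : ℝ) • ((-1 : ℝ) • b.Φ Fa.nu K) = _
    rw [smul_smul]; norm_num
  | II =>
    show (-1 : ℝ) • ((-1 : ℝ) • b.Φ Fa.II K) = _
    rw [smul_smul]; norm_num
  | R l => rfl

end Flp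

section NegH

variable {X A : DR (k + 1)} {H : Hs X A}

theorem neg_one_ne : (-1 : ℝ) ≠ 0 := by norm_num

theorem Mt.neg_hyp (m : Mt H) :
    m.neg.hyp = m.hyp.flp.frm (-1) 1 neg_one_ne one_ne_zero wa := by
  have hfr : ∀ i j, m.neg.fr i j = fc (-1) 1 i • m.fr i j := by
    intro i j
    refine Fin.cases ?_ (fun a => ?_) i
    · show -m.N * H.res (m.gi 0 j) = (-1 : ℝ) • (m.N * H.res (m.gi 0 j))
      rw [neg_smul, one_smul, neg_mul]
    · show (if a.succ = j then (1 : A.R) else 0) = (1 : ℝ) • (if a.succ = j then (1 : A.R) else 0)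
      rw [one_smul]
  have hc : ∀ i j : Fin (k + 1), ∀ M : Fin k → Fin k → A.R,
      ext 1 M i j = (fc (-1) 1 i * fc (-1) 1 j) • ext 1 M i j := by
    intro i j M
    refine Fin.cases ?_ (fun a => ?_) i <;> refine Fin.cases ?_ (fun c => ?_) j
    · show (1 : A.R) = ((-1 : ℝ) * (-1)) • (1 : A.R)
      norm_num
    · show (0 : A.R) = _ • (0 : A.R)
      rw [smul_zero]
    · show (0 : A.R) = _ • (0 : A.R)
      rw [smul_zero]
    · show M a c = ((1 : ℝ) * 1) • M a c
      rw [one_mul, one_smul]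
  have hG : m.neg.hyp.G = (m.hyp.flp.frm (-1) 1 neg_one_ne one_ne_zero wa).G := by
    funext i j
    exact hc i j _
  refine BD.ext' hG (inv_unique (hG ▸ m.neg.hyp.met)
    (m.hyp.flp.frm (-1) 1 neg_one_ne one_ne_zero wa).met) ?_
  funext f K
  cases f with
  | nu =>
    show (if K 0 = 0 then (1 : A.R) else 0)
      = ((1 : ℝ)⁻¹ ^ 0 * ∏ u : Fin 1, fc (-1) 1 (K u)) • ((-1 : ℝ) • (if K 0 = 0 then (1 : A.R) else 0))
    rw [Fin.prod_univ_one, pow_zero, one_mul]
    by_cases h : K 0 = 0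
    · rw [if_pos h, h]
      show (1 : A.R) = (-1 : ℝ) • ((-1 : ℝ) • (1 : A.R))
      rw [smul_smul]; norm_num
    · rw [if_neg h, smul_zero, smul_zero]
  | II =>
    show ext 0 m.neg.II (K 0) (K 1)
      = ((1 : ℝ)⁻¹ ^ 1 * ∏ u : Fin 2, fc (-1) 1 (K u)) • ((-1 : ℝ) • ext 0 m.II (K 0) (K 1))
    rw [Fin.prod_univ_two, pow_one, inv_one, one_mul]
    have h2 : ∀ i j : Fin (k + 1), ext 0 m.neg.II i j
        = (fc (-1) 1 i * fc (-1) 1 j) • ((-1 : ℝ) • ext 0 m.II i j) := by
      intro i j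
      refine Fin.cases ?_ (fun a => ?_) i <;> refine Fin.cases ?_ (fun c => ?_) j
      · show (0 : A.R) = _ • ((-1 : ℝ) • (0 : A.R))
        rw [smul_zero, smul_zero]
      · show (0 : A.R) = _ • ((-1 : ℝ) • (0 : A.R))
        rw [smul_zero, smul_zero]
      · show (0 : A.R) = _ • ((-1 : ℝ) • (0 : A.R))
        rw [smul_zero, smul_zero]
      · show -m.N * H.res (chr X.D m.g m.gi 0 a.succ c.succ)
          = ((1 : ℝ) * 1) • ((-1 : ℝ) • (m.N * H.res (chr X.D m.g m.gi 0 a.succ c.succ)))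
        rw [one_mul, one_smul, neg_smul, one_smul, neg_mul]
    exact h2 _ _
  | R l =>
    show (∑ L : Fin (4 + l) → Fin (k + 1), (∏ u, m.neg.fr (K u) (L u)) * H.res (rm m.met l L))
      = ((1 : ℝ)⁻¹ ^ (l + 2) * ∏ u, fc (-1) 1 (K u)) • ∑ L : Fin (4 + l) → Fin (k + 1),
        (∏ u, m.fr (K u) (L u)) * H.res (rm m.met l L)
    rw [Finset.smul_sum]
    refine Finset.sum_congr rfl fun L _ => ?_
    simp only [hfr]
    rw [Finset.prod_smul, smul_mul_assoc]
    congr 1
    rw [inv_one, one_pow, one_mul]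

theorem Mt.flp_Pd (m : Mt H) : Pd m.hyp.flp where
  d0 := H.d0
  g00 i := by
    show A.d i (1 : A.R) = 0
    exact Derivation.map_one_eq_zero _
  g0 a := rfl
  gi0 a := rfl

/-- scalars for the opposite normal -/
theorem Mt.neg_eval (m : Mt H) (P : Fml Fa ρa 0) :
    P.eval A m.neg.hyp ![] = P.flp.eval A m.hyp ![] := by
  rw [m.neg_hyp, Fml.flp_eval]
  obtain ⟨ι, hι, g, T1, L, hg, hT1, hS⟩ := (P.toFS (n := k + 1)).out (Equiv.refl (Fin 0))
  rw [hS, hS]
  refine Finset.sum_congr rfl fun i _ => ?_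
  rw [(hT1 i).frm neg_one_ne one_ne_zero wa m.flp_Pd]
  simp

/-- tangential components of covectors for the opposite normal -/
theorem Mt.neg_evalV (m : Mt H) (V : Fml Fa ρa 1) (a : Fin k) :
    V.eval A m.neg.hyp (fun _ => a.succ) = V.flp.eval A m.hyp (fun _ => a.succ) := by
  rw [m.neg_hyp, Fml.flp_eval]
  obtain ⟨ι, hι, g, T1, L, hg, hT1, hS⟩ := (V.toFS (n := k + 1)).out (Equiv.refl (Fin 1))
  rw [hS, hS]
  refine Finset.sum_congr rfl fun i _ => ?_
  rw [(hT1 i).frm neg_one_ne one_ne_zero wa m.flp_Pd]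
  have : ∏ u : Fin 1, fc (k := k) (-1) 1 ((fun _ => a.succ) u) = 1 := by
    rw [Fin.prod_univ_one]; rfl
  have h2 : (∏ u : Fin 1, fc (k := k) (-1) 1 ((fun s : Fin 1 => (fun _ : Fin 1 => a.succ)
      ((Equiv.refl (Fin 1)).symm s)) u)) = 1 := this
  rw [h2, inv_one, one_pow, one_mul, one_smul]

end NegH

theorem conf_neg (m : Mt (HX k)) (ω : (XX k).R) : (conf m ω).neg = conf m.neg ω := by
  refine Mt.ext' rfl rfl ?_
  show -((HX k).res (eX ω) * m.N) = (HX k).res (eX ω) * -m.N
  ring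

theorem neg_ind {X A : DR (k + 1)} {H : Hs X A} (m : Mt H) : m.neg.ind = m.ind := by
  have hG : m.neg.ind.G = m.ind.G := rfl
  exact BD.ext' hG (inv_unique (hG ▸ m.neg.ind.met) m.ind.met) (by funext e; exact e.elim)

/-- symmetric form of the decomposition -/
theorem even_form {P W : Fml Fa ρa 0} {P0 : Fml Empty (fun _ => 0) 0} {V : Fml Fa ρa 1}
    (h : ∀ m : Mt (HX k), Pos m → P.eval (AA k) m.hyp ![] = P0.eval (AA k).tg m.ind ![]
        + W.eval (AA k) m.hyp ![] + V.dv.eval (AA k) m.hyp ![])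
    (hW : ∀ m : Mt (HX k), Pos m → ∀ ω : (XX k).R,
        (HX k).res (eX ω) ^ k * W.eval (AA k) (conf m ω).hyp ![] = W.eval (AA k) m.hyp ![])
    (he : ∀ m : Mt (HX k), Pos m → P.eval (AA k) m.neg.hyp ![] = P.eval (AA k) m.hyp ![]) :
    ∃ (W' : Fml Fa ρa 0) (V' : Fml Fa ρa 1),
      (∀ m : Mt (HX k), Pos m → P.eval (AA k) m.hyp ![] = P0.eval (AA k).tg m.ind ![]
        + W'.eval (AA k) m.hyp ![] + V'.dv.eval (AA k) m.hyp ![]) ∧
      (∀ m : Mt (HX k), Pos m → ∀ ω : (XX k).R,
        (HX k).res (eX ω) ^ k * W'.eval (AA k) (conf m ω).hyp ![] = W'.eval (AA k) m.hyp ![]) ∧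
      (∀ (X A : DR (k + 1)) (H : Hs X A) (m : Mt H),
        W'.eval A m.neg.hyp ![] = W'.eval A m.hyp ![]) ∧
      ∀ (X A : DR (k + 1)) (H : Hs X A) (m : Mt H) (a : Fin k),
        V'.eval A m.neg.hyp (fun _ => a.succ) = V'.eval A m.hyp (fun _ => a.succ) := by
  have hn : ∀ m : Mt (HX k), Pos m → Pos m.neg := fun m hm => hm
  refine ⟨.smul (1 / 2) (.add W W.flp), .smul (1 / 2) (.add V V.flp), fun m hm => ?_,
    fun m hm ω => ?_, fun X A H m => ?_, fun X A H m a => ?_⟩
  · have h1 := h m hm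
    have h2 := h m.neg (hn m hm)
    rw [he m hm, m.neg_eval, m.neg_eval, neg_ind] at h2
    have h3 : V.dv.flp = V.flp.dv := rfl
    rw [h3] at h2
    have h4 : (Fml.dv (.smul (1 / 2) (.add V V.flp))).eval (AA k) m.hyp ![]
        = (1 / 2 : ℝ) • (V.dv.eval (AA k) m.hyp ![] + V.flp.dv.eval (AA k) m.hyp ![]) := by
      rw [Fml.dv_eval, Fml.dv_eval, Fml.dv_eval, ← dvg_add, ← dvg_smul]
      rfl
    rw [h4]
    show P.eval (AA k) m.hyp ![] = P0.eval (AA k).tg m.ind ![]
      + (1 / 2 : ℝ) • (W.eval (AA k) m.hyp ![] + W.flp.eval (AA k) m.hyp ![])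
      + (1 / 2 : ℝ) • (V.dv.eval (AA k) m.hyp ![] + V.flp.dv.eval (AA k) m.hyp ![])
    have h5 : P.eval (AA k) m.hyp ![] = (1 / 2 : ℝ) • (P.eval (AA k) m.hyp ![]
      + P.eval (AA k) m.hyp ![]) := by
      rw [← two_smul ℝ, smul_smul]; norm_num
    rw [h5]
    conv_lhs => rw [show P.eval (AA k) m.hyp ![] + P.eval (AA k) m.hyp ![]
      = (P0.eval (AA k).tg m.ind ![] + W.eval (AA k) m.hyp ![] + V.dv.eval (AA k) m.hyp ![])
        + (P0.eval (AA k).tg m.ind ![] + W.flp.eval (AA k) m.hyp ![]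
          + V.flp.dv.eval (AA k) m.hyp ![]) from by rw [← h1, ← h2]]
    have h6 : (P0.eval (AA k).tg m.ind ![] : (AA k).R)
        = (1 / 2 : ℝ) • ((2 : ℝ) • (P0.eval (AA k).tg m.ind ![] : (AA k).R)) := by
      rw [smul_smul]; norm_num
    set p0 : (AA k).R := P0.eval (AA k).tg m.ind ![] with hp0
    show (1 / 2 : ℝ) • ((p0 + _ + _) + (p0 + _ + _)) = p0 + _ + _
    module
  · show (HX k).res (eX ω) ^ k * ((1 / 2 : ℝ) • (W.eval (AA k) (conf m ω).hyp ![]
        + W.flp.eval (AA k) (conf m ω).hyp ![]))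
      = (1 / 2 : ℝ) • (W.eval (AA k) m.hyp ![] + W.flp.eval (AA k) m.hyp ![])
    rw [← Mt.neg_eval, ← Mt.neg_eval, conf_neg, mul_smul_comm, mul_add, hW m hm, hW m.neg (hn m hm)]
  · show (1 / 2 : ℝ) • (W.eval A m.neg.hyp ![] + W.flp.eval A m.neg.hyp ![])
      = (1 / 2 : ℝ) • (W.eval A m.hyp ![] + W.flp.eval A m.hyp ![])
    rw [Mt.neg_eval, Mt.neg_eval, Fml.flp_eval, Fml.flp_eval, Fml.flp_eval, BD.flp_flp]
    congr 1
    exact add_comm _ _
  · show (1 / 2 : ℝ) • (V.eval A m.neg.hyp _ + V.flp.eval A m.neg.hyp _)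
      = (1 / 2 : ℝ) • (V.eval A m.hyp _ + V.flp.eval A m.hyp _)
    rw [Mt.neg_evalV, Mt.neg_evalV, Fml.flp_eval, Fml.flp_eval, Fml.flp_eval, BD.flp_flp]
    congr 1
    exact add_comm _ _

end Run7.h96.Hy

end
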