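import Pool.Agent.Run7.h96.K10

section

/-!
Natural tensors linear in a function, and the conformal variation of intrinsic natural tensors.
-/

set_option linter.all false
set_option maxHeartbeats 400000

open scoped BigOperators

namespace Run7.h96.Hy

open CInv

variable {n : ℕ}

/-- tensors depending on a metric and a function -/
abbrev Lx (n : ℕ) (κ : Type) : Type 1 :=
  ∀ X : DR n, BD X Empty (fun _ => 0) → X.R → (κ → Fin n) → X.R

/-- a function as a variation -/
def cu {X : DR n} (χ : X.R) : Fl X Unit (fun _ => 0) := fun _ _ => χ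

/-- natural tensors linear in a function -/
def LF (κ : Type) (T : Lx n κ) : Prop :=
  ∃ (r : ℕ) (e : κ ≃ Fin r) (T' : Lk n Empty (fun _ => 0) Unit (fun _ => 0) r),
    Lin Set.univ Set.univ r T' ∧ ∀ X b χ K, T X b χ K = T' X b (cu χ) (fun s => K (e.symm s))

section LFl

variable {κ μ : Type}

theorem LF.out {T : Lx n κ} (h : LF κ T) {r : ℕ} (e : κ ≃ Fin r) :
    ∃ (T' : Lk n Empty (fun _ => 0) Unit (fun _ => 0) r),
      Lin Set.univ Set.univ r T' ∧ ∀ X b χ K, T X b χ K = T' X b (cu χ) (fun s => K (e.symm s)) := by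
  obtain ⟨r', e', T', hT, hI⟩ := h
  refine ⟨_, hT.perm (e'.symm.trans e), fun X b χ K => ?_⟩
  rw [hI]
  unfold relab
  congr 1
  funext s
  simp

theorem LF.relab {T : Lx n κ} (h : LF κ T) (e : κ ≃ μ) :
    LF μ (fun X b χ => relab e (T X b χ)) := by
  obtain ⟨r', e', T', hT, hI⟩ := h
  exact ⟨r', e.symm.trans e', T', hT, fun X b χ K => hI X b χ _⟩

theorem LF.congr {T T' : Lx n κ} (h : LF κ T) (hTT : ∀ X b χ K, T X b χ K = T' X b χ K) :
    LF κ T' := by
  have : T = T' := by funext X b χ K; exact hTT X b χ K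
  exact this ▸ h

theorem LF.add {T T' : Lx n κ} (h : LF κ T) (h' : LF κ T') :
    LF κ (fun X b χ K => T X b χ K + T' X b χ K) := by
  obtain ⟨r, e, S, hS, hI⟩ := h
  obtain ⟨S', hS', hI'⟩ := h'.out e
  exact ⟨r, e, _, hS.add hS', fun X b χ K => by beta_reduce; rw [hI, hI']⟩

theorem LF.smul {T : Lx n κ} (h : LF κ T) (t : ℝ) : LF κ (fun X b χ K => t • T X b χ K) := by
  obtain ⟨r, e, S, hS, hI⟩ := h
  exact ⟨r, e, _, hS.smul t, fun X b χ K => by beta_reduce; rw [hI]⟩

theorem LF.sub {T T' : Lx n κ} (h : LF κ T) (h' : LF κ T') :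
    LF κ (fun X b χ K => T X b χ K - T' X b χ K) :=
  (h.add (h'.smul (-1))).congr fun X b χ K => by simp; ring

theorem LF.zero [Finite κ] : LF (n := n) κ (fun _ _ _ _ => 0) := by
  obtain ⟨r, ⟨e⟩⟩ := Finite.exists_equiv_fin κ
  exact ⟨r, e, _, Lin.zero r, fun _ _ _ _ => rfl⟩

theorem LF.sum [Finite κ] {α : Type} (s : Finset α) {T : α → Lx n κ}
    (h : ∀ a ∈ s, LF κ (T a)) : LF κ (fun X b χ K => ∑ a ∈ s, T a X b χ K) := by
  classical
  induction s using Finset.induction_on with
  | empty => simpa using LF.zero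
  | @insert a s ha ih =>
    have h1 := h a (Finset.mem_insert_self a s)
    have h2 := ih fun b hb => h b (Finset.mem_insert_of_mem hb)
    refine (h1.add h2).congr fun X b χ K => ?_
    rw [Finset.sum_insert ha]

theorem LF.chi : LF (n := n) (Fin 0) (fun _ _ χ _ => χ) :=
  ⟨0, Equiv.refl _, _, Lin.field () (Set.mem_univ _), fun _ _ _ _ => rfl⟩

theorem LF.mulN {Q : Tk n Empty (fun _ => 0) κ} (hQ : FS Set.univ Set.univ κ Q) {T : Lx n μ}
    (h : LF μ T) : LF (κ ⊕ μ) (fun X b χ => tens (Q X b) (T X b χ)) := by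
  obtain ⟨r, e, ι, hι, g, F, L, hg, hF, hI⟩ := id hQ
  obtain ⟨r', e', S, hS, hI'⟩ := h
  have hQ' : FS Set.univ Set.univ (Fin r) (fun X b => Run7.h96.relab e (Q X b)) := hQ.relab e
  refine ⟨r + r', (Equiv.sumCongr e e').trans finSumFinEquiv, _,
    Lin.mulN hQ' finSumFinEquiv hS, fun X b χ K => ?_⟩
  unfold tens Run7.h96.relab
  beta_reduce
  rw [hI']
  congr 1
  · congr 1
    funext s
    simp
  · congr 1
    funext s
    simp

theorem LF.contr2 [Finite κ] {T : Lx n (Option (Option κ))} (h : LF (Option (Option κ)) T) :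
    LF κ (fun X b χ => contr2 b.Gi (T X b χ)) := by
  obtain ⟨r, ⟨e0⟩⟩ := Finite.exists_equiv_fin κ
  obtain ⟨t, e, S, hS, hI⟩ := h
  refine ⟨r, e0, _, hS.contr (e.symm.trans (Equiv.optionCongr (Equiv.optionCongr e0))),
    fun X b χ K => ?_⟩
  unfold Run7.h96.contr2
  refine Finset.sum_congr rfl fun i _ => Finset.sum_congr rfl fun j _ => ?_
  rw [hI]
  unfold Run7.h96.relab
  congr 2
  funext s
  simp only [Equiv.trans_apply]
  rcases e.symm s with _ | _ | u
  · rfl
  · rfl
  · simp

theorem LF.DD [Fintype κ] [DecidableEq κ] {T : Lx n κ} (h : LF κ T) :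
    LF (Option κ) (fun X b χ => DD X.d b.A (T X b χ)) := by
  obtain ⟨r, e, S, hS, hI⟩ := h
  refine ⟨r + 1, (Equiv.optionCongr e).trans (finSuccEquiv r).symm, _,
    hS.deriv (finSuccEquiv r).symm, fun X b χ K => ?_⟩
  have h1 : T X b χ = Run7.h96.relab e.symm (S X b (cu χ)) := by
    funext K
    rw [hI]; rfl
  unfold Run7.h96.DD
  beta_reduce
  rw [h1, cov_relab]
  unfold Run7.h96.relab
  have h2 : ∀ o : Option (Fin r),
      ((Equiv.optionCongr e).trans (finSuccEquiv r).symm).symm ((finSuccEquiv r).symm o)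
        = (Equiv.optionCongr e).symm o := by
    intro o
    rw [Equiv.symm_trans_apply, Equiv.symm_symm, Equiv.apply_symm_apply]
  beta_reduce
  simp only [h2]
  rfl

end LFl

/-! ### conformal variation -/

section Cfd

variable {X : DR n}

/-- the metric `(1 + 2 ε χ) g` over the dual numbers -/
noncomputable def cfd (b : BD X Empty (fun _ => 0)) (χ : X.R) : BD X.dual Empty (fun _ => 0) where
  G i j := (inlH X).f (b.G i j) + eps ((2 : ℝ) • (χ * b.G i j))
  Gi i j := (inlH X).f (b.Gi i j) + eps ((-2 : ℝ) • (χ * b.Gi i j))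
  Φ := fun e => e.elim
  met := {
    symm := fun i j => by rw [b.symm]
    inv := fun i j => by
      have h1 := b.inv i j
      apply dual_ext
      · rw [fs_sum]
        simp only [fs_mul, fs_add, fs_inl, fs_eps, add_zero]
        rw [h1]
        split_ifs <;> rfl
      · rw [sn_sum]
        simp only [sn_mul, sn_add, fs_add, fs_inl, sn_inl, fs_eps, sn_eps, add_zero, zero_add]
        have h2 : ∀ p, b.G i p * ((-2 : ℝ) • (χ * b.Gi p j)) + (2 : ℝ) • (χ * b.G i p) * b.Gi p j
            = 0 := by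
          intro p
          simp only [Algebra.smul_def, map_neg]
          ring
        rw [Finset.sum_eq_zero fun p _ => h2 p]
        split_ifs <;> rfl }

variable (b : BD X Empty (fun _ => 0)) (χ : X.R)

/-- variation of the Christoffel symbols -/
noncomputable def dA' (i l m : Fin n) : X.R :=
  (if l = m then X.d i χ else 0) + (if l = i then X.d m χ else 0)
    - b.G i m * ∑ p, b.Gi l p * X.d p χ

theorem cfd_A (i l m : Fin n) : fs ((cfd b χ).A i l m) = b.A i l m ∧
    sn ((cfd b χ).A i l m) = dA' b χ i l m := by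
  have hG : ∀ i m p : Fin n, X.dual.D i ((cfd b χ).G m p)
      = (inlH X).f (X.d i (b.G m p)) + eps ((2 : ℝ) • (X.d i χ * b.G m p + χ * X.d i (b.G m p))) := by
    intro i m p
    show X.dual.d i ((inlH X).f (b.G m p) + eps ((2 : ℝ) • (χ * b.G m p))) = _
    apply dual_ext
    · simp [fs_inl]
    · simp only [sn_d, sn_add, sn_inl, sn_eps, zero_add]
      rw [(X.d i).map_smul, Derivation.leibniz]
      simp only [smul_eq_mul]
      congr 1
      ring
  unfold BD.A chr
  simp only [hG]
  constructor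
  · rw [fs_smul, fs_sum]
    congr 1
    refine Finset.sum_congr rfl fun p _ => ?_
    show fs (((inlH X).f (b.Gi l p) + eps ((-2 : ℝ) • (χ * b.Gi l p))) * _) = _
    simp only [fs_mul, fs_add, fs_sub, fs_inl, fs_eps, add_zero]
    rfl
  · rw [sn_smul, sn_sum]
    have h1 : ∀ p, sn ((cfd b χ).Gi l p * ((inlH X).f (X.d i (b.G m p))
          + eps ((2 : ℝ) • (X.d i χ * b.G m p + χ * X.d i (b.G m p)))
        + ((inlH X).f (X.d m (b.G i p)) + eps ((2 : ℝ) • (X.d m χ * b.G i p + χ * X.d m (b.G i p))))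
        - ((inlH X).f (X.d p (b.G i m)) + eps ((2 : ℝ) • (X.d p χ * b.G i m + χ * X.d p (b.G i m))))))
        = (2 : ℝ) • (X.d i χ * (b.Gi l p * b.G p m) + X.d m χ * (b.Gi l p * b.G p i)
          - b.G i m * (b.Gi l p * X.d p χ)) := by
      intro p
      show sn (((inlH X).f (b.Gi l p) + eps ((-2 : ℝ) • (χ * b.Gi l p))) * _) = _
      simp only [sn_mul, sn_add, sn_sub, fs_add, fs_sub, fs_inl, sn_inl, fs_eps, sn_eps, add_zero,
        zero_add, zero_sub]
      rw [b.symm m p, b.symm i p]
      simp only [Algebra.smul_def, map_neg]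
      ring
    rw [Finset.sum_congr rfl fun p _ => h1 p, ← Finset.smul_sum, smul_smul]
    have h2 : (1 / 2 : ℝ) * 2 = 1 := by norm_num
    rw [h2, one_smul, Finset.sum_sub_distrib, Finset.sum_add_distrib, ← Finset.mul_sum,
      ← Finset.mul_sum, ← Finset.mul_sum, b.inv', b.inv']
    unfold dA'
    simp only [mul_ite, mul_one, mul_zero]

/-- the lowered variation -/
noncomputable def dM (j l m : Fin n) : X.R :=
  b.G l j * X.d m χ + b.G l m * X.d j χ - b.G j m * X.d l χ

theorem dM_eq (j l m : Fin n) : ∑ p, b.G l p * dA' b χ j p m = dM b χ j l m := by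
  unfold dA' dM
  have h1 : ∀ p, b.G l p * ((if p = m then X.d j χ else 0) + (if p = j then X.d m χ else 0)
      - b.G j m * ∑ q, b.Gi p q * X.d q χ)
      = (if p = m then b.G l m * X.d j χ else 0) + (if p = j then b.G l j * X.d m χ else 0)
        - b.G j m * ∑ q, (b.G l p * b.Gi p q) * X.d q χ := by
    intro p
    have e1 : b.G l p * (b.G j m * ∑ q, b.Gi p q * X.d q χ)
        = b.G j m * ∑ q, (b.G l p * b.Gi p q) * X.d q χ := by
      rw [Finset.mul_sum, Finset.mul_sum, Finset.mul_sum]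
      refine Finset.sum_congr rfl fun q _ => by ring
    rw [mul_sub, e1, mul_add]
    congr 2
    · by_cases h : p = m
      · subst h; simp
      · simp [h]
    · by_cases h : p = j
      · subst h; simp
      · simp [h]
  rw [Finset.sum_congr rfl fun p _ => h1 p, Finset.sum_sub_distrib, Finset.sum_add_distrib,
    Finset.sum_ite_eq' Finset.univ, Finset.sum_ite_eq' Finset.univ, if_pos (Finset.mem_univ _),
    if_pos (Finset.mem_univ _), ← Finset.mul_sum, Finset.sum_comm]
  have h2 : ∑ q, ∑ p, (b.G l p * b.Gi p q) * X.d q χ = X.d l χ := by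
    have : ∀ q, ∑ p, (b.G l p * b.Gi p q) * X.d q χ = (if l = q then 1 else 0) * X.d q χ := by
      intro q
      rw [← Finset.sum_mul, b.inv]
    simp only [this, ite_mul, one_mul, zero_mul, Finset.sum_ite_eq, Finset.mem_univ, if_true]
  rw [h2]; ring

/-- Hessian -/
noncomputable def hs (i m : Fin n) : X.R := X.d i (X.d m χ) - ∑ q, b.A i q m * X.d q χ

theorem dG_eq (i l m : Fin n) : X.d i (b.G l m)
    = (∑ q, b.A i q l * b.G q m) + ∑ q, b.A i q m * b.G q l := by
  have h := (metric_compat X.isDer b.met).2.1 i l m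
  refine h.trans ?_
  congr 1
  refine Finset.sum_congr rfl fun q _ => ?_
  rw [b.symm q l]
  rfl

theorem A_symm (i l m : Fin n) : b.A i l m = b.A m l i := (metric_compat X.isDer b.met).1 l i m

theorem dM_cov (i j l m : Fin n) :
    X.d i (dM b χ j l m) - (∑ q, b.A i q j * dM b χ q l m) - (∑ q, b.A i q l * dM b χ j q m)
      - (∑ q, b.A i q m * dM b χ j l q)
    = b.G l j * hs b χ i m + b.G l m * hs b χ i j - b.G j m * hs b χ i l := by
  have e : ∀ (c : Fin n → X.R) (x : X.R), ∑ q, c q * x = (∑ q, c q) * x := fun c x =>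
    (Finset.sum_mul _ _ _).symm
  have s1 : ∑ q, b.A i q j * dM b χ q l m = (∑ q, b.A i q j * b.G q l) * X.d m χ
      + b.G l m * (∑ q, b.A i q j * X.d q χ) - (∑ q, b.A i q j * b.G q m) * X.d l χ := by
    rw [Finset.sum_mul, Finset.mul_sum, Finset.sum_mul, ← Finset.sum_add_distrib,
      ← Finset.sum_sub_distrib]
    refine Finset.sum_congr rfl fun q _ => ?_
    unfold dM
    rw [b.symm l q]; ring
  have s2 : ∑ q, b.A i q l * dM b χ j q m = (∑ q, b.A i q l * b.G q j) * X.d m χ
      + (∑ q, b.A i q l * b.G q m) * X.d j χ - b.G j m * (∑ q, b.A i q l * X.d q χ) := by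
    rw [Finset.sum_mul, Finset.mul_sum, Finset.sum_mul, ← Finset.sum_add_distrib,
      ← Finset.sum_sub_distrib]
    refine Finset.sum_congr rfl fun q _ => ?_
    unfold dM
    ring
  have s3 : ∑ q, b.A i q m * dM b χ j l q = b.G l j * (∑ q, b.A i q m * X.d q χ)
      + (∑ q, b.A i q m * b.G q l) * X.d j χ - (∑ q, b.A i q m * b.G q j) * X.d l χ := by
    rw [Finset.sum_mul, Finset.mul_sum, Finset.sum_mul, ← Finset.sum_add_distrib,
      ← Finset.sum_sub_distrib]
    refine Finset.sum_congr rfl fun q _ => ?_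
    unfold dM
    rw [b.symm l q, b.symm j q]; ring
  rw [s1, s2, s3]
  unfold dM hs
  rw [map_sub, map_add, Derivation.leibniz, Derivation.leibniz, Derivation.leibniz, dG_eq, dG_eq,
    dG_eq]
  simp only [smul_eq_mul]
  ring

theorem cfd_F (i j l m : Fin n) : fs ((cfd b χ).F i j l m) = b.F i j l m := by
  unfold BD.F
  simp only [fs_add, fs_sub, fs_d, fs_sum, fs_mul, (cfd_A b χ _ _ _).1]

theorem cfd_Fs (i j l m : Fin n) : sn ((cfd b χ).F i j l m)
    = X.d i (dA' b χ j l m) - X.d j (dA' b χ i l m)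
      + ∑ p, ((b.A i l p * dA' b χ j p m + dA' b χ i l p * b.A j p m)
        - (b.A j l p * dA' b χ i p m + dA' b χ j l p * b.A i p m)) := by
  unfold BD.F
  simp only [sn_add, sn_sub, sn_d, sn_sum, sn_mul, (cfd_A b χ _ _ _).1, (cfd_A b χ _ _ _).2]

theorem low_F (i j l m : Fin n) : ∑ p, b.G l p * sn ((cfd b χ).F i j p m)
    = (b.G l j * hs b χ i m + b.G l m * hs b χ i j - b.G j m * hs b χ i l)
      - (b.G l i * hs b χ j m + b.G l m * hs b χ j i - b.G i m * hs b χ j l) := by
  rw [← dM_cov, ← dM_cov]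
  -- `Σ_p G_lp d_i (dA_jpm)`
  have k1 : ∀ i j : Fin n, ∑ p, b.G l p * X.d i (dA' b χ j p m)
      = X.d i (dM b χ j l m) - (∑ q, b.A i q l * dM b χ j q m)
        - ∑ p, b.G l p * ∑ q, b.A i p q * dA' b χ j q m := by
    intro i j
    have h1 : X.d i (dM b χ j l m) = ∑ p, (b.G l p * X.d i (dA' b χ j p m)
        + dA' b χ j p m * ((∑ q, b.A i q l * b.G q p) + ∑ q, b.A i q p * b.G q l)) := by
      rw [← dM_eq, map_sum]
      refine Finset.sum_congr rfl fun p _ => ?_
      rw [Derivation.leibniz, dG_eq]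
      simp only [smul_eq_mul]
    have h2 : ∑ q, b.A i q l * dM b χ j q m
        = ∑ p, dA' b χ j p m * ∑ q, b.A i q l * b.G q p := by
      have : ∀ q, b.A i q l * dM b χ j q m = ∑ p, dA' b χ j p m * (b.A i q l * b.G q p) := by
        intro q
        rw [← dM_eq, Finset.mul_sum]
        refine Finset.sum_congr rfl fun p _ => by ring
      rw [Finset.sum_congr rfl fun q _ => this q, Finset.sum_comm]
      refine Finset.sum_congr rfl fun p _ => ?_
      rw [Finset.mul_sum]
    have h3 : ∑ p, b.G l p * ∑ q, b.A i p q * dA' b χ j q m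
        = ∑ p, dA' b χ j p m * ∑ q, b.A i q p * b.G q l := by
      have : ∀ p, b.G l p * ∑ q, b.A i p q * dA' b χ j q m
          = ∑ q, dA' b χ j q m * (b.A i p q * b.G p l) := by
        intro p
        rw [Finset.mul_sum]
        refine Finset.sum_congr rfl fun q _ => ?_
        rw [b.symm l p]; ring
      rw [Finset.sum_congr rfl fun p _ => this p, Finset.sum_comm]
      refine Finset.sum_congr rfl fun p _ => ?_
      rw [Finset.mul_sum]
    rw [h1, h2, h3, Finset.sum_add_distrib]
    simp only [mul_add, Finset.sum_add_distrib]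
    ring
  have k2 : ∀ i j : Fin n, ∑ p, b.G l p * ∑ q, dA' b χ i p q * b.A j q m
      = ∑ q, b.A j q m * dM b χ i l q := by
    intro i j
    have : ∀ p, b.G l p * ∑ q, dA' b χ i p q * b.A j q m
        = ∑ q, b.A j q m * (b.G l p * dA' b χ i p q) := by
      intro p
      rw [Finset.mul_sum]
      refine Finset.sum_congr rfl fun q _ => by ring
    rw [Finset.sum_congr rfl fun p _ => this p, Finset.sum_comm]
    refine Finset.sum_congr rfl fun q _ => ?_
    rw [← Finset.mul_sum, dM_eq]
  have k3 : ∑ q, b.A i q j * dM b χ q l m = ∑ q, b.A j q i * dM b χ q l m := by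
    refine Finset.sum_congr rfl fun q _ => ?_
    rw [A_symm b i q j]
  have k4 : ∑ p, b.G l p * sn ((cfd b χ).F i j p m)
      = (∑ p, b.G l p * X.d i (dA' b χ j p m)) - (∑ p, b.G l p * X.d j (dA' b χ i p m))
        + (∑ p, b.G l p * ∑ q, b.A i p q * dA' b χ j q m)
        + (∑ p, b.G l p * ∑ q, dA' b χ i p q * b.A j q m)
        - (∑ p, b.G l p * ∑ q, b.A j p q * dA' b χ i q m)
        - (∑ p, b.G l p * ∑ q, dA' b χ j p q * b.A i q m) := by
    rw [← Finset.sum_sub_distrib, ← Finset.sum_add_distrib, ← Finset.sum_add_distrib,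
      ← Finset.sum_sub_distrib, ← Finset.sum_sub_distrib]
    refine Finset.sum_congr rfl fun p _ => ?_
    rw [cfd_Fs, Finset.sum_sub_distrib, Finset.sum_add_distrib, Finset.sum_add_distrib]
    ring
  rw [k4, k1, k1, k2, k2, k3]
  ring

theorem cfd_curv (K : Fin 4 → Fin n) : fs ((cfd b χ).curv K) = b.curv K ∧
    sn ((cfd b χ).curv K) = (2 : ℝ) • (χ * b.curv K)
      + ((b.G (K 2) (K 1) * hs b χ (K 0) (K 3) + b.G (K 2) (K 3) * hs b χ (K 0) (K 1)
          - b.G (K 1) (K 3) * hs b χ (K 0) (K 2))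
        - (b.G (K 2) (K 0) * hs b χ (K 1) (K 3) + b.G (K 2) (K 3) * hs b χ (K 1) (K 0)
          - b.G (K 0) (K 3) * hs b χ (K 1) (K 2))) := by
  have hfG : ∀ i j, fs ((cfd b χ).G i j) = b.G i j := fun i j => by
    show fs ((inlH X).f (b.G i j) + eps ((2 : ℝ) • (χ * b.G i j))) = _
    simp [fs_inl]
  have hsG : ∀ i j, sn ((cfd b χ).G i j) = (2 : ℝ) • (χ * b.G i j) := fun i j => by
    show sn ((inlH X).f (b.G i j) + eps ((2 : ℝ) • (χ * b.G i j))) = _
    simp [sn_inl]
  constructor
  · unfold BD.curv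
    rw [fs_sum]
    refine Finset.sum_congr rfl fun p _ => ?_
    rw [fs_mul, hfG, cfd_F]
  · rw [← low_F]
    unfold BD.curv
    rw [sn_sum, Finset.mul_sum, Finset.smul_sum, ← Finset.sum_add_distrib]
    refine Finset.sum_congr rfl fun p _ => ?_
    rw [sn_mul, hfG, hsG, cfd_F]
    simp only [Algebra.smul_def]
    ring

end Cfd

end Run7.h96.Hy

end

section

/-!
The conformal variation of intrinsic formulas is natural and linear in the function.
-/

set_option linter.all false
set_option maxHeartbeats 400000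

open scoped BigOperators

namespace Run7.h96.Hy

open CInv

variable {n : ℕ}

section Cfd2

variable {X : DR n} (b : BD X Empty (fun _ => 0)) (χ : X.R)

theorem cfd_G (i j : Fin n) : fs ((cfd b χ).G i j) = b.G i j ∧
    sn ((cfd b χ).G i j) = (2 : ℝ) • (χ * b.G i j) := by
  constructor
  · show fs ((inlH X).f (b.G i j) + eps ((2 : ℝ) • (χ * b.G i j))) = _
    simp [fs_inl]
  · show sn ((inlH X).f (b.G i j) + eps ((2 : ℝ) • (χ * b.G i j))) = _
    simp [sn_inl]

theorem cfd_Gi (i j : Fin n) : fs ((cfd b χ).Gi i j) = b.Gi i j ∧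
    sn ((cfd b χ).Gi i j) = (-2 : ℝ) • (χ * b.Gi i j) := by
  constructor
  · show fs ((inlH X).f (b.Gi i j) + eps ((-2 : ℝ) • (χ * b.Gi i j))) = _
    simp [fs_inl]
  · show sn ((inlH X).f (b.Gi i j) + eps ((-2 : ℝ) • (χ * b.Gi i j))) = _
    simp [sn_inl]

end Cfd2

/-- the differential -/
theorem d1_eval {X : DR n} (b : BD X Empty (fun _ => 0)) (χ : X.R) (K : Option (Fin 0) → Fin n) :
    DD X.d b.A (fun _ : Fin 0 → Fin n => χ) K = X.d (K none) χ := by
  show X.d (K none) χ - act (b.A (K none)) (fun _ => χ) _ = _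
  unfold act
  rw [Finset.univ_eq_empty, Finset.sum_empty, sub_zero]

theorem d2_eval {X : DR n} (b : BD X Empty (fun _ => 0)) (χ : X.R)
    (K : Option (Option (Fin 0)) → Fin n) :
    DD X.d b.A (DD X.d b.A (fun _ : Fin 0 → Fin n => χ)) K = hs b χ (K none) (K (some none)) := by
  show X.d (K none) (DD X.d b.A (fun _ : Fin 0 → Fin n => χ) _)
    - act (b.A (K none)) (DD X.d b.A (fun _ : Fin 0 → Fin n => χ)) _ = _
  rw [d1_eval]
  unfold hs
  congr 1
  unfold act
  rw [Fintype.sum_option, Fin.sum_univ_zero, add_zero]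
  refine Finset.sum_congr rfl fun l _ => ?_
  rw [d1_eval, Function.update_self]

theorem LF.d1 : LF (n := n) (Option (Fin 0)) (fun X b χ K => X.d (K none) χ) :=
  (LF.chi.DD).congr fun X b χ K => d1_eval b χ K

theorem LF.d2 : LF (n := n) (Option (Option (Fin 0))) (fun X b χ K => hs b χ (K none) (K (some none))) :=
  ((LF.chi.DD).DD).congr fun X b χ K => d2_eval b χ K

/-- standard bijection -/
def e4 : Fin 2 ⊕ Option (Option (Fin 0)) ≃ Fin 4 where
  toFun s := match s with
    | Sum.inl 0 => 0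
    | Sum.inl 1 => 1
    | Sum.inr none => 2
    | Sum.inr (some none) => 3
  invFun s := match s with
    | 0 => Sum.inl 0
    | 1 => Sum.inl 1
    | 2 => Sum.inr none
    | 3 => Sum.inr (some none)
  left_inv s := by
    rcases s with s | s
    · fin_cases s <;> rfl
    · rcases s with _ | _ | s
      · rfl
      · rfl
      · exact s.elim0
  right_inv s := by fin_cases s <;> rfl

theorem LF.Gh (σ : Fin 4 ≃ Fin 4) : LF (n := n) (Fin 4)
    (fun X b χ K => b.G (K (σ 0)) (K (σ 1)) * hs b χ (K (σ 2)) (K (σ 3))) := by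
  have h1 := LF.mulN (FS.metr (n := n) (J := Empty) (ρ := fun _ => 0) (S := Set.univ)
    (E := Set.univ) (Set.mem_univ _)) (LF.d2 (n := n))
  exact (h1.relab (e4.trans σ)).congr fun X b χ K => rfl

/-- permutations -/
def pm (f g : Fin 4 → Fin 4) (h1 : ∀ i, g (f i) = i) (h2 : ∀ i, f (g i) = i) : Fin 4 ≃ Fin 4 :=
  ⟨f, g, h1, h2⟩

theorem LF.tensN {κ μ ν : Type} {Q : Tk n Empty (fun _ => 0) κ} (hQ : FS Set.univ Set.univ κ Q)
    {T : Lx n μ} (h : LF μ T) (e : κ ⊕ μ ≃ ν) :
    LF ν (fun X b χ K => Q X b (fun s => K (e (Sum.inl s))) * T X b χ (fun s => K (e (Sum.inr s)))) :=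
  ((LF.mulN hQ h).relab e).congr fun X b χ K => rfl

theorem LF.chiN {κ : Type} {Q : Tk n Empty (fun _ => 0) κ} (hQ : FS Set.univ Set.univ κ Q) :
    LF κ (fun X b χ K => χ * Q X b K) :=
  (LF.tensN hQ LF.chi (Equiv.sumEmpty κ (Fin 0))).congr fun X b χ K => by
    beta_reduce
    rw [mul_comm]
    rfl

/-- bijection of slots -/
def e1o (r : ℕ) : Fin r ⊕ Option (Fin 0) ≃ Option (Fin r) where
  toFun s := match s with
    | Sum.inl s => some s
    | Sum.inr _ => none
  invFun s := match s with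
    | some s => Sum.inl s
    | none => Sum.inr none
  left_inv s := by
    rcases s with s | s
    · rfl
    · rcases s with _ | s
      · rfl
      · exact s.elim0
  right_inv s := by cases s <;> rfl

theorem LF.dN {r : ℕ} {Q : Tk n Empty (fun _ => 0) (Fin r)} (hQ : FS Set.univ Set.univ (Fin r) Q) :
    LF (Option (Fin r)) (fun X b χ K => X.d (K none) χ * Q X b (fun s => K (some s))) :=
  (LF.tensN hQ LF.d1 (e1o r)).congr fun X b χ K => by
    beta_reduce
    rw [mul_comm]
    rfl

/-- bijection of slots -/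
def e3o (r : ℕ) : Fin r ⊕ (Fin 2 ⊕ Option (Fin 0)) ≃ Option (Option (Option (Fin r))) where
  toFun s := match s with
    | Sum.inl s => some (some (some s))
    | Sum.inr (Sum.inl 0) => some (some none)
    | Sum.inr (Sum.inl 1) => none
    | Sum.inr (Sum.inr _) => some none
  invFun s := match s with
    | some (some (some s)) => Sum.inl s
    | some (some none) => Sum.inr (Sum.inl 0)
    | none => Sum.inr (Sum.inl 1)
    | some none => Sum.inr (Sum.inr none)
  left_inv s := by
    rcases s with s | s | s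
    · rfl
    · fin_cases s <;> rfl
    · rcases s with _ | s
      · rfl
      · exact s.elim0
  right_inv s := by
    rcases s with _ | _ | _ | s <;> rfl

open Classical in
theorem upd_K {r : ℕ} (K : Option (Fin r) → Fin n) (s : Fin r) (l p : Fin n) :
    (fun u : Fin r => (ocons l (ocons p K)) (Equiv.swap none (some (some (some s)))
      (some (some (some u))))) = Function.update (fun u => K (some u)) s l := by
  funext u
  by_cases h : u = s
  · subst h
    rw [Function.update_self, Equiv.swap_apply_right]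
    rfl
  · rw [Function.update_of_ne h, Equiv.swap_apply_of_ne_of_ne (by simp) (by simpa using h)]
    rfl

open Classical in
/-- the term with the trace -/
theorem LF.cN {r : ℕ} {Q : Tk n Empty (fun _ => 0) (Fin r)} (hQ : FS Set.univ Set.univ (Fin r) Q)
    (s : Fin r) : LF (Option (Fin r)) (fun X b χ K => b.G (K none) (K (some s))
      * ∑ l, ∑ p, b.Gi l p * (X.d p χ * Q X b (Function.update (fun u => K (some u)) s l))) := by
  have h1 := LF.tensN (FS.metr (n := n) (J := Empty) (ρ := fun _ => 0) (S := Set.univ)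
    (E := Set.univ) (Set.mem_univ _)) (LF.d1 (n := n)) (Equiv.refl (Fin 2 ⊕ Option (Fin 0)))
  have h2 := LF.tensN hQ h1 ((e3o r).trans (Equiv.swap none (some (some (some s)))))
  refine (h2.contr2).congr fun X b χ K => ?_
  show (∑ l, ∑ p, b.Gi l p * _) = _
  rw [Finset.mul_sum]
  refine Finset.sum_congr rfl fun l _ => ?_
  rw [Finset.mul_sum]
  refine Finset.sum_congr rfl fun p _ => ?_
  have k1 : (fun u : Fin r => (ocons l (ocons p K)) (((e3o r).trans (Equiv.swap none
      (some (some (some s))))) (Sum.inl u))) = Function.update (fun u => K (some u)) s l :=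
    upd_K K s l p
  have k2 : (ocons l (ocons p K)) (((e3o r).trans (Equiv.swap none (some (some (some s)))))
      (Sum.inr (Sum.inl 0))) = K none := by
    show (ocons l (ocons p K)) (Equiv.swap none (some (some (some s))) (some (some none))) = _
    rw [Equiv.swap_apply_of_ne_of_ne (by simp) (by simp)]
    rfl
  have k3 : (ocons l (ocons p K)) (((e3o r).trans (Equiv.swap none (some (some (some s)))))
      (Sum.inr (Sum.inl 1))) = K (some s) := by
    show (ocons l (ocons p K)) (Equiv.swap none (some (some (some s))) none) = _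
    rw [Equiv.swap_apply_left]
    rfl
  have k4 : (ocons l (ocons p K)) (((e3o r).trans (Equiv.swap none (some (some (some s)))))
      (Sum.inr (Sum.inr none))) = p := by
    show (ocons l (ocons p K)) (Equiv.swap none (some (some (some s))) (some none)) = _
    rw [Equiv.swap_apply_of_ne_of_ne (by simp) (by simp)]
    rfl
  show b.Gi l p * (Q X b (fun u => (ocons l (ocons p K)) (((e3o r).trans (Equiv.swap none
      (some (some (some s))))) (Sum.inl u)))
    * (b.G ((ocons l (ocons p K)) (((e3o r).trans (Equiv.swap none (some (some (some s)))))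
      (Sum.inr (Sum.inl 0)))) ((ocons l (ocons p K)) (((e3o r).trans (Equiv.swap none
      (some (some (some s))))) (Sum.inr (Sum.inl 1))))
    * X.d ((ocons l (ocons p K)) (((e3o r).trans (Equiv.swap none (some (some (some s)))))
      (Sum.inr (Sum.inr none)))) χ)) = _
  rw [k1, k2, k3, k4]
  ring

open Classical in
theorem LF.sN {r : ℕ} {Q : Tk n Empty (fun _ => 0) (Fin r)} (hQ : FS Set.univ Set.univ (Fin r) Q)
    (s : Fin r) : LF (Option (Fin r)) (fun X b χ K => X.d (K (some s)) χ
      * Q X b (Function.update (fun u => K (some u)) s (K none))) := by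
  refine ((LF.dN hQ).relab (Equiv.swap none (some s))).congr fun X b χ K => ?_
  show X.d (K (Equiv.swap none (some s) none)) χ * Q X b (fun u => K (Equiv.swap none (some s) (some u)))
    = _
  rw [Equiv.swap_apply_left]
  congr 2
  funext u
  by_cases h : u = s
  · subst h
    rw [Function.update_self, Equiv.swap_apply_right]
  · rw [Function.update_of_ne h, Equiv.swap_apply_of_ne_of_ne (by simp) (by simpa using h)]

/-- action of the variation of the Christoffel symbols -/
theorem act_dA {X : DR n} (b : BD X Empty (fun _ => 0)) (χ : X.R) {r : ℕ}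
    (T : (Fin r → Fin n) → X.R) (i : Fin n) (K : Fin r → Fin n) :
    act (fun l m => dA' b χ i l m) T K = ∑ s, (X.d i χ * T K
      + X.d (K s) χ * T (Function.update K s i)
      - b.G i (K s) * ∑ l, ∑ p, b.Gi l p * (X.d p χ * T (Function.update K s l))) := by
  unfold act dA'
  refine Finset.sum_congr rfl fun s _ => ?_
  have h1 : ∀ l, ((if l = K s then X.d i χ else 0) + (if l = i then X.d (K s) χ else 0)
      - b.G i (K s) * ∑ p, b.Gi l p * X.d p χ) * T (Function.update K s l)
      = (if l = K s then X.d i χ * T (Function.update K s (K s)) else 0)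
        + (if l = i then X.d (K s) χ * T (Function.update K s i) else 0)
        - b.G i (K s) * ∑ p, b.Gi l p * (X.d p χ * T (Function.update K s l)) := by
    intro l
    have e1 : (if l = K s then X.d i χ else 0) * T (Function.update K s l)
        = if l = K s then X.d i χ * T (Function.update K s (K s)) else 0 := by
      by_cases h : l = K s
      · rw [if_pos h, if_pos h, h]
      · rw [if_neg h, if_neg h, zero_mul]
    have e2 : (if l = i then X.d (K s) χ else 0) * T (Function.update K s l)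
        = if l = i then X.d (K s) χ * T (Function.update K s i) else 0 := by
      by_cases h : l = i
      · rw [if_pos h, if_pos h, h]
      · rw [if_neg h, if_neg h, zero_mul]
    rw [sub_mul, add_mul, e1, e2, mul_assoc, Finset.sum_mul]
    congr 2
    refine Finset.sum_congr rfl fun p _ => by ring
  rw [Finset.sum_congr rfl fun l _ => h1 l, Finset.sum_sub_distrib, Finset.sum_add_distrib,
    Finset.sum_ite_eq' Finset.univ, Finset.sum_ite_eq' Finset.univ, if_pos (Finset.mem_univ _),
    if_pos (Finset.mem_univ _), ← Finset.mul_sum, Function.update_eq_self]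

open Classical in
/-- the conformal variation of a formula -/
theorem cvar {r : ℕ} (P : Fml Empty (fun _ => 0) r) : ∃ L : Lx n (Fin r), LF (Fin r) L ∧
    ∀ (X : DR n) (b : BD X Empty (fun _ => 0)) (χ : X.R) (K : Fin r → Fin n),
      fs (P.eval X.dual (cfd b χ) K) = P.eval X b K ∧
      sn (P.eval X.dual (cfd b χ) K) = L X b χ K := by
  induction P with
  | one => exact ⟨_, LF.zero, fun X b χ K => ⟨rfl, rfl⟩⟩
  | met =>
    refine ⟨_, (LF.chiN (FS.metr (Set.mem_univ _))).smul 2, fun X b χ K => ?_⟩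
    exact cfd_G b χ (K 0) (K 1)
  | curv =>
    have hc := (LF.chiN (n := n) (FS.curv (J := Empty) (ρ := fun _ => 0) (S := Set.univ)
      (E := Set.univ) (Set.mem_univ _))).smul 2
    have t1 := LF.Gh (n := n) (pm ![2, 1, 0, 3] ![2, 1, 0, 3] (by decide) (by decide))
    have t2 := LF.Gh (n := n) (pm ![2, 3, 0, 1] ![2, 3, 0, 1] (by decide) (by decide))
    have t3 := LF.Gh (n := n) (pm ![1, 3, 0, 2] ![2, 0, 3, 1] (by decide) (by decide))
    have t4 := LF.Gh (n := n) (pm ![2, 0, 1, 3] ![1, 2, 0, 3] (by decide) (by decide))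
    have t5 := LF.Gh (n := n) (pm ![2, 3, 1, 0] ![3, 2, 0, 1] (by decide) (by decide))
    have t6 := LF.Gh (n := n) (pm ![0, 3, 1, 2] ![0, 2, 3, 1] (by decide) (by decide))
    refine ⟨_, hc.add (((t1.add t2).sub t3).sub ((t4.add t5).sub t6)), fun X b χ K => ?_⟩
    exact cfd_curv b χ K
  | fld j => exact j.elim
  | zero r => exact ⟨_, LF.zero, fun X b χ K => ⟨rfl, rfl⟩⟩
  | add _ _ h1 h2 =>
    obtain ⟨L1, hL1, e1⟩ := h1
    obtain ⟨L2, hL2, e2⟩ := h2
    refine ⟨_, hL1.add hL2, fun X b χ K => ⟨?_, ?_⟩⟩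
    · show fs (_ + _) = _
      rw [fs_add, (e1 X b χ K).1, (e2 X b χ K).1]; rfl
    · show sn (_ + _) = _
      rw [sn_add, (e1 X b χ K).2, (e2 X b χ K).2]
  | smul t _ h1 =>
    obtain ⟨L1, hL1, e1⟩ := h1
    refine ⟨_, hL1.smul t, fun X b χ K => ⟨?_, ?_⟩⟩
    · show fs (t • _) = _
      rw [fs_smul, (e1 X b χ K).1]; rfl
    · show sn (t • _) = _
      rw [sn_smul, (e1 X b χ K).2]
  | @mul r r' t e S T h1 h2 =>
    obtain ⟨L1, hL1, e1⟩ := h1
    obtain ⟨L2, hL2, e2⟩ := h2
    have f1 := LF.tensN (S.toFS (n := n)) hL2 e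
    have f2 := LF.tensN (T.toFS (n := n)) hL1 ((Equiv.sumComm (Fin r') (Fin r)).trans e)
    refine ⟨_, f1.add f2, fun X b χ K => ⟨?_, ?_⟩⟩
    · show fs (_ * _) = _
      rw [fs_mul, (e1 X b χ _).1, (e2 X b χ _).1]; rfl
    · show sn (_ * _) = _
      rw [sn_mul, (e1 X b χ _).1, (e2 X b χ _).1, (e1 X b χ _).2, (e2 X b χ _).2]
      beta_reduce
      rw [mul_comm (L1 X b χ _)]
      rfl
  | perm e _ h1 =>
    obtain ⟨L1, hL1, e1⟩ := h1
    exact ⟨_, hL1.relab e, fun X b χ K => e1 X b χ _⟩
  | @contr r t e T h1 =>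
    obtain ⟨L1, hL1, e1⟩ := h1
    have f1 := (hL1.relab e).contr2
    have f2 := (LF.chiN (FS.contr2 ((T.toFS (n := n)).relab e))).smul (-2)
    refine ⟨_, f1.add f2, fun X b χ K => ⟨?_, ?_⟩⟩
    · show fs (∑ i, ∑ j, (cfd b χ).Gi i j * T.eval X.dual (cfd b χ) _) = _
      rw [fs_sum]
      refine Finset.sum_congr rfl fun i _ => ?_
      rw [fs_sum]
      refine Finset.sum_congr rfl fun j _ => ?_
      rw [fs_mul, (cfd_Gi b χ i j).1, (e1 X b χ _).1]
      rfl
    · show sn (∑ i, ∑ j, (cfd b χ).Gi i j * T.eval X.dual (cfd b χ) _)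
        = (∑ i, ∑ j, b.Gi i j * L1 X b χ _) + (-2 : ℝ) • (χ * ∑ i, ∑ j, b.Gi i j * T.eval X b _)
      rw [sn_sum, Finset.mul_sum, Finset.smul_sum, ← Finset.sum_add_distrib]
      refine Finset.sum_congr rfl fun i _ => ?_
      rw [sn_sum, Finset.mul_sum, Finset.smul_sum, ← Finset.sum_add_distrib]
      refine Finset.sum_congr rfl fun j _ => ?_
      rw [sn_mul, (cfd_Gi b χ i j).1, (cfd_Gi b χ i j).2, (e1 X b χ _).1, (e1 X b χ _).2,
        smul_mul_assoc, mul_assoc]
  | @deriv r t e T h1 =>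
    obtain ⟨L1, hL1, e1⟩ := h1
    have hT := T.toFS (n := n)
    have f1 := hL1.DD
    have f2 := LF.sum Finset.univ (T := fun (s : Fin r) (X : DR n) (b : BD X Empty (fun _ => 0))
      (χ : X.R) (K : Option (Fin r) → Fin n) => (X.d (K none) χ * T.eval X b (fun u => K (some u))
        + X.d (K (some s)) χ * T.eval X b (Function.update (fun u => K (some u)) s (K none)))
        - b.G (K none) (K (some s)) * ∑ l, ∑ p, b.Gi l p * (X.d p χ
          * T.eval X b (Function.update (fun u => K (some u)) s l)))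
      (fun s _ => ((LF.dN hT).add (LF.sN hT s)).sub (LF.cN hT s))
    refine ⟨_, (f1.sub f2).relab e, fun X b χ K => ⟨?_, ?_⟩⟩
    · show fs (X.dual.d (K (e none)) (T.eval X.dual (cfd b χ) _)
        - act ((cfd b χ).A (K (e none))) (T.eval X.dual (cfd b χ)) _)
        = X.d (K (e none)) (T.eval X b _) - act (b.A (K (e none))) (T.eval X b) _
      rw [fs_sub, fs_d, (e1 X b χ _).1]
      congr 1
      unfold act
      rw [fs_sum]
      refine Finset.sum_congr rfl fun s _ => ?_
      rw [fs_sum]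
      refine Finset.sum_congr rfl fun l _ => ?_
      rw [fs_mul, (cfd_A b χ _ _ _).1, (e1 X b χ _).1]
    · set K' : Fin r → Fin n := fun s => K (e (some s)) with hK'
      show sn (X.dual.d (K (e none)) (T.eval X.dual (cfd b χ) K')
        - act ((cfd b χ).A (K (e none))) (T.eval X.dual (cfd b χ)) K')
        = (X.d (K (e none)) (L1 X b χ K') - act (b.A (K (e none))) (L1 X b χ) K')
          - ∑ s, (X.d (K (e none)) χ * T.eval X b K'
            + X.d (K' s) χ * T.eval X b (Function.update K' s (K (e none)))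
            - b.G (K (e none)) (K' s) * ∑ l, ∑ p, b.Gi l p * (X.d p χ
              * T.eval X b (Function.update K' s l)))
      rw [← act_dA, sn_sub, sn_d, (e1 X b χ _).2, sub_sub]
      congr 1
      unfold act
      rw [sn_sum, ← Finset.sum_add_distrib]
      refine Finset.sum_congr rfl fun s _ => ?_
      rw [sn_sum, ← Finset.sum_add_distrib]
      refine Finset.sum_congr rfl fun l _ => ?_
      rw [sn_mul, (cfd_A b χ _ _ _).1, (cfd_A b χ _ _ _).2, (e1 X b χ _).1, (e1 X b χ _).2]

end Run7.h96.Hy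

end

section

/-!
Integration by parts and homogeneity for the conformal variation of intrinsic scalars.
-/

set_option linter.all false
set_option maxHeartbeats 400000

open scoped BigOperators
open MeasureTheory

namespace Run7.h96.Hy

open CInv

variable {n : ℕ}

theorem pair_f0 {X : DR n} (Gi : Fin n → Fin n → X.R) (S T : (Fin 0 → Fin n) → X.R) :
    pair Gi S T = S ![] * T ![] := by
  unfold pair
  rw [Fintype.sum_unique, Fintype.sum_unique, Finset.univ_eq_empty, Finset.prod_empty, mul_one,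
    Subsingleton.elim (default : Fin 0 → Fin n) ![]]

open Classical in
/-- integration by parts for scalars linear in a function -/
theorem LF.split {L : Lx n (Fin 0)} (h : LF (Fin 0) L) :
    ∃ (E : Tk n Empty (fun _ => 0) (Fin 0))
      (V : ∀ X : DR n, BD X Empty (fun _ => 0) → X.R → Fin n → X.R),
      FS Set.univ Set.univ (Fin 0) E ∧
      FS Set.univ Set.univ (Fin 1) (fun X b K => V X b 1 (K 0)) ∧
      ∀ X b χ, L X b χ ![] = E X b ![] * χ + dvg X.d b.A b.Gi (V X b χ) := by
  obtain ⟨T', hT, hI⟩ := h.out (Equiv.refl (Fin 0))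
  obtain ⟨s, E, V, hs, hE, hV, hP⟩ := hT.parts (fun _ _ _ => 1) (FS.one (Set.mem_univ _))
  refine ⟨E (), fun X b χ => V X b (cu χ), hE (), ?_, fun X b χ => ?_⟩
  · exact hV (fun X b => cu 1) (fun j _ => FS.one (Set.mem_univ _))
  · have h1 := hP X b (cu χ)
    rw [pair_f0, one_mul] at h1
    rw [hI]
    have e0 : (fun s => (![] : Fin 0 → Fin n) ((Equiv.refl (Fin 0)).symm s)) = ![] :=
      Subsingleton.elim _ _
    rw [e0, h1]
    congr 1
    by_cases hu : () ∈ s
    · have : s = {()} := Finset.eq_singleton_iff_unique_mem.mpr ⟨hu, fun x _ => rfl⟩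
      rw [this, Finset.sum_singleton, pair_f0]
      rfl
    · have : s = ∅ := by
        ext u
        simp only [Finset.notMem_empty, iff_false]
        exact hu
      rw [this, Finset.sum_empty, hs () hu, zero_mul]

/-! ### homogeneity -/

section Hom

variable {X : DR n} (b : BD X Empty (fun _ => 0))

theorem dA_one (i l m : Fin n) : dA' b 1 i l m = 0 := by
  unfold dA'
  simp only [Derivation.map_one_eq_zero, mul_zero, Finset.sum_const_zero, ite_self, add_zero,
    sub_zero]

theorem hs_one (i m : Fin n) : hs b 1 i m = 0 := by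
  unfold hs
  simp only [Derivation.map_one_eq_zero, mul_zero, Finset.sum_const_zero, map_zero, sub_zero]

end Hom

theorem HN.csc {S : Set Empty} {g : Dg Empty} {r : ℕ} {T : Tn n Empty (fun _ => 0) r}
    {L : Ln n Empty (fun _ => 0) r} (h : HN S g r T L) {X : DR n} (b : BD X Empty (fun _ => 0)) :
    ∀ K, fs (T X.dual (cfd b 1) K) = T X b K ∧
      sn (T X.dual (cfd b 1) K) = ((r : ℝ) - g.2) • T X b K := by
  induction h with
  | one => intro K; exact ⟨rfl, by simp⟩
  | met =>
    intro K
    refine ⟨(cfd_G b 1 _ _).1, ?_⟩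
    show sn ((cfd b 1).G (K 0) (K 1)) = _
    rw [(cfd_G b 1 _ _).2, one_mul]
    norm_num
  | curv =>
    intro K
    refine ⟨(cfd_curv b 1 K).1, ?_⟩
    show sn ((cfd b 1).curv K) = _
    rw [(cfd_curv b 1 K).2]
    simp only [hs_one, mul_zero, add_zero, sub_zero, one_mul]
    norm_num
  | fieldV j _ => exact j.elim
  | fieldC j _ => exact j.elim
  | zero g r => intro K; exact ⟨rfl, by simp⟩
  | add _ _ h1 h2 =>
    intro K
    constructor
    · show fs (_ + _) = _
      rw [fs_add, (h1 K).1, (h2 K).1]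
    · show sn (_ + _) = _
      rw [sn_add, (h1 K).2, (h2 K).2, smul_add]
  | smul t _ h1 =>
    intro K
    constructor
    · show fs (t • _) = _
      rw [fs_smul, (h1 K).1]
    · show sn (t • _) = _
      rw [sn_smul, (h1 K).2, smul_comm]
  | @mul g g' r r' t T T' L L' e _ _ h1 h2 =>
    intro K
    have ht : t = r + r' := by
      have := Fintype.card_congr e
      simpa using this.symm
    constructor
    · show fs (_ * _) = _
      rw [fs_mul, (h1 _).1, (h2 _).1]; rfl
    · show sn (_ * _) = _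
      rw [sn_mul, (h1 _).1, (h2 _).1, (h1 _).2, (h2 _).2]
      have h3 : ((t : ℝ) - ((g + g').2 : ℕ)) = ((r : ℝ) - g.2) + ((r' : ℝ) - g'.2) := by
        rw [ht, Prod.snd_add]; push_cast; ring
      rw [h3, mul_smul_comm, smul_mul_assoc, add_smul, add_comm]
      rfl
  | perm e _ h1 =>
    intro K
    rename_i r r' _ _ _
    have ht : r' = r := by
      have := Fintype.card_congr e
      simpa using this.symm
    subst ht
    exact h1 _
  | @contr g r t T L e _ h1 =>
    intro K
    have ht : t = r + 2 := by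
      have := Fintype.card_congr e
      simpa using this
    constructor
    · show fs (∑ i, ∑ j, (cfd b 1).Gi i j * T X.dual (cfd b 1) _) = _
      rw [fs_sum]
      refine Finset.sum_congr rfl fun i _ => ?_
      rw [fs_sum]
      refine Finset.sum_congr rfl fun j _ => ?_
      rw [fs_mul, (cfd_Gi b 1 i j).1, (h1 _).1]
      rfl
    · show sn (∑ i, ∑ j, (cfd b 1).Gi i j * T X.dual (cfd b 1) _)
        = ((r : ℝ) - g.2) • ∑ i, ∑ j, b.Gi i j * T X b _
      rw [sn_sum, Finset.smul_sum]
      refine Finset.sum_congr rfl fun i _ => ?_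
      rw [sn_sum, Finset.smul_sum]
      refine Finset.sum_congr rfl fun j _ => ?_
      have ht' : (t : ℝ) = r + 2 := by rw [ht]; push_cast; ring
      rw [sn_mul, (cfd_Gi b 1 i j).1, (cfd_Gi b 1 i j).2, (h1 _).1, (h1 _).2, one_mul, ht',
        mul_smul_comm, smul_mul_assoc, ← add_smul]
      congr 1
      ring
  | @deriv g r t T L e _ h1 =>
    intro K
    have ht : t = r + 1 := by
      have := Fintype.card_congr e
      simpa using this.symm
    constructor
    · show fs (X.dual.d (K (e none)) (T X.dual (cfd b 1) _)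
        - act ((cfd b 1).A (K (e none))) (T X.dual (cfd b 1)) _)
        = X.d (K (e none)) (T X b _) - act (b.A (K (e none))) (T X b) _
      rw [fs_sub, fs_d, (h1 _).1]
      congr 1
      unfold act
      rw [fs_sum]
      refine Finset.sum_congr rfl fun s _ => ?_
      rw [fs_sum]
      refine Finset.sum_congr rfl fun l _ => ?_
      rw [fs_mul, (cfd_A b 1 _ _ _).1, (h1 _).1]
    · show sn (X.dual.d (K (e none)) (T X.dual (cfd b 1) _)
        - act ((cfd b 1).A (K (e none))) (T X.dual (cfd b 1)) _)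
        = ((t : ℝ) - ((g + (0, 1)).2 : ℕ)) • (X.d (K (e none)) (T X b _)
          - act (b.A (K (e none))) (T X b) _)
      have h3 : ((t : ℝ) - ((g + (0, 1)).2 : ℕ)) = ((r : ℝ) - g.2) := by
        rw [ht, Prod.snd_add]; push_cast; ring
      rw [h3, sn_sub, sn_d, (h1 _).2, smul_sub, Derivation.map_smul]
      congr 1
      unfold act
      rw [sn_sum, Finset.smul_sum]
      refine Finset.sum_congr rfl fun s _ => ?_
      rw [sn_sum, Finset.smul_sum]
      refine Finset.sum_congr rfl fun l _ => ?_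
      rw [sn_mul, (cfd_A b 1 _ _ _).1, (cfd_A b 1 _ _ _).2, (h1 _).1, (h1 _).2, dA_one, zero_mul,
        add_zero, mul_smul_comm]

theorem wg_empty (w : Empty → ℕ) (g : Dg Empty) : wg w g = g.2 := by
  have h : g.1 = 0 := Subsingleton.elim _ _
  unfold wg
  rw [h]
  simp

theorem FS.csc {m : ℕ} {w : Empty → ℕ} {T : Tk n Empty (fun _ => 0) (Fin 0)}
    (hT : FS Set.univ {g | wg w g = m} (Fin 0) T) {X : DR n} (b : BD X Empty (fun _ => 0)) :
    sn (T X.dual (cfd b 1) ![]) = (-(m : ℝ)) • T X b ![] := by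
  obtain ⟨ι, hι, g, T1, L, hg, hT1, hS⟩ := hT.out (Equiv.refl (Fin 0))
  rw [hS, hS, sn_sum, Finset.smul_sum]
  refine Finset.sum_congr rfl fun i _ => ?_
  rw [((hT1 i).csc b _).2]
  have h1 : (g i).2 = m := by rw [← wg_empty w]; exact hg i
  rw [h1]
  simp

end Run7.h96.Hy

end

section

/-!
Intrinsic scalars with vanishing total integral on `T^k`.
-/

set_option linter.all false
set_option maxHeartbeats 400000

open scoped BigOperators
open MeasureTheory

namespace Run7.h96.Hy

open CInv

variable {k : ℕ}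

/-- determinant of the metric -/
theorem mt_det (g : MT k) (x : Fin k → ℝ) :
    va (Matrix.of g.G : Matrix (Fin k) (Fin k) (AA k).R).det x
      = (Matrix.of fun a c => va (g.G a c) x).det :=
  RingHom.map_det (evA x : (AA k).R →+* ℝ) (Matrix.of g.G)

/-- the volume density of a metric on `T^k` -/
structure VT (g : MT k) (w : (AA k).R) : Prop where
  pos : ∀ x, 0 < va w x
  sq : ∀ x, va w x = Real.sqrt (Matrix.of fun a c => va (g.G a c) x).det
  jac : ∀ a : Fin k, (AA k).tg.d a w = w * ∑ p, g.A a p p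
  nd : ∀ Q : (AA k).R, (∀ χ, IA k (Q * χ * w) = 0) → Q = 0

theorem ex_VT {g : MT k} (hg : PosT g) : ∃ w, VT g w := by
  have hD : ∀ x, 0 < va (Matrix.of g.G : Matrix (Fin k) (Fin k) (AA k).R).det x := fun x => by
    rw [mt_det]; exact (hg x).det_pos
  obtain ⟨w, hw1, hw2, hw3⟩ := va_sqrt (Matrix.of g.G : Matrix (Fin k) (Fin k) (AA k).R).det hD
  obtain ⟨w', hw'⟩ := unit_of_pos (f := w) (fun x => (hw2 x).ne')
  refine ⟨w, hw2, fun x => by rw [hw3, mt_det], fun i => ?_, fun Q hQ => ?_⟩
  · have hM : (Matrix.of g.Gi : Matrix (Fin k) (Fin k) (AA k).R) * Matrix.of g.G = 1 := by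
      ext i j
      rw [Matrix.mul_apply, Matrix.one_apply]
      exact g.inv' i j
    have h1 := der_det ((AA k).tg.d i) (Matrix.of g.G : Matrix (Fin k) (Fin k) (AA k).tg.R)
      (Matrix.of g.Gi) hM
    have hw1' : (Matrix.of g.G : Matrix (Fin k) (Fin k) (AA k).tg.R).det = w * w := hw1.symm
    rw [hw1', Derivation.leibniz] at h1
    have h2 : ∑ p, ∑ q, (Matrix.of g.Gi : Matrix (Fin k) (Fin k) (AA k).tg.R) p q
        * (AA k).tg.d i ((Matrix.of g.G : Matrix (Fin k) (Fin k) (AA k).tg.R) q p)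
        = (2 : ℝ) • ∑ p, g.A i p p := by
      rw [tr_chr, smul_smul]
      norm_num
      refine Finset.sum_congr rfl fun p _ => Finset.sum_congr rfl fun q _ => ?_
      rw [g.symm q p]
    rw [h2, smul_eq_mul] at h1
    have h3 : (2 : ℝ) • (w * (AA k).tg.d i w) = (2 : ℝ) • (w * (w * ∑ p, g.A i p p)) := by
      rw [two_smul, h1, mul_smul_comm]
      ring_nf
    have h4 : w * (AA k).tg.d i w = w * (w * ∑ p, g.A i p p) := by
      have := congrArg (fun x => (1 / 2 : ℝ) • x) h3
      simp only [smul_smul] at this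
      norm_num at this
      exact this
    have hw'' : (w * w' : (AA k).tg.R) = 1 := hw'
    linear_combination (w' : (AA k).tg.R) * h4 - ((AA k).tg.d i w - w * ∑ p, g.A i p p) * hw''
  · have h1 := hQ (Q * w)
    have h2 : cube (va (Q * (Q * w) * w)) = 0 := h1
    have h3 := zero_of_cube_eq_zero (va_cont _) (va_per _) (fun x => by
      rw [va_mul, va_mul, va_mul]
      have : va Q x * (va Q x * va w x) * va w x = (va Q x * va w x) ^ 2 := by ring
      rw [this]; positivity) h2
    refine va_ext fun x => ?_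
    have h4 := h3 x
    rw [va_mul, va_mul, va_mul] at h4
    have h5 : (va Q x * va w x) ^ 2 = 0 := by rw [← h4]; ring
    have h6 := pow_eq_zero_iff (two_ne_zero) |>.mp h5
    rcases mul_eq_zero.mp h6 with h | h
    · exact h
    · exact absurd h (hw2 x).ne'

theorem VT.div {g : MT k} {w : (AA k).R} (hw : VT g w) (V : Fin k → (AA k).R) :
    IA k (dvg (AA k).tg.d g.A g.Gi V * w) = 0 := by
  have h1 := dvg_total g (w := w) hw.jac V
  refine (congrArg (IA k) h1).trans ?_
  rw [map_sum]
  exact Finset.sum_eq_zero fun a _ => (JA k).dI a.succ _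

theorem totalT_eq (P : Fml Empty (fun _ => 0) 0) {g : MT k} {w : (AA k).R} (hw : VT g w) :
    totalT P g = IA k (P.eval (AA k).tg g ![] * w) := by
  show _ = ∫ x in Set.Icc (0 : Fin k → ℝ) 1, va (P.eval (AA k).tg g ![] * w) x
  unfold totalT
  refine setIntegral_congr_fun measurableSet_Icc fun x _ => ?_
  beta_reduce
  rw [← hw.sq]
  exact (va_mul _ _ x).symm

/-! ### the conformal family -/

/-- the function `e^{tχ}` -/
noncomputable def ET (χ : (AA k).R) : (AT k).R := (HT' k).res (eT (lA χ))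

theorem ET_inv (χ : (AA k).R) : ET χ * (HT' k).res (eT (-lA χ)) = 1 := by
  unfold ET
  rw [← map_mul, eT_inv, map_one]

theorem ev_ET (t : ℝ) (χ : (AA k).R) : (evA' t).f (ET χ) = eA (t • χ) := va_ext fun x => by
  unfold ET
  rw [← res_ev, ev_eT, va_res, vx_eX, vx_smul, vx_lA, va_eA, va_smul]
  rfl

theorem ev_ETi (t : ℝ) (χ : (AA k).R) : (evA' t).f ((HT' k).res (eT (-lA χ))) = eA (-(t • χ)) :=
  va_ext fun x => by
    rw [← res_ev, ev_eT, va_res, vx_eX, vx_smul, vx_neg, vx_lA, va_eA, va_neg, va_smul]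
    congr 1
    show t * -va χ x = -(t * va χ x)
    ring

theorem d_ET (χ : (AA k).R) : dAT (ET χ) = cA'.f χ * ET χ := by
  unfold ET
  rw [← res_dT, d_eT, map_mul, res_c, res_lA]

theorem d_ETi (χ : (AA k).R) : dAT ((HT' k).res (eT (-lA χ)))
    = -cA'.f χ * (HT' k).res (eT (-lA χ)) := by
  rw [← res_dT, d_eT, map_mul, res_c, map_neg, res_lA, map_neg]

/-- the family of metrics `e^{2tχ} g` -/
noncomputable def gT (g : MT k) (χ : (AA k).R) : BD (AT k).tg Empty (fun _ => 0) where
  G a c := (ET χ * ET χ * cA'.f (g.G a c) : (AT k).R)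
  Gi a c := ((HT' k).res (eT (-lA χ)) * (HT' k).res (eT (-lA χ)) * cA'.f (g.Gi a c) : (AT k).R)
  Φ := fun e => e.elim
  met := {
    symm := fun a c => by rw [g.symm]
    inv := fun a c => by
      have h1 := congrArg (cA' (k := k)).f (g.inv a c)
      have h2 : (cA' (k := k)).f (∑ p, g.G a p * g.Gi p c)
          = ∑ p, (cA' (k := k)).f (g.G a p) * (cA' (k := k)).f (g.Gi p c) := by
        rw [map_sum]
        exact Finset.sum_congr rfl fun p _ => map_mul _ _ _
      have h3 : (cA' (k := k)).f (if a = c then (1 : (AA k).R) else 0)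
          = if a = c then (1 : (AT k).R) else 0 := by
        split_ifs
        · exact map_one _
        · exact map_zero _
      refine Eq.trans ?_ (h2.symm.trans (h1.trans h3))
      refine Finset.sum_congr rfl fun p _ => ?_
      have h4 := ET_inv χ
      show ET χ * ET χ * cA'.f (g.G a p) * ((HT' k).res (eT (-lA χ)) * (HT' k).res (eT (-lA χ))
        * cA'.f (g.Gi p c)) = cA'.f (g.G a p) * cA'.f (g.Gi p c)
      have e : ET χ * ET χ * cA'.f (g.G a p) * ((HT' k).res (eT (-lA χ))
        * (HT' k).res (eT (-lA χ)) * cA'.f (g.Gi p c))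
        = (ET χ * (HT' k).res (eT (-lA χ))) * (ET χ * (HT' k).res (eT (-lA χ)))
          * (cA'.f (g.G a p) * cA'.f (g.Gi p c)) := by ring
      rw [e, h4]; ring }

theorem gT_ev (g : MT k) (χ : (AA k).R) (t : ℝ) :
    confT g (t • χ) = (gT g χ).map (evA' t).tg.f := by
  refine BD.ext' ?_ ?_ (by funext e; exact e.elim)
  · funext a c
    show eA (t • χ) * eA (t • χ) * g.G a c = (evA' t).f (ET χ * ET χ * cA'.f (g.G a c))
    rw [map_mul, map_mul, ev_ET, evA_c]
  · funext a c
    show eA (-(t • χ)) * eA (-(t • χ)) * g.Gi a c = (evA' t).f ((HT' k).res (eT (-lA χ))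
      * (HT' k).res (eT (-lA χ)) * cA'.f (g.Gi a c))
    rw [map_mul, map_mul, ev_ETi, evA_c]

/-- tangential part of the first order expansion -/
noncomputable def dA2 (k : ℕ) (t : ℝ) : DH (AT k).tg (AA k).tg.dual where
  f := (dA t).f
  hd a f := (dA t).hd a.succ f

theorem gT_d (g : MT k) (χ : (AA k).R) (t : ℝ) :
    cfd (X := (AA k).tg) (confT g (t • χ)) χ = (gT g χ).map (dA2 k t).f := by
  refine BD.ext' ?_ ?_ (by funext e; exact e.elim)
  · funext a c
    show _ = (dA t).f (ET χ * ET χ * cA'.f (g.G a c))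
    refine dual_ext (X := (AA k).tg) ?_ ?_
    · rw [(cfd_G (X := (AA k).tg) (confT g (t • χ)) χ a c).1]
      refine Eq.trans ?_ (fs_dA t _).symm
      show eA (t • χ) * eA (t • χ) * g.G a c = _
      rw [map_mul, map_mul, ev_ET, evA_c]
    · rw [(cfd_G (X := (AA k).tg) (confT g (t • χ)) χ a c).2]
      refine Eq.trans ?_ (sn_dA t _).symm
      show (2 : ℝ) • (χ * (eA (t • χ) * eA (t • χ) * g.G a c)) = _
      rw [Derivation.leibniz, Derivation.leibniz, dAT_c, d_ET]
      simp only [smul_eq_mul, mul_zero, zero_add, map_add, map_mul, ev_ET, evA_c]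
      simp only [Algebra.smul_def, map_ofNat]
      ring
  · funext a c
    show _ = (dA t).f ((HT' k).res (eT (-lA χ)) * (HT' k).res (eT (-lA χ)) * cA'.f (g.Gi a c))
    refine dual_ext (X := (AA k).tg) ?_ ?_
    · rw [(cfd_Gi (X := (AA k).tg) (confT g (t • χ)) χ a c).1]
      refine Eq.trans ?_ (fs_dA t _).symm
      show eA (-(t • χ)) * eA (-(t • χ)) * g.Gi a c = _
      rw [map_mul, map_mul, ev_ETi, evA_c]
    · rw [(cfd_Gi (X := (AA k).tg) (confT g (t • χ)) χ a c).2]
      refine Eq.trans ?_ (sn_dA t _).symm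
      show (-2 : ℝ) • (χ * (eA (-(t • χ)) * eA (-(t • χ)) * g.Gi a c)) = _
      rw [Derivation.leibniz, Derivation.leibniz, dAT_c, d_ETi]
      simp only [smul_eq_mul, mul_zero, zero_add, map_add, map_mul, map_neg, ev_ETi, evA_c]
      simp only [Algebra.smul_def, map_neg, map_ofNat]
      ring

end Run7.h96.Hy

end

section

/-!
Intrinsic scalars with vanishing total integral on `T^k` are divergences; weights.
-/

set_option linter.all false
set_option maxHeartbeats 400000

open scoped BigOperators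
open MeasureTheory

namespace Run7.h96.Hy

open CInv

variable {k : ℕ}

theorem sqrt_confT (g : MT k) (χ : (AA k).R) (x : Fin k → ℝ) :
    Real.sqrt (Matrix.of fun a c => va ((confT g χ).G a c) x).det
      = va (eA χ) x ^ k * Real.sqrt (Matrix.of fun a c => va (g.G a c) x).det := by
  have e : (Matrix.of fun a c => va ((confT g χ).G a c) x)
      = (va (eA χ) x * va (eA χ) x) • (Matrix.of fun a c => va (g.G a c) x) := by
    ext a b
    rfl
  rw [e, Matrix.det_smul, Fintype.card_fin]
  have h1 : 0 < va (eA χ) x := Real.exp_pos _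
  rw [← pow_two, ← pow_mul, mul_comm 2 k, pow_mul]
  have h2 : Real.sqrt ((va (eA χ) x ^ k) ^ 2 * (Matrix.of fun a c => va (g.G a c) x).det)
      = Real.sqrt ((va (eA χ) x ^ k) ^ 2)
        * Real.sqrt (Matrix.of fun a c => va (g.G a c) x).det :=
    Real.sqrt_mul (by positivity) _
  rw [h2, Real.sqrt_sq (by positivity)]

theorem PosT.conf {g : MT k} (hg : PosT g) (χ : (AA k).R) : PosT (confT g χ) := by
  intro x
  have e : (Matrix.of fun a c => va ((confT g χ).G a c) x)
      = (va (eA χ) x * va (eA χ) x) • (Matrix.of fun a c => va (g.G a c) x) := by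
    ext a b
    rfl
  rw [e]
  exact (hg x).smul (mul_pos (Real.exp_pos _) (Real.exp_pos _))

theorem eA_zero (χ : (AA k).R) : eA ((0 : ℝ) • χ) = 1 := va_ext fun x => by
  rw [va_eA, va_smul, zero_mul, Real.exp_zero, va_one]

theorem eA_nzero (χ : (AA k).R) : eA (-((0 : ℝ) • χ)) = 1 := va_ext fun x => by
  rw [va_eA, va_neg, va_smul, zero_mul, neg_zero, Real.exp_zero, va_one]

theorem confT_zero (g : MT k) (χ : (AA k).R) : confT g ((0 : ℝ) • χ) = g := by
  refine BD.ext' ?_ ?_ (by funext e; exact e.elim)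
  · funext a c
    show (eA ((0 : ℝ) • χ) * eA ((0 : ℝ) • χ) * g.G a c : (AA k).R) = g.G a c
    rw [eA_zero, one_mul, one_mul]
  · funext a c
    show (eA (-((0 : ℝ) • χ)) * eA (-((0 : ℝ) • χ)) * g.Gi a c : (AA k).R) = g.Gi a c
    rw [eA_nzero, one_mul, one_mul]

theorem gT_sn (P : Fml Empty (fun _ => 0) 0) (g : MT k) (χ : (AA k).R) (t : ℝ) :
    (evA' t).f (P.eval (AT k).tg (gT g χ) ![]) = P.eval (AA k).tg (confT g (t • χ)) ![] ∧
    (evA' t).f (dAT (P.eval (AT k).tg (gT g χ) ![]))
      = sn (X := (AA k).tg) (P.eval (AA k).tg.dual (cfd (X := (AA k).tg) (confT g (t • χ)) χ) ![]) := by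
  constructor
  · rw [gT_ev, Fml.eval_map]
    rfl
  · rw [gT_d, Fml.eval_map]
    exact (sn_dA t _).symm

/-- infinitesimal form of the invariance -/
theorem totalT_inf (P : Fml Empty (fun _ => 0) 0) {g : MT k} (χ : (AA k).R)
    (h : ∀ t : ℝ, totalT P (confT g (t • χ)) = totalT P g) {w : (AA k).R} (hw : VT g w) :
    IA k ((sn (X := (AA k).tg) (P.eval (AA k).tg.dual (cfd (X := (AA k).tg) g χ) ![])
      + (k : ℝ) • (χ * P.eval (AA k).tg g ![])) * w) = 0 := by
  set F : (AT k).R := P.eval (AT k).tg (gT g χ) ![] with hF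
  set E : (AT k).R := ET χ with hE
  set G : (AT k).R := F * E ^ k * cA'.f w with hG
  have h1 : ∀ t : ℝ, totalT P (confT g (t • χ))
      = ∫ x in Set.Icc (0 : Fin k → ℝ) 1, vAT G (t, x) := by
    intro t
    unfold totalT
    refine setIntegral_congr_fun measurableSet_Icc fun x _ => ?_
    beta_reduce
    rw [sqrt_confT, ← hw.sq, ← va_evA', hG, map_mul, map_mul, map_pow, hE, ev_ET, evA_c, hF,
      (gT_sn P g χ t).1]
    show _ = va (P.eval (AA k).tg (confT g (t • χ)) ![]) x * va (eA (t • χ) ^ k) x * va w x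
    rw [va_pow]
    ring
  have h2 := diff_int G 0
  have h3 : (fun t => ∫ x in Set.Icc (0 : Fin k → ℝ) 1, vAT G (t, x)) = fun _ => totalT P g := by
    funext t
    rw [← h1, h]
  rw [h3] at h2
  have h4 := h2.unique (hasDerivAt_const 0 (totalT P g))
  have hdG : dAT G = (dAT F + (k : ℝ) • (cA'.f χ * F)) * E ^ k * cA'.f w := by
    rw [hG, Derivation.leibniz, Derivation.leibniz, der_pow dAT (d_ET χ), dAT_c]
    simp only [smul_eq_mul, Algebra.smul_def]
    ring
  have h5 : (evA' 0).f (dAT G)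
      = (sn (X := (AA k).tg) (P.eval (AA k).tg.dual (cfd (X := (AA k).tg) g χ) ![])
        + (k : ℝ) • (χ * P.eval (AA k).tg g ![])) * w := by
    have e1 := gT_sn P g χ 0
    rw [confT_zero] at e1
    rw [hdG, map_mul, map_mul, map_add, map_smul, map_mul, map_pow, hE, ev_ET, evA_c, evA_c, hF,
      e1.1, e1.2, eA_zero, one_pow]
    show (sn (X := (AA k).tg) (P.eval (AA k).tg.dual (cfd (X := (AA k).tg) g χ) ![])
        + (k : ℝ) • (χ * P.eval (AA k).tg g ![]) : (AA k).R) * 1 * w = _
    rw [mul_one]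
  show (∫ x in Set.Icc (0 : Fin k → ℝ) 1, va ((sn (X := (AA k).tg) (P.eval (AA k).tg.dual
      (cfd (X := (AA k).tg) g χ) ![]) + (k : ℝ) • (χ * P.eval (AA k).tg g ![])) * w) x) = 0
  rw [← h5]
  simp only [va_evA']
  exact h4

/-- homogeneous intrinsic scalars with vanishing total integral are divergences -/
theorem zeroT (Q : Fml Empty (fun _ => 0) 0) {m : ℕ} {wt0 : Empty → ℕ}
    (hQ : FS (n := k) Set.univ {g | wg wt0 g = m} (Fin 0) (fun X b => Q.eval X b)) (hm : m ≠ k)
    (h : ∀ g : MT k, PosT g → totalT Q g = 0) :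
    ∃ V : Fml Empty (fun _ => 0) 1, ∀ g : MT k, PosT g →
      Q.eval (AA k).tg g ![] = V.dv.eval (AA k).tg g ![] := by
  obtain ⟨L, hL, hcv⟩ := cvar (n := k) Q
  obtain ⟨E, V, hE, hV, hs⟩ := hL.split
  obtain ⟨V', hV'⟩ := hV.toFml
  refine ⟨.smul ((k : ℝ) - m)⁻¹ V', fun g hg => ?_⟩
  obtain ⟨w, hw⟩ := ex_VT hg
  have h1 : ∀ χ : (AA k).R, IA k ((E (AA k).tg g ![] + (k : ℝ) • Q.eval (AA k).tg g ![]) * χ * w)
      = 0 := by
    intro χ
    have e1 := totalT_inf Q χ (fun t => by rw [h _ (hg.conf _), h g hg]) hw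
    have e2 := (hcv (AA k).tg g χ ![]).2
    rw [e2, hs] at e1
    have e3 : ((E (AA k).tg g ![] * χ + dvg (AA k).tg.d g.A g.Gi (V (AA k).tg g χ))
        + (k : ℝ) • (χ * Q.eval (AA k).tg g ![])) * w
        = (E (AA k).tg g ![] + (k : ℝ) • Q.eval (AA k).tg g ![]) * χ * w
          + dvg (AA k).tg.d g.A g.Gi (V (AA k).tg g χ) * w := by
      simp only [Algebra.smul_def]; ring
    have e4 := (congrArg (IA k) e3).symm.trans e1
    rw [map_add, hw.div, add_zero] at e4
    exact e4
  have h2 := hw.nd _ h1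
  have h3 := hQ.csc g
  have h4 := (hcv (AA k).tg g 1 ![]).2
  rw [hs] at h4
  have h5 : (-(m : ℝ)) • Q.eval (AA k).tg g ![]
      = E (AA k).tg g ![] * 1 + dvg (AA k).tg.d g.A g.Gi (V (AA k).tg g 1) := h3.symm.trans h4
  have h6 : ((k : ℝ) - m) • Q.eval (AA k).tg g ![] = dvg (AA k).tg.d g.A g.Gi (V (AA k).tg g 1) := by
    have h2' : (E (AA k).tg g ![] + (k : ℝ) • Q.eval (AA k).tg g ![] : (AA k).tg.R) = 0 := h2
    have : ((k : ℝ) - m) • Q.eval (AA k).tg g ![] = (-(m : ℝ)) • Q.eval (AA k).tg g ![]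
        + (k : ℝ) • Q.eval (AA k).tg g ![] := by
      rw [← add_smul]; congr 1; ring
    rw [this, h5]
    linear_combination h2'
  have hne : (k : ℝ) - m ≠ 0 := by
    intro h0
    apply hm
    have : (k : ℝ) = m := by linarith
    exact_mod_cast this.symm
  rw [Fml.dv_eval]
  have h7 : (fun i => (Fml.smul ((k : ℝ) - m)⁻¹ V').eval (AA k).tg g (fun _ => i))
      = fun i => ((k : ℝ) - m)⁻¹ • V (AA k).tg g 1 i := by
    funext i
    show ((k : ℝ) - m)⁻¹ • V'.eval (AA k).tg g (fun _ => i) = _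
    rw [hV']
  rw [h7, dvg_smul, ← h6, smul_smul, inv_mul_cancel₀ hne, one_smul]

theorem totalT_sum {g : MT k} (hg : PosT g) {P : Fml Empty (fun _ => 0) 0} {M : ℕ}
    {Q : ℕ → Fml Empty (fun _ => 0) 0}
    (h : ∀ (X : DR k) b K, P.eval X b K = ∑ m ∈ Finset.range M, (Q m).eval X b K) :
    totalT P g = ∑ n ∈ Finset.range M, totalT (Q n) g := by
  obtain ⟨w, hw⟩ := ex_VT hg
  rw [totalT_eq P hw, h]
  have e : (∑ m ∈ Finset.range M, (Q m).eval (AA k).tg g ![]) * w
      = ∑ m ∈ Finset.range M, ((Q m).eval (AA k).tg g ![] * w : (AA k).R) := Finset.sum_mul _ _ _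
  refine (congrArg (IA k) e).trans ?_
  rw [map_sum]
  refine Finset.sum_congr rfl fun n _ => ?_
  rw [totalT_eq (Q n) hw]

end Run7.h96.Hy

end

section

/-!
Weights of intrinsic scalars with conformally invariant total integral on `T^k`.
-/

set_option linter.all false
set_option maxHeartbeats 400000

open scoped BigOperators
open MeasureTheory

namespace Run7.h96.Hy

open CInv

variable {k : ℕ}

section Sc0

variable {n : ℕ} {X : DR n}

/-- the metric `s² g` -/
noncomputable def BD.sc (b : BD X Empty (fun _ => 0)) {s : ℝ} (hs : s ≠ 0) :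
    BD X Empty (fun _ => 0) := mbd (met_sc b.met hs)

theorem BD.sc_A (b : BD X Empty (fun _ => 0)) {s : ℝ} (hs : s ≠ 0) : (b.sc hs).A = b.A :=
  mbd_A_sc b.met hs

theorem BD.sc_curv (b : BD X Empty (fun _ => 0)) {s : ℝ} (hs : s ≠ 0) (K : Fin 4 → Fin n) :
    (b.sc hs).curv K = (s * s) • b.curv K := by
  show (∑ p, (s * s) • b.G (K 2) p * (b.sc hs).F (K 0) (K 1) p (K 3))
    = (s * s) • ∑ p, b.G (K 2) p * b.F (K 0) (K 1) p (K 3)
  rw [Finset.smul_sum]
  refine Finset.sum_congr rfl fun p _ => ?_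
  have : (b.sc hs).F (K 0) (K 1) p (K 3) = b.F (K 0) (K 1) p (K 3) := by
    unfold BD.F
    rw [b.sc_A hs]
  rw [this, smul_mul_assoc]

theorem HN.sc0 {S : Set Empty} {g : Dg Empty} {r : ℕ} {T : Tn n Empty (fun _ => 0) r}
    {L : Ln n Empty (fun _ => 0) r} (h : HN S g r T L) (b : BD X Empty (fun _ => 0)) {s : ℝ}
    (hs : s ≠ 0) : ∀ K, T X (b.sc hs) K = (s ^ r * s⁻¹ ^ g.2) • T X b K := by
  induction h with
  | one => intro K; simp
  | met =>
    intro K
    show (s * s) • b.G (K 0) (K 1) = _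
    congr 1
    simp [pow_two]
  | curv =>
    intro K
    show (b.sc hs).curv K = (s ^ 4 * s⁻¹ ^ 2) • b.curv K
    rw [b.sc_curv hs]
    congr 1
    field_simp
  | fieldV j _ => exact j.elim
  | fieldC j _ => exact j.elim
  | zero g r => intro K; simp
  | add _ _ h1 h2 => intro K; beta_reduce; rw [h1, h2, smul_add]
  | smul t _ h1 => intro K; beta_reduce; rw [h1, smul_comm]
  | @mul g g' r r' t T T' L L' e _ _ h1 h2 =>
    intro K
    have ht : t = r + r' := by
      have := Fintype.card_congr e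
      simpa using this.symm
    show T X (b.sc hs) _ * T' X (b.sc hs) _ = _
    rw [h1, h2, smul_mul_smul_comm]
    have h3 : s ^ t * s⁻¹ ^ (g + g').2 = (s ^ r * s⁻¹ ^ g.2) * (s ^ r' * s⁻¹ ^ g'.2) := by
      rw [ht, Prod.snd_add, pow_add, pow_add]; ring
    rw [h3]
    rfl
  | perm e _ h1 =>
    intro K
    rename_i r r' _ _ _
    have ht : r' = r := by
      have := Fintype.card_congr e
      simpa using this.symm
    subst ht
    exact h1 _
  | @contr g r t T L e _ h1 =>
    intro K
    have ht : t = r + 2 := by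
      have := Fintype.card_congr e
      simpa using this
    show (∑ i, ∑ j, (s⁻¹ * s⁻¹) • b.Gi i j * T X (b.sc hs) _) = _ • ∑ i, ∑ j, b.Gi i j * T X b _
    rw [Finset.smul_sum]
    refine Finset.sum_congr rfl fun i _ => ?_
    rw [Finset.smul_sum]
    refine Finset.sum_congr rfl fun j _ => ?_
    rw [h1, smul_mul_smul_comm]
    have h3 : s⁻¹ * s⁻¹ * (s ^ t * s⁻¹ ^ g.2) = s ^ r * s⁻¹ ^ g.2 := by
      have : s ^ t = s ^ r * (s * s) := by rw [ht, pow_add, pow_two]
      rw [this]
      field_simp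
    rw [h3]
  | @deriv g r t T L e _ h1 =>
    intro K
    have ht : t = r + 1 := by
      have := Fintype.card_congr e
      simpa using this.symm
    show X.d (K (e none)) (T X (b.sc hs) _) - act ((b.sc hs).A (K (e none))) (T X (b.sc hs)) _
      = _ • (X.d (K (e none)) (T X b _) - act (b.A (K (e none))) (T X b) _)
    have h3 : s ^ t * s⁻¹ ^ (g + (0, 1)).2 = s ^ r * s⁻¹ ^ g.2 := by
      have : s ^ t = s ^ r * s := by rw [ht, pow_add, pow_one]
      rw [this, Prod.snd_add, pow_add, pow_one]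
      field_simp
    rw [h3, b.sc_A hs, smul_sub, h1, Derivation.map_smul]
    congr 1
    have e : T X (b.sc hs) = fun K => (s ^ r * s⁻¹ ^ g.2) • T X b K := funext h1
    rw [e]
    exact act_smul _ _ _ _

theorem FS.sc0 {m : ℕ} {w : Empty → ℕ} {T : Tk n Empty (fun _ => 0) (Fin 0)}
    (hT : FS Set.univ {g | wg w g = m} (Fin 0) T) (b : BD X Empty (fun _ => 0)) {s : ℝ}
    (hs : s ≠ 0) : T X (b.sc hs) ![] = s⁻¹ ^ m • T X b ![] := by
  obtain ⟨ι, hι, g, T1, L, hg, hT1, hS⟩ := hT.out (Equiv.refl (Fin 0))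
  rw [hS, hS, Finset.smul_sum]
  refine Finset.sum_congr rfl fun i _ => ?_
  rw [(hT1 i).sc0 b hs]
  have h1 : (g i).2 = m := by rw [← wg_empty w]; exact hg i
  rw [h1, pow_zero, one_mul]

end Sc0

theorem confT_cst (g : MT k) (t : ℝ) : confT g (t • 1) = BD.sc g (Real.exp_pos t).ne' := by
  have h1 : eA (t • (1 : (AA k).R)) = Real.exp t • 1 := va_ext fun x => by
    rw [va_eA, va_smul, va_smul, va_one, mul_one, mul_one]
  have h2 : eA (-(t • (1 : (AA k).R))) = (Real.exp t)⁻¹ • 1 := va_ext fun x => by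
    rw [va_eA, va_neg, va_smul, va_smul, va_one, mul_one, mul_one, Real.exp_neg]
  refine BD.ext' ?_ ?_ (by funext e; exact e.elim)
  · funext a c
    show (eA (t • (1 : (AA k).R)) * eA (t • (1 : (AA k).R)) * g.G a c : (AA k).R)
      = (Real.exp t * Real.exp t) • g.G a c
    rw [h1]
    simp only [Algebra.smul_def, map_mul, mul_one]
  · funext a c
    show (eA (-(t • (1 : (AA k).R))) * eA (-(t • (1 : (AA k).R))) * g.Gi a c : (AA k).R)
      = ((Real.exp t)⁻¹ * (Real.exp t)⁻¹) • g.Gi a c
    rw [h2]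
    simp only [Algebra.smul_def, map_mul, mul_one]

theorem totalT_sc {g : MT k} (hg : PosT g) {Q : Fml Empty (fun _ => 0) 0} {n : ℕ}
    {w0 : Empty → ℕ}
    (hQ : FS (n := k) Set.univ {g | wg w0 g = n} (Fin 0) (fun X b => Q.eval X b)) (t : ℝ) :
    totalT Q (confT g (t • 1)) = (Real.exp t)⁻¹ ^ n * Real.exp t ^ k * totalT Q g := by
  have h1 : ∀ x, va (Q.eval (AA k).tg (confT g (t • 1)) ![]) x
      = (Real.exp t)⁻¹ ^ n * va (Q.eval (AA k).tg g ![]) x := by
    intro x
    rw [confT_cst]
    have := hQ.sc0 g (Real.exp_pos t).ne'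
    rw [this]
    exact va_smul _ _ _
  unfold totalT
  rw [← MeasureTheory.integral_const_mul]
  refine setIntegral_congr_fun measurableSet_Icc fun x _ => ?_
  beta_reduce
  rw [h1, sqrt_confT, va_eA, va_smul, va_one, mul_one]
  ring

/-- the weight `k` part of an intrinsic scalar with conformally invariant integral -/
theorem weightsT (P : Fml Empty (fun _ => 0) 0)
    (h : ∀ g : MT k, PosT g → ∀ χ, totalT P (confT g χ) = totalT P g) :
    ∃ (P1 : Fml Empty (fun _ => 0) 0) (V : Fml Empty (fun _ => 0) 1),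
      (∀ g : MT k, PosT g → P.eval (AA k).tg g ![] = P1.eval (AA k).tg g ![]
        + V.dv.eval (AA k).tg g ![]) ∧
      ∀ (X : DR k) (b : BD X Empty (fun _ => 0)) (s : ℝ) (hs : s ≠ 0),
        P1.eval X (b.sc hs) ![] = s⁻¹ ^ k • P1.eval X b ![] := by
  obtain ⟨M0, Q0, hQ0, hS0⟩ := (P.toFS (n := k)).parts (fun _ => 0)
  choose Q1 hQ1 using fun m => (hQ0 m).toFml
  obtain ⟨M, Q, hkM, hQ, hS⟩ : ∃ (M : ℕ) (Q : ℕ → Fml Empty (fun _ => 0) 0), k < M ∧
      (∀ m, FS (n := k) Set.univ {g | wg (fun _ => 0) g = m} (Fin 0) (fun X b => (Q m).eval X b)) ∧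
      ∀ (X : DR k) b K, P.eval X b K = ∑ m ∈ Finset.range M, (Q m).eval X b K := by
    refine ⟨M0 + (k + 1), fun m => if m < M0 then Q1 m else .zero 0, by omega, fun m => ?_,
      fun X b K => ?_⟩
    · by_cases h : m < M0
      · simp only [if_pos h]
        exact (hQ0 m).congr fun X b K => (hQ1 m X b K).symm
      · simp only [if_neg h]
        exact FS.zero
    · rw [hS0, Finset.sum_range_add]
      have h1 : ∑ x ∈ Finset.range (k + 1), Fml.eval X b (if M0 + x < M0 then Q1 (M0 + x)
          else Fml.zero 0) K = 0 := by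
        refine Finset.sum_eq_zero fun x _ => ?_
        rw [if_neg (by omega)]
        rfl
      rw [h1, add_zero]
      refine Finset.sum_congr rfl fun m hm => ?_
      beta_reduce
      rw [if_pos (Finset.mem_range.mp hm), hQ1]
  have h0 : ∀ n, n < M → n ≠ k → ∀ g : MT k, PosT g → totalT (Q n) g = 0 := by
    intro n hn hnk g hg
    let p1 : Polynomial ℝ := ∑ n ∈ Finset.range M, Polynomial.monomial (M - n + k) (totalT (Q n) g)
    let p2 : Polynomial ℝ := Polynomial.monomial M (totalT P g)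
    have heq : p1 = p2 := by
      refine Polynomial.eq_of_infinite_eval_eq p1 p2 ?_
      refine Set.Infinite.mono (s := Set.Ioi (0 : ℝ)) ?_ (Set.Ioi_infinite 0)
      intro x hx
      have hx0 : (0 : ℝ) < x := hx
      have e1 := h g hg (Real.log x • 1)
      rw [totalT_sum (hg.conf _) hS] at e1
      simp only [totalT_sc hg (hQ _), Real.exp_log hx0] at e1
      show p1.eval x = p2.eval x
      show (∑ n ∈ Finset.range M, Polynomial.monomial (M - n + k) (totalT (Q n) g)).eval x
        = (Polynomial.monomial M (totalT P g)).eval x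
      rw [Polynomial.eval_finset_sum, Polynomial.eval_monomial, ← e1, Finset.sum_mul]
      refine Finset.sum_congr rfl fun n hn => ?_
      rw [Polynomial.eval_monomial]
      have hn' := Finset.mem_range.mp hn
      have e2 : x ^ M = x ^ (M - n) * x ^ n := by
        rw [← pow_add]
        congr 1
        omega
      rw [e2, pow_add, inv_pow]
      field_simp
    have h2 := congrArg (fun p => Polynomial.coeff p (M - n + k)) heq
    simp only [p1, p2, Polynomial.finset_sum_coeff, Polynomial.coeff_monomial] at h2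
    rw [if_neg (by omega), Finset.sum_eq_single n] at h2
    · rw [if_pos rfl] at h2
      exact h2
    · intro n' hn' hne
      rw [if_neg]
      have := Finset.mem_range.mp hn'
      omega
    · intro hn'
      exact absurd (Finset.mem_range.mpr hn) hn'
  have hV : ∀ n, ∃ V : Fml Empty (fun _ => 0) 1, n < M → n ≠ k → ∀ g : MT k, PosT g →
      (Q n).eval (AA k).tg g ![] = V.dv.eval (AA k).tg g ![] := by
    intro n
    by_cases hn : n < M ∧ n ≠ k
    · obtain ⟨V, hV⟩ := zeroT (Q n) (hQ n) hn.2 (h0 n hn.1 hn.2)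
      exact ⟨V, fun _ _ => hV⟩
    · exact ⟨.zero 1, fun h1 h2 => absurd ⟨h1, h2⟩ hn⟩
  choose V hV using hV
  obtain ⟨V', hV'⟩ := Fml.sum M (fun n => if n = k then .zero 1 else V n)
  refine ⟨Q k, V', fun g hg => ?_, fun X b s hs => (hQ k).sc0 b hs⟩
  have e0 : dvg (AA k).tg.d g.A g.Gi (fun i => V'.eval (AA k).tg g (fun _ => i))
      = ∑ n ∈ Finset.range M, dvg (AA k).tg.d g.A g.Gi
        (fun i => Fml.eval (AA k).tg g (if n = k then Fml.zero 1 else V n) (fun _ => i)) := by
    have h1 : (fun i => V'.eval (AA k).tg g (fun _ => i)) = fun i => ∑ n ∈ Finset.range M,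
        Fml.eval (AA k).tg g (if n = k then Fml.zero 1 else V n) (fun _ => i) := by
      funext i
      exact hV' _ _ _ _
    rw [h1]
    exact dvg_sum (X := (AA k).tg) g _ _
  rw [hS, Fml.dv_eval, e0, ← Finset.sum_erase_add _ _ (Finset.mem_range.mpr hkM),
    ← Finset.sum_erase_add (a := k) (Finset.range M) _ (Finset.mem_range.mpr hkM)]
  have e1 : dvg (AA k).tg.d g.A g.Gi (fun i => Fml.eval (AA k).tg g
      (if k = k then Fml.zero 1 else V k) (fun _ => i)) = 0 := by
    simp only [if_true]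
    exact dvg_zero g
  rw [e1, add_zero, add_comm]
  congr 1
  refine Finset.sum_congr rfl fun n hn => ?_
  obtain ⟨hne, hn'⟩ := Finset.mem_erase.mp hn
  rw [hV n (Finset.mem_range.mp hn') hne g hg, Fml.dv_eval]
  simp only [if_neg hne]

end Run7.h96.Hy

end

section

/-!
Intrinsic formulas as hypersurface formulas; the decomposition with an intrinsic part of weight `k`.
-/

set_option linter.all false
set_option maxHeartbeats 400000

open scoped BigOperators
open MeasureTheory

namespace Run7.h96.Hy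

open CInv

variable {k : ℕ}

/-- an intrinsic formula as a formula of the hypersurface -/
def Fml.up : {r : ℕ} → Fml Empty (fun _ => 0) r → Fml Fa ρa r
  | _, .one => .one
  | _, .met => .add .met (.smul (-1) (.mul (finSumFinEquiv : Fin 1 ⊕ Fin 1 ≃ Fin 2)
      (.fld Fa.nu) (.fld Fa.nu)))
  | _, .curv => .curv
  | _, .fld j => j.elim
  | _, .zero r => .zero r
  | _, .add S T => .add S.up T.up
  | _, .smul t T => .smul t T.up
  | _, .mul e S T => .mul e S.up T.up
  | _, .perm e T => .perm e T.up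
  | _, .contr e T => .contr e T.up
  | _, .deriv e T => .deriv e T.up

section Up

variable {A : DR (k + 1)} {b : BD A Fa ρa}

theorem up_eval (h : Pd b) (h0 : b.G 0 0 = 1)
    (hnu : ∀ K, b.Φ Fa.nu K = if K 0 = 0 then 1 else 0) {r : ℕ} (P : Fml Empty (fun _ => 0) r) :
    (∀ K : Fin r → Fin (k + 1), (∃ s, K s = 0) → P.up.eval A b K = 0) ∧
    ∀ K : Fin r → Fin k, P.up.eval A b (fun s => (K s).succ) = P.eval A.tg (tgb h) K := by
  induction P with
  | one => exact ⟨fun K ⟨s, _⟩ => s.elim0, fun K => rfl⟩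
  | met =>
    have e : ∀ K : Fin 2 → Fin (k + 1), (Fml.up .met).eval A b K = b.G (K 0) (K 1)
        + (-1 : ℝ) • (b.Φ Fa.nu (fun _ => K 0) * b.Φ Fa.nu (fun _ => K 1)) := by
      intro K
      show b.G (K 0) (K 1) + (-1 : ℝ) • (b.Φ Fa.nu _ * b.Φ Fa.nu _) = _
      congr 3
      · congr 1
        funext s
        rw [Subsingleton.elim s 0]; rfl
      · congr 1
        funext s
        rw [Subsingleton.elim s 0]; rfl
    refine ⟨fun K hK => ?_, fun K => ?_⟩
    · rw [e, hnu, hnu]
      by_cases h1 : K 0 = 0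
      · by_cases h2 : K 1 = 0
        · rw [if_pos h1, if_pos h2, h1, h2, h0]
          simp
        · obtain ⟨a, ha⟩ := Fin.exists_succ_eq.mpr h2
          rw [if_neg h2, mul_zero, smul_zero, add_zero, h1, ← ha]
          exact h.g0 a
      · have h2 : K 1 = 0 := by
          obtain ⟨s, hs⟩ := hK
          fin_cases s
          · exact absurd hs h1
          · exact hs
        obtain ⟨a, ha⟩ := Fin.exists_succ_eq.mpr h1
        rw [if_neg h1, zero_mul, smul_zero, add_zero, h2, ← ha, b.symm]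
        exact h.g0 a
    · rw [e, hnu, if_neg (Fin.succ_ne_zero _), zero_mul, smul_zero, add_zero]
      rfl
  | curv =>
    exact ⟨fun K hK => h.curv0 K hK, fun K => (tgb_curv h K).symm⟩
  | fld j => exact j.elim
  | zero r => exact ⟨fun K _ => rfl, fun K => rfl⟩
  | add S T h1 h2 =>
    refine ⟨fun K hK => ?_, fun K => ?_⟩
    · show S.up.eval A b K + T.up.eval A b K = 0
      rw [h1.1 K hK, h2.1 K hK, add_zero]
    · show S.up.eval A b _ + T.up.eval A b _ = _
      rw [h1.2 K, h2.2 K]; rfl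
  | smul t T h1 =>
    refine ⟨fun K hK => ?_, fun K => ?_⟩
    · show t • T.up.eval A b K = 0
      rw [h1.1 K hK, smul_zero]
    · show t • T.up.eval A b _ = _
      rw [h1.2 K]; rfl
  | mul e S T h1 h2 =>
    refine ⟨fun K hK => ?_, fun K => ?_⟩
    · obtain ⟨s, hs⟩ := hK
      show S.up.eval A b (fun s => K (e (Sum.inl s))) * T.up.eval A b (fun s => K (e (Sum.inr s))) = 0
      obtain ⟨u, rfl⟩ := e.surjective s
      rcases u with u | u
      · rw [h1.1 _ ⟨u, hs⟩, zero_mul]
      · rw [h2.1 _ ⟨u, hs⟩, mul_zero]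
    · show S.up.eval A b _ * T.up.eval A b _ = S.eval A.tg (tgb h) _ * T.eval A.tg (tgb h) _
      rw [← h1.2, ← h2.2]
  | perm e T h1 =>
    refine ⟨fun K hK => ?_, fun K => ?_⟩
    · obtain ⟨s, hs⟩ := hK
      exact h1.1 _ ⟨e.symm s, by rw [Equiv.apply_symm_apply]; exact hs⟩
    · exact h1.2 _
  | @contr r t e T h1 =>
    have hz : ∀ (i j : Fin (k + 1)) (K : Fin r → Fin (k + 1)), (i = 0 ∨ j = 0 ∨ ∃ s, K s = 0) →
        T.up.eval A b (fun s => ocons i (ocons j K) (e s)) = 0 := by
      intro i j K hh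
      refine h1.1 _ ?_
      rcases hh with hh | hh | ⟨s, hs⟩
      · exact ⟨e.symm none, by rw [Equiv.apply_symm_apply]; exact hh⟩
      · exact ⟨e.symm (some none), by rw [Equiv.apply_symm_apply]; exact hh⟩
      · exact ⟨e.symm (some (some s)), by rw [Equiv.apply_symm_apply]; exact hs⟩
    refine ⟨fun K hK => ?_, fun K => ?_⟩
    · show (∑ i, ∑ j, b.Gi i j * T.up.eval A b (fun s => ocons i (ocons j K) (e s))) = 0
      refine Finset.sum_eq_zero fun i _ => Finset.sum_eq_zero fun j _ => ?_
      rw [hz i j K (Or.inr (Or.inr hK)), mul_zero]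
    · show (∑ i, ∑ j, b.Gi i j * T.up.eval A b
          (fun s => ocons i (ocons j (fun s => (K s).succ)) (e s)))
        = ∑ i : Fin k, ∑ j : Fin k, b.Gi i.succ j.succ * T.eval A.tg (tgb h)
          (fun s => ocons i (ocons j K) (e s))
      rw [Fin.sum_univ_succ]
      have e0 : ∑ j, b.Gi 0 j * T.up.eval A b
          (fun s => ocons 0 (ocons j (fun s => (K s).succ)) (e s)) = 0 :=
        Finset.sum_eq_zero fun j _ => by rw [hz _ _ _ (Or.inl rfl), mul_zero]
      rw [e0, zero_add]
      refine Finset.sum_congr rfl fun i _ => ?_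
      rw [Fin.sum_univ_succ, hz _ _ _ (Or.inr (Or.inl rfl)), mul_zero, zero_add]
      refine Finset.sum_congr rfl fun j _ => ?_
      rw [← h1.2]
      congr 2
      funext s
      rcases e s with _ | _ | s <;> rfl
  | @deriv r t e T h1 =>
    refine ⟨fun K hK => ?_, fun K => ?_⟩
    · show DD A.d b.A (T.up.eval A b) (fun s => K (e s)) = 0
      by_cases hn : K (e none) = 0
      · exact h.DD0 _ _ hn
      · obtain ⟨s0, hs0⟩ := hK
        obtain ⟨u, rfl⟩ := e.surjective s0
        rcases u with _ | u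
        · exact absurd hs0 hn
        · show A.d (K (e none)) (T.up.eval A b (fun s => K (e (some s))))
            - act (b.A (K (e none))) (T.up.eval A b) (fun s => K (e (some s))) = 0
          rw [h1.1 _ ⟨u, hs0⟩, map_zero, zero_sub, neg_eq_zero]
          unfold act
          refine Finset.sum_eq_zero fun s _ => Finset.sum_eq_zero fun l _ => ?_
          by_cases hs : s = u
          · subst hs
            rw [h.A0 _ _ _ (Or.inr (Or.inr hs0)), zero_mul]
          · rw [h1.1 _ ⟨u, by rw [Function.update_of_ne (Ne.symm hs)]; exact hs0⟩, mul_zero]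
    · show A.d (K (e none)).succ (T.up.eval A b (fun s => (K (e (some s))).succ))
        - act (b.A (K (e none)).succ) (T.up.eval A b) (fun s => (K (e (some s))).succ)
        = A.d (K (e none)).succ (T.eval A.tg (tgb h) (fun s => K (e (some s))))
          - act ((tgb h).A (K (e none))) (T.eval A.tg (tgb h)) (fun s => K (e (some s)))
      rw [h1.2]
      congr 1
      unfold act
      refine Finset.sum_congr rfl fun s _ => ?_
      rw [Fin.sum_univ_succ, h.A0 _ _ _ (Or.inr (Or.inl rfl)), zero_mul, zero_add]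
      refine Finset.sum_congr rfl fun l _ => ?_
      rw [tgb_A h, ← h1.2]
      congr 2
      funext u
      by_cases hu : u = s
      · subst hu
        rw [Function.update_self, Function.update_self]
      · rw [Function.update_of_ne hu, Function.update_of_ne hu]

end Up

theorem up_dv (V : Fml Empty (fun _ => 0) 1) : V.dv.up = V.up.dv := rfl

theorem up_hyp {X A : DR (k + 1)} {H : Hs X A} (m : Mt H) (P : Fml Empty (fun _ => 0) 0) :
    P.up.eval A m.hyp ![] = P.eval A.tg m.ind ![] := by
  have h1 := (up_eval m.hyp_Pd rfl (fun K => rfl) P).2 ![]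
  rw [show (fun s => ((![] : Fin 0 → Fin k) s).succ) = (![] : Fin 0 → Fin (k + 1)) from
    Subsingleton.elim _ _] at h1
  exact h1

theorem Pos.ind {m : Mt (HX k)} (hm : Pos m) : PosT m.ind := by
  intro x
  have e : (Matrix.of fun a c => va (m.ind.G a c) x) = Hy.hbar m x := by
    ext a c
    exact ind_G m a c x
  rw [e]
  exact hm.hbar x

/-- the decomposition on `ℝ × T^k` with an intrinsic part of weight `k` -/
theorem decomp_thm2 (hk : 1 ≤ k) (P : Fml Fa ρa 0)
    (h : ∀ m : Mt (HX k), Pos m → ∀ ω, total P (conf m ω) = total P m) :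
    ∃ (P0 : Fml Empty (fun _ => 0) 0) (W : Fml Fa ρa 0) (V : Fml Fa ρa 1),
      (∀ m : Mt (HX k), Pos m → P.eval (AA k) m.hyp ![] = P0.eval (AA k).tg m.ind ![]
        + W.eval (AA k) m.hyp ![] + V.dv.eval (AA k) m.hyp ![]) ∧
      (∀ m : Mt (HX k), Pos m → ∀ ω : (XX k).R,
        (HX k).res (eX ω) ^ k * W.eval (AA k) (conf m ω).hyp ![] = W.eval (AA k) m.hyp ![]) ∧
      ∀ (X : DR k) (b : BD X Empty (fun _ => 0)) (s : ℝ) (hs : s ≠ 0),
        P0.eval X (b.sc hs) ![] = s⁻¹ ^ k • P0.eval X b ![] := by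
  obtain ⟨P0, W, V, h1, h2⟩ := decomp_thm hk P h
  obtain ⟨P1, V0, h3, h4⟩ := weightsT P0 (fun g hg χ => inv0 h h1 h2 hg χ)
  refine ⟨P1, W, .add V V0.up, fun m hm => ?_, h2, h4⟩
  rw [h1 m hm, h3 _ hm.ind]
  have e1 : V0.dv.eval (AA k).tg m.ind ![] = V0.up.dv.eval (AA k) m.hyp ![] := by
    rw [← up_hyp, up_dv]
  have e2 : (Fml.add V V0.up).dv.eval (AA k) m.hyp ![]
      = V.dv.eval (AA k) m.hyp ![] + V0.up.dv.eval (AA k) m.hyp ![] := by
    rw [Fml.dv_eval, Fml.dv_eval, Fml.dv_eval, ← dvg_add]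
    rfl
  rw [e1, e2]
  show ((_ : (AA k).R) + _) + _ + _ = _ + _ + (_ + _)
  ring

end Run7.h96.Hy

end
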