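import Mathlib

/-!
Global conformal invariants of hypersurfaces: the definitions used in the statements.

The hypersurface is `Y = {x₀ = 0}` in `ℝ^{k+1}` (or `ℝ × T^k`, described by metrics which are
periodic in `x₁, …, x_k`). Along `Y` we use the frame `e_0 = ν` (unit normal), `e_a = ∂_a`
(`a = 1, …, k`), so that tensors along `Y` have components with indices in `Fin (k + 1)`, and the
components are functions on `ℝ^k`.
-/

open scoped BigOperators

namespace Run7.h96.St

/-- real functions on `ℝ^n` -/
abbrev Fn (n : ℕ) : Type := (Fin n → ℝ) → ℝ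

/-- coordinate derivative `∂_i f` -/
noncomputable def pd {n : ℕ} (i : Fin n) (f : Fn n) : Fn n := fun x => fderiv ℝ f x (Pi.single i 1)

/-- smooth functions -/
def Smooth {n : ℕ} (f : Fn n) : Prop := ContDiff ℝ (⊤ : ℕ∞) f

/-! ### tensor calculus -/

section Calc

variable {m n : ℕ}

/-- covariant tensors with `r` slots, given by their components in a frame `e_i`, `i : Fin n` -/
abbrev Tens (m n r : ℕ) : Type := (Fin r → Fin n) → Fn m

/-- Christoffel symbols `Γ^l_{ij}` of the metric `g` with inverse `gi`; `D i` is the derivative in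
direction `e_i` -/
noncomputable def chr (D : Fin n → Fn m → Fn m) (g gi : Fin n → Fin n → Fn m) (l i j : Fin n) :
    Fn m :=
  (1 / 2 : ℝ) • ∑ p, gi l p * (D i (g j p) + D j (g i p) - D p (g i j))

/-- covariant derivative `∇_i T` -/
noncomputable def nab (D : Fin n → Fn m → Fn m) (g gi : Fin n → Fin n → Fn m) {r : ℕ}
    (T : Tens m n r) (i : Fin n) (K : Fin r → Fin n) : Fn m :=
  D i (T K) - ∑ s, ∑ l, chr D g gi l i (K s) * T (Function.update K s l)

/-- the curvature tensor `g(∇_i ∇_j e_m - ∇_j ∇_i e_m, e_l)`, `K = (i, j, l, m)` -/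
noncomputable def curv (D : Fin n → Fn m → Fn m) (g gi : Fin n → Fin n → Fn m)
    (K : Fin 4 → Fin n) : Fn m :=
  ∑ p, g (K 2) p * (D (K 0) (chr D g gi p (K 1) (K 3)) - D (K 1) (chr D g gi p (K 0) (K 3))
    + ∑ q, (chr D g gi p (K 0) q * chr D g gi q (K 1) (K 3)
      - chr D g gi p (K 1) q * chr D g gi q (K 0) (K 3)))

/-- universal formulas for covariant tensors with `r` slots, built from the metric, its curvature
and basic tensors `j : J` (with `ρ j` slots) by linear combinations, tensor products, permutations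
of the slots, contractions and covariant derivatives -/
inductive Fml (J : Type) (ρ : J → ℕ) : ℕ → Type
  | one : Fml J ρ 0
  | met : Fml J ρ 2
  | curv : Fml J ρ 4
  | bas (j : J) : Fml J ρ (ρ j)
  | zero (r : ℕ) : Fml J ρ r
  | add {r : ℕ} : Fml J ρ r → Fml J ρ r → Fml J ρ r
  | smul {r : ℕ} (t : ℝ) : Fml J ρ r → Fml J ρ r
  | mul {r r' t : ℕ} (e : Fin r ⊕ Fin r' ≃ Fin t) : Fml J ρ r → Fml J ρ r' → Fml J ρ t
  | perm {r t : ℕ} (e : Fin r ≃ Fin t) : Fml J ρ r → Fml J ρ t
  | contr {r t : ℕ} (e : Fin t ≃ Option (Option (Fin r))) : Fml J ρ t → Fml J ρ r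
  | deriv {r t : ℕ} (e : Option (Fin r) ≃ Fin t) : Fml J ρ r → Fml J ρ t

/-- the value of a formula for the metric `g`, with inverse `gi`, and basic tensors `Φ` -/
noncomputable def Fml.val {J : Type} {ρ : J → ℕ} (D : Fin n → Fn m → Fn m)
    (g gi : Fin n → Fin n → Fn m) (Φ : (j : J) → Tens m n (ρ j)) :
    {r : ℕ} → Fml J ρ r → Tens m n r
  | _, .one => fun _ => 1
  | _, .met => fun K => g (K 0) (K 1)
  | _, .curv => fun K => St.curv D g gi K
  | _, .bas j => Φ j
  | _, .zero _ => fun _ => 0
  | _, .add S T => fun K => S.val D g gi Φ K + T.val D g gi Φ K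
  | _, .smul t T => fun K => t • T.val D g gi Φ K
  | _, .mul e S T => fun K => S.val D g gi Φ (fun s => K (e (Sum.inl s)))
      * T.val D g gi Φ (fun s => K (e (Sum.inr s)))
  | _, .perm e T => fun K => T.val D g gi Φ (fun s => K (e s))
  | _, .contr e T => fun K => ∑ i, ∑ j, gi i j
      * T.val D g gi Φ (fun s => (e s).elim i (fun o => o.elim j K))
  | _, .deriv e T => fun K => nab D g gi (T.val D g gi Φ) (K (e none)) (fun s => K (e (some s)))

end Calc

/-! ### Riemannian metrics on `ℝ^n` -/

section Met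

variable {n : ℕ}

/-- `g` is a smooth Riemannian metric on `ℝ^n` -/
def IsMet (g : Fin n → Fin n → Fn n) : Prop :=
  (∀ i j, Smooth (g i j)) ∧ ∀ x, (Matrix.of fun i j => g i j x).PosDef

/-- the inverse metric -/
noncomputable def inv (g : Fin n → Fin n → Fn n) (i j : Fin n) : Fn n :=
  fun x => (Matrix.of fun i j => g i j x)⁻¹ i j

/-- the metric `e^{2ω} g` -/
noncomputable def conf (ω : Fn n) (g : Fin n → Fin n → Fn n) (i j : Fin n) : Fn n :=
  fun x => Real.exp (2 * ω x) * g i j x

/-- the `l`-th covariant derivative of the curvature tensor of `g` -/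
noncomputable def rm (g : Fin n → Fin n → Fn n) : (l : ℕ) → Tens n n (4 + l)
  | 0 => curv pd g (inv g)
  | l + 1 => fun K => nab pd g (inv g) (rm g l) (K 0) (fun s => K s.succ)

/-- the value of a scalar formula of a Riemannian metric -/
noncomputable def ival (P : Fml Empty (fun _ => 0) 0) (g : Fin n → Fin n → Fn n) : Fn n :=
  P.val pd g (inv g) (fun e => e.elim) ![]

/-- the divergence of the covector field `v` with respect to the metric `g` -/
noncomputable def dvg (g : Fin n → Fin n → Fn n) (v : Fin n → Fn n) : Fn n :=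
  ∑ a, ∑ b, inv g a b * (pd a (v b) - ∑ c, chr pd g (inv g) c a b * v c)

/-- `f` is periodic in all the variables -/
def Per (f : Fn n) : Prop := ∀ (a : Fin n) (x : Fin n → ℝ), f (x + Pi.single a 1) = f x

/-- the integral over `T^n` with respect to the volume form of `g` -/
noncomputable def tint (g : Fin n → Fin n → Fn n) (f : Fn n) : ℝ :=
  ∫ x in Set.Icc (0 : Fin n → ℝ) 1, f x * Real.sqrt (Matrix.of fun i j => g i j x).det

end Met

/-! ### the hypersurface `{x₀ = 0}` of `ℝ^{k+1}` -/

section Hyp

variable {k : ℕ}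

/-- restriction to the hypersurface -/
def res (f : Fn (k + 1)) : Fn k := fun y => f (Fin.cons 0 y)

/-- `f` is periodic in the variables `x₁, …, x_k` -/
def PerX (f : Fn (k + 1)) : Prop :=
  ∀ (a : Fin k) (x : Fin (k + 1) → ℝ), f (x + Pi.single a.succ 1) = f x

/-- the induced metric -/
def ind (g : Fin (k + 1) → Fin (k + 1) → Fn (k + 1)) (a b : Fin k) : Fn k := res (g a.succ b.succ)

/-- the factor `N = ε (g^{00})^{-1/2}` in the unit normal `ν^j = N g^{0j}`; the sign `ε = ± 1` is
the choice of the unit normal -/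
noncomputable def nrm (g : Fin (k + 1) → Fin (k + 1) → Fn (k + 1)) (ε : ℝ) : Fn k :=
  fun y => ε / Real.sqrt (inv g 0 0 (Fin.cons 0 y))

/-- the frame `e_0 = ν`, `e_a = ∂_a`: the component `j` of `e_i` -/
noncomputable def fr (g : Fin (k + 1) → Fin (k + 1) → Fn (k + 1)) (ε : ℝ) (i j : Fin (k + 1)) :
    Fn k :=
  Fin.cases (nrm g ε * res (inv g 0 j)) (fun a => if a.succ = j then 1 else 0) i

/-- the second fundamental form `g(∇_a ∂_b, ν)` -/
noncomputable def sff (g : Fin (k + 1) → Fin (k + 1) → Fn (k + 1)) (ε : ℝ) (a b : Fin k) : Fn k :=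
  nrm g ε * res (chr pd g (inv g) 0 a.succ b.succ)

/-- extension of a tangential 2-tensor: value `c` on `(ν, ν)`, zero on `(ν, ∂_a)`, `(∂_a, ν)` -/
def ext (c : Fn k) (M : Fin k → Fin k → Fn k) (i j : Fin (k + 1)) : Fn k :=
  Fin.cases (Fin.cases c (fun _ => 0) j) (fun a => Fin.cases 0 (fun b => M a b) j) i

/-- names of the basic tensors: unit normal (as a covector), second fundamental form,
covariant derivatives of the ambient curvature -/
inductive Bas : Type
  | nu : Bas
  | II : Bas
  | Rm (l : ℕ) : Bas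

/-- number of slots of the basic tensors -/
@[reducible] def rk : Bas → ℕ
  | Bas.nu => 1
  | Bas.II => 2
  | Bas.Rm l => 4 + l

/-- the components of the basic tensors in the frame `e_i` -/
noncomputable def bas (g : Fin (k + 1) → Fin (k + 1) → Fn (k + 1)) (ε : ℝ) :
    (j : Bas) → Tens k (k + 1) (rk j)
  | Bas.nu => fun K => if K 0 = 0 then 1 else 0
  | Bas.II => fun K => ext 0 (sff g ε) (K 0) (K 1)
  | Bas.Rm l => fun K => ∑ L : Fin (4 + l) → Fin (k + 1),
      (∏ s, fr g ε (K s) (L s)) * res (rm g l L)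

/-- derivative along the hypersurface: zero for the index `0`, and `∂_a` for the index `a` -/
noncomputable def td (i : Fin (k + 1)) (f : Fn k) : Fn k := Fin.cases 0 (fun a => pd a f) i

/-- the value along the hypersurface of a formula in the metric `g = ν² + ḡ`, the unit normal,
the second fundamental form, the ambient curvature and its covariant derivatives, and the
curvature of `ḡ`; covariant derivatives are tangential, with respect to the Levi-Civita
connection of `ḡ`, with `ν` parallel -/
noncomputable def hval {r : ℕ} (P : Fml Bas rk r) (g : Fin (k + 1) → Fin (k + 1) → Fn (k + 1))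
    (ε : ℝ) : Tens k (k + 1) r :=
  P.val td (ext 1 (ind g)) (ext 1 (inv (ind g))) (bas g ε)

end Hyp

end Run7.h96.St
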