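import Pool.Agent.Run7.h96.K11
import Pool.Agent.Run7.h96.StDefs

section

/-!
Comparison of the formulas evaluated in differential rings with the ones on functions.
-/

set_option linter.all false
set_option maxHeartbeats 400000

open scoped BigOperators
open MeasureTheory

namespace Run7.h96.Br

open Run7.h96 Run7.h96.Hy

/-- translation of formulas -/
def tr {J J' : Type} {ρ : J → ℕ} {ρ' : J' → ℕ} (β : (j : J) → Hy.Fml J' ρ' (ρ j)) :
    {r : ℕ} → St.Fml J ρ r → Hy.Fml J' ρ' r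
  | _, .one => .one
  | _, .met => .met
  | _, .curv => .curv
  | _, .bas j => β j
  | _, .zero r => .zero r
  | _, .add S T => .add (tr β S) (tr β T)
  | _, .smul t T => .smul t (tr β T)
  | _, .mul e S T => .mul e (tr β S) (tr β T)
  | _, .perm e T => .perm e (tr β T)
  | _, .contr e T => .contr e (tr β T)
  | _, .deriv e T => .deriv e (tr β T)

/-- translation of formulas -/
def rt {J J' : Type} {ρ : J → ℕ} {ρ' : J' → ℕ} (β : (j : J) → St.Fml J' ρ' (ρ j)) :
    {r : ℕ} → Hy.Fml J ρ r → St.Fml J' ρ' r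
  | _, .one => .one
  | _, .met => .met
  | _, .curv => .curv
  | _, .fld j => β j
  | _, .zero r => .zero r
  | _, .add S T => .add (rt β S) (rt β T)
  | _, .smul t T => .smul t (rt β T)
  | _, .mul e S T => .mul e (rt β S) (rt β T)
  | _, .perm e T => .perm e (rt β T)
  | _, .contr e T => .contr e (rt β T)
  | _, .deriv e T => .deriv e (rt β T)

section Val

variable {m n : ℕ} {X : DR n} (c : X.R →ₐ[ℝ] St.Fn m) (D : Fin n → St.Fn m → St.Fn m)
  (hD : ∀ i f, c (X.d i f) = D i (c f))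

/-- the image of a matrix -/
abbrev im2 (G : Fin n → Fin n → X.R) (i j : Fin n) : St.Fn m := c (G i j)

include hD in
theorem chr_c (g gi : Fin n → Fin n → X.R) (l i j : Fin n) :
    c (CInv.chr X.D g gi l i j) = St.chr D (im2 c g) (im2 c gi) l i j := by
  unfold CInv.chr St.chr
  have h : ∀ i f, c (X.D i f) = D i (c f) := hD
  rw [map_smul, map_sum]
  simp only [map_mul, map_sub, map_add, h]

include hD in
theorem nab_c (g gi : Fin n → Fin n → X.R) {r : ℕ} (T : (Fin r → Fin n) → X.R) (i : Fin n)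
    (K : Fin r → Fin n) :
    c (cov X.d (fun i l m => CInv.chr X.D g gi l i m) i T K)
      = St.nab D (im2 c g) (im2 c gi) (fun K => c (T K)) i K := by
  unfold cov St.nab act
  rw [map_sub, hD, map_sum]
  simp only [map_sum, map_mul, chr_c c D hD]

include hD in
theorem curv_c {J : Type} {ρ : J → ℕ} (b : Hy.BD X J ρ) (K : Fin 4 → Fin n) :
    c (b.curv K) = St.curv D (im2 c b.G) (im2 c b.Gi) K := by
  unfold Hy.BD.curv St.curv Hy.BD.F Hy.BD.A
  rw [map_sum]
  simp only [map_sum, map_mul, map_add, map_sub, hD, chr_c c D hD]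

include hD in
theorem tr_val {J J' : Type} {ρ : J → ℕ} {ρ' : J' → ℕ} (β : (j : J) → Hy.Fml J' ρ' (ρ j))
    (b : Hy.BD X J' ρ') (Φ : (j : J) → St.Tens m n (ρ j))
    (hβ : ∀ j K, c ((β j).eval X b K) = Φ j K) {r : ℕ} (P : St.Fml J ρ r) (K : Fin r → Fin n) :
    c ((tr β P).eval X b K) = P.val D (im2 c b.G) (im2 c b.Gi) Φ K := by
  induction P with
  | one => exact map_one c
  | met => rfl
  | curv => exact curv_c c D hD b K
  | bas j => exact hβ j K
  | zero r => exact map_zero c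
  | add S T h1 h2 =>
    show c ((tr β S).eval X b K + (tr β T).eval X b K) = _
    rw [map_add, h1, h2]; rfl
  | smul t T h1 =>
    show c (t • (tr β T).eval X b K) = _
    rw [map_smul, h1]; rfl
  | mul e S T h1 h2 =>
    show c ((tr β S).eval X b _ * (tr β T).eval X b _) = _
    rw [map_mul, h1, h2]; rfl
  | perm e T h1 => exact h1 _
  | contr e T h1 =>
    show c (∑ i, ∑ j, b.Gi i j * (tr β T).eval X b _) = _
    simp only [map_sum, map_mul, h1]
    rfl
  | deriv e T h1 =>
    show c (cov X.d (fun i l m => CInv.chr X.D b.G b.Gi l i m) (K (e none))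
      ((tr β T).eval X b) (fun s => K (e (some s)))) = _
    rw [nab_c c D hD]
    have : (fun K => c ((tr β T).eval X b K)) = T.val D (im2 c b.G) (im2 c b.Gi) Φ := by
      funext K; exact h1 K
    rw [this]; rfl

include hD in
theorem rt_val {J J' : Type} {ρ : J → ℕ} {ρ' : J' → ℕ} (β : (j : J) → St.Fml J' ρ' (ρ j))
    (b : Hy.BD X J ρ) (Φ : (j : J') → St.Tens m n (ρ' j))
    (hβ : ∀ j K, (β j).val D (im2 c b.G) (im2 c b.Gi) Φ K = c (b.Φ j K)) {r : ℕ} (P : Hy.Fml J ρ r)
    (K : Fin r → Fin n) :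
    (rt β P).val D (im2 c b.G) (im2 c b.Gi) Φ K = c (P.eval X b K) := by
  induction P with
  | one => exact (map_one c).symm
  | met => rfl
  | curv => exact (curv_c c D hD b K).symm
  | fld j => exact hβ j K
  | zero r => exact (map_zero c).symm
  | add S T h1 h2 =>
    show (rt β S).val D _ _ Φ K + (rt β T).val D _ _ Φ K = c (S.eval X b K + T.eval X b K)
    rw [map_add, h1, h2]
  | smul t T h1 =>
    show t • (rt β T).val D _ _ Φ K = c (t • T.eval X b K)
    rw [map_smul, h1]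
  | mul e S T h1 h2 =>
    show (rt β S).val D _ _ Φ _ * (rt β T).val D _ _ Φ _ = c (S.eval X b _ * T.eval X b _)
    rw [map_mul, ← h1, ← h2]
  | perm e T h1 => exact h1 _
  | contr e T h1 =>
    show (∑ i, ∑ j, c (b.Gi i j) * (rt β T).val D _ _ Φ _)
      = c (∑ i, ∑ j, b.Gi i j * T.eval X b _)
    simp only [map_sum, map_mul, ← h1]
    rfl
  | deriv e T h1 =>
    show _ = c (cov X.d (fun i l m => CInv.chr X.D b.G b.Gi l i m) (K (e none))
      (T.eval X b) (fun s => K (e (some s))))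
    rw [nab_c c D hD]
    have : (fun K => c (T.eval X b K)) = (rt β T).val D (im2 c b.G) (im2 c b.Gi) Φ := by
      funext K; exact (h1 K).symm
    rw [this]; rfl

end Val

/-! ### the basic tensors -/

/-- basic tensors -/
def βh : (j : St.Bas) → Hy.Fml Fa ρa (St.rk j)
  | St.Bas.nu => .fld Fa.nu
  | St.Bas.II => .fld Fa.II
  | St.Bas.Rm l => .fld (Fa.R l)

/-- basic tensors -/
def βs : (j : Fa) → St.Fml St.Bas St.rk (ρa j)
  | Fa.nu => St.Fml.bas St.Bas.nu
  | Fa.II => St.Fml.bas St.Bas.II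
  | Fa.R l => St.Fml.bas (St.Bas.Rm l)

variable {k : ℕ}

/-- values of the functions on the ambient space and on the hypersurface -/
structure Rl {X A : DR (k + 1)} (H : Hs X A) where
  cX : X.R →ₐ[ℝ] St.Fn (k + 1)
  cA : A.R →ₐ[ℝ] St.Fn k
  hX : ∀ i f, cX (X.d i f) = St.pd i (cX f)
  hA : ∀ i f, cA (A.d i f) = St.td i (cA f)
  hr : ∀ f, cA (H.res f) = St.res (cX f)

theorem res_mul (f g : St.Fn (k + 1)) : St.res (f * g) = St.res f * St.res g := rfl

/-- uniqueness of the inverse matrix -/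
theorem inv_eq {n : ℕ} {g gi : Fin n → Fin n → St.Fn n}
    (h : ∀ i j, ∑ p, g i p * gi p j = if i = j then 1 else 0) : St.inv g = gi := by
  funext i j x
  unfold St.inv
  have : (Matrix.of fun i j => g i j x) * (Matrix.of fun i j => gi i j x) = 1 := by
    ext i j
    rw [Matrix.mul_apply, Matrix.one_apply]
    have := congrFun (h i j) x
    rw [Finset.sum_apply] at this
    refine Eq.trans this ?_
    split_ifs <;> rfl
  rw [Matrix.inv_eq_right_inv this]
  rfl

section Data

variable {X A : DR (k + 1)} {H : Hs X A} (L : Rl H) (m : Mt H) (ε : ℝ)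

/-- the metric -/
def gm (i j : Fin (k + 1)) : St.Fn (k + 1) := L.cX (m.g i j)

theorem gm_inv : St.inv (gm L m) = fun i j => L.cX (m.gi i j) := by
  refine inv_eq fun i j => ?_
  have := congrArg L.cX (m.met.inv i j)
  rw [map_sum] at this
  simp only [map_mul] at this
  rw [show (∑ p, gm L m i p * L.cX (m.gi p j)) = _ from this]
  split_ifs
  · exact map_one _
  · exact map_zero _

theorem rm_c (l : ℕ) (K : Fin (4 + l) → Fin (k + 1)) : L.cX (rm m.met l K) = St.rm (gm L m) l K := by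
  induction l with
  | zero =>
    show L.cX ((mbd m.met).curv K) = St.curv St.pd (gm L m) (St.inv (gm L m)) K
    rw [curv_c L.cX St.pd L.hX, gm_inv]
    rfl
  | succ l ih =>
    show L.cX (cov X.d (fun i l m' => CInv.chr X.D m.g m.gi l i m') (K 0) (rm m.met l)
      (fun s => K s.succ)) = St.nab St.pd (gm L m) (St.inv (gm L m)) (St.rm (gm L m) l) (K 0)
        (fun s => K s.succ)
    rw [nab_c L.cX St.pd L.hX, gm_inv]
    have : (fun K => L.cX (rm m.met l K)) = St.rm (gm L m) l := by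
      funext K; exact ih K
    rw [this]
    rfl

theorem ind_c (a b : Fin k) : L.cA (H.res (m.g a.succ b.succ)) = St.ind (gm L m) a b := L.hr _

theorem hi_c : (fun a b => L.cA (m.hi a b)) = St.inv (St.ind (gm L m)) := by
  refine (inv_eq fun a b => ?_).symm
  have := congrArg L.cA (m.hinv a b)
  rw [map_sum] at this
  simp only [map_mul, ind_c] at this
  rw [this]
  split_ifs
  · exact map_one _
  · exact map_zero _

theorem ext_c (c : A.R) (M : Fin k → Fin k → A.R) (i j : Fin (k + 1)) :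
    L.cA (Hy.ext c M i j) = St.ext (L.cA c) (fun a b => L.cA (M a b)) i j := by
  refine Fin.cases ?_ (fun a => ?_) i <;> refine Fin.cases ?_ (fun b => ?_) j
  · rfl
  · exact map_zero _
  · exact map_zero _
  · rfl

theorem G_c : im2 L.cA m.hyp.G = St.ext 1 (St.ind (gm L m)) := by
  funext i j
  show L.cA (Hy.ext 1 (fun a b => H.res (m.g a.succ b.succ)) i j) = _
  rw [ext_c, map_one]
  simp only [ind_c]

theorem Gi_c : im2 L.cA m.hyp.Gi = St.ext 1 (St.inv (St.ind (gm L m))) := by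
  funext i j
  show L.cA (Hy.ext 1 m.hi i j) = _
  rw [ext_c, map_one, hi_c]

variable {ε} (hN : L.cA m.N = St.nrm (gm L m) ε)

include hN in
theorem fr_c (i j : Fin (k + 1)) : L.cA (m.fr i j) = St.fr (gm L m) ε i j := by
  refine Fin.cases ?_ (fun a => ?_) i
  · show L.cA (m.N * H.res (m.gi 0 j)) = St.nrm (gm L m) ε * St.res (St.inv (gm L m) 0 j)
    rw [map_mul, hN, L.hr, gm_inv]
  · show L.cA (if a.succ = j then 1 else 0) = if a.succ = j then 1 else 0
    split_ifs
    · exact map_one _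
    · exact map_zero _

include hN in
theorem bas_c (j : Fa) (K : Fin (ρa j) → Fin (k + 1)) :
    (βs j).val St.td (im2 L.cA m.hyp.G) (im2 L.cA m.hyp.Gi) (St.bas (gm L m) ε) K
      = L.cA (m.hyp.Φ j K) := by
  cases j with
  | nu =>
    show (if K 0 = 0 then (1 : St.Fn k) else 0) = L.cA (if K 0 = 0 then 1 else 0)
    split_ifs
    · exact (map_one _).symm
    · exact (map_zero _).symm
  | II =>
    show St.ext 0 (St.sff (gm L m) ε) (K 0) (K 1) = L.cA (Hy.ext 0 m.II (K 0) (K 1))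
    rw [ext_c, map_zero]
    congr 1
    funext a b
    show St.nrm (gm L m) ε * St.res (St.chr St.pd (gm L m) (St.inv (gm L m)) 0 a.succ b.succ)
      = L.cA (m.N * H.res (CInv.chr X.D m.g m.gi 0 a.succ b.succ))
    rw [map_mul, hN, L.hr, chr_c L.cX St.pd L.hX, gm_inv]
    rfl
  | R l =>
    show (∑ M : Fin (4 + l) → Fin (k + 1), (∏ s, St.fr (gm L m) ε (K s) (M s))
        * St.res (St.rm (gm L m) l M))
      = L.cA (∑ M : Fin (4 + l) → Fin (k + 1), (∏ s, m.fr (K s) (M s)) * H.res (rm m.met l M))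
    rw [map_sum]
    refine Finset.sum_congr rfl fun M _ => ?_
    rw [map_mul, map_prod, L.hr, rm_c]
    simp only [fr_c L m hN]

include hN in
/-- hypersurface formulas -/
theorem hval_rt {r : ℕ} (P : Hy.Fml Fa ρa r) (K : Fin r → Fin (k + 1)) :
    St.hval (rt βs P) (gm L m) ε K = L.cA (P.eval A m.hyp K) := by
  unfold St.hval
  rw [← G_c, ← Gi_c]
  exact rt_val L.cA St.td L.hA βs m.hyp _ (bas_c L m hN) P K

include hN in
/-- hypersurface formulas -/
theorem hval_tr {r : ℕ} (P : St.Fml St.Bas St.rk r) (K : Fin r → Fin (k + 1)) :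
    L.cA ((tr βh P).eval A m.hyp K) = St.hval P (gm L m) ε K := by
  unfold St.hval
  rw [← G_c, ← Gi_c]
  refine tr_val L.cA St.td L.hA βh m.hyp _ (fun j K => ?_) P K
  cases j with
  | nu => exact (bas_c L m hN Fa.nu K).symm
  | II => exact (bas_c L m hN Fa.II K).symm
  | Rm l => exact (bas_c L m hN (Fa.R l) K).symm

/-- tangential derivations -/
theorem hA' (a : Fin k) (f : A.R) : L.cA (A.tg.d a f) = St.pd a (L.cA f) := L.hA a.succ f

/-- intrinsic formulas -/
theorem ival_rt (P : Hy.Fml Empty (fun _ => 0) 0) :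
    St.ival (rt (fun e => e.elim) P) (St.ind (gm L m)) = L.cA (P.eval A.tg m.ind ![]) := by
  unfold St.ival
  have e1 : im2 (X := A.tg) L.cA m.ind.G = St.ind (gm L m) := by
    funext a b
    exact ind_c L m a b
  have e2 : im2 (X := A.tg) L.cA m.ind.Gi = St.inv (St.ind (gm L m)) := by
    rw [← hi_c]
    rfl
  rw [← e1] at e2 ⊢
  rw [← e2]
  exact rt_val (X := A.tg) L.cA St.pd (hA' L) _ m.ind _ (fun e => e.elim) P ![]

include hN in
/-- the divergence -/
theorem dv_rt (V : Hy.Fml Fa ρa 1) :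
    St.dvg (St.ind (gm L m)) (fun a => St.hval (rt βs V) (gm L m) ε (fun _ => a.succ))
      = L.cA (V.dv.eval A m.hyp ![]) := by
  rw [Fml.dv_eval]
  have e0 : dvg A.d m.hyp.A m.hyp.Gi (fun i => V.eval A m.hyp (fun _ => i))
      = dvg A.tg.d m.ind.A m.ind.Gi (fun a => V.eval A m.hyp (fun _ => a.succ)) := by
    have hp := m.hyp_Pd
    unfold dvg
    rw [Fin.sum_univ_succ, Fin.sum_univ_succ]
    have t0 : ∀ i j : Fin (k + 1), i = 0 ∨ j = 0 → m.hyp.Gi i j * (A.d i (V.eval A m.hyp (fun _ => j))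
        - ∑ l, m.hyp.A i l j * V.eval A m.hyp (fun _ => l)) = 0 := by
      intro i j hij
      have hz : ∑ l, m.hyp.A i l j * V.eval A m.hyp (fun _ => l) = 0 :=
        Finset.sum_eq_zero fun l _ => by
          rw [hp.A0 i l j (by rcases hij with h | h; exacts [Or.inl h, Or.inr (Or.inr h)]), zero_mul]
      rw [hz, sub_zero]
      rcases hij with h | h
      · subst h
        rw [hp.d0, mul_zero]
      · subst h
        refine Fin.cases ?_ (fun a => ?_) i
        · rw [hp.d0, mul_zero]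
        · have : m.hyp.Gi a.succ 0 = 0 := rfl
          rw [this, zero_mul]
    rw [t0 0 0 (Or.inl rfl), Finset.sum_eq_zero fun j _ => t0 0 j.succ (Or.inl rfl), add_zero, zero_add]
    refine Finset.sum_congr rfl fun a _ => ?_
    rw [Fin.sum_univ_succ, t0 a.succ 0 (Or.inr rfl), zero_add]
    refine Finset.sum_congr rfl fun b _ => ?_
    rw [Fin.sum_univ_succ, hp.A0 a.succ 0 b.succ (Or.inr (Or.inl rfl)), zero_mul, zero_add]
    have : ∀ c : Fin k, m.ind.A a c b = m.hyp.A a.succ c.succ b.succ := fun c =>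
      tgb_A m.hyp_Pd a c b
    simp only [this]
    rfl
  rw [e0]
  unfold dvg St.dvg
  rw [map_sum]
  refine Finset.sum_congr rfl fun a _ => ?_
  rw [map_sum]
  refine Finset.sum_congr rfl fun b _ => ?_
  rw [map_mul, map_sub, hA' L, map_sum]
  have e2 : L.cA (m.ind.Gi a b) = St.inv (St.ind (gm L m)) a b := by
    rw [← hi_c]
    rfl
  have e3 : ∀ c : Fin k, L.cA (m.ind.A a c b) = St.chr St.pd (St.ind (gm L m))
      (St.inv (St.ind (gm L m))) c a b := by
    intro c
    refine (chr_c (X := A.tg) L.cA St.pd (hA' L) m.ind.G m.ind.Gi c a b).trans ?_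
    have e1 : im2 (X := A.tg) L.cA m.ind.G = St.ind (gm L m) := by
      funext a b
      exact ind_c L m a b
    have e2 : im2 (X := A.tg) L.cA m.ind.Gi = St.inv (St.ind (gm L m)) := by
      rw [← hi_c]
      rfl
    rw [e1, e2]
  simp only [map_mul, e2, e3, hval_rt L m hN]

end Data

end Run7.h96.Br

end

section

/-!
The decomposition theorem for functions.
-/

set_option linter.all false
set_option maxHeartbeats 400000

open scoped BigOperators
open MeasureTheory

namespace Run7.h96.Br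

open Run7.h96 Run7.h96.Hy

variable {k : ℕ}

/-- values -/
noncomputable def cV {E : Type} [NormedAddCommGroup E] [NormedSpace ℝ E] {Λ : Set E} {n : ℕ}
    {v : Fin n → E} : (CsR E Λ v).R →ₐ[ℝ] (E → ℝ) where
  toFun f := vl f
  map_one' := rfl
  map_mul' _ _ := rfl
  map_zero' := rfl
  map_add' _ _ := rfl
  commutes' _ := rfl

/-- values -/
noncomputable def cX : (XX k).R →ₐ[ℝ] St.Fn (k + 1) := cV (v := vX k)
/-- values -/
noncomputable def cA : (AA k).R →ₐ[ℝ] St.Fn k := cV (v := vA k)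
/-- values -/
noncomputable def cY : (XY k).R →ₐ[ℝ] St.Fn (k + 1) := cV (v := vX k)
/-- values -/
noncomputable def cB : (AY k).R →ₐ[ℝ] St.Fn k := cV (v := vA k)

theorem td_eq (f : St.Fn k) (i : Fin (k + 1)) (x : Fin k → ℝ) :
    fderiv ℝ f x (vA k i) = St.td i f x := by
  refine Fin.cases ?_ (fun a => ?_) i
  · exact map_zero _
  · rfl

/-- values of the functions on `ℝ × T^k` -/
noncomputable def RX (k : ℕ) : Rl (HX k) where
  cX := cX
  cA := cA
  hX i f := rfl
  hA i f := funext fun x => td_eq (va f) i x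
  hr f := funext fun x => va_res f x

/-- values of the functions on `ℝ^{k+1}` -/
noncomputable def RY (k : ℕ) : Rl (HY k) where
  cX := cY
  cA := cB
  hX i f := rfl
  hA i f := funext fun x => td_eq (vb f) i x
  hr f := funext fun x => vb_res f x

theorem nrm_c {X A : DR (k + 1)} {H : Hs X A} (L : Rl H) (m : Mt H) {ε : ℝ}
    (hε : ε = 1 ∨ ε = -1) (h : ∀ y, 0 < ε * L.cA m.N y) : L.cA m.N = St.nrm (gm L m) ε := by
  funext y
  have h1 := congrFun (congrArg L.cA m.hN) y
  rw [map_mul, map_mul, L.hr, map_one] at h1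
  have h2 : L.cA m.N y * L.cA m.N y * L.cX (m.gi 0 0) (Fin.cons 0 y) = 1 := h1
  unfold St.nrm
  rw [gm_inv]
  beta_reduce
  set N := L.cA m.N y
  set q := L.cX (m.gi 0 0) (Fin.cons 0 y)
  have hN : 0 < ε * N := h y
  have hεε : ε * ε = 1 := by rcases hε with h | h <;> rw [h] <;> norm_num
  have hq : q = ((ε * N)⁻¹) ^ 2 := by
    have h3 : (ε * N) ^ 2 * q = 1 := by
      calc (ε * N) ^ 2 * q = (ε * ε) * (N * N * q) := by ring
        _ = 1 := by rw [hεε, h2, one_mul]
    rw [inv_pow]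
    exact eq_inv_of_mul_eq_one_right h3
  rw [hq, Real.sqrt_sq (inv_pos.mpr hN).le, div_inv_eq_mul, ← mul_assoc, hεε, one_mul]

theorem sgn_of (m : Mt (HX k)) : ∃ ε : ℝ, (ε = 1 ∨ ε = -1) ∧ ∀ y, 0 < ε * va m.N y := by
  have hne : ∀ y, va m.N y ≠ 0 := by
    intro y h0
    have h1 := congrArg (fun f => va f y) m.hN
    have h2 : va m.N y * va m.N y * va ((HX k).res (m.gi 0 0)) y = 1 := h1
    rw [h0, zero_mul, zero_mul] at h2
    exact zero_ne_one h2
  by_cases h : ∃ y, 0 < va m.N y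
  · refine ⟨1, Or.inl rfl, fun y => ?_⟩
    rw [one_mul]
    by_contra hneg
    push Not at hneg
    obtain ⟨z, hz⟩ := h
    obtain ⟨w, hw⟩ := mem_range_of_exists_le_of_exists_ge (va_cont m.N) ⟨y, hneg⟩ ⟨z, hz.le⟩
    exact hne w hw
  · push Not at h
    refine ⟨-1, Or.inr rfl, fun y => ?_⟩
    have h1 := h y
    have h2 := lt_of_le_of_ne h1 (hne y)
    linarith

section ExGi

variable {E : Type} [NormedAddCommGroup E] [NormedSpace ℝ E] {Λ : Set E} {n : ℕ} {v : Fin n → E}

theorem ex_gi' {p : ℕ} {g : Fin p → Fin p → (CsR E Λ v).R} (hs : ∀ i j, g i j = g j i)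
    (hp : ∀ x, (Matrix.of fun i j => vl (g i j) x).PosDef) :
    ∃ gi : Fin p → Fin p → (CsR E Λ v).R, CInv.IsMetric g gi := by
  have hd : ∀ x, vl (Matrix.of g).det x ≠ 0 := by
    intro x
    have h1 : vl (Matrix.of g).det x = (Matrix.of fun i j => vl (g i j) x).det :=
      RingHom.map_det (evC (v := v) (Λ := Λ) x : (CsR E Λ v).R →+* ℝ) (Matrix.of g)
    rw [h1]
    exact (hp x).det_pos.ne'
  obtain ⟨u, hu⟩ : ∃ u : (CsR E Λ v).R, (Matrix.of g).det * u = 1 := ex_inv_vl (Matrix.of g).det hd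
  refine ⟨fun i j => u * (Matrix.of g).adjugate i j, ⟨hs, fun i j => ?_⟩⟩
  have h1 := congrFun (congrFun (Matrix.mul_adjugate (Matrix.of g)) i) j
  rw [Matrix.mul_apply] at h1
  have h2 : ∑ p, g i p * (u * (Matrix.of g).adjugate p j)
      = u * ∑ p, (Matrix.of g) i p * (Matrix.of g).adjugate p j := by
    rw [Finset.mul_sum]
    refine Finset.sum_congr rfl fun p _ => ?_
    show g i p * _ = u * (g i p * _)
    ring
  rw [h2, h1]
  show u * ((Matrix.of g).det * (1 : Matrix (Fin p) (Fin p) (CsR E Λ v).R) i j) = _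
  rw [Matrix.one_apply, ← mul_assoc, mul_comm u]
  have hu' : (Matrix.of g).det * u = 1 := hu
  rw [hu', one_mul]

theorem gi_vl {p : ℕ} {g gi : Fin p → Fin p → (CsR E Λ v).R} (h : CInv.IsMetric g gi) (x : E) :
    (Matrix.of fun i j => vl (g i j) x)⁻¹ = Matrix.of fun i j => vl (gi i j) x := by
  refine Matrix.inv_eq_right_inv ?_
  ext i j
  rw [Matrix.mul_apply, Matrix.one_apply]
  have h1 := congrArg (fun f => vl f x) (h.inv i j)
  beta_reduce at h1
  rw [vl_sum] at h1
  refine Eq.trans h1 ?_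
  split_ifs <;> rfl

end ExGi

theorem IsMet.sym {n : ℕ} {g : Fin n → Fin n → St.Fn n} (hg : St.IsMet g) (i j : Fin n) :
    g i j = g j i := by
  funext x
  have := congrFun (congrFun (hg.2 x).1 j) i
  simpa using this

/-- the metric on `ℝ^{k+1}` given by functions -/
theorem ex_mt {g : Fin (k + 1) → Fin (k + 1) → St.Fn (k + 1)} (hg : St.IsMet g) {ε : ℝ}
    (hε : ε = 1 ∨ ε = -1) : ∃ m : Mt (HY k), PosY m ∧ gm (RY k) m = g ∧
      ∀ y, 0 < ε * (RY k).cA m.N y := by
  let g' : Fin (k + 1) → Fin (k + 1) → (XY k).R := fun i j =>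
    mkC (v := vX k) (g i j) (hg.1 i j) (fun l hl => hl.elim)
  have hs : ∀ i j, g' i j = g' j i := fun i j => by
    show mkC (v := vX k) (g i j) _ _ = mkC (v := vX k) (g j i) _ _
    congr 1
    exact IsMet.sym hg i j
  have hpos : ∀ x, (Matrix.of fun i j => vy (g' i j) x).PosDef := hg.2
  obtain ⟨gi, hgi⟩ : ∃ gi : Fin (k + 1) → Fin (k + 1) → (XY k).R, CInv.IsMetric g' gi :=
    ex_gi' (v := vX k) (Λ := ∅) hs hpos
  have hq : ∀ x, 0 < vy (gi 0 0) x := by
    intro x
    have h1 := (hpos x).inv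
    have h2 := gi_vl (v := vX k) (Λ := ∅) hgi x
    rw [show (Matrix.of fun i j => vy (g' i j) x)⁻¹ = Matrix.of fun i j => vy (gi i j) x from h2] at h1
    exact h1.diag_pos (i := 0)
  have hq' : ∀ y, 0 < vb ((HY k).res (gi 0 0)) y := fun y => by
    rw [vb_res]; exact hq _
  obtain ⟨s, hs1, hs2, -⟩ := ex_sqrt (v := vA k) (Λ := ∅) ((HY k).res (gi 0 0)) hq'
  obtain ⟨t, ht⟩ := ex_inv_vl (v := vA k) (Λ := ∅) s (fun y => (hs2 y).ne')
  have hεε : ε * ε = 1 := by rcases hε with h | h <;> rw [h] <;> norm_num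
  have hts : ∀ y, 0 < vb t y := by
    intro y
    have h1 : vb s y * vb t y = 1 := congrArg (fun f => vb f y) ht
    have h2 : 0 < vb s y := hs2 y
    by_contra hneg
    push Not at hneg
    have : vb s y * vb t y ≤ 0 := mul_nonpos_of_nonneg_of_nonpos h2.le hneg
    linarith
  refine ⟨⟨g', gi, hgi, (ε • t : (AY k).R), ?_⟩, hpos, rfl, fun y => ?_⟩
  · refine vb_ext fun y => ?_
    have h1 : vb s y * vb t y = 1 := congrArg (fun f => vb f y) ht
    have h2 : vb s y * vb s y = vb ((HY k).res (gi 0 0)) y := congrArg (fun f => vb f y) hs1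
    show ε * vb t y * (ε * vb t y) * vb ((HY k).res (gi 0 0)) y = 1
    rw [← h2]
    calc ε * vb t y * (ε * vb t y) * (vb s y * vb s y)
        = (ε * ε) * ((vb s y * vb t y) * (vb s y * vb t y)) := by ring
      _ = 1 := by rw [hεε, h1]; norm_num
  · show 0 < ε * (ε * vb t y)
    rw [← mul_assoc, hεε, one_mul]
    exact hts y

/-! ### the torus -/

theorem gm_met {m : Mt (HX k)} (hm : Pos m) : St.IsMet (gm (RX k) m) :=
  ⟨fun i j => vx_smooth (m.g i j), hm⟩

theorem gm_per (m : Mt (HX k)) (i j : Fin (k + 1)) : St.PerX (gm (RX k) m i j) :=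
  fun a x => vl_per (v := vX k) (m.g i j) ⟨a, rfl⟩ x

theorem gm_conf (m : Mt (HX k)) (ω : (XX k).R) :
    gm (RX k) (Hy.conf m ω) = St.conf (cX ω) (gm (RX k) m) := by
  funext i j x
  show Real.exp (vx ω x) * Real.exp (vx ω x) * vx (m.g i j) x
    = Real.exp (2 * vx ω x) * vx (m.g i j) x
  rw [← Real.exp_add]
  congr 2
  ring

theorem gm_confY (m : Mt (HY k)) (ω : (XY k).R) :
    gm (RY k) (confY m ω) = St.conf (cY ω) (gm (RY k) m) := by
  funext i j x
  show Real.exp (vy ω x) * Real.exp (vy ω x) * vy (m.g i j) x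
    = Real.exp (2 * vy ω x) * vy (m.g i j) x
  rw [← Real.exp_add]
  congr 2
  ring

theorem total_c (P : St.Fml St.Bas St.rk 0) {m : Mt (HX k)} {ε : ℝ}
    (hN : (RX k).cA m.N = St.nrm (gm (RX k) m) ε) :
    total (tr βh P) m = St.tint (St.ind (gm (RX k) m)) (St.hval P (gm (RX k) m) ε ![]) := by
  unfold total St.tint
  refine setIntegral_congr_fun measurableSet_Icc fun x _ => ?_
  have h1 := congrFun (hval_tr (RX k) m hN P ![]) x
  have h2 : va ((tr βh P).eval (AA k) m.hyp ![]) x = St.hval P (gm (RX k) m) ε ![] x := h1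
  beta_reduce
  rw [h2]
  rfl

theorem conf_pos (m : Mt (HX k)) (ω : (XX k).R) {ε : ℝ} (h : ∀ y, 0 < ε * (RX k).cA m.N y) (y) :
    0 < ε * (RX k).cA (Hy.conf m ω).N y := by
  have h1 : (RX k).cA (Hy.conf m ω).N y = va ((HX k).res (eX ω)) y * (RX k).cA m.N y := rfl
  rw [h1, va_res, vx_eX]
  have := mul_pos (Real.exp_pos (vx ω (Fin.cons 0 y))) (h y)
  nlinarith

theorem confY_pos (m : Mt (HY k)) (ω : (XY k).R) {ε : ℝ} (h : ∀ y, 0 < ε * (RY k).cA m.N y) (y) :
    0 < ε * (RY k).cA (confY m ω).N y := by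
  have h1 : (RY k).cA (confY m ω).N y = vb ((HY k).res (eY ω)) y * (RY k).cA m.N y := rfl
  rw [h1, vb_res, vy_eY]
  have := mul_pos (Real.exp_pos (vy ω (Fin.cons 0 y))) (h y)
  nlinarith

/-- the metric on `T^k` given by functions -/
theorem ex_mT {h : Fin k → Fin k → St.Fn k} (hh : St.IsMet h) (hp : ∀ a b, St.Per (h a b)) :
    ∃ g : MT k, PosT g ∧ ∀ a b, va (g.G a b) = h a b := by
  let g' : Fin k → Fin k → (AA k).R := fun a b =>
    mkC (v := vA k) (h a b) (hh.1 a b) (fun l hl x => by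
      obtain ⟨c, rfl⟩ := hl
      exact hp a b c x)
  have hs : ∀ i j, g' i j = g' j i := fun i j => by
    refine va_ext fun x => ?_
    show h i j x = h j i x
    rw [IsMet.sym hh i j]
  have hpos : ∀ x, (Matrix.of fun i j => va (g' i j) x).PosDef := hh.2
  obtain ⟨gi, hgi⟩ := ex_gi' (v := vA k) (Λ := PA k) hs hpos
  exact ⟨⟨g', gi, fun e => e.elim, hgi⟩, hpos, fun a b => rfl⟩

theorem totalT_c (P0 : Hy.Fml Empty (fun _ => 0) 0) {g : MT k} {h : Fin k → Fin k → St.Fn k}
    (hg : ∀ a b, va (g.G a b) = h a b) :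
    totalT P0 g = St.tint h (St.ival (rt (fun e => e.elim) P0) h) := by
  have e1 : im2 (X := (AA k).tg) cA g.G = h := by
    funext a b
    exact hg a b
  have e2 : im2 (X := (AA k).tg) cA g.Gi = St.inv h := by
    symm
    refine inv_eq fun a b => ?_
    have := congrArg cA (g.inv a b)
    rw [map_sum] at this
    simp only [map_mul] at this
    have e3 : ∀ i j, h i j = cA (g.G i j) := fun i j => (hg i j).symm
    simp only [e3]
    refine Eq.trans this ?_
    split_ifs
    · exact map_one _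
    · exact map_zero _
  unfold totalT St.tint St.ival
  refine setIntegral_congr_fun measurableSet_Icc fun x _ => ?_
  have h1 := rt_val (X := (AA k).tg) cA St.pd (hA' (RX k)) (J' := Empty) (ρ' := fun _ => 0)
    (fun e : Empty => e.elim) g (fun e : Empty => e.elim) (fun e : Empty => e.elim) P0 ![]
  rw [e1, e2] at h1
  beta_reduce
  rw [h1]
  simp only [hg]
  rfl

end Run7.h96.Br

end

section

/-!
The decomposition theorem for functions.
-/

set_option linter.all false
set_option maxHeartbeats 400000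

open scoped BigOperators
open MeasureTheory

namespace Run7.h96.Br

open Run7.h96 Run7.h96.Hy

variable {k : ℕ}

/-- smooth functions -/
theorem ex_ωY {ω : St.Fn (k + 1)} (h : St.Smooth ω) : ∃ ω' : (XY k).R, cY ω' = ω :=
  ⟨mkC (v := vX k) ω h (fun l hl => hl.elim), rfl⟩

theorem ex_χ {χ : St.Fn k} (h : St.Smooth χ) (hp : St.Per χ) : ∃ χ' : (AA k).R, va χ' = χ :=
  ⟨mkC (v := vA k) χ h (fun l hl x => by
    obtain ⟨c, rfl⟩ := hl
    exact hp c x), rfl⟩

theorem cA_inj {f g : (AA k).R} (h : cA f = cA g) : f = g := va_ext fun x => congrFun h x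

theorem neg_pos {X A : DR (k + 1)} {H : Hs X A} (L : Rl H) {m : Mt H} {ε : ℝ}
    (h : ∀ y, 0 < ε * L.cA m.N y) (y) : 0 < -ε * L.cA m.neg.N y := by
  have h1 : L.cA m.neg.N y = - L.cA m.N y := congrFun (map_neg L.cA m.N) y
  rw [h1, neg_mul_neg]
  exact h y

/-- the metric on `ℝ^k` given by functions -/
theorem ex_mB {h : Fin k → Fin k → St.Fn k} (hh : St.IsMet h) :
    ∃ b : Hy.BD (AY k).tg Empty (fun _ => 0), ∀ a c, cB (b.G a c) = h a c := by
  let g' : Fin k → Fin k → (AY k).R := fun a b =>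
    mkC (v := vA k) (h a b) (hh.1 a b) (fun l hl => hl.elim)
  have hs : ∀ i j, g' i j = g' j i := fun i j => by
    refine vb_ext fun x => ?_
    show h i j x = h j i x
    rw [IsMet.sym hh i j]
  have hpos : ∀ x, (Matrix.of fun i j => vb (g' i j) x).PosDef := hh.2
  obtain ⟨gi, hgi⟩ : ∃ gi : Fin k → Fin k → (AY k).R, CInv.IsMetric g' gi :=
    ex_gi' (v := vA k) (Λ := ∅) hs hpos
  exact ⟨⟨g', gi, fun e => e.elim, hgi⟩, fun a b => rfl⟩

theorem ival_c (P0 : Hy.Fml Empty (fun _ => 0) 0) {b : Hy.BD (AY k).tg Empty (fun _ => 0)}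
    {h : Fin k → Fin k → St.Fn k} (hb : ∀ a c, cB (b.G a c) = h a c) :
    St.ival (rt (fun e => e.elim) P0) h = cB (P0.eval (AY k).tg b ![]) := by
  have e1 : im2 (X := (AY k).tg) cB b.G = h := by
    funext a c
    exact hb a c
  have e2 : im2 (X := (AY k).tg) cB b.Gi = St.inv h := by
    symm
    refine inv_eq fun a c => ?_
    have := congrArg cB (b.inv a c)
    rw [map_sum] at this
    simp only [map_mul] at this
    have e3 : ∀ i j, h i j = cB (b.G i j) := fun i j => (hb i j).symm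
    simp only [e3]
    refine Eq.trans this ?_
    split_ifs
    · exact map_one _
    · exact map_zero _
  have h1 := rt_val (X := (AY k).tg) cB St.pd (hA' (RY k)) (J' := Empty) (ρ' := fun _ => 0)
    (fun e : Empty => e.elim) b (fun e : Empty => e.elim) (fun e : Empty => e.elim) P0 ![]
  rw [e1, e2] at h1
  exact h1

theorem neg_sgn {ε : ℝ} (h : ε = 1 ∨ ε = -1) : -ε = 1 ∨ -ε = -1 := by
  rcases h with h | h
  · right; rw [h]
  · left; rw [h, neg_neg]

open Classical in
theorem main (hk : 1 ≤ k) (P : St.Fml St.Bas St.rk 0)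
    (hP : ∀ g : Fin (k + 1) → Fin (k + 1) → St.Fn (k + 1), St.IsMet g →
      (∀ i j, St.PerX (g i j)) → ∀ ε : ℝ, (ε = 1 ∨ ε = -1) → ∀ ω, St.Smooth ω → St.PerX ω →
      St.tint (St.ind (St.conf ω g)) (St.hval P (St.conf ω g) ε ![])
        = St.tint (St.ind g) (St.hval P g ε ![])) :
    ∃ (P0 : St.Fml Empty (fun _ => 0) 0) (W : St.Fml St.Bas St.rk 0) (V : St.Fml St.Bas St.rk 1),
      (∀ g : Fin (k + 1) → Fin (k + 1) → St.Fn (k + 1), St.IsMet g → ∀ ε : ℝ, (ε = 1 ∨ ε = -1) →
        ∀ y, St.hval P g ε ![] y = St.ival P0 (St.ind g) y + St.hval W g ε ![] y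
          + St.dvg (St.ind g) (fun a => St.hval V g ε (fun _ => a.succ)) y) ∧
      (∀ g : Fin (k + 1) → Fin (k + 1) → St.Fn (k + 1), St.IsMet g → ∀ ε : ℝ, (ε = 1 ∨ ε = -1) →
        ∀ ω, St.Smooth ω → ∀ y, St.hval W (St.conf ω g) ε ![] y
          = Real.exp (-(k * ω (Fin.cons 0 y))) * St.hval W g ε ![] y) ∧
      (∀ h : Fin k → Fin k → St.Fn k, St.IsMet h → (∀ a b, St.Per (h a b)) →
        ∀ χ, St.Smooth χ → St.Per χ →
        St.tint (St.conf χ h) (St.ival P0 (St.conf χ h)) = St.tint h (St.ival P0 h)) ∧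
      (∀ h : Fin k → Fin k → St.Fn k, St.IsMet h → ∀ c : ℝ, 0 < c → ∀ y,
        St.ival P0 (fun a b => c ^ 2 • h a b) y = (c ^ k)⁻¹ * St.ival P0 h y) ∧
      ((∀ g : Fin (k + 1) → Fin (k + 1) → St.Fn (k + 1), St.IsMet g → (∀ i j, St.PerX (g i j)) →
          St.hval P g (-1) ![] = St.hval P g 1 ![]) →
        ∀ g : Fin (k + 1) → Fin (k + 1) → St.Fn (k + 1), St.IsMet g →
          St.hval W g (-1) ![] = St.hval W g 1 ![] ∧
          ∀ a : Fin k, St.hval V g (-1) (fun _ => a.succ) = St.hval V g 1 (fun _ => a.succ)) := by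
  have hI : ∀ m : Mt (HX k), Pos m → ∀ ω : (XX k).R,
      total (tr βh P) (Hy.conf m ω) = total (tr βh P) m := by
    intro m hm ω
    obtain ⟨ε, hε, hs⟩ := sgn_of m
    have hN := nrm_c (RX k) m hε hs
    have hN' := nrm_c (RX k) (Hy.conf m ω) hε (conf_pos m ω hs)
    rw [total_c P hN', total_c P hN, gm_conf]
    exact hP (gm (RX k) m) (gm_met hm) (gm_per m) ε hε (cX ω) (vx_smooth ω)
      (fun a x => vl_per (v := vX k) ω ⟨a, rfl⟩ x)
  obtain ⟨P0, W, V, h1, h2, hsc⟩ := decomp_thm2 hk (tr βh P) hI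
  -- the decomposition with the parity clause
  have key : ∃ (W V : _), (∀ m : Mt (HX k), Pos m → (tr βh P).eval (AA k) m.hyp ![]
        = P0.eval (AA k).tg m.ind ![] + Hy.Fml.eval (AA k) m.hyp W ![]
          + (Hy.Fml.dv V).eval (AA k) m.hyp ![]) ∧
      (∀ m : Mt (HX k), Pos m → ∀ ω : (XX k).R,
        (HX k).res (eX ω) ^ k * W.eval (AA k) (Hy.conf m ω).hyp ![] = W.eval (AA k) m.hyp ![]) ∧
      ((∀ g : Fin (k + 1) → Fin (k + 1) → St.Fn (k + 1), St.IsMet g → (∀ i j, St.PerX (g i j)) →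
          St.hval P g (-1) ![] = St.hval P g 1 ![]) →
        (∀ (X A : DR (k + 1)) (H : Hs X A) (m : Mt H),
          W.eval A m.neg.hyp ![] = W.eval A m.hyp ![]) ∧
        ∀ (X A : DR (k + 1)) (H : Hs X A) (m : Mt H) (a : Fin k),
          V.eval A m.neg.hyp (fun _ => a.succ) = V.eval A m.hyp (fun _ => a.succ)) := by
    by_cases he : ∀ g : Fin (k + 1) → Fin (k + 1) → St.Fn (k + 1), St.IsMet g →
        (∀ i j, St.PerX (g i j)) → St.hval P g (-1) ![] = St.hval P g 1 ![]
    · have he' : ∀ m : Mt (HX k), Pos m →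
          (tr βh P).eval (AA k) m.neg.hyp ![] = (tr βh P).eval (AA k) m.hyp ![] := by
        intro m hm
        obtain ⟨ε, hε, hs⟩ := sgn_of m
        have hN := nrm_c (RX k) m hε hs
        have hN' := nrm_c (RX k) m.neg (neg_sgn hε) (neg_pos (RX k) hs)
        refine cA_inj ?_
        have e1 := hval_tr (RX k) m hN P ![]
        have e2 := hval_tr (RX k) m.neg hN' P ![]
        have e3 : gm (RX k) m.neg = gm (RX k) m := rfl
        rw [e3] at e2
        refine e2.trans (Eq.trans ?_ e1.symm)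
        have e4 := he (gm (RX k) m) (gm_met hm) (gm_per m)
        rcases hε with h | h
        · rw [h]; exact e4
        · rw [h, neg_neg]; exact e4.symm
      obtain ⟨W', V', h3, h4, h5, h6⟩ := even_form h1 h2 he'
      exact ⟨W', V', h3, h4, fun _ => ⟨h5, h6⟩⟩
    · exact ⟨W, V, h1, h2, fun h => absurd h he⟩
  clear h1 h2 V W
  obtain ⟨W, V, h1, h2, h3⟩ := key
  obtain ⟨h4, h5⟩ := decomp_loc h1 h2
  refine ⟨rt (fun e => e.elim) P0, rt βs W, rt βs V, ?_, ?_, ?_, ?_, ?_⟩
  · intro g hg ε hε y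
    obtain ⟨m, hm, rfl, hs⟩ := ex_mt hg hε
    have hN := nrm_c (RY k) m hε hs
    have e1 := hval_tr (RY k) m hN P ![]
    have e2 := hval_rt (RY k) m hN W ![]
    have e3 := dv_rt (RY k) m hN V
    have e4 := ival_rt (RY k) m P0
    rw [← e1, e2, e3, e4, h4 m hm]
    rfl
  · intro g hg ε hε ω hω y
    obtain ⟨m, hm, rfl, hs⟩ := ex_mt hg hε
    obtain ⟨ω', rfl⟩ := ex_ωY hω
    have hN := nrm_c (RY k) m hε hs
    have hN' := nrm_c (RY k) (confY m ω') hε (confY_pos m ω' hs)
    have e2 := hval_rt (RY k) m hN W ![]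
    have e2' := hval_rt (RY k) (confY m ω') hN' W ![]
    rw [gm_confY] at e2'
    rw [e2, e2', ← h5 m hm ω']
    have e5 : (RY k).cA ((HY k).res (eY ω') ^ k * W.eval (AY k) (confY m ω').hyp ![]) y
        = Real.exp (cY ω' (Fin.cons 0 y)) ^ k
          * (RY k).cA (W.eval (AY k) (confY m ω').hyp ![]) y := by
      rw [map_mul, map_pow]
      show ((RY k).cA ((HY k).res (eY ω'))) y ^ k * _ = _
      rw [(RY k).hr]
      rfl
    rw [e5, ← mul_assoc, ← Real.exp_nat_mul, ← Real.exp_add]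
    have e6 : -(↑k * cY ω' (Fin.cons 0 y)) + ↑k * cY ω' (Fin.cons 0 y) = 0 := by ring
    rw [e6, Real.exp_zero, one_mul]
  · intro h hh hp χ hχ hχp
    obtain ⟨g, hg, hgv⟩ := ex_mT hh hp
    obtain ⟨χ', rfl⟩ := ex_χ hχ hχp
    have e1 := inv0 hI h1 h2 hg χ'
    rw [totalT_c P0 hgv] at e1
    have hgv' : ∀ a b, va ((confT g χ').G a b) = St.conf (va χ') h a b := by
      intro a b
      funext x
      show Real.exp (va χ' x) * Real.exp (va χ' x) * va (g.G a b) x
        = Real.exp (2 * va χ' x) * h a b x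
      rw [← Real.exp_add, hgv]
      congr 2
      ring
    rw [totalT_c P0 hgv'] at e1
    exact e1
  · intro h hh c hc y
    obtain ⟨b, hb⟩ := ex_mB hh
    have e1 := ival_c P0 hb
    have hb' : ∀ a d, cB ((b.sc hc.ne').G a d) = c ^ 2 • h a d := by
      intro a d
      rw [← hb a d, pow_two, ← map_smul]
      rfl
    have e2 := ival_c P0 hb'
    have e3 : St.ival (rt (fun e => e.elim) P0) (fun a d => c ^ 2 • h a d)
        = cB (P0.eval (AY k).tg (b.sc hc.ne') ![]) := e2
    rw [e3, e1, hsc (AY k).tg b c hc.ne']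
    have e4 : cB (k := k) (c⁻¹ ^ k • P0.eval (AY k).tg b ![])
        = c⁻¹ ^ k • cB (P0.eval (AY k).tg b ![]) := map_smul _ _ _
    rw [e4]
    show c⁻¹ ^ k * _ = _
    rw [inv_pow]
  · intro he g hg
    obtain ⟨h6, h7⟩ := h3 he
    obtain ⟨m, hm, rfl, hs⟩ := ex_mt hg (Or.inl rfl)
    have hN := nrm_c (RY k) m (Or.inl rfl) hs
    have hN' := nrm_c (RY k) m.neg (neg_sgn (Or.inl rfl)) (neg_pos (RY k) hs)
    have e0 : gm (RY k) m.neg = gm (RY k) m := rfl
    refine ⟨?_, fun a => ?_⟩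
    · have e1 := hval_rt (RY k) m hN W ![]
      have e2 := hval_rt (RY k) m.neg hN' W ![]
      rw [e0] at e2
      rw [e1, e2, h6]
    · have e1 := hval_rt (RY k) m hN V (fun _ => a.succ)
      have e2 := hval_rt (RY k) m.neg hN' V (fun _ => a.succ)
      rw [e0] at e2
      rw [e1, e2, h7]

end Run7.h96.Br

end
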