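import Pool.Agent.Run7.h96.NdDefs

/-!
Natural densities: derivatives, integrals over the cube, smoothness of natural tensors.
-/

set_option linter.all false

open scoped BigOperators
open MeasureTheory

namespace Run7.h96.Nd

variable {n : ℕ}

/-! ### smooth functions -/

theorem Smooth.add {f g : Fn n} (hf : Smooth f) (hg : Smooth g) : Smooth (f + g) :=
  ContDiff.add hf hg

theorem Smooth.sub {f g : Fn n} (hf : Smooth f) (hg : Smooth g) : Smooth (f - g) :=
  ContDiff.sub hf hg

theorem Smooth.mul {f g : Fn n} (hf : Smooth f) (hg : Smooth g) : Smooth (f * g) :=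
  ContDiff.mul hf hg

theorem Smooth.smul {f : Fn n} (t : ℝ) (hf : Smooth f) : Smooth (t • f) :=
  ContDiff.const_smul t hf

theorem Smooth.sum {ι : Type*} (s : Finset ι) {f : ι → Fn n} (h : ∀ i ∈ s, Smooth (f i)) :
    Smooth (∑ i ∈ s, f i) := by
  have : (∑ i ∈ s, f i) = fun x => ∑ i ∈ s, f i x := by
    funext x; exact Finset.sum_apply _ _ _
  rw [this]
  exact ContDiff.sum h

theorem smooth_const (c : ℝ) : Smooth (fun _ => c : Fn n) := contDiff_const

theorem Smooth.cont {f : Fn n} (hf : Smooth f) : Continuous f := ContDiff.continuous hf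

theorem Smooth.diff {f : Fn n} (hf : Smooth f) : Differentiable ℝ f :=
  ContDiff.differentiable hf (by simp)

theorem Smooth.pd {f : Fn n} (i : Fin n) (hf : Smooth f) : Smooth (pd i f) := by
  have h1 : ContDiff ℝ (⊤ : ℕ∞) (fderiv ℝ f) := ContDiff.fderiv_right hf (by simp)
  exact h1.clm_apply contDiff_const

theorem pd_add {f g : Fn n} (i : Fin n) (hf : Smooth f) (hg : Smooth g) :
    pd i (f + g) = pd i f + pd i g := by
  funext x
  show fderiv ℝ (f + g) x _ = _
  rw [fderiv_add (hf.diff x) (hg.diff x)]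
  rfl

theorem pd_mul {f g : Fn n} (i : Fin n) (hf : Smooth f) (hg : Smooth g) :
    pd i (f * g) = f * pd i g + g * pd i f := by
  funext x
  show fderiv ℝ (f * g) x _ = _
  rw [fderiv_mul (hf.diff x) (hg.diff x)]
  rfl

theorem pd_smul {f : Fn n} (i : Fin n) (t : ℝ) (hf : Smooth f) : pd i (t • f) = t • pd i f := by
  funext x
  show fderiv ℝ (t • f) x _ = _
  rw [fderiv_const_smul (hf.diff x)]
  rfl

theorem pd_const (i : Fin n) (c : ℝ) : pd i (fun _ => c) = 0 := by
  funext x
  show fderiv ℝ (fun _ => c) x _ = _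
  rw [fderiv_fun_const]
  rfl

theorem pd_sum {ι : Type*} (s : Finset ι) (i : Fin n) {f : ι → Fn n} (h : ∀ j ∈ s, Smooth (f j)) :
    pd i (∑ j ∈ s, f j) = ∑ j ∈ s, pd i (f j) := by
  classical
  induction s using Finset.induction_on with
  | empty => simp only [Finset.sum_empty]; exact pd_const i 0
  | @insert a s ha ih =>
    rw [Finset.sum_insert ha, Finset.sum_insert ha,
      pd_add i (h a (Finset.mem_insert_self a s))
        (Smooth.sum s fun j hj => h j (Finset.mem_insert_of_mem hj)),
      ih fun j hj => h j (Finset.mem_insert_of_mem hj)]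

/-! ### the inverse metric -/

theorem mat_smooth_det {M : (Fin n → ℝ) → Matrix (Fin n) (Fin n) ℝ}
    (hM : ∀ i j, ContDiff ℝ (⊤ : ℕ∞) fun x => M x i j) :
    ContDiff ℝ (⊤ : ℕ∞) fun x => (M x).det := by
  simp only [Matrix.det_apply]
  exact ContDiff.sum fun σ _ => ContDiff.const_smul _ (contDiff_prod fun i _ => hM _ _)

theorem inv_smooth {g : Fin n → Fin n → Fn n} (hg : IsMet g) (i j : Fin n) : Smooth (inv g i j) := by
  have h1 : ∀ x, (Matrix.of fun i j => g i j x).det ≠ 0 := fun x => (hg.2 x).det_pos.ne'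
  have h2 : inv g i j = fun x => ((Matrix.of fun i j => g i j x).det)⁻¹
      * (Matrix.of fun i j => g i j x).adjugate i j := by
    funext x
    unfold inv
    rw [Matrix.inv_def, Matrix.smul_apply, Ring.inverse_eq_inv', smul_eq_mul]
  rw [h2]
  refine ContDiff.mul (ContDiff.inv (mat_smooth_det fun i j => hg.1 i j) h1) ?_
  simp only [Matrix.adjugate_apply]
  refine mat_smooth_det fun a b => ?_
  by_cases h : a = j
  · subst h
    simp only [Matrix.updateRow_self]
    exact contDiff_const
  · simp only [Matrix.updateRow_ne h]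
    exact hg.1 a b

theorem IsMet.symm {g : Fin n → Fin n → Fn n} (hg : IsMet g) (i j : Fin n) : g i j = g j i := by
  funext x
  have := (hg.2 x).1.apply j i
  simpa using this

theorem inv_mul {g : Fin n → Fin n → Fn n} (hg : IsMet g) (i j : Fin n) :
    ∑ k, inv g i k * g k j = fun _ => if i = j then 1 else 0 := by
  funext x
  have h := Matrix.nonsing_inv_mul (Matrix.of fun i j => g i j x) (hg.2 x).det_pos.ne'.isUnit
  have h2 := congrFun (congrFun h i) j
  rw [Matrix.mul_apply, Matrix.one_apply] at h2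
  rw [Finset.sum_apply]
  exact h2

theorem mul_inv {g : Fin n → Fin n → Fn n} (hg : IsMet g) (i j : Fin n) :
    ∑ k, g i k * inv g k j = fun _ => if i = j then 1 else 0 := by
  funext x
  have h := Matrix.mul_nonsing_inv (Matrix.of fun i j => g i j x) (hg.2 x).det_pos.ne'.isUnit
  have h2 := congrFun (congrFun h i) j
  rw [Matrix.mul_apply, Matrix.one_apply] at h2
  rw [Finset.sum_apply]
  exact h2

/-! ### natural tensors are smooth -/

theorem chr_smooth {g : Fin n → Fin n → Fn n} (hg : IsMet g) (l i j : Fin n) :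
    Smooth (chr g l i j) :=
  Smooth.smul _ (Smooth.sum _ fun p _ => (inv_smooth hg l p).mul
    ((((hg.1 j p).pd i).add ((hg.1 i p).pd j)).sub ((hg.1 i j).pd p)))

theorem val_smooth {g : Fin n → Fin n → Fn n} (hg : IsMet g) :
    ∀ {r : ℕ} (T : Fml r) (K : Fin r → Fin n), Smooth (T.val g K) := by
  intro r T
  induction T with
  | one => intro K; exact smooth_const 1
  | met => intro K; exact hg.1 _ _
  | curv =>
    intro K
    show Smooth (rm g K)
    unfold rm
    refine Smooth.sum _ fun p _ => (hg.1 _ _).mul (Smooth.add (Smooth.sub ?_ ?_) ?_)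
    · exact (chr_smooth hg _ _ _).pd _
    · exact (chr_smooth hg _ _ _).pd _
    · exact Smooth.sum _ fun q _ => ((chr_smooth hg _ _ _).mul (chr_smooth hg _ _ _)).sub
        ((chr_smooth hg _ _ _).mul (chr_smooth hg _ _ _))
  | zero r => intro K; exact smooth_const 0
  | add S T ihS ihT => intro K; exact (ihS K).add (ihT K)
  | smul t T ih => intro K; exact (ih K).smul t
  | mul e S T ihS ihT => intro K; exact (ihS _).mul (ihT _)
  | perm e T ih => intro K; exact ih _
  | contr e T ih =>
    intro K
    exact Smooth.sum _ fun i _ => Smooth.sum _ fun j _ => (inv_smooth hg i j).mul (ih _)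
  | deriv e T ih =>
    intro K
    exact ((ih _).pd _).sub (Smooth.sum _ fun s _ => Smooth.sum _ fun l _ =>
      (chr_smooth hg _ _ _).mul (ih _))

theorem scal_smooth {g : Fin n → Fin n → Fn n} (hg : IsMet g) (P : Fml 0) : Smooth (scal P g) :=
  val_smooth hg P _

end Run7.h96.Nd
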