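import Pool.Agent.Run7.h96.Nd1

/-!
Natural densities: periodic functions, integrals over the torus and the divergence theorem.
-/

set_option linter.all false

open scoped BigOperators
open MeasureTheory

namespace Run7.h96.Nd

variable {n : ℕ}

/-! ### periodic functions -/

theorem Per.add {f g : Fn n} (hf : Per f) (hg : Per g) : Per (f + g) := fun a x => by
  show f _ + g _ = f _ + g _
  rw [hf, hg]

theorem Per.sub {f g : Fn n} (hf : Per f) (hg : Per g) : Per (f - g) := fun a x => by
  show f _ - g _ = f _ - g _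
  rw [hf, hg]

theorem Per.mul {f g : Fn n} (hf : Per f) (hg : Per g) : Per (f * g) := fun a x => by
  show f _ * g _ = f _ * g _
  rw [hf, hg]

theorem Per.smul {f : Fn n} (t : ℝ) (hf : Per f) : Per (t • f) := fun a x => by
  show t * f _ = t * f _
  rw [hf]

theorem Per.sum {ι : Type*} (s : Finset ι) {f : ι → Fn n} (h : ∀ i ∈ s, Per (f i)) :
    Per (∑ i ∈ s, f i) := fun a x => by
  rw [Finset.sum_apply, Finset.sum_apply]
  exact Finset.sum_congr rfl fun i hi => h i hi a x

theorem per_const (c : ℝ) : Per (fun _ => c : Fn n) := fun a x => rfl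

theorem Per.pd {f : Fn n} (i : Fin n) (hf : Per f) : Per (pd i f) := fun a x => by
  have h1 : (fun y => f (y + Pi.single a 1)) = f := funext fun y => hf a y
  show fderiv ℝ f (x + Pi.single a 1) _ = fderiv ℝ f x _
  rw [← fderiv_comp_add_right, h1]

theorem inv_per {g : Fin n → Fin n → Fn n} (hg : ∀ i j, Per (g i j)) (i j : Fin n) :
    Per (inv g i j) := fun a x => by
  show (Matrix.of fun i j => g i j (x + Pi.single a 1))⁻¹ i j = _
  have : (Matrix.of fun i j => g i j (x + Pi.single a 1)) = Matrix.of fun i j => g i j x := by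
    ext i j; exact hg i j a x
  rw [this]
  rfl

theorem chr_per {g : Fin n → Fin n → Fn n} (hg : ∀ i j, Per (g i j)) (l i j : Fin n) :
    Per (chr g l i j) :=
  Per.smul _ (Per.sum _ fun p _ => (inv_per hg l p).mul
    ((((hg j p).pd i).add ((hg i p).pd j)).sub ((hg i j).pd p)))

theorem val_per {g : Fin n → Fin n → Fn n} (hg : ∀ i j, Per (g i j)) :
    ∀ {r : ℕ} (T : Fml r) (K : Fin r → Fin n), Per (T.val g K) := by
  intro r T
  induction T with
  | one => intro K; exact per_const 1
  | met => intro K; exact hg _ _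
  | curv =>
    intro K
    show Per (rm g K)
    unfold rm
    refine Per.sum _ fun p _ => (hg _ _).mul (Per.add (Per.sub ?_ ?_) ?_)
    · exact (chr_per hg _ _ _).pd _
    · exact (chr_per hg _ _ _).pd _
    · exact Per.sum _ fun q _ => ((chr_per hg _ _ _).mul (chr_per hg _ _ _)).sub
        ((chr_per hg _ _ _).mul (chr_per hg _ _ _))
  | zero r => intro K; exact per_const 0
  | add S T ihS ihT => intro K; exact (ihS K).add (ihT K)
  | smul t T ih => intro K; exact (ih K).smul t
  | mul e S T ihS ihT => intro K; exact (ihS _).mul (ihT _)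
  | perm e T ih => intro K; exact ih _
  | contr e T ih =>
    intro K
    exact Per.sum _ fun i _ => Per.sum _ fun j _ => (inv_per hg i j).mul (ih _)
  | deriv e T ih =>
    intro K
    exact ((ih _).pd _).sub (Per.sum _ fun s _ => Per.sum _ fun l _ =>
      (chr_per hg _ _ _).mul (ih _))

/-! ### the integral over the cube -/

/-- integral over the fundamental cube -/
noncomputable def cube (f : Fn n) : ℝ := ∫ x in Set.Icc (0 : Fin n → ℝ) 1, f x

theorem cube_pd (a : Fin n) {f : Fn n} (hf : Smooth f) (hp : Per f) : cube (pd a f) = 0 := by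
  obtain ⟨n, rfl⟩ : ∃ m, n = m + 1 := ⟨n - 1, by have := a.pos; omega⟩
  have hdiff : Differentiable ℝ f := hf.diff
  have hc : Continuous (pd a f) := (hf.pd a).cont
  have key := integral_divergence_of_hasFDerivAt_off_countable' (E := ℝ) (n := n)
    (a := (0 : Fin (n + 1) → ℝ)) (b := 1) (fun i => by simp)
    (fun i => if i = a then f else fun _ => 0)
    (fun i => if i = a then fderiv ℝ f else fun _ => 0) ∅ Set.countable_empty
    (fun i => by
      by_cases h : i = a
      · simp only [h, if_true]; exact hf.cont.continuousOn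
      · simp only [h, if_false]; exact continuousOn_const)
    (fun x _ i => by
      by_cases h : i = a
      · simp only [h, if_true]; exact (hdiff x).hasFDerivAt
      · simp only [h, if_false]; exact hasFDerivAt_const _ _)
    (by
      have : (fun x => ∑ i, (if i = a then fderiv ℝ f else fun _ => 0) x (Pi.single i 1))
          = pd a f := by
        funext x
        rw [Fintype.sum_eq_single a]
        · simp [pd]
        · intro i hi; simp [hi]
      rw [this]
      exact hc.continuousOn.integrableOn_compact isCompact_Icc)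
  have e1 : (fun x => ∑ i, (if i = a then fderiv ℝ f else fun _ => 0) x (Pi.single i 1))
      = pd a f := by
    funext x
    rw [Fintype.sum_eq_single a]
    · simp [pd]
    · intro i hi; simp [hi]
  rw [e1] at key
  unfold cube
  rw [key]
  refine Finset.sum_eq_zero fun i _ => ?_
  by_cases h : i = a
  · subst h
    simp only [if_true]
    rw [sub_eq_zero]
    refine setIntegral_congr_fun measurableSet_Icc fun x _ => ?_
    have := hp i (i.insertNth ((0 : Fin (n + 1) → ℝ) i) x)
    rw [← this]
    congr 1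
    funext j
    refine Fin.succAboveCases i ?_ (fun j => ?_) j
    · simp
    · simp [Pi.single_apply, Fin.succAbove_ne]
  · simp [h]

theorem cube_add {f g : Fn n} (hf : Continuous f) (hg : Continuous g) :
    cube (f + g) = cube f + cube g := by
  unfold cube
  exact integral_add (hf.continuousOn.integrableOn_compact isCompact_Icc)
    (hg.continuousOn.integrableOn_compact isCompact_Icc)

theorem cube_sub {f g : Fn n} (hf : Continuous f) (hg : Continuous g) :
    cube (f - g) = cube f - cube g := by
  unfold cube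
  exact integral_sub (hf.continuousOn.integrableOn_compact isCompact_Icc)
    (hg.continuousOn.integrableOn_compact isCompact_Icc)

theorem cube_smul (t : ℝ) (f : Fn n) : cube (t • f) = t * cube f := by
  unfold cube
  exact integral_const_mul t f

theorem cube_sum {ι : Type*} (s : Finset ι) {f : ι → Fn n} (hf : ∀ a ∈ s, Continuous (f a)) :
    cube (∑ a ∈ s, f a) = ∑ a ∈ s, cube (f a) := by
  unfold cube
  rw [← integral_finset_sum s fun a ha => (hf a ha).continuousOn.integrableOn_compact isCompact_Icc]
  refine setIntegral_congr_fun measurableSet_Icc fun x _ => ?_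
  exact Finset.sum_apply _ _ _

/-! ### Jacobi's formula -/

section Det

variable {R : Type} [CommRing R] [Algebra ℝ R] {ι : Type} [Fintype ι] [DecidableEq ι]

/-- Jacobi's formula -/
theorem der_det (δ : Derivation ℝ R R) (M Mi : Matrix ι ι R) (h : Mi * M = 1) :
    δ M.det = M.det * ∑ i, ∑ j, Mi i j * δ (M j i) := by
  let θ : R →+* DualNumber R :=
    { toFun := fun f => TrivSqZeroExt.inl f + TrivSqZeroExt.inr (δ f)
      map_one' := by
        rw [Derivation.map_one_eq_zero]; ext <;> simp
      map_mul' := fun f g => by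
        rw [Derivation.leibniz]
        ext
        · simp
        · simp [DualNumber.snd_mul]; ring
      map_zero' := by rw [map_zero]; ext <;> simp
      map_add' := fun f g => by rw [map_add]; ext <;> simp }
  have h1 : θ M.det = (θ.mapMatrix M).det := RingHom.map_det θ M
  let ι' : R →+* DualNumber R := TrivSqZeroExt.inlHom R R
  have h2 : θ.mapMatrix M = ι'.mapMatrix M * (1 + (DualNumber.eps : DualNumber R)
      • ι'.mapMatrix (Mi * M.map δ)) := by
    have hMi : ι'.mapMatrix M * ι'.mapMatrix Mi = 1 := by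
      rw [← map_mul, mul_eq_one_comm.mp h, map_one]
    have e1 : θ.mapMatrix M = ι'.mapMatrix M + (DualNumber.eps : DualNumber R)
        • ι'.mapMatrix (M.map δ) := by
      ext i j
      · simp [θ, ι']
      · simp [θ, ι', DualNumber.snd_mul]
    rw [e1, mul_add, mul_one, map_mul, mul_smul_comm, ← mul_assoc, hMi, one_mul]
  rw [h2, Matrix.det_mul, Matrix.det_one_add_smul] at h1
  have h3 : (DualNumber.eps : DualNumber R) ^ 2 = 0 := by rw [pow_two]; exact DualNumber.eps_mul_eps
  rw [h3, mul_zero, add_zero] at h1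
  have h4 : (ι'.mapMatrix M).det = ι' M.det := (RingHom.map_det ι' M).symm
  have h5 : (ι'.mapMatrix (Mi * M.map δ)).trace = ι' (Mi * M.map δ).trace :=
    (AddMonoidHom.map_trace (ι' : R →+ DualNumber R) (Mi * M.map δ)).symm
  rw [h4, h5] at h1
  have h6 := congrArg TrivSqZeroExt.snd h1
  simp only [θ, ι', RingHom.coe_mk, MonoidHom.coe_mk, OneHom.coe_mk, TrivSqZeroExt.snd_add,
    TrivSqZeroExt.snd_inl, TrivSqZeroExt.snd_inr, zero_add, DualNumber.snd_mul,
    TrivSqZeroExt.inlHom_apply, TrivSqZeroExt.fst_inl, TrivSqZeroExt.fst_add, TrivSqZeroExt.fst_one,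
    TrivSqZeroExt.snd_one, DualNumber.snd_eps, DualNumber.fst_eps, TrivSqZeroExt.fst_mul, mul_zero,
    add_zero, zero_mul, mul_one, one_mul] at h6
  rw [h6]
  congr 1

end Det

/-- the algebra of smooth functions -/
def Sm (n : ℕ) : Subalgebra ℝ (Fn n) where
  carrier := {f | Smooth f}
  mul_mem' := fun {a b} ha hb => Smooth.mul ha hb
  add_mem' := fun {a b} ha hb => Smooth.add ha hb
  algebraMap_mem' := fun r => smooth_const r

/-- coordinate derivations -/
noncomputable def dS (a : Fin n) : Derivation ℝ (Sm n) (Sm n) where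
  toFun f := ⟨pd a (f : Fn n), Smooth.pd a f.2⟩
  map_add' f g := Subtype.ext (pd_add a f.2 g.2)
  map_smul' c f := Subtype.ext (pd_smul a c f.2)
  map_one_eq_zero' := Subtype.ext (pd_const a 1)
  leibniz' f g := Subtype.ext (pd_mul a f.2 g.2)

/-- the determinant of the metric -/
noncomputable def dt (g : Fin n → Fin n → Fn n) : Fn n := fun x => (Matrix.of fun i j => g i j x).det

/-- the volume density -/
noncomputable def vol (g : Fin n → Fin n → Fn n) : Fn n := fun x => Real.sqrt (dt g x)

theorem dt_pos {g : Fin n → Fin n → Fn n} (hg : IsMet g) (x : Fin n → ℝ) : 0 < dt g x :=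
  (hg.2 x).det_pos

theorem dt_smooth {g : Fin n → Fin n → Fn n} (hg : IsMet g) : Smooth (dt g) :=
  mat_smooth_det fun i j => hg.1 i j

theorem vol_smooth {g : Fin n → Fin n → Fn n} (hg : IsMet g) : Smooth (vol g) :=
  ContDiff.sqrt (dt_smooth hg) fun x => (dt_pos hg x).ne'

theorem vol_per {g : Fin n → Fin n → Fn n} (hg : ∀ i j, Per (g i j)) : Per (vol g) := fun a x => by
  have : (Matrix.of fun i j => g i j (x + Pi.single a 1)) = Matrix.of fun i j => g i j x := by
    ext i j; exact hg i j a x
  show Real.sqrt (Matrix.of fun i j => g i j (x + Pi.single a 1)).det = _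
  rw [this]
  rfl

theorem pd_dt {g : Fin n → Fin n → Fn n} (hg : IsMet g) (a : Fin n) :
    pd a (dt g) = dt g * ∑ i, ∑ j, inv g i j * pd a (g j i) := by
  let M : Matrix (Fin n) (Fin n) (Sm n) := Matrix.of fun i j => ⟨g i j, hg.1 i j⟩
  let Mi : Matrix (Fin n) (Fin n) (Sm n) := Matrix.of fun i j => ⟨inv g i j, inv_smooth hg i j⟩
  have hM : Mi * M = 1 := by
    ext1 i j
    rw [Matrix.mul_apply, Matrix.one_apply]
    apply Subtype.ext
    have h1 : ((∑ k, Mi i k * M k j : Sm n) : Fn n) = ∑ k, inv g i k * g k j := by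
      rw [AddSubmonoidClass.coe_finset_sum]
      rfl
    rw [h1, inv_mul hg]
    by_cases h : i = j
    · simp only [h, if_true]; rfl
    · simp only [h, if_false]; rfl
  have h1 := der_det (dS a) M Mi hM
  have hdet : ((M.det : Sm n) : Fn n) = dt g := by
    funext x
    let ev : Sm n →+* ℝ := (Pi.evalRingHom (fun _ : Fin n → ℝ => ℝ) x).comp
      ((Sm n).val : Sm n →+* Fn n)
    have h2 := RingHom.map_det ev M
    exact h2
  have h3 := congrArg (fun f : Sm n => (f : Fn n)) h1
  have h4 : (((dS a) M.det : Sm n) : Fn n) = pd a (dt g) := by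
    show pd a (M.det : Fn n) = _
    rw [hdet]
  have h5 : ((M.det * ∑ i, ∑ j, Mi i j * (dS a) (M j i) : Sm n) : Fn n)
      = dt g * ∑ i, ∑ j, inv g i j * pd a (g j i) := by
    rw [Subalgebra.coe_mul, hdet, AddSubmonoidClass.coe_finset_sum]
    congr 1
    refine Finset.sum_congr rfl fun i _ => ?_
    rw [AddSubmonoidClass.coe_finset_sum]
    rfl
  rw [← h4, ← h5]
  exact h3

theorem vol_pos {g : Fin n → Fin n → Fn n} (hg : IsMet g) (x : Fin n → ℝ) : 0 < vol g x :=
  Real.sqrt_pos.mpr (dt_pos hg x)

theorem pd_vol {g : Fin n → Fin n → Fn n} (hg : IsMet g) (a : Fin n) :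
    pd a (vol g) = vol g * ((1 / 2 : ℝ) • ∑ i, ∑ j, inv g i j * pd a (g j i)) := by
  have h0 : vol g * vol g = dt g := funext fun x => Real.mul_self_sqrt (dt_pos hg x).le
  have h1 := pd_dt hg a
  rw [← h0, pd_mul a (vol_smooth hg) (vol_smooth hg)] at h1
  funext x
  have h2 := congrFun h1 x
  simp only [Pi.add_apply, Pi.mul_apply, Pi.smul_apply, smul_eq_mul] at h2 ⊢
  have h3 := (vol_pos hg x).ne'
  have h4 : vol g x * (pd a (vol g) x) = vol g x * (vol g x * (1 / 2 *
      (∑ i, ∑ j, inv g i j * pd a (g j i)) x)) := by linarith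
  exact mul_left_cancel₀ h3 h4

theorem inv_symm {g : Fin n → Fin n → Fn n} (hg : IsMet g) (i j : Fin n) :
    inv g i j = inv g j i := by
  funext x
  have h1 : (Matrix.of fun i j => g i j x).transpose = Matrix.of fun i j => g i j x := by
    ext i j; exact congrFun (hg.symm j i) x
  show (Matrix.of fun i j => g i j x)⁻¹ i j = (Matrix.of fun i j => g i j x)⁻¹ j i
  conv_lhs => rw [← h1]
  rw [← Matrix.transpose_nonsing_inv]
  rfl

theorem pd_inv {g : Fin n → Fin n → Fn n} (hg : IsMet g) (a i j : Fin n) :
    pd a (inv g i j) = - ∑ c, ∑ p, inv g i c * pd a (g c p) * inv g p j := by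
  have h1 : ∀ i p : Fin n, ∑ c, (inv g i c * pd a (g c p) + g c p * pd a (inv g i c)) = 0 := by
    intro i p
    have h2 := congrArg (pd a) (inv_mul hg i p)
    rw [pd_sum _ _ fun c _ => (inv_smooth hg i c).mul (hg.1 c p), pd_const] at h2
    rw [← h2]
    exact Finset.sum_congr rfl fun c _ => (pd_mul a (inv_smooth hg i c) (hg.1 c p)).symm
  have h3 : ∑ p, (∑ c, (inv g i c * pd a (g c p) + g c p * pd a (inv g i c))) * inv g p j = 0 :=
    Finset.sum_eq_zero fun p _ => by rw [h1, zero_mul]
  have h4 : ∑ p, (∑ c, (inv g i c * pd a (g c p) + g c p * pd a (inv g i c))) * inv g p j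
      = (∑ c, ∑ p, inv g i c * pd a (g c p) * inv g p j) + pd a (inv g i j) := by
    have e1 : ∀ p, (∑ c, (inv g i c * pd a (g c p) + g c p * pd a (inv g i c))) * inv g p j
        = ∑ c, inv g i c * pd a (g c p) * inv g p j
          + ∑ c, pd a (inv g i c) * (g c p * inv g p j) := by
      intro p
      rw [Finset.sum_mul, ← Finset.sum_add_distrib]
      exact Finset.sum_congr rfl fun c _ => by ring
    rw [Finset.sum_congr rfl fun p _ => e1 p, Finset.sum_add_distrib, Finset.sum_comm]
    congr 1
    rw [Finset.sum_comm]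
    have e2 : ∀ c, ∑ p, pd a (inv g i c) * (g c p * inv g p j)
        = pd a (inv g i c) * (fun _ => if c = j then 1 else 0) := by
      intro c
      rw [← Finset.mul_sum, mul_inv hg]
    rw [Finset.sum_congr rfl fun c _ => e2 c, Finset.sum_eq_single j]
    · funext x; simp
    · intro b _ hb; funext x; simp [hb]
    · intro h; exact absurd (Finset.mem_univ j) h
  rw [h4] at h3
  exact eq_neg_of_add_eq_zero_right h3

/-- the divergence as a total derivative -/
theorem vol_dvg {g : Fin n → Fin n → Fn n} (hg : IsMet g) {v : Fin n → Fn n}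
    (hv : ∀ i, Smooth (v i)) :
    vol g * dvg g v = ∑ a, pd a (vol g * ∑ b, inv g a b * v b) := by
  have hI := inv_smooth hg
  have hW := vol_smooth hg
  have e1 : ∀ a, pd a (vol g * ∑ b, inv g a b * v b)
      = vol g * (∑ b, inv g a b * pd a (v b)) + vol g * (∑ b, v b * pd a (inv g a b))
        + vol g * (∑ b, v b * (((1 / 2 : ℝ) • ∑ i, ∑ j, inv g i j * pd a (g j i)) * inv g a b)) := by
    intro a
    rw [pd_mul a hW (Smooth.sum _ fun b _ => (hI a b).mul (hv b)),
      pd_sum _ _ fun b _ => (hI a b).mul (hv b), pd_vol hg]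
    rw [Finset.sum_congr rfl fun b _ => pd_mul a (hI a b) (hv b), Finset.sum_add_distrib, mul_add]
    congr 1
    rw [Finset.sum_mul, Finset.mul_sum]
    exact Finset.sum_congr rfl fun b _ => by ring
  rw [Finset.sum_congr rfl fun a _ => e1 a, Finset.sum_add_distrib, Finset.sum_add_distrib,
    ← Finset.mul_sum, ← Finset.mul_sum, ← Finset.mul_sum, ← mul_add, ← mul_add]
  congr 1
  unfold dvg
  have e2 : ∑ a, ∑ b, inv g a b * (pd a (v b) - ∑ c, chr g c a b * v c)
      = ∑ a, ∑ b, inv g a b * pd a (v b) - ∑ c, v c * ∑ a, ∑ b, inv g a b * chr g c a b := by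
    have e3 : ∀ a b, inv g a b * (pd a (v b) - ∑ c, chr g c a b * v c)
        = inv g a b * pd a (v b) - ∑ c, v c * (inv g a b * chr g c a b) := by
      intro a b
      rw [mul_sub, Finset.mul_sum]
      congr 1
      exact Finset.sum_congr rfl fun c _ => by ring
    rw [Finset.sum_congr rfl fun a _ => Finset.sum_congr rfl fun b _ => e3 a b]
    rw [Finset.sum_congr rfl fun a _ => Finset.sum_sub_distrib _ _, Finset.sum_sub_distrib]
    congr 1
    rw [Finset.sum_congr rfl fun a _ => Finset.sum_comm, Finset.sum_comm]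
    refine Finset.sum_congr rfl fun c _ => ?_
    rw [Finset.mul_sum]
    exact Finset.sum_congr rfl fun a _ => by rw [Finset.mul_sum]
  rw [e2, add_assoc, sub_eq_add_neg]
  congr 1
  rw [Finset.sum_comm, Finset.sum_comm (f := fun a b => v b *
    (((1 / 2 : ℝ) • ∑ i, ∑ j, inv g i j * pd a (g j i)) * inv g a b)), ← Finset.sum_add_distrib,
    ← Finset.sum_neg_distrib]
  refine Finset.sum_congr rfl fun b _ => ?_
  rw [← Finset.mul_sum, ← Finset.mul_sum, ← mul_add, ← mul_neg]
  congr 1
  rw [Finset.sum_congr rfl fun a _ => pd_inv hg a a b]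
  funext x
  simp only [Pi.neg_apply, Finset.sum_apply, Pi.mul_apply, Pi.add_apply, Pi.smul_apply, smul_eq_mul,
    chr, Pi.sub_apply, Finset.sum_neg_distrib]
  have s1 : ∀ i j, g i j = g j i := hg.symm
  have s2 : ∀ i j, inv g i j = inv g j i := inv_symm hg
  have t1 : ∑ a, ∑ c, inv g a c x * (1 / 2 * ∑ p, inv g b p x
      * (pd a (g c p) x + pd c (g a p) x - pd p (g a c) x))
      = ∑ a, ∑ c, ∑ p, inv g a c x * pd a (g c p) x * inv g p b x
        - 1 / 2 * ∑ p, ∑ a, ∑ c, inv g a c x * pd p (g a c) x * inv g p b x := by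
    have u1 : ∑ a, ∑ c, inv g a c x * (1 / 2 * ∑ p, inv g b p x
        * (pd a (g c p) x + pd c (g a p) x - pd p (g a c) x))
        = 1 / 2 * (∑ a, ∑ c, ∑ p, inv g a c x * pd a (g c p) x * inv g p b x)
          + 1 / 2 * (∑ a, ∑ c, ∑ p, inv g a c x * pd c (g a p) x * inv g p b x)
          - 1 / 2 * ∑ a, ∑ c, ∑ p, inv g a c x * pd p (g a c) x * inv g p b x := by
      simp only [Finset.mul_sum, ← Finset.sum_add_distrib, ← Finset.sum_sub_distrib]
      refine Finset.sum_congr rfl fun a _ => Finset.sum_congr rfl fun c _ =>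
        Finset.sum_congr rfl fun p _ => ?_
      rw [s2 b p]; ring
    have u2 : ∑ a, ∑ c, ∑ p, inv g a c x * pd c (g a p) x * inv g p b x
        = ∑ a, ∑ c, ∑ p, inv g a c x * pd a (g c p) x * inv g p b x := by
      rw [Finset.sum_comm]
      exact Finset.sum_congr rfl fun a _ => Finset.sum_congr rfl fun c _ =>
        Finset.sum_congr rfl fun p _ => by rw [s2 c a]
    have u3 : ∑ a, ∑ c, ∑ p, inv g a c x * pd p (g a c) x * inv g p b x
        = ∑ p, ∑ a, ∑ c, inv g a c x * pd p (g a c) x * inv g p b x := by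
      rw [Finset.sum_congr rfl fun a _ => Finset.sum_comm, Finset.sum_comm]
    rw [u1, u2, u3]; ring
  have t2 : ∑ a, (1 / 2 * ∑ i, ∑ j, inv g i j x * pd a (g j i) x) * inv g a b x
      = 1 / 2 * ∑ p, ∑ a, ∑ c, inv g a c x * pd p (g a c) x * inv g p b x := by
    rw [Finset.mul_sum]
    refine Finset.sum_congr rfl fun a _ => ?_
    rw [mul_assoc, Finset.sum_mul]
    congr 1
    refine Finset.sum_congr rfl fun i _ => ?_
    rw [Finset.sum_mul]
    exact Finset.sum_congr rfl fun j _ => by rw [s1 j i]
  rw [t1, t2]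
  ring

/-- the divergence theorem on the torus -/
theorem tint_dvg {g : Fin n → Fin n → Fn n} (hg : TMet g) {v : Fin n → Fn n}
    (hv : ∀ i, Smooth (v i)) (hp : ∀ i, Per (v i)) : tint g (dvg g v) = 0 := by
  have h1 : tint g (dvg g v) = cube (vol g * dvg g v) := by
    unfold tint cube
    refine setIntegral_congr_fun measurableSet_Icc fun x _ => ?_
    exact mul_comm _ _
  have hI := inv_smooth hg.1
  have hW := vol_smooth hg.1
  have h2 : ∀ a, Smooth (vol g * ∑ b, inv g a b * v b) := fun a =>
    hW.mul (Smooth.sum _ fun b _ => (hI a b).mul (hv b))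
  rw [h1, vol_dvg hg.1 hv, cube_sum _ fun a _ => ((h2 a).pd a).cont]
  refine Finset.sum_eq_zero fun a _ => cube_pd a (h2 a) ?_
  exact (vol_per hg.2).mul (Per.sum _ fun b _ => (inv_per hg.2 a b).mul (hp b))

end Run7.h96.Nd
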