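import Pool.Agent.Run7.h96.Nd2

/-!
Natural densities: the formula `Δ(R^k |Ric|²)` and its values on the metrics `e^{2u(x_z)} δ`.
-/

set_option linter.all false

open scoped BigOperators
open MeasureTheory

namespace Run7.h96.Nd

/-! ### the formulas -/

/-- contraction of the slots `0` and `2` -/
def e4 : Fin 4 ≃ Option (Option (Fin 2)) where
  toFun := ![none, some (some 0), some none, some (some 1)]
  invFun o := o.elim 0 (fun o => o.elim 2 (fun s => ![1, 3] s))
  left_inv := by decide
  right_inv := by decide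

/-- contraction of two slots -/
def e2 : Fin 2 ≃ Option (Option (Fin 0)) where
  toFun := ![none, some none]
  invFun o := o.elim 0 (fun o => o.elim 1 (fun s => s.elim0))
  left_inv := by decide
  right_inv := by decide

def e0 : Fin 0 ⊕ Fin 0 ≃ Fin 0 where
  toFun := Sum.elim id id
  invFun := Sum.inl
  left_inv := by rintro (x | x) <;> exact x.elim0
  right_inv := fun x => x.elim0

def d1 : Option (Fin 0) ≃ Fin 1 where
  toFun _ := 0
  invFun _ := none
  left_inv := by decide
  right_inv := by decide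

def d2 : Option (Fin 1) ≃ Fin 2 where
  toFun o := o.elim 0 (fun _ => 1)
  invFun := ![none, some 0]
  left_inv := by decide
  right_inv := by decide

def m22 : Fin 2 ⊕ Fin 2 ≃ Fin 4 where
  toFun := Sum.elim ![0, 1] ![2, 3]
  invFun := ![Sum.inl 0, Sum.inl 1, Sum.inr 0, Sum.inr 1]
  left_inv := by decide
  right_inv := by decide

/-- the Ricci tensor -/
def fRic : Fml 2 := .contr e4 .curv

/-- the scalar curvature -/
def fR : Fml 0 := .contr e2 fRic

/-- `|Ric|²` -/
def fN : Fml 0 := .contr e2 (.contr e4 (.mul m22 fRic fRic))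

/-- `R^k |Ric|²` -/
def fH : ℕ → Fml 0
  | 0 => fN
  | k + 1 => .mul e0 fR (fH k)

/-- `∇ (R^k |Ric|²)` -/
def fV (k : ℕ) : Fml 1 := .deriv d1 (fH k)

/-- `Δ (R^k |Ric|²)` -/
def fS (k : ℕ) : Fml 0 := .contr e2 (.deriv d2 (fV k))

variable {n : ℕ}

theorem cov_fV (k : ℕ) (g : Fin n → Fin n → Fn n) (i : Fin n) :
    cov (fV k) g i = pd i (scal (fH k) g) := by
  have h : (fun s : Fin 0 => (fun _ : Fin 1 => i) (d1 (some s))) = ![] := funext fun s => s.elim0
  show nab g ((fH k).val g) i (fun s : Fin 0 => (fun _ : Fin 1 => i) (d1 (some s))) = _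
  rw [h]
  unfold nab
  rw [Fin.sum_univ_zero, sub_zero]
  rfl

theorem scal_fS (k : ℕ) (g : Fin n → Fin n → Fn n) :
    scal (fS k) g = dvg g (cov (fV k) g) := by
  show ∑ i, ∑ j, inv g i j * nab g ((fV k).val g) i (fun _ => j) = _
  unfold dvg
  refine Finset.sum_congr rfl fun i _ => Finset.sum_congr rfl fun j _ => ?_
  congr 1
  unfold nab
  rw [Fin.sum_univ_one]
  congr 1

theorem val_contr {r t : ℕ} (e : Fin t ≃ Option (Option (Fin r))) (T : Fml t)
    (g : Fin n → Fin n → Fn n) (K : Fin r → Fin n) :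
    (Fml.contr e T).val g K = ∑ i, ∑ j, inv g i j
      * T.val g (fun s => (e s).elim i (fun o => o.elim j K)) := rfl

theorem val_mul {r r' t : ℕ} (e : Fin r ⊕ Fin r' ≃ Fin t) (S : Fml r) (T : Fml r')
    (g : Fin n → Fin n → Fn n) (K : Fin t → Fin n) :
    (Fml.mul e S T).val g K = S.val g (fun s => K (e (Sum.inl s)))
      * T.val g (fun s => K (e (Sum.inr s))) := rfl

theorem val_fRic (g : Fin n → Fin n → Fn n) (K : Fin 2 → Fin n) :
    fRic.val g K = ∑ i, ∑ l, inv g i l * rm g ![i, K 0, l, K 1] := by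
  unfold fRic
  rw [val_contr]
  refine Finset.sum_congr rfl fun i _ => Finset.sum_congr rfl fun j _ => ?_
  have h : (fun s => (e4 s).elim i (fun o => o.elim j K)) = ![i, K 0, j, K 1] := by
    funext s
    fin_cases s <;> rfl
  rw [h]
  rfl

theorem scal_fR (g : Fin n → Fin n → Fn n) :
    scal fR g = ∑ i, ∑ j, inv g i j * fRic.val g ![i, j] := by
  unfold scal fR
  rw [val_contr]
  refine Finset.sum_congr rfl fun i _ => Finset.sum_congr rfl fun j _ => ?_
  have h : (fun s => (e2 s).elim i (fun o => o.elim j ![])) = ![i, j] := by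
    funext s
    fin_cases s <;> rfl
  rw [h]

theorem scal_fN (g : Fin n → Fin n → Fn n) :
    scal fN g = ∑ i, ∑ j, inv g i j * ∑ a, ∑ b, inv g a b
      * (fRic.val g ![a, i] * fRic.val g ![b, j]) := by
  unfold scal fN
  rw [val_contr]
  refine Finset.sum_congr rfl fun i _ => Finset.sum_congr rfl fun j _ => ?_
  have h : (fun s => (e2 s).elim i (fun o => o.elim j ![])) = ![i, j] := by
    funext s
    fin_cases s <;> rfl
  rw [h, val_contr]
  congr 1

theorem scal_fH (k : ℕ) (g : Fin n → Fin n → Fn n) :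
    scal (fH k) g = scal fR g ^ k * scal fN g := by
  induction k with
  | zero => rw [pow_zero, one_mul]; rfl
  | succ k ih =>
    have h : scal (fH (k + 1)) g = scal fR g * scal (fH k) g := by
      show fR.val g (fun s => (![] : Fin 0 → Fin n) (e0 (Sum.inl s)))
        * (fH k).val g (fun s => (![] : Fin 0 → Fin n) (e0 (Sum.inr s))) = _
      have h1 : (fun s => (![] : Fin 0 → Fin n) (e0 (Sum.inl s))) = ![] := funext fun s => s.elim0
      have h2 : (fun s => (![] : Fin 0 → Fin n) (e0 (Sum.inr s))) = ![] := funext fun s => s.elim0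
      rw [h1, h2]
      rfl
    rw [h, ih, pow_succ]
    ring

/-! ### functions of one variable -/

/-- the function `F(x_z)` -/
def lift (z : Fin n) (F : ℝ → ℝ) : Fn n := fun x => F (x z)

theorem lift_smooth (z : Fin n) {F : ℝ → ℝ} (hF : ContDiff ℝ (⊤ : ℕ∞) F) : Smooth (lift z F) :=
  hF.comp (contDiff_apply ℝ ℝ z)

theorem lift_per (z : Fin n) {F : ℝ → ℝ} (hF : Function.Periodic F 1) : Per (lift z F) := by
  intro a x
  show F ((x + Pi.single a 1 : Fin n → ℝ) z) = F (x z)
  rw [Pi.add_apply]
  by_cases h : z = a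
  · subst h
    rw [Pi.single_eq_same]
    exact hF _
  · rw [Pi.single_eq_of_ne h, add_zero]

/-- Kronecker symbol -/
def D (i j : Fin n) : ℝ := if i = j then 1 else 0

theorem D_self (i : Fin n) : D i i = 1 := if_pos rfl

theorem D_comm (i j : Fin n) : D i j = D j i := by
  unfold D
  by_cases h : i = j
  · rw [if_pos h, if_pos h.symm]
  · rw [if_neg h, if_neg (Ne.symm h)]

theorem D_mul_self (i j : Fin n) : D i j * D i j = D i j := by
  unfold D
  by_cases h : i = j
  · rw [if_pos h, mul_one]
  · rw [if_neg h, mul_zero]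

theorem sum_D_mul (a : Fin n) (f : Fin n → ℝ) : ∑ i, D i a * f i = f a := by
  rw [Finset.sum_eq_single a]
  · rw [D_self, one_mul]
  · intro b _ hb
    unfold D
    rw [if_neg hb, zero_mul]
  · intro h
    exact absurd (Finset.mem_univ a) h

theorem sum_D_mul' (a : Fin n) (f : Fin n → ℝ) : ∑ i, D a i * f i = f a := by
  rw [← sum_D_mul a f]
  exact Finset.sum_congr rfl fun i _ => by rw [D_comm]

theorem pd_lift (z i : Fin n) {F : ℝ → ℝ} (hF : Differentiable ℝ F) :
    pd i (lift z F) = lift z (D i z • deriv F) := by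
  funext x
  have h1 : HasFDerivAt (lift z F) (deriv F (x z) • (ContinuousLinearMap.proj z :
      (Fin n → ℝ) →L[ℝ] ℝ)) x := by
    have h2 : HasFDerivAt (fun y : Fin n → ℝ => y z) (ContinuousLinearMap.proj z :
      (Fin n → ℝ) →L[ℝ] ℝ) x := (ContinuousLinearMap.proj z :
      (Fin n → ℝ) →L[ℝ] ℝ).hasFDerivAt
    exact (hF (x z)).hasDerivAt.comp_hasFDerivAt x h2
  show fderiv ℝ (lift z F) x (Pi.single i 1) = D i z * deriv F (x z)
  rw [h1.fderiv]
  show deriv F (x z) * (Pi.single i (1 : ℝ) : Fin n → ℝ) z = _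
  rw [mul_comm]
  congr 1
  unfold D
  by_cases h : i = z
  · subst h
    rw [Pi.single_eq_same, if_pos rfl]
  · rw [Pi.single_eq_of_ne (Ne.symm h), if_neg h]

/-! ### the metrics `e^{2u(x_z)} δ` -/

/-- the flat metric -/
def flt (i j : Fin n) : Fn n := fun _ => D i j

theorem det_flt (c : ℝ) : (Matrix.of fun i j : Fin n => c * D i j).det = c ^ n := by
  have h : (Matrix.of fun i j : Fin n => c * D i j) = c • (1 : Matrix (Fin n) (Fin n) ℝ) := by
    ext i j
    rw [Matrix.smul_apply, Matrix.one_apply]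
    rfl
  rw [h, Matrix.det_smul, Matrix.det_one, mul_one, Fintype.card_fin]

theorem conf_flt_apply (U : Fn n) (i j : Fin n) (x : Fin n → ℝ) :
    conf U flt i j x = Real.exp (2 * U x) * D i j := rfl

theorem conf_flt_met {U : Fn n} (hU : TFn U) : TMet (conf U flt) := by
  refine ⟨⟨fun i j => ?_, fun x => ?_⟩, fun i j a x => ?_⟩
  · exact (ContDiff.exp (contDiff_const.mul hU.1)).mul contDiff_const
  · have h : (Matrix.of fun i j => conf U flt i j x)
        = Real.exp (2 * U x) • (1 : Matrix (Fin n) (Fin n) ℝ) := by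
      ext i j
      rw [Matrix.smul_apply, Matrix.one_apply]
      rfl
    rw [h]
    exact Matrix.PosDef.one.smul (Real.exp_pos _)
  · rw [conf_flt_apply, conf_flt_apply, hU.2 a x]

theorem inv_conf_flt (U : Fn n) (i j : Fin n) :
    inv (conf U flt) i j = fun x => Real.exp (-2 * U x) * D i j := by
  funext x
  have h : (Matrix.of fun i j => conf U flt i j x)
      = Real.exp (2 * U x) • (1 : Matrix (Fin n) (Fin n) ℝ) := by
    ext i j
    rw [Matrix.smul_apply, Matrix.one_apply]
    rfl
  have h2 : (Real.exp (2 * U x) • (1 : Matrix (Fin n) (Fin n) ℝ))⁻¹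
      = Real.exp (-2 * U x) • (1 : Matrix (Fin n) (Fin n) ℝ) := by
    refine Matrix.inv_eq_right_inv ?_
    rw [smul_mul_smul_comm, mul_one, ← Real.exp_add]
    have : 2 * U x + -2 * U x = 0 := by ring
    rw [this, Real.exp_zero, one_smul]
  show (Matrix.of fun i j => conf U flt i j x)⁻¹ i j = _
  rw [h, h2, Matrix.smul_apply, Matrix.one_apply]
  rfl

theorem vol_conf_flt (U : Fn n) (x : Fin n → ℝ) : vol (conf U flt) x = Real.exp (n * U x) := by
  show Real.sqrt (Matrix.of fun i j => Real.exp (2 * U x) * D i j).det = _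
  rw [det_flt]
  have h : Real.exp (2 * U x) ^ n = Real.exp (n * U x) ^ 2 := by
    rw [← Real.exp_nat_mul, ← Real.exp_nat_mul]
    congr 1
    push_cast
    ring
  rw [h, Real.sqrt_sq (Real.exp_pos _).le]

/-- the constants in the Christoffel symbols -/
def ep (z l i j : Fin n) : ℝ := D j l * D i z + D i l * D j z - D i j * D l z

section

variable (z : Fin n) {u : ℝ → ℝ} (hu : ContDiff ℝ (⊤ : ℕ∞) u)
include hu

theorem chr_conf (l i j : Fin n) :
    chr (conf (lift z u) flt) l i j = lift z (ep z l i j • deriv u) := by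
  have hd : Differentiable ℝ u := hu.differentiable (by simp)
  have h1 : ∀ a b c : Fin n, pd a (conf (lift z u) flt b c)
      = lift z (fun t => 2 * deriv u t * Real.exp (2 * u t) * D a z * D b c) := by
    intro a b c
    have e1 : conf (lift z u) flt b c = lift z (fun t => Real.exp (2 * u t) * D b c) := rfl
    have e2 : ∀ t, HasDerivAt (fun t => Real.exp (2 * u t) * D b c)
        (Real.exp (2 * u t) * (2 * deriv u t) * D b c) t := fun t =>
      (((hd t).hasDerivAt.const_mul 2).exp).mul_const _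
    rw [e1, pd_lift z a (fun t => (e2 t).differentiableAt)]
    funext x
    show D a z * deriv (fun t => Real.exp (2 * u t) * D b c) (x z) = _
    rw [(e2 (x z)).deriv]
    show _ = 2 * deriv u (x z) * Real.exp (2 * u (x z)) * D a z * D b c
    ring
  unfold chr
  simp only [h1, inv_conf_flt]
  funext x
  simp only [Pi.smul_apply, Finset.sum_apply, Pi.mul_apply, Pi.add_apply, Pi.sub_apply, lift,
    smul_eq_mul]
  have h2 : ∀ p, Real.exp (-2 * u (x z)) * D l p *
      (2 * deriv u (x z) * Real.exp (2 * u (x z)) * D i z * D j p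
        + 2 * deriv u (x z) * Real.exp (2 * u (x z)) * D j z * D i p
        - 2 * deriv u (x z) * Real.exp (2 * u (x z)) * D p z * D i j)
      = D l p * (2 * deriv u (x z) * (D i z * D j p + D j z * D i p - D p z * D i j)) := by
    intro p
    have e3 : Real.exp (-2 * u (x z)) * Real.exp (2 * u (x z)) = 1 := by
      rw [← Real.exp_add]
      have : -2 * u (x z) + 2 * u (x z) = 0 := by ring
      rw [this, Real.exp_zero]
    linear_combination (D l p * (2 * deriv u (x z)
      * (D i z * D j p + D j z * D i p - D p z * D i j))) * e3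
  rw [Finset.sum_congr rfl fun p _ => h2 p, sum_D_mul']
  unfold ep
  ring

end

/-! ### sums of constants -/

theorem ep_sum1 (z j m : Fin n) : ∑ i, D i z * ep z i j m = 2 * (D j z * D m z) - D j m := by
  rw [sum_D_mul]
  unfold ep
  rw [D_self]
  ring

theorem sum_D_self : ∑ i : Fin n, D i i = (n : ℝ) := by
  rw [Finset.sum_congr rfl fun i _ => D_self i, Finset.sum_const, Finset.card_univ,
    Fintype.card_fin, nsmul_eq_mul, mul_one]

theorem ep_sum2 (z m : Fin n) : ∑ i, ep z i i m = n * D m z := by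
  unfold ep
  rw [Finset.sum_sub_distrib, Finset.sum_add_distrib, sum_D_mul' m (fun i => D i z),
    ← Finset.sum_mul, sum_D_self]
  have : ∑ i, D i m * D i z = D m z := sum_D_mul m (fun i => D i z)
  rw [this]
  ring

theorem ep_sum3 (z j m : Fin n) :
    ∑ i, ∑ q, ep z i i q * ep z q j m = n * (2 * (D j z * D m z) - D j m) := by
  rw [Finset.sum_comm, ← ep_sum1, Finset.mul_sum]
  refine Finset.sum_congr rfl fun q _ => ?_
  rw [← Finset.sum_mul, ep_sum2]
  ring

theorem ep_sum4 (z j m : Fin n) :
    ∑ i, ∑ q, ep z i j q * ep z q i m = (n + 2) * (D j z * D m z) - 2 * D j m := by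
  have h1 : ∀ i, ∑ q, ep z i j q * ep z q i m
      = D j z * ep z i i m + D j i * ep z z i m - D i z * ep z j i m := by
    intro i
    have e1 : ∀ q, ep z i j q * ep z q i m
        = D j z * (D q i * ep z q i m) + D j i * (D q z * ep z q i m)
          - D i z * (D j q * ep z q i m) := by
      intro q
      unfold ep
      ring
    rw [Finset.sum_congr rfl fun q _ => e1 q, Finset.sum_sub_distrib, Finset.sum_add_distrib,
      ← Finset.mul_sum, ← Finset.mul_sum, ← Finset.mul_sum, sum_D_mul, sum_D_mul, sum_D_mul']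
  rw [Finset.sum_congr rfl fun i _ => h1 i, Finset.sum_sub_distrib, Finset.sum_add_distrib,
    ← Finset.mul_sum, ep_sum2, sum_D_mul', sum_D_mul]
  unfold ep
  rw [D_self, D_comm m z, D_comm z j, D_comm z m, D_comm m j]
  ring

section

variable (z : Fin n) {u : ℝ → ℝ} (hu : ContDiff ℝ (⊤ : ℕ∞) u)
include hu

theorem hd1 : ContDiff ℝ (⊤ : ℕ∞) (deriv u) := by
  exact (contDiff_infty_iff_deriv.mp hu).2

/-- the Ricci tensor of `e^{2u} δ` -/
theorem ric_conf (K : Fin 2 → Fin n) :
    fRic.val (conf (lift z u) flt) K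
      = lift z (fun t => -(D (K 0) (K 1)) * (deriv (deriv u) t + (n - 2) * deriv u t ^ 2)
          - (n - 2) * (D (K 0) z * D (K 1) z) * (deriv (deriv u) t - deriv u t ^ 2)) := by
  have hd : Differentiable ℝ (deriv u) := (hd1 hu).differentiable (by simp)
  rw [val_fRic]
  have h1 : ∀ a l i j, pd a (lift z (ep z l i j • deriv u))
      = lift z (fun t => D a z * ep z l i j * deriv (deriv u) t) := by
    intro a l i j
    rw [pd_lift z a (hd.const_smul _)]
    funext x
    show D a z * deriv (ep z l i j • deriv u) (x z) = D a z * ep z l i j * deriv (deriv u) (x z)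
    rw [deriv_const_smul _ (hd _), smul_eq_mul]
    ring
  have h2 : ∀ i l, inv (conf (lift z u) flt) i l * rm (conf (lift z u) flt) ![i, K 0, l, K 1]
      = fun x => D i l * (∑ p, D l p * ((D i z * ep z p (K 0) (K 1)
          - D (K 0) z * ep z p i (K 1)) * deriv (deriv u) (x z)
          + deriv u (x z) ^ 2 * ∑ q, (ep z p i q * ep z q (K 0) (K 1)
            - ep z p (K 0) q * ep z q i (K 1)))) := by
    intro i l
    funext x
    rw [Pi.mul_apply, inv_conf_flt]
    unfold rm
    simp only [chr_conf z hu, h1, Matrix.cons_val_zero, Matrix.cons_val_one, Matrix.cons_val,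
      Finset.sum_apply, Pi.mul_apply, Pi.add_apply, Pi.sub_apply, conf_flt_apply, lift,
      Pi.smul_apply, smul_eq_mul]
    have e3 : Real.exp (-2 * u (x z)) * Real.exp (2 * u (x z)) = 1 := by
      rw [← Real.exp_add]
      have : -2 * u (x z) + 2 * u (x z) = 0 := by ring
      rw [this, Real.exp_zero]
    rw [Finset.mul_sum, Finset.mul_sum]
    refine Finset.sum_congr rfl fun p _ => ?_
    have e4 : ∑ q, (ep z p i q * deriv u (x z) * (ep z q (K 0) (K 1) * deriv u (x z))
        - ep z p (K 0) q * deriv u (x z) * (ep z q i (K 1) * deriv u (x z)))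
        = deriv u (x z) ^ 2 * ∑ q, (ep z p i q * ep z q (K 0) (K 1)
            - ep z p (K 0) q * ep z q i (K 1)) := by
      rw [Finset.mul_sum]
      exact Finset.sum_congr rfl fun q _ => by ring
    rw [e4]
    linear_combination (D i l * (D l p * ((D i z * ep z p (K 0) (K 1)
          - D (K 0) z * ep z p i (K 1)) * deriv (deriv u) (x z)
          + deriv u (x z) ^ 2 * ∑ q, (ep z p i q * ep z q (K 0) (K 1)
            - ep z p (K 0) q * ep z q i (K 1))))) * e3
  rw [Finset.sum_congr rfl fun i _ => Finset.sum_congr rfl fun l _ => h2 i l]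
  funext x
  simp only [Finset.sum_apply]
  rw [Finset.sum_congr rfl fun i _ => sum_D_mul' i _]
  rw [Finset.sum_congr rfl fun i _ => sum_D_mul' i _]
  rw [Finset.sum_add_distrib, ← Finset.sum_mul, ← Finset.mul_sum, Finset.sum_sub_distrib,
    ep_sum1, ← Finset.mul_sum, ep_sum2]
  rw [Finset.sum_congr rfl fun i _ => Finset.sum_sub_distrib _ _, Finset.sum_sub_distrib,
    ep_sum3, ep_sum4]
  show _ = -(D (K 0) (K 1)) * (deriv (deriv u) (x z) + (n - 2) * deriv u (x z) ^ 2)
          - (n - 2) * (D (K 0) z * D (K 1) z) * (deriv (deriv u) (x z) - deriv u (x z) ^ 2)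
  ring

end

end Run7.h96.Nd
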