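import Pool.Agent.Run7.h96.Nd3

/-!
Natural densities: the values of `Δ(R^k |Ric|²)` on the metrics `e^{2u(x_z)} δ`, and integrals.
-/

set_option linter.all false

open scoped BigOperators
open MeasureTheory

namespace Run7.h96.Nd

variable {n : ℕ}

/-- the polynomial of `e^{2u} R` -/
def rr (ν p q : ℝ) : ℝ := -(ν - 1) * (2 * q + (ν - 2) * p ^ 2)

/-- the polynomial of `e^{4u} |Ric|²` -/
def nn (ν p q : ℝ) : ℝ := (ν - 1) ^ 2 * q ^ 2 + (ν - 1) * (q + (ν - 2) * p ^ 2) ^ 2

/-- the polynomial of `e^{(2k+4)u} R^k |Ric|²` -/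
def hh (ν : ℝ) (k : ℕ) (p q : ℝ) : ℝ := rr ν p q ^ k * nn ν p q

theorem exp_mul' (a b : ℝ) : Real.exp a * Real.exp b = Real.exp (a + b) := (Real.exp_add a b).symm

section

variable (z : Fin n) {u : ℝ → ℝ} (hu : ContDiff ℝ (⊤ : ℕ∞) u)
include hu

theorem scal_fR_conf : scal fR (conf (lift z u) flt)
    = lift z (fun t => Real.exp (-2 * u t) * rr n (deriv u t) (deriv (deriv u) t)) := by
  rw [scal_fR]
  funext x
  simp only [Finset.sum_apply, Pi.mul_apply, inv_conf_flt, ric_conf z hu, lift,
    Matrix.cons_val_zero, Matrix.cons_val_one, Matrix.cons_val]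
  have h : ∀ i j : Fin n, Real.exp (-2 * u (x z)) * D i j *
      (-(D i j) * (deriv (deriv u) (x z) + (n - 2) * deriv u (x z) ^ 2)
          - (n - 2) * (D i z * D j z) * (deriv (deriv u) (x z) - deriv u (x z) ^ 2))
      = D i j * (Real.exp (-2 * u (x z)) *
        (-(D i j) * (deriv (deriv u) (x z) + (n - 2) * deriv u (x z) ^ 2)
          - (n - 2) * (D i z * D j z) * (deriv (deriv u) (x z) - deriv u (x z) ^ 2))) := by
    intro i j; ring
  rw [Finset.sum_congr rfl fun i _ => Finset.sum_congr rfl fun j _ => h i j,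
    Finset.sum_congr rfl fun i _ => sum_D_mul' i _, ← Finset.mul_sum, Finset.sum_sub_distrib,
    ← Finset.sum_mul, Finset.sum_neg_distrib, sum_D_self, ← Finset.sum_mul, ← Finset.mul_sum,
    sum_D_mul, D_self]
  unfold rr
  ring

theorem scal_fN_conf : scal fN (conf (lift z u) flt)
    = lift z (fun t => Real.exp (-4 * u t) * nn n (deriv u t) (deriv (deriv u) t)) := by
  rw [scal_fN]
  funext x
  simp only [Finset.sum_apply, Pi.mul_apply, inv_conf_flt, ric_conf z hu, lift,
    Matrix.cons_val_zero, Matrix.cons_val_one, Matrix.cons_val]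
  set A : ℝ := deriv (deriv u) (x z) + (n - 2) * deriv u (x z) ^ 2 with hA
  set B : ℝ := deriv (deriv u) (x z) - deriv u (x z) ^ 2 with hB
  have h : ∀ i j a b : Fin n, Real.exp (-2 * u (x z)) * D a b *
      ((-(D a i) * A - (n - 2) * (D a z * D i z) * B)
        * (-(D b j) * A - (n - 2) * (D b z * D j z) * B))
      = D a b * (Real.exp (-2 * u (x z)) *
      ((-(D a i) * A - (n - 2) * (D a z * D i z) * B)
        * (-(D b j) * A - (n - 2) * (D b z * D j z) * B))) := by
    intro i j a b; ring
  rw [Finset.sum_congr rfl fun i _ => Finset.sum_congr rfl fun j _ => by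
    rw [Finset.sum_congr rfl fun a _ => Finset.sum_congr rfl fun b _ => h i j a b,
      Finset.sum_congr rfl fun a _ => sum_D_mul' a _]]
  have h2 : ∀ i j : Fin n, Real.exp (-2 * u (x z)) * D i j *
      ∑ a, Real.exp (-2 * u (x z)) * ((-(D a i) * A - (n - 2) * (D a z * D i z) * B)
        * (-(D a j) * A - (n - 2) * (D a z * D j z) * B))
      = D i j * (Real.exp (-2 * u (x z)) *
        ∑ a, Real.exp (-2 * u (x z)) * ((-(D a i) * A - (n - 2) * (D a z * D i z) * B)
        * (-(D a j) * A - (n - 2) * (D a z * D j z) * B))) := by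
    intro i j; ring
  rw [Finset.sum_congr rfl fun i _ => Finset.sum_congr rfl fun j _ => h2 i j,
    Finset.sum_congr rfl fun i _ => sum_D_mul' i _, ← Finset.mul_sum]
  have h3 : ∀ i a : Fin n, Real.exp (-2 * u (x z)) *
      ((-(D a i) * A - (n - 2) * (D a z * D i z) * B)
        * (-(D a i) * A - (n - 2) * (D a z * D i z) * B))
      = Real.exp (-2 * u (x z)) * (D a i * (A ^ 2 + 2 * (n - 2) * A * B * (D a z * D i z))
        + D a z * ((n - 2) ^ 2 * B ^ 2 * D i z)) := by
    intro i a
    have e1 := D_mul_self a i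
    have e2 := D_mul_self a z
    have e3 := D_mul_self i z
    linear_combination (Real.exp (-2 * u (x z))) * (A ^ 2 * e1
      + (n - 2) ^ 2 * B ^ 2 * (D i z * D i z) * e2 + (n - 2) ^ 2 * B ^ 2 * D a z * e3)
  rw [Finset.sum_congr rfl fun i _ => by
    rw [Finset.sum_congr rfl fun a _ => h3 i a, ← Finset.mul_sum, Finset.sum_add_distrib,
      sum_D_mul, sum_D_mul z (fun _ => (n - 2) ^ 2 * B ^ 2 * D i z)]]
  rw [← Finset.mul_sum, Finset.sum_add_distrib, Finset.sum_add_distrib, ← Finset.mul_sum,
    ← Finset.mul_sum, Finset.sum_congr rfl fun i _ => D_mul_self i z, Finset.sum_const,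
    Finset.card_univ, Fintype.card_fin, nsmul_eq_mul]
  have h4 : ∑ i, D i z = 1 := by
    have := sum_D_mul z (fun _ => (1 : ℝ))
    simpa using this
  have h5 : Real.exp (-4 * u (x z)) = Real.exp (-2 * u (x z)) * Real.exp (-2 * u (x z)) := by
    rw [exp_mul']; congr 1; ring
  rw [h4, h5]
  unfold nn
  rw [hA, hB]
  ring

theorem scal_fH_conf (k : ℕ) : scal (fH k) (conf (lift z u) flt)
    = lift z (fun t => Real.exp (-((2 * k + 4 : ℕ) : ℝ) * u t)
        * hh n k (deriv u t) (deriv (deriv u) t)) := by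
  rw [scal_fH, scal_fR_conf z hu, scal_fN_conf z hu]
  funext x
  simp only [Pi.mul_apply, Pi.pow_apply, lift, mul_pow]
  have h : Real.exp (-((2 * k + 4 : ℕ) : ℝ) * u (x z))
      = Real.exp (-2 * u (x z)) ^ k * Real.exp (-4 * u (x z)) := by
    rw [← Real.exp_nat_mul, exp_mul']
    congr 1
    push_cast
    ring
  rw [h]
  unfold hh
  ring

/-- the Laplacian of a function of one variable -/
theorem lap_conf {f : ℝ → ℝ} (hf : ContDiff ℝ (⊤ : ℕ∞) f) :
    dvg (conf (lift z u) flt) (fun i => pd i (lift z f))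
      = lift z (fun t => Real.exp (-2 * u t)
        * (deriv (deriv f) t + (n - 2) * deriv u t * deriv f t)) := by
  have hfd : Differentiable ℝ f := hf.differentiable (by simp)
  have hfd1 : Differentiable ℝ (deriv f) := (hd1 hf).differentiable (by simp)
  have h1 : ∀ a b, pd a (lift z (D b z • deriv f)) = lift z (fun t => D a z * D b z * deriv (deriv f) t) := by
    intro a b
    rw [pd_lift z a (hfd1.const_smul _)]
    funext x
    show D a z * deriv (D b z • deriv f) (x z) = D a z * D b z * deriv (deriv f) (x z)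
    rw [deriv_const_smul _ (hfd1 _), smul_eq_mul]
    ring
  unfold dvg
  simp only [pd_lift z _ hfd, h1, chr_conf z hu, inv_conf_flt]
  funext x
  simp only [Finset.sum_apply, Pi.mul_apply, Pi.sub_apply, Pi.smul_apply, lift, smul_eq_mul]
  have h2 : ∀ a b : Fin n, Real.exp (-2 * u (x z)) * D a b * (D a z * D b z * deriv (deriv f) (x z)
      - ∑ c, ep z c a b * deriv u (x z) * (D c z * deriv f (x z)))
      = D a b * (Real.exp (-2 * u (x z)) * (D a z * D b z * deriv (deriv f) (x z)
        - ep z z a b * deriv u (x z) * deriv f (x z))) := by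
    intro a b
    have e1 : ∑ c, ep z c a b * deriv u (x z) * (D c z * deriv f (x z))
        = ∑ c, D c z * (ep z c a b * deriv u (x z) * deriv f (x z)) :=
      Finset.sum_congr rfl fun c _ => by ring
    rw [e1, sum_D_mul]
    ring
  rw [Finset.sum_congr rfl fun a _ => Finset.sum_congr rfl fun b _ => h2 a b,
    Finset.sum_congr rfl fun a _ => sum_D_mul' a _, ← Finset.mul_sum]
  congr 1
  have h3 : ∀ a : Fin n, D a z * D a z * deriv (deriv f) (x z)
      - ep z z a a * deriv u (x z) * deriv f (x z)
      = D a z * (deriv (deriv f) (x z) - 2 * deriv u (x z) * deriv f (x z))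
        + D a a * (deriv u (x z) * deriv f (x z)) := by
    intro a
    have e1 := D_mul_self a z
    unfold ep
    rw [D_self z]
    linear_combination (deriv (deriv f) (x z)) * e1 - 2 * deriv u (x z) * deriv f (x z) * e1
  rw [Finset.sum_congr rfl fun a _ => h3 a, Finset.sum_add_distrib, sum_D_mul, ← Finset.sum_mul,
    sum_D_self]
  ring

end

/-! ### integrals of functions of one variable -/

theorem cube_lift (z : Fin n) {F : ℝ → ℝ} (hF : Continuous F) :
    cube (lift z F) = ∫ t in (0 : ℝ)..1, F t := by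
  have h1 : (volume : Measure (Fin n → ℝ)).restrict (Set.Icc 0 1)
      = Measure.pi (fun _ : Fin n => (volume : Measure ℝ).restrict (Set.Icc 0 1)) := by
    rw [← Set.pi_univ_Icc, volume_pi, Measure.restrict_pi_pi]
    rfl
  haveI : IsProbabilityMeasure ((volume : Measure ℝ).restrict (Set.Icc (0 : ℝ) 1)) :=
    ⟨by rw [Measure.restrict_apply_univ, Real.volume_Icc]; norm_num⟩
  have h2 := measurePreserving_eval
    (fun _ : Fin n => (volume : Measure ℝ).restrict (Set.Icc (0 : ℝ) 1)) z
  have h3 : ∫ y, F y ∂((volume : Measure ℝ).restrict (Set.Icc (0 : ℝ) 1))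
      = ∫ x, F (Function.eval z x) ∂(Measure.pi
        (fun _ : Fin n => (volume : Measure ℝ).restrict (Set.Icc (0 : ℝ) 1))) := by
    rw [← integral_map h2.measurable.aemeasurable hF.aestronglyMeasurable, h2.map_eq]
  unfold cube
  rw [intervalIntegral.integral_of_le zero_le_one, ← integral_Icc_eq_integral_Ioc, h3, h1]
  rfl

/-- integration by parts for periodic functions -/
theorem int_parts {f g f' g' : ℝ → ℝ} (hf : ∀ t, HasDerivAt f (f' t) t)
    (hg : ∀ t, HasDerivAt g (g' t) t) (hf' : Continuous f') (hg' : Continuous g')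
    (pf : f 1 = f 0) (pg : g 1 = g 0) :
    ∫ t in (0 : ℝ)..1, f t * g' t = - ∫ t in (0 : ℝ)..1, f' t * g t := by
  have h := intervalIntegral.integral_mul_deriv_eq_deriv_mul (a := (0 : ℝ)) (b := 1)
    (fun t _ => hf t) (fun t _ => hg t) (hf'.intervalIntegrable 0 1) (hg'.intervalIntegrable 0 1)
  rw [h, pf, pg]
  ring

/-- the variation of the conformal factor paired with `Δ(R^k |Ric|²)` -/
theorem pair_conf (z : Fin n) {k : ℕ} (hn : n = 2 * k + 6) {u w : ℝ → ℝ}
    (hu : ContDiff ℝ (⊤ : ℕ∞) u) (hw : ContDiff ℝ (⊤ : ℕ∞) w) (pu : Function.Periodic u 1)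
    (pw : Function.Periodic w 1) :
    tint (conf (lift z u) flt) (lift z w * scal (fS k) (conf (lift z u) flt))
      = ∫ t in (0 : ℝ)..1, (deriv (deriv w) t + (n - 2) * deriv u t * deriv w t)
        * hh n k (deriv u t) (deriv (deriv u) t) := by
  set H : ℝ → ℝ := fun t => hh n k (deriv u t) (deriv (deriv u) t) with hH
  set f : ℝ → ℝ := fun t => Real.exp (-((2 * k + 4 : ℕ) : ℝ) * u t) * H t with hf
  set G : ℝ → ℝ := fun t => deriv H t - (n - 2) * deriv u t * H t with hG
  have cu1 := hd1 hu
  have cu2 := hd1 cu1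
  have cw1 := hd1 hw
  have cw2 := hd1 cw1
  have cH : ContDiff ℝ (⊤ : ℕ∞) H := by
    rw [hH]
    unfold hh rr nn
    fun_prop
  have cH1 := hd1 cH
  have cf : ContDiff ℝ (⊤ : ℕ∞) f := by
    rw [hf]
    fun_prop
  have cG : ContDiff ℝ (⊤ : ℕ∞) G := by
    rw [hG]
    fun_prop
  have dif : ∀ {F : ℝ → ℝ}, ContDiff ℝ (⊤ : ℕ∞) F → Differentiable ℝ F := fun h =>
    h.differentiable (by simp)
  have per : ∀ {F : ℝ → ℝ}, Function.Periodic F 1 → Function.Periodic (deriv F) 1 := by
    intro F hF t
    have : (fun s => F (s + 1)) = F := funext hF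
    rw [← deriv_comp_add_const, this]
  have pu1 := per pu
  have pu2 := per pu1
  have pw1 := per pw
  have pH : Function.Periodic H 1 := fun t => by
    show hh n k (deriv u (t + 1)) (deriv (deriv u) (t + 1)) = _
    rw [pu1 t, pu2 t]
  have pH1 := per pH
  have pG : Function.Periodic G 1 := fun t => by
    show deriv H (t + 1) - (n - 2) * deriv u (t + 1) * H (t + 1) = _
    rw [pu1 t, pH t, pH1 t]
  have hnu : (n : ℝ) - 2 = ((2 * k + 4 : ℕ) : ℝ) := by
    rw [hn]; push_cast; ring
  -- the derivative of f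
  have hf1 : ∀ t, HasDerivAt f (Real.exp (-(n - 2) * u t) * G t) t := by
    intro t
    have e1 : HasDerivAt (fun t => Real.exp (-((2 * k + 4 : ℕ) : ℝ) * u t))
        (Real.exp (-((2 * k + 4 : ℕ) : ℝ) * u t) * (-((2 * k + 4 : ℕ) : ℝ) * deriv u t)) t :=
      ((dif hu t).hasDerivAt.const_mul _).exp
    have e2 := e1.mul (dif cH t).hasDerivAt
    refine HasDerivAt.congr_deriv (f := f) e2 ?_
    show _ = Real.exp (-(n - 2) * u t) * (deriv H t - (n - 2) * deriv u t * H t)
    rw [← hnu]
    ring
  have hf1' : deriv f = fun t => Real.exp (-(n - 2) * u t) * G t := funext fun t => (hf1 t).deriv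
  have hf2 : ∀ t, HasDerivAt (deriv f) (Real.exp (-(n - 2) * u t)
      * (deriv G t - (n - 2) * deriv u t * G t)) t := by
    intro t
    rw [hf1']
    have e1 : HasDerivAt (fun t => Real.exp (-((n : ℝ) - 2) * u t))
        (Real.exp (-((n : ℝ) - 2) * u t) * (-((n : ℝ) - 2) * deriv u t)) t :=
      ((dif hu t).hasDerivAt.const_mul _).exp
    have e2 := e1.mul (dif cG t).hasDerivAt
    refine HasDerivAt.congr_deriv (f := fun t => Real.exp (-((n : ℝ) - 2) * u t) * G t) e2 ?_
    ring
  have hS : scal (fS k) (conf (lift z u) flt)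
      = lift z (fun t => Real.exp (-n * u t) * deriv G t) := by
    have e1 : cov (fV k) (conf (lift z u) flt) = fun i => pd i (lift z f) := by
      funext i
      rw [cov_fV, scal_fH_conf z hu]
    rw [scal_fS, e1, lap_conf z hu cf]
    funext x
    show Real.exp (-2 * u (x z)) * (deriv (deriv f) (x z) + (n - 2) * deriv u (x z) * deriv f (x z))
      = Real.exp (-n * u (x z)) * deriv G (x z)
    rw [(hf2 (x z)).deriv, hf1']
    have e3 : Real.exp (-n * u (x z)) = Real.exp (-2 * u (x z)) * Real.exp (-(n - 2) * u (x z)) := by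
      rw [exp_mul']; congr 1; ring
    rw [e3]
    ring
  have h1 : tint (conf (lift z u) flt) (lift z w * scal (fS k) (conf (lift z u) flt))
      = cube (lift z (fun t => w t * deriv G t)) := by
    unfold tint cube
    refine setIntegral_congr_fun measurableSet_Icc fun x _ => ?_
    have e1 : Real.sqrt (Matrix.of fun i j => conf (lift z u) flt i j x).det
        = Real.exp (n * u (x z)) := vol_conf_flt (lift z u) x
    show (lift z w x * scal (fS k) (conf (lift z u) flt) x)
      * Real.sqrt (Matrix.of fun i j => conf (lift z u) flt i j x).det = _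
    rw [e1, hS]
    show w (x z) * (Real.exp (-n * u (x z)) * deriv G (x z)) * Real.exp (n * u (x z))
      = w (x z) * deriv G (x z)
    have e2 : Real.exp (-n * u (x z)) * Real.exp (n * u (x z)) = 1 := by
      rw [exp_mul']
      have : -n * u (x z) + n * u (x z) = 0 := by ring
      rw [this, Real.exp_zero]
    linear_combination (w (x z) * deriv G (x z)) * e2
  rw [h1, cube_lift z (by
    have := (hd1 cG).continuous
    have := hw.continuous
    fun_prop)]
  have per1 : ∀ {F : ℝ → ℝ}, Function.Periodic F 1 → F 1 = F 0 := by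
    intro F hF
    have := hF 0
    rwa [zero_add] at this
  have hw0 : ∀ t, HasDerivAt w (deriv w t) t := fun t => (dif hw t).hasDerivAt
  have hw1 : ∀ t, HasDerivAt (deriv w) (deriv (deriv w) t) t := fun t => (dif cw1 t).hasDerivAt
  have hG1 : ∀ t, HasDerivAt G (deriv G t) t := fun t => (dif cG t).hasDerivAt
  have hH1 : ∀ t, HasDerivAt H (deriv H t) t := fun t => (dif cH t).hasDerivAt
  rw [int_parts hw0 hG1 cw1.continuous (hd1 cG).continuous (per1 pw) (per1 pG)]
  have e1 : ∫ t in (0 : ℝ)..1, deriv w t * G t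
      = (∫ t in (0 : ℝ)..1, deriv w t * deriv H t)
        - ∫ t in (0 : ℝ)..1, (n - 2) * deriv u t * deriv w t * H t := by
    rw [← intervalIntegral.integral_sub]
    · refine intervalIntegral.integral_congr fun t _ => ?_
      show deriv w t * (deriv H t - (n - 2) * deriv u t * H t) = _
      ring
    · exact ((cw1.continuous).mul cH1.continuous).intervalIntegrable 0 1
    · exact (((continuous_const.mul cu1.continuous).mul cw1.continuous).mul
        cH.continuous).intervalIntegrable 0 1
  have e2 := int_parts hw1 hH1 cw2.continuous cH1.continuous (per1 pw1) (per1 pH)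
  rw [e1, e2]
  have e3 : ∫ t in (0 : ℝ)..1, (deriv (deriv w) t + (n - 2) * deriv u t * deriv w t) * H t
      = (∫ t in (0 : ℝ)..1, deriv (deriv w) t * H t)
        + ∫ t in (0 : ℝ)..1, (n - 2) * deriv u t * deriv w t * H t := by
    rw [← intervalIntegral.integral_add]
    · refine intervalIntegral.integral_congr fun t _ => ?_
      show (deriv (deriv w) t + (n - 2) * deriv u t * deriv w t) * H t = _
      ring
    · exact ((cw2.continuous).mul cH.continuous).intervalIntegrable 0 1
    · exact (((continuous_const.mul cu1.continuous).mul cw1.continuous).mul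
        cH.continuous).intervalIntegrable 0 1
  rw [e3]
  ring

end Run7.h96.Nd
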