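import Pool.Agent.Run7.h96.Nd4

/-!
Natural densities: closed forms in two parameters, and the defect of `Δ(R^k |Ric|²)`.
-/

set_option linter.all false

open scoped BigOperators
open MeasureTheory

namespace Run7.h96.Nd

/-- mixed partial derivatives -/
theorem closed {Φ a b : ℝ → ℝ → ℝ} (h1 : ∀ s t, HasDerivAt (fun s => Φ s t) (a s t) s)
    (h2 : ∀ s t, HasDerivAt (fun t => Φ s t) (b s t) t)
    (ha : ContDiff ℝ 1 (fun x : ℝ × ℝ => a x.1 x.2))
    (hb : ContDiff ℝ 1 (fun x : ℝ × ℝ => b x.1 x.2)) {s t a' b' : ℝ}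
    (hat : HasDerivAt (fun t => a s t) a' t) (hbs : HasDerivAt (fun s => b s t) b' s) :
    a' = b' := by
  let f' : ℝ × ℝ → (ℝ × ℝ →L[ℝ] ℝ) := fun x =>
    (a x.1 x.2) • ContinuousLinearMap.fst ℝ ℝ ℝ + (b x.1 x.2) • ContinuousLinearMap.snd ℝ ℝ ℝ
  have hf : ∀ x : ℝ × ℝ, HasFDerivAt (fun x : ℝ × ℝ => Φ x.1 x.2) (f' x) x := by
    intro x
    have h := hasStrictFDerivAt_uncurry_coprod (𝕜 := ℝ) (u := x) (f := Φ)
      (f₁ := fun s t => ContinuousLinearMap.toSpanSingleton ℝ (a s t))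
      (f₂ := fun s t => ContinuousLinearMap.toSpanSingleton ℝ (b s t))
      (Filter.Eventually.of_forall fun v => (h1 v.1 v.2).hasFDerivAt)
      (Filter.Eventually.of_forall fun v => (h2 v.1 v.2).hasFDerivAt)
      (((ContinuousLinearMap.toSpanSingletonCLE (𝕜 := ℝ) (E := ℝ)).continuous.comp
        ha.continuous).continuousAt)
      (((ContinuousLinearMap.toSpanSingletonCLE (𝕜 := ℝ) (E := ℝ)).continuous.comp
        hb.continuous).continuousAt)
    refine h.hasFDerivAt.congr_fderiv ?_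
    ext
    · simp [f', Function.HasUncurry.uncurry]
    · simp [f', Function.HasUncurry.uncurry]
  have hf'' : HasFDerivAt f' (fderiv ℝ f' (s, t)) (s, t) := by
    have : ContDiff ℝ 1 f' := (ha.smul contDiff_const).add (hb.smul contDiff_const)
    exact (this.differentiable (by simp) (s, t)).hasFDerivAt
  have hsym := second_derivative_symmetric (𝕜 := ℝ) hf hf'' (0, 1) (1, 0)
  have key : ∀ v : ℝ × ℝ, HasFDerivAt (fun x => f' x v)
      ((ContinuousLinearMap.apply ℝ ℝ v).comp (fderiv ℝ f' (s, t))) (s, t) := fun v =>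
    (ContinuousLinearMap.apply ℝ ℝ v).hasFDerivAt.comp (s, t) hf''
  have k1 : fderiv ℝ f' (s, t) (0, 1) (1, 0) = a' := by
    have e1 := key (1, 0)
    have e2 : HasDerivAt (fun τ : ℝ => (s, τ)) ((0 : ℝ), (1 : ℝ)) t :=
      (hasDerivAt_const t s).prodMk (hasDerivAt_id t)
    have e3 := e1.comp_hasDerivAt t e2
    have e4 : (fun x => f' x (1, 0)) ∘ (fun τ : ℝ => (s, τ)) = fun t => a s t := by
      funext τ
      simp [f']
    rw [e4] at e3
    exact e3.unique hat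
  have k2 : fderiv ℝ f' (s, t) (1, 0) (0, 1) = b' := by
    have e1 := key (0, 1)
    have e2 : HasDerivAt (fun σ : ℝ => (σ, t)) ((1 : ℝ), (0 : ℝ)) s :=
      (hasDerivAt_id s).prodMk (hasDerivAt_const s t)
    have e3 := e1.comp_hasDerivAt s e2
    have e4 : (fun x => f' x (0, 1)) ∘ (fun σ : ℝ => (σ, t)) = fun s => b s t := by
      funext σ
      simp [f']
    rw [e4] at e3
    exact e3.unique hbs
  rw [← k1, ← k2]
  exact hsym

/-! ### the defect in a Banach algebra -/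

section Alg

variable {A : Type} [NormedCommRing A] [NormedAlgebra ℝ A]

def rA (ν : ℝ) (p q : A) : A := (-(ν - 1)) • ((2 : ℝ) • q + (ν - 2) • p ^ 2)

def nA (ν : ℝ) (p q : A) : A := ((ν - 1) ^ 2) • q ^ 2 + (ν - 1) • (q + (ν - 2) • p ^ 2) ^ 2

def hA (ν : ℝ) (k : ℕ) (p q : A) : A := rA ν p q ^ k * nA ν p q

/-- the derivatives of `rA`, `nA`, `hA` at `(p, q)` in the direction `(dp, dq)` -/
def drA (ν : ℝ) (p dp dq : A) : A := (-(ν - 1)) • ((2 : ℝ) • dq + (ν - 2) • (2 * p * dp))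

def dnA (ν : ℝ) (p q dp dq : A) : A := ((ν - 1) ^ 2) • (2 * q * dq)
  + (ν - 1) • (2 * (q + (ν - 2) • p ^ 2) * (dq + (ν - 2) • (2 * p * dp)))

def dhA (ν : ℝ) (k : ℕ) (p q dp dq : A) : A :=
  ((k : A) * rA ν p q ^ (k - 1) * drA ν p dp dq) * nA ν p q + rA ν p q ^ k * dnA ν p q dp dq

theorem hasDeriv_hA (ν : ℝ) (k : ℕ) {p q : ℝ → A} {p' q' : A} {t : ℝ} (hp : HasDerivAt p p' t)
    (hq : HasDerivAt q q' t) :
    HasDerivAt (fun t => hA ν k (p t) (q t)) (dhA ν k (p t) (q t) p' q') t := by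
  have hp2 : HasDerivAt (fun t => (p t) ^ 2) (2 * p t * p') t := by
    have := hp.fun_pow 2
    simpa using this
  have hq2 : HasDerivAt (fun t => (q t) ^ 2) (2 * q t * q') t := by
    have := hq.fun_pow 2
    simpa using this
  have hr : HasDerivAt (fun t => rA ν (p t) (q t)) (drA ν (p t) p' q') t :=
    ((hq.const_smul (2 : ℝ)).add (hp2.const_smul (ν - 2))).const_smul (-(ν - 1))
  have hw : HasDerivAt (fun t => q t + (ν - 2) • (p t) ^ 2) (q' + (ν - 2) • (2 * p t * p')) t :=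
    hq.add (hp2.const_smul (ν - 2))
  have hw2 : HasDerivAt (fun t => (q t + (ν - 2) • (p t) ^ 2) ^ 2)
      (2 * (q t + (ν - 2) • (p t) ^ 2) * (q' + (ν - 2) • (2 * p t * p'))) t := by
    have := hw.fun_pow 2
    simpa using this
  have hn : HasDerivAt (fun t => nA ν (p t) (q t)) (dnA ν (p t) (q t) p' q') t :=
    (hq2.const_smul ((ν - 1) ^ 2)).add (hw2.const_smul (ν - 1))
  exact (hr.fun_pow k).mul hn

/-- the integrands -/
def gA (ν : ℝ) (k : ℕ) (p q dp dq : A) : A := (dq + (ν - 2) • (p * dp)) * hA ν k p q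

theorem defect (ν : ℝ) (k : ℕ) (I : A →L[ℝ] ℝ) (P1 Q1 P2 Q2 : A) {Φ : ℝ → ℝ → ℝ}
    (h1 : ∀ s t, HasDerivAt (fun s => Φ s t)
      (I (gA ν k (s • P1 + t • P2) (s • Q1 + t • Q2) P1 Q1)) s)
    (h2 : ∀ s t, HasDerivAt (fun t => Φ s t)
      (I (gA ν k (s • P1 + t • P2) (s • Q1 + t • Q2) P2 Q2)) t) :
    2 * (ν - 1) * (ν - 2) ^ 2 * I (rA ν P1 Q1 ^ k * (P1 * (P1 ^ 2 - Q1)) * (Q1 * P2 - P1 * Q2)) = 0 := by
  have cd : ∀ P Q : A, ContDiff ℝ 1 (fun x : ℝ × ℝ =>
      I (gA ν k (x.1 • P1 + x.2 • P2) (x.1 • Q1 + x.2 • Q2) P Q)) := by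
    intro P Q
    refine I.contDiff.comp ?_
    unfold gA hA rA nA
    fun_prop
  have ht : HasDerivAt (fun t : ℝ => I (gA ν k ((1 : ℝ) • P1 + t • P2) ((1 : ℝ) • Q1 + t • Q2) P1 Q1))
      (I (((ν - 2) • (P2 * P1)) * hA ν k P1 Q1
        + (Q1 + (ν - 2) • (P1 * P1)) * dhA ν k P1 Q1 P2 Q2)) 0 := by
    have e1 : HasDerivAt (fun t : ℝ => (1 : ℝ) • P1 + t • P2) P2 0 := by
      have := ((hasDerivAt_id (0 : ℝ)).smul_const P2).const_add ((1 : ℝ) • P1)
      simpa using this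
    have e2 : HasDerivAt (fun t : ℝ => (1 : ℝ) • Q1 + t • Q2) Q2 0 := by
      have := ((hasDerivAt_id (0 : ℝ)).smul_const Q2).const_add ((1 : ℝ) • Q1)
      simpa using this
    have e3 := hasDeriv_hA ν k e1 e2
    have e4 : HasDerivAt (fun t : ℝ => Q1 + (ν - 2) • (((1 : ℝ) • P1 + t • P2) * P1))
        ((ν - 2) • (P2 * P1)) 0 := ((e1.mul_const P1).const_smul (ν - 2)).const_add Q1
    have e5 : HasDerivAt (fun t : ℝ => gA ν k ((1 : ℝ) • P1 + t • P2) ((1 : ℝ) • Q1 + t • Q2) P1 Q1)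
        (((ν - 2) • (P2 * P1)) * hA ν k P1 Q1
          + (Q1 + (ν - 2) • (P1 * P1)) * dhA ν k P1 Q1 P2 Q2) 0 :=
      (e4.mul e3).congr_deriv (by simp only [one_smul, zero_smul, add_zero])
    exact I.hasFDerivAt.comp_hasDerivAt 0 e5
  have hs : HasDerivAt (fun s : ℝ => I (gA ν k (s • P1 + (0 : ℝ) • P2) (s • Q1 + (0 : ℝ) • Q2) P2 Q2))
      (I (((ν - 2) • (P1 * P2)) * hA ν k P1 Q1
        + (Q2 + (ν - 2) • (P1 * P2)) * dhA ν k P1 Q1 P1 Q1)) 1 := by
    have e1 : HasDerivAt (fun s : ℝ => s • P1 + (0 : ℝ) • P2) P1 1 := by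
      have := ((hasDerivAt_id (1 : ℝ)).smul_const P1).add_const ((0 : ℝ) • P2)
      simpa using this
    have e2 : HasDerivAt (fun s : ℝ => s • Q1 + (0 : ℝ) • Q2) Q1 1 := by
      have := ((hasDerivAt_id (1 : ℝ)).smul_const Q1).add_const ((0 : ℝ) • Q2)
      simpa using this
    have e3 := hasDeriv_hA ν k e1 e2
    have e4 : HasDerivAt (fun s : ℝ => Q2 + (ν - 2) • ((s • P1 + (0 : ℝ) • P2) * P2))
        ((ν - 2) • (P1 * P2)) 1 := ((e1.mul_const P2).const_smul (ν - 2)).const_add Q2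
    have e5 : HasDerivAt (fun s : ℝ => gA ν k (s • P1 + (0 : ℝ) • P2) (s • Q1 + (0 : ℝ) • Q2) P2 Q2)
        (((ν - 2) • (P1 * P2)) * hA ν k P1 Q1
          + (Q2 + (ν - 2) • (P1 * P2)) * dhA ν k P1 Q1 P1 Q1) 1 :=
      (e4.mul e3).congr_deriv (by simp only [one_smul, zero_smul, add_zero])
    exact I.hasFDerivAt.comp_hasDerivAt 1 e5
  have h := closed h1 h2 (cd P1 Q1) (cd P2 Q2) ht hs
  rw [← sub_eq_zero, ← map_sub] at h
  have key : ((ν - 2) • (P2 * P1)) * hA ν k P1 Q1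
        + (Q1 + (ν - 2) • (P1 * P1)) * dhA ν k P1 Q1 P2 Q2
        - (((ν - 2) • (P1 * P2)) * hA ν k P1 Q1
        + (Q2 + (ν - 2) • (P1 * P2)) * dhA ν k P1 Q1 P1 Q1)
      = (2 * (ν - 1) * (ν - 2) ^ 2) •
        (rA ν P1 Q1 ^ k * (P1 * (P1 ^ 2 - Q1)) * (Q1 * P2 - P1 * Q2)) := by
    unfold dhA
    generalize hR : rA ν P1 Q1 ^ k = R
    generalize hR' : rA ν P1 Q1 ^ (k - 1) = R'
    unfold drA dnA nA
    simp only [Algebra.smul_def, map_mul, map_sub, map_neg, map_pow, map_one, map_ofNat]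
    ring
  rw [key, map_smul, smul_eq_mul] at h
  exact h

end Alg

/-! ### continuous functions on `[0, 1]` -/

abbrev CA : Type := C(Set.Icc (0 : ℝ) 1, ℝ)

/-- the integral -/
noncomputable def IL : CA →L[ℝ] ℝ :=
  LinearMap.mkContinuous
    { toFun := fun f => ∫ t in (0 : ℝ)..1, Set.IccExtend zero_le_one f t
      map_add' := fun f g => by
        rw [← intervalIntegral.integral_add]
        · rfl
        · exact (f.continuous.Icc_extend' (h := zero_le_one)).intervalIntegrable 0 1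
        · exact (g.continuous.Icc_extend' (h := zero_le_one)).intervalIntegrable 0 1
      map_smul' := fun c f => by
        have := intervalIntegral.integral_const_mul (a := (0 : ℝ)) (b := 1) (μ := volume) c
          (fun t => Set.IccExtend zero_le_one f t)
        exact this }
    1 (fun f => by
      have h := intervalIntegral.norm_integral_le_of_norm_le_const (a := (0 : ℝ)) (b := 1)
        (C := ‖f‖) (f := fun t => Set.IccExtend zero_le_one f t) (fun t _ => f.norm_coe_le_norm _)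
      simpa using h)

/-- restriction of a continuous function to `[0, 1]` -/
def rs (f : ℝ → ℝ) (hf : Continuous f) : CA := ⟨fun t => f t, hf.comp continuous_subtype_val⟩

theorem IL_rs (f : ℝ → ℝ) (hf : Continuous f) : IL (rs f hf) = ∫ t in (0 : ℝ)..1, f t := by
  show ∫ t in (0 : ℝ)..1, Set.IccExtend zero_le_one (rs f hf) t = _
  refine intervalIntegral.integral_congr fun t ht => ?_
  rw [Set.uIcc_of_le zero_le_one] at ht
  show Set.IccExtend zero_le_one (rs f hf) t = f t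
  rw [Set.IccExtend_of_mem zero_le_one _ ht]
  rfl

/-- there is no potential -/
theorem no_potential {ν : ℝ} {k : ℕ} (hν : ν = 2 * k + 6)
    (H : ∀ w1 w2 : ℝ → ℝ, ContDiff ℝ (⊤ : ℕ∞) w1 → ContDiff ℝ (⊤ : ℕ∞) w2 →
      Function.Periodic w1 1 → Function.Periodic w2 1 → ∃ Φ : ℝ → ℝ → ℝ,
      (∀ s t, HasDerivAt (fun s => Φ s t)
        (∫ x in (0 : ℝ)..1, (deriv (deriv w1) x
          + (ν - 2) * (s * deriv w1 x + t * deriv w2 x) * deriv w1 x)
          * hh ν k (s * deriv w1 x + t * deriv w2 x)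
            (s * deriv (deriv w1) x + t * deriv (deriv w2) x)) s) ∧
      ∀ s t, HasDerivAt (fun t => Φ s t)
        (∫ x in (0 : ℝ)..1, (deriv (deriv w2) x
          + (ν - 2) * (s * deriv w1 x + t * deriv w2 x) * deriv w2 x)
          * hh ν k (s * deriv w1 x + t * deriv w2 x)
            (s * deriv (deriv w1) x + t * deriv (deriv w2) x)) t) : False := by
  have hk0 : (0 : ℝ) ≤ k := Nat.cast_nonneg k
  have hν1 : ν - 1 ≠ 0 := by rw [hν]; nlinarith
  have hν2 : ν - 2 ≠ 0 := by rw [hν]; nlinarith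
  have dif : ∀ {F : ℝ → ℝ}, ContDiff ℝ (⊤ : ℕ∞) F → Differentiable ℝ F := fun h =>
    h.differentiable (by simp)
  have per : ∀ {F : ℝ → ℝ}, Function.Periodic F 1 → Function.Periodic (deriv F) 1 := by
    intro F hF t
    have : (fun s => F (s + 1)) = F := funext hF
    rw [← deriv_comp_add_const, this]
  have per1 : ∀ {F : ℝ → ℝ}, Function.Periodic F 1 → F 1 = F 0 := by
    intro F hF
    have := hF 0
    rwa [zero_add] at this
  set c : ℝ := 2 * Real.pi with hc
  have hc0 : c ≠ 0 := by rw [hc]; positivity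
  set w1 : ℝ → ℝ := fun x => Real.sin (c * x) with hw1
  set p : ℝ → ℝ := fun x => c * Real.cos (c * x) with hp
  set q : ℝ → ℝ := fun x => -(c ^ 2 * Real.sin (c * x)) with hq
  have hcx : ∀ x : ℝ, HasDerivAt (fun x => c * x) c x := fun x => by
    simpa using (hasDerivAt_id x).const_mul c
  have dw1 : ∀ x, HasDerivAt w1 (p x) x := fun x => by
    refine ((hcx x).sin).congr_deriv ?_
    rw [hp]; ring
  have dp : ∀ x, HasDerivAt p (q x) x := fun x => by
    refine (((hcx x).cos).const_mul c).congr_deriv ?_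
    rw [hq]; ring
  have dq : ∀ x, HasDerivAt q (-(c ^ 3 * Real.cos (c * x))) x := fun x => by
    refine ((((hcx x).sin).const_mul (c ^ 2)).neg).congr_deriv ?_
    ring
  have ew1 : deriv w1 = p := funext fun x => (dw1 x).deriv
  have ep1 : deriv p = q := funext fun x => (dp x).deriv
  have cw1 : ContDiff ℝ (⊤ : ℕ∞) w1 := by rw [hw1]; fun_prop
  have cp : ContDiff ℝ (⊤ : ℕ∞) p := by rw [hp]; fun_prop
  have cq : ContDiff ℝ (⊤ : ℕ∞) q := by rw [hq]; fun_prop
  have pw1 : Function.Periodic w1 1 := fun x => by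
    show Real.sin (c * (x + 1)) = Real.sin (c * x)
    rw [mul_add, mul_one, hc, Real.sin_add_two_pi]
  have pp : Function.Periodic p 1 := by rw [← ew1]; exact per pw1
  have pq : Function.Periodic q 1 := by rw [← ep1]; exact per pp
  set m : ℝ → ℝ := fun x => rr ν (p x) (q x) with hm
  set Θ : ℝ → ℝ := fun x => m x ^ k * (p x * (p x ^ 2 - q x)) with hΘ
  have cm : ContDiff ℝ (⊤ : ℕ∞) m := by
    rw [hm]; unfold rr; fun_prop
  have cΘ : ContDiff ℝ (⊤ : ℕ∞) Θ := by rw [hΘ]; fun_prop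
  have pΘ : Function.Periodic Θ 1 := fun x => by
    show rr ν (p (x + 1)) (q (x + 1)) ^ k * (p (x + 1) * (p (x + 1) ^ 2 - q (x + 1))) = _
    rw [pp x, pq x]
  set ρ : ℝ → ℝ := fun x => 2 * (Θ x * q x) + deriv Θ x * p x with hρ
  have cΘ1 := hd1 cΘ
  have cρ : ContDiff ℝ (⊤ : ℕ∞) ρ := by rw [hρ]; fun_prop
  have pρ : Function.Periodic ρ 1 := fun x => by
    show 2 * (Θ (x + 1) * q (x + 1)) + deriv Θ (x + 1) * p (x + 1) = _
    rw [pΘ x, pq x, pp x, per pΘ x]
  have cρ1 := hd1 cρ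
  have cρ2 := hd1 cρ1
  have cρ3 := hd1 cρ2
  obtain ⟨Φ, h1, h2⟩ := H w1 (deriv ρ) cw1 cρ1 pw1 (per pρ)
  rw [ew1, ep1] at h1 h2
  set P1 : CA := rs p cp.continuous with hP1
  set Q1 : CA := rs q cq.continuous with hQ1
  set P2 : CA := rs (deriv (deriv ρ)) cρ2.continuous with hP2
  set Q2 : CA := rs (deriv (deriv (deriv ρ))) cρ3.continuous with hQ2
  have eI : ∀ (s t : ℝ) (P Q : ℝ → ℝ) (hP : Continuous P) (hQ : Continuous Q),
      IL (gA ν k (s • P1 + t • P2) (s • Q1 + t • Q2) (rs P hP) (rs Q hQ))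
        = ∫ x in (0 : ℝ)..1, (Q x + (ν - 2) * (s * p x + t * deriv (deriv ρ) x) * P x)
          * hh ν k (s * p x + t * deriv (deriv ρ) x) (s * q x + t * deriv (deriv (deriv ρ)) x) := by
    intro s t P Q hP hQ
    have hcont : Continuous fun x => (Q x + (ν - 2) * (s * p x + t * deriv (deriv ρ) x) * P x)
          * hh ν k (s * p x + t * deriv (deriv ρ) x)
            (s * q x + t * deriv (deriv (deriv ρ)) x) := by
      have := cp.continuous
      have := cq.continuous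
      have := cρ2.continuous
      have := cρ3.continuous
      unfold hh rr nn
      fun_prop
    rw [← IL_rs _ hcont]
    congr 1
    refine ContinuousMap.ext fun x => ?_
    show (Q x + (ν - 2) * ((s * p x + t * deriv (deriv ρ) x) * P x))
      * ((-(ν - 1) * (2 * (s * q x + t * deriv (deriv (deriv ρ)) x)
          + (ν - 2) * (s * p x + t * deriv (deriv ρ) x) ^ 2)) ^ k
        * ((ν - 1) ^ 2 * (s * q x + t * deriv (deriv (deriv ρ)) x) ^ 2
          + (ν - 1) * ((s * q x + t * deriv (deriv (deriv ρ)) x)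
            + (ν - 2) * (s * p x + t * deriv (deriv ρ) x) ^ 2) ^ 2))
      = (Q x + (ν - 2) * (s * p x + t * deriv (deriv ρ) x) * P x)
          * hh ν k (s * p x + t * deriv (deriv ρ) x) (s * q x + t * deriv (deriv (deriv ρ)) x)
    unfold hh rr nn
    ring
  have hD := defect ν k IL P1 Q1 P2 Q2 (Φ := Φ)
    (fun s t => by rw [eI s t p q cp.continuous cq.continuous]; exact h1 s t)
    (fun s t => by
      rw [eI s t (deriv (deriv ρ)) (deriv (deriv (deriv ρ))) cρ2.continuous cρ3.continuous]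
      exact h2 s t)
  have hne : 2 * (ν - 1) * (ν - 2) ^ 2 ≠ 0 :=
    mul_ne_zero (mul_ne_zero two_ne_zero hν1) (pow_ne_zero 2 hν2)
  have hD0 := (mul_eq_zero.mp hD).resolve_left hne
  have c1 := cΘ.continuous
  have c2 := cp.continuous
  have c3 := cq.continuous
  have c4 := cρ2.continuous
  have c5 := cρ3.continuous
  have c6 := cΘ1.continuous
  have hD1 : ∫ x in (0 : ℝ)..1, Θ x * (q x * deriv (deriv ρ) x - p x * deriv (deriv (deriv ρ)) x)
      = 0 := by
    have hcont : Continuous fun x => Θ x * (q x * deriv (deriv ρ) x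
        - p x * deriv (deriv (deriv ρ)) x) := by fun_prop
    refine (IL_rs _ hcont).symm.trans (Eq.trans (congrArg IL ?_) hD0)
    refine ContinuousMap.ext fun x => ?_
    show Θ x * (q x * deriv (deriv ρ) x - p x * deriv (deriv (deriv ρ)) x)
      = (-(ν - 1) * (2 * q x + (ν - 2) * p x ^ 2)) ^ k * (p x * (p x ^ 2 - q x))
        * (q x * deriv (deriv ρ) x - p x * deriv (deriv (deriv ρ)) x)
    rfl
  have dΘ : ∀ x, HasDerivAt Θ (deriv Θ x) x := fun x => (dif cΘ x).hasDerivAt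
  have dΘp : ∀ x, HasDerivAt (fun x => Θ x * p x) (deriv Θ x * p x + Θ x * q x) x := fun x =>
    (dΘ x).mul (dp x)
  have dρ : ∀ x, HasDerivAt ρ (deriv ρ x) x := fun x => (dif cρ x).hasDerivAt
  have dρ1 : ∀ x, HasDerivAt (deriv ρ) (deriv (deriv ρ) x) x := fun x => (dif cρ1 x).hasDerivAt
  have dρ2 : ∀ x, HasDerivAt (deriv (deriv ρ)) (deriv (deriv (deriv ρ)) x) x := fun x =>
    (dif cρ2 x).hasDerivAt
  have hD2 : ∫ x in (0 : ℝ)..1, ρ x * deriv (deriv ρ) x = 0 := by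
    have e1 := int_parts dΘp dρ2 ((c6.mul c2).add (c1.mul c3)) c5
      (by show Θ 1 * p 1 = Θ 0 * p 0; rw [per1 pΘ, per1 pp]) (per1 (per (per pρ)))
    have e2 : ∫ x in (0 : ℝ)..1, Θ x * (q x * deriv (deriv ρ) x
        - p x * deriv (deriv (deriv ρ)) x)
        = (∫ x in (0 : ℝ)..1, Θ x * q x * deriv (deriv ρ) x)
          - ∫ x in (0 : ℝ)..1, Θ x * p x * deriv (deriv (deriv ρ)) x := by
      rw [← intervalIntegral.integral_sub]
      · refine intervalIntegral.integral_congr fun x _ => ?_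
        show Θ x * (q x * deriv (deriv ρ) x - p x * deriv (deriv (deriv ρ)) x)
          = Θ x * q x * deriv (deriv ρ) x - Θ x * p x * deriv (deriv (deriv ρ)) x
        ring
      · exact ((c1.mul c3).mul c4).intervalIntegrable 0 1
      · exact ((c1.mul c2).mul c5).intervalIntegrable 0 1
    rw [e2, e1, sub_neg_eq_add, ← intervalIntegral.integral_add] at hD1
    · refine Eq.trans ?_ hD1
      refine intervalIntegral.integral_congr fun x _ => ?_
      show (2 * (Θ x * q x) + deriv Θ x * p x) * deriv (deriv ρ) x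
        = Θ x * q x * deriv (deriv ρ) x + (deriv Θ x * p x + Θ x * q x) * deriv (deriv ρ) x
      ring
    · exact ((c1.mul c3).mul c4).intervalIntegrable 0 1
    · exact (((c6.mul c2).add (c1.mul c3)).mul c4).intervalIntegrable 0 1
  have hD3 : ∫ x in (0 : ℝ)..1, deriv ρ x * deriv ρ x = 0 := by
    have e1 := int_parts dρ dρ1 cρ1.continuous c4 (per1 pρ) (per1 (per pρ))
    rw [hD2] at e1
    linarith
  have hz : ∀ x ∈ Set.Icc (0 : ℝ) 1, deriv ρ x = 0 := by
    intro x hx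
    by_contra hne
    have hpos := intervalIntegral.integral_pos (a := (0 : ℝ)) (b := 1)
      (f := fun x => deriv ρ x * deriv ρ x) zero_lt_one
      ((cρ1.continuous.mul cρ1.continuous).continuousOn) (fun y _ => mul_self_nonneg _)
      ⟨x, hx, mul_self_pos.mpr hne⟩
    rw [hD3] at hpos
    exact lt_irrefl _ hpos
  have hconst : ρ (1 / 4) = ρ 0 := by
    have e1 := intervalIntegral.integral_eq_sub_of_hasDerivAt (a := (0 : ℝ)) (b := 1 / 4)
      (fun x _ => dρ x) (cρ1.continuous.intervalIntegrable 0 (1 / 4))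
    have e2 : ∫ x in (0 : ℝ)..(1 / 4), deriv ρ x = ∫ x in (0 : ℝ)..(1 / 4), (0 : ℝ) := by
      refine intervalIntegral.integral_congr fun x hx => ?_
      rw [Set.uIcc_of_le (by norm_num)] at hx
      exact hz x ⟨hx.1, hx.2.trans (by norm_num)⟩
    rw [e2, intervalIntegral.integral_zero] at e1
    linarith
  have hp14 : p (1 / 4) = 0 := by
    show c * Real.cos (c * (1 / 4)) = 0
    have : c * (1 / 4) = Real.pi / 2 := by rw [hc]; ring
    rw [this, Real.cos_pi_div_two, mul_zero]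
  have hρ14 : ρ (1 / 4) = 0 := by
    show 2 * (Θ (1 / 4) * q (1 / 4)) + deriv Θ (1 / 4) * p (1 / 4) = 0
    have : Θ (1 / 4) = 0 := by
      show m (1 / 4) ^ k * (p (1 / 4) * (p (1 / 4) ^ 2 - q (1 / 4))) = 0
      rw [hp14]; ring
    rw [this, hp14]; ring
  have hp0 : p 0 = c := by
    show c * Real.cos (c * 0) = c
    rw [mul_zero, Real.cos_zero, mul_one]
  have hq0 : q 0 = 0 := by
    show -(c ^ 2 * Real.sin (c * 0)) = 0
    rw [mul_zero, Real.sin_zero, mul_zero, neg_zero]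
  have hm0 : m 0 = -(ν - 1) * ((ν - 2) * c ^ 2) := by
    show rr ν (p 0) (q 0) = _
    rw [hp0, hq0]
    unfold rr
    ring
  have hm0' : m 0 ≠ 0 := by
    rw [hm0]
    exact mul_ne_zero (neg_ne_zero.mpr hν1) (mul_ne_zero hν2 (pow_ne_zero 2 hc0))
  have dm0 : HasDerivAt m (2 * (ν - 1) * c ^ 3) 0 := by
    have e1 : HasDerivAt m (-(ν - 1) * (2 * (-(c ^ 3 * Real.cos (c * 0)))
        + (ν - 2) * (2 * p 0 * q 0))) 0 := by
      have e2 : HasDerivAt (fun x => p x ^ 2) (2 * p 0 * q 0) 0 := by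
        simpa using (dp 0).fun_pow 2
      exact (((dq 0).const_mul 2).add (e2.const_mul (ν - 2))).const_mul (-(ν - 1))
    refine e1.congr_deriv ?_
    have hcos : Real.cos (c * 0) = 1 := by rw [mul_zero, Real.cos_zero]
    rw [hq0, hcos]
    ring
  have dΘ0 : deriv Θ 0 = (k * m 0 ^ (k - 1) * (2 * (ν - 1) * c ^ 3)) * (c * c ^ 2)
      + m 0 ^ k * (c * c ^ 3) := by
    have e2 : HasDerivAt (fun x => p x ^ 2) (2 * p 0 * q 0) 0 := by
      simpa using (dp 0).fun_pow 2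
    have e3 : HasDerivAt (fun x => p x * (p x ^ 2 - q x))
        (q 0 * (p 0 ^ 2 - q 0) + p 0 * (2 * p 0 * q 0 - -(c ^ 3 * Real.cos (c * 0)))) 0 :=
      (dp 0).mul (e2.sub (dq 0))
    have e4 : HasDerivAt Θ _ 0 := (dm0.fun_pow k).mul e3
    have hcos : Real.cos (c * 0) = 1 := by rw [mul_zero, Real.cos_zero]
    rw [e4.deriv, hq0, hp0, hcos]
    ring
  have hρ0 : ρ 0 = c * deriv Θ 0 := by
    show 2 * (Θ 0 * q 0) + deriv Θ 0 * p 0 = _
    rw [hq0, hp0]; ring
  have hfin : deriv Θ 0 * m 0 = -4 * (m 0 ^ k * (ν - 1) * c ^ 6) := by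
    have e1 : (k : ℝ) * m 0 ^ (k - 1) * m 0 = k * m 0 ^ k := by
      rcases k with _ | k
      · simp
      · rw [Nat.add_sub_cancel, mul_assoc, ← pow_succ]
    rw [dΘ0]
    have e2 : ((k * m 0 ^ (k - 1) * (2 * (ν - 1) * c ^ 3)) * (c * c ^ 2)
      + m 0 ^ k * (c * c ^ 3)) * m 0
      = (k * m 0 ^ (k - 1) * m 0) * (2 * (ν - 1) * c ^ 6) + m 0 ^ k * c ^ 4 * m 0 := by ring
    rw [e2, e1]
    have e3 : m 0 ^ k * c ^ 4 * m 0 = m 0 ^ k * c ^ 4 * (-(ν - 1) * ((ν - 2) * c ^ 2)) := by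
      rw [hm0]
    rw [e3, hν]
    ring
  have hR : -4 * (m 0 ^ k * (ν - 1) * c ^ 6) ≠ 0 :=
    mul_ne_zero (by norm_num) (mul_ne_zero (mul_ne_zero (pow_ne_zero k hm0') hν1)
      (pow_ne_zero 6 hc0))
  rw [hρ14, hρ0] at hconst
  rcases mul_eq_zero.mp hconst.symm with h | h
  · exact hc0 h
  · rw [h, zero_mul] at hfin
    exact hR hfin.symm

end Run7.h96.Nd
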