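import Pool.Agent.Run7.h96.Nd5

/-!
Natural densities: the decomposition `S = c Q + L + G` fails.
-/

set_option linter.all false

open scoped BigOperators
open MeasureTheory

namespace Run7.h96.Nd

variable {n : ℕ}

theorem tint_eq (g : Fin n → Fin n → Fn n) (f : Fn n) : tint g f = cube (f * vol g) := rfl

theorem flt_eq : (flt : Fin n → Fin n → Fn n) = conf (fun _ => 0) flt := by
  funext i j x
  show D i j = Real.exp (2 * 0) * D i j
  rw [mul_zero, Real.exp_zero, one_mul]

theorem flt_met : TMet (flt : Fin n → Fin n → Fn n) := by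
  rw [flt_eq]
  exact conf_flt_met ⟨smooth_const 0, per_const 0⟩

theorem vol_flt : vol (flt : Fin n → Fin n → Fn n) = 1 := by
  rw [flt_eq]
  funext x
  rw [vol_conf_flt, mul_zero, Real.exp_zero]
  rfl

theorem tint_flt (f : Fn n) : tint flt f = cube f := by
  rw [tint_eq, vol_flt, mul_one]

theorem vol_conf_flt' (U : Fn n) : vol (conf U flt) = fun x => Real.exp (n * U x) :=
  funext fun x => vol_conf_flt U x

theorem main (n : ℕ) (hn : Even n) (h6 : 6 ≤ n) :
    ∃ (S : Fml 0) (V : Fml 1),
      (∀ g : Fin n → Fin n → Fn n, IsMet g → scal S g = dvg g (cov V g)) ∧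
      (∀ g : Fin n → Fin n → Fn n, TMet g → tint g (scal S g) = 0) ∧
      ¬ ∃ (c : ℝ) (Q L G F : Fml 0), CritQ n Q ∧ ConfInv n L ∧ Prim n F G ∧
        ∀ g : Fin n → Fin n → Fn n, TMet g → scal S g = c • scal Q g + scal L g + scal G g := by
  obtain ⟨k, hk⟩ : ∃ k, n = 2 * k + 6 := by
    obtain ⟨m, hm⟩ := hn
    exact ⟨m - 3, by omega⟩
  refine ⟨fS k, fV k, fun g _ => scal_fS k g, fun g hg => ?_, ?_⟩
  · rw [scal_fS]
    refine tint_dvg hg (fun i => ?_) (fun i => ?_)
    · exact val_smooth hg.1 _ _
    · exact val_per hg.2 _ _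
  rintro ⟨c, Q, L, G, F, hQ, hL, hF, hdec⟩
  have z : Fin n := ⟨0, by omega⟩
  refine no_potential (ν := n) (k := k) (by rw [hk]; push_cast; ring) ?_
  intro w1 w2 cw1 cw2 pw1 pw2
  obtain ⟨P, hPl, hPs, hPQ⟩ := hQ flt flt_met
  set U : ℝ → ℝ → Fn n := fun s t => lift z (fun x => s * w1 x + t * w2 x) with hU
  have hW : ∀ {w : ℝ → ℝ}, ContDiff ℝ (⊤ : ℕ∞) w → Function.Periodic w 1 → TFn (lift z w) :=
    fun hw pw => ⟨lift_smooth z hw, lift_per z pw⟩
  have cu : ∀ s t : ℝ, ContDiff ℝ (⊤ : ℕ∞) (fun x => s * w1 x + t * w2 x) := fun s t => by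
    fun_prop
  have pu : ∀ s t : ℝ, Function.Periodic (fun x => s * w1 x + t * w2 x) 1 := fun s t x => by
    show s * w1 (x + 1) + t * w2 (x + 1) = _
    rw [pw1 x, pw2 x]
  have hUT : ∀ s t, TFn (U s t) := fun s t => hW (cu s t) (pu s t)
  have hW1 := hW cw1 pw1
  have hW2 := hW cw2 pw2
  have hUeq : ∀ s t, U s t = s • lift z w1 + t • lift z w2 := fun s t => rfl
  -- continuity of the terms
  have cQ0 : Continuous (scal Q (flt : Fin n → Fin n → Fn n)) := (scal_smooth flt_met.1 Q).cont
  have cL0 : Continuous (scal L (flt : Fin n → Fin n → Fn n)) := (scal_smooth flt_met.1 L).cont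
  have cP : ∀ {ω : Fn n}, TFn ω → Continuous (P ω) := by
    intro ω hω
    have h1 : P ω = fun x => Real.exp (n * ω x) * scal Q (conf ω flt) x - scal Q flt x :=
      funext fun x => by rw [hPQ ω hω x]; ring
    have h2 := (scal_smooth (conf_flt_met hω).1 Q).cont
    have h3 := Smooth.cont hω.1
    rw [h1]
    exact ((Real.continuous_exp.comp (continuous_const.mul h3)).mul h2).sub cQ0
  -- the pairing with G
  have key : ∀ (w : ℝ → ℝ), ContDiff ℝ (⊤ : ℕ∞) w → Function.Periodic w 1 → ∀ s t : ℝ,
      tint (conf (U s t) flt) (lift z w * scal G (conf (U s t) flt))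
        = tint (conf (U s t) flt) (lift z w * scal (fS k) (conf (U s t) flt))
          - c * (cube (lift z w * scal Q flt) + s * cube (lift z w * P (lift z w1))
            + t * cube (lift z w * P (lift z w2)))
          - cube (lift z w * scal L flt) := by
    intro w cw pw s t
    have hm := conf_flt_met (hUT s t)
    have hw := hW cw pw
    have cW : Continuous (lift z w) := Smooth.cont hw.1
    have cS : Continuous (scal (fS k) (conf (U s t) flt)) := (scal_smooth hm.1 _).cont
    have cV : Continuous (vol (conf (U s t) flt)) := (vol_smooth hm.1).cont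
    have cP1 := cP hW1
    have cP2 := cP hW2
    have e1 : (lift z w * scal G (conf (U s t) flt)) * vol (conf (U s t) flt)
        = ((lift z w * scal (fS k) (conf (U s t) flt)) * vol (conf (U s t) flt)
            - c • (lift z w * scal Q flt + (s • (lift z w * P (lift z w1))
              + t • (lift z w * P (lift z w2)))))
          - lift z w * scal L flt := by
      funext x
      have f1 := congrFun (hdec _ hm) x
      have f2 := hPQ _ (hUT s t) x
      have f3 := hL flt flt_met _ (hUT s t) x
      have f4 : P (U s t) x = s * P (lift z w1) x + t * P (lift z w2) x := by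
        rw [hUeq, hPl _ _ hW1 hW2 s t]
        rfl
      rw [f4] at f2
      simp only [Pi.mul_apply, Pi.sub_apply, Pi.add_apply, Pi.smul_apply, smul_eq_mul] at f1 ⊢
      rw [vol_conf_flt]
      linear_combination (-(lift z w x) * Real.exp (n * U s t x)) * f1 - c * lift z w x * f2
        - lift z w x * f3
    rw [tint_eq, e1, cube_sub, cube_sub, cube_smul, cube_add, cube_add, cube_smul, cube_smul,
      tint_eq]
    · ring
    · exact (cW.mul cP1).const_smul s
    · exact (cW.mul cP2).const_smul t
    · exact cW.mul cQ0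
    · exact ((cW.mul cP1).const_smul s).add ((cW.mul cP2).const_smul t)
    · exact (cW.mul cS).mul cV
    · exact ((cW.mul cQ0).add (((cW.mul cP1).const_smul s).add
        ((cW.mul cP2).const_smul t))).const_smul c
    · exact ((cW.mul cS).mul cV).sub (((cW.mul cQ0).add (((cW.mul cP1).const_smul s).add
        ((cW.mul cP2).const_smul t))).const_smul c)
    · exact cW.mul cL0
  have hsym : cube (lift z w2 * P (lift z w1)) = cube (lift z w1 * P (lift z w2)) := by
    have := hPs _ _ hW1 hW2
    rwa [tint_flt, tint_flt] at this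
  -- derivatives of the total integral of F
  have d1 : ∀ s t : ℝ, HasDerivAt (fun s => tint (conf (U s t) flt) (scal F (conf (U s t) flt)))
      (tint (conf (U s t) flt) (lift z w1 * scal G (conf (U s t) flt))) s := by
    intro s t
    have h := hF _ (conf_flt_met (hUT s t)) _ hW1
    have e1 : ∀ ε : ℝ, conf (ε • lift z w1) (conf (U s t) flt) = conf (U (s + ε) t) flt := by
      intro ε
      funext i j x
      show Real.exp (2 * (ε * w1 (x z))) * (Real.exp (2 * (s * w1 (x z) + t * w2 (x z))) * D i j)
        = Real.exp (2 * ((s + ε) * w1 (x z) + t * w2 (x z))) * D i j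
      rw [← mul_assoc, exp_mul']
      congr 2
      ring
    simp only [e1] at h
    have h' : HasDerivAt (fun ε : ℝ => tint (conf (U (s + ε) t) flt)
        (scal F (conf (U (s + ε) t) flt)))
        (tint (conf (U s t) flt) (lift z w1 * scal G (conf (U s t) flt))) (s - s) := by
      rw [sub_self]; exact h
    have h2 := HasDerivAt.comp_sub_const s s h'
    simpa using h2
  have d2 : ∀ s t : ℝ, HasDerivAt (fun t => tint (conf (U s t) flt) (scal F (conf (U s t) flt)))
      (tint (conf (U s t) flt) (lift z w2 * scal G (conf (U s t) flt))) t := by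
    intro s t
    have h := hF _ (conf_flt_met (hUT s t)) _ hW2
    have e1 : ∀ ε : ℝ, conf (ε • lift z w2) (conf (U s t) flt) = conf (U s (t + ε)) flt := by
      intro ε
      funext i j x
      show Real.exp (2 * (ε * w2 (x z))) * (Real.exp (2 * (s * w1 (x z) + t * w2 (x z))) * D i j)
        = Real.exp (2 * (s * w1 (x z) + (t + ε) * w2 (x z))) * D i j
      rw [← mul_assoc, exp_mul']
      congr 2
      ring
    simp only [e1] at h
    have h' : HasDerivAt (fun ε : ℝ => tint (conf (U s (t + ε)) flt)
        (scal F (conf (U s (t + ε)) flt)))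
        (tint (conf (U s t) flt) (lift z w2 * scal G (conf (U s t) flt))) (t - t) := by
      rw [sub_self]; exact h
    have h2 := HasDerivAt.comp_sub_const t t h'
    simpa using h2
  -- the pairings with S
  have du1 : ∀ s t : ℝ, deriv (fun x => s * w1 x + t * w2 x)
      = fun x => s * deriv w1 x + t * deriv w2 x := by
    intro s t
    funext x
    have a1 := (cw1.differentiable (by simp) x).hasDerivAt
    have a2 := (cw2.differentiable (by simp) x).hasDerivAt
    exact ((a1.const_mul s).add (a2.const_mul t)).deriv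
  have du2 : ∀ s t : ℝ, deriv (deriv (fun x => s * w1 x + t * w2 x))
      = fun x => s * deriv (deriv w1) x + t * deriv (deriv w2) x := by
    intro s t
    rw [du1]
    funext x
    have a1 := ((hd1 cw1).differentiable (by simp) x).hasDerivAt
    have a2 := ((hd1 cw2).differentiable (by simp) x).hasDerivAt
    exact ((a1.const_mul s).add (a2.const_mul t)).deriv
  have hpair : ∀ (w : ℝ → ℝ), ContDiff ℝ (⊤ : ℕ∞) w → Function.Periodic w 1 → ∀ s t : ℝ,
      tint (conf (U s t) flt) (lift z w * scal (fS k) (conf (U s t) flt))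
        = ∫ x in (0 : ℝ)..1, (deriv (deriv w) x
          + (n - 2) * (s * deriv w1 x + t * deriv w2 x) * deriv w x)
          * hh n k (s * deriv w1 x + t * deriv w2 x)
            (s * deriv (deriv w1) x + t * deriv (deriv w2) x) := by
    intro w cw pw s t
    have h := pair_conf z hk (cu s t) cw (pu s t) pw
    rw [du2, du1] at h
    exact h
  set q1 := cube (lift z w1 * scal Q flt) with hq1
  set q2 := cube (lift z w2 * scal Q flt) with hq2
  set m11 := cube (lift z w1 * P (lift z w1)) with hm11
  set m12 := cube (lift z w1 * P (lift z w2)) with hm12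
  set m22 := cube (lift z w2 * P (lift z w2)) with hm22
  set l1 := cube (lift z w1 * scal L flt) with hl1
  set l2 := cube (lift z w2 * scal L flt) with hl2
  refine ⟨fun s t => tint (conf (U s t) flt) (scal F (conf (U s t) flt))
    + (c * (q1 * s + q2 * t + m11 * s ^ 2 / 2 + m12 * s * t + m22 * t ^ 2 / 2) + l1 * s + l2 * t),
    fun s t => ?_, fun s t => ?_⟩
  · have e1 := key w1 cw1 pw1 s t
    rw [hpair w1 cw1 pw1] at e1
    have e2 : HasDerivAt (fun s : ℝ => c * (q1 * s + q2 * t + m11 * s ^ 2 / 2 + m12 * s * t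
        + m22 * t ^ 2 / 2) + l1 * s + l2 * t) (c * (q1 + m11 * s + m12 * t) + l1) s := by
      have b1 : HasDerivAt (fun s : ℝ => s ^ 2) (2 * s) s := by simpa using hasDerivAt_pow 2 s
      have b0 := hasDerivAt_id s
      have b2 := ((((((b0.const_mul q1).add_const (q2 * t)).add ((b1.const_mul m11).div_const 2)).add
        ((b0.const_mul m12).mul_const t)).add_const (m22 * t ^ 2 / 2)).const_mul c).add
        (b0.const_mul l1)
      refine (b2.add_const (l2 * t)).congr_deriv ?_
      ring
    refine ((d1 s t).add e2).congr_deriv ?_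
    rw [e1]
    ring
  · have e1 := key w2 cw2 pw2 s t
    rw [hpair w2 cw2 pw2, hsym] at e1
    have e2 : HasDerivAt (fun t : ℝ => c * (q1 * s + q2 * t + m11 * s ^ 2 / 2 + m12 * s * t
        + m22 * t ^ 2 / 2) + l1 * s + l2 * t) (c * (q2 + m12 * s + m22 * t) + l2) t := by
      have b1 : HasDerivAt (fun t : ℝ => t ^ 2) (2 * t) t := by simpa using hasDerivAt_pow 2 t
      have b0 := hasDerivAt_id t
      have b2 := ((((((b0.const_mul q2).const_add (q1 * s)).add_const (m11 * s ^ 2 / 2)).add
        (b0.const_mul (m12 * s))).add ((b1.const_mul m22).div_const 2)).const_mul c).add_const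
        (l1 * s)
      refine (b2.add (b0.const_mul l2)).congr_deriv ?_
      ring
    refine ((d2 s t).add e2).congr_deriv ?_
    rw [e1]
    ring

end Run7.h96.Nd
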