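import Mathlib

/-!
Natural densities with conformally invariant integral: the definitions used in the statement.

Metrics on the torus `T^n = ℝ^n / ℤ^n` are periodic metrics on `ℝ^n`; natural scalars are given by
universal formulas in the metric, its inverse, its curvature tensor and covariant derivatives.
-/

open scoped BigOperators

namespace Run7.h96.Nd

/-- real functions on `ℝ^n` -/
abbrev Fn (n : ℕ) : Type := (Fin n → ℝ) → ℝ

/-- smooth functions -/
def Smooth {n : ℕ} (f : Fn n) : Prop := ContDiff ℝ (⊤ : ℕ∞) f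

/-- coordinate derivative `∂_i f` -/
noncomputable def pd {n : ℕ} (i : Fin n) (f : Fn n) : Fn n := fun x => fderiv ℝ f x (Pi.single i 1)

section

variable {n : ℕ}

/-- `g` is a smooth Riemannian metric on `ℝ^n` -/
def IsMet (g : Fin n → Fin n → Fn n) : Prop :=
  (∀ i j, Smooth (g i j)) ∧ ∀ x, (Matrix.of fun i j => g i j x).PosDef

/-- the inverse metric -/
noncomputable def inv (g : Fin n → Fin n → Fn n) (i j : Fin n) : Fn n :=
  fun x => (Matrix.of fun i j => g i j x)⁻¹ i j

/-- Christoffel symbols `Γ^l_{ij}` -/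
noncomputable def chr (g : Fin n → Fin n → Fn n) (l i j : Fin n) : Fn n :=
  (1 / 2 : ℝ) • ∑ p, inv g l p * (pd i (g j p) + pd j (g i p) - pd p (g i j))

/-- covariant tensors with `r` slots, given by their components -/
abbrev Tens (n r : ℕ) : Type := (Fin r → Fin n) → Fn n

/-- covariant derivative `∇_i T` -/
noncomputable def nab (g : Fin n → Fin n → Fn n) {r : ℕ} (T : Tens n r) (i : Fin n)
    (K : Fin r → Fin n) : Fn n :=
  pd i (T K) - ∑ s, ∑ l, chr g l i (K s) * T (Function.update K s l)

/-- the curvature tensor `g(∇_i ∇_j ∂_m - ∇_j ∇_i ∂_m, ∂_l)`, `K = (i, j, l, m)` -/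
noncomputable def rm (g : Fin n → Fin n → Fn n) (K : Fin 4 → Fin n) : Fn n :=
  ∑ p, g (K 2) p * (pd (K 0) (chr g p (K 1) (K 3)) - pd (K 1) (chr g p (K 0) (K 3))
    + ∑ q, (chr g p (K 0) q * chr g q (K 1) (K 3) - chr g p (K 1) q * chr g q (K 0) (K 3)))

end

/-- universal formulas for natural tensors with `r` slots, built from the metric and its curvature
by linear combinations, tensor products, permutations of the slots, contractions and covariant
derivatives -/
inductive Fml : ℕ → Type
  | one : Fml 0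
  | met : Fml 2
  | curv : Fml 4
  | zero (r : ℕ) : Fml r
  | add {r : ℕ} : Fml r → Fml r → Fml r
  | smul {r : ℕ} (t : ℝ) : Fml r → Fml r
  | mul {r r' t : ℕ} (e : Fin r ⊕ Fin r' ≃ Fin t) : Fml r → Fml r' → Fml t
  | perm {r t : ℕ} (e : Fin r ≃ Fin t) : Fml r → Fml t
  | contr {r t : ℕ} (e : Fin t ≃ Option (Option (Fin r))) : Fml t → Fml r
  | deriv {r t : ℕ} (e : Option (Fin r) ≃ Fin t) : Fml r → Fml t

section

variable {n : ℕ}

/-- the value of a formula for the metric `g` -/
noncomputable def Fml.val (g : Fin n → Fin n → Fn n) : {r : ℕ} → Fml r → Tens n r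
  | _, .one => fun _ => 1
  | _, .met => fun K => g (K 0) (K 1)
  | _, .curv => rm g
  | _, .zero _ => fun _ => 0
  | _, .add S T => fun K => S.val g K + T.val g K
  | _, .smul t T => fun K => t • T.val g K
  | _, .mul e S T => fun K => S.val g (fun s => K (e (Sum.inl s)))
      * T.val g (fun s => K (e (Sum.inr s)))
  | _, .perm e T => fun K => T.val g (fun s => K (e s))
  | _, .contr e T => fun K => ∑ i, ∑ j, inv g i j
      * T.val g (fun s => (e s).elim i (fun o => o.elim j K))
  | _, .deriv e T => fun K => nab g (T.val g) (K (e none)) (fun s => K (e (some s)))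

/-- the natural scalar given by a formula without slots -/
noncomputable def scal (P : Fml 0) (g : Fin n → Fin n → Fn n) : Fn n := P.val g ![]

/-- the natural covector field given by a formula with one slot -/
noncomputable def cov (V : Fml 1) (g : Fin n → Fin n → Fn n) (i : Fin n) : Fn n :=
  V.val g (fun _ => i)

/-- the divergence of the covector field `v` -/
noncomputable def dvg (g : Fin n → Fin n → Fn n) (v : Fin n → Fn n) : Fn n :=
  ∑ a, ∑ b, inv g a b * (pd a (v b) - ∑ c, chr g c a b * v c)

/-- the metric `e^{2ω} g` -/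
noncomputable def conf (ω : Fn n) (g : Fin n → Fin n → Fn n) (i j : Fin n) : Fn n :=
  fun x => Real.exp (2 * ω x) * g i j x

/-- `f` is periodic in all the variables -/
def Per (f : Fn n) : Prop := ∀ (a : Fin n) (x : Fin n → ℝ), f (x + Pi.single a 1) = f x

/-- smooth functions on the torus `T^n` -/
def TFn (f : Fn n) : Prop := Smooth f ∧ Per f

/-- smooth Riemannian metrics on the torus `T^n` -/
def TMet (g : Fin n → Fin n → Fn n) : Prop := IsMet g ∧ ∀ i j, Per (g i j)

/-- the integral over `T^n` with respect to the volume form of `g` -/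
noncomputable def tint (g : Fin n → Fin n → Fn n) (f : Fn n) : ℝ :=
  ∫ x in Set.Icc (0 : Fin n → ℝ) 1, f x * Real.sqrt (Matrix.of fun i j => g i j x).det

end

/-- `L dv` is a local conformal invariant (on `T^n`): `L_{e^{2ω}g} = e^{-nω} L_g` -/
def ConfInv (n : ℕ) (L : Fml 0) : Prop :=
  ∀ g : Fin n → Fin n → Fn n, TMet g → ∀ ω, TFn ω → ∀ x,
    Real.exp (n * ω x) * scal L (conf ω g) x = scal L g x

/-- the properties of the critical `Q`-curvature which are used (on `T^n`): for every metric `g`
there is a linear and formally self-adjoint `P_g` with `e^{nω} Q_{e^{2ω}g} = Q_g + P_g ω` -/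
def CritQ (n : ℕ) (Q : Fml 0) : Prop :=
  ∀ g : Fin n → Fin n → Fn n, TMet g → ∃ P : Fn n → Fn n,
    (∀ ω ψ, TFn ω → TFn ψ → ∀ s t : ℝ, P (s • ω + t • ψ) = s • P ω + t • P ψ) ∧
    (∀ ω ψ, TFn ω → TFn ψ → tint g (ψ * P ω) = tint g (ω * P ψ)) ∧
    ∀ ω, TFn ω → ∀ x, Real.exp (n * ω x) * scal Q (conf ω g) x = scal Q g x + P ω x

/-- the integral of `F` has conformal variation `∫ ω G` (on `T^n`) -/
def Prim (n : ℕ) (F G : Fml 0) : Prop :=
  ∀ g : Fin n → Fin n → Fn n, TMet g → ∀ ω, TFn ω →
    HasDerivAt (fun ε : ℝ => tint (conf (ε • ω) g) (scal F (conf (ε • ω) g)))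
      (tint g (ω * scal G g)) 0

end Run7.h96.Nd
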